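import Mathlib

/-!
Shannon entropy of functions on a finite probability space, in an elementary form.
-/

namespace Pool.Agent.Lib.MP_dd2a7c_co

open Finset
open scoped Classical

noncomputable section

variable {Ω Ω' α β γ δ : Type*} [Fintype Ω] [Fintype Ω']

/-- Probability weights on a finite type. -/
structure IsProb (p : Ω → ℝ) : Prop where
  nonneg : ∀ ω, 0 ≤ p ω
  sum_one : ∑ ω, p ω = 1

/-- The probability that `f = a`. -/
def pr (p : Ω → ℝ) (f : Ω → α) (a : α) : ℝ := ∑ ω, if f ω = a then p ω else 0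

/-- Shannon entropy of `f` under the weights `p`. -/
def ent (p : Ω → ℝ) (f : Ω → α) : ℝ := -∑ ω, p ω * Real.log (pr p f (f ω))

variable {p : Ω → ℝ}

lemma pr_nonneg (hp : IsProb p) (f : Ω → α) (a : α) : 0 ≤ pr p f a := by
  unfold pr
  refine sum_nonneg fun ω _ => ?_
  split_ifs
  · exact hp.nonneg ω
  · exact le_rfl

lemma le_pr (hp : IsProb p) (f : Ω → α) (ω : Ω) : p ω ≤ pr p f (f ω) := by
  unfold pr
  have := single_le_sum (f := fun ω' => if f ω' = f ω then p ω' else 0)
    (s := (univ : Finset Ω)) (fun ω' _ => by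
      split_ifs
      · exact hp.nonneg ω'
      · exact le_rfl) (mem_univ ω)
  simpa using this

lemma pr_pos (hp : IsProb p) (f : Ω → α) {ω : Ω} (h : p ω ≠ 0) : 0 < pr p f (f ω) :=
  lt_of_lt_of_le (lt_of_le_of_ne (hp.nonneg ω) (Ne.symm h)) (le_pr hp f ω)

lemma pr_le_one (hp : IsProb p) (f : Ω → α) (a : α) : pr p f a ≤ 1 := by
  rw [← hp.sum_one]
  unfold pr
  refine sum_le_sum fun ω _ => ?_
  split_ifs
  · exact le_rfl
  · exact hp.nonneg ω

lemma pr_mono_of_imp (hp : IsProb p) (f : Ω → α) (g : Ω → β) (a : α) (b : β)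
    (h : ∀ ω, p ω ≠ 0 → f ω = a → g ω = b) : pr p f a ≤ pr p g b := by
  unfold pr
  refine sum_le_sum fun ω _ => ?_
  by_cases hω : p ω = 0
  · simp [hω]
  · by_cases hf : f ω = a
    · simp [hf, h ω hω hf]
    · rw [if_neg hf]
      split_ifs
      · exact hp.nonneg ω
      · exact le_rfl

lemma pr_congr (f : Ω → α) (g : Ω → β) (a : α) (b : β)
    (h : ∀ ω, p ω ≠ 0 → (f ω = a ↔ g ω = b)) : pr p f a = pr p g b := by
  unfold pr
  refine sum_congr rfl fun ω _ => ?_
  by_cases hω : p ω = 0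
  · simp [hω]
  · simp [h ω hω]

lemma ent_congr (f : Ω → α) (g : Ω → β)
    (h : ∀ ω ω', p ω ≠ 0 → p ω' ≠ 0 → (f ω = f ω' ↔ g ω = g ω')) :
    ent p f = ent p g := by
  unfold ent
  congr 1
  refine sum_congr rfl fun ω _ => ?_
  by_cases hω : p ω = 0
  · simp [hω]
  · rw [pr_congr f g (f ω) (g ω) fun ω' hω' => h ω' ω hω' hω]

/-- Entropy is monotone: if `f` determines `g` then `H(g) ≤ H(f)`. -/
lemma ent_mono (hp : IsProb p) (f : Ω → α) (g : Ω → β)
    (h : ∀ ω ω', p ω ≠ 0 → p ω' ≠ 0 → f ω = f ω' → g ω = g ω') :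
    ent p g ≤ ent p f := by
  unfold ent
  rw [neg_le_neg_iff]
  refine sum_le_sum fun ω _ => ?_
  by_cases hω : p ω = 0
  · simp [hω]
  · refine mul_le_mul_of_nonneg_left ?_ (hp.nonneg ω)
    exact Real.log_le_log (pr_pos hp f hω)
      (pr_mono_of_imp hp f g _ _ fun ω' hω' e => h ω' ω hω' hω e)

lemma ent_nonneg (hp : IsProb p) (f : Ω → α) : 0 ≤ ent p f := by
  unfold ent
  rw [neg_nonneg]
  refine sum_nonpos fun ω _ => ?_
  exact mul_nonpos_of_nonneg_of_nonpos (hp.nonneg ω)
    (Real.log_nonpos (pr_nonneg hp f _) (pr_le_one hp f _))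

lemma ent_const (hp : IsProb p) (a : α) : ent p (fun _ => a) = 0 := by
  unfold ent pr
  simp [hp.sum_one]

/-- The key sum in the proof of submodularity. -/
lemma submod_sum (hp : IsProb p) (f : Ω → α) (g : Ω → β) (h : Ω → γ)
    (hf : ∀ ω ω', f ω = f ω' → h ω = h ω') (hg : ∀ ω ω', g ω = g ω' → h ω = h ω') :
    ∑ ω, p ω * (pr p f (f ω) * pr p g (g ω) /
      (pr p (fun ω => (f ω, g ω)) (f ω, g ω) * pr p h (h ω))) ≤ 1 := by
  set j : Ω → α × β := fun ω => (f ω, g ω) with hj
  have key : ∀ ω1 ω2 : Ω, ∑ ω, (if f ω1 = f ω ∧ g ω2 = g ω then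
      p ω / (pr p j (j ω) * pr p h (h ω)) else 0) ≤
      if h ω1 = h ω2 then 1 / pr p h (h ω2) else 0 := by
    intro ω1 ω2
    by_cases hex : ∃ ω0, f ω1 = f ω0 ∧ g ω2 = g ω0 ∧ p ω0 ≠ 0
    · obtain ⟨ω0, h1, h2, h0⟩ := hex
      have e1 : h ω1 = h ω0 := hf _ _ h1
      have e2 : h ω2 = h ω0 := hg _ _ h2
      rw [if_pos (e1.trans e2.symm)]
      have hj0 : 0 < pr p j (j ω0) := pr_pos hp j h0
      have hh0 : 0 < pr p h (h ω0) := pr_pos hp h h0
      have : ∀ ω, (if f ω1 = f ω ∧ g ω2 = g ω then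
          p ω / (pr p j (j ω) * pr p h (h ω)) else 0) =
          (if j ω = j ω0 then p ω else 0) * (1 / (pr p j (j ω0) * pr p h (h ω0))) := by
        intro ω
        by_cases hc : f ω1 = f ω ∧ g ω2 = g ω
        · have : j ω = j ω0 := by
            simp only [hj, Prod.mk.injEq]
            exact ⟨hc.1.symm.trans h1, hc.2.symm.trans h2⟩
          rw [if_pos hc, if_pos this, this]
          have : h ω = h ω0 := hf _ _ (hc.1.symm.trans h1)
          rw [this]
          ring
        · have : ¬ (j ω = j ω0) := by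
            simp only [hj, Prod.mk.injEq]
            rintro ⟨k1, k2⟩
            exact hc ⟨h1.trans k1.symm, h2.trans k2.symm⟩
          rw [if_neg hc, if_neg this]
          ring
      rw [sum_congr rfl fun ω _ => this ω, ← sum_mul]
      have e3 : (∑ ω, if j ω = j ω0 then p ω else 0) = pr p j (j ω0) := by
        unfold pr
        refine sum_congr rfl fun ω _ => ?_
        congr
      rw [e3]
      rw [e2]
      apply le_of_eq
      field_simp
    · push Not at hex
      have : ∀ ω, (if f ω1 = f ω ∧ g ω2 = g ω then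
          p ω / (pr p j (j ω) * pr p h (h ω)) else 0) = 0 := by
        intro ω
        split_ifs with hc
        · rw [hex ω hc.1 hc.2]
          simp
        · rfl
      rw [sum_congr rfl fun ω _ => this ω, sum_const_zero]
      split_ifs
      · exact div_nonneg zero_le_one (pr_nonneg hp h _)
      · exact le_rfl
  have step : ∀ ω, p ω * (pr p f (f ω) * pr p g (g ω) / (pr p j (j ω) * pr p h (h ω))) =
      ∑ ω1, ∑ ω2, p ω1 * p ω2 * (if f ω1 = f ω ∧ g ω2 = g ω then
      p ω / (pr p j (j ω) * pr p h (h ω)) else 0) := by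
    intro ω
    have : pr p f (f ω) * pr p g (g ω) = ∑ ω1, ∑ ω2, p ω1 * p ω2 *
        (if f ω1 = f ω ∧ g ω2 = g ω then 1 else 0) := by
      unfold pr
      rw [sum_mul_sum]
      refine sum_congr rfl fun ω1 _ => sum_congr rfl fun ω2 _ => ?_
      by_cases h1 : f ω1 = f ω <;> by_cases h2 : g ω2 = g ω <;> simp [h1, h2]
    rw [mul_div_assoc', mul_comm (p ω) _, mul_div_assoc, this, sum_mul]
    refine sum_congr rfl fun ω1 _ => ?_
    rw [sum_mul]
    refine sum_congr rfl fun ω2 _ => ?_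
    split_ifs <;> ring
  rw [sum_congr rfl fun ω _ => step ω]
  rw [sum_comm]
  calc ∑ ω1, ∑ ω, ∑ ω2, p ω1 * p ω2 * (if f ω1 = f ω ∧ g ω2 = g ω then
      p ω / (pr p j (j ω) * pr p h (h ω)) else 0)
      = ∑ ω1, ∑ ω2, p ω1 * p ω2 * ∑ ω, (if f ω1 = f ω ∧ g ω2 = g ω then
      p ω / (pr p j (j ω) * pr p h (h ω)) else 0) := by
        refine sum_congr rfl fun ω1 _ => ?_
        rw [sum_comm]
        refine sum_congr rfl fun ω2 _ => ?_
        rw [mul_sum]
    _ ≤ ∑ ω1, ∑ ω2, p ω1 * p ω2 * (if h ω1 = h ω2 then 1 / pr p h (h ω2) else 0) := by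
        refine sum_le_sum fun ω1 _ => sum_le_sum fun ω2 _ => ?_
        exact mul_le_mul_of_nonneg_left (key ω1 ω2) (mul_nonneg (hp.nonneg _) (hp.nonneg _))
    _ = ∑ ω2, p ω2 * (pr p h (h ω2) / pr p h (h ω2)) := by
        rw [sum_comm]
        refine sum_congr rfl fun ω2 _ => ?_
        have : pr p h (h ω2) / pr p h (h ω2) =
            ∑ ω1, (if h ω1 = h ω2 then p ω1 else 0) / pr p h (h ω2) := by
          rw [← sum_div]
          rfl
        rw [this, mul_sum]
        refine sum_congr rfl fun ω1 _ => ?_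
        split_ifs <;> ring
    _ ≤ ∑ ω2, p ω2 * 1 := by
        refine sum_le_sum fun ω2 _ => mul_le_mul_of_nonneg_left (div_self_le_one _) (hp.nonneg _)
    _ = 1 := by simp [hp.sum_one]

/-- Submodularity: if `f` and `g` both determine `h`, then
`H(f, g) + H(h) ≤ H(f) + H(g)`. -/
lemma submod (hp : IsProb p) (f : Ω → α) (g : Ω → β) (h : Ω → γ)
    (hf : ∀ ω ω', f ω = f ω' → h ω = h ω') (hg : ∀ ω ω', g ω = g ω' → h ω = h ω') :
    ent p (fun ω => (f ω, g ω)) + ent p h ≤ ent p f + ent p g := by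
  have key := submod_sum hp f g h hf hg
  have hle : ∀ ω, p ω * Real.log (pr p f (f ω)) + p ω * Real.log (pr p g (g ω)) -
      p ω * Real.log (pr p (fun ω => (f ω, g ω)) (f ω, g ω)) -
      p ω * Real.log (pr p h (h ω)) ≤
      p ω * (pr p f (f ω) * pr p g (g ω) /
      (pr p (fun ω => (f ω, g ω)) (f ω, g ω) * pr p h (h ω))) - p ω := by
    intro ω
    by_cases hω : p ω = 0
    · simp [hω]
    · have h1 := pr_pos hp f hω
      have h2 := pr_pos hp g hω
      have h3 := pr_pos hp (fun ω => (f ω, g ω)) hω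
      have h4 := pr_pos hp h hω
      have h5 := Real.log_le_sub_one_of_pos (div_pos (mul_pos h1 h2) (mul_pos h3 h4))
      rw [Real.log_div (mul_pos h1 h2).ne' (mul_pos h3 h4).ne', Real.log_mul h1.ne' h2.ne',
        Real.log_mul h3.ne' h4.ne'] at h5
      have := mul_le_mul_of_nonneg_left h5 (hp.nonneg ω)
      linarith
  have hsum := sum_le_sum fun ω (_ : ω ∈ (univ : Finset Ω)) => hle ω
  simp only [sum_sub_distrib, sum_add_distrib, hp.sum_one] at hsum
  unfold ent
  dsimp only at hsum key ⊢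
  linarith

/-- Subadditivity. -/
lemma ent_pair_le (hp : IsProb p) (f : Ω → α) (g : Ω → β) :
    ent p (fun ω => (f ω, g ω)) ≤ ent p f + ent p g := by
  have := submod hp f g (fun _ => ()) (fun _ _ _ => rfl) (fun _ _ _ => rfl)
  rwa [ent_const hp, add_zero] at this

/-- A convenient form of submodularity with an explicit joint variable. -/
lemma submod' (hp : IsProb p) (f : Ω → α) (g : Ω → β) (h : Ω → γ) (j : Ω → δ)
    (hf : ∀ ω ω', f ω = f ω' → h ω = h ω') (hg : ∀ ω ω', g ω = g ω' → h ω = h ω')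
    (hj : ∀ ω ω', p ω ≠ 0 → p ω' ≠ 0 → f ω = f ω' → g ω = g ω' → j ω = j ω') :
    ent p j + ent p h ≤ ent p f + ent p g := by
  have h1 := submod hp f g h hf hg
  have h2 : ent p j ≤ ent p (fun ω => (f ω, g ω)) := by
    refine ent_mono hp _ _ fun ω ω' hω hω' e => ?_
    simp only [Prod.mk.injEq] at e
    exact hj ω ω' hω hω' e.1 e.2
  linarith

/-! ### Laws -/

/-- The law of `f`, as weights on the target. -/
def law (p : Ω → ℝ) (f : Ω → α) : α → ℝ := fun a => pr p f a

lemma sum_pr [Fintype α] (p : Ω → ℝ) (f : Ω → α) (F : α → ℝ) :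
    ∑ a, pr p f a * F a = ∑ ω, p ω * F (f ω) := by
  unfold pr
  simp_rw [sum_mul]
  rw [sum_comm]
  refine sum_congr rfl fun ω _ => ?_
  rw [sum_eq_single (f ω)]
  · simp
  · intro b _ hb
    simp [Ne.symm hb]
  · simp

lemma isProb_law [Fintype α] (hp : IsProb p) (f : Ω → α) : IsProb (law p f) where
  nonneg a := pr_nonneg hp f a
  sum_one := by
    have := sum_pr p f (fun _ => 1)
    simp only [mul_one, hp.sum_one] at this
    exact this

lemma pr_law [Fintype α] (p : Ω → ℝ) (f : Ω → α) (g : α → β) (b : β) :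
    pr (law p f) g b = pr p (g ∘ f) b := by
  have := sum_pr p f (fun a => if g a = b then 1 else 0)
  simp only [mul_ite, mul_one, mul_zero] at this
  exact this

lemma ent_law [Fintype α] (p : Ω → ℝ) (f : Ω → α) (g : α → β) :
    ent (law p f) g = ent p (g ∘ f) := by
  unfold ent
  simp_rw [pr_law]
  rw [show (∑ ω, law p f ω * Real.log (pr p (g ∘ f) (g ω))) =
    ∑ ω, pr p f ω * Real.log (pr p (g ∘ f) (g ω)) from rfl, sum_pr]
  rfl

/-- Entropy of a probability distribution. -/
def Hd [Fintype α] (μ : α → ℝ) : ℝ := ent μ id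

lemma Hd_eq [Fintype α] (μ : α → ℝ) : Hd μ = ∑ a, Real.negMulLog (μ a) := by
  unfold Hd ent
  rw [← sum_neg_distrib]
  refine sum_congr rfl fun a _ => ?_
  have : pr μ id (id a) = μ a := by
    unfold pr
    simp
  rw [this, Real.negMulLog]
  ring

lemma Hd_law [Fintype α] (p : Ω → ℝ) (f : Ω → α) : Hd (law p f) = ent p f := by
  unfold Hd
  rw [ent_law]
  rfl

lemma law_law [Fintype α] (p : Ω → ℝ) (f : Ω → α) (g : α → β) :
    law (law p f) g = law p (g ∘ f) := by
  funext b
  exact pr_law p f g b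

lemma law_id [Fintype α] (μ : α → ℝ) : law μ id = μ := by
  funext a
  unfold law pr
  simp

/-! ### Products -/

/-- Product weights. -/
def prod (p : Ω → ℝ) (q : Ω' → ℝ) : Ω × Ω' → ℝ := fun x => p x.1 * q x.2

variable {q : Ω' → ℝ}

lemma isProb_prod (hp : IsProb p) (hq : IsProb q) : IsProb (prod p q) where
  nonneg x := mul_nonneg (hp.nonneg _) (hq.nonneg _)
  sum_one := by
    rw [Fintype.sum_prod_type]
    simp only [prod]
    simp_rw [← mul_sum, hq.sum_one, mul_one, hp.sum_one]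

lemma pr_prod (p : Ω → ℝ) (q : Ω' → ℝ) (f : Ω → α) (g : Ω' → β) (a : α) (b : β) :
    pr (prod p q) (fun x => (f x.1, g x.2)) (a, b) = pr p f a * pr q g b := by
  unfold pr
  rw [sum_mul_sum, Fintype.sum_prod_type]
  refine sum_congr rfl fun ω _ => sum_congr rfl fun ω' _ => ?_
  simp only [prod, Prod.mk.injEq]
  by_cases h1 : f ω = a <;> by_cases h2 : g ω' = b <;> simp [h1, h2]

lemma law_prod (p : Ω → ℝ) (q : Ω' → ℝ) (f : Ω → α) (g : Ω' → β) :
    law (prod p q) (fun x => (f x.1, g x.2)) = prod (law p f) (law q g) := by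
  funext x
  exact pr_prod p q f g x.1 x.2

/-- Additivity of entropy for independent variables. -/
lemma ent_prod (hp : IsProb p) (hq : IsProb q) (f : Ω → α) (g : Ω' → β) :
    ent (prod p q) (fun x => (f x.1, g x.2)) = ent p f + ent q g := by
  unfold ent
  rw [Fintype.sum_prod_type, ← neg_add, neg_inj]
  have : ∀ x : Ω, ∀ y : Ω', prod p q (x, y) *
      Real.log (pr (prod p q) (fun x => (f x.1, g x.2)) (f x, g y)) =
      p x * q y * Real.log (pr p f (f x)) + p x * q y * Real.log (pr q g (g y)) := by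
    intro x y
    rw [pr_prod]
    simp only [prod]
    by_cases hx : p x = 0
    · simp [hx]
    by_cases hy : q y = 0
    · simp [hy]
    rw [Real.log_mul (pr_pos hp f hx).ne' (pr_pos hq g hy).ne']
    ring
  rw [sum_congr rfl fun x _ => sum_congr rfl fun y _ => this x y]
  simp_rw [sum_add_distrib]
  congr 1
  · refine sum_congr rfl fun x _ => ?_
    rw [← sum_mul, ← mul_sum, hq.sum_one, mul_one]
  · rw [sum_comm]
    refine sum_congr rfl fun y _ => ?_
    rw [← sum_mul, ← sum_mul, hp.sum_one, one_mul]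

lemma pr_prod_fst (p : Ω → ℝ) (hq : IsProb q) (f : Ω → α) (a : α) :
    pr (prod p q) (fun x => f x.1) a = pr p f a := by
  have h := pr_prod p q f (fun _ => ()) a ()
  have h2 : pr q (fun _ => ()) () = 1 := by
    unfold pr
    simp [hq.sum_one]
  rw [h2, mul_one] at h
  rw [← h]
  refine pr_congr _ _ _ _ fun ω _ => ?_
  simp

lemma pr_prod_snd (hp : IsProb p) (q : Ω' → ℝ) (g : Ω' → β) (b : β) :
    pr (prod p q) (fun x => g x.2) b = pr q g b := by
  have h := pr_prod p q (fun _ => ()) g () b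
  have h2 : pr p (fun _ => ()) () = 1 := by
    unfold pr
    simp [hp.sum_one]
  rw [h2, one_mul] at h
  rw [← h]
  refine pr_congr _ _ _ _ fun ω _ => ?_
  simp

lemma law_prod_fst (p : Ω → ℝ) (hq : IsProb q) (f : Ω → α) :
    law (prod p q) (fun x => f x.1) = law p f := by
  funext a
  exact pr_prod_fst p hq f a

lemma law_prod_snd (hp : IsProb p) (q : Ω' → ℝ) (g : Ω' → β) :
    law (prod p q) (fun x => g x.2) = law q g := by
  funext b
  exact pr_prod_snd hp q g b

lemma ent_prod_fst (p : Ω → ℝ) (hq : IsProb q) (f : Ω → α) :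
    ent (prod p q) (fun x => f x.1) = ent p f := by
  unfold ent
  simp_rw [pr_prod_fst p hq f]
  rw [Fintype.sum_prod_type]
  congr 1
  refine sum_congr rfl fun x _ => ?_
  simp only [prod]
  rw [← sum_mul, ← mul_sum, hq.sum_one, mul_one]

lemma ent_prod_snd (hp : IsProb p) (q : Ω' → ℝ) (g : Ω' → β) :
    ent (prod p q) (fun x => g x.2) = ent q g := by
  unfold ent
  simp_rw [pr_prod_snd hp q g]
  rw [Fintype.sum_prod_type, sum_comm]
  congr 1
  refine sum_congr rfl fun y _ => ?_
  simp only [prod]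
  rw [← sum_mul, ← sum_mul, hp.sum_one, one_mul]

/-! ### Conditional laws and conditional entropy -/

/-- Conditional law of `T` given `Z = z`. -/
def condLaw (p : Ω → ℝ) (T : Ω → α) (Z : Ω → β) (z : β) : α → ℝ :=
  fun a => pr p (fun ω => (T ω, Z ω)) (a, z) / pr p Z z

/-- Conditional entropy `H(T | Z) = H(T, Z) - H(Z)`. -/
def Hc (p : Ω → ℝ) (T : Ω → α) (Z : Ω → β) : ℝ :=
  ent p (fun ω => (T ω, Z ω)) - ent p Z

lemma sum_pr_pair [Fintype α] (p : Ω → ℝ) (T : Ω → α) (Z : Ω → β) (z : β) :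
    ∑ a, pr p (fun ω => (T ω, Z ω)) (a, z) = pr p Z z := by
  unfold pr
  rw [sum_comm]
  refine sum_congr rfl fun ω _ => ?_
  simp only [Prod.mk.injEq]
  rw [sum_eq_single (T ω)]
  · simp
  · intro b _ hb
    simp [Ne.symm hb]
  · simp

lemma isProb_condLaw [Fintype α] (hp : IsProb p) (T : Ω → α) (Z : Ω → β) {z : β}
    (hz : pr p Z z ≠ 0) : IsProb (condLaw p T Z z) where
  nonneg a := div_nonneg (pr_nonneg hp _ _) (pr_nonneg hp _ _)
  sum_one := by
    unfold condLaw
    rw [← sum_div, sum_pr_pair, div_self hz]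

/-- Conditional entropy as an average of entropies of conditional laws. -/
lemma Hc_eq [Fintype α] (hp : IsProb p) (T : Ω → α) (Z : Ω → β) :
    Hc p T Z = ∑ ω, p ω * Hd (condLaw p T Z (Z ω)) := by
  -- the joint weights
  have h1 : ∀ ω, p ω ≠ 0 → Hd (condLaw p T Z (Z ω)) =
      ∑ a, pr p (fun ω => (T ω, Z ω)) (a, Z ω) / pr p Z (Z ω) *
      (Real.log (pr p Z (Z ω)) - Real.log (pr p (fun ω => (T ω, Z ω)) (a, Z ω))) := by
    intro ω hω
    rw [Hd_eq]
    refine sum_congr rfl fun a _ => ?_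
    unfold condLaw
    have hz := pr_pos hp Z hω
    by_cases h0 : pr p (fun ω => (T ω, Z ω)) (a, Z ω) = 0
    · rw [h0]
      simp [Real.negMulLog]
    · rw [Real.negMulLog, Real.log_div h0 hz.ne']
      ring
  have h2 : ∑ ω, p ω * Hd (condLaw p T Z (Z ω)) = ∑ ω, p ω *
      ∑ a, pr p (fun ω => (T ω, Z ω)) (a, Z ω) / pr p Z (Z ω) *
      (Real.log (pr p Z (Z ω)) - Real.log (pr p (fun ω => (T ω, Z ω)) (a, Z ω))) := by
    refine sum_congr rfl fun ω _ => ?_
    by_cases hω : p ω = 0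
    · simp [hω]
    · rw [h1 ω hω]
  rw [h2]
  -- expand the joint probability as a sum over ω'
  have h3 : ∀ ω, p ω *
      ∑ a, pr p (fun ω => (T ω, Z ω)) (a, Z ω) / pr p Z (Z ω) *
      (Real.log (pr p Z (Z ω)) - Real.log (pr p (fun ω => (T ω, Z ω)) (a, Z ω))) =
      ∑ ω', if Z ω' = Z ω then p ω * p ω' / pr p Z (Z ω') *
      (Real.log (pr p Z (Z ω')) -
        Real.log (pr p (fun ω => (T ω, Z ω)) (T ω', Z ω'))) else 0 := by
    intro ω
    rw [mul_sum]
    have : ∀ a, p ω * (pr p (fun ω => (T ω, Z ω)) (a, Z ω) / pr p Z (Z ω) *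
      (Real.log (pr p Z (Z ω)) - Real.log (pr p (fun ω => (T ω, Z ω)) (a, Z ω)))) =
      ∑ ω', if T ω' = a ∧ Z ω' = Z ω then p ω * p ω' / pr p Z (Z ω') *
      (Real.log (pr p Z (Z ω')) -
        Real.log (pr p (fun ω => (T ω, Z ω)) (T ω', Z ω'))) else 0 := by
      intro a
      have e : pr p (fun ω => (T ω, Z ω)) (a, Z ω) =
        ∑ ω', if T ω' = a ∧ Z ω' = Z ω then p ω' else 0 := by
        unfold pr
        simp only [Prod.mk.injEq]
      calc _ = (∑ ω', if T ω' = a ∧ Z ω' = Z ω then p ω' else 0) * (p ω / pr p Z (Z ω) *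
        (Real.log (pr p Z (Z ω)) - Real.log (pr p (fun ω => (T ω, Z ω)) (a, Z ω)))) := by
            rw [← e]; ring
        _ = _ := by
            rw [sum_mul]
            refine sum_congr rfl fun ω' _ => ?_
            split_ifs with hc
            · rw [hc.2, hc.1]
              ring
            · ring
    rw [sum_congr rfl fun a _ => this a, sum_comm]
    refine sum_congr rfl fun ω' _ => ?_
    rw [sum_eq_single (T ω')]
    · simp
    · intro b _ hb
      rw [if_neg]
      rintro ⟨h, -⟩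
      exact hb h.symm
    · simp
  rw [sum_congr rfl fun ω _ => h3 ω, sum_comm]
  have h4 : ∀ ω', (∑ ω, if Z ω' = Z ω then p ω * p ω' / pr p Z (Z ω') *
      (Real.log (pr p Z (Z ω')) -
        Real.log (pr p (fun ω => (T ω, Z ω)) (T ω', Z ω'))) else 0) =
      p ω' * (Real.log (pr p Z (Z ω')) -
        Real.log (pr p (fun ω => (T ω, Z ω)) (T ω', Z ω'))) := by
    intro ω'
    by_cases hω' : p ω' = 0
    · simp [hω']
    have hz := pr_pos hp Z hω'
    calc _ = (∑ ω, if Z ω = Z ω' then p ω else 0) * (p ω' / pr p Z (Z ω') *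
      (Real.log (pr p Z (Z ω')) -
        Real.log (pr p (fun ω => (T ω, Z ω)) (T ω', Z ω')))) := by
          rw [sum_mul]
          refine sum_congr rfl fun ω _ => ?_
          by_cases hc : Z ω = Z ω'
          · rw [if_pos hc, if_pos hc.symm]; ring
          · rw [if_neg hc, if_neg (Ne.symm hc)]; ring
      _ = _ := by
          change pr p Z (Z ω') * _ = _
          field_simp
  rw [sum_congr rfl fun ω' _ => h4 ω']
  unfold Hc ent
  simp only [mul_sub, sum_sub_distrib]
  ring

end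

end Pool.Agent.Lib.MP_dd2a7c_co
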