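import Mathlib

/-!
Centered convex coset progressions, exactly as in the problem file.
-/

namespace Pool.Agent.Lib.MP_dd2a7c_co

/-- A centered convex coset progression in an abelian group `Γ`: a centrally symmetric convex body
`B ⊆ ℝ^d` (compact, convex, with nonempty interior), a base point `x₀`, a homomorphism
`ψ : ℤ^d → Γ` and a finite subgroup `H`. -/
structure CosetProg (Γ : Type*) [AddCommGroup Γ] where
  /-- the dimension -/
  dim : ℕ
  /-- the convex body -/
  body : Set (Fin dim → ℝ)
  isCompact_body : IsCompact body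
  convex_body : Convex ℝ body
  interior_nonempty : (interior body).Nonempty
  neg_mem_body : ∀ x ∈ body, -x ∈ body
  /-- the base point -/
  base : Γ
  /-- the homomorphism -/
  hom : (Fin dim → ℤ) →+ Γ
  /-- the finite subgroup -/
  sub : AddSubgroup Γ
  finite_sub : (sub : Set Γ).Finite

namespace CosetProg

variable {Γ : Type*} [AddCommGroup Γ] (Q : CosetProg Γ)

/-- The lattice points of the convex body. -/
def points : Set (Fin Q.dim → ℤ) := {v | (fun i => (v i : ℝ)) ∈ Q.body}

/-- The set `φ(ℤ^d ∩ B) + H`. -/
def carrier : Set Γ := {g | ∃ v ∈ Q.points, ∃ h ∈ Q.sub, g = Q.base + Q.hom v + h}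

/-- The volume `|H| · |ℤ^d ∩ B|`. -/
noncomputable def vol : ℕ := Nat.card Q.sub * Set.ncard Q.points

end CosetProg

/-- The set `A` is contained in the union of the translates of `Q` by the points of the finite
set `T`. -/
def CoveredBy {Γ : Type*} [AddCommGroup Γ] (A : Finset Γ) (T : Finset Γ) (Q : CosetProg Γ) :
    Prop :=
  ∀ a ∈ A, ∃ t ∈ T, ∃ g ∈ Q.carrier, a = t + g

end Pool.Agent.Lib.MP_dd2a7c_co
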