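import Mathlib
import Pool.Agent.Lib.MP_dd2a7c_co.Prog

/-!
A finite subgroup `H` of an abelian group with `|H| ≤ M N` is covered by at most `4 M` translates
of a coset progression of dimension at most one and of volume at most `N`.
-/

namespace Pool.Agent.Lib.MP_dd2a7c_co

open Pointwise

/-- Zero-dimensional coset progression: a finite subgroup. -/
noncomputable def CosetProg.ofSub {Γ : Type*} [AddCommGroup Γ] (H : AddSubgroup Γ)
    (hH : (H : Set Γ).Finite) : CosetProg Γ where
  dim := 0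
  body := Set.univ
  isCompact_body := Set.subsingleton_univ.isCompact
  convex_body := convex_univ
  interior_nonempty := by simp
  neg_mem_body := fun _ _ => trivial
  base := 0
  hom := 0
  sub := H
  finite_sub := hH

theorem CosetProg.vol_ofSub {Γ : Type*} [AddCommGroup Γ] (H : AddSubgroup Γ)
    (hH : (H : Set Γ).Finite) : (CosetProg.ofSub H hH).vol = Nat.card H := by
  have h1 : (CosetProg.ofSub H hH).points = {0} := by
    ext v
    constructor
    · intro _
      exact Subsingleton.elim (α := Fin 0 → ℤ) v 0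
    · intro _
      exact Set.mem_univ _
  unfold CosetProg.vol
  rw [h1, Set.ncard_singleton, mul_one]
  rfl

theorem CosetProg.mem_carrier_ofSub {Γ : Type*} [AddCommGroup Γ] (H : AddSubgroup Γ)
    (hH : (H : Set Γ).Finite) {g : Γ} (hg : g ∈ H) : g ∈ (CosetProg.ofSub H hH).carrier := by
  refine ⟨0, Set.mem_univ _, g, hg, ?_⟩
  change g = 0 + (0 : (Fin 0 → ℤ) →+ Γ) (0 : Fin 0 → ℤ) + g
  rw [map_zero, add_zero, zero_add]

/-- One-dimensional coset progression `{k • g : |k| ≤ r} + H`. -/
noncomputable def CosetProg.ofCyc {Γ : Type*} [AddCommGroup Γ] (H : AddSubgroup Γ)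
    (hH : (H : Set Γ).Finite) (g : Γ) (r : ℕ) : CosetProg Γ where
  dim := 1
  body := Set.pi Set.univ fun _ => Set.Icc (-((r : ℝ) + 1 / 2)) ((r : ℝ) + 1 / 2)
  isCompact_body := isCompact_univ_pi fun _ => isCompact_Icc
  convex_body := convex_pi fun _ _ => convex_Icc _ _
  interior_nonempty := by
    rw [interior_pi_set Set.finite_univ]
    refine ⟨0, fun i _ => ?_⟩
    rw [interior_Icc]
    constructor
    · have : (0 : ℝ) ≤ r := Nat.cast_nonneg r
      simp only [Pi.zero_apply]; linarith
    · have : (0 : ℝ) ≤ r := Nat.cast_nonneg r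
      simp only [Pi.zero_apply]; linarith
  neg_mem_body := fun x hx i hi => by
    have := hx i hi
    simp only [Set.mem_Icc, Pi.neg_apply] at this ⊢
    constructor <;> linarith [this.1, this.2]
  base := 0
  hom := (zmultiplesHom Γ g).comp (Pi.evalAddMonoidHom (fun _ : Fin 1 => ℤ) 0)
  sub := H
  finite_sub := hH

theorem CosetProg.mem_points_ofCyc {Γ : Type*} [AddCommGroup Γ] (H : AddSubgroup Γ)
    (hH : (H : Set Γ).Finite) (g : Γ) (r : ℕ) (v : Fin 1 → ℤ) :
    ((CosetProg.ofCyc H hH g r).points : Set (Fin 1 → ℤ)) v ↔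
      v 0 ∈ Finset.Icc (-(r : ℤ)) r := by
  have h1 : ((CosetProg.ofCyc H hH g r).points : Set (Fin 1 → ℤ)) v ↔
      (-((r : ℝ) + 1 / 2) ≤ (v 0 : ℝ) ∧ (v 0 : ℝ) ≤ (r : ℝ) + 1 / 2) := by
    constructor
    · intro h
      exact h 0 (Set.mem_univ _)
    · intro h i _
      have : i = 0 := Subsingleton.elim _ _
      subst this
      exact h
  rw [h1, Finset.mem_Icc]
  constructor
  · rintro ⟨h2, h3⟩
    constructor
    · by_contra h4
      have h5 : v 0 + 1 ≤ -(r : ℤ) := by omega
      have h6 : ((v 0 + 1 : ℤ) : ℝ) ≤ ((-(r : ℤ) : ℤ) : ℝ) := by exact_mod_cast h5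
      push_cast at h6
      linarith
    · by_contra h4
      have h5 : (r : ℤ) + 1 ≤ v 0 := by omega
      have h6 : (((r : ℤ) + 1 : ℤ) : ℝ) ≤ ((v 0 : ℤ) : ℝ) := by exact_mod_cast h5
      push_cast at h6
      linarith
  · rintro ⟨h2, h3⟩
    have h4 : ((-(r : ℤ) : ℤ) : ℝ) ≤ (v 0 : ℝ) := by exact_mod_cast h2
    have h5 : (v 0 : ℝ) ≤ ((r : ℤ) : ℝ) := by exact_mod_cast h3
    push_cast at h4 h5
    constructor <;> linarith

theorem CosetProg.vol_ofCyc {Γ : Type*} [AddCommGroup Γ] (H : AddSubgroup Γ)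
    (hH : (H : Set Γ).Finite) (g : Γ) (r : ℕ) :
    (CosetProg.ofCyc H hH g r).vol = Nat.card H * (2 * r + 1) := by
  have h1 : (CosetProg.ofCyc H hH g r).points =
      (fun k : ℤ => (fun _ : Fin 1 => k)) '' (Finset.Icc (-(r : ℤ)) r : Finset ℤ) := by
    refine Set.ext (α := Fin 1 → ℤ) fun v => ?_
    constructor
    · intro h
      refine ⟨v 0, (CosetProg.mem_points_ofCyc H hH g r v).mp h, ?_⟩
      funext i
      have : i = 0 := Subsingleton.elim _ _
      rw [this]
    · rintro ⟨k, hk, rfl⟩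
      exact (CosetProg.mem_points_ofCyc H hH g r _).mpr hk
  have h2 : Function.Injective (fun k : ℤ => (fun _ : Fin 1 => k)) := by
    intro a b hab
    exact congrFun hab 0
  unfold CosetProg.vol
  rw [h1]
  have h3 := Set.ncard_image_of_injective
    (s := ((Finset.Icc (-(r : ℤ)) r : Finset ℤ) : Set ℤ)) h2
  have h4 : ((Finset.Icc (-(r : ℤ)) r : Finset ℤ) : Set ℤ).ncard = 2 * r + 1 := by
    rw [Set.ncard_coe_finset, Int.card_Icc]
    omega
  rw [h4] at h3
  exact congrArg (fun t => Nat.card H * t) h3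

theorem CosetProg.mem_carrier_ofCyc {Γ : Type*} [AddCommGroup Γ] (H : AddSubgroup Γ)
    (hH : (H : Set Γ).Finite) (g : Γ) (r : ℕ) (k : ℤ) (hk : -(r : ℤ) ≤ k ∧ k ≤ r)
    {x : Γ} (hx : x ∈ H) : k • g + x ∈ (CosetProg.ofCyc H hH g r).carrier := by
  refine ⟨fun _ => k, ?_, x, hx, ?_⟩
  · exact (CosetProg.mem_points_ofCyc H hH g r _).mpr (Finset.mem_Icc.mpr hk)
  · change k • g + x = 0 + ((zmultiplesHom Γ g).comp
      (Pi.evalAddMonoidHom (fun _ : Fin 1 => ℤ) 0)) (fun _ => k) + x
    rw [zero_add]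
    rfl

/-- If `n • g ∈ H` with `n > 0` then the subgroup generated by `H` and `g` has at most `n |H|`
elements. -/
theorem card_sup_zmultiples_le {Γ : Type*} [AddCommGroup Γ] (H : AddSubgroup Γ)
    (hH : (H : Set Γ).Finite) (g : Γ) (n : ℕ) (hn : 0 < n) (hg : n • g ∈ H) :
    Nat.card (H ⊔ AddSubgroup.zmultiples g : AddSubgroup Γ) ≤ n * Nat.card H := by
  classical
  have : Finite H := hH
  have hsurj : Function.Surjective (fun p : Fin n × H =>
      (⟨(p.2 : Γ) + (p.1 : ℕ) • g, AddSubgroup.add_mem_sup p.2.2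
        (AddSubgroup.nsmul_mem _ (AddSubgroup.mem_zmultiples g) _)⟩ :
        (H ⊔ AddSubgroup.zmultiples g : AddSubgroup Γ))) := by
    rintro ⟨x, hx⟩
    obtain ⟨y, hy, z, hz, rfl⟩ := AddSubgroup.mem_sup.mp hx
    obtain ⟨k, rfl⟩ := AddSubgroup.mem_zmultiples_iff.mp hz
    have hn' : (0 : ℤ) < n := by exact_mod_cast hn
    have h1 : 0 ≤ k % n := Int.emod_nonneg _ hn'.ne'
    have h2 : k % n < n := Int.emod_lt_of_pos _ hn'
    have h3 : ((k % n).toNat : ℤ) = k % n := Int.toNat_of_nonneg h1
    refine ⟨⟨⟨(k % n).toNat, by omega⟩, ⟨y + (k / n) • ((n : ℕ) • g),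
      H.add_mem hy (H.zsmul_mem hg _)⟩⟩, ?_⟩
    apply Subtype.ext
    simp only
    have h4 : (k % n).toNat • g = (k % n) • g := by
      rw [← natCast_zsmul, h3]
    rw [h4, add_assoc, ← natCast_zsmul g n, ← mul_zsmul', ← add_zsmul]
    congr 2
    have := Int.emod_add_mul_ediv k n
    linarith [mul_comm (n : ℤ) (k / n)]
  calc Nat.card (H ⊔ AddSubgroup.zmultiples g : AddSubgroup Γ)
      ≤ Nat.card (Fin n × H) := Nat.card_le_card_of_surjective _ hsurj
    _ = n * Nat.card H := by rw [Nat.card_prod, Nat.card_fin]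

/-- A finite subgroup `H` with `|H| ≤ M N` is covered by at most `3 M` translates of a coset
progression of dimension at most one and of volume at most `N`. -/
theorem exists_prog_of_subgroup' {Γ : Type*} [AddCommGroup Γ] [DecidableEq Γ]
    (H : AddSubgroup Γ) (hH : (H : Set Γ).Finite) (N : ℕ) (hN : 1 ≤ N) (M : ℝ) (hM : 1 ≤ M)
    (h : (Nat.card H : ℝ) ≤ M * N) :
    ∃ (Q : CosetProg Γ) (T : Finset Γ), Q.dim ≤ 1 ∧ Q.vol ≤ N ∧ (T.card : ℝ) ≤ 3 * M ∧
      ∀ h ∈ H, ∃ t ∈ T, ∃ g ∈ Q.carrier, h = t + g := by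
  classical
  by_cases hcase : Nat.card H ≤ N
  · refine ⟨CosetProg.ofSub H hH, {0}, Nat.zero_le _, ?_, ?_, ?_⟩
    · rw [CosetProg.vol_ofSub]; exact hcase
    · simp only [Finset.card_singleton, Nat.cast_one]; linarith
    · intro x hx
      exact ⟨0, Finset.mem_singleton_self _, x, CosetProg.mem_carrier_ofSub H hH hx,
        (zero_add x).symm⟩
  · push Not at hcase
    have hfin : Finite H := hH
    -- a subgroup of maximal cardinality at most `N`
    let P : ℕ → Prop := fun n => ∃ K : AddSubgroup Γ, K ≤ H ∧ Nat.card K = n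
    have hP1 : P 1 := ⟨⊥, bot_le, by simp⟩
    have hPmax : P (Nat.findGreatest P N) := Nat.findGreatest_spec (m := 1) hN hP1
    obtain ⟨K, hKH, hKcard⟩ := hPmax
    have hKN : Nat.card K ≤ N := by rw [hKcard]; exact Nat.findGreatest_le N
    have hmax : ∀ L : AddSubgroup Γ, L ≤ H → Nat.card L ≤ N → Nat.card L ≤ Nat.card K := by
      intro L hL hLN
      rw [hKcard]
      exact Nat.le_findGreatest hLN ⟨L, hL, rfl⟩
    have hKfin : (K : Set Γ).Finite := hH.subset hKH
    have : Finite K := hKfin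
    obtain ⟨g, hgH, hgK⟩ : ∃ g ∈ H, g ∉ K := by
      by_contra hcon
      push Not at hcon
      have : H = K := le_antisymm hcon hKH
      rw [this] at hcase
      omega
    set a := Nat.card K with ha
    have hapos : 0 < a := Nat.card_pos
    -- the subgroup generated by `K` and `g`
    have hL : N < Nat.card (K ⊔ AddSubgroup.zmultiples g : AddSubgroup Γ) := by
      by_contra hcon
      push Not at hcon
      have hle : (K ⊔ AddSubgroup.zmultiples g : AddSubgroup Γ) ≤ H :=
        sup_le hKH (by rw [AddSubgroup.zmultiples_le]; exact hgH)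
      have h1 := hmax _ hle hcon
      have h2 : (K : Set Γ) ⊂ ((K ⊔ AddSubgroup.zmultiples g : AddSubgroup Γ) : Set Γ) := by
        refine ⟨(le_sup_left : K ≤ _), fun h3 => hgK (h3 ?_)⟩
        exact AddSubgroup.mem_sup_right (AddSubgroup.mem_zmultiples g)
      have h4 := Set.ncard_lt_ncard h2 (hH.subset hle)
      have h5 : (K : Set Γ).ncard = a := rfl
      have h6 : ((K ⊔ AddSubgroup.zmultiples g : AddSubgroup Γ) : Set Γ).ncard
        = Nat.card (K ⊔ AddSubgroup.zmultiples g : AddSubgroup Γ) := rfl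
      omega
    have hord : ∀ n : ℕ, 0 < n → n • g ∈ K → N < n * a := by
      intro n hn hng
      exact lt_of_lt_of_le hL (card_sup_zmultiples_le K hKfin g n hn hng)
    -- the length of the progression
    set q := N / a with hq
    have hq1 : 1 ≤ q := (Nat.one_le_div_iff hapos).mpr hKN
    have hqN : q * a ≤ N := Nat.div_mul_le_self N a
    have hqN' : N < (q + 1) * a := by
      rw [mul_comm, hq]
      exact Nat.lt_mul_div_succ N hapos
    set m := (q + 1) / 2 with hm
    have hm1 : 1 ≤ m := by omega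
    have hm2 : 2 * m - 1 ≤ q := by omega
    have hm3 : q ≤ 2 * m := by omega
    -- the set `S = {0, …, m - 1} • g + K`
    let f : Fin m × K → Γ := fun p => (p.1 : ℕ) • g + p.2
    have hf : Function.Injective f := by
      have key : ∀ i j : ℕ, ∀ x y : K, i < m → i < j → j < m →
          i • g + (x : Γ) ≠ j • g + (y : Γ) := by
        intro i j x y _ hij hjm heq
        have h1 : (j - i) • g = (x : Γ) - y := by
          have h2 : j • g = (j - i) • g + i • g := by
            rw [← add_nsmul]; congr 1; omega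
          rw [h2] at heq
          have h3 : i • g + (x : Γ) = i • g + ((j - i) • g + y) := by
            rw [heq]; abel
          have h4 := add_left_cancel h3
          rw [h4]; abel
        have h5 : (j - i) • g ∈ K := by rw [h1]; exact K.sub_mem x.2 y.2
        have h6 := hord (j - i) (by omega) h5
        have h7 : (j - i) * a ≤ q * a := Nat.mul_le_mul_right a (by omega)
        omega
      rintro ⟨i, x⟩ ⟨j, y⟩ hxy
      simp only [f] at hxy
      rcases lt_trichotomy (i : ℕ) j with hlt | heq | hgt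
      · exact absurd hxy (key i j x y i.2 hlt j.2)
      · have h1 : i = j := Fin.ext heq
        subst h1
        have h2 := add_left_cancel hxy
        rw [Subtype.ext h2]
      · exact absurd hxy.symm (key j i y x j.2 hgt i.2)
    have hfH : ∀ p, f p ∈ H := fun p => H.add_mem (H.nsmul_mem hgH _) (hKH p.2.2)
    -- Ruzsa covering
    have hSfin : (Set.range f).Finite := Set.finite_range f
    have hSne : (Set.range f).Nonempty := ⟨f (⟨0, hm1⟩, 0), Set.mem_range_self _⟩
    have hScard : Nat.card (Set.range f) = m * a := by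
      rw [Nat.card_range_of_injective hf, Nat.card_prod, Nat.card_fin]
    have hsum : (H : Set Γ) + Set.range f ⊆ (H : Set Γ) := by
      rintro _ ⟨x, hx, y, ⟨p, rfl⟩, rfl⟩
      exact H.add_mem hx (hfH p)
    have hmapos : (0 : ℝ) < (m : ℝ) * a := by
      have : (0 : ℝ) < a := by exact_mod_cast hapos
      have : (0 : ℝ) < m := by exact_mod_cast hm1
      positivity
    obtain ⟨F, hFH, hFcard, hFcov, hFfin⟩ := Set.ruzsa_covering_add (A := (H : Set Γ))
      (B := Set.range f) (K := (Nat.card H : ℝ) / (m * a)) hH hSfin hSne (by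
        rw [hScard]
        push_cast
        rw [div_mul_cancel₀ _ hmapos.ne']
        have h1 : Nat.card ((H : Set Γ) + Set.range f : Set Γ) ≤ Nat.card H :=
          Nat.card_mono hH hsum
        exact_mod_cast h1)
    refine ⟨CosetProg.ofCyc K hKfin g (m - 1), hFfin.toFinset, le_refl _, ?_, ?_, ?_⟩
    · rw [CosetProg.vol_ofCyc, mul_comm]
      refine le_trans (Nat.mul_le_mul_right _ ?_) hqN
      omega
    · have h1 : (hFfin.toFinset.card : ℝ) = Nat.card F := by
        rw [Nat.card_eq_card_finite_toFinset hFfin]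
      rw [h1]
      refine le_trans hFcard ?_
      rw [div_le_iff₀ hmapos]
      refine le_trans h ?_
      have h2 : N < (2 * m + 1) * a := lt_of_lt_of_le hqN' (Nat.mul_le_mul_right a (by omega))
      have h3 : (N : ℝ) ≤ 3 * (m * a) := by
        have h4 : N ≤ 3 * (m * a) := by
          have : (2 * m + 1) * a ≤ 3 * m * a := Nat.mul_le_mul_right a (by omega)
          rw [mul_assoc] at this
          omega
        exact_mod_cast h4
      calc M * N ≤ M * (3 * (m * a)) := by gcongr
        _ = 3 * M * (m * a) := by ring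
    · intro x hx
      obtain ⟨t, ht, y, ⟨_, ⟨p, rfl⟩, _, ⟨p', rfl⟩, rfl⟩, rfl⟩ := hFcov hx
      refine ⟨t, hFfin.mem_toFinset.mpr ht, _, ?_, rfl⟩
      have h1 : f p - f p' = ((p.1 : ℤ) - (p'.1 : ℤ)) • g + ((p.2 : Γ) - p'.2) := by
        simp only [f]
        rw [sub_zsmul, natCast_zsmul, natCast_zsmul]
        abel
      have h2 := p.1.2
      have h3 := p'.1.2
      have h4 := CosetProg.mem_carrier_ofCyc K hKfin g (m - 1) ((p.1 : ℤ) - (p'.1 : ℤ))
        (by constructor <;> omega) (x := (p.2 : Γ) - p'.2) (K.sub_mem p.2.2 p'.2.2)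
      simp only
      rw [h1]
      exact h4

/-- A finite subgroup `H` with `|H| ≤ M N` is covered by at most `4 M` translates of a coset
progression of dimension at most one and of volume at most `N`. -/
theorem exists_prog_of_subgroup {Γ : Type*} [AddCommGroup Γ] [DecidableEq Γ]
    (H : AddSubgroup Γ) (hH : (H : Set Γ).Finite) (N : ℕ) (hN : 1 ≤ N) (M : ℝ) (hM : 1 ≤ M)
    (h : (Nat.card H : ℝ) ≤ M * N) :
    ∃ (Q : CosetProg Γ) (T : Finset Γ), Q.dim ≤ 1 ∧ Q.vol ≤ N ∧ (T.card : ℝ) ≤ 4 * M ∧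
      ∀ h ∈ H, ∃ t ∈ T, ∃ g ∈ Q.carrier, h = t + g := by
  obtain ⟨Q, T, h1, h2, h3, h4⟩ := exists_prog_of_subgroup' H hH N hN M hM h
  exact ⟨Q, T, h1, h2, by linarith, h4⟩

end Pool.Agent.Lib.MP_dd2a7c_co
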