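import Pool.Agent.Lib.MP_dd2a7c_co.TorsionRed
import Pool.Agent.Lib.MP_dd2a7c_co.FromSubgroup

set_option autoImplicit false

/-!
Covering a finite subgroup of an `m`-torsion group by few cosets of a smaller subgroup
(helper62).
-/

namespace Pool.Agent.Lib.MP_dd2a7c_co

open Finset
open scoped Pointwise

/-- In an `m`-torsion group a finite subgroup `H` with `|H| ≤ M N` is covered by at most `m M`
cosets of a subgroup `H'` with at most `N` elements. -/
theorem exists_small_subgroup {Γ : Type*} [AddCommGroup Γ] [DecidableEq Γ] (m : ℕ) (hm : 1 ≤ m)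
    (htor : ∀ g : Γ, m • g = 0)
    (H : AddSubgroup Γ) (hH : (H : Set Γ).Finite) (N : ℕ) (hN : 1 ≤ N) (M : ℝ) (hM : 1 ≤ M)
    (h : (Nat.card H : ℝ) ≤ M * N) :
    ∃ (H' : AddSubgroup Γ) (T : Finset Γ), (H' : Set Γ).Finite ∧ Nat.card H' ≤ N ∧
      (T.card : ℝ) ≤ m * M ∧ ∀ h ∈ H, ∃ t ∈ T, ∃ g ∈ H', h = t + g := by
  classical
  have hmR : (1 : ℝ) ≤ m := by exact_mod_cast hm
  by_cases hcase : Nat.card H ≤ N
  · refine ⟨H, {0}, hH, hcase, ?_, ?_⟩
    · simp only [Finset.card_singleton, Nat.cast_one]; nlinarith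
    · intro x hx
      exact ⟨0, Finset.mem_singleton_self _, x, hx, (zero_add x).symm⟩
  · push Not at hcase
    have hfin : Finite H := hH
    let P : ℕ → Prop := fun n => ∃ K : AddSubgroup Γ, K ≤ H ∧ Nat.card K = n
    have hP1 : P 1 := ⟨⊥, bot_le, by simp⟩
    have hPmax : P (Nat.findGreatest P N) := Nat.findGreatest_spec (m := 1) hN hP1
    obtain ⟨K, hKH, hKcard⟩ := hPmax
    have hKN : Nat.card K ≤ N := by rw [hKcard]; exact Nat.findGreatest_le N
    have hmax : ∀ L : AddSubgroup Γ, L ≤ H → Nat.card L ≤ N → Nat.card L ≤ Nat.card K := by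
      intro L hL hLN
      rw [hKcard]
      exact Nat.le_findGreatest hLN ⟨L, hL, rfl⟩
    have hKfin : (K : Set Γ).Finite := hH.subset hKH
    have hKfin' : Finite K := hKfin
    have hKne : ¬ (H ≤ K) := by
      intro hle
      have : H = K := le_antisymm hle hKH
      rw [this] at hcase
      omega
    obtain ⟨g, hgH, hgK⟩ := SetLike.not_le_iff_exists.mp hKne
    set L : AddSubgroup Γ := K ⊔ AddSubgroup.zmultiples g with hL
    have hLH : L ≤ H := by
      rw [hL]
      refine sup_le hKH ?_
      rw [AddSubgroup.zmultiples_le]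
      exact hgH
    have hLfin : Finite L := (hH.subset hLH : (L : Set Γ).Finite)
    have hLm : Nat.card L ≤ m * Nat.card K :=
      card_sup_zmultiples_le K hKfin g m hm (by rw [htor g]; exact K.zero_mem)
    have hgL : g ∈ L := by
      rw [hL]
      exact AddSubgroup.mem_sup_right (AddSubgroup.mem_zmultiples g)
    have hKL : Nat.card K < Nat.card L := by
      have hss : (K : Set Γ) ⊂ (L : Set Γ) := by
        refine ⟨?_, ?_⟩
        · intro x hx
          exact AddSubgroup.mem_sup_left hx
        · intro hsub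
          exact hgK (hsub hgL)
      have := Set.ncard_lt_ncard hss (hH.subset hLH)
      rwa [← Nat.card_coe_set_eq, ← Nat.card_coe_set_eq] at this
    have hNL : N < Nat.card L := by
      by_contra hcon
      push Not at hcon
      have := hmax L hLH hcon
      omega
    have hKpos : (0 : ℝ) < Nat.card K := by exact_mod_cast Nat.card_pos
    have hNK : (N : ℝ) ≤ m * Nat.card K := by
      have : N ≤ m * Nat.card K := by omega
      exact_mod_cast this
    have hsum : (H : Set Γ) + (K : Set Γ) ⊆ (H : Set Γ) := by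
      rintro _ ⟨x, hx, y, hy, rfl⟩
      exact H.add_mem hx (hKH hy)
    obtain ⟨F, hFH, hFcard, hFcov, hFfin⟩ := Set.ruzsa_covering_add (A := (H : Set Γ))
      (B := (K : Set Γ)) (K := (Nat.card H : ℝ) / Nat.card K) hH hKfin ⟨0, K.zero_mem⟩ (by
        have e : Nat.card ((K : Set Γ)) = Nat.card K := rfl
        rw [e, div_mul_cancel₀ _ hKpos.ne']
        have h1 : Nat.card ((H : Set Γ) + (K : Set Γ) : Set Γ) ≤ Nat.card H :=
          Nat.card_mono hH hsum
        exact_mod_cast h1)
    refine ⟨K, hFfin.toFinset, hKfin, hKN, ?_, ?_⟩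
    · have h1 : (hFfin.toFinset.card : ℝ) = Nat.card F := by
        rw [Nat.card_eq_card_finite_toFinset hFfin]
      rw [h1]
      refine le_trans hFcard ?_
      rw [div_le_iff₀ hKpos]
      calc (Nat.card H : ℝ) ≤ M * N := h
        _ ≤ M * (m * Nat.card K) := by gcongr
        _ = m * M * Nat.card K := by ring
    · intro x hx
      obtain ⟨t, ht, y, ⟨a, ha, b, hb, rfl⟩, rfl⟩ := hFcov hx
      exact ⟨t, hFfin.mem_toFinset.mpr ht, _, K.sub_mem ha hb, rfl⟩

/-- Integer dilates of a set with small doubling in an `m`-torsion group. -/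
theorem card_add_image_le {Γ : Type*} [AddCommGroup Γ] [DecidableEq Γ] (m : ℕ) (hm : 1 ≤ m)
    (htor : ∀ g : Γ, m • g = 0) {A : Finset Γ} (hA : A.Nonempty) {K : ℝ}
    (hK : ((A + A).card : ℝ) ≤ K * A.card) (L : ℕ) (hL : m ≤ 2 ^ L) (n : ℤ) :
    ((A + A.image (fun a => n • a)).card : ℝ) ≤ K ^ (10 * L + 3) * A.card := by
  have hm' : (0 : ℤ) < m := by exact_mod_cast hm
  have h1 : 0 ≤ n % m := Int.emod_nonneg _ hm'.ne'
  have h2 : n % m < m := Int.emod_lt_of_pos _ hm'
  have h3 : ((n % m).toNat : ℤ) = n % m := Int.toNat_of_nonneg h1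
  have e : A.image (fun a => n • a) = dil (n % m).toNat A := by
    unfold dil
    apply Finset.image_congr
    intro a _
    simp only
    rw [← natCast_zsmul, h3]
    conv_lhs => rw [← Int.emod_add_mul_ediv n m]
    rw [add_zsmul, mul_comm, mul_zsmul, natCast_zsmul, htor, zsmul_zero, add_zero]
  rw [e]
  exact card_add_dil_le hA hK L _ (by omega)

end Pool.Agent.Lib.MP_dd2a7c_co
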