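import Mathlib
import Pool.Agent.Lib.MP_dd2a7c_co.Prog

/-!
Polynomial Freiman–Ruzsa for order ideals (down-sets) of `ℕ^n` of arbitrary dimension, and more
generally for finite sets of lattice points all of whose coordinate boxes `[0, a]`, `a ∈ D`, lie
in `kD - kD`.
-/

set_option autoImplicit false

namespace Pool.Agent.Lib.MP_dd2a7c_co.DownSet

open Finset
open scoped Pointwise

/-! ### Weights -/

/-- The coefficients of `(1 - x)^{-1/2}`. -/
noncomputable def u (i : ℕ) : ℝ := (Nat.centralBinom i : ℝ) / 4 ^ i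

lemma u_zero : u 0 = 1 := by simp [u]

lemma u_pos (i : ℕ) : 0 < u i := by
  unfold u
  have := Nat.centralBinom_pos i
  positivity

lemma u_succ (i : ℕ) : ((i : ℝ) + 1) * u (i + 1) = ((i : ℝ) + 1 / 2) * u i := by
  unfold u
  have h := Nat.succ_mul_centralBinom_succ i
  have h' : ((i : ℝ) + 1) * (Nat.centralBinom (i + 1) : ℝ) =
      2 * (2 * (i : ℝ) + 1) * (Nat.centralBinom i : ℝ) := by exact_mod_cast h
  rw [← mul_div_assoc, h', pow_succ]
  have h4 : (4 : ℝ) ^ i ≠ 0 := by positivity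
  field_simp
  ring

lemma u_sq (i : ℕ) : 1 ≤ u (i + 1) ^ 2 * (4 * ((i : ℝ) + 1)) := by
  induction i with
  | zero =>
    have h := u_succ 0
    rw [u_zero] at h
    norm_num at h
    norm_num [h]
  | succ i ih =>
    have h := u_succ (i + 1)
    push_cast at h ⊢
    have hi : (0 : ℝ) ≤ i := Nat.cast_nonneg i
    have h2 : u (i + 1 + 1) = ((i : ℝ) + 1 + 1 / 2) * u (i + 1) / ((i : ℝ) + 1 + 1) := by
      rw [eq_div_iff (by positivity), ← h]
      ring
    rw [h2]
    have hp : (0 : ℝ) < (i : ℝ) + 1 + 1 := by positivity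
    have e : (((i : ℝ) + 1 + 1 / 2) * u (i + 1) / ((i : ℝ) + 1 + 1)) ^ 2 *
        (4 * ((i : ℝ) + 1 + 1)) =
        (u (i + 1) ^ 2 * (4 * ((i : ℝ) + 1))) *
          (((i : ℝ) + 1 + 1 / 2) ^ 2 / (((i : ℝ) + 1) * ((i : ℝ) + 1 + 1))) := by
      field_simp
    rw [e]
    have h3 : 1 ≤ ((i : ℝ) + 1 + 1 / 2) ^ 2 / (((i : ℝ) + 1) * ((i : ℝ) + 1 + 1)) := by
      rw [one_le_div (by positivity)]
      nlinarith
    nlinarith

lemma sum_u (s : ℕ) : ∑ p ∈ antidiagonal s, u p.1 * u p.2 = 1 := by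
  induction s with
  | zero => simp [u_zero]
  | succ s ih =>
    -- `(s+1) S_{s+1} = 2 ∑ i u_i u_j`
    have h1 : ((s : ℝ) + 1) * ∑ p ∈ antidiagonal (s + 1), u p.1 * u p.2 =
        2 * ∑ p ∈ antidiagonal (s + 1), (p.1 : ℝ) * (u p.1 * u p.2) := by
      have e1 : ∑ p ∈ antidiagonal (s + 1), (p.2 : ℝ) * (u p.1 * u p.2) =
          ∑ p ∈ antidiagonal (s + 1), (p.1 : ℝ) * (u p.1 * u p.2) := by
        rw [← Finset.Nat.sum_antidiagonal_swap]
        refine sum_congr rfl fun p _ => ?_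
        simp only [Prod.fst_swap, Prod.snd_swap]
        ring
      rw [two_mul]
      nth_rewrite 1 [← e1]
      rw [← sum_add_distrib, mul_sum]
      refine sum_congr rfl fun p hp => ?_
      have : (p.1 : ℝ) + p.2 = (s : ℝ) + 1 := by exact_mod_cast mem_antidiagonal.1 hp
      rw [← this]
      ring
    have h2 : ∑ p ∈ antidiagonal (s + 1), (p.1 : ℝ) * (u p.1 * u p.2) =
        ∑ p ∈ antidiagonal s, ((p.1 : ℝ) + 1 / 2) * (u p.1 * u p.2) := by
      rw [Finset.Nat.sum_antidiagonal_succ]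
      simp only [Nat.cast_zero, zero_mul, zero_add]
      refine sum_congr rfl fun p _ => ?_
      have := u_succ p.1
      push_cast
      rw [← mul_assoc, this]
      ring
    have h3 : 2 * ∑ p ∈ antidiagonal s, ((p.1 : ℝ) + 1 / 2) * (u p.1 * u p.2) = (s : ℝ) + 1 := by
      have e1 : ∑ p ∈ antidiagonal s, (p.2 : ℝ) * (u p.1 * u p.2) =
          ∑ p ∈ antidiagonal s, (p.1 : ℝ) * (u p.1 * u p.2) := by
        rw [← Finset.Nat.sum_antidiagonal_swap]
        refine sum_congr rfl fun p _ => ?_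
        simp only [Prod.fst_swap, Prod.snd_swap]
        ring
      have e2 : ∑ p ∈ antidiagonal s, ((p.1 : ℝ) + p.2) * (u p.1 * u p.2) = (s : ℝ) := by
        have : ∀ p ∈ antidiagonal s, ((p.1 : ℝ) + p.2) * (u p.1 * u p.2) =
            (s : ℝ) * (u p.1 * u p.2) := by
          intro p hp
          have : (p.1 : ℝ) + p.2 = (s : ℝ) := by exact_mod_cast mem_antidiagonal.1 hp
          rw [this]
        rw [sum_congr rfl this, ← mul_sum, ih, mul_one]
      have e3 : 2 * ∑ p ∈ antidiagonal s, (p.1 : ℝ) * (u p.1 * u p.2) = (s : ℝ) := by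
        rw [two_mul]
        nth_rewrite 2 [← e1]
        rw [← sum_add_distrib, ← e2]
        refine sum_congr rfl fun p _ => by ring
      have e4 : ∑ p ∈ antidiagonal s, ((p.1 : ℝ) + 1 / 2) * (u p.1 * u p.2) =
          ∑ p ∈ antidiagonal s, (p.1 : ℝ) * (u p.1 * u p.2) +
            1 / 2 * ∑ p ∈ antidiagonal s, u p.1 * u p.2 := by
        rw [mul_sum, ← sum_add_distrib]
        refine sum_congr rfl fun p _ => by ring
      rw [e4, ih, mul_add, e3]
      ring
    have h4 : ((s : ℝ) + 1) * ∑ p ∈ antidiagonal (s + 1), u p.1 * u p.2 = (s : ℝ) + 1 := by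
      rw [h1, h2, h3]
    have hs : (s : ℝ) + 1 ≠ 0 := by positivity
    exact mul_left_cancel₀ hs (by rw [h4, mul_one])

/-! ### A lower bound for the sumset of a set of nonnegative lattice points -/

lemma exists_large {n : ℕ} (E : Finset (Fin n → ℕ)) (hE : E.Nonempty) :
    ∃ a ∈ E, (E.card : ℝ) ^ 2 ≤ ((E + E).card : ℝ) *
      ∏ i ∈ univ.filter (fun i => a i ≠ 0), (4 * (a i : ℝ)) := by
  classical
  set U : (Fin n → ℕ) → ℝ := fun a => ∏ i, u (a i) with hU
  have hUpos : ∀ a, 0 < U a := fun a => prod_pos fun i _ => u_pos _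
  obtain ⟨a, ha, hmin⟩ := exists_min_image E U hE
  refine ⟨a, ha, ?_⟩
  -- the sum over the fibre of `z`
  have hfib : ∀ z ∈ E + E, ∑ p ∈ (E ×ˢ E).filter (fun p => p.1 + p.2 = z), U p.1 * U p.2 ≤ 1 := by
    intro z _
    have hbig : ∏ i : Fin n, ∑ p ∈ antidiagonal (z i), u p.1 * u p.2 = 1 :=
      prod_eq_one fun i _ => sum_u _
    rw [← hbig, Finset.prod_univ_sum]
    have e : ∑ p ∈ (E ×ˢ E).filter (fun p => p.1 + p.2 = z), U p.1 * U p.2 =
        ∑ x ∈ ((E ×ˢ E).filter (fun p => p.1 + p.2 = z)).image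
          (fun (p : (Fin n → ℕ) × (Fin n → ℕ)) (i : Fin n) => (p.1 i, p.2 i)),
          ∏ i, (u (x i).1 * u (x i).2) := by
      rw [sum_image]
      · refine sum_congr rfl fun p _ => ?_
        simp only [hU]
        rw [← prod_mul_distrib]
      · intro p _ q _ h
        have h' := fun i => congrFun h i
        simp only [Prod.mk.injEq] at h'
        exact Prod.ext (funext fun i => (h' i).1) (funext fun i => (h' i).2)
    rw [e]
    refine sum_le_sum_of_subset_of_nonneg ?_ ?_
    · intro x hx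
      rw [mem_image] at hx
      obtain ⟨p, hp, rfl⟩ := hx
      rw [mem_filter] at hp
      rw [Fintype.mem_piFinset]
      intro i
      rw [HasAntidiagonal.mem_antidiagonal]
      exact congrFun hp.2 i
    · intro x _ _
      exact prod_nonneg fun i _ => mul_nonneg (u_pos _).le (u_pos _).le
  have hsq : (∑ a ∈ E, U a) ^ 2 ≤ ((E + E).card : ℝ) := by
    rw [sq, sum_mul_sum, ← sum_product']
    have hm : ∀ p ∈ E ×ˢ E, p.1 + p.2 ∈ E + E := fun p hp =>
      add_mem_add (mem_product.1 hp).1 (mem_product.1 hp).2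
    rw [← sum_fiberwise_of_maps_to hm]
    calc _ ≤ ∑ z ∈ E + E, (1 : ℝ) := sum_le_sum hfib
      _ = _ := by simp
  have h1 : (E.card : ℝ) * U a ≤ ∑ a ∈ E, U a := by
    rw [← nsmul_eq_mul]
    exact card_nsmul_le_sum _ _ _ hmin
  have h2 : ((E.card : ℝ) * U a) ^ 2 ≤ ((E + E).card : ℝ) :=
    (pow_le_pow_left₀ (by have := (hUpos a).le; positivity) h1 2).trans hsq
  have h3 : 1 ≤ U a ^ 2 * ∏ i ∈ univ.filter (fun i => a i ≠ 0), (4 * (a i : ℝ)) := by
    rw [prod_filter, hU, ← prod_pow, ← prod_mul_distrib]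
    have : (1 : ℝ) = ∏ i : Fin n, (1 : ℝ) := by simp
    rw [this]
    refine prod_le_prod (fun _ _ => zero_le_one) fun i _ => ?_
    by_cases h : a i = 0
    · simp [h, u_zero]
    · obtain ⟨j, hj⟩ := Nat.exists_eq_succ_of_ne_zero h
      have := u_sq j
      rw [if_pos h, hj]
      push_cast
      exact this
  have hW : 0 ≤ ∏ i ∈ univ.filter (fun i => a i ≠ 0), (4 * (a i : ℝ)) :=
    prod_nonneg fun i _ => by positivity
  calc (E.card : ℝ) ^ 2 ≤ (E.card : ℝ) ^ 2 *
        (U a ^ 2 * ∏ i ∈ univ.filter (fun i => a i ≠ 0), (4 * (a i : ℝ))) :=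
        le_mul_of_one_le_right (by positivity) h3
    _ = ((E.card : ℝ) * U a) ^ 2 * ∏ i ∈ univ.filter (fun i => a i ≠ 0), (4 * (a i : ℝ)) := by ring
    _ ≤ _ := mul_le_mul_of_nonneg_right h2 hW

/-! ### Supports -/

/-- The support of a lattice point. -/
def supp {n : ℕ} (x : Fin n → ℤ) : Finset (Fin n) := univ.filter (fun i => x i ≠ 0)

/-- `x` lies in the coordinate box with opposite corners `0` and `a`. -/
def InBox {n : ℕ} (x a : Fin n → ℤ) : Prop :=
  ∀ i, (0 ≤ x i ∧ x i ≤ a i) ∨ (a i ≤ x i ∧ x i ≤ 0)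

lemma sum_two_pow_supp_le {n : ℕ} (D S : Finset (Fin n → ℤ))
    (h : ∀ x ∈ D, ∀ y, InBox y x → x + y ∈ S) :
    ∑ x ∈ D, 2 ^ (supp x).card ≤ S.card := by
  classical
  have e : ∑ x ∈ D, 2 ^ (supp x).card =
      (D.sigma (fun x => (supp x).powerset)).card := by
    rw [card_sigma]
    exact sum_congr rfl fun x _ => (card_powerset _).symm
  rw [e]
  refine card_le_card_of_injOn
    (fun p => fun i => p.1 i + (p.1 i - if i ∈ p.2 then (if 0 < p.1 i then 1 else -1) else 0))
    ?_ ?_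
  · rintro ⟨x, I⟩ hx
    rw [mem_coe, mem_sigma, mem_powerset] at hx
    refine h x hx.1 (fun i => x i - if i ∈ I then (if 0 < x i then 1 else -1) else 0) ?_
    intro i
    have h2 := @hx.2 i
    simp only [supp, mem_filter, mem_univ, true_and] at h2
    dsimp only
    split_ifs with h3 h4
    · left; omega
    · have := h2 h3
      right; omega
    · rcases le_total 0 (x i) with h5 | h5
      · left; omega
      · right; omega
  · rintro ⟨x, I⟩ hx ⟨y, J⟩ hy hxy
    rw [mem_coe, mem_sigma, mem_powerset] at hx hy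
    have hxy' := fun i => congrFun hxy i
    dsimp only at hxy'
    have key : ∀ i, x i = y i ∧ (i ∈ I ↔ i ∈ J) := by
      intro i
      have h1 := @hx.2 i
      have h2 := @hy.2 i
      simp only [supp, mem_filter, mem_univ, true_and] at h1 h2
      have h3 := hxy' i
      by_cases hI : i ∈ I <;> by_cases hJ : i ∈ J
      · have h1' := h1 hI
        have h2' := h2 hJ
        rw [if_pos hI, if_pos hJ] at h3
        split_ifs at h3 <;> (constructor; omega; tauto)
      · have h1' := h1 hI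
        rw [if_pos hI, if_neg hJ] at h3
        split_ifs at h3 <;> (exfalso; omega)
      · have h2' := h2 hJ
        rw [if_neg hI, if_pos hJ] at h3
        split_ifs at h3 <;> (exfalso; omega)
      · rw [if_neg hI, if_neg hJ] at h3
        constructor
        · omega
        · tauto
    obtain rfl : x = y := funext fun i => (key i).1
    obtain rfl : I = J := Finset.ext fun i => (key i).2
    rfl

/-- Points with small support are a positive proportion. -/
lemma card_small_supp {n : ℕ} (D : Finset (Fin n → ℤ)) {κ : ℝ} (hκ : 0 < κ)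
    (h : ∑ x ∈ D, (2 : ℝ) ^ (supp x).card ≤ κ * D.card) :
    (D.card : ℝ) / 2 ≤ ((D.filter (fun x => (2 : ℝ) ^ (supp x).card ≤ 2 * κ)).card : ℝ) := by
  classical
  have h1 : ((D.filter (fun x => ¬ (2 : ℝ) ^ (supp x).card ≤ 2 * κ)).card : ℝ) * (2 * κ) ≤
      κ * D.card := by
    rw [← nsmul_eq_mul]
    refine le_trans (card_nsmul_le_sum _ (fun x => (2 : ℝ) ^ (supp x).card) _ ?_) ?_
    · intro x hx
      rw [mem_filter] at hx
      exact (not_le.1 hx.2).le
    · exact le_trans (sum_le_sum_of_subset_of_nonneg (filter_subset _ _)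
        (fun _ _ _ => by positivity)) h
  have h2 : ((D.filter (fun x => (2 : ℝ) ^ (supp x).card ≤ 2 * κ)).card : ℝ) +
      ((D.filter (fun x => ¬ (2 : ℝ) ^ (supp x).card ≤ 2 * κ)).card : ℝ) = D.card := by
    exact_mod_cast card_filter_add_card_filter_not (s := D)
      (fun x => (2 : ℝ) ^ (supp x).card ≤ 2 * κ)
  have h3 : ((D.filter (fun x => ¬ (2 : ℝ) ^ (supp x).card ≤ 2 * κ)).card : ℝ) ≤ D.card / 2 := by
    have : κ * (((D.filter (fun x => ¬ (2 : ℝ) ^ (supp x).card ≤ 2 * κ)).card : ℝ) * 2) ≤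
        κ * D.card := by linarith
    have := le_of_mul_le_mul_left this hκ
    linarith
  linarith

/-- `x` lies in the orthant with sign vector `σ`. -/
def InOrth {n : ℕ} (σ : Fin n → Bool) (x : Fin n → ℤ) : Prop :=
  ∀ i, (σ i = true → 0 ≤ x i) ∧ (σ i = false → x i ≤ 0)

open Classical in
lemma card_orth {n : ℕ} (x : Fin n → ℤ) :
    (2 : ℝ) ^ n ≤ (2 : ℝ) ^ (supp x).card *
      ((univ : Finset (Fin n → Bool)).filter (fun σ => InOrth σ x)).card := by
  classical
  have h1 : (Fintype.piFinset (fun i : Fin n =>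
      if x i = 0 then ({true, false} : Finset Bool) else {decide (0 < x i)})) ⊆
      ((univ : Finset (Fin n → Bool)).filter (fun σ => InOrth σ x)) := by
    intro σ hσ
    rw [Fintype.mem_piFinset] at hσ
    rw [mem_filter]
    refine ⟨mem_univ _, fun i => ?_⟩
    have h := hσ i
    by_cases h0 : x i = 0
    · simp [h0]
    · rw [if_neg h0, mem_singleton] at h
      rw [h]
      constructor
      · intro h'
        exact (of_decide_eq_true h').le
      · intro h'
        exact not_lt.1 (of_decide_eq_false h')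
  have h2 : (Fintype.piFinset (fun i : Fin n =>
      if x i = 0 then ({true, false} : Finset Bool) else {decide (0 < x i)})).card * 
        2 ^ (supp x).card = 2 ^ n := by
    rw [Fintype.card_piFinset]
    have e : ∀ i, (if x i = 0 then ({true, false} : Finset Bool) else {decide (0 < x i)}).card =
        if x i = 0 then 2 else 1 := by
      intro i
      split_ifs <;> simp
    rw [prod_congr rfl fun i _ => e i]
    have e2 : 2 ^ (supp x).card = ∏ i, (if x i = 0 then 1 else 2) := by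
      rw [← prod_const, supp, prod_filter]
      refine prod_congr rfl fun i _ => ?_
      by_cases h : x i = 0 <;> simp [h]
    rw [e2, ← prod_mul_distrib]
    have e3 : ∀ i, (if x i = 0 then 2 else 1) * (if x i = 0 then 1 else 2) = 2 := by
      intro i
      split_ifs <;> rfl
    rw [prod_congr rfl fun i _ => e3 i]
    simp
  have h3 : ((Fintype.piFinset (fun i : Fin n =>
      if x i = 0 then ({true, false} : Finset Bool) else {decide (0 < x i)})).card : ℝ) * 
        2 ^ (supp x).card = 2 ^ n := by exact_mod_cast h2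
  rw [← h3, mul_comm]
  refine mul_le_mul_of_nonneg_left ?_ (by positivity)
  exact_mod_cast card_le_card h1

open Classical in
lemma exists_orth {n : ℕ} (D : Finset (Fin n → ℤ)) {m : ℝ} (hm : 0 < m)
    (h : ∀ x ∈ D, (2 : ℝ) ^ (supp x).card ≤ m) :
    ∃ σ : Fin n → Bool, (D.card : ℝ) / m ≤ (D.filter (fun x => InOrth σ x)).card := by
  classical
  have key : ∑ σ : Fin n → Bool, (D.card : ℝ) / m ≤
      ∑ σ : Fin n → Bool, ((D.filter (fun x => InOrth σ x)).card : ℝ) := by
    have e : ∑ σ : Fin n → Bool, (D.filter (fun x => InOrth σ x)).card =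
        ∑ x ∈ D, ((univ : Finset (Fin n → Bool)).filter (fun σ => InOrth σ x)).card := by
      simp only [card_filter]
      exact sum_comm
    have e' : ∑ σ : Fin n → Bool, ((D.filter (fun x => InOrth σ x)).card : ℝ) =
        ∑ x ∈ D, (((univ : Finset (Fin n → Bool)).filter (fun σ => InOrth σ x)).card : ℝ) := by
      exact_mod_cast e
    rw [e', sum_const, card_univ, Fintype.card_fun, Fintype.card_bool, Fintype.card_fin,
      nsmul_eq_mul]
    have : ∀ x ∈ D, (2 : ℝ) ^ n / m ≤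
        (((univ : Finset (Fin n → Bool)).filter (fun σ => InOrth σ x)).card : ℝ) := by
      intro x hx
      rw [div_le_iff₀ hm]
      refine (card_orth x).trans ?_
      rw [mul_comm]
      exact mul_le_mul_of_nonneg_left (h x hx) (by positivity)
    calc ((2 ^ n : ℕ) : ℝ) * ((D.card : ℝ) / m) = D.card • ((2 : ℝ) ^ n / m) := by
          rw [nsmul_eq_mul]; push_cast; ring
      _ ≤ _ := card_nsmul_le_sum _ _ _ this
  obtain ⟨σ, _, hσ⟩ := exists_le_of_sum_le (s := (univ : Finset (Fin n → Bool)))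
    univ_nonempty key
  exact ⟨σ, hσ⟩

/-- Passing from an orthant to nonnegative vectors. -/
def absv {n : ℕ} (x : Fin n → ℤ) : Fin n → ℕ := fun i => (x i).natAbs

lemma absv_injOn {n : ℕ} (σ : Fin n → Bool) {x y : Fin n → ℤ} (hx : InOrth σ x)
    (hy : InOrth σ y) (h : absv x = absv y) : x = y := by
  funext i
  have h1 := congrFun h i
  simp only [absv] at h1
  cases hσ : σ i
  · have := (hx i).2 hσ
    have := (hy i).2 hσ
    omega
  · have := (hx i).1 hσ
    have := (hy i).1 hσ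
    omega

lemma absv_add {n : ℕ} (σ : Fin n → Bool) {x y : Fin n → ℤ} (hx : InOrth σ x)
    (hy : InOrth σ y) : absv (x + y) = absv x + absv y := by
  funext i
  simp only [absv, Pi.add_apply]
  cases hσ : σ i
  · have := (hx i).2 hσ
    have := (hy i).2 hσ
    omega
  · have := (hx i).1 hσ
    have := (hy i).1 hσ
    omega

/-- The large element of a set in one orthant. -/
lemma exists_large' {n : ℕ} (σ : Fin n → Bool) (E : Finset (Fin n → ℤ)) (hE : E.Nonempty)
    (hσ : ∀ x ∈ E, InOrth σ x) :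
    ∃ a ∈ E, (E.card : ℝ) ^ 2 ≤ ((E + E).card : ℝ) *
      ∏ i ∈ supp a, (4 * ((a i).natAbs : ℝ)) := by
  classical
  obtain ⟨a', ha', h⟩ := exists_large (E.image absv) (hE.image _)
  rw [mem_image] at ha'
  obtain ⟨a, ha, rfl⟩ := ha'
  refine ⟨a, ha, ?_⟩
  have hc : (E.image absv).card = E.card :=
    card_image_of_injOn fun x hx y hy hxy => absv_injOn σ (hσ x hx) (hσ y hy) hxy
  have hs : (E.image absv + E.image absv).card ≤ (E + E).card := by
    refine (card_le_card ?_).trans (card_image_le (s := E + E) (f := absv))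
    intro z hz
    rw [mem_add] at hz
    obtain ⟨x', hx', y', hy', rfl⟩ := hz
    rw [mem_image] at hx' hy'
    obtain ⟨x, hx, rfl⟩ := hx'
    obtain ⟨y, hy, rfl⟩ := hy'
    rw [mem_image]
    exact ⟨x + y, add_mem_add hx hy, absv_add σ (hσ x hx) (hσ y hy)⟩
  have hf : univ.filter (fun i => absv a i ≠ 0) = supp a := by
    ext i
    simp [absv, supp]
  rw [hc, hf] at h
  refine h.trans (mul_le_mul_of_nonneg_right (by exact_mod_cast hs) ?_)
  exact prod_nonneg fun i _ => by positivity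

/-! ### Shrinking the box -/

lemma exists_shrink {n : ℕ} (a : Fin n → ℕ) (N : ℕ) (hN : 1 ≤ N) :
    ∃ b : Fin n → ℕ, b ≤ a ∧ ∏ i, (2 * b i + 1) ≤ N ∧
      (b = a ∨ N < 3 * ∏ i, (2 * b i + 1)) := by
  classical
  set S := (Finset.Iic a).filter (fun b => ∏ i, (2 * b i + 1) ≤ N) with hS
  have hSne : S.Nonempty := ⟨0, by simp [hS, hN]⟩
  obtain ⟨b, hb, hmax⟩ := exists_max_image S (fun b => ∏ i, (2 * b i + 1)) hSne
  rw [hS, mem_filter, mem_Iic] at hb
  refine ⟨b, hb.1, hb.2, ?_⟩
  by_cases hba : b = a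
  · exact Or.inl hba
  right
  by_contra hcon
  rw [not_lt] at hcon
  obtain ⟨j, hj⟩ : ∃ j, b j < a j := by
    by_contra hno
    push Not at hno
    exact hba (le_antisymm hb.1 hno)
  set b' : Fin n → ℕ := Function.update b j (b j + 1) with hb'
  have hprod : (2 * b j + 1) * ∏ i, (2 * b' i + 1) = (2 * b j + 3) * ∏ i, (2 * b i + 1) := by
    rw [← Finset.mul_prod_erase univ (fun i => 2 * b' i + 1) (mem_univ j),
      ← Finset.mul_prod_erase univ (fun i => 2 * b i + 1) (mem_univ j)]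
    have e1 : ∏ i ∈ univ.erase j, (2 * b' i + 1) = ∏ i ∈ univ.erase j, (2 * b i + 1) := by
      refine prod_congr rfl fun i hi => ?_
      rw [hb', Function.update_of_ne (ne_of_mem_erase hi)]
    rw [e1, hb', Function.update_self]
    ring
  have hpos : 0 < ∏ i, (2 * b i + 1) := prod_pos fun i _ => by positivity
  have hle3 : ∏ i, (2 * b' i + 1) ≤ 3 * ∏ i, (2 * b i + 1) := by
    have h2 : (2 * b j + 3) ≤ 3 * (2 * b j + 1) := by omega
    have h3 : (2 * b j + 1) * ∏ i, (2 * b' i + 1) ≤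
        (2 * b j + 1) * (3 * ∏ i, (2 * b i + 1)) := by
      rw [hprod]
      calc _ ≤ (3 * (2 * b j + 1)) * ∏ i, (2 * b i + 1) := Nat.mul_le_mul_right _ h2
        _ = _ := by ring
    exact Nat.le_of_mul_le_mul_left h3 (by omega)
  have hlt : ∏ i, (2 * b i + 1) < ∏ i, (2 * b' i + 1) := by
    have h3 : (2 * b j + 1) * ∏ i, (2 * b i + 1) < (2 * b j + 1) * ∏ i, (2 * b' i + 1) := by
      rw [hprod]
      exact Nat.mul_lt_mul_of_pos_right (by omega) hpos
    exact lt_of_mul_lt_mul_left h3 (by omega)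
  have hmem : b' ∈ S := by
    rw [hS, mem_filter, mem_Iic]
    refine ⟨?_, hle3.trans hcon⟩
    intro i
    by_cases hi : i = j
    · subst hi
      rw [hb', Function.update_self]
      exact hj
    · rw [hb', Function.update_of_ne hi]
      exact hb.1 i
  exact absurd (hmax b' hmem) (not_le.2 hlt)

/-! ### Iterated sumsets -/

lemma sum_mem_nsmul {G : Type*} [AddCommGroup G] [DecidableEq G] (D : Finset G) (k : ℕ)
    (p : Fin k → G) (hp : ∀ j, p j ∈ D) : ∑ j, p j ∈ k • D := by
  induction k with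
  | zero => simp
  | succ k ih =>
    rw [Fin.sum_univ_castSucc, succ_nsmul]
    exact add_mem_add (ih _ fun j => hp _) (hp _)

lemma exists_iter {G : Type*} [AddCommGroup G] [DecidableEq G] (D : Finset G) (hD : D.Nonempty)
    {K : ℝ} (hK : ((D + D).card : ℝ) ≤ K * D.card) (k : ℕ) :
    ∃ S : Finset G, (S.card : ℝ) ≤ K ^ (2 * k + 1) * D.card ∧
      ∀ x ∈ D, ∀ p q : Fin k → G, (∀ j, p j ∈ D) → (∀ j, q j ∈ D) →
        x + (∑ j, p j - ∑ j, q j) ∈ S := by
  refine ⟨(k + 1) • D - k • D, ?_, ?_⟩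
  · have h := pluennecke_ruzsa_inequality_nsmul_sub_nsmul_add hD D (k + 1) k
    have h' : (((k + 1) • D - k • D).card : ℝ) ≤
        (((D + D).card : ℝ) / D.card) ^ (k + 1 + k) * D.card := by
      have := (NNRat.cast_le (K := ℝ)).2 h
      push_cast at this
      exact this
    refine h'.trans ?_
    have hDpos : (0 : ℝ) < D.card := by exact_mod_cast hD.card_pos
    have e : k + 1 + k = 2 * k + 1 := by ring
    rw [e]
    refine mul_le_mul_of_nonneg_right (pow_le_pow_left₀ (by positivity) ?_ _) hDpos.le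
    rw [div_le_iff₀ hDpos]
    exact hK
  · intro x hx p q hp hq
    have h1 := sum_mem_nsmul D k p hp
    have h2 := sum_mem_nsmul D k q hq
    rw [← add_sub_assoc, add_comm x]
    refine sub_mem_sub ?_ h2
    rw [succ_nsmul]
    exact add_mem_add h1 hx

/-! ### Boxes -/

/-- The box `[0, b]` in the orthant of `a`. -/
noncomputable def sbox {n : ℕ} (a : Fin n → ℤ) (b : Fin n → ℕ) : Finset (Fin n → ℤ) :=
  Fintype.piFinset (fun i => if 0 ≤ a i then Finset.Icc (0 : ℤ) (b i) else
    Finset.Icc (-(b i : ℤ)) 0)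

lemma card_sbox {n : ℕ} (a : Fin n → ℤ) (b : Fin n → ℕ) :
    (sbox a b).card = ∏ i, (b i + 1) := by
  rw [sbox, Fintype.card_piFinset]
  refine prod_congr rfl fun i _ => ?_
  split_ifs
  · rw [Int.card_Icc]; omega
  · rw [Int.card_Icc]; omega

lemma sbox_nonempty {n : ℕ} (a : Fin n → ℤ) (b : Fin n → ℕ) : (sbox a b).Nonempty := by
  rw [← card_pos, card_sbox]
  exact prod_pos fun i _ => by positivity

lemma inBox_of_mem_sbox {n : ℕ} {a : Fin n → ℤ} {b : Fin n → ℕ} (hb : b ≤ absv a)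
    {x : Fin n → ℤ} (hx : x ∈ sbox a b) : InBox x a := by
  intro i
  rw [sbox, Fintype.mem_piFinset] at hx
  have h := hx i
  have hbi := hb i
  simp only [absv] at hbi
  split_ifs at h with h0
  · rw [mem_Icc] at h
    left; omega
  · rw [mem_Icc] at h
    right; omega

lemma natAbs_le_of_mem_sub {n : ℕ} {a : Fin n → ℤ} {b : Fin n → ℕ} {x : Fin n → ℤ}
    (hx : x ∈ sbox a b - sbox a b) (i : Fin n) : -(b i : ℤ) ≤ x i ∧ x i ≤ b i := by
  rw [mem_sub] at hx
  obtain ⟨y, hy, z, hz, rfl⟩ := hx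
  rw [sbox, Fintype.mem_piFinset] at hy hz
  have h1 := hy i
  have h2 := hz i
  rw [Pi.sub_apply]
  split_ifs at h1 h2 with h0
  · rw [mem_Icc] at h1 h2
    omega
  · rw [mem_Icc] at h1 h2
    omega

/-- The embedding of `ℤ^s` in `ℤ^n`. -/
noncomputable def emb {n : ℕ} (s : Finset (Fin n)) : (Fin s.card → ℤ) →+ (Fin n → ℤ) where
  toFun v := fun i => if h : i ∈ s then v (s.equivFin ⟨i, h⟩) else 0
  map_zero' := by
    funext i
    simp
  map_add' v w := by
    funext i
    simp only [Pi.add_apply]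
    split_ifs <;> simp

/-- The real box `[-b_i - 1/2, b_i + 1/2]`, `i ∈ s`. -/
def boxBody {n : ℕ} (s : Finset (Fin n)) (b : Fin n → ℕ) : Set (Fin s.card → ℝ) :=
  Set.pi Set.univ (fun j => Set.Icc (-((b (s.equivFin.symm j) : ℝ) + 1 / 2))
    ((b (s.equivFin.symm j) : ℝ) + 1 / 2))

/-- Its lattice points. -/
noncomputable def boxPts {n : ℕ} (s : Finset (Fin n)) (b : Fin n → ℕ) :
    Finset (Fin s.card → ℤ) :=
  Fintype.piFinset (fun j : Fin s.card =>
      Finset.Icc (-(b (s.equivFin.symm j) : ℤ)) (b (s.equivFin.symm j)))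

/-- The box progression with sides `[-b_i, b_i]`, `i ∈ s`. -/
noncomputable def boxProg {Γ : Type*} [AddCommGroup Γ] {n : ℕ} (ψ : (Fin n → ℤ) →+ Γ)
    (s : Finset (Fin n)) (b : Fin n → ℕ) : CosetProg Γ where
  dim := s.card
  body := boxBody s b
  isCompact_body := isCompact_univ_pi fun _ => isCompact_Icc
  convex_body := convex_pi fun _ _ => convex_Icc _ _
  interior_nonempty := by
    refine ⟨0, ?_⟩
    rw [boxBody, interior_pi_set Set.finite_univ]
    intro j _
    dsimp only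
    rw [interior_Icc]
    have : (0 : ℝ) ≤ (b (s.equivFin.symm j) : ℝ) := Nat.cast_nonneg _
    constructor
    · simp only [Pi.zero_apply]
      linarith
    · simp only [Pi.zero_apply]
      linarith
  neg_mem_body := by
    intro x hx j hj
    have := hx j hj
    rw [Set.mem_Icc] at this ⊢
    rw [Pi.neg_apply]
    constructor <;> linarith
  base := 0
  hom := ψ.comp (emb s)
  sub := ⊥
  finite_sub := by
    rw [AddSubgroup.coe_bot]
    exact Set.finite_singleton 0

lemma mem_boxBody {n : ℕ} (s : Finset (Fin n)) (b : Fin n → ℕ) (v : Fin s.card → ℤ) :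
    (fun i => (v i : ℝ)) ∈ boxBody s b ↔ v ∈ boxPts s b := by
  rw [boxPts, Fintype.mem_piFinset]
  change (∀ j, j ∈ Set.univ → _) ↔ _
  refine ⟨fun h j => ?_, fun h j _ => ?_⟩
  · have h1 := h j (Set.mem_univ _)
    rw [Set.mem_Icc] at h1
    rw [mem_Icc]
    constructor
    · by_contra hc
      have : v j + 1 ≤ -(b (s.equivFin.symm j) : ℤ) := by omega
      have h2 : (v j : ℝ) + 1 ≤ -(b (s.equivFin.symm j) : ℝ) := by exact_mod_cast this
      linarith [h1.1]
    · by_contra hc
      have : (b (s.equivFin.symm j) : ℤ) + 1 ≤ v j := by omega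
      have h2 : (b (s.equivFin.symm j) : ℝ) + 1 ≤ v j := by exact_mod_cast this
      linarith [h1.2]
  · have h1 := h j
    rw [mem_Icc] at h1
    rw [Set.mem_Icc]
    have h2 : -(b (s.equivFin.symm j) : ℝ) ≤ v j := by exact_mod_cast h1.1
    have h3 : (v j : ℝ) ≤ b (s.equivFin.symm j) := by exact_mod_cast h1.2
    constructor <;> linarith

lemma boxProg_vol {Γ : Type*} [AddCommGroup Γ] {n : ℕ} (ψ : (Fin n → ℤ) →+ Γ)
    (s : Finset (Fin n)) (b : Fin n → ℕ) :
    (boxProg ψ s b).vol = ∏ i ∈ s, (2 * b i + 1) := by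
  have h0 : (boxProg ψ s b).vol = Nat.card (⊥ : AddSubgroup Γ) *
      Set.ncard {v : Fin s.card → ℤ | (fun i => (v i : ℝ)) ∈ boxBody s b} := rfl
  have h1 : {v : Fin s.card → ℤ | (fun i => (v i : ℝ)) ∈ boxBody s b} =
      (boxPts s b : Set (Fin s.card → ℤ)) := by
    ext v
    exact mem_boxBody s b v
  have h1' : Nat.card (⊥ : AddSubgroup Γ) = 1 := Nat.card_unique
  rw [h0, h1, Set.ncard_coe_finset, boxPts, Fintype.card_piFinset, h1', one_mul]
  have h2 : ∀ j : Fin s.card, (Finset.Icc (-(b (s.equivFin.symm j) : ℤ))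
      (b (s.equivFin.symm j))).card = 2 * b (s.equivFin.symm j) + 1 := by
    intro j
    rw [Int.card_Icc]
    omega
  rw [prod_congr rfl fun j _ => h2 j]
  rw [← Finset.prod_coe_sort s (fun i => 2 * b i + 1)]
  exact Equiv.prod_comp s.equivFin.symm (fun i : s => 2 * b i + 1)

lemma mem_boxProg {Γ : Type*} [AddCommGroup Γ] {n : ℕ} (ψ : (Fin n → ℤ) →+ Γ)
    (s : Finset (Fin n)) (b : Fin n → ℕ) {x : Fin n → ℤ}
    (hx : ∀ i, -(b i : ℤ) ≤ x i ∧ x i ≤ b i) (hs : ∀ i, i ∉ s → x i = 0) :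
    ψ x ∈ (boxProg ψ s b).carrier := by
  refine ⟨(fun j => x (s.equivFin.symm j) : Fin s.card → ℤ), ?_, 0, AddSubgroup.zero_mem _, ?_⟩
  · refine (mem_boxBody s b (fun j => x (s.equivFin.symm j))).2 ?_
    rw [boxPts, Fintype.mem_piFinset]
    intro j
    rw [mem_Icc]
    exact hx _
  · change ψ x = 0 + (ψ.comp (emb s)) (fun j => x (s.equivFin.symm j)) + 0
    rw [zero_add, add_zero, AddMonoidHom.comp_apply]
    congr 1
    funext i
    simp only [emb, AddMonoidHom.coe_mk, ZeroHom.coe_mk]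
    by_cases h : i ∈ s
    · rw [dif_pos h, Equiv.symm_apply_apply]
    · rw [dif_neg h, hs i h]

/-! ### The theorem for lattice sets -/

/-- The combinatorial core: a set of lattice points of doubling `K` all of whose boxes lie in
`kD - kD` is covered by few translates of a box of small dimension and small volume. -/
theorem core {n : ℕ} (k : ℕ) (D : Finset (Fin n → ℤ)) (hD : D.Nonempty) {K : ℝ} (hK1 : 1 ≤ K)
    (hK : ((D + D).card : ℝ) ≤ K * D.card)
    (hbox : ∀ a ∈ D, ∀ x, InBox x a → ∃ p q : Fin k → (Fin n → ℤ),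
      (∀ j, p j ∈ D) ∧ (∀ j, q j ∈ D) ∧ x = ∑ j, p j - ∑ j, q j) :
    ∃ (s : Finset (Fin n)) (b : Fin n → ℕ) (F : Finset (Fin n → ℤ)),
      (2 : ℝ) ^ s.card ≤ 2 * K ^ (2 * k + 1) ∧ ∏ i, (2 * b i + 1) ≤ D.card ∧
      (F.card : ℝ) ≤ 128 * K ^ (12 * k + 7) ∧
      ∀ x ∈ D, ∃ f ∈ F, (∀ i, -(b i : ℤ) ≤ x i - f i ∧ x i - f i ≤ b i) ∧
        ∀ i, i ∉ s → x i - f i = 0 := by
  classical
  set κ : ℝ := K ^ (2 * k + 1) with hκ
  have hκ1 : 1 ≤ κ := one_le_pow₀ hK1
  have hκ0 : 0 < κ := by linarith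
  have hDpos : (0 : ℝ) < D.card := by exact_mod_cast hD.card_pos
  obtain ⟨S, hS, hSmem⟩ := exists_iter D hD hK k
  rw [← hκ] at hS
  have hS' : ∀ x ∈ D, ∀ a ∈ D, ∀ y, InBox y a → x + y ∈ S := by
    intro x hx a ha y hy
    obtain ⟨p, q, hp, hq, rfl⟩ := hbox a ha y hy
    exact hSmem x hx p q hp hq
  -- step 1
  have h1 : ∑ x ∈ D, (2 : ℝ) ^ (supp x).card ≤ κ * D.card := by
    have h := sum_two_pow_supp_le D S fun x hx y hy => hS' x hx x hx y hy
    have h' : ∑ x ∈ D, (2 : ℝ) ^ (supp x).card ≤ S.card := by exact_mod_cast h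
    exact h'.trans hS
  set D₁ := D.filter (fun x => (2 : ℝ) ^ (supp x).card ≤ 2 * κ) with hD₁
  have h2 : (D.card : ℝ) / 2 ≤ D₁.card := card_small_supp D hκ0 h1
  -- step 2
  obtain ⟨σ, hσ⟩ := exists_orth D₁ (m := 2 * κ) (by positivity)
    (fun x hx => (mem_filter.1 hx).2)
  set D₂ := D₁.filter (fun x => InOrth σ x) with hD₂
  have h3 : (D.card : ℝ) / (4 * κ) ≤ D₂.card := by
    refine le_trans ?_ hσ
    rw [div_le_div_iff₀ (by positivity) (by positivity)]
    nlinarith
  have hD₂ne : D₂.Nonempty := by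
    rw [← card_pos]
    have : (0 : ℝ) < D₂.card := lt_of_lt_of_le (by positivity) h3
    exact_mod_cast this
  -- step 3
  obtain ⟨a, ha, h4⟩ := exists_large' σ D₂ hD₂ne (fun x hx => (mem_filter.1 hx).2)
  have haD₁ : a ∈ D₁ := (mem_filter.1 ha).1
  have haD : a ∈ D := (mem_filter.1 haD₁).1
  have hsupp : (2 : ℝ) ^ (supp a).card ≤ 2 * κ := (mem_filter.1 haD₁).2
  have hsub : ((D₂ + D₂).card : ℝ) ≤ K * D.card := by
    refine le_trans ?_ hK
    have : D₂ ⊆ D := (filter_subset _ _).trans (filter_subset _ _)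
    exact_mod_cast card_le_card (add_subset_add this this)
  have h5 : (D.card : ℝ) ≤ 64 * κ ^ 4 * K * ∏ i ∈ supp a, ((a i).natAbs : ℝ) := by
    have hprod : ∏ i ∈ supp a, (4 * ((a i).natAbs : ℝ)) =
        ((2 : ℝ) ^ (supp a).card) ^ 2 * ∏ i ∈ supp a, ((a i).natAbs : ℝ) := by
      rw [prod_mul_distrib, prod_const, ← pow_mul, mul_comm (supp a).card 2, pow_mul]
      norm_num
    rw [hprod] at h4
    have hP : 0 ≤ ∏ i ∈ supp a, ((a i).natAbs : ℝ) := prod_nonneg fun i _ => Nat.cast_nonneg _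
    have h6 : ((D.card : ℝ) / (4 * κ)) ^ 2 ≤ (D₂.card : ℝ) ^ 2 :=
      pow_le_pow_left₀ (by positivity) h3 2
    have h7 : ((D₂ + D₂).card : ℝ) * (((2 : ℝ) ^ (supp a).card) ^ 2 *
        ∏ i ∈ supp a, ((a i).natAbs : ℝ)) ≤
        (K * D.card) * ((2 * κ) ^ 2 * ∏ i ∈ supp a, ((a i).natAbs : ℝ)) := by
      refine mul_le_mul hsub ?_ (by positivity) (by positivity)
      exact mul_le_mul_of_nonneg_right (pow_le_pow_left₀ (by positivity) hsupp 2) hP
    have h8 := (h6.trans h4).trans h7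
    rw [div_pow, div_le_iff₀ (by positivity)] at h8
    have h9 : (D.card : ℝ) * D.card ≤
        D.card * (64 * κ ^ 4 * K * ∏ i ∈ supp a, ((a i).natAbs : ℝ)) := by
      calc (D.card : ℝ) * D.card = (D.card : ℝ) ^ 2 := by ring
        _ ≤ _ := h8
        _ = _ := by ring
    exact le_of_mul_le_mul_left h9 hDpos
  -- step 4
  obtain ⟨b, hba, hbN, hb⟩ := exists_shrink (absv a) D.card hD.card_pos
  have hb0 : ∀ i, i ∉ supp a → b i = 0 := by
    intro i hi
    have h := hba i
    simp only [supp, mem_filter, mem_univ, true_and, not_not] at hi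
    simp only [absv, hi, Int.natAbs_zero] at h
    omega
  have h64 : (1 : ℝ) ≤ κ ^ 4 * K := by
    have := one_le_pow₀ hκ1 (n := 4)
    nlinarith
  have h10 : (D.card : ℝ) ≤ 64 * κ ^ 4 * K * ((∏ i, (2 * b i + 1) : ℕ) : ℝ) := by
    rcases hb with hb | hb
    · refine h5.trans (mul_le_mul_of_nonneg_left ?_ (by positivity))
      rw [hb]
      push_cast
      rw [← prod_subset (subset_univ (supp a))]
      · refine prod_le_prod (fun i _ => Nat.cast_nonneg _) fun i _ => ?_
        simp only [absv]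
        have : (0 : ℝ) ≤ ((a i).natAbs : ℝ) := Nat.cast_nonneg _
        linarith
      · intro i _ hi
        simp only [supp, mem_filter, mem_univ, true_and, not_not] at hi
        simp [absv, hi]
    · have hb' : (D.card : ℝ) < 3 * ((∏ i, (2 * b i + 1) : ℕ) : ℝ) := by exact_mod_cast hb
      have hP : (0 : ℝ) ≤ ((∏ i, (2 * b i + 1) : ℕ) : ℝ) := Nat.cast_nonneg _
      refine hb'.le.trans (mul_le_mul_of_nonneg_right ?_ hP)
      nlinarith
  set B := sbox a b with hB
  have hBne : B.Nonempty := sbox_nonempty a b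
  have h11 : ((∏ i, (2 * b i + 1) : ℕ) : ℝ) ≤ 2 * κ * B.card := by
    rw [hB, card_sbox]
    refine le_trans ?_ (mul_le_mul_of_nonneg_right hsupp (Nat.cast_nonneg _))
    have e : (2 : ℝ) ^ (supp a).card = ((∏ i, (if a i ≠ 0 then 2 else 1) : ℕ) : ℝ) := by
      rw [← prod_filter, prod_const]
      push_cast
      rfl
    rw [e]
    have : ∏ i, (2 * b i + 1) ≤ (∏ i, (if a i ≠ 0 then 2 else 1)) * ∏ i, (b i + 1) := by
      rw [← prod_mul_distrib]
      refine prod_le_prod' fun i _ => ?_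
      by_cases h : a i = 0
      · have := hb0 i (by simp [supp, h])
        simp [h, this]
      · rw [if_pos h]
        omega
    exact_mod_cast this
  have h12 : (D.card : ℝ) ≤ 128 * κ ^ 5 * K * B.card := by
    calc (D.card : ℝ) ≤ 64 * κ ^ 4 * K * ((∏ i, (2 * b i + 1) : ℕ) : ℝ) := h10
      _ ≤ 64 * κ ^ 4 * K * (2 * κ * B.card) := mul_le_mul_of_nonneg_left h11 (by positivity)
      _ = _ := by ring
  have h13 : ((D + B).card : ℝ) ≤ (128 * κ ^ 6 * K) * B.card := by
    have hsubS : D + B ⊆ S := by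
      intro z hz
      rw [mem_add] at hz
      obtain ⟨x, hx, y, hy, rfl⟩ := hz
      exact hS' x hx a haD y (inBox_of_mem_sbox hba hy)
    calc ((D + B).card : ℝ) ≤ S.card := by exact_mod_cast card_le_card hsubS
      _ ≤ κ * D.card := hS
      _ ≤ κ * (128 * κ ^ 5 * K * B.card) := mul_le_mul_of_nonneg_left h12 hκ0.le
      _ = _ := by ring
  obtain ⟨F, hFD, hFc, hF⟩ := ruzsa_covering_add hBne h13
  refine ⟨supp a, b, F, hsupp, hbN, ?_, ?_⟩
  · refine hFc.trans (le_of_eq ?_)
    rw [hκ]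
    ring
  · intro x hx
    have h := hF hx
    rw [mem_add] at h
    obtain ⟨f, hf, y, hy, rfl⟩ := h
    refine ⟨f, hf, ?_, ?_⟩
    · intro i
      have := natAbs_le_of_mem_sub hy i
      simpa using this
    · intro i hi
      have := natAbs_le_of_mem_sub hy i
      rw [hb0 i hi] at this
      simp only [Pi.add_apply, add_sub_cancel_left]
      omega

/-! ### The theorem in abelian groups -/

theorem main {Γ : Type*} [AddCommGroup Γ] [DecidableEq Γ] {n : ℕ} (k : ℕ) (hk : 1 ≤ k)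
    (D : Finset (Fin n → ℤ)) (hD : D.Nonempty) (ψ : (Fin n → ℤ) →+ Γ) (x₀ : Γ) (K : ℝ)
    (hψ : Set.InjOn ψ (D + D : Set (Fin n → ℤ)))
    (hbox : ∀ a ∈ D, ∀ x, InBox x a → ∃ p q : Fin k → (Fin n → ℤ),
      (∀ j, p j ∈ D) ∧ (∀ j, q j ∈ D) ∧ x = ∑ j, p j - ∑ j, q j)
    (hK : (((D.image fun x => x₀ + ψ x) + (D.image fun x => x₀ + ψ x)).card : ℝ) ≤
      K * (D.image fun x => x₀ + ψ x).card) :
    ∃ (Q : CosetProg Γ) (T : Finset Γ), (Q.dim : ℝ) ≤ 5 * k * Real.log (2 * K) ∧
      Q.vol ≤ (D.image fun x => x₀ + ψ x).card ∧ (T.card : ℝ) ≤ (2 * K) ^ (19 * k) ∧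
      CoveredBy (D.image fun x => x₀ + ψ x) T Q := by
  classical
  have hinj : ∀ x ∈ D, ∀ y ∈ D, ψ x = ψ y → x = y := by
    intro x hx y hy hxy
    have h1 : ψ (x + x) = ψ (x + y) := by rw [map_add, map_add, hxy]
    have h2 := hψ (Set.add_mem_add (mem_coe.2 hx) (mem_coe.2 hx))
      (Set.add_mem_add (mem_coe.2 hx) (mem_coe.2 hy)) h1
    exact add_left_cancel h2
  have hcard : (D.image fun x => x₀ + ψ x).card = D.card := by
    refine card_image_of_injOn fun x hx y hy hxy => ?_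
    exact hinj x hx y hy (add_left_cancel hxy)
  have hcard2 : ((D.image fun x => x₀ + ψ x) + (D.image fun x => x₀ + ψ x)).card =
      (D + D).card := by
    have e : (D.image fun x => x₀ + ψ x) + (D.image fun x => x₀ + ψ x) =
        (D + D).image (fun z => (x₀ + x₀) + ψ z) := by
      ext g
      simp only [mem_add, mem_image]
      constructor
      · rintro ⟨_, ⟨x, hx, rfl⟩, _, ⟨y, hy, rfl⟩, rfl⟩
        refine ⟨x + y, ⟨x, hx, y, hy, rfl⟩, ?_⟩
        rw [map_add]
        abel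
      · rintro ⟨_, ⟨x, hx, y, hy, rfl⟩, rfl⟩
        refine ⟨_, ⟨x, hx, rfl⟩, _, ⟨y, hy, rfl⟩, ?_⟩
        rw [map_add]
        abel
    rw [e]
    refine card_image_of_injOn fun x hx y hy hxy => ?_
    rw [coe_add] at hx hy
    exact hψ hx hy (add_left_cancel hxy)
  rw [hcard, hcard2] at hK
  have hDpos : (0 : ℝ) < D.card := by exact_mod_cast hD.card_pos
  have hK1 : 1 ≤ K := by
    have h1 : (D.card : ℝ) ≤ (D + D).card := by exact_mod_cast card_le_card_add_left hD
    have h2 : 1 * (D.card : ℝ) ≤ K * D.card := by linarith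
    exact le_of_mul_le_mul_right h2 hDpos
  have hK0 : 0 < K := by linarith
  obtain ⟨s, b, F, hs, hb, hF, hcov⟩ := core k D hD hK1 hK hbox
  refine ⟨boxProg ψ s b, F.image (fun x => x₀ + ψ x), ?_, ?_, ?_, ?_⟩
  · change (s.card : ℝ) ≤ _
    have h1 : (s.card : ℝ) * Real.log 2 ≤ Real.log 2 + ((2 * k + 1 : ℕ) : ℝ) * Real.log K := by
      have h := Real.log_le_log (by positivity) hs
      rw [Real.log_pow, Real.log_mul (by norm_num) (by positivity), Real.log_pow] at h
      exact h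
    have hl2 : Real.log (2 * K) = Real.log 2 + Real.log K :=
      Real.log_mul (by norm_num) (by positivity)
    have hlK : 0 ≤ Real.log K := Real.log_nonneg hK1
    have hl := Real.log_two_gt_d9
    have hk' : (1 : ℝ) ≤ k := by exact_mod_cast hk
    have h2 : Real.log 2 + ((2 * k + 1 : ℕ) : ℝ) * Real.log K ≤ 3 * k * Real.log (2 * K) := by
      rw [hl2]
      push_cast
      nlinarith
    have h3 : 3 * k * Real.log (2 * K) ≤ (5 * k * Real.log (2 * K)) * Real.log 2 := by
      have h0 : 0 ≤ (k : ℝ) * Real.log (2 * K) := by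
        rw [hl2]
        positivity
      nlinarith
    have h4 := (h1.trans h2).trans h3
    exact le_of_mul_le_mul_right h4 (by positivity)
  · rw [boxProg_vol, hcard]
    refine le_trans ?_ hb
    exact prod_le_prod_of_subset_of_one_le' (subset_univ s) fun i _ _ => by omega
  · refine le_trans (b := (F.card : ℝ)) (by exact_mod_cast card_image_le) (hF.trans ?_)
    have h1 : K ^ (12 * k + 7) ≤ K ^ (19 * k) := pow_le_pow_right₀ hK1 (by omega)
    have h2 : (128 : ℝ) ≤ 2 ^ (19 * k) := by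
      calc (128 : ℝ) = 2 ^ 7 := by norm_num
        _ ≤ 2 ^ (19 * k) := pow_le_pow_right₀ (by norm_num) (by omega)
    rw [mul_pow]
    exact mul_le_mul h2 h1 (by positivity) (by positivity)
  · intro g hg
    rw [mem_image] at hg
    obtain ⟨x, hx, rfl⟩ := hg
    obtain ⟨f, hf, hbd, hsup⟩ := hcov x hx
    refine ⟨x₀ + ψ f, mem_image.2 ⟨f, hf, rfl⟩, ψ (x - f), ?_, ?_⟩
    · exact mem_boxProg ψ s b (x := x - f) hbd hsup
    · rw [map_sub]
      abel

end Pool.Agent.Lib.MP_dd2a7c_co.DownSet
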