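import Mathlib

section

/-!
Auerbach's lemma for finite sets: a finite set `E` in a real vector space contains a basis of its
span such that all the elements of `E` have coordinates in `[-1, 1]`.
-/

namespace Pool.Agent.Lib.MP_dd2a7c_co

open Module

/-- Expansion of the determinant along one vector. -/
theorem det_update_eq {U : Type*} [AddCommGroup U] [Module ℝ U] {d : ℕ}
    (b₀ : Basis (Fin d) ℝ U) (v : Fin d → U) (t : Fin d → ℝ) (i : Fin d) :
    b₀.det (Function.update v i (∑ j, t j • v j)) = t i * b₀.det v := by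
  have h1 : b₀.det (Function.update v i (∑ j, t j • v j)) =
      ∑ j, b₀.det (Function.update v i (t j • v j)) :=
    MultilinearMap.map_update_sum b₀.det.toMultilinearMap Finset.univ i (fun j => t j • v j) v
  rw [h1, Finset.sum_eq_single i]
  · rw [AlternatingMap.map_update_smul, Function.update_eq_self, smul_eq_mul]
  · intro j _ hj
    rw [AlternatingMap.map_update_smul, AlternatingMap.map_update_self _ _ hj.symm, smul_zero]
  · intro h
    exact absurd (Finset.mem_univ i) h

/-- **Auerbach's lemma** for finite sets. -/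
theorem auerbach {W : Type*} [AddCommGroup W] [Module ℝ W] (E : Set W) (hE : E.Finite) {d : ℕ}
    (hd : finrank ℝ (Submodule.span ℝ E) = d) :
    ∃ v : Fin d → W, (∀ i, v i ∈ E) ∧ LinearIndependent ℝ v ∧
      Submodule.span ℝ (Set.range v) = Submodule.span ℝ E ∧
      ∀ t : Fin d → ℝ, ∑ i, t i • v i ∈ E → ∀ i, |t i| ≤ 1 := by
  classical
  have hfinE : Finite E := hE
  set U := Submodule.span ℝ E with hU
  have hfd : FiniteDimensional ℝ U := FiniteDimensional.span_of_finite ℝ hE
  let b₀ : Basis (Fin d) ℝ U := finBasisOfFinrankEq ℝ U hd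
  have hmem : ∀ e : E, (e : W) ∈ U := fun e => Submodule.subset_span e.2
  let toU : E → U := fun e => ⟨e, hmem e⟩
  -- a tuple with nonzero determinant
  obtain ⟨w, hw⟩ : ∃ w : Fin d → E, b₀.det (fun i => toU (w i)) ≠ 0 := by
    obtain ⟨s, hsE, hspan, hli⟩ := exists_linearIndependent ℝ E
    have hsfin : s.Finite := hE.subset hsE
    have hsfin' : Fintype s := hsfin.fintype
    have hcard : Fintype.card s = d := by
      rw [← hd, hU, ← hspan, finrank_span_set_eq_card hli, Set.toFinset_card]
    let eqv : Fin d ≃ s := (Fintype.equivFinOfCardEq hcard).symm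
    let w : Fin d → E := fun i => ⟨eqv i, hsE (eqv i).2⟩
    refine ⟨w, ?_⟩
    have hli' : LinearIndependent ℝ (fun i => toU (w i)) := by
      have h1 : LinearIndependent ℝ (U.subtype ∘ fun i => toU (w i)) := by
        have : (U.subtype ∘ fun i => toU (w i)) = (fun i => ((eqv i : s) : W)) := by
          funext i; rfl
        rw [this]
        exact hli.comp eqv eqv.injective
      exact LinearIndependent.of_comp _ h1
    have hspan' : Submodule.span ℝ (Set.range fun i => toU (w i)) = ⊤ :=
      hli'.span_eq_top_of_card_eq_finrank' (by rw [Fintype.card_fin, hd])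
    exact (b₀.is_basis_iff_det.mp ⟨hli', hspan'⟩).ne_zero
  -- a tuple with maximal determinant
  have hne : Nonempty (Fin d → E) := ⟨w⟩
  obtain ⟨v, hv⟩ := Finite.exists_max (fun v : Fin d → E => |b₀.det (fun i => toU (v i))|)
  have hvne : b₀.det (fun i => toU (v i)) ≠ 0 := by
    intro h0
    have h1 := hv w
    rw [h0, abs_zero] at h1
    exact hw (abs_eq_zero.mp (le_antisymm h1 (abs_nonneg _)))
  obtain ⟨hli, hspan⟩ := b₀.is_basis_iff_det.mpr (isUnit_iff_ne_zero.mpr hvne)
  have hspanW : Submodule.span ℝ (Set.range fun i => ((v i : E) : W)) = U := by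
    have h1 := congrArg (Submodule.map U.subtype) hspan
    rw [Submodule.map_span, ← Set.range_comp, Submodule.map_top, Submodule.range_subtype] at h1
    exact h1
  refine ⟨fun i => v i, fun i => (v i).2, ?_, hspanW, ?_⟩
  · exact hli.map' U.subtype (Submodule.ker_subtype U)
  · intro t ht i
    have h1 := hv (Function.update v i ⟨_, ht⟩)
    have h2 : (fun j => toU (Function.update v i ⟨_, ht⟩ j)) =
        Function.update (fun j => toU (v j)) i (∑ j, t j • toU (v j)) := by
      funext j
      by_cases hj : j = i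
      · subst hj
        simp only [Function.update_self, toU]
        apply Subtype.ext
        simp
      · simp only [Function.update_of_ne hj]
    simp only [h2, det_update_eq, abs_mul] at h1
    have h3 : 0 < |b₀.det (fun i => toU (v i))| := abs_pos.mpr hvne
    by_contra h4
    push Not at h4
    have h5 : 1 * |b₀.det (fun i => toU (v i))| < |t i| * |b₀.det (fun i => toU (v i))| := by
      gcongr
    linarith

end Pool.Agent.Lib.MP_dd2a7c_co
end

section

/-!
Iterated sumsets of finite sets in an abelian group.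
-/

set_option autoImplicit false

open Finset
open scoped Pointwise

namespace Pool.Agent.Lib.MP_dd2a7c_co

variable {Γ : Type*} [AddCommGroup Γ] [DecidableEq Γ]

/-- The `n`-fold sumset of `S`; the `0`-fold sumset is the singleton of `0`. -/
def itSum : ℕ → Finset Γ → Finset Γ
  | 0, _ => {0}
  | (n + 1), S => itSum n S + S

@[simp] lemma itSum_zero (S : Finset Γ) : itSum 0 S = {0} := rfl

lemma itSum_succ (n : ℕ) (S : Finset Γ) : itSum (n + 1) S = itSum n S + S := rfl

@[simp] lemma itSum_one (S : Finset Γ) : itSum 1 S = S := by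
  rw [itSum_succ, itSum_zero]
  ext x
  simp [mem_add]

lemma itSum_two (S : Finset Γ) : itSum 2 S = S + S := by
  rw [itSum_succ, itSum_one]

lemma itSum_add (m n : ℕ) (S : Finset Γ) : itSum (m + n) S = itSum m S + itSum n S := by
  induction n with
  | zero =>
    rw [Nat.add_zero, itSum_zero]
    ext x
    simp [mem_add]
  | succ n ih => rw [← Nat.add_assoc, itSum_succ, ih, itSum_succ, add_assoc]

lemma itSum_succ' (n : ℕ) (S : Finset Γ) : itSum (n + 1) S = S + itSum n S := by
  rw [itSum_succ, add_comm]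

lemma itSum_mul (m n : ℕ) (S : Finset Γ) : itSum (m * n) S = itSum m (itSum n S) := by
  induction m with
  | zero => rw [Nat.zero_mul, itSum_zero, itSum_zero]
  | succ m ih => rw [Nat.succ_mul, itSum_add, ih, itSum_succ]

lemma itSum_nonempty (n : ℕ) {S : Finset Γ} (hS : S.Nonempty) : (itSum n S).Nonempty := by
  induction n with
  | zero => exact ⟨0, by simp⟩
  | succ n ih => rw [itSum_succ]; exact ih.add hS

lemma zero_mem_itSum (n : ℕ) {S : Finset Γ} (h0 : 0 ∈ S) : 0 ∈ itSum n S := by
  induction n with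
  | zero => simp
  | succ n ih =>
    rw [itSum_succ, mem_add]
    exact ⟨0, ih, 0, h0, add_zero 0⟩

lemma itSum_subset_succ (n : ℕ) {S : Finset Γ} (h0 : 0 ∈ S) : itSum n S ⊆ itSum (n + 1) S := by
  intro x hx
  rw [itSum_succ, mem_add]
  exact ⟨x, hx, 0, h0, add_zero x⟩

lemma itSum_subset_of_le {m n : ℕ} (hmn : m ≤ n) {S : Finset Γ} (h0 : 0 ∈ S) :
    itSum m S ⊆ itSum n S := by
  induction n, hmn using Nat.le_induction with
  | base => exact subset_rfl
  | succ n _ ih => exact ih.trans (itSum_subset_succ n h0)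

lemma subset_itSum {n : ℕ} (hn : 1 ≤ n) {S : Finset Γ} (h0 : 0 ∈ S) : S ⊆ itSum n S := by
  have := itSum_subset_of_le hn h0
  rwa [itSum_one] at this

lemma itSum_mono (n : ℕ) {S T : Finset Γ} (h : S ⊆ T) : itSum n S ⊆ itSum n T := by
  induction n with
  | zero => exact subset_rfl
  | succ n ih => rw [itSum_succ, itSum_succ]; exact add_subset_add ih h

lemma neg_mem_itSum (n : ℕ) {S : Finset Γ} (hneg : ∀ x ∈ S, -x ∈ S) :
    ∀ x ∈ itSum n S, -x ∈ itSum n S := by
  induction n with
  | zero => intro x hx; rw [itSum_zero, mem_singleton] at hx ⊢; rw [hx, neg_zero]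
  | succ n ih =>
    intro x hx
    rw [itSum_succ, mem_add] at hx ⊢
    obtain ⟨y, hy, z, hz, rfl⟩ := hx
    exact ⟨-y, ih y hy, -z, hneg z hz, by abel⟩

lemma add_mem_itSum {m n : ℕ} {S : Finset Γ} {x y : Γ} (hx : x ∈ itSum m S)
    (hy : y ∈ itSum n S) : x + y ∈ itSum (m + n) S := by
  rw [itSum_add]; exact add_mem_add hx hy

lemma sub_mem_itSum {m n : ℕ} {S : Finset Γ} (hneg : ∀ x ∈ S, -x ∈ S) {x y : Γ}
    (hx : x ∈ itSum m S) (hy : y ∈ itSum n S) : x - y ∈ itSum (m + n) S := by
  rw [sub_eq_add_neg]; exact add_mem_itSum hx (neg_mem_itSum n hneg y hy)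

lemma nsmul_mem_itSum {n : ℕ} (k : ℕ) {S : Finset Γ} {x : Γ} (hx : x ∈ itSum n S) :
    k • x ∈ itSum (k * n) S := by
  induction k with
  | zero => simp
  | succ k ih => rw [succ_nsmul, Nat.succ_mul]; exact add_mem_itSum ih hx

/-- A sum indexed by a finite set of elements of `itSum (f i) S`. -/
lemma sum_mem_itSum {ι : Type*} (t : Finset ι) (f : ι → ℕ) (g : ι → Γ) {S : Finset Γ}
    (h : ∀ i ∈ t, g i ∈ itSum (f i) S) : ∑ i ∈ t, g i ∈ itSum (∑ i ∈ t, f i) S := by
  classical
  induction t using Finset.induction_on with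
  | empty => simp
  | insert a t ha ih =>
    rw [sum_insert ha, sum_insert ha]
    exact add_mem_itSum (h a (mem_insert_self a t))
      (ih fun i hi => h i (mem_insert_of_mem hi))

lemma itSum_image {Γ' : Type*} [AddCommGroup Γ'] [DecidableEq Γ'] (f : Γ →+ Γ') (n : ℕ)
    (S : Finset Γ) : itSum n (S.image f) = (itSum n S).image f := by
  induction n with
  | zero => simp
  | succ n ih => rw [itSum_succ, itSum_succ, ih, image_add]

lemma card_itSum_le {m n : ℕ} (hmn : m ≤ n) {S : Finset Γ} (h0 : 0 ∈ S) :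
    (itSum m S).card ≤ (itSum n S).card := card_le_card (itSum_subset_of_le hmn h0)

lemma card_itSum_le_of_nonempty {m n : ℕ} (hmn : m ≤ n) {S : Finset Γ} (hS : S.Nonempty) :
    (itSum m S).card ≤ (itSum n S).card := by
  obtain ⟨k, rfl⟩ := Nat.exists_eq_add_of_le hmn
  rw [itSum_add]
  exact card_le_card_add_right (itSum_nonempty k hS)

lemma itSum_subset_closure (n : ℕ) (S : Finset Γ) :
    ∀ x ∈ itSum n S, x ∈ AddSubgroup.closure (S : Set Γ) := by
  induction n with
  | zero => intro x hx; rw [itSum_zero, mem_singleton] at hx; rw [hx]; exact zero_mem _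
  | succ n ih =>
    intro x hx
    rw [itSum_succ, mem_add] at hx
    obtain ⟨y, hy, z, hz, rfl⟩ := hx
    exact add_mem (ih y hy) (AddSubgroup.subset_closure (by exact_mod_cast hz))

/-- Pigeonhole for ratios of a nonnegative sequence. -/
theorem exists_small_ratio (c : ℕ → ℝ) (κ : ℝ) (n0 : ℕ) (hn0 : 1 ≤ n0)
    (h : c (2 * n0) ≤ Real.exp κ * c n0) :
    ∃ n, n0 ≤ n ∧ n < 2 * n0 ∧ c (n + 1) ≤ Real.exp (κ / n0) * c n := by
  by_contra hcon
  push Not at hcon
  have key : ∀ j : ℕ, 1 ≤ j → j ≤ n0 →
      Real.exp (κ / n0) ^ j * c n0 < c (n0 + j) := by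
    intro j hj
    induction j, hj using Nat.le_induction with
    | base =>
      intro _
      have := hcon n0 le_rfl (by omega)
      rwa [pow_one]
    | succ j hj ih =>
      intro hj2
      have h1 := ih (by omega)
      have h2 := hcon (n0 + j) (by omega) (by omega)
      have h3 : 0 < Real.exp (κ / n0) := Real.exp_pos _
      calc Real.exp (κ / n0) ^ (j + 1) * c n0
          = Real.exp (κ / n0) * (Real.exp (κ / n0) ^ j * c n0) := by ring
        _ < Real.exp (κ / n0) * c (n0 + j) := mul_lt_mul_of_pos_left h1 h3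
        _ < c (n0 + j + 1) := h2
        _ = c (n0 + (j + 1)) := by rw [Nat.add_assoc]
  have h1 := key n0 hn0 le_rfl
  have h2 : Real.exp (κ / n0) ^ n0 = Real.exp κ := by
    rw [← Real.exp_nat_mul]
    congr 1
    have : (n0 : ℝ) ≠ 0 := by
      have : (0 : ℝ) < n0 := by exact_mod_cast hn0
      exact this.ne'
    field_simp
  rw [h2, ← two_mul] at h1
  exact absurd h1 (not_lt.mpr h)

theorem exists_factor (S : Finset Γ) (κ : ℝ) (n0 : ℕ) (hn0 : 1 ≤ n0)
    (h : ((itSum (2 * n0) S).card : ℝ) ≤ Real.exp κ * (itSum n0 S).card) :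
    ∃ n, n0 ≤ n ∧ n < 2 * n0 ∧
      ((itSum (n + 1) S).card : ℝ) ≤ Real.exp (κ / n0) * (itSum n S).card :=
  exists_small_ratio (fun n => ((itSum n S).card : ℝ)) κ n0 hn0 h

end Pool.Agent.Lib.MP_dd2a7c_co
end
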