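import Mathlib
import Pool.Agent.Lib.MP_dd2a7c_co.Prog
import Pool.Agent.Lib.MP_dd2a7c_co.IterSum

/-!
Local groups (abstract Bohr sets): a finite symmetric subset `B` of an abelian group with a local
homomorphism `ℓ` onto the unit ball of a lattice `Λ ⊆ ℝ^ι` (sup norm). Small balls of a local group
are centered convex coset progressions, and their dimension is bounded by the growth.
-/

namespace Pool.Agent.Lib.MP_dd2a7c_co

open Module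

/-- A local group. -/
structure LocalGroup (Γ ι : Type*) [AddCommGroup Γ] [Fintype ι] where
  /-- the underlying set -/
  B : Set Γ
  fin : B.Finite
  /-- the local homomorphism -/
  ℓ : Γ → ι → ℝ
  /-- the lattice -/
  Λ : AddSubgroup (ι → ℝ)
  disc : ∀ R : ℝ, {v : ι → ℝ | v ∈ Λ ∧ ‖v‖ ≤ R}.Finite
  zero_mem : 0 ∈ B
  neg_mem : ∀ x ∈ B, -x ∈ B ∧ ℓ (-x) = -ℓ x
  mem_Λ : ∀ x ∈ B, ℓ x ∈ Λ ∧ ‖ℓ x‖ ≤ 1
  surj : ∀ v ∈ Λ, ‖v‖ ≤ 1 → ∃ x ∈ B, ℓ x = v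
  add : ∀ x ∈ B, ∀ y ∈ B, ‖ℓ x + ℓ y‖ ≤ 1 → x + y ∈ B ∧ ℓ (x + y) = ℓ x + ℓ y

namespace LocalGroup

variable {Γ ι : Type*} [AddCommGroup Γ] [Fintype ι] (L : LocalGroup Γ ι)

/-- The ball of radius `ρ` of a local group. -/
def ball (ρ : ℝ) : Set Γ := {x | x ∈ L.B ∧ ‖L.ℓ x‖ ≤ ρ}

/-- The span of the image of the ball of radius `ρ`. -/
def V (ρ : ℝ) : Submodule ℝ (ι → ℝ) := Submodule.span ℝ (L.ℓ '' L.ball ρ)

theorem ball_finite (ρ : ℝ) : (L.ball ρ).Finite := L.fin.subset fun _ hx => hx.1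

theorem ℓ_zero : L.ℓ 0 = 0 := by
  have h := (L.neg_mem 0 L.zero_mem).2
  rw [neg_zero] at h
  exact self_eq_neg.mp h

theorem sub_mem {x y : Γ} (hx : x ∈ L.B) (hy : y ∈ L.B) (h : ‖L.ℓ x - L.ℓ y‖ ≤ 1) :
    x - y ∈ L.B ∧ L.ℓ (x - y) = L.ℓ x - L.ℓ y := by
  have h1 := L.neg_mem y hy
  have h2 := L.add x hx (-y) h1.1 (by rw [h1.2, ← sub_eq_add_neg]; exact h)
  rw [h1.2, ← sub_eq_add_neg, ← sub_eq_add_neg] at h2
  exact h2

/-- The kernel of the local homomorphism. -/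
def ker : AddSubgroup Γ where
  carrier := {x | x ∈ L.B ∧ L.ℓ x = 0}
  zero_mem' := ⟨L.zero_mem, L.ℓ_zero⟩
  add_mem' := by
    rintro x y ⟨hx, hx0⟩ ⟨hy, hy0⟩
    have h := L.add x hx y hy (by rw [hx0, hy0, add_zero, norm_zero]; exact zero_le_one)
    exact ⟨h.1, by rw [h.2, hx0, hy0, add_zero]⟩
  neg_mem' := by
    rintro x ⟨hx, hx0⟩
    have h := L.neg_mem x hx
    exact ⟨h.1, by rw [h.2, hx0, neg_zero]⟩

theorem mem_ker {x : Γ} : x ∈ L.ker ↔ x ∈ L.B ∧ L.ℓ x = 0 := Iff.rfl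

theorem ker_finite : (L.ker : Set Γ).Finite := L.fin.subset fun _ hx => hx.1

theorem nsmul_mem {x : Γ} (hx : x ∈ L.B) (c : ℕ) (h : (c : ℝ) * ‖L.ℓ x‖ ≤ 1) :
    c • x ∈ L.B ∧ L.ℓ (c • x) = (c : ℝ) • L.ℓ x := by
  induction c with
  | zero => simp [L.zero_mem, L.ℓ_zero]
  | succ c ih =>
    have h0 : 0 ≤ ‖L.ℓ x‖ := norm_nonneg _
    have h1 := ih (by push_cast at h; nlinarith)
    have h2 := L.add _ h1.1 x hx (by
      rw [h1.2]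
      refine le_trans (norm_add_le _ _) ?_
      rw [norm_smul, Real.norm_natCast]
      push_cast at h; linarith)
    rw [← succ_nsmul] at h2
    refine ⟨h2.1, ?_⟩
    rw [h2.2, h1.2]
    push_cast
    rw [add_smul, one_smul]

theorem zsmul_mem {x : Γ} (hx : x ∈ L.B) (c : ℤ) (h : |(c : ℝ)| * ‖L.ℓ x‖ ≤ 1) :
    c • x ∈ L.B ∧ L.ℓ (c • x) = (c : ℝ) • L.ℓ x := by
  obtain ⟨m, rfl | rfl⟩ := c.eq_nat_or_neg
  · rw [natCast_zsmul]
    have := L.nsmul_mem hx m (by simpa using h)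
    simpa using this
  · rw [neg_smul, natCast_zsmul]
    have h1 := L.nsmul_mem hx m (by simpa using h)
    have h2 := L.neg_mem _ h1.1
    refine ⟨h2.1, ?_⟩
    rw [h2.2, h1.2]
    push_cast
    rw [neg_smul]

theorem sum_zsmul_mem {κ : Type*} (s : Finset κ) (x : κ → Γ) (c : κ → ℤ) (hx : ∀ i ∈ s, x i ∈ L.B)
    (h : ∑ i ∈ s, |(c i : ℝ)| * ‖L.ℓ (x i)‖ ≤ 1) :
    ∑ i ∈ s, c i • x i ∈ L.B ∧ L.ℓ (∑ i ∈ s, c i • x i) = ∑ i ∈ s, (c i : ℝ) • L.ℓ (x i) := by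
  classical
  induction s using Finset.induction_on with
  | empty => simp [L.zero_mem, L.ℓ_zero]
  | insert i s hi ih =>
    rw [Finset.sum_insert hi] at h
    have h0 : ∀ j, 0 ≤ |(c j : ℝ)| * ‖L.ℓ (x j)‖ := fun j => by positivity
    have h0s : 0 ≤ ∑ i ∈ s, |(c i : ℝ)| * ‖L.ℓ (x i)‖ := Finset.sum_nonneg fun j _ => h0 j
    have h1 := ih (fun j hj => hx j (Finset.mem_insert_of_mem hj)) (by linarith [h0 i])
    have h2 := L.zsmul_mem (hx i (Finset.mem_insert_self i s)) (c i) (by linarith)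
    have h3 := L.add _ h2.1 _ h1.1 (by
      rw [h1.2, h2.2]
      refine le_trans (norm_add_le _ _) (le_trans ?_ h)
      rw [norm_smul, Real.norm_eq_abs]
      gcongr
      refine le_trans (norm_sum_le _ _) (Finset.sum_le_sum fun j _ => ?_)
      rw [norm_smul, Real.norm_eq_abs])
    rw [Finset.sum_insert hi, Finset.sum_insert hi]
    exact ⟨h3.1, by rw [h3.2, h1.2, h2.2]⟩

theorem neg_mem_ball {ρ : ℝ} {x : Γ} (hx : x ∈ L.ball ρ) : -x ∈ L.ball ρ := by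
  have h := L.neg_mem x hx.1
  exact ⟨h.1, by rw [h.2, norm_neg]; exact hx.2⟩

/-- The class modulo the kernel of an element of `B` above a vector. -/
noncomputable def β (f : ι → ℝ) : Γ ⧸ L.ker :=
  open scoped Classical in
  if h : ∃ y ∈ L.B, L.ℓ y = f then QuotientAddGroup.mk h.choose else 0

theorem mk_eq_of_ℓ_eq {x y : Γ} (hx : x ∈ L.B) (hy : y ∈ L.B) (h : L.ℓ x = L.ℓ y) :
    (QuotientAddGroup.mk x : Γ ⧸ L.ker) = QuotientAddGroup.mk y := by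
  rw [QuotientAddGroup.eq]
  have h1 := L.sub_mem hy hx (by rw [h, sub_self, norm_zero]; exact zero_le_one)
  rw [neg_add_eq_sub]
  exact ⟨h1.1, by rw [h1.2, h, sub_self]⟩

theorem β_ℓ {y : Γ} (hy : y ∈ L.B) : L.β (L.ℓ y) = QuotientAddGroup.mk y := by
  have h : ∃ z ∈ L.B, L.ℓ z = L.ℓ y := ⟨y, hy, rfl⟩
  unfold β
  rw [dif_pos h]
  exact L.mk_eq_of_ℓ_eq h.choose_spec.1 hy h.choose_spec.2

section hom

variable {d : ℕ} {ρ : ℝ} (v : Fin d → ι → ℝ) (x : Fin d → Γ) (bV : Basis (Fin d) ℝ (L.V ρ))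

/-- The extension of the inverse of the local homomorphism. -/
noncomputable def ψ (w : L.V ρ) : Γ ⧸ L.ker :=
  ∑ i, ⌊bV.repr w i⌋ • (QuotientAddGroup.mk (x i) : Γ ⧸ L.ker) +
    L.β (∑ i, Int.fract (bV.repr w i) • v i)

variable {v x bV}

theorem fract_sum_eq (hbV : ∀ i, (bV i : ι → ℝ) = v i) (w : L.V ρ) :
    ∑ i, Int.fract (bV.repr w i) • v i = (w : ι → ℝ) - ∑ i, (⌊bV.repr w i⌋ : ℝ) • v i := by
  have h1 : (w : ι → ℝ) = ∑ i, bV.repr w i • v i := by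
    conv_lhs => rw [← bV.sum_repr w]
    rw [Submodule.coe_sum]
    refine Finset.sum_congr rfl fun i _ => ?_
    rw [Submodule.coe_smul, hbV]
  rw [h1, ← Finset.sum_sub_distrib]
  refine Finset.sum_congr rfl fun i _ => ?_
  rw [← sub_smul]
  rfl

theorem norm_sum_le_of {t : Fin d → ℝ} (ht : ∀ i, |t i| ≤ 1) (hv : ∀ i, ‖v i‖ ≤ ρ) :
    ‖∑ i, t i • v i‖ ≤ d * ρ := by
  refine le_trans (norm_sum_le _ _) ?_
  have h1 : ∀ i ∈ Finset.univ, ‖t i • v i‖ ≤ ρ := by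
    intro i _
    rw [norm_smul, Real.norm_eq_abs]
    have h2 := norm_nonneg (v i)
    calc |t i| * ‖v i‖ ≤ 1 * ‖v i‖ := by gcongr; exact ht i
      _ ≤ ρ := by rw [one_mul]; exact hv i
  refine le_trans (Finset.sum_le_card_nsmul _ _ _ h1) ?_
  rw [Finset.card_univ, Fintype.card_fin, nsmul_eq_mul]

theorem sum_abs_le_of {c : Fin d → ℤ} (hc : ∀ i, |(c i : ℝ)| ≤ 1) (hv : ∀ i, ‖v i‖ ≤ ρ)
    (hx : ∀ i, L.ℓ (x i) = v i) :
    ∑ i, |(c i : ℝ)| * ‖L.ℓ (x i)‖ ≤ d * ρ := by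
  have h1 : ∀ i ∈ Finset.univ, |(c i : ℝ)| * ‖L.ℓ (x i)‖ ≤ ρ := by
    intro i _
    rw [hx i]
    have h2 := norm_nonneg (v i)
    calc |(c i : ℝ)| * ‖v i‖ ≤ 1 * ‖v i‖ := by gcongr; exact hc i
      _ ≤ ρ := by rw [one_mul]; exact hv i
  refine le_trans (Finset.sum_le_card_nsmul _ _ _ h1) ?_
  rw [Finset.card_univ, Fintype.card_fin, nsmul_eq_mul]

theorem exists_over_fract (hbV : ∀ i, (bV i : ι → ℝ) = v i) (hv : ∀ i, ‖v i‖ ≤ ρ)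
    (hx : ∀ i, x i ∈ L.B) (hxv : ∀ i, L.ℓ (x i) = v i) (hρ : 2 * (d * ρ) ≤ 1) (hρ0 : 0 ≤ ρ)
    (w : L.V ρ) (hw : (w : ι → ℝ) ∈ L.Λ) :
    ∃ y ∈ L.B, L.ℓ y = ∑ i, Int.fract (bV.repr w i) • v i := by
  apply L.surj
  · rw [L.fract_sum_eq hbV]
    refine L.Λ.sub_mem hw (L.Λ.sum_mem fun i _ => ?_)
    have h1 : v i ∈ L.Λ := by rw [← hxv i]; exact (L.mem_Λ _ (hx i)).1
    rw [Int.cast_smul_eq_zsmul]
    exact L.Λ.zsmul_mem h1 _
  · refine le_trans (norm_sum_le_of (fun i => ?_) hv) ?_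
    · rw [abs_of_nonneg (Int.fract_nonneg _)]
      exact (Int.fract_lt_one _).le
    · have : 0 ≤ (d : ℝ) * ρ := by positivity
      linarith

theorem ψ_add (hbV : ∀ i, (bV i : ι → ℝ) = v i) (hv : ∀ i, ‖v i‖ ≤ ρ)
    (hx : ∀ i, x i ∈ L.B) (hxv : ∀ i, L.ℓ (x i) = v i) (hρ : 2 * (d * ρ) ≤ 1) (hρ0 : 0 ≤ ρ)
    (w w' : L.V ρ) (hw : (w : ι → ℝ) ∈ L.Λ) (hw' : (w' : ι → ℝ) ∈ L.Λ) :
    L.ψ v x bV (w + w') = L.ψ v x bV w + L.ψ v x bV w' := by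
  have hdρ : 0 ≤ (d : ℝ) * ρ := by positivity
  obtain ⟨y, hy, hyw⟩ := L.exists_over_fract hbV hv hx hxv hρ hρ0 w hw
  obtain ⟨y', hy', hyw'⟩ := L.exists_over_fract hbV hv hx hxv hρ hρ0 w' hw'
  obtain ⟨y'', hy'', hyw''⟩ := L.exists_over_fract hbV hv hx hxv hρ hρ0 (w + w')
    (by rw [Submodule.coe_add]; exact L.Λ.add_mem hw hw')
  let ε : Fin d → ℤ := fun i =>
    ⌊bV.repr (w + w') i⌋ - ⌊bV.repr w i⌋ - ⌊bV.repr w' i⌋
  have hε : ∀ i, ε i = 0 ∨ ε i = 1 := by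
    intro i
    have h1 : bV.repr (w + w') i = bV.repr w i + bV.repr w' i := by simp
    have h2 := Int.le_floor_add (bV.repr w i) (bV.repr w' i)
    have h3 := Int.le_floor_add_floor (bV.repr w i) (bV.repr w' i)
    simp only [ε, h1]
    omega
  have hεabs : ∀ i, |(ε i : ℝ)| ≤ 1 := by
    intro i
    rcases hε i with h | h <;> simp [h]
  have hsum := L.sum_zsmul_mem Finset.univ x ε (fun i _ => hx i)
    (le_trans (L.sum_abs_le_of hεabs hv hxv) (by linarith))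
  have hfr : ∑ i, Int.fract (bV.repr w i) • v i + ∑ i, Int.fract (bV.repr w' i) • v i =
      ∑ i, Int.fract (bV.repr (w + w') i) • v i + ∑ i, (ε i : ℝ) • L.ℓ (x i) := by
    rw [L.fract_sum_eq hbV, L.fract_sum_eq hbV, L.fract_sum_eq hbV, Submodule.coe_add]
    simp only [hxv, ε]
    push_cast
    simp only [sub_smul, Finset.sum_sub_distrib]
    abel
  have h1 := L.add y hy y' hy' (by
    rw [hyw, hyw']
    refine le_trans (norm_add_le _ _) ?_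
    have e1 := norm_sum_le_of (v := v) (ρ := ρ) (t := fun i => Int.fract (bV.repr w i))
      (fun i => by rw [abs_of_nonneg (Int.fract_nonneg _)]; exact (Int.fract_lt_one _).le) hv
    have e2 := norm_sum_le_of (v := v) (ρ := ρ) (t := fun i => Int.fract (bV.repr w' i))
      (fun i => by rw [abs_of_nonneg (Int.fract_nonneg _)]; exact (Int.fract_lt_one _).le) hv
    linarith)
  have hnorm : ‖L.ℓ y'' + L.ℓ (∑ i, ε i • x i)‖ ≤ 1 := by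
    rw [hsum.2, hyw'', ← hfr, ← hyw, ← hyw', ← h1.2]
    exact (L.mem_Λ _ h1.1).2
  have h2 := L.add y'' hy'' _ hsum.1 hnorm
  have h3 : (QuotientAddGroup.mk (y + y') : Γ ⧸ L.ker) =
      QuotientAddGroup.mk (y'' + ∑ i, ε i • x i) :=
    L.mk_eq_of_ℓ_eq h1.1 h2.1 (by rw [h1.2, h2.2, hsum.2, hyw, hyw', hyw'', hfr])
  have h4 : L.β (∑ i, Int.fract (bV.repr w i) • v i) +
      L.β (∑ i, Int.fract (bV.repr w' i) • v i) =
      L.β (∑ i, Int.fract (bV.repr (w + w') i) • v i) +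
        ∑ i, ε i • (QuotientAddGroup.mk (x i) : Γ ⧸ L.ker) := by
    rw [← hyw, ← hyw', ← hyw'', L.β_ℓ hy, L.β_ℓ hy', L.β_ℓ hy'']
    rw [← QuotientAddGroup.mk_add, h3, QuotientAddGroup.mk_add]
    congr 1
    rw [QuotientAddGroup.mk_sum]
    rfl
  have h5 : ∑ i, ε i • (QuotientAddGroup.mk (x i) : Γ ⧸ L.ker) =
      ∑ i, ⌊bV.repr (w + w') i⌋ • (QuotientAddGroup.mk (x i) : Γ ⧸ L.ker) -
      ∑ i, ⌊bV.repr w i⌋ • (QuotientAddGroup.mk (x i) : Γ ⧸ L.ker) -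
      ∑ i, ⌊bV.repr w' i⌋ • (QuotientAddGroup.mk (x i) : Γ ⧸ L.ker) := by
    simp only [ε, sub_smul, Finset.sum_sub_distrib]
  unfold ψ
  rw [h5] at h4
  have h6 : L.β (∑ i, Int.fract (bV.repr (w + w') i) • v i) =
      L.β (∑ i, Int.fract (bV.repr w i) • v i) +
      L.β (∑ i, Int.fract (bV.repr w' i) • v i) -
      (∑ i, ⌊bV.repr (w + w') i⌋ • (QuotientAddGroup.mk (x i) : Γ ⧸ L.ker) -
      ∑ i, ⌊bV.repr w i⌋ • (QuotientAddGroup.mk (x i) : Γ ⧸ L.ker) -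
      ∑ i, ⌊bV.repr w' i⌋ • (QuotientAddGroup.mk (x i) : Γ ⧸ L.ker)) := by
    rw [h4]; abel
  rw [h6]
  abel

theorem ψ_ℓ (hbV : ∀ i, (bV i : ι → ℝ) = v i) (hv : ∀ i, ‖v i‖ ≤ ρ)
    (hx : ∀ i, x i ∈ L.B) (hxv : ∀ i, L.ℓ (x i) = v i) (hρ : 2 * (d * ρ) ≤ 1) (hρ0 : 0 ≤ ρ)
    (y : Γ) (hy : y ∈ L.B) (w : L.V ρ) (hw : (w : ι → ℝ) = L.ℓ y)
    (ht : ∀ i, |bV.repr w i| ≤ 1) :
    L.ψ v x bV w = QuotientAddGroup.mk y := by
  have hdρ : 0 ≤ (d : ℝ) * ρ := by positivity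
  obtain ⟨z, hz, hzw⟩ := L.exists_over_fract hbV hv hx hxv hρ hρ0 w
    (by rw [hw]; exact (L.mem_Λ y hy).1)
  have hfl : ∀ i, |((⌊bV.repr w i⌋ : ℤ) : ℝ)| ≤ 1 := by
    intro i
    have h1 := abs_le.mp (ht i)
    have h2 : (-1 : ℤ) ≤ ⌊bV.repr w i⌋ := Int.le_floor.mpr (by push_cast; exact h1.1)
    have h3 : ⌊bV.repr w i⌋ ≤ (1 : ℤ) := by
      have h4 := (Int.floor_le (bV.repr w i)).trans h1.2
      exact_mod_cast h4
    rw [abs_le]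
    constructor
    · exact_mod_cast h2
    · exact_mod_cast h3
  have hsum := L.sum_zsmul_mem Finset.univ x (fun i => ⌊bV.repr w i⌋) (fun i _ => hx i)
    (le_trans (L.sum_abs_le_of hfl hv hxv) (by linarith))
  have hfr : L.ℓ (∑ i, ⌊bV.repr w i⌋ • x i) + L.ℓ z = L.ℓ y := by
    rw [hsum.2, hzw, L.fract_sum_eq hbV, hw]
    simp only [hxv]
    abel
  have h1 := L.add _ hsum.1 z hz (by rw [hfr]; exact (L.mem_Λ y hy).2)
  unfold ψ
  rw [← hzw, L.β_ℓ hz]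
  have h2 : ∑ i, ⌊bV.repr w i⌋ • (QuotientAddGroup.mk (x i) : Γ ⧸ L.ker) =
      QuotientAddGroup.mk (∑ i, ⌊bV.repr w i⌋ • x i) := by
    rw [QuotientAddGroup.mk_sum]
    rfl
  rw [h2, ← QuotientAddGroup.mk_add]
  exact L.mk_eq_of_ℓ_eq h1.1 hy (by rw [h1.2, hfr])

end hom

end LocalGroup

end Pool.Agent.Lib.MP_dd2a7c_co
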