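import Mathlib
import Pool.Agent.Lib.MP_dd2a7c_co.IterSum

/-!
The large spectrum of an iterated sumset: from polynomial growth to Bohr-type sets.
-/

set_option autoImplicit false

open Finset
open scoped Pointwise ComplexConjugate

namespace Pool.Agent.Lib.MP_dd2a7c_co

section Fourier

variable {G : Type*} [AddCommGroup G] [Fintype G]

/-- Fourier transform of a real function. -/
noncomputable def ft (f : G → ℝ) (γ : AddChar G ℂ) : ℂ := ∑ y, (f y : ℂ) * γ y

theorem ft_inversion (f : G → ℝ) (x : G) :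
    ∑ γ : AddChar G ℂ, ft f γ * γ (-x) = (Fintype.card G : ℂ) * f x := by
  classical
  unfold ft
  simp_rw [Finset.sum_mul]
  rw [Finset.sum_comm]
  have h : ∀ y : G, ∑ γ : AddChar G ℂ, (f y : ℂ) * γ y * γ (-x) =
      if y = x then (Fintype.card G : ℂ) * f x else 0 := by
    intro y
    have h1 : ∀ γ : AddChar G ℂ, (f y : ℂ) * γ y * γ (-x) = (f y : ℂ) * γ (y - x) := by
      intro γ
      rw [sub_eq_add_neg, AddChar.map_add_eq_mul, mul_assoc]
    simp_rw [h1]
    rw [← Finset.mul_sum, AddChar.sum_apply_eq_ite]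
    by_cases hyx : y = x
    · rw [if_pos hyx, if_pos (sub_eq_zero.mpr hyx), hyx, mul_comm]
    · rw [if_neg hyx, if_neg (fun h => hyx (sub_eq_zero.mp h)), mul_zero]
  simp_rw [h]
  rw [Finset.sum_ite_eq' Finset.univ x]
  simp

theorem ft_parseval (f : G → ℝ) :
    ∑ γ : AddChar G ℂ, ‖ft f γ‖ ^ 2 = (Fintype.card G : ℝ) * ∑ y, f y ^ 2 := by
  have h : ((∑ γ : AddChar G ℂ, ‖ft f γ‖ ^ 2 : ℝ) : ℂ) =
      (((Fintype.card G : ℝ) * ∑ y, f y ^ 2 : ℝ) : ℂ) := by
    push_cast
    have h1 : ∀ γ : AddChar G ℂ, ((‖ft f γ‖ : ℂ)) ^ 2 = ∑ y, (f y : ℂ) * (ft f γ * γ (-y)) := by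
      intro γ
      rw [← Complex.mul_conj']
      have h2 : conj (ft f γ) = ∑ y, (f y : ℂ) * γ (-y) := by
        unfold ft
        rw [map_sum]
        apply Finset.sum_congr rfl
        intro y _
        rw [map_mul, Complex.conj_ofReal, AddChar.map_neg_eq_conj]
      rw [h2, Finset.mul_sum]
      apply Finset.sum_congr rfl
      intro y _
      ring
    simp_rw [h1]
    rw [Finset.sum_comm]
    simp_rw [← Finset.mul_sum, ft_inversion]
    rw [Finset.mul_sum]
    apply Finset.sum_congr rfl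
    intro y _
    ring
  exact_mod_cast h

variable [DecidableEq G]

/-- number of representations of `y` as a `k`-fold sum from `P` -/
noncomputable def rep (P : Finset G) : ℕ → G → ℝ
  | 0, y => if y = 0 then 1 else 0
  | (k + 1), y => ∑ p ∈ P, rep P k (y - p)

omit [Fintype G] in
lemma rep_nonneg (P : Finset G) (k : ℕ) (y : G) : 0 ≤ rep P k y := by
  induction k generalizing y with
  | zero => unfold rep; split_ifs <;> norm_num
  | succ k ih => unfold rep; exact Finset.sum_nonneg fun p _ => ih _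

omit [Fintype G] in
lemma rep_eq_zero (P : Finset G) (k : ℕ) (y : G) (hy : y ∉ itSum k P) : rep P k y = 0 := by
  induction k generalizing y with
  | zero =>
    unfold rep
    rw [if_neg]
    intro h
    apply hy
    simp [h]
  | succ k ih =>
    unfold rep
    apply Finset.sum_eq_zero
    intro p hp
    apply ih
    intro hmem
    apply hy
    rw [itSum_succ, mem_add]
    exact ⟨y - p, hmem, p, hp, by abel⟩

lemma sum_rep (P : Finset G) (k : ℕ) : ∑ y, rep P k y = (P.card : ℝ) ^ k := by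
  induction k with
  | zero => unfold rep; simp
  | succ k ih =>
    unfold rep
    rw [Finset.sum_comm]
    have : ∀ p ∈ P, ∑ y, rep P k (y - p) = (P.card : ℝ) ^ k := by
      intro p _
      rw [← ih]
      exact Fintype.sum_equiv (Equiv.subRight p) _ _ (fun y => rfl)
    rw [Finset.sum_congr rfl this, Finset.sum_const, nsmul_eq_mul, pow_succ]
    ring

/-- exponential sum over `P` -/
noncomputable def expSum (P : Finset G) (γ : AddChar G ℂ) : ℂ := ∑ p ∈ P, γ p

lemma ft_rep (P : Finset G) (k : ℕ) (γ : AddChar G ℂ) : ft (rep P k) γ = expSum P γ ^ k := by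
  induction k with
  | zero =>
    unfold ft rep
    have h2 : ∀ y : G, (((if y = 0 then (1 : ℝ) else 0 : ℝ)) : ℂ) * γ y =
        if y = 0 then (1 : ℂ) else 0 := by
      intro y
      split_ifs with h
      · rw [h]; simp
      · simp
    simp only [h2]
    simp
  | succ k ih =>
    rw [pow_succ, ← ih]
    unfold ft expSum
    have h1 : ∀ y : G, ((rep P (k + 1) y : ℝ) : ℂ) * γ y =
        ∑ p ∈ P, ((rep P k (y - p) : ℝ) : ℂ) * γ (y - p) * γ p := by
      intro y
      have : rep P (k + 1) y = ∑ p ∈ P, rep P k (y - p) := rfl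
      rw [this]
      push_cast
      rw [Finset.sum_mul]
      apply Finset.sum_congr rfl
      intro p _
      rw [mul_assoc, ← AddChar.map_add_eq_mul, sub_add_cancel]
    simp_rw [h1]
    rw [Finset.sum_comm, Finset.mul_sum]
    apply Finset.sum_congr rfl
    intro p _
    rw [← Finset.sum_mul]
    congr 1
    exact Fintype.sum_equiv (Equiv.subRight p) _ _ (fun y => rfl)

/-- Lower bound for high moments of the exponential sum. -/
lemma moment_lower (P : Finset G) (m : ℕ) :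
    (Fintype.card G : ℝ) * (P.card : ℝ) ^ (2 * m) ≤
      (itSum m P).card * ∑ γ : AddChar G ℂ, ‖expSum P γ‖ ^ (2 * m) := by
  have h1 : ∑ γ : AddChar G ℂ, ‖expSum P γ‖ ^ (2 * m) =
      (Fintype.card G : ℝ) * ∑ y, rep P m y ^ 2 := by
    rw [← ft_parseval]
    apply Finset.sum_congr rfl
    intro γ _
    rw [ft_rep, norm_pow, ← pow_mul, mul_comm]
  have h2 : (P.card : ℝ) ^ m = ∑ y ∈ itSum m P, rep P m y := by
    rw [← sum_rep]
    symm
    apply Finset.sum_subset (Finset.subset_univ _)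
    intro y _ hy
    exact rep_eq_zero P m y hy
  have h3 : ∑ y ∈ itSum m P, rep P m y ^ 2 ≤ ∑ y, rep P m y ^ 2 :=
    Finset.sum_le_sum_of_subset_of_nonneg (Finset.subset_univ _) (fun _ _ _ => sq_nonneg _)
  have h4 : ((P.card : ℝ) ^ m) ^ 2 ≤ (itSum m P).card * ∑ y ∈ itSum m P, rep P m y ^ 2 := by
    rw [h2]
    exact sq_sum_le_card_mul_sum_sq
  rw [h1]
  have h5 : ((P.card : ℝ) ^ m) ^ 2 ≤ (itSum m P).card * ∑ y, rep P m y ^ 2 :=
    h4.trans (by gcongr)
  calc (Fintype.card G : ℝ) * (P.card : ℝ) ^ (2 * m)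
      = (Fintype.card G : ℝ) * ((P.card : ℝ) ^ m) ^ 2 := by rw [← pow_mul, mul_comm 2 m]
    _ ≤ (Fintype.card G : ℝ) * ((itSum m P).card * ∑ y, rep P m y ^ 2) := by gcongr
    _ = _ := by ring

lemma moment_two (P : Finset G) :
    ∑ γ : AddChar G ℂ, ‖expSum P γ‖ ^ 2 = (Fintype.card G : ℝ) * P.card := by
  have h := ft_parseval (fun y => if y ∈ P then (1 : ℝ) else 0)
  have h1 : ∀ γ : AddChar G ℂ, ft (fun y => if y ∈ P then (1 : ℝ) else 0) γ = expSum P γ := by
    intro γ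
    unfold ft expSum
    have h2 : ∀ y : G, (((if y ∈ P then (1 : ℝ) else 0 : ℝ)) : ℂ) * γ y =
        if y ∈ P then γ y else 0 := by
      intro y
      split_ifs <;> simp
    simp only [h2]
    simp
  simp_rw [h1] at h
  rw [h]
  simp

omit [Fintype G] [DecidableEq G] in
lemma conj_expSum [Finite G] (P : Finset G) (hneg : ∀ x ∈ P, -x ∈ P) (γ : AddChar G ℂ) :
    conj (expSum P γ) = expSum P γ := by
  unfold expSum
  rw [map_sum]
  refine Finset.sum_nbij' (fun x => -x) (fun x => -x) hneg hneg (fun x _ => neg_neg x)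
    (fun x _ => neg_neg x) ?_
  intro x _
  rw [AddChar.map_neg_eq_conj]

lemma expSum_pow_two_mul (P : Finset G) (hneg : ∀ x ∈ P, -x ∈ P) (γ : AddChar G ℂ) (m : ℕ) :
    expSum P γ ^ (2 * m) = ((‖expSum P γ‖ ^ (2 * m) : ℝ) : ℂ) := by
  have h := Complex.mul_conj' (expSum P γ)
  rw [conj_expSum P hneg] at h
  rw [pow_mul, pow_two, h]
  push_cast
  rw [← pow_mul]

/-- If `x` is not a `2m`-fold sum then the weighted average of `Re γ x` vanishes. -/
lemma sum_re_eq_zero (P : Finset G) (hneg : ∀ x ∈ P, -x ∈ P) (m : ℕ) (x : G)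
    (hx : x ∉ itSum (2 * m) P) :
    ∑ γ : AddChar G ℂ, ‖expSum P γ‖ ^ (2 * m) * (γ x).re = 0 := by
  have h := ft_inversion (rep P (2 * m)) x
  rw [rep_eq_zero P (2 * m) x hx] at h
  simp_rw [ft_rep, expSum_pow_two_mul P hneg] at h
  have h2 := congrArg Complex.re h
  rw [Complex.re_sum] at h2
  have h3 : ∀ γ : AddChar G ℂ, ((((‖expSum P γ‖ ^ (2 * m) : ℝ) : ℂ)) * γ (-x)).re =
      ‖expSum P γ‖ ^ (2 * m) * (γ x).re := by
    intro γ
    rw [Complex.re_ofReal_mul, AddChar.map_neg_eq_conj, Complex.conj_re]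
  simp_rw [h3] at h2
  rw [h2]
  simp

omit [Fintype G] [DecidableEq G] in
lemma re_ge_half [Finite G] (γ : AddChar G ℂ) (x : G) (h : ‖1 - γ x‖ ≤ 1) :
    (1 : ℝ) / 2 ≤ (γ x).re := by
  have h1 : ‖1 - γ x‖ ^ 2 ≤ 1 := by
    calc ‖1 - γ x‖ ^ 2 ≤ 1 ^ 2 := by gcongr
      _ = 1 := one_pow 2
  have h2 : ‖γ x‖ = 1 := AddChar.norm_apply γ x
  have h3 : ‖γ x‖ ^ 2 = 1 := by rw [h2, one_pow]
  rw [Complex.sq_norm, Complex.normSq_apply] at h1 h3
  simp only [Complex.sub_re, Complex.one_re, Complex.sub_im, Complex.one_im] at h1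
  nlinarith

/-- shifting an almost invariant set -/
lemma norm_expSum_mul_le (P Q : Finset G) (hPQ : P ⊆ Q) (s : G) (hs : ∀ p ∈ P, p + s ∈ Q)
    (δ : ℝ) (hQ : (Q.card : ℝ) ≤ (1 + δ) * P.card) (γ : AddChar G ℂ) :
    ‖expSum P γ‖ * ‖1 - γ s‖ ≤ 2 * δ * P.card := by
  classical
  set P' : Finset G := P.image (fun p => p + s) with hP'
  have hP'Q : P' ⊆ Q := by
    intro x hx
    rw [hP', mem_image] at hx
    obtain ⟨p, hp, rfl⟩ := hx
    exact hs p hp
  have hcard : P'.card = P.card :=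
    Finset.card_image_of_injective _ (add_left_injective s)
  have h1 : expSum P γ * γ s = expSum P' γ := by
    unfold expSum
    rw [hP', Finset.sum_image (fun a _ b _ h => add_left_injective s h), Finset.sum_mul]
    apply Finset.sum_congr rfl
    intro p _
    rw [AddChar.map_add_eq_mul]
  have h2 : ∀ T : Finset G, T ⊆ Q → T.card = P.card → ‖expSum Q γ - expSum T γ‖ ≤ δ * P.card := by
    intro T hTQ hT
    have h3 : expSum Q γ - expSum T γ = ∑ x ∈ Q \ T, γ x := by
      unfold expSum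
      rw [← Finset.sum_sdiff hTQ, add_sub_cancel_right]
    rw [h3]
    refine (norm_sum_le _ _).trans ?_
    have h4 : ∀ x ∈ Q \ T, ‖γ x‖ = 1 := fun x _ => AddChar.norm_apply γ x
    rw [Finset.sum_congr rfl h4, Finset.sum_const, nsmul_eq_mul, mul_one,
      Finset.cast_card_sdiff hTQ, hT]
    linarith
  have h5 : expSum P γ * (1 - γ s) = (expSum Q γ - expSum P' γ) - (expSum Q γ - expSum P γ) := by
    rw [← h1]; ring
  rw [← norm_mul, h5]
  refine (norm_sub_le _ _).trans ?_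
  have := h2 P' hP'Q hcard
  have := h2 P hPQ rfl
  linarith

end Fourier

lemma four_le_exp_sq : (4 : ℝ) ≤ Real.exp 1 * Real.exp 1 := by
  have := Real.exp_one_gt_d9
  nlinarith

theorem exists_spec {G : Type*} [AddCommGroup G] [Fintype G] [DecidableEq G] (S : Finset G)
    (h0 : 0 ∈ S) (hneg : ∀ x ∈ S, -x ∈ S) (κ δ : ℝ) (hκ : 1 ≤ κ) (hδ : 0 < δ) (hδ1 : δ ≤ 1)
    (n0 m N : ℕ) (hn0 : 2 * κ / δ ≤ n0) (hm : κ + 3 ≤ m) (hN : 4 * n0 * m ≤ N)
    (hg : ((itSum N S).card : ℝ) ≤ Real.exp κ * S.card) :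
    ∃ Φ : Finset (AddChar G ℂ), (∀ γ ∈ Φ, ∀ s ∈ S, ‖1 - γ s‖ ≤ 4 * δ) ∧
      ∀ x : G, (∀ γ ∈ Φ, ‖1 - γ x‖ ≤ 1) → x ∈ itSum (4 * n0 * m) S := by
  classical
  have hκ0 : 0 < κ := by linarith
  have hn0' : (2 : ℝ) ≤ n0 := by
    refine le_trans ?_ hn0
    rw [le_div_iff₀ hδ]
    nlinarith
  have hn0'' : 2 ≤ n0 := by exact_mod_cast hn0'
  have hn0pos : (0 : ℝ) < n0 := by linarith
  have hm4' : (4 : ℝ) ≤ m := by linarith
  have hm4 : 4 ≤ m := by exact_mod_cast hm4'
  have hSne : S.Nonempty := ⟨0, h0⟩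
  have hexp : 0 < Real.exp κ := Real.exp_pos κ
  have hbig : ∀ j : ℕ, j ≤ N → 1 ≤ j → ∀ i : ℕ, 1 ≤ i →
      ((itSum j S).card : ℝ) ≤ Real.exp κ * (itSum i S).card := by
    intro j hj _ i hi
    have h1 : ((itSum j S).card : ℝ) ≤ (itSum N S).card := by
      exact_mod_cast card_itSum_le hj h0
    have h2 : (S.card : ℝ) ≤ (itSum i S).card := by
      exact_mod_cast card_le_card (subset_itSum hi h0)
    calc ((itSum j S).card : ℝ) ≤ (itSum N S).card := h1
      _ ≤ Real.exp κ * S.card := hg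
      _ ≤ _ := by gcongr
  have hN1 : 2 * n0 ≤ N := by nlinarith
  obtain ⟨n, hn1, hn2, hn3⟩ := exists_factor S κ n0 (by omega)
    (hbig (2 * n0) hN1 (by omega) n0 (by omega))
  have hn1' : 1 ≤ n := by omega
  set P : Finset G := itSum n S with hP
  have hPneg : ∀ x ∈ P, -x ∈ P := neg_mem_itSum n hneg
  have hPpos : (0 : ℝ) < P.card := by
    exact_mod_cast card_pos.mpr (itSum_nonempty n hSne)
  have hfac : Real.exp (κ / n0) ≤ 1 + δ := by
    have h1 : κ / n0 ≤ δ / 2 := by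
      rw [div_le_iff₀ hn0pos]
      rw [div_le_iff₀ hδ] at hn0
      linarith
    have h2 : Real.exp (κ / n0) ≤ Real.exp (δ / 2) := Real.exp_le_exp.mpr h1
    have h3 := Real.abs_exp_sub_one_le (x := δ / 2) (by rw [abs_of_pos (by linarith)]; linarith)
    rw [abs_of_pos (by linarith : (0 : ℝ) < δ / 2)] at h3
    have h4 := (abs_le.mp h3).2
    linarith
  have hQ : ((itSum (n + 1) S).card : ℝ) ≤ (1 + δ) * P.card :=
    hn3.trans (by gcongr)
  refine ⟨Finset.univ.filter (fun γ : AddChar G ℂ => (P.card : ℝ) / 2 ≤ ‖expSum P γ‖), ?_, ?_⟩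
  · intro γ hγ s hs
    rw [mem_filter] at hγ
    have h1 := norm_expSum_mul_le P (itSum (n + 1) S) (itSum_subset_succ n h0) s (by
      intro p hp
      rw [itSum_succ]
      exact add_mem_add hp hs) δ hQ γ
    have h2 : (P.card : ℝ) / 2 * ‖1 - γ s‖ ≤ 2 * δ * P.card :=
      le_trans (mul_le_mul_of_nonneg_right hγ.2 (norm_nonneg _)) h1
    have h3 : (P.card : ℝ) * ‖1 - γ s‖ ≤ P.card * (4 * δ) := by linarith
    exact le_of_mul_le_mul_left h3 hPpos
  · intro x hx
    by_contra hcon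
    have hx2 : x ∉ itSum (2 * m) P := by
      intro h
      apply hcon
      rw [hP, ← itSum_mul] at h
      refine itSum_subset_of_le ?_ h0 h
      nlinarith
    have hsum := sum_re_eq_zero P hPneg m x hx2
    set a : AddChar G ℂ → ℝ := fun γ => ‖expSum P γ‖ with ha
    set Φ := Finset.univ.filter (fun γ : AddChar G ℂ => (P.card : ℝ) / 2 ≤ a γ) with hΦ
    have ha0 : ∀ γ, 0 ≤ a γ := fun γ => norm_nonneg _
    have hsplit := Finset.sum_filter_add_sum_filter_not Finset.univ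
      (fun γ : AddChar G ℂ => (P.card : ℝ) / 2 ≤ a γ) (fun γ => a γ ^ (2 * m) * (γ x).re)
    have hsplit2 := Finset.sum_filter_add_sum_filter_not Finset.univ
      (fun γ : AddChar G ℂ => (P.card : ℝ) / 2 ≤ a γ) (fun γ => a γ ^ (2 * m))
    set Ψ := Finset.univ.filter (fun γ : AddChar G ℂ => ¬ (P.card : ℝ) / 2 ≤ a γ) with hΨ
    have h1 : (1 : ℝ) / 2 * ∑ γ ∈ Φ, a γ ^ (2 * m) ≤ ∑ γ ∈ Φ, a γ ^ (2 * m) * (γ x).re := by
      rw [Finset.mul_sum]
      apply Finset.sum_le_sum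
      intro γ hγ
      have := re_ge_half γ x (hx γ hγ)
      have h5 : 0 ≤ a γ ^ (2 * m) := pow_nonneg (ha0 γ) _
      nlinarith
    have h2 : -(∑ γ ∈ Ψ, a γ ^ (2 * m)) ≤ ∑ γ ∈ Ψ, a γ ^ (2 * m) * (γ x).re := by
      rw [← Finset.sum_neg_distrib]
      apply Finset.sum_le_sum
      intro γ _
      have h5 : 0 ≤ a γ ^ (2 * m) := pow_nonneg (ha0 γ) _
      have h6 : -1 ≤ (γ x).re := by
        have h7 := Complex.abs_re_le_norm (γ x)
        rw [AddChar.norm_apply γ x] at h7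
        exact (abs_le.mp h7).1
      nlinarith
    rw [hsum] at hsplit
    have h3 : ∑ γ ∈ Ψ, a γ ^ (2 * m) ≤ ((P.card : ℝ) / 2) ^ (2 * (m - 1)) *
        ((Fintype.card G : ℝ) * P.card) := by
      rw [← moment_two P, Finset.mul_sum]
      refine le_trans ?_ (Finset.sum_le_sum_of_subset_of_nonneg (Finset.subset_univ Ψ)
        (fun _ _ _ => by positivity))
      apply Finset.sum_le_sum
      intro γ hγ
      rw [hΨ, mem_filter] at hγ
      have h5 : a γ ≤ (P.card : ℝ) / 2 := (not_le.mp hγ.2).le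
      have h6 : 2 * m = 2 * (m - 1) + 2 := by omega
      rw [h6, pow_add]
      exact mul_le_mul_of_nonneg_right (pow_le_pow_left₀ (ha0 γ) h5 _) (by positivity)
    have h4 := moment_lower P m
    have hG : (0 : ℝ) < Fintype.card G := by
      exact_mod_cast Fintype.card_pos
    have h5 : ((itSum m P).card : ℝ) ≤ Real.exp κ * P.card := by
      rw [hP, ← itSum_mul]
      apply hbig
      · nlinarith
      · nlinarith
      · exact hn1'
    have h6 : ∑ γ : AddChar G ℂ, a γ ^ (2 * m) ≤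
        3 * (((P.card : ℝ) / 2) ^ (2 * (m - 1)) * ((Fintype.card G : ℝ) * P.card)) := by
      linarith
    have h7 : (Fintype.card G : ℝ) * (P.card : ℝ) ^ (2 * m) ≤
        (Real.exp κ * P.card) *
          (3 * (((P.card : ℝ) / 2) ^ (2 * (m - 1)) * ((Fintype.card G : ℝ) * P.card))) := by
      refine h4.trans ?_
      refine mul_le_mul h5 h6 ?_ (by positivity)
      exact Finset.sum_nonneg (fun γ _ => pow_nonneg (ha0 γ) _)
    have h8 : (P.card : ℝ) ^ (2 * m) = (P.card : ℝ) ^ (2 * (m - 1)) * (P.card : ℝ) ^ 2 := by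
      rw [← pow_add]; congr 1; omega
    have h9 : ((P.card : ℝ) / 2) ^ (2 * (m - 1)) * 4 ^ (m - 1) = (P.card : ℝ) ^ (2 * (m - 1)) := by
      rw [div_pow, pow_mul 2 2 (m - 1)]
      norm_num
    have hX : 0 < ((P.card : ℝ) / 2) ^ (2 * (m - 1)) * ((Fintype.card G : ℝ) * (P.card : ℝ) ^ 2) := by
      positivity
    have h10 : (4 : ℝ) ^ (m - 1) * (((P.card : ℝ) / 2) ^ (2 * (m - 1)) *
        ((Fintype.card G : ℝ) * (P.card : ℝ) ^ 2)) ≤
        (3 * Real.exp κ) * (((P.card : ℝ) / 2) ^ (2 * (m - 1)) *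
        ((Fintype.card G : ℝ) * (P.card : ℝ) ^ 2)) := by
      calc (4 : ℝ) ^ (m - 1) * (((P.card : ℝ) / 2) ^ (2 * (m - 1)) *
            ((Fintype.card G : ℝ) * (P.card : ℝ) ^ 2))
          = (Fintype.card G : ℝ) * ((((P.card : ℝ) / 2) ^ (2 * (m - 1)) * 4 ^ (m - 1)) *
            (P.card : ℝ) ^ 2) := by ring
        _ = (Fintype.card G : ℝ) * (P.card : ℝ) ^ (2 * m) := by rw [h9, ← h8]
        _ ≤ _ := h7
        _ = _ := by ring
    have h11 : (4 : ℝ) ^ (m - 1) ≤ 3 * Real.exp κ := le_of_mul_le_mul_right h10 hX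
    -- contradiction
    have h12 : Real.exp (κ + 2) ≤ (4 : ℝ) ^ (m - 1) := by
      have e1 : Real.exp (κ + 2) ≤ Real.exp ((m - 1 : ℕ) : ℝ) := by
        apply Real.exp_le_exp.mpr
        rw [Nat.cast_sub (by omega)]
        push_cast
        linarith
      have e2 : Real.exp ((m - 1 : ℕ) : ℝ) = Real.exp 1 ^ (m - 1) := by
        rw [← Real.exp_nat_mul, mul_one]
      rw [e2] at e1
      refine e1.trans (pow_le_pow_left₀ (Real.exp_pos 1).le ?_ _)
      have := Real.exp_one_lt_d9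
      linarith
    have h13 : Real.exp (κ + 2) = Real.exp κ * (Real.exp 1 * Real.exp 1) := by
      rw [← Real.exp_add, ← Real.exp_add]; congr 1; ring
    have h14 := mul_le_mul_of_nonneg_left four_le_exp_sq hexp.le
    rw [h13] at h12
    linarith

end Pool.Agent.Lib.MP_dd2a7c_co
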