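import Mathlib
import Pool.Agent.Lib.MP_dd2a7c_co.FromSubgroup
import Pool.Agent.Lib.MP_dd2a7c_co.LocalGroup
import Pool.Agent.Lib.MP_dd2a7c_co.IterSum
import Pool.Agent.Lib.MP_dd2a7c_co.Spec

section

/-!
Shrinking a coset progression to one of smaller volume, at the price of a covering.
-/

namespace Pool.Agent.Lib.MP_dd2a7c_co

open Pointwise MeasureTheory

/-- The lattice points of a set in `ℝ^d`. -/
def pts {d : ℕ} (K : Set (Fin d → ℝ)) : Set (Fin d → ℤ) := {v | (fun i => (v i : ℝ)) ∈ K}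

theorem pts_mono {d : ℕ} {K L : Set (Fin d → ℝ)} (h : K ⊆ L) : pts K ⊆ pts L := fun _ hv => h hv

theorem pts_finite {d : ℕ} {K : Set (Fin d → ℝ)} (hK : Bornology.IsBounded K) :
    (pts K).Finite := by
  obtain ⟨R, hR⟩ := hK.exists_norm_le
  refine (Set.Finite.pi' (fun _ : Fin d => Set.finite_Icc (-⌈R⌉) ⌈R⌉)).subset ?_
  intro v hv i
  have h1 := (norm_le_pi_norm (fun i => (v i : ℝ)) i).trans (hR _ hv)
  rw [Real.norm_eq_abs, abs_le] at h1
  constructor
  · have h2 : (-(⌈R⌉ : ℝ)) ≤ v i := (neg_le_neg (Int.le_ceil R)).trans h1.1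
    exact_mod_cast h2
  · have h2 : (v i : ℝ) ≤ (⌈R⌉ : ℝ) := h1.2.trans (Int.le_ceil R)
    exact_mod_cast h2

/-- Maximal separated subsets. -/
theorem exists_sep {α : Type*} [DecidableEq α] (R : α → α → Prop) (hrefl : ∀ x, R x x)
    (hsymm : ∀ x y, R x y → R y x) (S : Finset α) :
    ∃ X ⊆ S, (∀ x ∈ X, ∀ y ∈ X, x ≠ y → ¬ R x y) ∧ ∀ v ∈ S, ∃ x ∈ X, R v x := by
  induction S using Finset.induction_on with
  | empty => exact ⟨∅, by simp, by simp, by simp⟩
  | insert a S _ ih =>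
    obtain ⟨X, hXS, hsep, hcov⟩ := ih
    by_cases h : ∃ x ∈ X, R a x
    · refine ⟨X, hXS.trans (Finset.subset_insert _ _), hsep, fun v hv => ?_⟩
      rcases Finset.mem_insert.mp hv with rfl | hv
      · exact h
      · exact hcov v hv
    · push Not at h
      refine ⟨insert a X, Finset.insert_subset_insert _ hXS, ?_, fun v hv => ?_⟩
      · intro x hx y hy hxy
        rcases Finset.mem_insert.mp hx with hxa | hx'
        · rcases Finset.mem_insert.mp hy with hya | hy'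
          · exact absurd (hxa.trans hya.symm) hxy
          · rw [hxa]; exact h y hy'
        · rcases Finset.mem_insert.mp hy with hya | hy'
          · rw [hya]; exact fun hr => h x hx' (hsymm _ _ hr)
          · exact hsep x hx' y hy' hxy
      · rcases Finset.mem_insert.mp hv with rfl | hv
        · exact ⟨v, Finset.mem_insert_self _ _, hrefl v⟩
        · obtain ⟨x, hx, hr⟩ := hcov v hv
          exact ⟨x, Finset.mem_insert_of_mem hx, hr⟩

section body

variable {d : ℕ} {K : Set (Fin d → ℝ)}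

/-- A symmetric convex body. -/
structure SymBody (K : Set (Fin d → ℝ)) : Prop where
  compact : IsCompact K
  convex : Convex ℝ K
  interior : (interior K).Nonempty
  symm : ∀ x ∈ K, -x ∈ K

theorem SymBody.zero_mem (h : SymBody K) : (0 : Fin d → ℝ) ∈ K := by
  obtain ⟨x, hx⟩ := h.interior
  have hx' := interior_subset hx
  have := h.convex hx' (h.symm x hx') (show (0 : ℝ) ≤ 1 / 2 by norm_num)
    (show (0 : ℝ) ≤ 1 / 2 by norm_num) (by norm_num)
  simpa using this

theorem SymBody.smul (h : SymBody K) {c : ℝ} (hc : 0 < c) : SymBody (c • K) where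
  compact := h.compact.smul c
  convex := h.convex.smul c
  interior := by
    rw [interior_smul₀ hc.ne']
    exact h.interior.smul_set
  symm := by
    rintro _ ⟨x, hx, rfl⟩
    exact ⟨-x, h.symm x hx, by simp⟩

theorem SymBody.mono (h : SymBody K) {a b : ℝ} (ha : 0 ≤ a) (hab : a ≤ b) : a • K ⊆ b • K := by
  have h1 : b • K = a • K + (b - a) • K := by
    rw [← h.convex.add_smul ha (by linarith)]
    congr 1; ring
  rw [h1]
  intro x hx
  exact ⟨x, hx, 0, ⟨0, h.zero_mem, by simp⟩, by simp⟩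

theorem SymBody.add_mem (h : SymBody K) {a b : ℝ} (ha : 0 ≤ a) (hb : 0 ≤ b) {x y : Fin d → ℝ}
    (hx : x ∈ a • K) (hy : y ∈ b • K) : x + y ∈ (a + b) • K := by
  rw [h.convex.add_smul ha hb]
  exact ⟨x, hx, y, hy, rfl⟩

theorem SymBody.sub_mem (h : SymBody K) {a b : ℝ} (ha : 0 ≤ a) (hb : 0 ≤ b) {x y : Fin d → ℝ}
    (hx : x ∈ a • K) (hy : y ∈ b • K) : x - y ∈ (a + b) • K := by
  rw [sub_eq_add_neg]
  refine h.add_mem ha hb hx ?_
  obtain ⟨z, hz, rfl⟩ := hy
  exact ⟨-z, h.symm z hz, by simp⟩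

theorem castv_sub (v w : Fin d → ℤ) :
    (fun i => ((v - w) i : ℝ)) = (fun i => (v i : ℝ)) - fun i => (w i : ℝ) := by
  funext i; simp

theorem castv_add (v w : Fin d → ℤ) :
    (fun i => ((v + w) i : ℝ)) = (fun i => (v i : ℝ)) + fun i => (w i : ℝ) := by
  funext i; simp

theorem SymBody.pts_finite (h : SymBody K) : (pts K).Finite :=
  Pool.Agent.Lib.MP_dd2a7c_co.pts_finite h.compact.isBounded

/-- Separated points of `2 K` modulo `K`: at most `5 ^ d`. -/
theorem SymBody.card_sep_le (h : SymBody K) (X : Finset (Fin d → ℤ))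
    (hX : ∀ x ∈ X, (fun i => (x i : ℝ)) ∈ (2 : ℝ) • K)
    (hsep : ∀ x ∈ X, ∀ y ∈ X, x ≠ y → (fun i => ((x - y) i : ℝ)) ∉ K) :
    X.card ≤ 5 ^ d := by
  set K' : Set (Fin d → ℝ) := (1 / 2 : ℝ) • K with hK'
  have hK'b : SymBody K' := h.smul (by norm_num)
  have hone : (1 : ℝ) • K = K := one_smul _ _
  -- disjoint translates
  have hdisj : (X : Set (Fin d → ℤ)).PairwiseDisjoint
      (fun x => (fun i => (x i : ℝ)) +ᵥ K') := by
    intro x hx y hy hxy
    rw [Function.onFun, Set.disjoint_left]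
    rintro _ ⟨a, ha, rfl⟩ ⟨b, hb, hab⟩
    apply hsep x hx y hy hxy
    rw [castv_sub]
    have h1 : (fun i => (x i : ℝ)) - (fun i => (y i : ℝ)) = b - a := by
      have h2 : (fun i => (y i : ℝ)) + b = (fun i => (x i : ℝ)) + a := hab
      rw [sub_eq_sub_iff_add_eq_add, ← h2, add_comm]
    rw [h1, ← hone]
    have h3 := h.sub_mem (a := 1 / 2) (b := 1 / 2) (by norm_num) (by norm_num) hb ha
    norm_num at h3
    rwa [hone]
  have hsub : (⋃ x ∈ X, ((fun i => (x i : ℝ)) +ᵥ K')) ⊆ (5 : ℝ) • K' := by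
    intro z hz
    simp only [Set.mem_iUnion] at hz
    obtain ⟨x, hx, a, ha, rfl⟩ := hz
    have h1 := h.add_mem (a := 2) (b := 1 / 2) (by norm_num) (by norm_num) (hX x hx) ha
    have h2 : (5 : ℝ) • K' = (2 + 1 / 2 : ℝ) • K := by
      rw [hK', smul_smul]; norm_num
    rw [h2]
    exact h1
  have hmeas : ∀ x ∈ X, MeasurableSet ((fun i => (x i : ℝ)) +ᵥ K') := fun x _ =>
    hK'b.compact.isClosed.measurableSet.const_vadd _
  have hvol := measure_mono (μ := (volume : Measure (Fin d → ℝ))) hsub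
  rw [measure_biUnion_finset hdisj hmeas, Measure.addHaar_smul] at hvol
  simp only [measure_vadd, Finset.sum_const, nsmul_eq_mul] at hvol
  have hpos : volume K' ≠ 0 :=
    ((isOpen_interior.measure_pos volume hK'b.interior).trans_le
      (measure_mono interior_subset)).ne'
  have hfin : volume K' ≠ ⊤ := hK'b.compact.measure_lt_top.ne
  rw [ENNReal.mul_le_mul_iff_left hpos hfin] at hvol
  have h5 : ENNReal.ofReal |(5 : ℝ) ^ Module.finrank ℝ (Fin d → ℝ)| = ((5 ^ d : ℕ) : ENNReal) := by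
    rw [Module.finrank_fin_fun, abs_of_pos (by positivity)]
    rw [← ENNReal.ofReal_natCast]
    push_cast
    rfl
  rw [h5] at hvol
  exact_mod_cast hvol

/-- Doubling of the number of lattice points. -/
theorem SymBody.doubling (h : SymBody K) :
    (pts ((2 : ℝ) • K)).ncard ≤ 5 ^ d * (pts K).ncard := by
  classical
  have hf2 := (h.smul (two_pos (α := ℝ))).pts_finite
  obtain ⟨X, hXS, hsep, hcov⟩ := exists_sep
    (fun x y : Fin d → ℤ => (fun i => ((x - y) i : ℝ)) ∈ K)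
    (fun x => by
      have e : (fun i => (((x - x) i : ℤ) : ℝ)) = (0 : Fin d → ℝ) := by funext i; simp
      rw [e]; exact h.zero_mem)
    (fun x y hxy => by
      have := h.symm _ hxy
      convert this using 1
      funext i; simp) hf2.toFinset
  have hXc := h.card_sep_le X (fun x hx => hf2.mem_toFinset.mp (hXS hx)) hsep
  have hsub : hf2.toFinset ⊆ X.biUnion fun x => h.pts_finite.toFinset.image fun p => x + p := by
    intro v hv
    obtain ⟨x, hx, hr⟩ := hcov v hv
    rw [Finset.mem_biUnion]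
    refine ⟨x, hx, Finset.mem_image.mpr ⟨v - x, h.pts_finite.mem_toFinset.mpr hr, by abel⟩⟩
  have h1 := Finset.card_le_card hsub
  have h2 : (X.biUnion fun x => h.pts_finite.toFinset.image fun p => x + p).card ≤
      X.card * h.pts_finite.toFinset.card := by
    refine Finset.card_biUnion_le_card_mul _ _ _ fun x _ => ?_
    exact Finset.card_image_le
  rw [Set.ncard_eq_toFinset_card _ hf2, Set.ncard_eq_toFinset_card _ h.pts_finite]
  calc hf2.toFinset.card ≤ X.card * h.pts_finite.toFinset.card := h1.trans h2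
    _ ≤ 5 ^ d * h.pts_finite.toFinset.card := Nat.mul_le_mul_right _ hXc

/-- Covering the lattice points of `K` by translates of those of `c K`, `0 < c ≤ 1`. -/
theorem SymBody.cover (h : SymBody K) {c : ℝ} (hc : 0 < c) (hc1 : c ≤ 1) :
    ∃ X : Finset (Fin d → ℤ), X.card * (pts (c • K)).ncard ≤ 25 ^ d * (pts K).ncard ∧
      ∀ v ∈ pts K, ∃ x ∈ X, v - x ∈ pts (c • K) := by
  classical
  have hc2 : SymBody ((c / 2) • K) := h.smul (by positivity)
  have hcK : SymBody (c • K) := h.smul hc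
  obtain ⟨X, hXS, hsep, hcov⟩ := exists_sep
    (fun x y : Fin d → ℤ => (x - y) ∈ pts (c • K))
    (fun x => by
      change (fun i => ((x - x) i : ℝ)) ∈ c • K
      have e : (fun i => (((x - x) i : ℤ) : ℝ)) = (0 : Fin d → ℝ) := by funext i; simp
      rw [e]; exact hcK.zero_mem)
    (fun x y hxy => by
      have := hcK.symm _ hxy
      change (fun i => ((y - x) i : ℝ)) ∈ c • K
      convert this using 1
      funext i; simp) h.pts_finite.toFinset
  refine ⟨X, ?_, fun v hv => hcov v (h.pts_finite.mem_toFinset.mpr hv)⟩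
  -- disjoint translates of the points of `(c / 2) K` inside `2 K`
  have hf2 := (h.smul (two_pos (α := ℝ))).pts_finite
  have hinj : Set.InjOn (fun p : (Fin d → ℤ) × (Fin d → ℤ) => p.1 + p.2)
      (X ×ˢ hc2.pts_finite.toFinset : Finset _) := by
    rintro ⟨x, p⟩ hp ⟨y, q⟩ hq hpq
    rw [Finset.mem_coe, Finset.mem_product] at hp hq
    have hp2 := hc2.pts_finite.mem_toFinset.mp hp.2
    have hq2 := hc2.pts_finite.mem_toFinset.mp hq.2
    simp only at hpq hp hq hp2 hq2
    have hxy : x = y := by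
      by_contra hne
      apply hsep x hp.1 y hq.1 hne
      have h1 : x - y = q - p := by
        rw [sub_eq_sub_iff_add_eq_add, hpq, add_comm]
      rw [h1]
      change (fun i => ((q - p) i : ℝ)) ∈ c • K
      rw [castv_sub]
      have h2 := h.sub_mem (a := c / 2) (b := c / 2) (by positivity) (by positivity) hq2 hp2
      rwa [add_halves] at h2
    subst hxy
    rw [add_left_cancel hpq]
  have himg : (X ×ˢ hc2.pts_finite.toFinset).image
      (fun p : (Fin d → ℤ) × (Fin d → ℤ) => p.1 + p.2) ⊆ hf2.toFinset := by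
    intro v hv
    obtain ⟨⟨x, p⟩, hp, rfl⟩ := Finset.mem_image.mp hv
    rw [Finset.mem_product] at hp
    rw [hf2.mem_toFinset]
    change (fun i => ((x + p) i : ℝ)) ∈ (2 : ℝ) • K
    rw [castv_add]
    have hx : (fun i => (x i : ℝ)) ∈ (1 : ℝ) • K := by
      rw [one_smul]; exact h.pts_finite.mem_toFinset.mp (hXS hp.1)
    have hp2 : (fun i => (p i : ℝ)) ∈ (c / 2) • K := hc2.pts_finite.mem_toFinset.mp hp.2
    exact h.mono (by positivity) (by linarith)
      (h.add_mem (a := 1) (b := c / 2) (by norm_num) (by positivity) hx hp2)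
  have hcount := Finset.card_le_card himg
  rw [Finset.card_image_of_injOn hinj, Finset.card_product] at hcount
  have hd1 := h.doubling
  have hd2 := hc2.doubling
  have h3 : (2 : ℝ) • ((c / 2) • K) = c • K := by
    rw [smul_smul]; congr 1; ring
  rw [h3] at hd2
  rw [Set.ncard_eq_toFinset_card _ hf2] at hd1
  rw [Set.ncard_eq_toFinset_card _ hc2.pts_finite] at hd2
  calc X.card * (pts (c • K)).ncard ≤ X.card * (5 ^ d * hc2.pts_finite.toFinset.card) :=
        Nat.mul_le_mul_left _ hd2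
    _ = 5 ^ d * (X.card * hc2.pts_finite.toFinset.card) := by ring
    _ ≤ 5 ^ d * (5 ^ d * (pts K).ncard) := Nat.mul_le_mul_left _ (hcount.trans hd1)
    _ = 25 ^ d * (pts K).ncard := by
        rw [← mul_assoc, ← mul_pow]
        norm_num

/-- For small `c` the only lattice point of `c K` is `0`. -/
theorem SymBody.exists_small (h : SymBody K) :
    ∃ j : ℕ, (pts (((1 / 2 : ℝ) ^ j) • K)).ncard ≤ 1 := by
  obtain ⟨R, hR⟩ := h.compact.isBounded.exists_norm_le
  have hR0 : 0 ≤ R := (norm_nonneg _).trans (hR 0 h.zero_mem)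
  obtain ⟨j, hj⟩ := exists_pow_lt_of_lt_one (show (0 : ℝ) < 1 / (R + 1) by positivity)
    (show (1 / 2 : ℝ) < 1 by norm_num)
  refine ⟨j, ?_⟩
  have hsub : pts (((1 / 2 : ℝ) ^ j) • K) ⊆ {0} := by
    rintro v ⟨x, hx, hxv⟩
    rw [Set.mem_singleton_iff]
    funext i
    have h1 : (v i : ℝ) = (1 / 2 : ℝ) ^ j * x i := (congrFun hxv i).symm
    have h2 : |(v i : ℝ)| < 1 := by
      rw [h1, abs_mul, abs_of_pos (by positivity)]
      have h3 : |x i| ≤ R := (norm_le_pi_norm x i).trans (hR x hx)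
      calc (1 / 2 : ℝ) ^ j * |x i| ≤ (1 / 2 : ℝ) ^ j * R := by gcongr
        _ ≤ 1 / (R + 1) * R := by gcongr
        _ < 1 := by rw [div_mul_eq_mul_div, div_lt_one (by positivity)]; linarith
    have h3 : |v i| < 1 := by exact_mod_cast h2
    simpa using Int.abs_lt_one_iff.mp h3
  calc (pts (((1 / 2 : ℝ) ^ j) • K)).ncard ≤ ({0} : Set (Fin d → ℤ)).ncard :=
        Set.ncard_le_ncard hsub (Set.finite_singleton _)
    _ = 1 := Set.ncard_singleton _

end body

theorem CosetProg.symBody {Γ : Type*} [AddCommGroup Γ] (Q : CosetProg Γ) : SymBody Q.body :=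
  ⟨Q.isCompact_body, Q.convex_body, Q.interior_nonempty, Q.neg_mem_body⟩

/-- The coset progression with the body scaled by `c > 0`, centred at `0`. -/
def CosetProg.scale {Γ : Type*} [AddCommGroup Γ] (Q : CosetProg Γ) (c : ℝ) (hc : 0 < c) :
    CosetProg Γ where
  dim := Q.dim
  body := c • Q.body
  isCompact_body := (Q.symBody.smul hc).compact
  convex_body := (Q.symBody.smul hc).convex
  interior_nonempty := (Q.symBody.smul hc).interior
  neg_mem_body := (Q.symBody.smul hc).symm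
  base := 0
  hom := Q.hom
  sub := Q.sub
  finite_sub := Q.finite_sub

/-- **Shrinking.** -/
theorem exists_shrink {Γ : Type*} [AddCommGroup Γ] [DecidableEq Γ] (Q : CosetProg Γ) (N : ℕ)
    (hN : 1 ≤ N) (M : ℝ) (hM : 1 ≤ M) (hQ : (Q.vol : ℝ) ≤ M * N) :
    ∃ (Q' : CosetProg Γ) (T : Finset Γ), Q'.dim ≤ max 1 Q.dim ∧ Q'.vol ≤ N ∧
      (T.card : ℝ) ≤ 125 * 125 ^ Q.dim * M ∧
      ∀ g ∈ Q.carrier, ∃ t ∈ T, ∃ g' ∈ Q'.carrier, g = t + g' := by
  classical
  have hNR : (0 : ℝ) < N := by exact_mod_cast hN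
  have hfin : Finite Q.sub := Q.finite_sub
  have hHpos : 0 < Nat.card Q.sub := Nat.card_pos
  have hHR : (0 : ℝ) < Nat.card Q.sub := by exact_mod_cast hHpos
  have hpfin : (Q.points).Finite := Q.symBody.pts_finite
  have h125 : (1 : ℝ) ≤ 125 ^ Q.dim := one_le_pow₀ (by norm_num)
  by_cases hcase : N < Nat.card Q.sub
  · -- the subgroup is too large
    have hM' : (1 : ℝ) ≤ Nat.card Q.sub / N := by
      rw [le_div_iff₀ hNR, one_mul]; exact_mod_cast hcase.le
    obtain ⟨Q', T', h1, h2, h3, h4⟩ := exists_prog_of_subgroup Q.sub Q.finite_sub N hN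
      (Nat.card Q.sub / N) hM' (by rw [div_mul_cancel₀ _ hNR.ne'])
    refine ⟨Q', (hpfin.toFinset ×ˢ T').image fun p => Q.base + Q.hom p.1 + p.2,
      h1.trans (le_max_left _ _), h2, ?_, ?_⟩
    · have e1 : (((hpfin.toFinset ×ˢ T').image
          fun p => Q.base + Q.hom p.1 + p.2).card : ℝ) ≤ hpfin.toFinset.card * T'.card := by
        have := Finset.card_image_le (s := hpfin.toFinset ×ˢ T')
          (f := fun p => Q.base + Q.hom p.1 + p.2)
        rw [Finset.card_product] at this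
        exact_mod_cast this
      have e2 : (Q.vol : ℝ) = Nat.card Q.sub * hpfin.toFinset.card := by
        unfold CosetProg.vol
        rw [Set.ncard_eq_toFinset_card _ hpfin]
        push_cast; rfl
      calc _ ≤ (hpfin.toFinset.card : ℝ) * T'.card := e1
        _ ≤ hpfin.toFinset.card * (4 * (Nat.card Q.sub / N)) := by gcongr
        _ = 4 * (Q.vol / N) := by rw [e2]; ring
        _ ≤ 4 * M := by
            gcongr
            rw [div_le_iff₀ hNR]; exact hQ
        _ ≤ 125 * 125 ^ Q.dim * M := by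
            gcongr
            linarith
    · rintro g ⟨v, hv, k, hk, rfl⟩
      obtain ⟨t, ht, g', hg', hkt⟩ := h4 k hk
      refine ⟨Q.base + Q.hom v + t, Finset.mem_image.mpr ⟨(v, t), Finset.mem_product.mpr
        ⟨hpfin.mem_toFinset.mpr hv, ht⟩, rfl⟩, g', hg', ?_⟩
      rw [hkt]; abel
  · push Not at hcase
    -- the first scale at which the volume is small
    have hex : ∃ j : ℕ, Nat.card Q.sub * (pts (((1 / 2 : ℝ) ^ j) • Q.body)).ncard ≤ N := by
      obtain ⟨j, hj⟩ := Q.symBody.exists_small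
      refine ⟨j, ?_⟩
      calc Nat.card Q.sub * (pts (((1 / 2 : ℝ) ^ j) • Q.body)).ncard ≤ Nat.card Q.sub * 1 :=
            Nat.mul_le_mul_left _ hj
        _ ≤ N := by omega
    set j := Nat.find hex with hj
    have hjN := Nat.find_spec hex
    rw [← hj] at hjN
    set c : ℝ := (1 / 2 : ℝ) ^ j with hc
    have hcpos : 0 < c := by positivity
    have hc1 : c ≤ 1 := pow_le_one₀ (by norm_num) (by norm_num)
    have hcb : SymBody (c • Q.body) := Q.symBody.smul hcpos
    obtain ⟨X, hX1, hX2⟩ := Q.symBody.cover hcpos hc1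
    refine ⟨Q.scale c hcpos, X.image fun x => Q.base + Q.hom x, le_max_right _ _, hjN, ?_, ?_⟩
    · -- lower bound for the number of points at scale `c`
      have hfc : (N : ℝ) ≤ 5 ^ Q.dim * (Nat.card Q.sub * (pts (c • Q.body)).ncard) ∨
          (j = 0) := by
        by_cases hj0 : j = 0
        · exact Or.inr hj0
        · left
          have hmin := Nat.find_min hex (m := j - 1) (by omega)
          push Not at hmin
          have e1 : (2 : ℝ) • (c • Q.body) = ((1 / 2 : ℝ) ^ (j - 1)) • Q.body := by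
            rw [smul_smul]
            congr 1
            rw [hc]
            have : j = (j - 1) + 1 := by omega
            conv_lhs => rw [this, pow_succ]
            ring
          have hdb := hcb.doubling
          rw [e1] at hdb
          have e2 : N ≤ 5 ^ Q.dim * (Nat.card Q.sub * (pts (c • Q.body)).ncard) := by
            calc N ≤ Nat.card Q.sub * (pts (((1 / 2 : ℝ) ^ (j - 1)) • Q.body)).ncard := hmin.le
              _ ≤ Nat.card Q.sub * (5 ^ Q.dim * (pts (c • Q.body)).ncard) :=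
                  Nat.mul_le_mul_left _ hdb
              _ = _ := by ring
          exact_mod_cast e2
      have hcard : ((X.image fun x => Q.base + Q.hom x).card : ℝ) ≤ X.card := by
        exact_mod_cast Finset.card_image_le
      have hX1' : (X.card : ℝ) * (Nat.card Q.sub * (pts (c • Q.body)).ncard) ≤
          25 ^ Q.dim * Q.vol := by
        have : X.card * (Nat.card Q.sub * (pts (c • Q.body)).ncard) ≤ 25 ^ Q.dim * Q.vol := by
          unfold CosetProg.vol
          calc X.card * (Nat.card Q.sub * (pts (c • Q.body)).ncard)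
              = Nat.card Q.sub * (X.card * (pts (c • Q.body)).ncard) := by ring
            _ ≤ Nat.card Q.sub * (25 ^ Q.dim * (pts Q.body).ncard) := Nat.mul_le_mul_left _ hX1
            _ = 25 ^ Q.dim * (Nat.card Q.sub * (pts Q.body).ncard) := by ring
        exact_mod_cast this
      refine hcard.trans ?_
      rcases hfc with hfc | hj0
      · have e1 : (X.card : ℝ) * N ≤ 125 ^ Q.dim * M * N := by
          calc (X.card : ℝ) * N ≤
              X.card * (5 ^ Q.dim * (Nat.card Q.sub * (pts (c • Q.body)).ncard)) := by gcongr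
            _ = 5 ^ Q.dim * (X.card * (Nat.card Q.sub * (pts (c • Q.body)).ncard)) := by ring
            _ ≤ 5 ^ Q.dim * (25 ^ Q.dim * Q.vol) := by gcongr
            _ ≤ 5 ^ Q.dim * (25 ^ Q.dim * (M * N)) := by gcongr
            _ = (5 * 25) ^ Q.dim * M * N := by rw [mul_pow]; ring
            _ = 125 ^ Q.dim * M * N := by norm_num
        have e2 : (X.card : ℝ) ≤ 125 ^ Q.dim * M := le_of_mul_le_mul_right e1 hNR
        calc (X.card : ℝ) ≤ 1 * 125 ^ Q.dim * M := by rw [one_mul]; exact e2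
          _ ≤ 125 * 125 ^ Q.dim * M := by gcongr; norm_num
      · -- `c = 1`
        have hc1' : c = 1 := by rw [hc, hj0, pow_zero]
        rw [hc1', one_smul] at hX1
        have hp0 : 0 < (pts Q.body).ncard := by
          rw [Set.ncard_pos Q.symBody.pts_finite]
          exact ⟨0, by
            change (fun i => (((0 : Fin Q.dim → ℤ) i : ℤ) : ℝ)) ∈ Q.body
            have e : (fun i => (((0 : Fin Q.dim → ℤ) i : ℤ) : ℝ)) = (0 : Fin Q.dim → ℝ) := by
              funext i; simp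
            rw [e]; exact Q.symBody.zero_mem⟩
        have e1 : X.card ≤ 25 ^ Q.dim := le_of_mul_le_mul_right hX1 hp0
        have e2 : (X.card : ℝ) ≤ 25 ^ Q.dim := by exact_mod_cast e1
        calc (X.card : ℝ) ≤ 25 ^ Q.dim := e2
          _ ≤ 125 ^ Q.dim := by gcongr; norm_num
          _ = 1 * 125 ^ Q.dim * 1 := by ring
          _ ≤ 125 * 125 ^ Q.dim * M := by gcongr; norm_num
    · rintro g ⟨v, hv, k, hk, rfl⟩
      obtain ⟨x, hx, hvx⟩ := hX2 v hv
      refine ⟨Q.base + Q.hom x, Finset.mem_image.mpr ⟨x, hx, rfl⟩,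
        0 + Q.hom (v - x) + k, ⟨v - x, hvx, k, hk, rfl⟩, ?_⟩
      rw [map_sub]; abel

end Pool.Agent.Lib.MP_dd2a7c_co
end

section

section

/-!
Finitely generated abelian groups are residually finite: a finite subset of an abelian group
is separated by a homomorphism from the subgroup it generates to a finite group.
-/

set_option autoImplicit false

open Finset
open scoped DirectSum

namespace Pool.Agent.Lib.MP_dd2a7c_co

theorem exists_finite_quotient_fg {Δ : Type*} [AddCommGroup Δ] [AddGroup.FG Δ] (T : Finset Δ) :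
    ∃ (G : Type) (_ : AddCommGroup G) (_ : Fintype G) (π : Δ →+ G),
      ∀ x ∈ T, ∀ y ∈ T, π x = π y → x = y := by
  classical
  obtain ⟨n, ι, _, p, hp, e, ⟨φ⟩⟩ := AddCommGroup.equiv_free_prod_directSum_zmod Δ
  set M : ℕ := 1 + ∑ x ∈ T, ∑ y ∈ T, ∑ i : Fin n, ((φ x).1 i - (φ y).1 i).natAbs with hM
  have hM1 : NeZero M := ⟨by omega⟩
  have hq : ∀ i, NeZero (p i ^ e i) := fun i => ⟨pow_ne_zero _ (hp i).ne_zero⟩
  have hfin : Finite (⨁ i : ι, ZMod (p i ^ e i)) :=
    Finite.of_equiv _ (DirectSum.addEquivProd (fun i => ZMod (p i ^ e i))).symm.toEquiv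
  have hft : Fintype (⨁ i : ι, ZMod (p i ^ e i)) := Fintype.ofFinite _
  let red : (Fin n →₀ ℤ) →+ (Fin n → ZMod M) :=
    { toFun := fun f i => ((f i : ℤ) : ZMod M)
      map_zero' := by funext i; simp
      map_add' := by intro f g; funext i; simp }
  refine ⟨(Fin n → ZMod M) × (⨁ i : ι, ZMod (p i ^ e i)), inferInstance, inferInstance,
    (red.prodMap (AddMonoidHom.id _)).comp φ.toAddMonoidHom, ?_⟩
  intro x hx y hy hxy
  have h1 : red (φ x).1 = red (φ y).1 ∧ (φ x).2 = (φ y).2 := by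
    have := Prod.ext_iff.mp hxy
    simpa using this
  apply φ.injective
  apply Prod.ext
  · ext i
    have h2 := congrFun h1.1 i
    have h3 : ((((φ x).1 i - (φ y).1 i : ℤ)) : ZMod M) = 0 := by
      push_cast
      exact sub_eq_zero.mpr h2
    rw [ZMod.intCast_zmod_eq_zero_iff_dvd] at h3
    have h4 : ((φ x).1 i - (φ y).1 i).natAbs < M := by
      rw [hM]
      have a1 : ((φ x).1 i - (φ y).1 i).natAbs ≤ ∑ i : Fin n, ((φ x).1 i - (φ y).1 i).natAbs :=
        Finset.single_le_sum (f := fun i : Fin n => ((φ x).1 i - (φ y).1 i).natAbs)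
          (fun _ _ => Nat.zero_le _) (Finset.mem_univ i)
      have a2 : ∑ i : Fin n, ((φ x).1 i - (φ y).1 i).natAbs ≤
          ∑ y ∈ T, ∑ i : Fin n, ((φ x).1 i - (φ y).1 i).natAbs :=
        Finset.single_le_sum (f := fun y => ∑ i : Fin n, ((φ x).1 i - (φ y).1 i).natAbs)
          (fun _ _ => Nat.zero_le _) hy
      have a3 : ∑ y ∈ T, ∑ i : Fin n, ((φ x).1 i - (φ y).1 i).natAbs ≤
          ∑ x ∈ T, ∑ y ∈ T, ∑ i : Fin n, ((φ x).1 i - (φ y).1 i).natAbs :=
        Finset.single_le_sum (f := fun x => ∑ y ∈ T, ∑ i : Fin n, ((φ x).1 i - (φ y).1 i).natAbs)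
          (fun _ _ => Nat.zero_le _) hx
      omega
    have h5 : (φ x).1 i - (φ y).1 i = 0 := by
      apply Int.eq_zero_of_abs_lt_dvd h3
      rw [Int.abs_eq_natAbs]
      exact_mod_cast h4
    exact sub_eq_zero.mp h5
  · exact h1.2

theorem exists_finite_quotient {Γ : Type*} [AddCommGroup Γ] (P : Finset Γ) :
    ∃ (G : Type) (_ : AddCommGroup G) (_ : Fintype G)
      (π : AddSubgroup.closure (P : Set Γ) →+ G),
      ∀ x y : AddSubgroup.closure (P : Set Γ), (x : Γ) ∈ P → (y : Γ) ∈ P → π x = π y → x = y := by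
  classical
  have hfg : AddGroup.FG (AddSubgroup.closure (P : Set Γ)) := by
    rw [AddGroup.fg_iff_addSubgroup_fg]
    exact ⟨P, rfl⟩
  have hfin : {x : AddSubgroup.closure (P : Set Γ) | (x : Γ) ∈ P}.Finite := by
    have : {x : AddSubgroup.closure (P : Set Γ) | (x : Γ) ∈ P} = Subtype.val ⁻¹' (P : Set Γ) := rfl
    rw [this]
    exact P.finite_toSet.preimage Subtype.val_injective.injOn
  obtain ⟨G, i1, i2, π, h⟩ := exists_finite_quotient_fg hfin.toFinset
  refine ⟨G, i1, i2, π, fun x y hx hy hxy => h x ?_ y ?_ hxy⟩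
  · rw [Set.Finite.mem_toFinset]; exact hx
  · rw [Set.Finite.mem_toFinset]; exact hy

end Pool.Agent.Lib.MP_dd2a7c_co
end

section

/-!
The dimension of small balls of a local group is bounded by the growth.
-/

namespace Pool.Agent.Lib.MP_dd2a7c_co

open Module

/-- The number of `c : Fin r → ℕ` with sum at most `m` is at least `(m + r).choose r`. -/
theorem choose_le_card (r m : ℕ) :
    (m + r).choose r ≤ ((Fintype.piFinset fun _ : Fin r => Finset.range (m + 1)).filter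
      fun c => ∑ i, c i ≤ m).card := by
  classical
  have h1 : (m + r).choose r = ((Finset.univ : Finset (Fin (r + 1))).finsuppAntidiag m).card := by
    rw [Finset.card_finsuppAntidiag_nat_eq_choose, Finset.card_univ, Fintype.card_fin]
    have : r + 1 + m - 1 = m + r := by omega
    rw [this]
    exact (Nat.choose_symm_add (a := m) (b := r)).symm
  rw [h1]
  refine Finset.card_le_card_of_injOn (fun f i => f (Fin.castSucc i)) ?_ ?_
  · intro f hf
    have hf' : ∑ i, f i = m := (Finset.mem_finsuppAntidiag.mp hf).1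
    rw [Fin.sum_univ_castSucc] at hf'
    simp only [Finset.coe_filter, Fintype.mem_piFinset, Finset.mem_range, Set.mem_ofPred_eq]
    refine ⟨fun i => ?_, by omega⟩
    have : f (Fin.castSucc i) ≤ ∑ j : Fin r, f (Fin.castSucc j) :=
      Finset.single_le_sum (f := fun j : Fin r => f (Fin.castSucc j)) (fun j _ => Nat.zero_le _)
        (Finset.mem_univ i)
    omega
  · intro f hf g hg hfg
    have hf' : ∑ i, f i = m := (Finset.mem_finsuppAntidiag.mp hf).1
    have hg' : ∑ i, g i = m := (Finset.mem_finsuppAntidiag.mp hg).1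
    rw [Fin.sum_univ_castSucc] at hf' hg'
    have hcongr : ∀ i : Fin r, f (Fin.castSucc i) = g (Fin.castSucc i) := congrFun hfg
    ext i
    refine Fin.lastCases ?_ (fun j => hcongr j) i
    have : ∑ j : Fin r, f (Fin.castSucc j) = ∑ j : Fin r, g (Fin.castSucc j) :=
      Finset.sum_congr rfl fun j _ => hcongr j
    omega

namespace LocalGroup

variable {Γ ι : Type*} [AddCommGroup Γ] [Fintype ι] (L : LocalGroup Γ ι)

/-- **Dimension bound.** -/
theorem dim_bound (ρ : ℝ) (hρ0 : 0 < ρ) (r i0 : ℕ) (hr : r ≤ finrank ℝ (L.V ρ))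
    (h : (4 * (i0 : ℝ) + 4) * ρ ≤ 1) :
    ∃ x : Fin r → Γ, (∀ i, x i ∈ L.ball (2 * ρ)) ∧
      ∀ Y : Set Γ, Y.Finite →
        (∀ b ∈ L.ball ρ, ∀ c : Fin r → ℕ, ∑ i, c i ≤ i0 → b + ∑ i, c i • x i ∈ Y) →
        Set.ncard (L.ball ρ) * (i0 + r).choose r ≤ 2 ^ r * Set.ncard Y := by
  classical
  have hi0 : (0 : ℝ) ≤ i0 := Nat.cast_nonneg i0
  have hi0ρ : 0 ≤ (i0 : ℝ) * ρ := by positivity
  -- `r` independent vectors
  obtain ⟨v, hvE, hli, -, -⟩ := auerbach (L.ℓ '' L.ball ρ)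
    ((L.ball_finite ρ).image _) (d := finrank ℝ (L.V ρ)) rfl
  let v' : Fin r → ι → ℝ := fun i => v (Fin.castLE hr i)
  have hli' : LinearIndependent ℝ v' := hli.comp _ (Fin.castLE_injective hr)
  set U := Submodule.span ℝ (Set.range v') with hU
  have hUr : finrank ℝ U = r := by
    rw [hU, finrank_span_eq_card hli', Fintype.card_fin]
  let E : Set (ι → ℝ) := {w | (w ∈ L.Λ ∧ ‖w‖ ≤ 2 * ρ) ∧ w ∈ U}
  have hEfin : E.Finite := (L.disc (2 * ρ)).subset fun w hw => hw.1
  have hEspan : Submodule.span ℝ E = U := by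
    apply le_antisymm
    · rw [Submodule.span_le]
      exact fun w hw => hw.2
    · rw [hU, Submodule.span_le]
      rintro _ ⟨i, rfl⟩
      apply Submodule.subset_span
      obtain ⟨y, hy, hyv⟩ := hvE (Fin.castLE hr i)
      refine ⟨⟨?_, ?_⟩, Submodule.subset_span ⟨i, rfl⟩⟩
      · change v (Fin.castLE hr i) ∈ L.Λ
        rw [← hyv]; exact (L.mem_Λ y hy.1).1
      · change ‖v (Fin.castLE hr i)‖ ≤ 2 * ρ
        rw [← hyv]; linarith [hy.2]
  obtain ⟨u, huE, -, huspan, hcoord⟩ := auerbach E hEfin (d := r) (by rw [hEspan, hUr])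
  choose x hxB hxu using fun i => L.surj (u i) (huE i).1.1 ((huE i).1.2.trans (by nlinarith))
  have hunorm : ∀ i, ‖u i‖ ≤ 2 * ρ := fun i => (huE i).1.2
  refine ⟨x, fun i => ⟨hxB i, by rw [hxu]; exact hunorm i⟩, fun Y hY hYmem => ?_⟩
  -- local additivity
  have hadd : ∀ b ∈ L.ball ρ, ∀ c : Fin r → ℕ, ∑ i, c i ≤ i0 →
      L.ℓ (b + ∑ i, c i • x i) = L.ℓ b + ∑ i, (c i : ℝ) • u i := by
    intro b hb c hc
    have hc' : (∑ i, (c i : ℝ)) ≤ i0 := by exact_mod_cast hc
    have h1 : ∑ i, |((c i : ℤ) : ℝ)| * ‖L.ℓ (x i)‖ ≤ i0 * (2 * ρ) := by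
      calc ∑ i, |((c i : ℤ) : ℝ)| * ‖L.ℓ (x i)‖ ≤ ∑ i, (c i : ℝ) * (2 * ρ) := by
            refine Finset.sum_le_sum fun i _ => ?_
            rw [hxu, Int.cast_natCast, Nat.abs_cast]
            gcongr
            exact hunorm i
        _ = (∑ i, (c i : ℝ)) * (2 * ρ) := by rw [Finset.sum_mul]
        _ ≤ i0 * (2 * ρ) := by gcongr
    have h2 := L.sum_zsmul_mem Finset.univ x (fun i => (c i : ℤ)) (fun i _ => hxB i)
      (h1.trans (by nlinarith))
    simp only [natCast_zsmul, Int.cast_natCast, hxu] at h2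
    have h3 : ‖∑ i, (c i : ℝ) • u i‖ ≤ i0 * (2 * ρ) := by
      refine le_trans (norm_sum_le _ _) ?_
      refine le_trans (Finset.sum_le_sum fun i _ => ?_) h1
      rw [norm_smul, hxu, Int.cast_natCast, Nat.abs_cast, Real.norm_natCast]
    have h4 := L.add b hb.1 _ h2.1 (by
      rw [h2.2]
      refine le_trans (norm_add_le _ _) ?_
      linarith [hb.2])
    rw [h4.2, h2.2]
  -- the counting
  have hballfin := L.ball_finite ρ
  set S : Finset (Γ × (Fin r → ℕ)) := hballfin.toFinset ×ˢ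
    ((Fintype.piFinset fun _ : Fin r => Finset.range (i0 + 1)).filter
      fun c => ∑ i, c i ≤ i0) with hS
  have hSmem : ∀ p ∈ S, p.1 ∈ L.ball ρ ∧ ∑ i, p.2 i ≤ i0 := by
    intro p hp
    rw [hS, Finset.mem_product, Finset.mem_filter] at hp
    exact ⟨hballfin.mem_toFinset.mp hp.1, hp.2.2⟩
  let Φ : Γ × (Fin r → ℕ) → Γ := fun p => p.1 + ∑ i, p.2 i • x i
  have hmaps : ∀ p ∈ S, Φ p ∈ hY.toFinset := by
    intro p hp
    rw [hY.mem_toFinset]
    exact hYmem _ (hSmem p hp).1 _ (hSmem p hp).2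
  have hfib : ∀ y ∈ hY.toFinset, (S.filter fun p => Φ p = y).card ≤ 2 ^ r := by
    intro y _
    have h2 : (Fintype.card (Fin r → Fin 2)) = 2 ^ r := by simp
    rw [← h2, ← Finset.card_univ]
    refine Finset.card_le_card_of_injOn (fun p i => ⟨p.2 i % 2, Nat.mod_lt _ two_pos⟩)
      (fun p _ => Finset.mem_coe.mpr (Finset.mem_univ _)) ?_
    intro p hp q hq hpq
    rw [Finset.mem_coe, Finset.mem_filter] at hp hq
    obtain ⟨hb, hc⟩ := hSmem p hp.1
    obtain ⟨hb', hc'⟩ := hSmem q hq.1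
    have h3 : L.ℓ p.1 + ∑ i, (p.2 i : ℝ) • u i = L.ℓ q.1 + ∑ i, (q.2 i : ℝ) • u i := by
      rw [← hadd _ hb _ hc, ← hadd _ hb' _ hc']
      exact congrArg L.ℓ (hp.2.trans hq.2.symm)
    have h4 : ∑ i, (((q.2 i : ℤ) - (p.2 i : ℤ) : ℤ) : ℝ) • u i = L.ℓ p.1 - L.ℓ q.1 := by
      push_cast
      simp only [sub_smul, Finset.sum_sub_distrib]
      rw [sub_eq_sub_iff_add_eq_add, add_comm, ← h3]
    have h5 : L.ℓ p.1 - L.ℓ q.1 ∈ E := by
      refine ⟨⟨L.Λ.sub_mem (L.mem_Λ _ hb.1).1 (L.mem_Λ _ hb'.1).1, ?_⟩, ?_⟩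
      · refine le_trans (norm_sub_le _ _) ?_
        linarith [hb.2, hb'.2]
      · rw [← h4, ← hEspan, ← huspan]
        exact Submodule.sum_mem _ fun i _ =>
          Submodule.smul_mem _ _ (Submodule.subset_span ⟨i, rfl⟩)
    have h6 := hcoord (fun i => (((q.2 i : ℤ) - (p.2 i : ℤ) : ℤ) : ℝ)) (by rw [h4]; exact h5)
    have h7 : p.2 = q.2 := by
      funext i
      have h8 := h6 i
      have h9 : |((q.2 i : ℤ) - (p.2 i : ℤ))| ≤ 1 := by exact_mod_cast h8
      have h10 : p.2 i % 2 = q.2 i % 2 := congrArg Fin.val (congrFun hpq i)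
      rw [abs_le] at h9
      omega
    have h8 : p.1 = q.1 := by
      have h9 : p.1 + ∑ i, p.2 i • x i = q.1 + ∑ i, q.2 i • x i := hp.2.trans hq.2.symm
      rw [h7] at h9
      exact add_right_cancel h9
    exact Prod.ext h8 h7
  have hcount := Finset.card_le_mul_card_image_of_maps_to hmaps (2 ^ r) hfib
  rw [hS, Finset.card_product] at hcount
  have h1 : hballfin.toFinset.card = Set.ncard (L.ball ρ) :=
    (Set.ncard_eq_toFinset_card _ hballfin).symm
  have h2 : hY.toFinset.card = Set.ncard Y := (Set.ncard_eq_toFinset_card _ hY).symm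
  rw [h1, h2] at hcount
  exact le_trans (Nat.mul_le_mul_left _ (choose_le_card r i0)) hcount

end LocalGroup

end Pool.Agent.Lib.MP_dd2a7c_co
end

section

/-!
Small balls of a local group are centered convex coset progressions.
-/

namespace Pool.Agent.Lib.MP_dd2a7c_co

open Module

namespace LocalGroup

variable {Γ ι : Type*} [AddCommGroup Γ] [Fintype ι] (L : LocalGroup Γ ι)

/-- The lattice `Λ ∩ V ρ`, as a subgroup of `V ρ`. -/
def lat (ρ : ℝ) : Submodule ℤ (L.V ρ) :=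
  AddSubgroup.toIntSubmodule (L.Λ.comap (L.V ρ).subtype.toAddMonoidHom)

theorem mem_lat {ρ : ℝ} {w : L.V ρ} : w ∈ L.lat ρ ↔ (w : ι → ℝ) ∈ L.Λ := Iff.rfl

theorem exists_isolated : ∃ δ > 0, ∀ v ∈ L.Λ, ‖v‖ < δ → v = 0 := by
  classical
  have hfin : {v : ι → ℝ | (v ∈ L.Λ ∧ ‖v‖ ≤ 1) ∧ v ≠ 0}.Finite :=
    (L.disc 1).subset (fun v hv => hv.1)
  rcases Set.eq_empty_or_nonempty {v : ι → ℝ | (v ∈ L.Λ ∧ ‖v‖ ≤ 1) ∧ v ≠ 0} with h | h
  · refine ⟨1, one_pos, fun v hv hv1 => ?_⟩
    by_contra hne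
    have : v ∈ {v : ι → ℝ | (v ∈ L.Λ ∧ ‖v‖ ≤ 1) ∧ v ≠ 0} := ⟨⟨hv, hv1.le⟩, hne⟩
    rw [h] at this
    exact this
  · obtain ⟨v₀, hv₀, hmin⟩ := Set.exists_min_image _ (fun v => ‖v‖) hfin h
    refine ⟨‖v₀‖, norm_pos_iff.mpr hv₀.2, fun v hv hv1 => ?_⟩
    by_contra hne
    have h1 := hmin v ⟨⟨hv, hv1.le.trans hv₀.1.2⟩, hne⟩
    linarith

instance instDiscreteLat (ρ : ℝ) : DiscreteTopology (L.lat ρ) := by
  obtain ⟨δ, hδ, hiso⟩ := L.exists_isolated
  apply discreteTopology_of_isOpen_singleton_zero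
  rw [Metric.isOpen_singleton_iff]
  refine ⟨δ, hδ, fun w hw => ?_⟩
  have h1 : ‖((w : L.V ρ) : ι → ℝ)‖ < δ := by
    rw [dist_zero_right] at hw
    exact hw
  have h2 := hiso _ w.2 h1
  exact Subtype.ext (Subtype.ext h2)

instance instIsZLatticeLat (ρ : ℝ) : IsZLattice ℝ (L.lat ρ) where
  span_top := by
    have h1 : Submodule.span ℝ (((↑) : L.V ρ → ι → ℝ) ⁻¹' (L.ℓ '' L.ball ρ)) = ⊤ := by
      have := Submodule.span_span_coe_preimage (R := ℝ) (s := L.ℓ '' L.ball ρ)
      exact this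
    rw [eq_top_iff, ← h1]
    refine Submodule.span_mono ?_
    rintro w ⟨x, hx, hxw⟩
    change (w : ι → ℝ) ∈ L.Λ
    rw [← hxw]
    exact (L.mem_Λ x hx.1).1

theorem finrank_lat (ρ : ℝ) : finrank ℤ (L.lat ρ) = finrank ℝ (L.V ρ) :=
  ZLattice.rank ℝ (L.lat ρ)

/-- A `ℤ`-basis of the lattice `Λ ∩ V ρ`. -/
noncomputable def latBasis (ρ : ℝ) : Basis (Fin (finrank ℝ (L.V ρ))) ℤ (L.lat ρ) :=
  have : Module.Finite ℤ (L.lat ρ) := ZLattice.module_finite ℝ (L.lat ρ)
  have : Module.Free ℤ (L.lat ρ) := ZLattice.module_free ℝ (L.lat ρ)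
  finBasisOfFinrankEq ℤ (L.lat ρ) (L.finrank_lat ρ)

/-- The linear parametrisation of `V ρ` by the lattice basis. -/
noncomputable def param (ρ : ℝ) : (Fin (finrank ℝ (L.V ρ)) → ℝ) ≃L[ℝ] L.V ρ :=
  ((L.latBasis ρ).ofZLatticeBasis ℝ (L.lat ρ)).equivFun.symm.toContinuousLinearEquiv

theorem param_intCast (ρ : ℝ) (c : Fin (finrank ℝ (L.V ρ)) → ℤ) :
    L.param ρ (fun i => (c i : ℝ)) = (((L.latBasis ρ).equivFun.symm c : L.lat ρ) : L.V ρ) := by
  have h1 : L.param ρ (fun i => (c i : ℝ)) =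
      ∑ i, (c i : ℝ) • ((L.latBasis ρ).ofZLatticeBasis ℝ (L.lat ρ)) i := by
    simp only [param, LinearEquiv.coe_toContinuousLinearEquiv', Basis.equivFun_symm_apply]
  rw [h1, Basis.equivFun_symm_apply, Submodule.coe_sum]
  refine Finset.sum_congr rfl fun i _ => ?_
  rw [Basis.ofZLatticeBasis_apply]
  exact Int.cast_smul_eq_zsmul ℝ (c i) ((L.latBasis ρ i : L.lat ρ) : L.V ρ)

/-- Data for the homomorphism. -/
theorem exists_hom (ρ : ℝ) (hρ0 : 0 < ρ) (hρ : 2 * ((finrank ℝ (L.V ρ) : ℝ) * ρ) ≤ 1)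
    (hρ1 : ρ ≤ 1) :
    ∃ ψ : L.lat ρ →+ Γ ⧸ L.ker, ∀ y ∈ L.ball ρ, ∀ w : L.lat ρ,
      ((w : L.V ρ) : ι → ℝ) = L.ℓ y → ψ w = QuotientAddGroup.mk y := by
  obtain ⟨v, hvE, hli, hspan, hcoord⟩ := auerbach (L.ℓ '' L.ball ρ)
    ((L.ball_finite ρ).image _) (d := finrank ℝ (L.V ρ)) rfl
  choose x hx hxv using hvE
  have hvV : ∀ i, v i ∈ L.V ρ := fun i => Submodule.subset_span ⟨x i, hx i, hxv i⟩
  have hli' : LinearIndependent ℝ (fun i => (⟨v i, hvV i⟩ : L.V ρ)) := by
    apply LinearIndependent.of_comp (L.V ρ).subtype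
    exact hli
  have hspan' : Submodule.span ℝ (Set.range fun i => (⟨v i, hvV i⟩ : L.V ρ)) = ⊤ :=
    hli'.span_eq_top_of_card_eq_finrank' (by rw [Fintype.card_fin])
  let bV : Basis (Fin (finrank ℝ (L.V ρ))) ℝ (L.V ρ) := Basis.mk hli' hspan'.ge
  have hbV : ∀ i, (bV i : ι → ℝ) = v i := fun i => by simp [bV]
  have hv : ∀ i, ‖v i‖ ≤ ρ := fun i => by rw [← hxv i]; exact (hx i).2
  have hxB : ∀ i, x i ∈ L.B := fun i => (hx i).1
  have h0 : L.ψ v x bV 0 = 0 := by
    have := L.ψ_add hbV hv hxB hxv hρ hρ0.le 0 0 L.Λ.zero_mem L.Λ.zero_mem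
    rw [add_zero] at this
    exact left_eq_add.mp this
  let f : L.lat ρ →+ Γ ⧸ L.ker :=
    { toFun := fun w => L.ψ v x bV w
      map_zero' := h0
      map_add' := fun w w' => L.ψ_add hbV hv hxB hxv hρ hρ0.le w w' w.2 w'.2 }
  refine ⟨f, fun y hy w hw => ?_⟩
  refine L.ψ_ℓ hbV hv hxB hxv hρ hρ0.le y hy.1 w hw (hcoord _ ?_)
  have h1 : ∑ i, bV.repr (w : L.V ρ) i • v i = ((w : L.V ρ) : ι → ℝ) := by
    conv_rhs => rw [← bV.sum_repr (w : L.V ρ)]
    rw [Submodule.coe_sum]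
    refine Finset.sum_congr rfl fun i _ => ?_
    rw [Submodule.coe_smul, hbV]
  rw [h1, hw]
  exact ⟨y, hy, rfl⟩

/-- **Balls of local groups are centered convex coset progressions.** -/
theorem exists_prog (ρ : ℝ) (hρ0 : 0 < ρ) (h : 3 * ((finrank ℝ (L.V ρ) : ℝ) + 1) * ρ ≤ 1) :
    ∃ Q : CosetProg Γ, Q.base = 0 ∧ Q.dim = finrank ℝ (L.V ρ) ∧ Q.carrier = L.ball ρ ∧
      Q.vol = Set.ncard (L.ball ρ) := by
  classical
  set d := finrank ℝ (L.V ρ) with hd
  have hd0 : (0 : ℝ) ≤ d := Nat.cast_nonneg d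
  have hdρ : 0 ≤ (d : ℝ) * ρ := by positivity
  have hρ1 : ρ ≤ 1 := by nlinarith
  have hρ2 : 2 * ((d : ℝ) * ρ) ≤ 1 := by nlinarith
  obtain ⟨ψ, hψ⟩ := L.exists_hom ρ hρ0 hρ2 hρ1
  -- lift to `Γ`
  have hsurj : Function.Surjective (QuotientAddGroup.mk : Γ → Γ ⧸ L.ker) :=
    QuotientAddGroup.mk_surjective
  choose g hg using fun i => hsurj (ψ (L.latBasis ρ i))
  let hom : (Fin d → ℤ) →+ Γ :=
    { toFun := fun c => ∑ i, c i • g i
      map_zero' := by simp
      map_add' := fun c c' => by simp [add_smul, Finset.sum_add_distrib] }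
  have hhom : ∀ c : Fin d → ℤ, (QuotientAddGroup.mk (hom c) : Γ ⧸ L.ker) =
      ψ ((L.latBasis ρ).equivFun.symm c) := by
    intro c
    rw [Basis.equivFun_symm_apply, map_sum]
    change (QuotientAddGroup.mk (∑ i, c i • g i) : Γ ⧸ L.ker) = _
    rw [QuotientAddGroup.mk_sum]
    refine Finset.sum_congr rfl fun i _ => ?_
    rw [map_zsmul, ← hg i]
    rfl
  let Q : CosetProg Γ :=
    { dim := d
      body := (L.param ρ) ⁻¹' Metric.closedBall 0 ρ
      isCompact_body := by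
        have := (L.param ρ).toHomeomorph.isCompact_preimage.mpr
          (isCompact_closedBall (0 : L.V ρ) ρ)
        exact this
      convex_body := (convex_closedBall (0 : L.V ρ) ρ).linear_preimage
        (L.param ρ).toLinearEquiv.toLinearMap
      interior_nonempty := by
        refine ⟨0, mem_interior.mpr ⟨(L.param ρ) ⁻¹' Metric.ball 0 ρ,
          Set.preimage_mono Metric.ball_subset_closedBall,
          Metric.isOpen_ball.preimage (L.param ρ).continuous, ?_⟩⟩
        simp [hρ0]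
      neg_mem_body := fun y hy => by
        simp only [Set.mem_preimage, map_neg, mem_closedBall_zero_iff, norm_neg] at hy ⊢
        exact hy
      base := 0
      hom := hom
      sub := L.ker
      finite_sub := L.ker_finite }
  -- points of the body
  have hpts : ∀ c : Fin d → ℤ, (Q.points : Set (Fin d → ℤ)) c ↔
      ‖((((L.latBasis ρ).equivFun.symm c : L.lat ρ) : L.V ρ) : ι → ℝ)‖ ≤ ρ := by
    intro c
    change L.param ρ (fun i => (c i : ℝ)) ∈ Metric.closedBall 0 ρ ↔ _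
    rw [param_intCast, mem_closedBall_zero_iff]
    rfl
  -- the elements above a lattice point
  have hover : ∀ c : Fin d → ℤ, (Q.points : Set (Fin d → ℤ)) c → ∀ k ∈ L.ker,
      hom c + k ∈ L.ball ρ ∧ L.ℓ (hom c + k) =
        ((((L.latBasis ρ).equivFun.symm c : L.lat ρ) : L.V ρ) : ι → ℝ) := by
    intro c hc k hk
    have hc' := (hpts c).mp hc
    set w := (L.latBasis ρ).equivFun.symm c with hw
    obtain ⟨y, hy, hyw⟩ := L.surj _ w.2 (hc'.trans hρ1)
    have hyball : y ∈ L.ball ρ := ⟨hy, by rw [hyw]; exact hc'⟩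
    have h1 := hψ y hyball w hyw.symm
    have h2 : (QuotientAddGroup.mk y : Γ ⧸ L.ker) = QuotientAddGroup.mk (hom c) := by
      rw [hhom, ← h1]
    rw [QuotientAddGroup.eq] at h2
    have h3 : hom c + k = y + ((-y + hom c) + k) := by abel
    have h4 : (-y + hom c) + k ∈ L.ker := L.ker.add_mem h2 hk
    have h5 := L.add y hy _ h4.1 (by rw [h4.2, add_zero]; exact (L.mem_Λ y hy).2)
    rw [h3, h5.2, h4.2, add_zero, hyw]
    refine ⟨⟨h5.1, ?_⟩, rfl⟩
    rw [h5.2, h4.2, add_zero, hyw]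
    exact hc'
  -- every element of the ball is above a lattice point
  have hunder : ∀ y ∈ L.ball ρ, ∃ c : Fin d → ℤ, (Q.points : Set (Fin d → ℤ)) c ∧
      ∃ k ∈ L.ker, y = hom c + k := by
    intro y hy
    let w : L.lat ρ := ⟨⟨L.ℓ y, Submodule.subset_span ⟨y, hy, rfl⟩⟩, (L.mem_Λ y hy.1).1⟩
    have hwc : (L.latBasis ρ).equivFun.symm ((L.latBasis ρ).equivFun w) = w :=
      LinearEquiv.symm_apply_apply _ _
    refine ⟨(L.latBasis ρ).equivFun w, ?_, -(hom ((L.latBasis ρ).equivFun w)) + y, ?_, ?_⟩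
    · rw [hpts, hwc]
      exact hy.2
    · rw [← QuotientAddGroup.eq, hhom, hwc]
      exact hψ y hy w rfl
    · abel
  have hcarrier : Q.carrier = L.ball ρ := by
    ext y
    constructor
    · rintro ⟨c, hc, k, hk, rfl⟩
      change (0 : Γ) + hom c + k ∈ _
      rw [zero_add]
      exact (hover c hc k hk).1
    · intro hy
      obtain ⟨c, hc, k, hk, hyk⟩ := hunder y hy
      refine ⟨c, hc, k, hk, ?_⟩
      change y = (0 : Γ) + hom c + k
      rw [zero_add]
      exact hyk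
  refine ⟨Q, rfl, rfl, hcarrier, ?_⟩
  -- volume
  have hinj : Function.Injective (fun c : Fin d → ℤ =>
      ((((L.latBasis ρ).equivFun.symm c : L.lat ρ) : L.V ρ) : ι → ℝ)) := by
    intro c c' hcc
    exact (L.latBasis ρ).equivFun.symm.injective (Subtype.ext (Subtype.ext hcc))
  have hkerfin : Finite L.ker := L.ker_finite
  let F : L.ker × (Q.points : Set (Fin d → ℤ)) → L.ball ρ := fun p =>
    ⟨hom p.2.1 + p.1.1, (hover p.2.1 p.2.2 p.1.1 p.1.2).1⟩
  have hF : Function.Bijective F := by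
    constructor
    · rintro ⟨⟨k, hk⟩, ⟨c, hc⟩⟩ ⟨⟨k', hk'⟩, ⟨c', hc'⟩⟩ heq
      have h1 : hom c + k = hom c' + k' := congrArg Subtype.val heq
      have h2 := (hover c hc k hk).2
      have h3 := (hover c' hc' k' hk').2
      have h4 : c = c' := hinj (h2.symm.trans ((congrArg L.ℓ h1).trans h3))
      subst h4
      have h5 := add_left_cancel h1
      subst h5
      rfl
    · rintro ⟨y, hy⟩
      obtain ⟨c, hc, k, hk, hyk⟩ := hunder y hy
      exact ⟨(⟨k, hk⟩, ⟨c, hc⟩), Subtype.ext hyk.symm⟩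
  have hcard := Nat.card_congr (Equiv.ofBijective F hF)
  rw [Nat.card_prod] at hcard
  exact hcard

end LocalGroup

end Pool.Agent.Lib.MP_dd2a7c_co
end

section

/-!
A local group from a Bohr set of a finite quotient.
-/

set_option autoImplicit false

open Finset

namespace Pool.Agent.Lib.MP_dd2a7c_co

section args

lemma norm_one_sub_le_abs_arg {z : ℂ} (hz : ‖z‖ = 1) : ‖1 - z‖ ≤ |z.arg| := by
  have hz0 : z ≠ 0 := by
    intro h; rw [h, norm_zero] at hz; exact zero_ne_one hz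
  have h := Complex.norm_sub_mem_Icc_angle (x := 1) (y := z) norm_one hz
  have h2 : InnerProductGeometry.angle (1 : ℂ) z = |z.arg| := Complex.angle_one_left hz0
  rw [h2] at h
  exact h.2

lemma abs_arg_le {z : ℂ} (hz : ‖z‖ = 1) : |z.arg| ≤ Real.pi / 2 * ‖1 - z‖ := by
  have hz0 : z ≠ 0 := by
    intro h; rw [h, norm_zero] at hz; exact zero_ne_one hz
  have h := Complex.norm_sub_mem_Icc_angle (x := 1) (y := z) norm_one hz
  have h2 : InnerProductGeometry.angle (1 : ℂ) z = |z.arg| := Complex.angle_one_left hz0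
  rw [h2] at h
  have h3 := h.1
  have hpi := Real.pi_pos
  have h4 : |z.arg| = Real.pi / 2 * (2 / Real.pi * |z.arg|) := by field_simp
  rw [h4]
  gcongr

lemma exp_arg {z : ℂ} (hz : ‖z‖ = 1) : Complex.exp (z.arg * Complex.I) = z := by
  have h := Complex.norm_mul_exp_arg_mul_I z
  rw [hz] at h
  simpa using h

lemma arg_exp_of_abs_le {θ : ℝ} (h : |θ| ≤ 1) : (Complex.exp (θ * Complex.I)).arg = θ := by
  rw [Complex.exp_mul_I]
  apply Complex.arg_cos_add_sin_mul_I
  have h1 := abs_le.mp h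
  have := Real.pi_gt_three
  constructor <;> linarith [h1.1, h1.2]

lemma norm_exp_mul_I (θ : ℝ) : ‖Complex.exp (θ * Complex.I)‖ = 1 := by
  exact Complex.norm_exp_ofReal_mul_I θ

end args

section

variable {G : Type*} [AddCommGroup G] [Fintype G]

/-- The lattice of arguments of a finite set of characters. -/
noncomputable def argLattice (Φ : Finset (AddChar G ℂ)) : AddSubgroup (Φ → ℝ) where
  carrier := {v | ∃ g : G, ∀ γ : Φ, Complex.exp (v γ * Complex.I) = γ.1 g}
  zero_mem' := ⟨0, fun γ => by simp⟩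
  add_mem' := by
    rintro v w ⟨g, hg⟩ ⟨h, hh⟩
    refine ⟨g + h, fun γ => ?_⟩
    rw [AddChar.map_add_eq_mul, ← hg, ← hh, ← Complex.exp_add]
    congr 1
    simp only [Pi.add_apply]
    push_cast
    ring
  neg_mem' := by
    rintro v ⟨g, hg⟩
    refine ⟨-g, fun γ => ?_⟩
    have h1 : γ.1 g * γ.1 (-g) = 1 := by
      rw [← AddChar.map_add_eq_mul, add_neg_cancel, AddChar.map_zero_eq_one]
    have h2 : Complex.exp (v γ * Complex.I) * Complex.exp (((-v) γ : ℝ) * Complex.I) = 1 := by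
      rw [← Complex.exp_add]
      simp only [Pi.neg_apply]
      push_cast
      rw [neg_mul, add_neg_cancel, Complex.exp_zero]
    rw [← hg] at h1
    exact mul_left_cancel₀ (Complex.exp_ne_zero _) (h2.trans h1.symm)

theorem mem_argLattice {Φ : Finset (AddChar G ℂ)} {v : Φ → ℝ} :
    v ∈ argLattice Φ ↔ ∃ g : G, ∀ γ : Φ, Complex.exp (v γ * Complex.I) = γ.1 g := Iff.rfl

theorem argLattice_finite (Φ : Finset (AddChar G ℂ)) (R : ℝ) :
    {v : Φ → ℝ | v ∈ argLattice Φ ∧ ‖v‖ ≤ R}.Finite := by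
  set n : ℕ := Fintype.card G with hn
  have hn0 : 0 < n := Fintype.card_pos
  have hn0' : (0 : ℝ) < n := by exact_mod_cast hn0
  set t : Set ℝ := {x : ℝ | (∃ k : ℤ, x = 2 * Real.pi * k / n) ∧ |x| ≤ R} with ht
  have htfin : t.Finite := by
    have hsub : t ⊆ (fun k : ℤ => 2 * Real.pi * (k : ℝ) / n) ''
        (Set.Icc (-⌈n * R⌉) ⌈n * R⌉) := by
      rintro x ⟨⟨k, hk⟩, hx⟩
      refine ⟨k, ?_, hk.symm⟩
      have hpi := Real.pi_gt_three
      have h1 : |(k : ℝ)| ≤ n * R := by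
        have h2 : |x| = 2 * Real.pi * |(k : ℝ)| / n := by
          rw [hk, abs_div, abs_mul, abs_of_pos (by positivity : (0 : ℝ) < 2 * Real.pi),
            abs_of_pos hn0']
        rw [h2, div_le_iff₀ hn0'] at hx
        have h3 : 0 ≤ |(k : ℝ)| := abs_nonneg _
        nlinarith
      have h2 := abs_le.mp h1
      have h3 : (k : ℝ) ≤ (⌈n * R⌉ : ℤ) := h2.2.trans (Int.le_ceil _)
      have h4 : ((-⌈n * R⌉ : ℤ) : ℝ) ≤ k := by
        push_cast
        have := Int.le_ceil (n * R)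
        linarith [h2.1]
      exact ⟨by exact_mod_cast h4, by exact_mod_cast h3⟩
    exact ((Set.finite_Icc _ _).image _).subset hsub
  refine (Set.Finite.pi' (fun _ : Φ => htfin)).subset ?_
  rintro v ⟨⟨g, hg⟩, hv⟩ γ
  refine ⟨?_, (norm_le_pi_norm v γ).trans hv⟩
  have h1 : Complex.exp (v γ * Complex.I) ^ n = 1 := by
    rw [hg, ← AddChar.map_nsmul_eq_pow, hn, card_nsmul_eq_zero, AddChar.map_zero_eq_one]
  rw [← Complex.exp_nat_mul, Complex.exp_eq_one_iff] at h1
  obtain ⟨k, hk⟩ := h1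
  refine ⟨k, ?_⟩
  have h2 : ((n : ℂ) * v γ) * Complex.I = ((k : ℂ) * (2 * Real.pi)) * Complex.I := by
    rw [mul_assoc, hk]; ring
  have h3 := mul_right_cancel₀ Complex.I_ne_zero h2
  have h4 : (n : ℝ) * v γ = k * (2 * Real.pi) := by exact_mod_cast h3
  field_simp
  linarith

variable {Γ : Type*} [AddCommGroup Γ] [DecidableEq Γ]

/-- The local group of a Bohr set. -/
noncomputable def bohrLocal (S : Finset Γ) (M : ℕ) (h0 : 0 ∈ S)
    (hneg : ∀ x ∈ S, -x ∈ S) (p : Γ → G) (Φ : Finset (AddChar G ℂ))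
    (hp0 : p 0 = 0)
    (hpadd : ∀ x ∈ itSum M S, ∀ y ∈ itSum M S, p (x + y) = p x + p y)
    (hpinj : ∀ x ∈ itSum (2 * M) S, ∀ y ∈ itSum (2 * M) S, p x = p y → x = y)
    (hΦ : ∀ g : G, (∀ γ ∈ Φ, ‖1 - γ g‖ ≤ 1) → ∃ x ∈ itSum M S, p x = g) :
    LocalGroup Γ Φ where
  B := {x | x ∈ itSum M S ∧ ∀ γ ∈ Φ, |(γ (p x)).arg| ≤ 1}
  fin := (itSum M S).finite_toSet.subset fun x hx => hx.1
  ℓ := fun x γ => (γ.1 (p x)).arg
  Λ := argLattice Φ
  disc := argLattice_finite Φ
  zero_mem := ⟨zero_mem_itSum M h0, fun γ _ => by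
    rw [hp0, AddChar.map_zero_eq_one, Complex.arg_one, abs_zero]; exact zero_le_one⟩
  neg_mem := by
    rintro x ⟨hx, hx1⟩
    have hnx := neg_mem_itSum M hneg x hx
    have h1 : p (-x) = -p x := by
      have := hpadd x hx (-x) hnx
      rw [add_neg_cancel, hp0] at this
      exact (neg_eq_of_add_eq_zero_right this.symm).symm
    have h2 : ∀ γ ∈ Φ, (γ (p (-x))).arg = -(γ (p x)).arg := by
      intro γ hγ
      have h3 : γ (p (-x)) = Complex.exp (((-(γ (p x)).arg : ℝ)) * Complex.I) := by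
        rw [h1]
        have h4 : γ (p x) * γ (-p x) = 1 := by
          rw [← AddChar.map_add_eq_mul, add_neg_cancel, AddChar.map_zero_eq_one]
        have h5 : γ (p x) * Complex.exp (((-(γ (p x)).arg : ℝ)) * Complex.I) = 1 := by
          nth_rewrite 1 [← exp_arg (AddChar.norm_apply γ (p x))]
          rw [← Complex.exp_add]
          push_cast
          rw [neg_mul, add_neg_cancel, Complex.exp_zero]
        have h6 : γ (p x) ≠ 0 := by
          intro h; rw [h, zero_mul] at h4; exact zero_ne_one h4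
        exact mul_left_cancel₀ h6 (h4.trans h5.symm)
      rw [h3]
      apply arg_exp_of_abs_le
      rw [abs_neg]
      exact hx1 γ hγ
    refine ⟨⟨hnx, fun γ hγ => ?_⟩, ?_⟩
    · rw [h2 γ hγ, abs_neg]; exact hx1 γ hγ
    · funext γ
      exact h2 γ.1 γ.2
  mem_Λ := by
    rintro x ⟨hx, hx1⟩
    refine ⟨⟨p x, fun γ => exp_arg (AddChar.norm_apply γ.1 (p x))⟩, ?_⟩
    rw [pi_norm_le_iff_of_nonneg zero_le_one]
    intro γ
    exact hx1 γ.1 γ.2
  surj := by
    rintro v ⟨g, hg⟩ hv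
    have hvγ : ∀ γ : Φ, |v γ| ≤ 1 := fun γ => (norm_le_pi_norm v γ).trans hv
    have h1 : ∀ γ : Φ, (γ.1 g).arg = v γ := by
      intro γ
      rw [← hg γ]
      exact arg_exp_of_abs_le (hvγ γ)
    obtain ⟨x, hx, hxg⟩ := hΦ g (fun γ hγ => by
      refine (norm_one_sub_le_abs_arg (AddChar.norm_apply γ g)).trans ?_
      rw [h1 ⟨γ, hγ⟩]
      exact hvγ _)
    refine ⟨x, ⟨hx, fun γ hγ => ?_⟩, ?_⟩
    · rw [hxg, h1 ⟨γ, hγ⟩]; exact hvγ _
    · funext γ
      rw [hxg]; exact h1 γ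
  add := by
    rintro x ⟨hx, hx1⟩ y ⟨hy, hy1⟩ hxy
    have hvγ : ∀ γ : Φ, |(γ.1 (p x)).arg + (γ.1 (p y)).arg| ≤ 1 :=
      fun γ => (norm_le_pi_norm (fun γ : Φ => (γ.1 (p x)).arg + (γ.1 (p y)).arg) γ).trans hxy
    have h1 : ∀ γ : Φ, (γ.1 (p (x + y))).arg = (γ.1 (p x)).arg + (γ.1 (p y)).arg := by
      intro γ
      have h2 : γ.1 (p (x + y)) =
          Complex.exp ((((γ.1 (p x)).arg + (γ.1 (p y)).arg : ℝ)) * Complex.I) := by
        rw [hpadd x hx y hy, AddChar.map_add_eq_mul]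
        push_cast
        rw [add_mul, Complex.exp_add, exp_arg (AddChar.norm_apply γ.1 (p x)),
          exp_arg (AddChar.norm_apply γ.1 (p y))]
      rw [h2]
      exact arg_exp_of_abs_le (hvγ γ)
    obtain ⟨z, hz, hzg⟩ := hΦ (p (x + y)) (fun γ hγ => by
      refine (norm_one_sub_le_abs_arg (AddChar.norm_apply γ _)).trans ?_
      rw [h1 ⟨γ, hγ⟩]
      exact hvγ _)
    have hzxy : z = x + y := by
      refine hpinj z (itSum_subset_of_le (by omega) h0 hz) (x + y) ?_ hzg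
      rw [two_mul]
      exact add_mem_itSum hx hy
    refine ⟨⟨hzxy ▸ hz, fun γ hγ => ?_⟩, ?_⟩
    · rw [h1 ⟨γ, hγ⟩]; exact hvγ _
    · funext γ
      exact h1 γ

end

end Pool.Agent.Lib.MP_dd2a7c_co
end

section

/-!
Slow growth of the iterated sumsets of a symmetric set implies that the set is contained in a
centered convex coset progression of small dimension and volume.
-/

set_option autoImplicit false

open Finset Module

namespace Pool.Agent.Lib.MP_dd2a7c_co

/-- A partially additive map to a finite group which is injective on a given finite set. -/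
theorem exists_proj {Γ : Type*} [AddCommGroup Γ] (P : Finset Γ) :
    ∃ (G : Type) (_ : AddCommGroup G) (_ : Fintype G) (p : Γ → G),
      (∀ x ∈ AddSubgroup.closure (P : Set Γ), ∀ y ∈ AddSubgroup.closure (P : Set Γ),
        p (x + y) = p x + p y) ∧
      ∀ x ∈ P, ∀ y ∈ P, p x = p y → x = y := by
  classical
  obtain ⟨G, i1, i2, π, hπ⟩ := exists_finite_quotient P
  refine ⟨G, i1, i2, fun x => if h : x ∈ AddSubgroup.closure (P : Set Γ) then π ⟨x, h⟩ else 0,
    ?_, ?_⟩
  · intro x hx y hy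
    have hxy := add_mem hx hy
    simp only [dif_pos hx, dif_pos hy, dif_pos hxy]
    rw [← map_add]
    rfl
  · intro x hx y hy hxy
    have hx' : x ∈ AddSubgroup.closure (P : Set Γ) :=
      AddSubgroup.subset_closure (by exact_mod_cast hx)
    have hy' : y ∈ AddSubgroup.closure (P : Set Γ) :=
      AddSubgroup.subset_closure (by exact_mod_cast hy)
    simp only [dif_pos hx', dif_pos hy'] at hxy
    exact congrArg Subtype.val (hπ ⟨x, hx'⟩ ⟨y, hy'⟩ hx hy hxy)

/-- Transfer to a finite quotient and construction of the local group. -/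
theorem exists_localGroup {Γ : Type*} [AddCommGroup Γ] [DecidableEq Γ] (S : Finset Γ)
    (h0 : 0 ∈ S) (hneg : ∀ x ∈ S, -x ∈ S) (κ δ : ℝ) (hκ : 1 ≤ κ) (hδ : 0 < δ) (hδ1 : δ ≤ 1)
    (hδ2 : Real.pi / 2 * (4 * δ) ≤ 1) (n0 m N : ℕ) (hn0 : 2 * κ / δ ≤ n0) (hm : κ + 3 ≤ m) (hN : 4 * n0 * m ≤ N)
    (hg : ((itSum N S).card : ℝ) ≤ Real.exp κ * S.card) :
    ∃ (ι : Type) (_ : Fintype ι) (L : LocalGroup Γ ι),
      (∀ x ∈ L.B, x ∈ itSum (4 * n0 * m) S) ∧
      ∀ s ∈ S, s ∈ L.B ∧ ‖L.ℓ s‖ ≤ Real.pi / 2 * (4 * δ) := by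
  classical
  have hn0' : (2 : ℝ) ≤ n0 := by
    refine le_trans ?_ hn0
    rw [le_div_iff₀ hδ]
    nlinarith
  have hn0'' : 2 ≤ n0 := by exact_mod_cast hn0'
  have hm4' : (4 : ℝ) ≤ m := by linarith
  have hm4 : 4 ≤ m := by exact_mod_cast hm4'
  set M : ℕ := 4 * n0 * m with hM
  have hM1 : 1 ≤ M := by
    have : 0 < 4 * n0 * m := by positivity
    omega
  obtain ⟨G, _, _, p, hpadd, hpinj⟩ := exists_proj (itSum (2 * M) S)
  set Δ := AddSubgroup.closure ((itSum (2 * M) S : Finset Γ) : Set Γ) with hΔ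
  have hSΔ : ∀ x ∈ S, x ∈ Δ := fun x hx =>
    AddSubgroup.subset_closure (by exact_mod_cast subset_itSum (by omega) h0 hx)
  have hjΔ : ∀ j : ℕ, ∀ x ∈ itSum j S, x ∈ Δ := by
    intro j x hx
    have h1 := itSum_subset_closure j S x hx
    have h2 : AddSubgroup.closure (S : Set Γ) ≤ Δ := by
      rw [AddSubgroup.closure_le]
      intro y hy
      exact hSΔ y (by exact_mod_cast hy)
    exact h2 h1
  have hp0 : p 0 = 0 := by
    have := hpadd 0 Δ.zero_mem 0 Δ.zero_mem
    rw [add_zero] at this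
    exact left_eq_add.mp this
  set SG : Finset G := S.image p with hSG
  have himg : ∀ j : ℕ, itSum j SG = (itSum j S).image p := by
    intro j
    induction j with
    | zero => simp [hp0]
    | succ j ih =>
      rw [itSum_succ, itSum_succ, ih, hSG]
      ext g
      simp only [mem_add, mem_image]
      constructor
      · rintro ⟨_, ⟨x, hx, rfl⟩, _, ⟨y, hy, rfl⟩, rfl⟩
        exact ⟨x + y, ⟨x, hx, y, hy, rfl⟩, hpadd x (hjΔ j x hx) y (hSΔ y hy)⟩
      · rintro ⟨_, ⟨x, hx, y, hy, rfl⟩, rfl⟩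
        exact ⟨p x, ⟨x, hx, rfl⟩, p y, ⟨y, hy, rfl⟩, (hpadd x (hjΔ j x hx) y (hSΔ y hy)).symm⟩
  have hSGcard : SG.card = S.card := by
    rw [hSG]
    apply Finset.card_image_of_injOn
    intro x hx y hy hxy
    exact hpinj x (subset_itSum (by omega) h0 (by exact_mod_cast hx)) y
      (subset_itSum (by omega) h0 (by exact_mod_cast hy)) hxy
  have h0G : (0 : G) ∈ SG := by
    rw [hSG, mem_image]; exact ⟨0, h0, hp0⟩
  have hpneg : ∀ x ∈ Δ, p (-x) = -p x := by
    intro x hx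
    have := hpadd x hx (-x) (Δ.neg_mem hx)
    rw [add_neg_cancel, hp0] at this
    exact (neg_eq_of_add_eq_zero_right this.symm).symm
  have hnegG : ∀ g ∈ SG, -g ∈ SG := by
    intro g hg'
    rw [hSG, mem_image] at hg' ⊢
    obtain ⟨x, hx, rfl⟩ := hg'
    exact ⟨-x, hneg x hx, hpneg x (hSΔ x hx)⟩
  have hgG : ((itSum N SG).card : ℝ) ≤ Real.exp κ * SG.card := by
    rw [hSGcard, himg]
    refine le_trans ?_ hg
    exact_mod_cast card_image_le
  obtain ⟨Φ, hΦ1, hΦ2⟩ := exists_spec SG h0G hnegG κ δ hκ hδ hδ1 n0 m N hn0 hm hN hgG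
  have hΦ2' : ∀ g : G, (∀ γ ∈ Φ, ‖1 - γ g‖ ≤ 1) → ∃ x ∈ itSum M S, p x = g := by
    intro g hg'
    have := hΦ2 g hg'
    rw [← hM, himg, mem_image] at this
    exact this
  refine ⟨Φ, inferInstance, bohrLocal S M h0 hneg p Φ hp0
    (fun x hx y hy => hpadd x (hjΔ M x hx) y (hjΔ M y hy)) hpinj hΦ2', ?_, ?_⟩
  · intro x hx
    exact hx.1
  · intro s hs
    have hargs : ∀ γ ∈ Φ, |(γ (p s)).arg| ≤ Real.pi / 2 * (4 * δ) := by
      intro γ hγ
      refine (abs_arg_le (AddChar.norm_apply γ (p s))).trans ?_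
      have := hΦ1 γ hγ (p s) (by rw [hSG, mem_image]; exact ⟨s, hs, rfl⟩)
      have hpi := Real.pi_pos
      gcongr
    refine ⟨⟨subset_itSum hM1 h0 hs, fun γ hγ => (hargs γ hγ).trans hδ2⟩, ?_⟩
    rw [pi_norm_le_iff_of_nonneg (by have := Real.pi_pos; positivity)]
    intro γ
    exact hargs γ.1 γ.2

lemma choose_lower (i0 r : ℕ) (hr : 1 ≤ r) :
    (((i0 : ℝ) + 1) / r) ^ r ≤ ((i0 + r).choose r : ℝ) := by
  have h1 := Nat.pow_le_choose (α := ℝ) r (i0 + r)
  have h2 : i0 + r + 1 - r = i0 + 1 := by omega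
  rw [h2] at h1
  have hr0 : (0 : ℝ) < r := by exact_mod_cast hr
  have h3 : (r.factorial : ℝ) ≤ (r : ℝ) ^ r := by exact_mod_cast Nat.factorial_le_pow r
  have h4 : (0 : ℝ) < r.factorial := by exact_mod_cast Nat.factorial_pos r
  rw [div_pow]
  refine le_trans ?_ h1
  push_cast
  gcongr

set_option maxHeartbeats 4000000 in
/-- **Growth implies a coset progression** (PART M3). -/
theorem exists_prog_of_growth {Γ : Type*} [AddCommGroup Γ] [DecidableEq Γ] (S : Finset Γ)
    (h0 : 0 ∈ S) (hneg : ∀ x ∈ S, -x ∈ S) (κ : ℝ) (N : ℕ) (hκ : 1 ≤ κ)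
    (hN : (100 * κ) ^ 8 ≤ N) (hg : ((itSum N S).card : ℝ) ≤ Real.exp κ * S.card) :
    ∃ Q : CosetProg Γ, Q.base = 0 ∧ (∀ s ∈ S, s ∈ Q.carrier) ∧
      (Q.vol : ℝ) ≤ Real.exp κ * S.card ∧ (Q.dim : ℝ) ≤ 8 * κ / Real.log N := by
  classical
  have hκ0 : 0 < κ := by linarith
  -- `L ^ 8 = N`
  have hN0 : (0 : ℝ) < N := lt_of_lt_of_le (by positivity) hN
  set l : ℝ := (N : ℝ) ^ ((1 : ℝ) / 8) with hl
  have hl0 : 0 < l := Real.rpow_pos_of_pos hN0 _
  have hl8 : l ^ 8 = N := by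
    rw [hl, ← Real.rpow_natCast, ← Real.rpow_mul hN0.le]
    norm_num
  have hlκ : 100 * κ ≤ l := by
    have : (100 * κ) ^ 8 ≤ l ^ 8 := by rw [hl8]; exact hN
    exact le_of_pow_le_pow_left₀ (by norm_num) hl0.le this
  have hl100 : 100 ≤ l := by linarith
  have hlogN : Real.log N = 8 * Real.log l := by
    rw [← hl8, Real.log_pow]; norm_num
  have hlogl : 1 ≤ Real.log l := by
    rw [Real.le_log_iff_exp_le hl0]
    have := Real.exp_one_lt_d9
    linarith
  have hlogN8 : 8 ≤ Real.log N := by rw [hlogN]; linarith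
  -- parameters
  set i0 : ℕ := ⌈18 * κ * l⌉₊ with hi0
  have hi0l : 18 * κ * l ≤ i0 := Nat.le_ceil _
  have hi0u : (i0 : ℝ) < 18 * κ * l + 1 := Nat.ceil_lt_add_one (by positivity)
  set I : ℝ := (i0 : ℝ) + 1 with hI
  have hI0 : 0 < I := by positivity
  have hIl : 1800 * κ ≤ I := by nlinarith
  have hIu : I ≤ l ^ 2 / 5 := by nlinarith
  set δ : ℝ := 1 / (28 * I) with hδdef
  have hδ0 : 0 < δ := by positivity
  have hI1 : 1 ≤ I := by linarith
  have hδ1 : δ ≤ 1 := by
    rw [hδdef, div_le_one (by positivity)]; linarith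
  set n0 : ℕ := ⌈2 * κ / δ⌉₊ with hn0
  have hn0l : 2 * κ / δ ≤ n0 := Nat.le_ceil _
  have hn0u : (n0 : ℝ) < 2 * κ / δ + 1 := Nat.ceil_lt_add_one (by positivity)
  have hn0u2 : (n0 : ℝ) ≤ 57 * κ * I := by
    have : 2 * κ / δ = 56 * κ * I := by rw [hδdef]; field_simp; ring
    rw [this] at hn0u
    nlinarith
  set m : ℕ := ⌈κ + 3⌉₊ with hm
  have hml : κ + 3 ≤ m := Nat.le_ceil _
  have hmu : (m : ℝ) < κ + 3 + 1 := Nat.ceil_lt_add_one (by positivity)
  have hmu2 : (m : ℝ) ≤ 5 * κ := by linarith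
  set M : ℕ := 4 * n0 * m with hM
  have hMu : (M : ℝ) ≤ 1140 * κ ^ 2 * I := by
    rw [hM]
    push_cast
    calc 4 * (n0 : ℝ) * m ≤ 4 * (57 * κ * I) * (5 * κ) := by gcongr
      _ = 1140 * κ ^ 2 * I := by ring
  have hMI : I * M ≤ N := by
    have h1 : κ ^ 2 ≤ l ^ 2 / 10000 := by nlinarith
    have hl2 : 0 ≤ l ^ 2 := by positivity
    calc I * M ≤ I * (1140 * κ ^ 2 * I) := by gcongr
      _ = 1140 * κ ^ 2 * I ^ 2 := by ring
      _ ≤ 1140 * (l ^ 2 / 10000) * (l ^ 2 / 5) ^ 2 := by gcongr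
      _ ≤ l ^ 6 := by nlinarith [pow_pos hl0 6]
      _ ≤ l ^ 8 := pow_le_pow_right₀ (by linarith) (by norm_num)
      _ = N := hl8
  have hMIn : (i0 + 1) * M ≤ N := by
    rw [hI] at hMI
    exact_mod_cast hMI
  have hMN : M ≤ N := le_trans (Nat.le_mul_of_pos_left M (by omega)) hMIn
  have hpi3 := Real.pi_gt_three
  have hpi4 := Real.pi_lt_d2
  set ρ : ℝ := 1 / (4 * I) with hρdef
  have hρ0 : 0 < ρ := by positivity
  have hδρ : Real.pi / 2 * (4 * δ) ≤ ρ := by
    rw [hδdef, hρdef]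
    rw [show Real.pi / 2 * (4 * (1 / (28 * I))) = (Real.pi / 14) / I by field_simp; ring,
      show 1 / (4 * I) = (1 / 4) / I by field_simp]
    have h1 : Real.pi / 14 ≤ 1 / 4 := by linarith
    exact div_le_div_of_nonneg_right h1 hI0.le
  have hρ1 : ρ ≤ 1 := by
    rw [hρdef, div_le_one (by positivity)]; linarith
  obtain ⟨ι, _, L, hLB, hLS⟩ := exists_localGroup S h0 hneg κ δ hκ hδ0 hδ1 (hδρ.trans hρ1)
    n0 m N hn0l hml (by rw [← hM]; exact hMN) hg
  rw [← hM] at hLB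
  have hSball : ∀ s ∈ S, s ∈ L.ball ρ := fun s hs => ⟨(hLS s hs).1, (hLS s hs).2.trans hδρ⟩
  have hcardS : S.card ≤ Set.ncard (L.ball ρ) := by
    rw [← Set.ncard_coe_finset]
    exact Set.ncard_le_ncard (fun s hs => hSball s (by exact_mod_cast hs)) (L.ball_finite ρ)
  have hcardball : (Set.ncard (L.ball ρ) : ℝ) ≤ Real.exp κ * S.card := by
    have h1 : Set.ncard (L.ball ρ) ≤ (itSum M S).card := by
      rw [← Set.ncard_coe_finset]
      exact Set.ncard_le_ncard (fun x hx => by exact_mod_cast hLB x hx.1)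
        (itSum M S).finite_toSet
    have h2 := card_itSum_le hMN h0
    refine le_trans ?_ hg
    exact_mod_cast h1.trans h2
  have hScard : (0 : ℝ) < S.card := by
    exact_mod_cast card_pos.mpr ⟨0, h0⟩
  -- dimension
  set r : ℕ := ⌊8 * κ / Real.log N⌋₊ + 1 with hr
  have hrl : 8 * κ / Real.log N < r := by
    rw [hr]; push_cast; exact Nat.lt_floor_add_one _
  have h8 : 8 * κ / Real.log N ≤ κ := by
    rw [div_le_iff₀ (by linarith)]
    have := mul_le_mul_of_nonneg_left hlogN8 hκ0.le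
    linarith
  have hru : (r : ℝ) ≤ 2 * κ := by
    rw [hr]; push_cast
    have := Nat.floor_le (show 0 ≤ 8 * κ / Real.log N by positivity)
    linarith
  have hr0 : (0 : ℝ) < r := by rw [hr]; positivity
  have hdim : finrank ℝ (L.V ρ) < r := by
    by_contra hcon
    push Not at hcon
    obtain ⟨x, hx, hY⟩ := L.dim_bound ρ hρ0 r i0 hcon (by
      rw [show 4 * (i0 : ℝ) + 4 = 4 * I by rw [hI]; ring, hρdef]
      rw [mul_one_div_cancel (by positivity)])
    have hY2 := hY (itSum N S : Finset Γ) (itSum N S).finite_toSet (by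
      intro b hb c hc
      have h1 : b ∈ itSum M S := hLB b hb.1
      have h2 : ∑ i, c i • x i ∈ itSum (∑ i, c i * M) S :=
        sum_mem_itSum Finset.univ (fun i => c i * M) (fun i => c i • x i)
          (fun i _ => nsmul_mem_itSum (c i) (hLB (x i) (hx i).1))
      have h3 := add_mem_itSum h1 h2
      have h4 : M + ∑ i, c i * M ≤ N := by
        rw [← Finset.sum_mul]
        calc M + (∑ i, c i) * M ≤ M + i0 * M := by gcongr
          _ = (i0 + 1) * M := by ring
          _ ≤ N := hMIn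
      exact_mod_cast itSum_subset_of_le h4 h0 h3)
    rw [Set.ncard_coe_finset] at hY2
    have h1 : (S.card : ℝ) * ((i0 + r).choose r : ℝ) ≤ 2 ^ r * (Real.exp κ * S.card) := by
      calc (S.card : ℝ) * ((i0 + r).choose r : ℝ)
          ≤ (Set.ncard (L.ball ρ) : ℝ) * ((i0 + r).choose r : ℝ) := by
            gcongr
        _ ≤ 2 ^ r * ((itSum N S).card : ℝ) := by exact_mod_cast hY2
        _ ≤ 2 ^ r * (Real.exp κ * S.card) := by gcongr
    have h2 : ((i0 + r).choose r : ℝ) ≤ 2 ^ r * Real.exp κ := by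
      have : (S.card : ℝ) * ((i0 + r).choose r : ℝ) ≤ S.card * (2 ^ r * Real.exp κ) := by
        refine h1.trans (le_of_eq ?_); ring
      exact le_of_mul_le_mul_left this hScard
    have h3 := choose_lower i0 r (by omega)
    have h4 : (I / (2 * r)) ^ r ≤ Real.exp κ := by
      have h5 : (I / r) ^ r = 2 ^ r * (I / (2 * r)) ^ r := by
        rw [← mul_pow]; congr 1; field_simp
      have h6 : 2 ^ r * (I / (2 * r)) ^ r ≤ 2 ^ r * Real.exp κ := by
        rw [← h5]; exact h3.trans h2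
      exact le_of_mul_le_mul_left h6 (by positivity)
    have h5 : l ≤ I / (2 * r) := by
      rw [le_div_iff₀ (by positivity)]
      nlinarith
    have h6 : l ^ r ≤ Real.exp κ := (pow_le_pow_left₀ hl0.le h5 r).trans h4
    have h7 : (r : ℝ) * Real.log l ≤ κ := by
      have := Real.log_le_log (by positivity) h6
      rwa [Real.log_pow, Real.log_exp] at this
    rw [div_lt_iff₀ (by linarith), hlogN] at hrl
    nlinarith
  have hdim2 : (finrank ℝ (L.V ρ) : ℝ) ≤ 8 * κ / Real.log N := by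
    have h1 : finrank ℝ (L.V ρ) ≤ ⌊8 * κ / Real.log N⌋₊ := by omega
    have h2 : (finrank ℝ (L.V ρ) : ℝ) ≤ (⌊8 * κ / Real.log N⌋₊ : ℝ) := by exact_mod_cast h1
    exact h2.trans (Nat.floor_le (by positivity))
  obtain ⟨Q, hQ1, hQ2, hQ3, hQ4⟩ := L.exists_prog ρ hρ0 (by
    have h1 : (finrank ℝ (L.V ρ) : ℝ) + 1 ≤ 2 * κ := by linarith
    calc 3 * ((finrank ℝ (L.V ρ) : ℝ) + 1) * ρ ≤ 3 * (2 * κ) * ρ := by gcongr
      _ ≤ 1 := by
        rw [hρdef, mul_one_div, div_le_one (by positivity)]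
        linarith)
  refine ⟨Q, hQ1, ?_, ?_, ?_⟩
  · intro s hs
    rw [hQ3]
    exact hSball s hs
  · rw [hQ4]; exact hcardball
  · rw [hQ2]; exact hdim2

end Pool.Agent.Lib.MP_dd2a7c_co
end
end
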