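import Pool.Agent.Lib.MP_dd2a7c_co.Law
import Pool.Agent.Lib.MP_dd2a7c_co.IterSum

set_option autoImplicit false

/-!
From a law with small entropy growth to a set with small growth and to a covering
(helper43).
-/

set_option linter.unusedSectionVars false

namespace Pool.Agent.Lib.MP_dd2a7c_co

open Finset
open scoped Pointwise

noncomputable section

universe u

variable {Γ : Type u} [AddCommGroup Γ]

/-! ### Expectations -/

/-- Expectation of a function under a law. -/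
def Ex (μ : Law Γ) (F : Γ → ℝ) : ℝ := ∑ g ∈ supp μ, wt μ g * F g

lemma Ex_lawOf {Ω : Type*} [Fintype Ω] {p : Ω → ℝ} (hp : IsProb p) (f : Ω → Γ) (F : Γ → ℝ) :
    Ex (lawOf hp f) F = ∑ ω, p ω * F (f ω) := by
  unfold Ex
  rw [← sum_pr_mul hp f F (s := supp (lawOf hp f)) fun ω h => mem_supp_lawOf hp f h]
  exact sum_congr rfl fun g _ => by rw [wt_lawOf]

lemma Ex_mul (μ ν : Law Γ) (F : Γ → ℝ) :
    Ex (μ * ν) F = Ex μ (fun a => Ex ν (fun b => F (a + b))) := by
  obtain ⟨Ω, _, p, hp, f, -, rfl⟩ := exists_rep μ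
  obtain ⟨Ω', _, q, hq, g, -, rfl⟩ := exists_rep ν
  rw [lawOf_mul, Ex_lawOf, Ex_lawOf]
  simp only [Ex_lawOf]
  rw [Fintype.sum_prod_type]
  refine sum_congr rfl fun a _ => ?_
  rw [mul_sum]
  refine sum_congr rfl fun b _ => ?_
  simp only [prod]
  ring

lemma H_eq_Ex (μ : Law Γ) : H μ = Ex μ (fun g => -Real.log (wt μ g)) := by
  unfold H Ex
  refine sum_congr rfl fun g _ => ?_
  rw [Real.negMulLog]
  ring

lemma Ex_mono {μ : Law Γ} {F G : Γ → ℝ} (h : ∀ g ∈ supp μ, F g ≤ G g) : Ex μ F ≤ Ex μ G :=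
  sum_le_sum fun g hg => mul_le_mul_of_nonneg_left (h g hg) (wt_nonneg μ g)

lemma Ex_congr {μ : Law Γ} {F G : Γ → ℝ} (h : ∀ g ∈ supp μ, F g = G g) : Ex μ F = Ex μ G :=
  sum_congr rfl fun g hg => by rw [h g hg]

lemma Ex_add (μ : Law Γ) (F G : Γ → ℝ) : Ex μ (fun g => F g + G g) = Ex μ F + Ex μ G := by
  unfold Ex
  rw [← sum_add_distrib]
  exact sum_congr rfl fun g _ => by ring

lemma Ex_sub (μ : Law Γ) (F G : Γ → ℝ) : Ex μ (fun g => F g - G g) = Ex μ F - Ex μ G := by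
  unfold Ex
  rw [← sum_sub_distrib]
  exact sum_congr rfl fun g _ => by ring

lemma Ex_const_mul (μ : Law Γ) (c : ℝ) (F : Γ → ℝ) :
    Ex μ (fun g => c * F g) = c * Ex μ F := by
  unfold Ex
  rw [mul_sum]
  exact sum_congr rfl fun g _ => by ring

lemma Ex_const (μ : Law Γ) (c : ℝ) : Ex μ (fun _ => c) = c := by
  unfold Ex
  rw [← sum_mul, sum_wt, one_mul]

lemma Ex_nonneg {μ : Law Γ} {F : Γ → ℝ} (h : ∀ g ∈ supp μ, 0 ≤ F g) : 0 ≤ Ex μ F :=
  sum_nonneg fun g hg => mul_nonneg (wt_nonneg μ g) (h g hg)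

lemma Ex_comm (μ ν : Law Γ) (F : Γ → Γ → ℝ) :
    Ex μ (fun a => Ex ν (fun b => F a b)) = Ex ν (fun b => Ex μ (fun a => F a b)) := by
  unfold Ex
  simp_rw [mul_sum]
  rw [sum_comm]
  exact sum_congr rfl fun g _ => sum_congr rfl fun x _ => by ring

lemma wt_pos_of_mem {μ : Law Γ} {g : Γ} (h : g ∈ supp μ) : 0 < wt μ g :=
  lt_of_le_of_ne (wt_nonneg μ g) (Ne.symm (mem_supp.1 h))

lemma wt_mul (μ ν : Law Γ) (g : Γ) : wt (μ * ν) g = Ex ν (fun b => wt μ (g - b)) := by
  obtain ⟨Ω, _, p, hp, f, -, rfl⟩ := exists_rep μ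
  obtain ⟨Ω', _, q, hq, g', -, rfl⟩ := exists_rep ν
  rw [lawOf_mul, Ex_lawOf, wt_lawOf]
  simp only [wt_lawOf, pr]
  rw [Fintype.sum_prod_type, sum_comm]
  refine sum_congr rfl fun b _ => ?_
  rw [mul_sum]
  refine sum_congr rfl fun a _ => ?_
  simp only [prod]
  by_cases h : f a + g' b = g
  · rw [if_pos h, if_pos (eq_sub_of_add_eq h)]
    ring
  · rw [if_neg h, if_neg (fun h' => h (add_eq_of_eq_sub h'))]
    ring

lemma wt_mul_pos {μ ν : Law Γ} {a b : Γ} (ha : a ∈ supp μ) (hb : b ∈ supp ν) :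
    0 < wt (μ * ν) (a + b) := by
  rw [wt_mul]
  unfold Ex
  have h1 := single_le_sum (f := fun g => wt ν g * wt μ (a + b - g)) (s := supp ν)
    (fun g _ => mul_nonneg (wt_nonneg ν g) (wt_nonneg μ _)) hb
  simp only [add_sub_cancel_right] at h1
  exact lt_of_lt_of_le (mul_pos (wt_pos_of_mem hb) (wt_pos_of_mem ha)) h1

lemma sum_wt_le_one (μ : Law Γ) (s : Finset Γ) : ∑ g ∈ s, wt μ g ≤ 1 := by
  classical
  rw [← sum_wt_of_subset μ (subset_union_right (s₁ := s) (s₂ := supp μ))]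
  exact sum_le_sum_of_subset_of_nonneg subset_union_left fun g _ _ => wt_nonneg μ g

lemma sum_wt_sub_le_one (μ : Law Γ) (s : Finset Γ) (t : Γ) : ∑ g ∈ s, wt μ (g - t) ≤ 1 := by
  have : ∑ g ∈ s, wt μ (g - t) = ∑ g ∈ s.map (Equiv.subRight t).toEmbedding, wt μ g := by
    rw [sum_map]
    rfl
  rw [this]
  exact sum_wt_le_one μ _

lemma sum_wt_add_le_one (μ : Law Γ) (s : Finset Γ) (t : Γ) : ∑ g ∈ s, wt μ (g + t) ≤ 1 := by
  have h := sum_wt_sub_le_one μ s (-t)
  simpa only [sub_neg_eq_add] using h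

/-- Markov's inequality. -/
lemma markov (μ : Law Γ) (F : Γ → ℝ) (hF : ∀ g ∈ supp μ, 0 ≤ F g) (c T : ℝ) (hT : 0 < T)
    (h : Ex μ F ≤ c * T) (s : Finset Γ) (hs : s ⊆ supp μ) (hs2 : ∀ g ∈ supp μ, F g ≤ T → g ∈ s) :
    1 - c ≤ ∑ g ∈ s, wt μ g := by
  classical
  have h1 : ∑ g ∈ supp μ \ s, wt μ g * T ≤ Ex μ F := by
    unfold Ex
    refine le_trans (sum_le_sum (g := fun g => wt μ g * F g) fun g hg => ?_)
      (sum_le_sum_of_subset_of_nonneg sdiff_subset fun g hg _ =>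
        mul_nonneg (wt_nonneg μ g) (hF g hg))
    rw [mem_sdiff] at hg
    refine mul_le_mul_of_nonneg_left ?_ (wt_nonneg μ g)
    by_contra hcon
    exact hg.2 (hs2 g hg.1 (not_le.1 hcon).le)
  rw [← sum_mul] at h1
  have h2 : ∑ g ∈ supp μ \ s, wt μ g ≤ c := by
    by_contra hcon
    have := mul_lt_mul_of_pos_right (not_le.1 hcon) hT
    linarith
  have h3 := sum_sdiff (f := fun g => wt μ g) hs
  rw [sum_wt] at h3
  linarith

/-! ### Flatness -/

/-- A law with small doubling is nearly flat. -/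
lemma flat (σ : Law Γ) (κ : ℝ) (h : H (σ * σ) ≤ H σ + κ) :
    Ex σ (fun x => |-Real.log (wt σ x) - H σ|) ≤ 2 * κ + 4 := by
  obtain ⟨l, hl⟩ : ∃ l : Γ → ℝ, l = fun x => -Real.log (wt σ x) := ⟨_, rfl⟩
  obtain ⟨m, hm⟩ : ∃ m : Γ → ℝ, m = fun x => -Real.log (wt (σ * σ) x) := ⟨_, rfl⟩
  have hEl : Ex σ l = H σ := by rw [H_eq_Ex, hl]
  have hEm : Ex σ (fun x => Ex σ (fun y => m (x + y))) = H (σ * σ) := by
    rw [H_eq_Ex (σ * σ), Ex_mul, hm]
  -- the positive part of `l - m`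
  have hE1 : Ex σ (fun x => Ex σ (fun y => max (l x - m (x + y)) 0)) ≤ 1 := by
    have step : Ex σ (fun x => Ex σ (fun y => max (l x - m (x + y)) 0)) ≤
        ∑ x ∈ supp σ, ∑ y ∈ supp σ, wt σ y * wt (σ * σ) (x + y) := by
      unfold Ex
      refine sum_le_sum fun x hx => ?_
      rw [mul_sum]
      refine sum_le_sum fun y hy => ?_
      have px := wt_pos_of_mem hx
      have py := wt_pos_of_mem hy
      have pP := wt_mul_pos hx hy
      have hmax : max (l x - m (x + y)) 0 ≤ wt (σ * σ) (x + y) / wt σ x := by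
        refine max_le ?_ (by positivity)
        have e : l x - m (x + y) = Real.log (wt (σ * σ) (x + y) / wt σ x) := by
          rw [hl, hm, Real.log_div pP.ne' px.ne']
          ring
        rw [e]
        have := Real.log_le_sub_one_of_pos (show 0 < wt (σ * σ) (x + y) / wt σ x by positivity)
        linarith
      calc wt σ x * (wt σ y * max (l x - m (x + y)) 0)
          ≤ wt σ x * (wt σ y * (wt (σ * σ) (x + y) / wt σ x)) := by gcongr
        _ = wt σ y * wt (σ * σ) (x + y) := by field_simp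
    refine step.trans ?_
    rw [sum_comm]
    calc ∑ y ∈ supp σ, ∑ x ∈ supp σ, wt σ y * wt (σ * σ) (x + y)
        ≤ ∑ y ∈ supp σ, wt σ y := by
          refine sum_le_sum fun y _ => ?_
          rw [← mul_sum]
          have := mul_le_mul_of_nonneg_left (sum_wt_add_le_one (σ * σ) (supp σ) y)
            (wt_nonneg σ y)
          rwa [mul_one] at this
      _ = 1 := sum_wt σ
  have hE2 : Ex σ (fun x => Ex σ (fun y => max (l y - m (x + y)) 0)) ≤ 1 := by
    rw [Ex_comm]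
    refine le_trans (le_of_eq ?_) hE1
    refine Ex_congr fun x _ => Ex_congr fun y _ => ?_
    rw [add_comm]
  -- pointwise inequality
  have hpt : ∀ a b c : ℝ, |a - b| ≤ 2 * (max (a - c) 0 + max (b - c) 0 + c) - (a + b) := by
    intro a b c
    rcases le_total a c with h1 | h1 <;> rcases le_total b c with h2 | h2
    · rw [max_eq_right (by linarith), max_eq_right (by linarith), abs_le]
      constructor <;> linarith
    · rw [max_eq_right (by linarith), max_eq_left (by linarith), abs_le]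
      constructor <;> linarith
    · rw [max_eq_left (by linarith), max_eq_right (by linarith), abs_le]
      constructor <;> linarith
    · rw [max_eq_left (by linarith), max_eq_left (by linarith), abs_le]
      constructor <;> linarith
  have hmain : Ex σ (fun x => Ex σ (fun y => |l x - l y|)) ≤ 2 * κ + 4 := by
    have e1 : Ex σ (fun x => Ex σ (fun y => |l x - l y|)) ≤
        Ex σ (fun x => Ex σ (fun y => 2 * (max (l x - m (x + y)) 0 + max (l y - m (x + y)) 0
          + m (x + y)) - (l x + l y))) :=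
      Ex_mono fun x _ => Ex_mono fun y _ => hpt _ _ _
    have e2 : Ex σ (fun x => Ex σ (fun y => 2 * (max (l x - m (x + y)) 0 +
        max (l y - m (x + y)) 0 + m (x + y)) - (l x + l y))) =
        2 * (Ex σ (fun x => Ex σ (fun y => max (l x - m (x + y)) 0)) +
          Ex σ (fun x => Ex σ (fun y => max (l y - m (x + y)) 0)) +
          Ex σ (fun x => Ex σ (fun y => m (x + y)))) - (Ex σ l + Ex σ l) := by
      simp only [Ex_add, Ex_sub, Ex_const_mul, Ex_const]
    rw [e2, hEm, hEl] at e1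
    linarith
  refine le_trans (Ex_mono fun x _ => ?_) hmain
  have e3 : -Real.log (wt σ x) - H σ = Ex σ (fun y => l x - l y) := by
    rw [Ex_sub, Ex_const, hEl, hl]
  rw [e3]
  unfold Ex
  refine (abs_sum_le_sum_abs _ _).trans (sum_le_sum fun y _ => ?_)
  rw [abs_mul, abs_of_nonneg (wt_nonneg σ y)]

/-! ### Closeness in `ℓ²` -/

/-- The `ℓ²` distance of `u` and `v` is at most `c`. -/
def Cl (c : ℝ) (u v : Γ → ℝ) : Prop := ∀ s : Finset Γ, ∑ g ∈ s, (u g - v g) ^ 2 ≤ c ^ 2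

lemma Cl.symm {c : ℝ} {u v : Γ → ℝ} (h : Cl c u v) : Cl c v u := by
  intro s
  refine le_trans (le_of_eq (sum_congr rfl fun g _ => ?_)) (h s)
  ring

lemma Cl.mono {c d : ℝ} {u v : Γ → ℝ} (h : Cl c u v) (hc : 0 ≤ c) (hcd : c ≤ d) : Cl d u v :=
  fun s => (h s).trans (pow_le_pow_left₀ hc hcd 2)

lemma Cl.trans {c d : ℝ} {u v w : Γ → ℝ} (hc : 0 ≤ c) (hd : 0 ≤ d) (h1 : Cl c u v)
    (h2 : Cl d v w) : Cl (c + d) u w := by
  intro s
  have a1 := h1 s
  have a2 := h2 s
  have cs := sum_mul_sq_le_sq_mul_sq s (fun g => u g - v g) (fun g => v g - w g)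
  have e : ∑ g ∈ s, (u g - w g) ^ 2 = ∑ g ∈ s, (u g - v g) ^ 2 +
      2 * ∑ g ∈ s, (u g - v g) * (v g - w g) + ∑ g ∈ s, (v g - w g) ^ 2 := by
    rw [mul_sum, ← sum_add_distrib, ← sum_add_distrib]
    exact sum_congr rfl fun g _ => by ring
  have a3 : (∑ g ∈ s, (u g - v g) * (v g - w g)) ^ 2 ≤ (c * d) ^ 2 := by
    refine cs.trans ?_
    rw [mul_pow]
    exact mul_le_mul a1 a2 (sum_nonneg fun g _ => sq_nonneg _) (sq_nonneg c)
  have a4 : ∑ g ∈ s, (u g - v g) * (v g - w g) ≤ c * d :=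
    le_of_sq_le_sq' a3 (mul_nonneg hc hd)
  rw [e]
  nlinarith
  where le_of_sq_le_sq' {a b : ℝ} (h : a ^ 2 ≤ b ^ 2) (hb : 0 ≤ b) : a ≤ b :=
    abs_le_of_sq_le_sq' h hb |>.2

lemma Cl.translate {c : ℝ} {u v : Γ → ℝ} (h : Cl c u v) (x : Γ) :
    Cl c (fun g => u (g - x)) (fun g => v (g - x)) := by
  intro s
  have : ∑ g ∈ s, (u (g - x) - v (g - x)) ^ 2 =
      ∑ g ∈ s.map (Equiv.subRight x).toEmbedding, (u g - v g) ^ 2 := by
    rw [sum_map]
    rfl
  rw [this]
  exact h _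

/-- The square root of the weights. -/
def rt (μ : Law Γ) (g : Γ) : ℝ := √(wt μ g)

/-- The Hellinger distance between `μ` and its translate by `x` is at most `c`. -/
def Near (μ : Law Γ) (c : ℝ) (x : Γ) : Prop := Cl c (fun g => rt μ (g - x)) (rt μ)

lemma Near.zero (μ : Law Γ) {c : ℝ} : Near μ c 0 := by
  intro s
  simp only [sub_zero, sub_self]
  rw [sum_eq_zero fun g _ => by ring]
  exact sq_nonneg c

lemma Near.neg {μ : Law Γ} {c : ℝ} {x : Γ} (h : Near μ c x) : Near μ c (-x) := by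
  have := (Cl.translate h (-x)).symm
  simpa only [Near, sub_neg_eq_add, add_sub_cancel_right] using this

lemma Near.add {μ : Law Γ} {c d : ℝ} {x y : Γ} (hc : 0 ≤ c) (hd : 0 ≤ d) (h1 : Near μ c x)
    (h2 : Near μ d y) : Near μ (c + d) (x + y) := by
  have h3 := Cl.trans hc hd (Cl.translate h1 y) h2
  unfold Near
  simpa only [sub_sub, add_comm y x] using h3

lemma Near.mono {μ : Law Γ} {c d : ℝ} {x : Γ} (h : Near μ c x) (hc : 0 ≤ c) (hcd : c ≤ d) :
    Near μ d x := Cl.mono h hc hcd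

/-! ### The relative entropy bounds the Hellinger distance -/

/-- The relative entropy of the translate of `μ` by `t` with respect to `ν`. -/
def dv (μ ν : Law Γ) (t : Γ) : ℝ :=
  Ex μ (fun a => Real.log (wt μ a) - Real.log (wt ν (a + t)))

lemma two_sub_le (p q : ℝ) (hp : 0 < p) (hq : 0 < q) :
    2 * p - 2 * (√p * √q) ≤ p * (Real.log p - Real.log q) := by
  have h1 := Real.log_le_sub_one_of_pos (show 0 < √q / √p by positivity)
  rw [Real.log_div (by positivity) (by positivity), Real.log_sqrt hq.le, Real.log_sqrt hp.le] at h1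
  have h2 := mul_le_mul_of_nonneg_left h1 hp.le
  have h3 : p * (√q / √p - 1) = √p * √q - p := by
    have e1 : √p * √p = p := Real.mul_self_sqrt hp.le
    have hne : √p ≠ 0 := by positivity
    have e2 : √p * √p * (√q / √p) = √p * √q := by field_simp
    rw [mul_sub, mul_one, ← e2, e1]
  rw [h3] at h2
  nlinarith

lemma cl_of_dv (μ τ : Law Γ) {t : Γ} (ht : t ∈ supp τ) {c : ℝ}
    (h : dv μ (μ * τ) t ≤ c ^ 2) : Cl c (fun g => rt μ (g - t)) (rt (μ * τ)) := by
  classical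
  intro s
  set ν := μ * τ with hν
  set s' := s ∪ (supp μ).map (Equiv.addRight t).toEmbedding with hs'
  have h1 : ∑ g ∈ s, (rt μ (g - t) - rt ν g) ^ 2 ≤ ∑ g ∈ s', (rt μ (g - t) - rt ν g) ^ 2 :=
    sum_le_sum_of_subset_of_nonneg subset_union_left fun g _ _ => sq_nonneg _
  have h2 : ∑ g ∈ s', (rt μ (g - t) - rt ν g) ^ 2 =
      ∑ g ∈ s', wt μ (g - t) + ∑ g ∈ s', wt ν g - 2 * ∑ g ∈ s', rt μ (g - t) * rt ν g := by
    rw [mul_sum, ← sum_add_distrib, ← sum_sub_distrib]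
    refine sum_congr rfl fun g _ => ?_
    have e1 : rt μ (g - t) * rt μ (g - t) = wt μ (g - t) := Real.mul_self_sqrt (wt_nonneg μ _)
    have e2 : rt ν g * rt ν g = wt ν g := Real.mul_self_sqrt (wt_nonneg ν _)
    rw [← e1, ← e2]
    ring
  have h3 : ∑ a ∈ supp μ, rt μ a * rt ν (a + t) ≤ ∑ g ∈ s', rt μ (g - t) * rt ν g := by
    have e : ∑ a ∈ supp μ, rt μ a * rt ν (a + t) =
        ∑ g ∈ (supp μ).map (Equiv.addRight t).toEmbedding, rt μ (g - t) * rt ν g := by
      rw [sum_map]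
      refine sum_congr rfl fun a _ => ?_
      simp
    rw [e]
    exact sum_le_sum_of_subset_of_nonneg subset_union_right fun g _ _ =>
      mul_nonneg (Real.sqrt_nonneg _) (Real.sqrt_nonneg _)
  have h4 : 2 - 2 * ∑ a ∈ supp μ, rt μ a * rt ν (a + t) ≤ dv μ ν t := by
    have e : 2 - 2 * ∑ a ∈ supp μ, rt μ a * rt ν (a + t) =
        ∑ a ∈ supp μ, (2 * wt μ a - 2 * (rt μ a * rt ν (a + t))) := by
      rw [sum_sub_distrib, ← mul_sum, ← mul_sum, sum_wt, mul_one]
    rw [e]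
    unfold dv Ex
    exact sum_le_sum fun a ha => two_sub_le _ _ (wt_pos_of_mem ha) (wt_mul_pos ha ht)
  have h5 := sum_wt_sub_le_one μ s' t
  have h6 := sum_wt_le_one ν s'
  linarith

lemma dv_nonneg (μ τ : Law Γ) {t : Γ} (ht : t ∈ supp τ) : 0 ≤ dv μ (μ * τ) t := by
  by_contra hcon
  have h0 := not_le.1 hcon
  -- apply the previous lemma with a small `c`
  have h1 : 2 - 2 * ∑ a ∈ supp μ, rt μ a * rt (μ * τ) (a + t) ≤ dv μ (μ * τ) t := by
    have e : 2 - 2 * ∑ a ∈ supp μ, rt μ a * rt (μ * τ) (a + t) =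
        ∑ a ∈ supp μ, (2 * wt μ a - 2 * (rt μ a * rt (μ * τ) (a + t))) := by
      rw [sum_sub_distrib, ← mul_sum, ← mul_sum, sum_wt, mul_one]
    rw [e]
    unfold dv Ex
    exact sum_le_sum fun a ha => two_sub_le _ _ (wt_pos_of_mem ha) (wt_mul_pos ha ht)
  have h2 : ∑ a ∈ supp μ, rt μ a * rt (μ * τ) (a + t) ≤
      ∑ a ∈ supp μ, (wt μ a + wt (μ * τ) (a + t)) / 2 := by
    refine sum_le_sum fun a _ => ?_
    have e1 : rt μ a * rt μ a = wt μ a := Real.mul_self_sqrt (wt_nonneg μ _)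
    have e2 : rt (μ * τ) (a + t) * rt (μ * τ) (a + t) = wt (μ * τ) (a + t) :=
      Real.mul_self_sqrt (wt_nonneg _ _)
    rw [← e1, ← e2]
    nlinarith [sq_nonneg (rt μ a - rt (μ * τ) (a + t))]
  rw [← sum_div, sum_add_distrib, sum_wt] at h2
  have h3 := sum_wt_add_le_one (μ * τ) (supp μ) t
  linarith

lemma Ex_dv (μ τ : Law Γ) : Ex τ (dv μ (μ * τ)) = H (μ * τ) - H μ := by
  unfold dv
  simp only [Ex_sub]
  rw [Ex_const, H_eq_Ex μ, H_eq_Ex (μ * τ), Ex_mul, Ex_comm]
  have : ∀ (ν : Law Γ) (F : Γ → ℝ), Ex ν (fun g => -F g) = -Ex ν F := by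
    intro ν F
    have := Ex_const_mul ν (-1) F
    simpa using this
  simp only [this]
  ring

/-! ### Entropy growth of powers -/

lemma pow_growth (τ : Law Γ) (κ : ℝ) (n : ℕ) (hn : 1 ≤ n) (h : H (τ ^ (2 * n)) ≤ H τ + κ) :
    H (τ ^ n * τ) - H (τ ^ n) ≤ κ / n := by
  have hmono : ∀ m, H (τ ^ m) ≤ H (τ ^ (m + 1)) := fun m => by
    rw [pow_succ]
    exact H_le_mul _ _
  have hdec : ∀ m, H (τ ^ (m + 2)) - H (τ ^ (m + 1)) ≤ H (τ ^ (m + 1)) - H (τ ^ m) := by
    intro m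
    have := H_submod τ (τ ^ m) τ
    rw [← pow_succ', ← pow_succ, ← pow_succ] at this
    linarith
  have hmono' : Monotone fun m => H (τ ^ m) := monotone_nat_of_le_succ hmono
  have hanti : Antitone fun m => H (τ ^ (m + 1)) - H (τ ^ m) := antitone_nat_of_succ_le hdec
  have key : ∀ m, m ≤ n → (m : ℝ) * (H (τ ^ (n + 1)) - H (τ ^ n)) ≤
      H (τ ^ (m + 1)) - H (τ ^ 1) := by
    intro m
    induction m with
    | zero => intro _; simp
    | succ m ih =>
      intro hm
      have h1 := ih (by omega)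
      have h2 := hanti hm
      simp only at h2
      push_cast
      linarith
  have h1 := key n le_rfl
  have h2 : H (τ ^ (n + 1)) ≤ H (τ ^ (2 * n)) := hmono' (by omega)
  have hn0 : (0 : ℝ) < n := by exact_mod_cast hn
  rw [pow_one] at h1
  rw [← pow_succ, le_div_iff₀ hn0]
  linarith

lemma H_pow_mono (τ : Law Γ) : Monotone fun m => H (τ ^ m) :=
  monotone_nat_of_le_succ fun m => by
    rw [pow_succ]
    exact H_le_mul _ _

/-! ### Counting near translates -/

lemma rt_mul_self (μ : Law Γ) (g : Γ) : rt μ g * rt μ g = wt μ g :=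
  Real.mul_self_sqrt (wt_nonneg μ g)

lemma rt_nonneg (μ : Law Γ) (g : Γ) : 0 ≤ rt μ g := Real.sqrt_nonneg _

lemma sum_compl_le [DecidableEq Γ] (μ : Law Γ) (F : Finset Γ) (c : ℝ)
    (hF : 1 - c ≤ ∑ g ∈ F, wt μ g) (U : Finset Γ) :
    ∑ g ∈ U, (if g ∈ F then 0 else wt μ g) ≤ c := by
  have h1 : ∑ g ∈ U, (if g ∈ F then 0 else wt μ g) = ∑ g ∈ U \ F, wt μ g := by
    rw [sdiff_eq_filter, sum_filter]
    refine sum_congr rfl fun g _ => ?_
    by_cases h : g ∈ F <;> simp [h]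
  have h2 := sum_wt_le_one μ ((U \ F) ∪ F)
  rw [sum_union sdiff_disjoint] at h2
  rw [h1]
  linarith

lemma sum_translate (f : Γ → ℝ) (U : Finset Γ) (x : Γ) :
    ∑ g ∈ U, f (g - x) = ∑ g ∈ U.map (Equiv.subRight x).toEmbedding, f g := by
  rw [sum_map]
  rfl

/-- Two translates of `μ` that are close overlap in a large piece of the flat part. -/
lemma overlap [DecidableEq Γ] (μ : Law Γ) (F : Finset Γ) (hF : 1 - 1 / 16 ≤ ∑ g ∈ F, wt μ g)
    (b : ℝ) (hb : ∀ g ∈ F, wt μ g ≤ b) (hb0 : 0 ≤ b) (x : Γ) (hx : Near μ (1 / 4) x) :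
    1 / 4 ≤ b * ((F.filter (fun g => g - x ∈ F)).card : ℝ) := by
  set T := (supp μ ∪ (supp μ).map (Equiv.addRight x).toEmbedding) ∪ F with hT
  have hT1 : ∑ g ∈ T, wt μ g = 1 :=
    sum_wt_of_subset μ (subset_union_left.trans subset_union_left)
  have hT2 : ∑ g ∈ T, wt μ (g - x) = 1 := by
    rw [sum_translate]
    refine sum_wt_of_subset μ fun g hg => ?_
    rw [mem_map]
    refine ⟨g + x, ?_, by simp⟩
    rw [hT, mem_union, mem_union, mem_map]
    exact Or.inl (Or.inr ⟨g, hg, rfl⟩)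
  have h1 := hx T
  have h2 : ∑ g ∈ T, (rt μ (g - x) - rt μ g) ^ 2 =
      ∑ g ∈ T, wt μ (g - x) + ∑ g ∈ T, wt μ g - 2 * ∑ g ∈ T, rt μ (g - x) * rt μ g := by
    rw [mul_sum, ← sum_add_distrib, ← sum_sub_distrib]
    refine sum_congr rfl fun g _ => ?_
    rw [← rt_mul_self μ (g - x), ← rt_mul_self μ g]
    ring
  rw [h2, hT1, hT2] at h1
  have hpt : ∀ g ∈ T, rt μ (g - x) * rt μ g ≤
      (if g ∈ F ∧ g - x ∈ F then b else 0) +
      (2 * (if g ∈ F then 0 else wt μ g) + 1 / 8 * wt μ (g - x)) +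
      (2 * (if g - x ∈ F then 0 else wt μ (g - x)) + 1 / 8 * wt μ g) := by
    intro g _
    have w1 := wt_nonneg μ g
    have w2 := wt_nonneg μ (g - x)
    have r1 := rt_nonneg μ g
    have r2 := rt_nonneg μ (g - x)
    have e1 := rt_mul_self μ g
    have e2 := rt_mul_self μ (g - x)
    by_cases g1 : g ∈ F
    · by_cases g2 : g - x ∈ F
      · rw [if_pos ⟨g1, g2⟩, if_pos g1, if_pos g2]
        have b1 := hb _ g1
        have b2 := hb _ g2
        nlinarith [sq_nonneg (rt μ g - rt μ (g - x))]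
      · rw [if_neg (fun h => g2 h.2), if_pos g1, if_neg g2]
        nlinarith [sq_nonneg (rt μ g - 4 * rt μ (g - x))]
    · rw [if_neg (fun h => g1 h.1), if_neg g1]
      by_cases g2 : g - x ∈ F
      · rw [if_pos g2]
        nlinarith [sq_nonneg (rt μ (g - x) - 4 * rt μ g)]
      · rw [if_neg g2]
        nlinarith [sq_nonneg (rt μ (g - x) - 4 * rt μ g)]
  have h3 := sum_le_sum hpt
  rw [sum_add_distrib, sum_add_distrib, sum_add_distrib, sum_add_distrib, ← mul_sum, ← mul_sum,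
    ← mul_sum, ← mul_sum, hT1, hT2] at h3
  have h4 := sum_compl_le μ F (1 / 16) hF T
  have h5 : ∑ g ∈ T, (if g - x ∈ F then 0 else wt μ (g - x)) ≤ 1 / 16 := by
    rw [sum_translate (fun g => if g ∈ F then 0 else wt μ g)]
    exact sum_compl_le μ F (1 / 16) hF _
  have h6 : ∑ g ∈ T, (if g ∈ F ∧ g - x ∈ F then b else 0) ≤
      b * ((F.filter (fun g => g - x ∈ F)).card : ℝ) := by
    rw [← sum_filter, sum_const, nsmul_eq_mul, mul_comm]
    refine mul_le_mul_of_nonneg_left ?_ hb0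
    exact_mod_cast card_le_card fun g hg => by
      rw [mem_filter] at hg
      rw [mem_filter]
      exact hg.2
  linarith

/-- The number of near translates. -/
lemma card_near_le [DecidableEq Γ] (μ : Law Γ) (F : Finset Γ)
    (hF : 1 - 1 / 16 ≤ ∑ g ∈ F, wt μ g)
    (b : ℝ) (hb : ∀ g ∈ F, wt μ g ≤ b) (hb0 : 0 ≤ b) (S : Finset Γ)
    (hS : ∀ x ∈ S, Near μ (1 / 4) x) :
    (S.card : ℝ) ≤ 4 * b * (F.card : ℝ) ^ 2 := by
  have h1 : (S.card : ℝ) * (1 / 4) ≤
      ∑ x ∈ S, b * ((F.filter (fun g => g - x ∈ F)).card : ℝ) := by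
    rw [← nsmul_eq_mul]
    exact card_nsmul_le_sum _ _ _ fun x hx => overlap μ F hF b hb hb0 x (hS x hx)
  rw [← mul_sum, ← Nat.cast_sum, ← card_sigma] at h1
  have h2 : (S.sigma fun x => F.filter (fun g => g - x ∈ F)).card ≤ (F ×ˢ F).card := by
    refine card_le_card_of_injOn (fun y => (y.2, y.2 - y.1)) ?_ ?_
    · rintro ⟨x, g⟩ hy
      rw [mem_coe, mem_sigma, mem_filter] at hy
      rw [mem_coe, mem_product]
      exact hy.2
    · rintro ⟨x, g⟩ _ ⟨x', g'⟩ _ e
      simp only [Prod.mk.injEq] at e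
      obtain ⟨rfl, e2⟩ := e
      have : x = x' := by
        have := congrArg (fun z => g - z) e2
        simpa using this
      rw [this]
  rw [card_product] at h2
  have h3 : ((S.sigma fun x => F.filter (fun g => g - x ∈ F)).card : ℝ) ≤ (F.card : ℝ) ^ 2 := by
    rw [sq]
    exact_mod_cast h2
  have h4 := mul_le_mul_of_nonneg_left h3 hb0
  linarith

/-! ### A large fibre -/

lemma exists_fiber [DecidableEq Γ] (A : Finset Γ) (hA : A.Nonempty) (τ : Law Γ) (κ b : ℝ)
    (hκ : 0 < κ) (E : Finset Γ) (hE : E ⊆ supp τ) (hE2 : 1 / 2 ≤ ∑ t ∈ E, wt τ t) (hb : 0 ≤ b)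
    (hEb : ∀ t ∈ E, wt τ t ≤ b)
    (hH : H (lawU A hA * τ) ≤ Real.log A.card + 2 * κ) :
    ∃ z, 1 ≤ 4 * Real.exp (8 * κ) * b * ((A.filter (fun a => z - a ∈ E)).card : ℝ) := by
  classical
  set ρ := lawU A hA with hρ
  have ha : (0 : ℝ) < A.card := Nat.cast_pos.2 hA.card_pos
  have hρle : ∀ z, wt ρ z ≤ 1 / A.card := by
    intro z
    rw [hρ, wt_lawU]
    split_ifs
    · exact le_rfl
    · positivity
  have hQle : ∀ z, wt (ρ * τ) z ≤ 1 / A.card := by
    intro z
    rw [wt_mul, ← Ex_const τ (1 / (A.card : ℝ))]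
    exact Ex_mono fun t _ => hρle _
  obtain ⟨u, hu⟩ : ∃ u : Γ → ℝ, u = fun z => -Real.log (wt (ρ * τ) z) - Real.log A.card :=
    ⟨_, rfl⟩
  have hu0 : ∀ z ∈ supp (ρ * τ), 0 ≤ u z := by
    intro z hz
    have h1 := Real.log_le_log (wt_pos_of_mem hz) (hQle z)
    rw [one_div, Real.log_inv] at h1
    rw [hu]
    simp only
    linarith
  have hEu : Ex (ρ * τ) u ≤ 1 / 4 * (8 * κ) := by
    rw [hu, Ex_sub, Ex_const, ← H_eq_Ex]
    linarith
  set G := (supp (ρ * τ)).filter (fun z => u z ≤ 8 * κ) with hG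
  have hGw : 1 - 1 / 4 ≤ ∑ z ∈ G, wt (ρ * τ) z :=
    markov (ρ * τ) u hu0 (1 / 4) (8 * κ) (by positivity) hEu G (filter_subset _ _)
      fun z hz h => mem_filter.2 ⟨hz, h⟩
  -- size of `G`
  have hGcard : (G.card : ℝ) * (Real.exp (-(8 * κ)) / A.card) ≤ 1 := by
    refine le_trans ?_ (sum_wt_le_one (ρ * τ) G)
    rw [← nsmul_eq_mul]
    refine card_nsmul_le_sum _ _ _ fun z hz => ?_
    rw [hG, mem_filter] at hz
    have hz2 := hz.2
    rw [hu] at hz2
    simp only at hz2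
    have hpos := wt_pos_of_mem hz.1
    rw [← Real.exp_log ha, ← Real.exp_sub, ← Real.exp_log hpos]
    apply Real.exp_le_exp.2
    linarith
  -- split the sum
  have hsplit : ∀ z, wt (ρ * τ) z =
      ∑ t ∈ E, wt τ t * wt ρ (z - t) + ∑ t ∈ supp τ \ E, wt τ t * wt ρ (z - t) := by
    intro z
    rw [wt_mul, Ex, ← sum_sdiff hE, add_comm]
  have hrest : ∑ z ∈ G, ∑ t ∈ supp τ \ E, wt τ t * wt ρ (z - t) ≤ 1 / 2 := by
    rw [sum_comm]
    have h1 : ∑ t ∈ supp τ \ E, ∑ z ∈ G, wt τ t * wt ρ (z - t) ≤ ∑ t ∈ supp τ \ E, wt τ t := by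
      refine sum_le_sum fun t _ => ?_
      rw [← mul_sum]
      have := mul_le_mul_of_nonneg_left (sum_wt_sub_le_one ρ G t) (wt_nonneg τ t)
      rwa [mul_one] at this
    have h2 := sum_sdiff (f := fun t => wt τ t) hE
    rw [sum_wt] at h2
    linarith
  have hmain : 1 / 4 ≤ ∑ z ∈ G, ∑ t ∈ E, wt τ t * wt ρ (z - t) := by
    have h1 : ∑ z ∈ G, wt (ρ * τ) z = ∑ z ∈ G, ∑ t ∈ E, wt τ t * wt ρ (z - t) +
        ∑ z ∈ G, ∑ t ∈ supp τ \ E, wt τ t * wt ρ (z - t) := by
      rw [← sum_add_distrib]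
      exact sum_congr rfl fun z _ => hsplit z
    linarith
  have hfib : ∀ z, ∑ t ∈ E, wt τ t * wt ρ (z - t) ≤
      b / A.card * ((A.filter (fun a => z - a ∈ E)).card : ℝ) := by
    intro z
    have h1 : ∑ t ∈ E, wt τ t * wt ρ (z - t) ≤
        ∑ t ∈ E, (if z - t ∈ A then b / A.card else 0) := by
      refine sum_le_sum fun t ht => ?_
      rw [hρ, wt_lawU]
      by_cases h : z - t ∈ A
      · rw [if_pos h, if_pos h, mul_one_div]
        exact div_le_div_of_nonneg_right (hEb t ht) ha.le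
      · rw [if_neg h, if_neg h, mul_zero]
    refine h1.trans ?_
    rw [← sum_filter, sum_const, nsmul_eq_mul, mul_comm]
    refine mul_le_mul_of_nonneg_left ?_ (by positivity)
    have h2 : (E.filter (fun t => z - t ∈ A)).card ≤ (A.filter (fun a => z - a ∈ E)).card := by
      refine card_le_card_of_injOn (fun t => z - t) ?_ ?_
      · intro t ht
        rw [mem_coe, mem_filter] at ht
        rw [mem_coe, mem_filter]
        refine ⟨ht.2, ?_⟩
        rw [sub_sub_cancel]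
        exact ht.1
      · intro t _ t' _ e
        simpa using e
    exact_mod_cast h2
  by_contra hcon
  push Not at hcon
  have hne : G.Nonempty := by
    rw [nonempty_iff_ne_empty]
    intro h0
    rw [h0] at hmain
    simp at hmain
    linarith
  have hlt : ∑ z ∈ G, ∑ t ∈ E, wt τ t * wt ρ (z - t) <
      ∑ z ∈ G, 1 / 4 * (Real.exp (-(8 * κ)) / A.card) := by
    refine sum_lt_sum_of_nonempty hne fun z _ => lt_of_le_of_lt (hfib z) ?_
    have h1 := hcon z
    rw [div_mul_eq_mul_div, ← mul_div_assoc, div_lt_div_iff_of_pos_right ha, Real.exp_neg]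
    have he := Real.exp_pos (8 * κ)
    rw [← div_eq_mul_inv, lt_div_iff₀ he]
    linarith
  rw [sum_const, nsmul_eq_mul] at hlt
  linarith

/-! ### Numerical lemmas -/

lemma four_le_exp {κ : ℝ} (hκ : 1 ≤ κ) : (4 : ℝ) ≤ Real.exp (2 * κ) := by
  have h2 : Real.exp 2 ≤ Real.exp (2 * κ) := Real.exp_le_exp.2 (by linarith)
  have h3 : (4 : ℝ) ≤ Real.exp 2 := by
    have h5 := Real.exp_one_gt_d9
    have h6 : Real.exp 2 = Real.exp 1 * Real.exp 1 := by
      rw [← Real.exp_add]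
      norm_num
    rw [h6]
    nlinarith
  linarith

lemma num_fiber {κ h a a0 b : ℝ} (ha : 0 < a) (ha0 : 0 ≤ a0) (hb : b = Real.exp (-h + 8 * κ + 16))
    (hz : 1 ≤ 4 * Real.exp (8 * κ) * b * a0) (hlow : Real.log a - 2 * κ ≤ h) :
    a ≤ 4 * Real.exp (18 * κ + 16) * a0 := by
  have h2 : b * a ≤ Real.exp (10 * κ + 16) := by
    have e : b * a = Real.exp (-h + 8 * κ + 16 + Real.log a) := by
      rw [hb, Real.exp_add _ (Real.log _), Real.exp_log ha]
    rw [e]
    apply Real.exp_le_exp.2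
    linarith
  have h3 : Real.exp (18 * κ + 16) = Real.exp (8 * κ) * Real.exp (10 * κ + 16) := by
    rw [← Real.exp_add]
    congr 1
    ring
  have h4 := mul_le_mul_of_nonneg_right hz ha.le
  have h5 : 4 * Real.exp (8 * κ) * b * a0 * a = 4 * Real.exp (8 * κ) * a0 * (b * a) := by ring
  have h6 : 4 * Real.exp (8 * κ) * a0 * (b * a) ≤
      4 * Real.exp (8 * κ) * a0 * Real.exp (10 * κ + 16) :=
    mul_le_mul_of_nonneg_left h2 (by positivity)
  rw [h3]
  linarith

lemma num_near {κ h hm c : ℝ} (hc0 : 0 ≤ c) (hc : c ≤ Real.exp (hm + 32 * κ + 64))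
    (hh : hm ≤ h + κ) :
    4 * Real.exp (-hm + 32 * κ + 64) * c ^ 2 ≤ 4 * Real.exp (h + 97 * κ + 192) := by
  have h1 : c ^ 2 ≤ Real.exp (hm + 32 * κ + 64) ^ 2 := pow_le_pow_left₀ hc0 hc 2
  have h2 : 4 * Real.exp (-hm + 32 * κ + 64) * c ^ 2 ≤
      4 * Real.exp (-hm + 32 * κ + 64) * Real.exp (hm + 32 * κ + 64) ^ 2 :=
    mul_le_mul_of_nonneg_left h1 (by positivity)
  have h3 : 4 * Real.exp (-hm + 32 * κ + 64) * Real.exp (hm + 32 * κ + 64) ^ 2 =
      4 * Real.exp (hm + 96 * κ + 192) := by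
    rw [← Real.exp_nat_mul, mul_assoc, ← Real.exp_add]
    congr 2
    push_cast
    ring
  have h4 : Real.exp (hm + 96 * κ + 192) ≤ Real.exp (h + 97 * κ + 192) :=
    Real.exp_le_exp.2 (by linarith)
  linarith

lemma num_up {κ h a : ℝ} (hκ : 1 ≤ κ) (ha : 0 < a) (hup : h ≤ Real.log a + 2 * κ) :
    4 * Real.exp (h + 97 * κ + 192) ≤ Real.exp (400 * κ) * a := by
  calc 4 * Real.exp (h + 97 * κ + 192)
      ≤ Real.exp (2 * κ) * Real.exp (h + 97 * κ + 192) :=
        mul_le_mul_of_nonneg_right (four_le_exp hκ) (Real.exp_pos _).le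
    _ = Real.exp (2 * κ + (h + 97 * κ + 192)) := by rw [← Real.exp_add]
    _ ≤ Real.exp (400 * κ + Real.log a) := Real.exp_le_exp.2 (by linarith)
    _ = Real.exp (400 * κ) * a := by rw [Real.exp_add, Real.exp_log ha]

lemma num_growth {κ h s b : ℝ} (hκ : 1 ≤ κ) (hs : 0 ≤ s) (hb : b = Real.exp (-h + 8 * κ + 16))
    (h2 : 1 / 2 ≤ b * s) :
    4 * Real.exp (h + 97 * κ + 192) ≤ Real.exp (400 * κ) * s := by
  have h1 : Real.exp h ≤ 2 * Real.exp (8 * κ + 16) * s := by
    have h3 : b * Real.exp h = Real.exp (8 * κ + 16) := by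
      rw [hb, ← Real.exp_add]
      congr 1
      ring
    have h5 := mul_le_mul_of_nonneg_right h2 (Real.exp_pos h).le
    have h6 : b * s * Real.exp h = Real.exp (8 * κ + 16) * s := by
      rw [← h3]
      ring
    rw [h6] at h5
    linarith
  have h4 := four_le_exp hκ
  have h44 : 4 * 2 ≤ Real.exp (2 * κ) * Real.exp (2 * κ) := by nlinarith
  calc 4 * Real.exp (h + 97 * κ + 192)
      = 4 * Real.exp (97 * κ + 192) * Real.exp h := by
        rw [mul_assoc, ← Real.exp_add]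
        congr 2
        ring
    _ ≤ 4 * Real.exp (97 * κ + 192) * (2 * Real.exp (8 * κ + 16) * s) :=
        mul_le_mul_of_nonneg_left h1 (by positivity)
    _ = 4 * 2 * (Real.exp (97 * κ + 192 + (8 * κ + 16)) * s) := by
        rw [Real.exp_add (97 * κ + 192)]
        ring
    _ ≤ Real.exp (2 * κ) * Real.exp (2 * κ) * (Real.exp (97 * κ + 192 + (8 * κ + 16)) * s) :=
        mul_le_mul_of_nonneg_right h44 (by positivity)
    _ = Real.exp (2 * κ + 2 * κ + (97 * κ + 192 + (8 * κ + 16))) * s := by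
        rw [Real.exp_add (2 * κ + 2 * κ), Real.exp_add (2 * κ) (2 * κ)]
        ring
    _ ≤ Real.exp (400 * κ) * s :=
        mul_le_mul_of_nonneg_right (Real.exp_le_exp.2 (by linarith)) hs

lemma num_cover {κ : ℝ} (hκ : 1 ≤ κ) :
    4 * Real.exp (18 * κ + 16) ≤ Real.exp (400 * κ) := by
  calc 4 * Real.exp (18 * κ + 16) ≤ Real.exp (2 * κ) * Real.exp (18 * κ + 16) :=
        mul_le_mul_of_nonneg_right (four_le_exp hκ) (Real.exp_pos _).le
    _ = Real.exp (2 * κ + (18 * κ + 16)) := by rw [← Real.exp_add]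
    _ ≤ Real.exp (400 * κ) := Real.exp_le_exp.2 (by linarith)

/-! ### The main statement -/

set_option maxHeartbeats 4000000 in
/-- From a law with small entropy growth to a symmetric set with small growth, and a covering. -/
theorem exists_set_of_law : ∃ C : ℝ, 1 ≤ C ∧ ∀ {Γ : Type u} [AddCommGroup Γ] [DecidableEq Γ]
    (A : Finset Γ) (hA : A.Nonempty) (K κ : ℝ) (n j : ℕ) (τ : Law Γ), 1 ≤ κ → 1 ≤ j →
    ((A + A).card : ℝ) ≤ K * A.card → H (τ ^ (2 * n)) ≤ H τ + κ →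
    H (lawU A hA * τ) ≤ (H (lawU A hA) + H τ) / 2 + κ → 256 * (j : ℝ) ^ 2 * κ ≤ n →
    ∃ (S F : Finset Γ), 0 ∈ S ∧ (∀ x ∈ S, -x ∈ S) ∧ A ⊆ F + S ∧
      (F.card : ℝ) ≤ K * Real.exp (C * κ) ∧ (S.card : ℝ) ≤ Real.exp (C * κ) * A.card ∧
      ((itSum j S).card : ℝ) ≤ Real.exp (C * κ) * S.card := by
  refine ⟨400, by norm_num, ?_⟩
  intro Γ _ _ A hA K κ n j τ hκ hj hAA hgrow hc hn
  classical
  have ha : (0 : ℝ) < A.card := Nat.cast_pos.2 hA.card_pos
  have hj1 : (1 : ℝ) ≤ j := by exact_mod_cast hj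
  have hnR : (1 : ℝ) ≤ n := by nlinarith [sq_nonneg ((j : ℝ) - 1)]
  have hn1 : 1 ≤ n := by exact_mod_cast hnR
  have hn0 : (0 : ℝ) < n := by linarith
  set μ := τ ^ n with hμ
  -- entropies
  have hinc : H (μ * τ) - H μ ≤ κ / n := pow_growth τ κ n hn1 hgrow
  have hmono := H_pow_mono τ
  have hτμ : H τ ≤ H μ := by
    have := hmono hn1
    simpa only [pow_one] using this
  have hμ2 : H μ ≤ H (τ ^ (2 * n)) := hmono (by omega)
  have hττ : H (τ * τ) ≤ H τ + κ := by
    have h1 : H (τ ^ 2) ≤ H (τ ^ (2 * n)) := hmono (by omega)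
    rw [sq] at h1
    linarith
  have hμμ : H (μ * μ) ≤ H μ + κ := by
    rw [hμ, ← pow_add, ← two_mul]
    linarith
  rw [H_lawU] at hc
  have hρ1 : Real.log A.card ≤ H (lawU A hA * τ) := by
    rw [← H_lawU A hA]
    exact H_le_mul _ _
  have hρ2 : H τ ≤ H (lawU A hA * τ) := H_le_mul_left _ _
  have hlow : Real.log A.card - 2 * κ ≤ H τ := by linarith
  have hup : H τ ≤ Real.log A.card + 2 * κ := by linarith
  have hH : H (lawU A hA * τ) ≤ Real.log A.card + 2 * κ := by linarith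
  -- good translations
  set E := (supp τ).filter (fun t => dv μ (μ * τ) t ≤ 4 * (κ / n)) with hE
  have hκn : 0 < κ / n := by positivity
  have hE34 : 1 - 1 / 4 ≤ ∑ t ∈ E, wt τ t := by
    refine markov τ (dv μ (μ * τ)) (fun t ht => dv_nonneg μ τ ht) (1 / 4) (4 * (κ / n))
      (by positivity) ?_ E (filter_subset _ _) fun t ht h => mem_filter.2 ⟨ht, h⟩
    rw [Ex_dv]
    linarith
  set E1 := (supp τ).filter (fun t => |-Real.log (wt τ t) - H τ| ≤ 4 * (2 * κ + 4)) with hE1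
  have hE134 : 1 - 1 / 4 ≤ ∑ t ∈ E1, wt τ t := by
    refine markov τ (fun t => |-Real.log (wt τ t) - H τ|) (fun t _ => abs_nonneg _) (1 / 4)
      (4 * (2 * κ + 4)) (by positivity) ?_ E1 (filter_subset _ _)
      fun t ht h => mem_filter.2 ⟨ht, h⟩
    have := flat τ κ hττ
    linarith
  have hE' : 1 / 2 ≤ ∑ t ∈ E ∩ E1, wt τ t := by
    have h1 := sum_union_inter (s₁ := E) (s₂ := E1) (f := fun t => wt τ t)
    have h2 := sum_wt_le_one τ (E ∪ E1)
    linarith
  have hE's : E ∩ E1 ⊆ supp τ := inter_subset_left.trans (filter_subset _ _)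
  set b := Real.exp (-H τ + 8 * κ + 16) with hb
  have hEb : ∀ t ∈ E ∩ E1, wt τ t ≤ b := by
    intro t ht
    obtain ⟨ht1, ht2⟩ := mem_filter.1 (mem_inter.1 ht).2
    rw [abs_le] at ht2
    rw [hb, ← Real.exp_log (wt_pos_of_mem ht1)]
    apply Real.exp_le_exp.2
    linarith [ht2.1]
  have hb0 : 0 < b := Real.exp_pos _
  have hEcard : 1 / 2 ≤ b * ((E ∩ E1).card : ℝ) := by
    refine hE'.trans ?_
    rw [mul_comm, ← nsmul_eq_mul]
    exact sum_le_card_nsmul _ _ _ hEb
  -- the large fibre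
  obtain ⟨z, hz⟩ := exists_fiber A hA τ κ b (by linarith) (E ∩ E1) hE's hE' hb0.le hEb hH
  set A0 := A.filter (fun a => z - a ∈ E ∩ E1) with hA0
  have hA0ne : A0.Nonempty := by
    rw [nonempty_iff_ne_empty]
    intro h0
    rw [h0] at hz
    simp at hz
    linarith
  have hA0c : (A.card : ℝ) ≤ 4 * Real.exp (18 * κ + 16) * A0.card :=
    num_fiber ha (by positivity) hb hz hlow
  -- the flat part of `μ`
  set F := (supp μ).filter (fun t => |-Real.log (wt μ t) - H μ| ≤ 16 * (2 * κ + 4)) with hF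
  have hFw : 1 - 1 / 16 ≤ ∑ t ∈ F, wt μ t := by
    refine markov μ (fun t => |-Real.log (wt μ t) - H μ|) (fun t _ => abs_nonneg _) (1 / 16)
      (16 * (2 * κ + 4)) (by positivity) ?_ F (filter_subset _ _)
      fun t ht h => mem_filter.2 ⟨ht, h⟩
    have := flat μ κ hμμ
    linarith
  set bF := Real.exp (-H μ + 32 * κ + 64) with hbF
  have hFb : ∀ t ∈ F, wt μ t ≤ bF := by
    intro t ht
    rw [hF, mem_filter] at ht
    obtain ⟨ht1, ht2⟩ := ht
    rw [abs_le] at ht2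
    rw [hbF, ← Real.exp_log (wt_pos_of_mem ht1)]
    apply Real.exp_le_exp.2
    linarith [ht2.1]
  have hbF0 : 0 < bF := Real.exp_pos _
  have hFcard : (F.card : ℝ) ≤ Real.exp (H μ + 32 * κ + 64) := by
    have h1 : (F.card : ℝ) * Real.exp (-(H μ + 32 * κ + 64)) ≤ 1 := by
      refine le_trans ?_ (sum_wt_le_one μ F)
      rw [← nsmul_eq_mul]
      refine card_nsmul_le_sum _ _ _ fun t ht => ?_
      rw [hF, mem_filter] at ht
      obtain ⟨ht1, ht2⟩ := ht
      rw [abs_le] at ht2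
      rw [← Real.exp_log (wt_pos_of_mem ht1)]
      apply Real.exp_le_exp.2
      linarith [ht2.2]
    rw [Real.exp_neg, ← div_eq_mul_inv, div_le_one (Real.exp_pos _)] at h1
    exact h1
  -- finite sets of near translates have bounded size
  have hnear : ∀ T : Finset Γ, (∀ x ∈ T, Near μ (1 / 4) x) →
      (T.card : ℝ) ≤ 4 * Real.exp (H τ + 97 * κ + 192) := by
    intro T hT
    refine (card_near_le μ F hFw bF hFb hbF0.le T hT).trans ?_
    rw [hbF]
    exact num_near (by positivity) hFcard (by linarith)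
  -- the set `S`
  set ε := 4 * √(κ / n) with hε
  have hε0 : 0 ≤ ε := by positivity
  have hjε : (j : ℝ) * ε ≤ 1 / 4 := by
    have h1 : √(κ / n) ≤ 1 / (16 * j) := by
      rw [Real.sqrt_le_left (by positivity), div_pow, mul_pow, one_pow, div_le_div_iff₀ hn0
        (by positivity)]
      linarith
    calc (j : ℝ) * ε = 4 * j * √(κ / n) := by rw [hε]; ring
      _ ≤ 4 * j * (1 / (16 * j)) := by gcongr
      _ = 1 / 4 := by
        field_simp
        norm_num
  have hε4 : ε ≤ 1 / 4 := by nlinarith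
  set S := (F - F).filter (fun x => Near μ ε x) with hS
  have hmemS : ∀ x, x ∈ S ↔ Near μ ε x := by
    intro x
    rw [hS, mem_filter]
    refine ⟨fun h => h.2, fun h => ⟨?_, h⟩⟩
    have h1 := overlap μ F hFw bF hFb hbF0.le x (h.mono hε0 hε4)
    have h2 : (F.filter (fun g => g - x ∈ F)).Nonempty := by
      rw [nonempty_iff_ne_empty]
      intro h0
      rw [h0] at h1
      simp at h1
      linarith
    obtain ⟨g, hg⟩ := h2
    rw [mem_filter] at hg
    rw [mem_sub]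
    exact ⟨g, hg.1, g - x, hg.2, by abel⟩
  have hEES : ∀ t ∈ E, ∀ t' ∈ E, t - t' ∈ S := by
    have hcl : ∀ t ∈ E, Cl (2 * √(κ / n)) (fun g => rt μ (g - t)) (rt (μ * τ)) := by
      intro t ht
      rw [hE, mem_filter] at ht
      refine cl_of_dv μ τ ht.1 ?_
      rw [mul_pow, Real.sq_sqrt hκn.le]
      linarith [ht.2]
    intro t ht t' ht'
    rw [hmemS]
    have h0 : 0 ≤ 2 * √(κ / n) := by positivity
    have h1 := Cl.trans h0 h0 (hcl t ht) (hcl t' ht').symm
    have h2 := Cl.translate h1 (-t')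
    have e1 : 2 * √(κ / n) + 2 * √(κ / n) = ε := by rw [hε]; ring
    rw [e1] at h2
    unfold Near
    have e2 : (fun g => rt μ (g - -t' - t)) = fun g => rt μ (g - (t - t')) := by
      funext g
      congr 1
      abel
    have e3 : (fun g => rt μ (g - -t' - t')) = rt μ := by
      funext g
      congr 1
      abel
    rw [e2, e3] at h2
    exact h2
  have hitS : ∀ i : ℕ, ∀ x ∈ itSum i S, Near μ (i * ε) x := by
    intro i
    induction i with
    | zero =>
      intro x hx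
      rw [itSum_zero, mem_singleton] at hx
      rw [hx]
      exact Near.zero μ
    | succ i ih =>
      intro x hx
      rw [itSum_succ, mem_add] at hx
      obtain ⟨y, hy, w, hw, rfl⟩ := hx
      have h1 := Near.add (by positivity) hε0 (ih y hy) ((hmemS w).1 hw)
      have e : (i : ℝ) * ε + ε = ((i + 1 : ℕ) : ℝ) * ε := by
        push_cast
        ring
      rwa [e] at h1
  have hjS : ((itSum j S).card : ℝ) ≤ 4 * Real.exp (H τ + 97 * κ + 192) :=
    hnear _ fun x hx => (hitS j x hx).mono (by positivity) hjε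
  have hSup : (S.card : ℝ) ≤ 4 * Real.exp (H τ + 97 * κ + 192) :=
    hnear _ fun x hx => ((hmemS x).1 hx).mono hε0 hε4
  -- lower bound for `S`
  have hSlow : ((E ∩ E1).card : ℝ) ≤ S.card := by
    have hne : (E ∩ E1).Nonempty := by
      rw [nonempty_iff_ne_empty]
      intro h0
      rw [h0] at hE'
      simp at hE'
      linarith
    obtain ⟨t0, ht0⟩ := hne
    have : (E ∩ E1).card ≤ S.card := by
      refine card_le_card_of_injOn (fun t => t - t0) ?_ ?_
      · intro t ht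
        exact hEES t (mem_inter.1 ht).1 t0 (mem_inter.1 ht0).1
      · intro t _ t' _ e
        simpa using e
    exact_mod_cast this
  -- the covering
  have hAA0 : ((A + A0).card : ℝ) ≤ K * (4 * Real.exp (18 * κ + 16)) * A0.card := by
    have h1 : ((A + A0).card : ℝ) ≤ (A + A).card := by
      exact_mod_cast card_le_card (add_subset_add_left (filter_subset _ _))
    have hK : 0 ≤ K := by
      by_contra hK
      have h2 : (0 : ℝ) ≤ (A + A).card := by positivity
      have h3 := mul_neg_of_neg_of_pos (not_le.1 hK) ha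
      linarith
    calc ((A + A0).card : ℝ) ≤ K * A.card := h1.trans hAA
      _ ≤ K * (4 * Real.exp (18 * κ + 16) * A0.card) := by gcongr
      _ = K * (4 * Real.exp (18 * κ + 16)) * A0.card := by ring
  obtain ⟨F', -, hF'c, hF's⟩ := ruzsa_covering_add hA0ne hAA0
  have hK : 0 ≤ K := by
    by_contra hK
    have h2 : (0 : ℝ) ≤ (A + A).card := by positivity
    have h3 := mul_neg_of_neg_of_pos (not_le.1 hK) ha
    linarith
  refine ⟨S, F', (hmemS 0).2 (Near.zero μ), fun x hx => (hmemS _).2 ((hmemS x).1 hx).neg, ?_,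
    ?_, ?_, ?_⟩
  · refine hF's.trans (add_subset_add_left ?_)
    intro x hx
    rw [mem_sub] at hx
    obtain ⟨a1, h1, a2, h2, rfl⟩ := hx
    rw [hA0, mem_filter, mem_inter] at h1 h2
    have := hEES _ h2.2.1 _ h1.2.1
    rwa [sub_sub_sub_cancel_left] at this
  · exact hF'c.trans (mul_le_mul_of_nonneg_left (num_cover hκ) hK)
  · exact hSup.trans (num_up hκ ha hup)
  · exact hjS.trans (num_growth hκ (by positivity) hb
      (hEcard.trans (mul_le_mul_of_nonneg_left hSlow hb0.le)))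

end

end Pool.Agent.Lib.MP_dd2a7c_co
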