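import Pool.Agent.Lib.MP_dd2a7c_co.Reg

/-!
Regularization: iteration over the scales `2^(2^i)`.
-/

namespace Pool.Agent.Lib.MP_dd2a7c_co

open Finset
open scoped Classical

noncomputable section

universe u

variable {Γ : Type u} [AddCommGroup Γ]

lemma prod_range_shift {M : Type*} [CommMonoid M] (n : ℕ) [NeZero n] (f : ZMod n → M)
    (a : ZMod n) : ∏ i ∈ range n, f (a + (i : ZMod n)) = ∏ b, f b := by
  rw [← Equiv.prod_comp (Equiv.addLeft a) f]
  refine prod_nbij' (fun i => (i : ZMod n)) (fun b => b.val) ?_ ?_ ?_ ?_ ?_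
  · intro i _
    exact mem_univ _
  · intro b _
    exact mem_range.2 (ZMod.val_lt b)
  · intro i hi
    exact ZMod.val_cast_of_lt (mem_range.1 hi)
  · intro b _
    exact ZMod.natCast_zmod_val b
  · intro i _
    rfl

section one

variable {ι : Type*} [Fintype ι] [Nonempty ι]

lemma H_le_prod (μ : ι → Law Γ) (j : ι) : H (μ j) ≤ H (∏ i, μ i) := by
  rw [← mul_prod_erase univ μ (mem_univ j)]
  exact H_le_mul _ _

lemma sum_H_le (μ : ι → Law Γ) : (∑ j, H (μ j)) / Fintype.card ι ≤ H (∏ i, μ i) := by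
  have hn : (0 : ℝ) < Fintype.card ι := Nat.cast_pos.2 Fintype.card_pos
  rw [div_le_iff₀ hn]
  calc ∑ j, H (μ j) ≤ ∑ _j : ι, H (∏ i, μ i) := sum_le_sum fun j _ => H_le_prod μ j
    _ = H (∏ i, μ i) * Fintype.card ι := by
        rw [sum_const, nsmul_eq_mul, card_univ]
        ring

lemma Fn_nonneg {ρ : Law Γ} {η : ℝ} (hη : 0 ≤ η) (μ : ι → Law Γ) : 0 ≤ Fn ρ η μ := by
  unfold Fn
  have h1 := sum_H_le μ
  have h2 : 0 ≤ η * ((∑ j, cst ρ (μ j)) / Fintype.card ι) :=
    mul_nonneg hη (div_nonneg (sum_nonneg fun j _ => cst_nonneg _ _) (Nat.cast_nonneg _))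
  linarith

lemma exists_near_min {ρ : Law Γ} {η ε : ℝ} (hη : 0 ≤ η) (hε : 0 < ε) (μ₀ : ι → Law Γ) :
    ∃ μ : ι → Law Γ, (∀ ν : ι → Law Γ, Fn ρ η μ ≤ Fn ρ η ν + ε) ∧
      Fn ρ η μ ≤ Fn ρ η μ₀ + ε := by
  have hbdd : BddBelow (Set.range fun μ : ι → Law Γ => Fn ρ η μ) :=
    ⟨0, by
      rintro _ ⟨μ, rfl⟩
      exact Fn_nonneg hη μ⟩
  obtain ⟨_, ⟨μ, rfl⟩, hμ⟩ := exists_lt_of_csInf_lt
    (⟨_, Set.mem_range_self μ₀⟩ : (Set.range fun μ : ι → Law Γ => Fn ρ η μ).Nonempty)
    (lt_add_of_pos_right (sInf (Set.range fun μ : ι → Law Γ => Fn ρ η μ)) hε)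
  have h : ∀ ν : ι → Law Γ, Fn ρ η μ ≤ Fn ρ η ν + ε := fun ν => by
    have := csInf_le hbdd (Set.mem_range_self ν)
    simp only at hμ this
    linarith
  exact ⟨μ, h, h μ₀⟩

/-- The growth of the powers of the product of a near-minimizer. -/
theorem pow_ineq {ρ : Law Γ} {η ε : ℝ} (hη : 0 ≤ η) (hε : 0 ≤ ε) (μ : ι → Law Γ)
    (hmin : ∀ ν : ι → Law Γ, Fn ρ η μ ≤ Fn ρ η ν + ε) :
    H ((∏ j, μ j) ^ Fintype.card ι) - H (∏ j, μ j) ≤
      (1 + η / 2) * (H (∏ j, μ j) - (∑ j, H (μ j)) / Fintype.card ι) +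
        Fintype.card ι * ε := by
  obtain ⟨n, hn⟩ : ∃ n, n = Fintype.card ι := ⟨_, rfl⟩
  have hn0 : n ≠ 0 := by
    rw [hn]
    exact Fintype.card_ne_zero
  haveI : NeZero n := ⟨hn0⟩
  have hnpos : (0 : ℝ) < n := Nat.cast_pos.2 (Nat.pos_of_ne_zero hn0)
  let e : ι ≃ ZMod n := Fintype.equivOfCardEq (by rw [ZMod.card, hn])
  let σ : ℕ → ι ≃ ι := fun l => (e.trans (Equiv.addRight (l : ZMod n))).trans e.symm
  have hσ : ∀ l j, σ l j = e.symm (e j + (l : ZMod n)) := fun l j => rfl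
  set T := ∏ j, μ j with hT
  let W : ℕ → ι → Law Γ := fun l j => ∏ i ∈ range l, μ (σ i j)
  have hWprod : ∀ l, ∏ j, W l j = T ^ l := by
    intro l
    change ∏ j, ∏ i ∈ range l, μ (σ i j) = T ^ l
    rw [prod_comm]
    have : ∀ i ∈ range l, ∏ j, μ (σ i j) = T := fun i _ => Equiv.prod_comp (σ i) μ
    rw [prod_congr rfl this, prod_const, card_range]
  have hWsucc : ∀ l j, W (l + 1) j = μ (σ l j) * W l j := by
    intro l j
    change ∏ i ∈ range (l + 1), μ (σ i j) = μ (σ l j) * ∏ i ∈ range l, μ (σ i j)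
    rw [prod_range_succ, mul_comm]
  have hF : ∀ l, Fn ρ η (fun j => μ (σ l j)) = Fn ρ η μ := by
    intro l
    unfold Fn
    rw [Equiv.prod_comp (σ l) μ, Equiv.sum_comp (σ l) (fun j => H (μ j)),
      Equiv.sum_comp (σ l) (fun j => cst ρ (μ j))]
  have step : ∀ l, H (T ^ (l + 1)) - H (T ^ l) ≤
      (1 + η / 2) * ((∑ j, (H (W (l + 1) j) - H (W l j))) / n) + ε := by
    intro l
    have h := key_ineq hη (fun j => μ (σ l j)) (fun ν => by
      rw [hF]
      exact hmin ν) (W l)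
    have h1 : ∏ j, μ (σ l j) * W l j = T ^ (l + 1) := by
      rw [← hWprod]
      exact prod_congr rfl fun j _ => (hWsucc l j).symm
    rw [h1, hWprod, ← hn] at h
    have h2 : ∀ j, H (μ (σ l j) * W l j) = H (W (l + 1) j) := fun j => by rw [hWsucc]
    simp_rw [h2] at h
    exact h
  have tele : ∀ m, H (T ^ (m + 1)) - H (T ^ 1) ≤
      (1 + η / 2) * ((∑ j, (H (W (m + 1) j) - H (W 1 j))) / n) + m * ε := by
    intro m
    induction m with
    | zero => simp
    | succ m ih =>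
      have h := step (m + 1)
      have h1 : ∑ j, (H (W (m + 1 + 1) j) - H (W 1 j)) =
          ∑ j, (H (W (m + 1 + 1) j) - H (W (m + 1) j)) + ∑ j, (H (W (m + 1) j) - H (W 1 j)) := by
        rw [← sum_add_distrib]
        refine sum_congr rfl fun j _ => ?_
        ring
      rw [h1, add_div, mul_add]
      push_cast
      linarith
  obtain ⟨m, hm⟩ : ∃ m, n = m + 1 := Nat.exists_eq_succ_of_ne_zero hn0
  have hfin := tele m
  rw [← hm, pow_one] at hfin
  have hWn : ∀ j, W n j = T := by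
    intro j
    change ∏ i ∈ range n, μ (σ i j) = T
    have h1 : ∀ i ∈ range n, μ (σ i j) = (fun b => μ (e.symm b)) (e j + (i : ZMod n)) :=
      fun i _ => rfl
    rw [prod_congr rfl h1, prod_range_shift n (fun b => μ (e.symm b)) (e j)]
    exact Equiv.prod_comp e.symm μ
  have hW1 : ∀ j, W 1 j = μ j := by
    intro j
    change ∏ i ∈ range 1, μ (σ i j) = μ j
    rw [prod_range_one, hσ]
    simp
  have h3 : (∑ j, (H (W n j) - H (W 1 j))) / n = H T - (∑ j, H (μ j)) / n := by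
    have : ∑ j, (H (W n j) - H (W 1 j)) = n * H T - ∑ j, H (μ j) := by
      rw [sum_sub_distrib]
      congr 1
      · rw [sum_congr rfl fun j _ => by rw [hWn], sum_const, nsmul_eq_mul, card_univ, ← hn]
      · exact sum_congr rfl fun j _ => by rw [hW1]
    rw [this, sub_div]
    congr 1
    field_simp
  rw [h3] at hfin
  rw [← hn]
  have h4 : (m : ℝ) * ε ≤ n * ε := by
    refine mul_le_mul_of_nonneg_right ?_ hε
    rw [hm]
    push_cast
    linarith
  linarith

/-- The cost of the product of a tuple. -/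
lemma cst_prod_le (ρ : Law Γ) (μ : ι → Law Γ) :
    cst ρ (∏ j, μ j) ≤ (∑ j, cst ρ (μ j)) / Fintype.card ι +
      (H (∏ j, μ j) - (∑ j, H (μ j)) / Fintype.card ι) / 2 := by
  have hn : (0 : ℝ) < Fintype.card ι := Nat.cast_pos.2 Fintype.card_pos
  have h1 : ∀ j, cst ρ (∏ j, μ j) ≤ cst ρ (μ j) + (H (∏ j, μ j) - H (μ j)) / 2 := by
    intro j
    have h := H_submod ρ (μ j) (∏ i ∈ univ.erase j, μ i)
    rw [mul_assoc, mul_prod_erase univ μ (mem_univ j)] at h
    unfold cst
    linarith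
  have h2 := sum_le_sum fun j (_ : j ∈ (univ : Finset ι)) => h1 j
  rw [sum_const, nsmul_eq_mul, card_univ, sum_add_distrib, ← sum_div, sum_sub_distrib,
    sum_const, nsmul_eq_mul, card_univ] at h2
  have h3 : (∑ j, cst ρ (μ j)) / Fintype.card ι +
      (H (∏ j, μ j) - (∑ j, H (μ j)) / Fintype.card ι) / 2 =
      ((∑ j, cst ρ (μ j)) + ((Fintype.card ι : ℝ) * H (∏ j, μ j) - ∑ j, H (μ j)) / 2) /
        Fintype.card ι := by
    field_simp
  rw [h3, le_div_iff₀ hn]
  linarith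

/-- Passing from index set `ι` to `ι × ι`. -/
lemma Fn_square_le {ρ : Law Γ} {η η' ε : ℝ} (hη : 0 ≤ η) (hη' : η' ≤ 2 * η) (hε : 0 ≤ ε)
    (μ : ι → Law Γ) (hmin : ∀ ν : ι → Law Γ, Fn ρ η μ ≤ Fn ρ η ν + ε) :
    Fn ρ η' (fun x : ι × ι => μ x.1) ≤ (2 + η / 2) * Fn ρ η μ + Fintype.card ι * ε := by
  have hn : (0 : ℝ) < Fintype.card ι := Nat.cast_pos.2 Fintype.card_pos
  have h1 : ∏ x : ι × ι, μ x.1 = (∏ j, μ j) ^ Fintype.card ι := by
    rw [Fintype.prod_prod_type]
    simp only [prod_const, card_univ]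
    rw [prod_pow]
  have h2 : ∀ F : Law Γ → ℝ, (∑ x : ι × ι, F (μ x.1)) / Fintype.card (ι × ι) =
      (∑ j, F (μ j)) / Fintype.card ι := by
    intro F
    rw [Fintype.sum_prod_type, Fintype.card_prod]
    simp only [sum_const, card_univ, nsmul_eq_mul]
    rw [← mul_sum]
    push_cast
    field_simp
  have h3 := pow_ineq hη hε μ hmin
  have h4 := sum_H_le μ
  have h5 : 0 ≤ (∑ j, cst ρ (μ j)) / Fintype.card ι :=
    div_nonneg (sum_nonneg fun j _ => cst_nonneg _ _) (Nat.cast_nonneg _)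
  unfold Fn
  rw [h1, h2 H, h2 (cst ρ)]
  have h6 : η' * ((∑ j, cst ρ (μ j)) / Fintype.card ι) ≤
      (2 + η / 2) * (η * ((∑ j, cst ρ (μ j)) / Fintype.card ι)) := by
    rw [← mul_assoc]
    refine mul_le_mul_of_nonneg_right ?_ h5
    nlinarith
  linarith

end one

/-- **Regularization.** If `H(ρρ) ≤ H(ρ) + k` then at cost `O(k 2^s)` there is a law `τ` whose
`2^(2^s)`-fold sums have entropy at most `H(τ) + O(k 2^s)`. -/
theorem exists_reg (ρ : Law Γ) (k : ℝ) (hk : 0 < k) (h : H (ρ * ρ) ≤ H ρ + k) (s : ℕ) :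
    ∃ τ : Law Γ, H (τ ^ (2 ^ (2 ^ s))) ≤ H τ + 7 * k * 2 ^ s ∧
      H (ρ * τ) ≤ (H ρ + H τ) / 2 + 4 * k * 2 ^ s := by
  set N : ℝ := 2 ^ (2 ^ s) with hN
  have hNpos : 0 < N := by positivity
  set ε : ℝ := k / (N + 2) with hε
  have hεpos : 0 < ε := by positivity
  set E : ℝ := (N + 1) * ε with hE
  have hEε : E + ε = k := by
    rw [hE, hε]
    field_simp
    ring
  set η : ℕ → ℝ := fun i => 2 ^ i / 2 ^ s with hηdef
  have hη : ∀ i, 0 ≤ η i := fun i => by positivity
  set X : ℕ → ℝ := fun i => 2 ^ i * Real.exp (2 ^ i / (4 * 2 ^ s)) * (3 * k) with hX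
  have claim : ∀ i ≤ s, ∃ (ι : Type) (_ : Fintype ι) (_ : Nonempty ι),
      Fintype.card ι = 2 ^ (2 ^ i) ∧ ∃ μ : ι → Law Γ,
        (∀ ν : ι → Law Γ, Fn ρ (η i) μ ≤ Fn ρ (η i) ν + ε) ∧ Fn ρ (η i) μ ≤ X i - E := by
    intro i
    induction i with
    | zero =>
      intro _
      obtain ⟨μ, hμ, hμ2⟩ := exists_near_min (ι := Fin 2) (ρ := ρ) (hη 0) hεpos
        (fun _ => ρ)
      refine ⟨Fin 2, inferInstance, inferInstance, by simp, μ, hμ, hμ2.trans ?_⟩
      have h1 : Fn ρ (η 0) (fun _ : Fin 2 => ρ) = H (ρ * ρ) - H ρ + η 0 * cst ρ ρ := by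
        unfold Fn
        simp only [Fin.prod_univ_two, sum_const, card_univ, Fintype.card_fin, nsmul_eq_mul]
        norm_num
      have h2 : cst ρ ρ ≤ k := by
        unfold cst
        linarith
      have h3 : η 0 ≤ 1 := by
        simp only [hηdef, pow_zero]
        rw [div_le_one (by positivity)]
        exact one_le_pow₀ (by norm_num)
      have h4 : η 0 * cst ρ ρ ≤ 1 * k :=
        mul_le_mul h3 h2 (cst_nonneg _ _) zero_le_one
      have h5 : 3 * k ≤ X 0 := by
        simp only [hX, pow_zero, one_mul]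
        have : 1 ≤ Real.exp (1 / (4 * 2 ^ s)) := Real.one_le_exp (by positivity)
        nlinarith
      rw [h1]
      linarith
    | succ i ih =>
      intro hi
      obtain ⟨ι, inst, hne, hcard, μ, hμ, hμ2⟩ := ih (by omega)
      have hη2 : η (i + 1) ≤ 2 * η i := by
        simp only [hηdef, pow_succ]
        apply le_of_eq
        ring
      have hsq := Fn_square_le (hη i) hη2 hεpos.le μ hμ
      obtain ⟨μ', hμ', hμ'2⟩ := exists_near_min (ι := ι × ι) (ρ := ρ) (hη (i + 1)) hεpos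
        (fun x => μ x.1)
      refine ⟨ι × ι, inferInstance, inferInstance, ?_, μ', hμ', ?_⟩
      · rw [Fintype.card_prod, hcard, ← pow_add, pow_succ]
        congr 1
        ring
      · have hcN : ((Fintype.card ι : ℕ) : ℝ) ≤ N := by
          rw [hcard, hN]
          push_cast
          exact pow_le_pow_right₀ (by norm_num) (Nat.pow_le_pow_right (by norm_num) (by omega))
        have h1 : (Fintype.card ι : ℝ) * ε + ε ≤ E := by
          rw [hE]
          nlinarith
        have h2 : (2 + η i / 2) * Fn ρ (η i) μ ≤ (2 + η i / 2) * (X i - E) :=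
          mul_le_mul_of_nonneg_left hμ2 (by have := hη i; linarith)
        have hEpos : 0 ≤ E := by positivity
        have h3 : 2 * E ≤ (2 + η i / 2) * E :=
          mul_le_mul_of_nonneg_right (by have := hη i; linarith) hEpos
        have h4 : (2 + η i / 2) * X i ≤ X (i + 1) := by
          have h5 : 1 + η i / 4 ≤ Real.exp (η i / 4) := by
            have := Real.add_one_le_exp (η i / 4)
            linarith
          have h6 : X (i + 1) = 2 * Real.exp (η i / 4) * X i := by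
            simp only [hX, hηdef]
            have : Real.exp (2 ^ (i + 1) / (4 * 2 ^ s)) =
                Real.exp (2 ^ i / 2 ^ s / 4) * Real.exp (2 ^ i / (4 * 2 ^ s)) := by
              rw [← Real.exp_add]
              congr 1
              field_simp
              ring
            rw [this, pow_succ]
            ring
          rw [h6]
          have h7 : 0 ≤ X i := by
            simp only [hX]
            positivity
          nlinarith
        linarith
  obtain ⟨ι, inst, hne, hcard, μ, hμ, hμ2⟩ := claim s le_rfl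
  have hη1 : η s = 1 := by
    simp only [hηdef]
    exact div_self (by positivity)
  rw [hη1] at hμ hμ2
  have hXs : X s ≤ 4 * k * 2 ^ s := by
    simp only [hX]
    have h1 : (2 : ℝ) ^ s / (4 * 2 ^ s) = 1 / 4 := by field_simp
    rw [h1]
    have h2 : Real.exp (1 / 4) ≤ 4 / 3 := by
      have h3 : Real.exp (1 / 4) ≤ 1 / (1 - 1 / 4) :=
        Real.exp_bound_div_one_sub_of_interval (by norm_num) (by norm_num)
      refine h3.trans ?_
      norm_num
    have h4 : (0 : ℝ) ≤ 2 ^ s * (3 * k) := by positivity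
    nlinarith
  have hEpos : 0 ≤ E := by positivity
  have hpow := pow_ineq zero_le_one hεpos.le μ hμ
  have hcst := cst_prod_le ρ μ
  have hle := sum_H_le μ
  have hc0 : 0 ≤ (∑ j, cst ρ (μ j)) / Fintype.card ι :=
    div_nonneg (sum_nonneg fun j _ => cst_nonneg _ _) (Nat.cast_nonneg _)
  have hFn : Fn ρ 1 μ = H (∏ j, μ j) - (∑ j, H (μ j)) / Fintype.card ι +
      (∑ j, cst ρ (μ j)) / Fintype.card ι := by
    unfold Fn
    ring
  rw [hFn] at hμ2
  refine ⟨∏ j, μ j, ?_, ?_⟩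
  · rw [hcard] at hpow
    push_cast at hpow
    rw [← hN] at hpow
    have h1 : N * ε ≤ k := by
      have : N * ε ≤ E := by
        rw [hE]
        nlinarith
      linarith
    have h2 : k ≤ k * 2 ^ s := by
      have : (1 : ℝ) ≤ 2 ^ s := one_le_pow₀ (by norm_num)
      nlinarith
    rw [hcard] at hμ2 hc0 hle
    push_cast at hμ2 hc0 hle
    rw [← hN] at hμ2 hc0 hle
    linarith
  · have hc : cst ρ (∏ j, μ j) = H (ρ * ∏ j, μ j) - (H ρ + H (∏ j, μ j)) / 2 := rfl
    linarith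

end

end Pool.Agent.Lib.MP_dd2a7c_co
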