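import Mathlib
import Pool.Agent.Lib.MP_dd2a7c_co.RegIter
import Pool.Agent.Lib.MP_dd2a7c_co.IterSum
import Pool.Agent.Lib.MP_dd2a7c_co.Prog
import Pool.Agent.Lib.MP_dd2a7c_co.Growth
import Pool.Agent.Lib.MP_dd2a7c_co.LawToSet

section

/-!
Choice of the parameters and assembly of the theorem with `(2K)^(C log (2 + log (2K)))` translates.
-/

namespace Pool.Agent.Lib.MP_dd2a7c_co

open Finset
open scoped Pointwise

universe u

/-- From a law to a set and a covering. -/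
def LawToSetStmt (C : ℝ) : Prop :=
  ∀ (Γ : Type u) [AddCommGroup Γ] [DecidableEq Γ] (A : Finset Γ) (hA : A.Nonempty) (K κ : ℝ)
    (n j : ℕ) (τ : Law Γ), 1 ≤ κ → 1 ≤ j → ((A + A).card : ℝ) ≤ K * A.card →
    H (τ ^ (2 * n)) ≤ H τ + κ → H (lawU A hA * τ) ≤ (H (lawU A hA) + H τ) / 2 + κ →
    256 * (j : ℝ) ^ 2 * κ ≤ n →
    ∃ S F : Finset Γ, 0 ∈ S ∧ (∀ x ∈ S, -x ∈ S) ∧ A ⊆ F + S ∧
      (F.card : ℝ) ≤ K * Real.exp (C * κ) ∧ (S.card : ℝ) ≤ Real.exp (C * κ) * A.card ∧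
      ((itSum j S).card : ℝ) ≤ Real.exp (C * κ) * S.card

/-- From a set of small growth to a coset progression. -/
def GrowthStmt (C : ℝ) (a : ℕ) : Prop :=
  ∀ (Γ : Type u) [AddCommGroup Γ] [DecidableEq Γ] (S : Finset Γ) (κ : ℝ) (N : ℕ), 0 ∈ S →
    (∀ x ∈ S, -x ∈ S) → 1 ≤ κ → C * κ ^ a ≤ N →
    ((itSum N S).card : ℝ) ≤ Real.exp κ * S.card →
    ∃ Q : CosetProg Γ, (∀ x ∈ S, x ∈ Q.carrier) ∧
      (Q.vol : ℝ) ≤ Real.exp (C * κ) * S.card ∧ (Q.dim : ℝ) * Real.log N ≤ C * κ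

/-- Shrinking a coset progression. -/
def ShrinkStmt (C : ℝ) : Prop :=
  ∀ (Γ : Type u) [AddCommGroup Γ] [DecidableEq Γ] (Q : CosetProg Γ) (N : ℕ) (M : ℝ), 1 ≤ N →
    1 ≤ M → (Q.vol : ℝ) ≤ M * N →
    ∃ (Q' : CosetProg Γ) (T : Finset Γ), Q'.dim ≤ max 1 Q.dim ∧ Q'.vol ≤ N ∧
      (T.card : ℝ) ≤ C * C ^ Q.dim * M ∧
      ∀ g ∈ Q.carrier, ∃ t ∈ T, ∃ g' ∈ Q'.carrier, g = t + g'

/-- Choice of the scale. -/
theorem exists_scale (C : ℝ) (hC : 1 ≤ C) (a : ℕ) :
    ∃ C' : ℝ, 1 ≤ C' ∧ ∀ k : ℝ, 0 < k → ∃ u : ℕ,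
      512 * (28 * (1 + k) * (2 : ℝ) ^ u) ≤ (2 : ℝ) ^ (2 * 2 ^ u) ∧
      C * (C * (28 * (1 + k) * (2 : ℝ) ^ u)) ^ a ≤ (2 : ℝ) ^ (2 ^ u) ∧
      (2 : ℝ) ^ u ≤ C' * Real.log (2 + k) := by
  have hlog2 : 0 < Real.log 2 := Real.log_pos one_lt_two
  set b := a + 1 with hb
  set M : ℝ := (b.factorial : ℝ) * (2 / Real.log 2) ^ b * (14336 * C) ^ b with hM
  have hfac : (1 : ℝ) ≤ b.factorial := by
    have := b.factorial_pos
    exact_mod_cast this
  have h2log : 1 ≤ 2 / Real.log 2 := by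
    rw [le_div_iff₀ hlog2]
    have := Real.log_two_lt_d9
    linarith
  have hMpos : 0 < M := by positivity
  have hM1 : 1 ≤ M := by
    have h1 : (1 : ℝ) ≤ (2 / Real.log 2) ^ b := one_le_pow₀ h2log
    have h2 : (1 : ℝ) ≤ (14336 * C) ^ b := one_le_pow₀ (by linarith)
    calc (1 : ℝ) = 1 * 1 * 1 := by norm_num
      _ ≤ M := by rw [hM]; gcongr
  have hlogM : 0 ≤ Real.log M := Real.log_nonneg hM1
  set D : ℝ := 2 * (1 / Real.log 2 + 2 / Real.log 2 * (Real.log M / Real.log 2 + b)) with hD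
  refine ⟨max 1 D, le_max_left _ _, fun k hk => ?_⟩
  have hk2 : Real.log 2 ≤ Real.log (2 + k) := Real.log_le_log two_pos (by linarith)
  have hlk : 0 < Real.log (2 + k) := lt_of_lt_of_le hlog2 hk2
  set L₀ : ℝ := 1 + 2 / Real.log 2 * (Real.log M + b * Real.log (2 + k)) with hL₀
  have hb0 : (0 : ℝ) ≤ b := Nat.cast_nonneg b
  have hL₀1 : 1 ≤ L₀ := by
    rw [hL₀]
    have : 0 ≤ 2 / Real.log 2 * (Real.log M + b * Real.log (2 + k)) := by positivity
    linarith
  obtain ⟨v, hv1, hv2⟩ := exists_nat_pow_near hL₀1 (one_lt_two (α := ℝ))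
  set t : ℝ := (2 : ℝ) ^ (v + 1) with ht
  have ht2 : t ≤ 2 * L₀ := by rw [ht, pow_succ]; linarith
  have ht1 : 1 ≤ t := one_le_pow₀ one_le_two
  have htn : ((2 ^ (v + 1) : ℕ) : ℝ) = t := by rw [ht]; push_cast; rfl
  set x : ℝ := t * Real.log 2 / 2 with hx
  have hx0 : 0 < x := by positivity
  -- `2 ^ t = exp (2 x)`
  have hpow : (2 : ℝ) ^ (2 ^ (v + 1)) = Real.exp x * Real.exp x := by
    rw [← Real.exp_add, ← Real.exp_log (pow_pos two_pos (2 ^ (v + 1)) : (0:ℝ) < 2 ^ (2 ^ (v + 1))),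
      Real.log_pow, htn]
    congr 1
    rw [hx]; ring
  have hk1 : 1 ≤ 1 + k := by linarith
  have hexp1 : M * (1 + k) ^ b ≤ Real.exp x := by
    rw [← Real.log_le_iff_le_exp (by positivity), Real.log_mul hMpos.ne' (by positivity),
      Real.log_pow]
    have h1 : Real.log (1 + k) ≤ Real.log (2 + k) := Real.log_le_log (by linarith) (by linarith)
    have h2 : 2 / Real.log 2 * (Real.log M + b * Real.log (2 + k)) ≤ t := by
      rw [hL₀] at hv2; linarith
    have h3 : Real.log M + b * Real.log (2 + k) ≤ x := by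
      rw [hx, le_div_iff₀ two_pos]
      rw [div_mul_eq_mul_div, div_le_iff₀ hlog2] at h2
      linarith
    calc Real.log M + b * Real.log (1 + k) ≤ Real.log M + b * Real.log (2 + k) := by gcongr
      _ ≤ x := h3
  have hexp2 : x ^ b / b.factorial ≤ Real.exp x := Real.pow_div_factorial_le_exp x hx0.le b
  have htx : t = 2 / Real.log 2 * x := by rw [hx]; field_simp
  have hbig : (14336 * C) ^ b * (1 + k) ^ b * t ^ b ≤ (2 : ℝ) ^ (2 ^ (v + 1)) := by
    rw [hpow]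
    have h1 : (14336 * C) ^ b * (1 + k) ^ b * t ^ b =
        (M * (1 + k) ^ b) * (x ^ b / b.factorial) := by
      rw [htx, mul_pow (2 / Real.log 2) x b, hM]
      have hf : (b.factorial : ℝ) ≠ 0 := by positivity
      generalize (14336 * C) ^ b = y
      generalize (2 / Real.log 2) ^ b = z
      field_simp
    rw [h1]
    gcongr
  have h14 : (1 : ℝ) ≤ 14336 * C := by linarith
  refine ⟨v + 1, ?_, ?_, ?_⟩
  · rw [← ht]
    have h1 : 512 * (28 * (1 + k) * t) ≤ (14336 * C) ^ b * (1 + k) ^ b * t ^ b := by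
      have e1 : 14336 ≤ (14336 * C) ^ b := by
        calc (14336 : ℝ) ≤ 14336 * C := by linarith
          _ = (14336 * C) ^ 1 := (pow_one _).symm
          _ ≤ (14336 * C) ^ b := pow_le_pow_right₀ h14 (by omega)
      have e2 : 1 + k ≤ (1 + k) ^ b := by
        calc 1 + k = (1 + k) ^ 1 := (pow_one _).symm
          _ ≤ (1 + k) ^ b := pow_le_pow_right₀ hk1 (by omega)
      have e3 : t ≤ t ^ b := by
        calc t = t ^ 1 := (pow_one _).symm
          _ ≤ t ^ b := pow_le_pow_right₀ ht1 (by omega)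
      calc 512 * (28 * (1 + k) * t) = 14336 * (1 + k) * t := by ring
        _ ≤ (14336 * C) ^ b * (1 + k) ^ b * t ^ b := by gcongr
    refine h1.trans (hbig.trans ?_)
    exact pow_le_pow_right₀ one_le_two (by omega)
  · rw [← ht]
    refine le_trans ?_ hbig
    have e1 : C * (C * 28) ^ a ≤ (14336 * C) ^ b := by
      have f1 : C ≤ 14336 * C := by linarith
      have f2 : C * 28 ≤ 14336 * C := by linarith
      calc C * (C * 28) ^ a ≤ (14336 * C) * (14336 * C) ^ a :=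
            mul_le_mul f1 (pow_le_pow_left₀ (by positivity) f2 a) (by positivity) (by positivity)
        _ = (14336 * C) ^ b := by rw [hb, pow_succ]; ring
    have e2 : (1 + k) ^ a ≤ (1 + k) ^ b := pow_le_pow_right₀ hk1 (by omega)
    have e3 : t ^ a ≤ t ^ b := pow_le_pow_right₀ ht1 (by omega)
    calc C * (C * (28 * (1 + k) * t)) ^ a = C * (C * 28) ^ a * (1 + k) ^ a * t ^ a := by
          rw [← mul_assoc C, ← mul_assoc C, mul_pow, mul_pow]; ring
      _ ≤ (14336 * C) ^ b * (1 + k) ^ b * t ^ b := by gcongr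
  · rw [← ht]
    refine ht2.trans ?_
    have h1 : 2 * L₀ ≤ D * Real.log (2 + k) := by
      rw [hL₀, hD]
      have e1 : 1 ≤ 1 / Real.log 2 * Real.log (2 + k) := by
        rw [div_mul_eq_mul_div, one_mul, le_div_iff₀ hlog2]; linarith
      have e2 : Real.log M ≤ Real.log M / Real.log 2 * Real.log (2 + k) := by
        rw [div_mul_eq_mul_div, le_div_iff₀ hlog2]
        exact mul_le_mul_of_nonneg_left hk2 hlogM
      have e3 : 2 / Real.log 2 * Real.log M ≤
          2 / Real.log 2 * (Real.log M / Real.log 2 * Real.log (2 + k)) := by gcongr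
      calc 2 * (1 + 2 / Real.log 2 * (Real.log M + b * Real.log (2 + k)))
          = 2 * (1 + 2 / Real.log 2 * Real.log M + 2 / Real.log 2 * (b * Real.log (2 + k))) := by
            ring
        _ ≤ 2 * (1 / Real.log 2 * Real.log (2 + k) +
            2 / Real.log 2 * (Real.log M / Real.log 2 * Real.log (2 + k)) +
            2 / Real.log 2 * (b * Real.log (2 + k))) := by gcongr
        _ = 2 * (1 / Real.log 2 + 2 / Real.log 2 * (Real.log M / Real.log 2 + b)) *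
            Real.log (2 + k) := by ring
    refine h1.trans ?_
    gcongr
    exact le_max_right _ _

/-- **Assembly.** -/
theorem assemble {C₂ C₁ C₃ : ℝ} {a : ℕ} (hC₂ : 1 ≤ C₂) (hC₁ : 1 ≤ C₁) (hC₃ : 1 ≤ C₃)
    (hlaw : LawToSetStmt.{u} C₂) (hgrowth : GrowthStmt.{u} C₁ a) (hshrink : ShrinkStmt.{u} C₃) :
    ∃ C : ℝ, 0 < C ∧ ∀ (Γ : Type u) [AddCommGroup Γ] [DecidableEq Γ] (K : ℝ) (A : Finset Γ),
      A.Nonempty → ((A + A).card : ℝ) ≤ K * A.card →
      ∃ (Q : CosetProg Γ) (T : Finset Γ), (Q.dim : ℝ) ≤ C * Real.log (2 * K) ∧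
        Q.vol ≤ A.card ∧ (T.card : ℝ) ≤ (2 * K) ^ (C * Real.log (2 + Real.log (2 * K))) ∧
        CoveredBy A T Q := by
  have hlog2 : 0 < Real.log 2 := Real.log_pos one_lt_two
  obtain ⟨C', hC'1, hC'⟩ := exists_scale (C₁ * C₂)
    (one_le_mul_of_one_le_of_one_le hC₁ hC₂) a
  have hlogC₃ : 0 ≤ Real.log C₃ := Real.log_nonneg hC₃
  -- constants
  set E : ℝ := 1 + 1 / Real.log 2 with hE
  have hE1 : 1 ≤ E := by rw [hE]; have : 0 ≤ 1 / Real.log 2 := by positivity
                         linarith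
  set D₁ : ℝ := C₁ * C₂ * 28 * E / Real.log 2 + 1 / Real.log 2 with hD₁
  have hD₁0 : 0 < D₁ := by positivity
  set D₂ : ℝ := (1 + Real.log C₃ / Real.log 2 + (D₁ * Real.log C₃)) / Real.log 2 +
    (2 + C₁) * (C₂ * 28 * E * C') with hD₂
  have hD₂0 : 0 < D₂ := by positivity
  refine ⟨max D₁ D₂, lt_of_lt_of_le hD₁0 (le_max_left _ _), ?_⟩
  intro Γ _ _ K A hA hK
  have hApos : (0 : ℝ) < A.card := Nat.cast_pos.mpr hA.card_pos
  have hK1 : 1 ≤ K := by
    have h1 : A.card ≤ (A + A).card := by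
      obtain ⟨x, hx⟩ := hA
      calc A.card = (A.image (fun y => x + y)).card :=
            (Finset.card_image_of_injective _ (add_right_injective x)).symm
        _ ≤ (A + A).card := Finset.card_le_card (by
            intro z hz
            obtain ⟨y, hy, rfl⟩ := Finset.mem_image.mp hz
            exact Finset.add_mem_add hx hy)
    have h2 : (A.card : ℝ) ≤ (A + A).card := by exact_mod_cast h1
    have h3 : 1 * (A.card : ℝ) ≤ K * A.card := by linarith
    exact le_of_mul_le_mul_right h3 hApos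
  set k := Real.log (2 * K) with hk
  have hk2 : Real.log 2 ≤ k := Real.log_le_log two_pos (by linarith)
  have hkpos : 0 < k := lt_of_lt_of_le hlog2 hk2
  have hlogK : Real.log K ≤ k := Real.log_le_log (by linarith) (by linarith)
  have h1k : 1 + k ≤ E * k := by
    rw [hE, add_mul, one_mul]
    have : 1 ≤ 1 / Real.log 2 * k := by
      rw [div_mul_eq_mul_div, one_mul, le_div_iff₀ hlog2]; linarith
    linarith
  have hlk2 : Real.log 2 ≤ Real.log (2 + k) := Real.log_le_log two_pos (by linarith)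
  have hlkpos : 0 < Real.log (2 + k) := lt_of_lt_of_le hlog2 hlk2
  obtain ⟨u, hu1, hu2, hu3⟩ := hC' k hkpos
  set t : ℝ := (2 : ℝ) ^ u with ht
  have ht1 : 1 ≤ t := one_le_pow₀ one_le_two
  set s := u + 2 with hs
  have hts : (2 : ℝ) ^ s = 4 * t := by rw [hs, pow_add, ht]; ring
  set κ : ℝ := 28 * (1 + k) * t with hκ
  clear_value κ t
  have hκ1 : 1 ≤ κ := by
    have : 1 * 1 * 1 ≤ 28 * (1 + k) * t := by gcongr <;> linarith
    linarith
  -- regularisation
  have hreg : H (lawU A hA * lawU A hA) ≤ H (lawU A hA) + k := by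
    have h1 : H (lawU A hA * lawU A hA) ≤ Real.log (A + A).card := by
      apply H_le_log_card
      intro g hg
      obtain ⟨x, hx, y, hy, rfl⟩ := supp_mul_subset _ _ g hg
      rw [supp_lawU] at hx hy
      exact Finset.add_mem_add hx hy
    have h2 : Real.log (A + A).card ≤ Real.log (K * A.card) := by
      refine Real.log_le_log ?_ hK
      exact Nat.cast_pos.mpr (hA.add hA).card_pos
    rw [Real.log_mul (by linarith) hApos.ne'] at h2
    rw [H_lawU]
    linarith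
  obtain ⟨τ, hτ1, hτ2⟩ := exists_reg (lawU A hA) k hkpos hreg s
  -- parameters
  set n : ℕ := 2 ^ (2 ^ s - 1) with hn
  have h2s : 1 ≤ 2 ^ s := Nat.one_le_two_pow
  have h2n : 2 * n = 2 ^ (2 ^ s) := by
    rw [hn, ← pow_succ']
    congr 1; omega
  set j : ℕ := 2 ^ (2 ^ u) with hj
  have hj1 : 1 ≤ j := Nat.one_le_two_pow
  have hkt : k * (4 * t) * 7 ≤ κ := by
    calc k * (4 * t) * 7 = 28 * k * t := by ring
      _ ≤ 28 * (1 + k) * t := by gcongr; linarith
      _ = κ := hκ.symm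
  have hreg1 : H (τ ^ (2 * n)) ≤ H τ + κ := by
    rw [h2n]
    refine hτ1.trans ?_
    rw [hts]
    linarith
  have hreg2 : H (lawU A hA * τ) ≤ (H (lawU A hA) + H τ) / 2 + κ := by
    refine hτ2.trans ?_
    rw [hts]
    have : 0 ≤ k * (4 * t) := by positivity
    linarith
  clear_value n j s
  have hj2 : 256 * (j : ℝ) ^ 2 * κ ≤ n := by
    have e1 : (j : ℝ) ^ 2 = (2 : ℝ) ^ (2 * 2 ^ u) := by
      rw [hj]; push_cast; rw [← pow_mul, mul_comm]
    have e2 : (2 : ℝ) * n = (2 : ℝ) ^ (2 * 2 ^ u) * (2 : ℝ) ^ (2 * 2 ^ u) := by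
      have : ((2 * n : ℕ) : ℝ) = (2 : ℝ) ^ (2 ^ s) := by rw [h2n]; push_cast; rfl
      push_cast at this
      rw [this, ← pow_add]
      congr 1
      rw [hs, pow_add]; ring
    have e3 : (0 : ℝ) ≤ (2 : ℝ) ^ (2 * 2 ^ u) := by positivity
    rw [e1]
    generalize (2 : ℝ) ^ (2 * 2 ^ u) = X at *
    have e4 : 512 * κ * X ≤ X * X := mul_le_mul_of_nonneg_right hu1 e3
    linarith
  obtain ⟨S, F, hS0, hSneg, hAF, hF, hScard, hSj⟩ :=
    hlaw Γ A hA K κ n j τ hκ1 hj1 hK hreg1 hreg2 hj2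
  -- growth
  have hκ'1 : 1 ≤ C₂ * κ := one_le_mul_of_one_le_of_one_le hC₂ hκ1
  have hgr : C₁ * (C₂ * κ) ^ a ≤ (j : ℝ) := by
    have e1 : C₁ * (C₂ * κ) ^ a ≤ (C₁ * C₂) * ((C₁ * C₂) * κ) ^ a := by
      have f1 : C₁ ≤ C₁ * C₂ := le_mul_of_one_le_right (by linarith) hC₂
      have f3 : C₂ ≤ C₁ * C₂ := le_mul_of_one_le_left (by linarith) hC₁
      have f2 : C₂ * κ ≤ (C₁ * C₂) * κ := mul_le_mul_of_nonneg_right f3 (by linarith)
      have f4 : 0 ≤ C₂ * κ := by linarith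
      exact mul_le_mul f1 (pow_le_pow_left₀ f4 f2 a) (pow_nonneg f4 a) (by linarith)
    refine e1.trans (hu2.trans ?_)
    rw [hj]; push_cast; exact le_refl _
  obtain ⟨Q, hSQ, hQvol, hQdim⟩ := hgrowth Γ S (C₂ * κ) j hS0 hSneg hκ'1 hgr hSj
  -- dimension
  have hdimC : (Q.dim : ℝ) ≤ C₁ * C₂ * 28 * E / Real.log 2 * k := by
    have e1 : Real.log (j : ℝ) = t * Real.log 2 := by
      rw [hj]; push_cast; rw [Real.log_pow]; push_cast; rw [ht]
    rw [e1] at hQdim
    have e2 : (Q.dim : ℝ) * Real.log 2 * t ≤ C₁ * C₂ * 28 * (1 + k) * t := by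
      calc (Q.dim : ℝ) * Real.log 2 * t = Q.dim * (t * Real.log 2) := by ring
        _ ≤ C₁ * (C₂ * κ) := hQdim
        _ = C₁ * C₂ * 28 * (1 + k) * t := by rw [hκ]; ring
    have e3 : (Q.dim : ℝ) * Real.log 2 ≤ C₁ * C₂ * 28 * (1 + k) :=
      le_of_mul_le_mul_right e2 (by linarith)
    have e4 : (Q.dim : ℝ) * Real.log 2 ≤ C₁ * C₂ * 28 * (E * k) :=
      e3.trans (by gcongr)
    calc (Q.dim : ℝ) ≤ C₁ * C₂ * 28 * (E * k) / Real.log 2 := by
          rw [le_div_iff₀ hlog2]; exact e4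
      _ = C₁ * C₂ * 28 * E / Real.log 2 * k := by ring
  -- shrinking
  set M : ℝ := Real.exp ((1 + C₁) * (C₂ * κ)) with hM
  have hM1 : 1 ≤ M := Real.one_le_exp (by positivity)
  obtain ⟨Q', T', hQ'dim, hQ'vol, hT', hcov⟩ := hshrink Γ Q A.card M hA.card_pos hM1 (by
    calc (Q.vol : ℝ) ≤ Real.exp (C₁ * (C₂ * κ)) * S.card := hQvol
      _ ≤ Real.exp (C₁ * (C₂ * κ)) * (Real.exp (C₂ * κ) * A.card) := by gcongr
      _ = M * A.card := by
        rw [hM, ← mul_assoc, ← Real.exp_add]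
        congr 2; ring)
  refine ⟨Q', F + T', ?_, hQ'vol, ?_, ?_⟩
  · have e1 : (Q'.dim : ℝ) ≤ 1 + Q.dim := by
      have : Q'.dim ≤ 1 + Q.dim := hQ'dim.trans (by omega)
      exact_mod_cast this
    have e2 : 1 ≤ 1 / Real.log 2 * k := by
      rw [div_mul_eq_mul_div, one_mul, le_div_iff₀ hlog2]; linarith
    calc (Q'.dim : ℝ) ≤ D₁ * k := by rw [hD₁, add_mul]; linarith
      _ ≤ max D₁ D₂ * k := by gcongr; exact le_max_left _ _
  · -- the number of translates
    have e1 : ((F + T').card : ℝ) ≤ (K * Real.exp (C₂ * κ)) * (C₃ * C₃ ^ Q.dim * M) := by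
      calc ((F + T').card : ℝ) ≤ (F.card : ℝ) * T'.card := by
            exact_mod_cast Finset.card_add_le
        _ ≤ (K * Real.exp (C₂ * κ)) * (C₃ * C₃ ^ Q.dim * M) := by gcongr
    have hKpos : 0 < K := by linarith
    have hC₃pos : 0 < C₃ := by linarith
    refine e1.trans ?_
    rw [Real.rpow_def_of_pos (by linarith : 0 < 2 * K), ← hk]
    have e2 : (K * Real.exp (C₂ * κ)) * (C₃ * C₃ ^ Q.dim * M) =
        Real.exp (Real.log K + C₂ * κ + (Real.log C₃ + Q.dim * Real.log C₃ +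
          (1 + C₁) * (C₂ * κ))) := by
      have e3 : Real.exp (Q.dim * Real.log C₃) = C₃ ^ Q.dim := by
        rw [Real.exp_nat_mul, Real.exp_log hC₃pos]
      rw [Real.exp_add, Real.exp_add, Real.exp_add, Real.exp_add, Real.exp_log hKpos,
        Real.exp_log hC₃pos, ← hM, e3]
    rw [e2, Real.exp_le_exp]
    have hκle : κ ≤ 28 * E * C' * (k * Real.log (2 + k)) := by
      calc κ = 28 * (1 + k) * t := hκ
        _ ≤ 28 * (E * k) * (C' * Real.log (2 + k)) := by gcongr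
        _ = 28 * E * C' * (k * Real.log (2 + k)) := by ring
    have hkk : k ≤ k * Real.log (2 + k) / Real.log 2 := by
      rw [le_div_iff₀ hlog2]; gcongr
    have hlogC : Real.log C₃ ≤ Real.log C₃ / Real.log 2 * k := by
      rw [div_mul_eq_mul_div, le_div_iff₀ hlog2]; gcongr
    have hdim' : (Q.dim : ℝ) * Real.log C₃ ≤ D₁ * Real.log C₃ * k := by
      have f1 : (Q.dim : ℝ) ≤ D₁ * k := by
        rw [hD₁, add_mul]
        have : 0 ≤ 1 / Real.log 2 * k := by positivity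
        linarith
      calc (Q.dim : ℝ) * Real.log C₃ ≤ (D₁ * k) * Real.log C₃ := by gcongr
        _ = D₁ * Real.log C₃ * k := by ring
    have hfin : Real.log K + C₂ * κ + (Real.log C₃ + Q.dim * Real.log C₃ +
        (1 + C₁) * (C₂ * κ)) ≤ D₂ * (k * Real.log (2 + k)) := by
      have g1 : (1 + Real.log C₃ / Real.log 2 + D₁ * Real.log C₃) * k ≤
          (1 + Real.log C₃ / Real.log 2 + D₁ * Real.log C₃) *
            (k * Real.log (2 + k) / Real.log 2) := by gcongr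
      have g2 : (2 + C₁) * (C₂ * κ) ≤
          (2 + C₁) * (C₂ * (28 * E * C' * (k * Real.log (2 + k)))) := by gcongr
      calc Real.log K + C₂ * κ + (Real.log C₃ + Q.dim * Real.log C₃ + (1 + C₁) * (C₂ * κ))
          ≤ (1 + Real.log C₃ / Real.log 2 + D₁ * Real.log C₃) * k +
            (2 + C₁) * (C₂ * κ) := by linarith
        _ ≤ (1 + Real.log C₃ / Real.log 2 + D₁ * Real.log C₃) *
            (k * Real.log (2 + k) / Real.log 2) +
            (2 + C₁) * (C₂ * (28 * E * C' * (k * Real.log (2 + k)))) := add_le_add g1 g2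
        _ = D₂ * (k * Real.log (2 + k)) := by rw [hD₂]; ring
    calc Real.log K + C₂ * κ + (Real.log C₃ + Q.dim * Real.log C₃ + (1 + C₁) * (C₂ * κ))
        ≤ D₂ * (k * Real.log (2 + k)) := hfin
      _ ≤ max D₁ D₂ * (k * Real.log (2 + k)) := by gcongr; exact le_max_right _ _
      _ = k * (max D₁ D₂ * Real.log (2 + k)) := by ring
  · intro x hx
    obtain ⟨f, hf, y, hy, rfl⟩ := Finset.mem_add.mp (hAF hx)
    obtain ⟨t', ht', g', hg', rfl⟩ := hcov y (hSQ y hy)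
    exact ⟨f + t', Finset.add_mem_add hf ht', g', hg', by rw [add_assoc]⟩

end Pool.Agent.Lib.MP_dd2a7c_co
end

section

/-!
The ingredients in the form needed by `Assemble`.
-/

namespace Pool.Agent.Lib.MP_dd2a7c_co

universe u

theorem lawToSetStmt : ∃ C : ℝ, 1 ≤ C ∧ LawToSetStmt.{u} C := by
  obtain ⟨C, hC, h⟩ := exists_set_of_law.{u}
  exact ⟨C, hC, fun Γ _ _ A hA K κ n j τ => h A hA K κ n j τ⟩

theorem growthStmt : GrowthStmt.{u} ((100 : ℝ) ^ 8) 8 := by
  intro Γ _ _ S κ N h0 hneg hκ hN hg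
  have h100 : (1 : ℝ) ≤ 100 ^ 8 := one_le_pow₀ (by norm_num)
  have hκ0 : 0 ≤ κ := by linarith
  obtain ⟨Q, -, h1, h2, h3⟩ := exists_prog_of_growth S h0 hneg κ N hκ
    (by rw [mul_pow]; exact hN) hg
  refine ⟨Q, h1, h2.trans ?_, ?_⟩
  · have : κ ≤ 100 ^ 8 * κ := le_mul_of_one_le_left hκ0 h100
    gcongr
  · have hN2 : (1 : ℝ) < N := by
      refine lt_of_lt_of_le ?_ hN
      have h4 : (1 : ℝ) ≤ κ ^ 8 := one_le_pow₀ hκ
      calc (1 : ℝ) < 100 ^ 8 := by norm_num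
        _ ≤ 100 ^ 8 * κ ^ 8 := le_mul_of_one_le_right (by positivity) h4
    have hlog : 0 < Real.log N := Real.log_pos hN2
    rw [le_div_iff₀ hlog] at h3
    refine h3.trans ?_
    have : (8 : ℝ) ≤ 100 ^ 8 := by norm_num
    gcongr

theorem shrinkStmt : ShrinkStmt.{u} 125 := fun Γ _ _ Q N M hN hM hQ =>
  exists_shrink Q N hN M hM hQ

end Pool.Agent.Lib.MP_dd2a7c_co
end
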