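import Pool.Agent.Lib.MP_dd2a7c_co.Basic

section

section

/-!
Convolutions and dilates of distributions on a finite module.
-/

namespace Pool.Agent.Lib.MP_dd2a7c_co

open Finset
open scoped Classical

noncomputable section

section equiv

variable {Ω Ω' α : Type*} [Fintype Ω] [Fintype Ω']

lemma pr_of_equiv {p : Ω → ℝ} {q : Ω' → ℝ} (e : Ω ≃ Ω') (h : ∀ ω, q (e ω) = p ω)
    (f : Ω → α) (g : Ω' → α) (hf : ∀ ω, g (e ω) = f ω) (a : α) : pr p f a = pr q g a := by
  unfold pr
  refine Fintype.sum_equiv e _ _ fun ω => ?_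
  rw [h, hf]

lemma law_of_equiv {p : Ω → ℝ} {q : Ω' → ℝ} (e : Ω ≃ Ω') (h : ∀ ω, q (e ω) = p ω)
    (f : Ω → α) (g : Ω' → α) (hf : ∀ ω, g (e ω) = f ω) : law p f = law q g := by
  funext a
  exact pr_of_equiv e h f g hf a

lemma ent_of_equiv {p : Ω → ℝ} {q : Ω' → ℝ} (e : Ω ≃ Ω') (h : ∀ ω, q (e ω) = p ω)
    (f : Ω → α) (g : Ω' → α) (hf : ∀ ω, g (e ω) = f ω) : ent p f = ent q g := by
  unfold ent
  congr 1
  refine Fintype.sum_equiv e _ _ fun ω => ?_
  rw [h, hf, pr_of_equiv e h f g hf]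

end equiv

variable {G : Type*} [Fintype G] [AddCommGroup G]

/-- Law of the sum of independent variables. -/
def conv (σ τ : G → ℝ) : G → ℝ := law (prod σ τ) (fun x => x.1 + x.2)

/-- Point mass at `0`. -/
def delta : G → ℝ := fun g => if g = 0 then 1 else 0

lemma isProb_delta : IsProb (delta : G → ℝ) where
  nonneg g := by unfold delta; split_ifs <;> norm_num
  sum_one := by unfold delta; simp

lemma isProb_conv {σ τ : G → ℝ} (hσ : IsProb σ) (hτ : IsProb τ) : IsProb (conv σ τ) :=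
  isProb_law (isProb_prod hσ hτ) _

lemma Hd_conv (σ τ : G → ℝ) : Hd (conv σ τ) = ent (prod σ τ) (fun x => x.1 + x.2) :=
  Hd_law _ _

lemma law_add {Ω Ω' : Type*} [Fintype Ω] [Fintype Ω'] (p : Ω → ℝ) (q : Ω' → ℝ)
    (f : Ω → G) (g : Ω' → G) :
    law (prod p q) (fun x => f x.1 + g x.2) = conv (law p f) (law q g) := by
  unfold conv
  rw [← law_prod, law_law]
  rfl

lemma ent_add {Ω Ω' : Type*} [Fintype Ω] [Fintype Ω'] (p : Ω → ℝ) (q : Ω' → ℝ)
    (f : Ω → G) (g : Ω' → G) :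
    ent (prod p q) (fun x => f x.1 + g x.2) = Hd (conv (law p f) (law q g)) := by
  rw [← law_add, Hd_law]

lemma conv_comm (σ τ : G → ℝ) : conv σ τ = conv τ σ := by
  unfold conv
  refine law_of_equiv (Equiv.prodComm G G) (fun x => ?_) _ _ (fun x => ?_)
  · simp [prod, mul_comm]
  · simp [add_comm]

lemma conv_assoc (σ τ υ : G → ℝ) : conv (conv σ τ) υ = conv σ (conv τ υ) := by
  have h1 : conv (conv σ τ) υ =
      law (prod (prod σ τ) υ) (fun x => (x.1.1 + x.1.2) + x.2) := by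
    have := law_add (prod σ τ) υ (fun y : G × G => y.1 + y.2) id
    rw [law_id] at this
    exact this.symm
  have h2 : conv σ (conv τ υ) =
      law (prod σ (prod τ υ)) (fun x => x.1 + (x.2.1 + x.2.2)) := by
    have := law_add σ (prod τ υ) id (fun y : G × G => y.1 + y.2)
    rw [law_id] at this
    exact this.symm
  rw [h1, h2]
  refine law_of_equiv (Equiv.prodAssoc G G G) (fun x => ?_) _ _ (fun x => ?_)
  · simp [prod, mul_assoc]
  · simp [add_assoc]

lemma conv_left_comm (σ τ υ : G → ℝ) : conv σ (conv τ υ) = conv τ (conv σ υ) := by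
  rw [← conv_assoc, conv_comm σ τ, conv_assoc]

lemma delta_conv (σ : G → ℝ) : conv delta σ = σ := by
  funext g
  unfold conv law pr
  rw [Fintype.sum_prod_type]
  rw [sum_eq_single 0]
  · simp [prod, delta]
  · intro b _ hb
    refine sum_eq_zero fun y _ => ?_
    simp [prod, delta, hb]
  · simp

lemma conv_delta (σ : G → ℝ) : conv σ delta = σ := by
  rw [conv_comm, delta_conv]

/-- Adding an independent variable does not decrease the entropy. -/
lemma Hd_le_conv_right {σ τ : G → ℝ} (hσ : IsProb σ) (hτ : IsProb τ) :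
    Hd τ ≤ Hd (conv σ τ) := by
  have hp := isProb_prod hσ hτ
  -- H(X, X + Y) = H(X) + H(Y) ≤ H(X) + H(X + Y)
  have h1 := ent_pair_le hp (fun x : G × G => x.1) (fun x => x.1 + x.2)
  have h2 : ent (prod σ τ) (fun x : G × G => (x.1, x.1 + x.2)) =
      ent (prod σ τ) (fun x : G × G => (id x.1, id x.2)) := by
    refine ent_congr _ _ fun x y _ _ => ?_
    simp only [Prod.mk.injEq, id]
    constructor
    · rintro ⟨h1, h2⟩
      rw [h1] at h2
      exact ⟨h1, add_left_cancel h2⟩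
    · rintro ⟨h1, h2⟩
      rw [h1, h2]
      exact ⟨rfl, rfl⟩
  rw [h2, ent_prod hσ hτ, show (fun x : G × G => x.1) = (fun x : G × G => id x.1) from rfl,
    ent_prod_fst σ hτ id, ← Hd_conv] at h1
  unfold Hd at *
  linarith

lemma Hd_le_conv_left {σ τ : G → ℝ} (hσ : IsProb σ) (hτ : IsProb τ) :
    Hd σ ≤ Hd (conv σ τ) := by
  rw [conv_comm]
  exact Hd_le_conv_right hτ hσ

/-- `H(A + B + C) + H(B) ≤ H(A + B) + H(B + C)` for independent variables. -/
lemma kvm {a b c : G → ℝ} (ha : IsProb a) (hb : IsProb b) (hc : IsProb c) :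
    Hd (conv (conv a b) c) + Hd b ≤ Hd (conv a b) + Hd (conv b c) := by
  have hbc := isProb_prod hb hc
  have hp := isProb_prod ha hbc
  -- f = (A, B + C), g = (A + B, C), h = A + B + C, joint = (A, B, C)
  have h1 := submod' hp (fun x : G × G × G => (x.1, x.2.1 + x.2.2))
    (fun x : G × G × G => (x.1 + x.2.1, x.2.2)) (fun x : G × G × G => x.1 + x.2.1 + x.2.2)
    (fun x : G × G × G => (id x.1, (fun y : G × G => (id y.1, id y.2)) x.2))
    (by
      intro x y h
      simp only [Prod.mk.injEq] at h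
      rw [add_assoc, add_assoc, h.1, h.2])
    (by
      intro x y h
      simp only [Prod.mk.injEq] at h
      rw [h.1, h.2])
    (by
      intro x y _ _ h1 h2
      simp only [Prod.mk.injEq, id] at h1 h2 ⊢
      obtain ⟨h3, h4⟩ := h1
      obtain ⟨h5, h6⟩ := h2
      rw [h3] at h5
      exact ⟨h3, add_left_cancel h5, h6⟩)
  rw [ent_prod ha hbc id (fun y : G × G => (id y.1, id y.2)), ent_prod hb hc id id] at h1
  have h2 : ent (prod a (prod b c)) (fun x : G × G × G => (x.1, x.2.1 + x.2.2)) =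
      Hd a + Hd (conv b c) := by
    rw [Hd_conv]
    exact ent_prod ha hbc id (fun y : G × G => y.1 + y.2)
  have h3 : ent (prod a (prod b c)) (fun x : G × G × G => (x.1 + x.2.1, x.2.2)) =
      Hd (conv a b) + Hd c := by
    have : ent (prod a (prod b c)) (fun x : G × G × G => (x.1 + x.2.1, x.2.2)) =
        ent (prod (prod a b) c)
        (fun x : (G × G) × G => ((fun y : G × G => y.1 + y.2) x.1, id x.2)) := by
      refine ent_of_equiv (Equiv.prodAssoc G G G).symm (fun x => ?_) _ _ (fun x => ?_)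
      · simp [prod, mul_assoc]
      · rfl
    rw [this, Hd_conv]
    exact ent_prod (isProb_prod ha hb) hc (fun y : G × G => y.1 + y.2) id
  have h4 : ent (prod a (prod b c)) (fun x : G × G × G => x.1 + x.2.1 + x.2.2) =
      Hd (conv (conv a b) c) := by
    rw [conv_assoc, show (fun x : G × G × G => x.1 + x.2.1 + x.2.2) =
      (fun x : G × G × G => id x.1 + (fun y : G × G => y.1 + y.2) x.2) by
        funext x
        simp [add_assoc], ent_add a (prod b c) id (fun y : G × G => y.1 + y.2), law_id]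
    rfl
  rw [h2, h3, h4] at h1
  unfold Hd at *
  linarith

/-- Entropic triangle inequality with dependent variables: if `(P, Q)` is independent of `Z`,
`H(P + Q) + H(Z) ≤ H(P + Z) + H(Q - Z)`. -/
lemma triangle {Ω : Type*} [Fintype Ω] {p : Ω → ℝ} (hp : IsProb p) (P Q : Ω → G)
    {z : G → ℝ} (hz : IsProb z) :
    ent p (fun ω => P ω + Q ω) + Hd z ≤
      ent (prod p z) (fun x => P x.1 + x.2) + ent (prod p z) (fun x => Q x.1 - x.2) := by
  have hpz := isProb_prod hp hz
  -- f = (P, Q), g = (P + Z, Q - Z), h = P + Q, joint = (P, Q, Z)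
  have h1 := submod' hpz (fun x : Ω × G => (P x.1, Q x.1))
    (fun x : Ω × G => (P x.1 + x.2, Q x.1 - x.2)) (fun x : Ω × G => P x.1 + Q x.1)
    (fun x : Ω × G => ((fun ω => (P ω, Q ω)) x.1, id x.2))
    (by
      intro x y h
      simp only [Prod.mk.injEq] at h
      rw [h.1, h.2])
    (by
      intro x y h
      simp only [Prod.mk.injEq] at h
      calc P x.1 + Q x.1 = (P x.1 + x.2) + (Q x.1 - x.2) := by abel
        _ = (P y.1 + y.2) + (Q y.1 - y.2) := by rw [h.1, h.2]
        _ = P y.1 + Q y.1 := by abel)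
    (by
      intro x y _ _ h1 h2
      simp only [Prod.mk.injEq, id] at h1 h2 ⊢
      obtain ⟨h3, h4⟩ := h1
      obtain ⟨h5, h6⟩ := h2
      rw [h3] at h5
      exact ⟨⟨h3, h4⟩, add_left_cancel h5⟩)
  rw [ent_prod hp hz (fun ω => (P ω, Q ω)) id] at h1
  have h2 := ent_pair_le hpz (fun x : Ω × G => P x.1 + x.2) (fun x => Q x.1 - x.2)
  have h3 : ent (prod p z) (fun x : Ω × G => (P x.1, Q x.1)) = ent p (fun ω => (P ω, Q ω)) :=
    ent_prod_fst p hz (fun ω => (P ω, Q ω))
  have h4 : ent (prod p z) (fun x : Ω × G => P x.1 + Q x.1) = ent p (fun ω => P ω + Q ω) :=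
    ent_prod_fst p hz (fun ω => P ω + Q ω)
  rw [h3, h4] at h1
  unfold Hd at *
  linarith

/-! ### Dilates -/

variable {R : Type*} [CommRing R] [Module R G]

/-- Law of the dilate `r • X`. -/
def sm (r : R) (σ : G → ℝ) : G → ℝ := law σ (fun x => r • x)

lemma isProb_sm (r : R) {σ : G → ℝ} (hσ : IsProb σ) : IsProb (sm r σ) := isProb_law hσ _

lemma sm_one (σ : G → ℝ) : sm (1 : R) σ = σ := by
  unfold sm
  simp only [one_smul]
  exact law_id σ

lemma sm_sm (r s : R) (σ : G → ℝ) : sm r (sm s σ) = sm (r * s) σ := by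
  unfold sm
  rw [law_law]
  congr 1
  funext x
  simp [mul_smul]

lemma sm_zero {σ : G → ℝ} (hσ : IsProb σ) : sm (0 : R) σ = delta := by
  funext g
  unfold sm law pr delta
  simp only [zero_smul]
  by_cases hg : g = 0
  · simp [hg, hσ.sum_one]
  · simp [hg, Ne.symm hg]

lemma sm_delta (r : R) : sm r (delta : G → ℝ) = delta := by
  funext g
  unfold sm law pr delta
  rw [sum_eq_single 0]
  · simp [eq_comm]
  · intro b _ hb
    simp [hb]
  · simp

lemma sm_conv (r : R) (σ τ : G → ℝ) : sm r (conv σ τ) = conv (sm r σ) (sm r τ) := by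
  unfold sm
  rw [← law_add]
  unfold conv
  rw [law_law]
  congr 1
  funext x
  simp

lemma Hd_sm_unit (u : Rˣ) (σ : G → ℝ) : Hd (sm (u : R) σ) = Hd σ := by
  unfold sm
  rw [Hd_law]
  unfold Hd
  refine ent_congr _ _ fun x y _ _ => ?_
  simp only [id]
  constructor
  · intro h
    have := congrArg (fun z => (↑u⁻¹ : R) • z) h
    simpa [smul_smul] using this
  · intro h
    rw [h]

end

end Pool.Agent.Lib.MP_dd2a7c_co
end

section

/-!
Averages over random unit weights: for a list `L` of distributions, `EL R L φ` is the average of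
`φ` at the law of `∑ uᵢ • Xᵢ`, where the `Xᵢ` are independent with laws in `L` and the `uᵢ` are
independent uniform units of `R`.
-/

namespace Pool.Agent.Lib.MP_dd2a7c_co

open Finset
open scoped Classical

noncomputable section

/-! ### Uniform averages -/

section av

variable {ι κ : Type*} [Fintype ι] [Fintype κ]

/-- Uniform average over a finite type. -/
def av (φ : ι → ℝ) : ℝ := (∑ i, φ i) / (Fintype.card ι : ℝ)

lemma av_const [Nonempty ι] (c : ℝ) : av (fun _ : ι => c) = c := by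
  unfold av
  have : (Fintype.card ι : ℝ) ≠ 0 := Nat.cast_ne_zero.2 Fintype.card_ne_zero
  simp only [sum_const, card_univ, nsmul_eq_mul]
  field_simp

lemma av_mono {φ ψ : ι → ℝ} (h : ∀ i, φ i ≤ ψ i) : av φ ≤ av ψ := by
  unfold av
  exact div_le_div_of_nonneg_right (sum_le_sum fun i _ => h i) (Nat.cast_nonneg _)

lemma av_add (φ ψ : ι → ℝ) : av (fun i => φ i + ψ i) = av φ + av ψ := by
  unfold av
  rw [sum_add_distrib, add_div]

lemma av_sub (φ ψ : ι → ℝ) : av (fun i => φ i - ψ i) = av φ - av ψ := by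
  unfold av
  rw [sum_sub_distrib, sub_div]

lemma av_mul_left (c : ℝ) (φ : ι → ℝ) : av (fun i => c * φ i) = c * av φ := by
  unfold av
  rw [← mul_sum, mul_div_assoc]

lemma av_add_const [Nonempty ι] (φ : ι → ℝ) (c : ℝ) : av (fun i => φ i + c) = av φ + c := by
  rw [av_add, av_const]

lemma av_sub_const [Nonempty ι] (φ : ι → ℝ) (c : ℝ) : av (fun i => φ i - c) = av φ - c := by
  rw [av_sub, av_const]

lemma av_nonneg {φ : ι → ℝ} (h : ∀ i, 0 ≤ φ i) : 0 ≤ av φ := by
  unfold av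
  exact div_nonneg (sum_nonneg fun i _ => h i) (Nat.cast_nonneg _)

lemma av_equiv (e : ι ≃ κ) (φ : ι → ℝ) (ψ : κ → ℝ) (h : ∀ i, φ i = ψ (e i)) : av φ = av ψ := by
  unfold av
  rw [Fintype.sum_equiv e φ ψ h, Fintype.card_congr e]

lemma av_comm (φ : ι → κ → ℝ) : av (fun i => av (fun j => φ i j)) =
    av (fun j => av (fun i => φ i j)) := by
  unfold av
  rw [← sum_div, ← sum_div, sum_comm, div_div, div_div, mul_comm]

lemma av_sum {τ : Type*} (s : Finset τ) (φ : ι → τ → ℝ) :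
    av (fun i => ∑ t ∈ s, φ i t) = ∑ t ∈ s, av (fun i => φ i t) := by
  unfold av
  rw [sum_comm, sum_div]

lemma av_congr {φ ψ : ι → ℝ} (h : ∀ i, φ i = ψ i) : av φ = av ψ := by
  rw [show φ = ψ from funext h]

/-- There is a point where the function is at most its average. -/
lemma exists_le_av [Nonempty ι] (φ : ι → ℝ) : ∃ i, φ i ≤ av φ := by
  by_contra h
  push Not at h
  have hc : (0 : ℝ) < Fintype.card ι := Nat.cast_pos.2 Fintype.card_pos
  have : (∑ i : ι, av φ) < ∑ i, φ i :=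
    sum_lt_sum_of_nonempty univ_nonempty fun i _ => h i
  rw [sum_const, card_univ, nsmul_eq_mul] at this
  unfold av at this
  rw [mul_div_cancel₀ _ hc.ne'] at this
  exact lt_irrefl _ this

lemma exists_av_le [Nonempty ι] (φ : ι → ℝ) : ∃ i, av φ ≤ φ i := by
  obtain ⟨i, hi⟩ := exists_le_av (fun i => -φ i)
  refine ⟨i, ?_⟩
  have : av (fun i => -φ i) = -av φ := by
    unfold av
    rw [sum_neg_distrib, neg_div]
  linarith

end av

/-! ### Random unit sums -/

variable {G : Type*} [Fintype G] [AddCommGroup G]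
variable (R : Type*) [CommRing R] [Module R G] [Fintype Rˣ]

/-- Average of `φ` at the law of `∑ uᵢ • Xᵢ` with independent uniform units `uᵢ`. -/
def EL : List (G → ℝ) → ((G → ℝ) → ℝ) → ℝ
  | [], φ => φ delta
  | μ :: L, φ => av (fun u : Rˣ => EL L (fun σ => φ (conv (sm (u : R) μ) σ)))

variable {R}

lemma EL_mono {L : List (G → ℝ)} (hL : ∀ μ ∈ L, IsProb μ) {φ ψ : (G → ℝ) → ℝ}
    (h : ∀ σ, IsProb σ → φ σ ≤ ψ σ) : EL R L φ ≤ EL R L ψ := by
  induction L generalizing φ ψ with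
  | nil => exact h _ isProb_delta
  | cons μ L ih =>
    unfold EL
    refine av_mono fun u => ih (fun ν hν => hL ν (List.mem_cons_of_mem _ hν)) fun σ hσ => ?_
    exact h _ (isProb_conv (isProb_sm _ (hL μ List.mem_cons_self)) hσ)

lemma EL_congr {L : List (G → ℝ)} (hL : ∀ μ ∈ L, IsProb μ) {φ ψ : (G → ℝ) → ℝ}
    (h : ∀ σ, IsProb σ → φ σ = ψ σ) : EL R L φ = EL R L ψ :=
  le_antisymm (EL_mono hL fun σ hσ => (h σ hσ).le) (EL_mono hL fun σ hσ => (h σ hσ).ge)

lemma EL_const (L : List (G → ℝ)) (c : ℝ) : EL R L (fun _ => c) = c := by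
  induction L with
  | nil => rfl
  | cons μ L ih =>
    unfold EL
    simp only [ih]
    exact av_const c

lemma EL_add (L : List (G → ℝ)) (φ ψ : (G → ℝ) → ℝ) :
    EL R L (fun σ => φ σ + ψ σ) = EL R L φ + EL R L ψ := by
  induction L generalizing φ ψ with
  | nil => rfl
  | cons μ L ih =>
    unfold EL
    rw [← av_add]
    exact av_congr fun u => ih _ _

lemma EL_sub (L : List (G → ℝ)) (φ ψ : (G → ℝ) → ℝ) :
    EL R L (fun σ => φ σ - ψ σ) = EL R L φ - EL R L ψ := by
  induction L generalizing φ ψ with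
  | nil => rfl
  | cons μ L ih =>
    unfold EL
    rw [← av_sub]
    exact av_congr fun u => ih _ _

lemma EL_mul_left (L : List (G → ℝ)) (c : ℝ) (φ : (G → ℝ) → ℝ) :
    EL R L (fun σ => c * φ σ) = c * EL R L φ := by
  induction L generalizing φ with
  | nil => rfl
  | cons μ L ih =>
    unfold EL
    rw [← av_mul_left]
    exact av_congr fun u => ih _

lemma EL_av {ι : Type*} [Fintype ι] (L : List (G → ℝ)) (φ : ι → (G → ℝ) → ℝ) :
    EL R L (fun σ => av (fun i => φ i σ)) = av (fun i => EL R L (φ i)) := by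
  induction L generalizing φ with
  | nil => rfl
  | cons μ L ih =>
    unfold EL
    rw [av_comm]
    exact av_congr fun u => ih _

lemma EL_append (L L' : List (G → ℝ)) (φ : (G → ℝ) → ℝ) :
    EL R (L ++ L') φ = EL R L (fun σ => EL R L' (fun τ => φ (conv σ τ))) := by
  induction L generalizing φ with
  | nil => simp only [List.nil_append, EL, delta_conv]
  | cons μ L ih =>
    simp only [List.cons_append, EL]
    refine av_congr fun u => ?_
    rw [ih]
    simp only [conv_assoc]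

lemma EL_comm (L L' : List (G → ℝ)) (φ : (G → ℝ) → (G → ℝ) → ℝ) :
    EL R L (fun σ => EL R L' (fun τ => φ σ τ)) = EL R L' (fun τ => EL R L (fun σ => φ σ τ)) := by
  induction L generalizing φ with
  | nil => rfl
  | cons μ L ih =>
    simp only [EL]
    rw [EL_av]
    exact av_congr fun u => ih _

lemma EL_perm {L L' : List (G → ℝ)} (h : L.Perm L') (φ : (G → ℝ) → ℝ) :
    EL R L φ = EL R L' φ := by
  induction h generalizing φ with
  | nil => rfl
  | cons μ _ ih =>
    simp only [EL]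
    exact av_congr fun u => ih _
  | swap μ ν L =>
    simp only [EL]
    rw [av_comm]
    refine av_congr fun u => av_congr fun v => ?_
    congr 1
    funext σ
    rw [conv_left_comm]
  | trans _ _ ih1 ih2 => rw [ih1, ih2]

lemma EL_sm (L : List (G → ℝ)) (v : Rˣ) (φ : (G → ℝ) → ℝ) :
    EL R L (fun σ => φ (sm (v : R) σ)) = EL R L φ := by
  induction L generalizing φ with
  | nil => simp only [EL, sm_delta]
  | cons μ L ih =>
    simp only [EL, sm_conv, sm_sm]
    have : ∀ u : Rˣ, EL R L (fun σ => φ (conv (sm ((v : R) * (u : R)) μ) (sm (v : R) σ))) =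
        EL R L (fun σ => φ (conv (sm ((v * u : Rˣ) : R) μ) σ)) := by
      intro u
      rw [← ih (fun σ => φ (conv (sm ((v * u : Rˣ) : R) μ) σ))]
      simp
    rw [av_congr this]
    exact av_equiv (Equiv.mulLeft v) _ (fun w : Rˣ => EL R L (fun σ => φ (conv (sm (w : R) μ) σ)))
      (fun u => rfl)

variable (R) in
/-- Average entropy of a random unit combination of the variables in `L`. -/
def AL (L : List (G → ℝ)) : ℝ := EL R L Hd

lemma AL_perm {L L' : List (G → ℝ)} (h : L.Perm L') : AL R L = AL R L' := EL_perm h _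

lemma AL_le_append_right {L L' : List (G → ℝ)} (hL : ∀ μ ∈ L, IsProb μ)
    (hL' : ∀ μ ∈ L', IsProb μ) : AL R L ≤ AL R (L ++ L') := by
  unfold AL
  rw [EL_append]
  refine EL_mono hL fun σ hσ => ?_
  calc Hd σ = EL R L' (fun _ => Hd σ) := (EL_const L' _).symm
    _ ≤ _ := EL_mono hL' fun τ hτ => Hd_le_conv_left hσ hτ

lemma AL_le_of_subperm {L L' : List (G → ℝ)} (h : L.Subperm L') (hL' : ∀ μ ∈ L', IsProb μ) :
    AL R L ≤ AL R L' := by
  obtain ⟨l, hl, hs⟩ := h
  obtain ⟨L'', hp'⟩ := hs.exists_perm_append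
  have hp : L'.Perm (L ++ L'') := hp'.trans (hl.append_right L'')
  rw [AL_perm hp]
  refine AL_le_append_right (fun μ hμ => hL' μ ?_) (fun μ hμ => hL' μ ?_)
  · exact hp.mem_iff.2 (List.mem_append_left _ hμ)
  · exact hp.mem_iff.2 (List.mem_append_right _ hμ)

lemma AL_singleton (μ : G → ℝ) : AL R [μ] = Hd μ := by
  unfold AL
  simp only [EL, conv_delta, Hd_sm_unit]
  exact av_const _

/-- `H(X₀ + S) ≤ H(X₀ + u μ) + H(S) - H(μ)` when `μ` is one of the summands of `S`. -/
lemma EL_conv_le {ρ μ : G → ℝ} {L : List (G → ℝ)} (hρ : IsProb ρ) (hμ : IsProb μ)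
    (hL : ∀ ν ∈ L, IsProb ν) :
    EL R (μ :: L) (fun σ => Hd (conv ρ σ)) ≤
      av (fun u : Rˣ => Hd (conv ρ (sm (u : R) μ))) + AL R (μ :: L) - Hd μ := by
  unfold AL
  simp only [EL]
  rw [← av_add, ← av_sub_const]
  refine av_mono fun u => ?_
  have hu := isProb_sm (u : R) hμ
  have h1 : EL R L (fun σ => Hd (conv ρ (conv (sm (u : R) μ) σ))) ≤
      EL R L (fun σ => (Hd (conv ρ (sm (u : R) μ)) - Hd μ) + Hd (conv (sm (u : R) μ) σ)) := by
    refine EL_mono hL fun σ hσ => ?_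
    have := kvm hρ hu hσ
    rw [conv_assoc, Hd_sm_unit] at this
    linarith
  rw [EL_add, EL_const] at h1
  linarith

end

end Pool.Agent.Lib.MP_dd2a7c_co
end

section

/-!
The averaged distance `DD` and the functional `tau`; existence of minimizers and the
consequences of minimality for conditioned variables.
-/

namespace Pool.Agent.Lib.MP_dd2a7c_co

open Finset
open scoped Classical

noncomputable section

section cond

variable {Ω Ω' α β γ δ : Type*} [Fintype Ω] [Fintype Ω'] {p : Ω → ℝ} {q : Ω' → ℝ}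

/-- Conditioning does not increase entropy. -/
lemma Hc_le_ent (hp : IsProb p) (T : Ω → α) (Z : Ω → β) : Hc p T Z ≤ ent p T := by
  unfold Hc
  have := ent_pair_le hp T Z
  linarith

lemma condLaw_comp [Fintype α] (p : Ω → ℝ) (T : Ω → α) (Z : Ω → β) (z : β) (F : α → γ) :
    condLaw p (fun ω => F (T ω)) Z z = law (condLaw p T Z z) F := by
  funext c
  unfold law condLaw
  have h0 : ∀ a, pr p (fun ω => (T ω, Z ω)) (a, z) =
      ∑ ω, if T ω = a ∧ Z ω = z then p ω else 0 := by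
    intro a
    unfold pr
    refine sum_congr rfl fun ω _ => ?_
    by_cases h1 : T ω = a <;> by_cases h2 : Z ω = z <;> simp [h1, h2]
  have h1 : pr p (fun ω => (F (T ω), Z ω)) (c, z) =
      ∑ a, if F a = c then pr p (fun ω => (T ω, Z ω)) (a, z) else 0 := by
    have h3 : ∀ a, (if F a = c then pr p (fun ω => (T ω, Z ω)) (a, z) else 0) =
        ∑ ω, if T ω = a then (if F a = c ∧ Z ω = z then p ω else 0) else 0 := by
      intro a
      rw [h0]
      by_cases hF : F a = c
      · rw [if_pos hF]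
        refine sum_congr rfl fun ω _ => ?_
        by_cases h1 : T ω = a <;> by_cases h2 : Z ω = z <;> simp [h1, h2, hF]
      · rw [if_neg hF]
        symm
        refine sum_eq_zero fun ω _ => ?_
        simp [hF]
    rw [sum_congr rfl fun a _ => h3 a, sum_comm]
    unfold pr
    refine sum_congr rfl fun ω _ => ?_
    rw [sum_eq_single (T ω)]
    · by_cases h1 : F (T ω) = c <;> by_cases h2 : Z ω = z <;> simp [h1, h2]
    · intro b _ hb
      simp [Ne.symm hb]
    · simp
  rw [h1, sum_div]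
  unfold pr
  refine sum_congr rfl fun a _ => ?_
  split_ifs
  · rfl
  · simp

lemma condLaw_prod (p : Ω → ℝ) (q : Ω' → ℝ) (T : Ω → α) (Z : Ω → β)
    (T' : Ω' → γ) (Z' : Ω' → δ) (z : β) (z' : δ) :
    condLaw (prod p q) (fun x => (T x.1, T' x.2)) (fun x => (Z x.1, Z' x.2)) (z, z') =
      prod (condLaw p T Z z) (condLaw q T' Z' z') := by
  funext a
  unfold condLaw prod
  have h1 := pr_prod p q Z Z' z z'
  have h2 := pr_prod p q (fun ω => (T ω, Z ω)) (fun ω => (T' ω, Z' ω)) (a.1, z) (a.2, z')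
  have h3 : pr (prod p q) (fun x => ((T x.1, T' x.2), (Z x.1, Z' x.2))) (a, (z, z')) =
      pr (prod p q) (fun x => ((T x.1, Z x.1), (T' x.2, Z' x.2))) ((a.1, z), (a.2, z')) := by
    refine pr_congr _ _ _ _ fun ω _ => ?_
    simp only [Prod.ext_iff]
    tauto
  unfold prod at h1 h2 h3
  rw [h1, h3, h2]
  rw [mul_div_mul_comm]

lemma condLaw_const (hp : IsProb p) (T : Ω → α) (z : β) :
    condLaw p T (fun _ => z) z = law p T := by
  funext a
  unfold condLaw law
  have h1 : pr p (fun _ => z) z = 1 := by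
    unfold pr
    simp [hp.sum_one]
  rw [h1, div_one]
  refine pr_congr _ _ _ _ fun ω _ => ?_
  simp

end cond

variable {G : Type*} [Fintype G] [AddCommGroup G]
variable (R : Type*) [CommRing R] [Module R G] [Fintype Rˣ]
variable {Ω Ω' β γ : Type*} [Fintype Ω] [Fintype Ω'] {p : Ω → ℝ} {q : Ω' → ℝ}

/-- The dilate-averaged entropic Ruzsa distance. -/
def DD (μ ν : G → ℝ) : ℝ := av (fun u : Rˣ => Hd (conv μ (sm (u : R) ν))) - (Hd μ + Hd ν) / 2

/-- The functional to be minimized. -/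
def tau (η : ℝ) (ρ μ ν : G → ℝ) : ℝ := DD R μ ν + η * (DD R ρ μ + DD R ρ ν)

variable {R}

lemma DD_nonneg {μ ν : G → ℝ} (hμ : IsProb μ) (hν : IsProb ν) : 0 ≤ DD R μ ν := by
  unfold DD
  rw [sub_nonneg]
  calc (Hd μ + Hd ν) / 2 = av (fun _ : Rˣ => (Hd μ + Hd ν) / 2) := (av_const _).symm
    _ ≤ _ := by
      refine av_mono fun u => ?_
      have h1 := Hd_le_conv_left hμ (isProb_sm (u : R) hν)
      have h2 := Hd_le_conv_right hμ (isProb_sm (u : R) hν)
      rw [Hd_sm_unit] at h2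
      linarith

lemma Hd_conv_sm_inv (μ ν : G → ℝ) (u : Rˣ) :
    Hd (conv μ (sm (u : R) ν)) = Hd (conv ν (sm ((u⁻¹ : Rˣ) : R) μ)) := by
  rw [← Hd_sm_unit (u⁻¹) (conv μ (sm (u : R) ν)), sm_conv, sm_sm, Units.inv_mul, sm_one,
    conv_comm]

lemma DD_comm (μ ν : G → ℝ) : DD R μ ν = DD R ν μ := by
  unfold DD
  rw [add_comm (Hd μ)]
  congr 1
  exact av_equiv (Equiv.inv Rˣ) _ _ fun u => Hd_conv_sm_inv μ ν u

/-- Conditional entropy of a sum, for independent pairs. -/
lemma Hc_add_eq (hp : IsProb p) (hq : IsProb q) (T : Ω → G) (Z : Ω → β)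
    (T' : Ω' → G) (Z' : Ω' → γ) (r : R) :
    Hc (prod p q) (fun x => T x.1 + r • T' x.2) (fun x => (Z x.1, Z' x.2)) =
      ∑ ω, ∑ ω', p ω * q ω' * Hd (conv (condLaw p T Z (Z ω)) (sm r (condLaw q T' Z' (Z' ω')))) := by
  rw [Hc_eq (isProb_prod hp hq), Fintype.sum_prod_type]
  refine sum_congr rfl fun ω _ => sum_congr rfl fun ω' _ => ?_
  have h1 : condLaw (prod p q) (fun x => T x.1 + r • T' x.2) (fun x => (Z x.1, Z' x.2))
      (Z ω, Z' ω') = conv (condLaw p T Z (Z ω)) (sm r (condLaw q T' Z' (Z' ω'))) := by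
    rw [condLaw_comp (prod p q) (fun x => (T x.1, T' x.2)) _ _
      (fun a : G × G => a.1 + r • a.2), condLaw_prod]
    rw [law_add _ _ (fun g : G => g) (fun g : G => r • g)]
    congr 1
    exact law_id _
  simp only [h1]
  rfl

/-- The average over the fibres of `H(X₀ + r T)` is at most the unconditional entropy. -/
lemma sum_Hd_conv_le {ρ : G → ℝ} (hρ : IsProb ρ) (hp : IsProb p) (T : Ω → G) (Z : Ω → β) (r : R) :
    ∑ ω, p ω * Hd (conv ρ (sm r (condLaw p T Z (Z ω)))) ≤ Hd (conv ρ (sm r (law p T))) := by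
  have h := Hc_add_eq hρ hp (fun x : G => x) (fun _ => ()) T Z r
  have h2 : condLaw ρ (fun x : G => x) (fun _ => ()) () = ρ := by
    rw [condLaw_const hρ]
    exact law_id ρ
  simp only [h2] at h
  rw [show (∑ ω : G, ∑ ω' : Ω, ρ ω * p ω' * Hd (conv ρ (sm r (condLaw p T Z (Z ω'))))) =
    ∑ ω', p ω' * Hd (conv ρ (sm r (condLaw p T Z (Z ω')))) by
      rw [sum_comm]
      refine sum_congr rfl fun ω' _ => ?_
      rw [← sum_mul, ← sum_mul, hρ.sum_one, one_mul]] at h
  rw [← h]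
  refine (Hc_le_ent (isProb_prod hρ hp) _ _).trans_eq ?_
  have := ent_add ρ p (fun x : G => x) (fun ω => r • T ω)
  rw [this]
  congr 2
  · exact law_id ρ
  · unfold sm
    rw [law_law]
    rfl

section minimizer

variable {η τ₀ : ℝ} {ρ : G → ℝ}

/-- Expansion of the functional. -/
lemma tau_expand (η : ℝ) (ρ μ ν : G → ℝ) : tau R η ρ μ ν =
    av (fun u : Rˣ => Hd (conv μ (sm (u : R) ν))) - (Hd μ + Hd ν) / 2 +
    η * (av (fun u : Rˣ => Hd (conv ρ (sm (u : R) μ))) +
      av (fun u : Rˣ => Hd (conv ρ (sm (u : R) ν))) - Hd ρ - (Hd μ + Hd ν) / 2) := by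
  unfold tau DD
  ring

/-- Consequence of minimality for independent conditioned variables. -/
lemma min_unglued (hη : 0 ≤ η) (hρ : IsProb ρ)
    (hmin : ∀ μ ν : G → ℝ, IsProb μ → IsProb ν → τ₀ ≤ tau R η ρ μ ν)
    (hp : IsProb p) (hq : IsProb q) (T : Ω → G) (Z : Ω → β) (T' : Ω' → G) (Z' : Ω' → γ) :
    τ₀ ≤ av (fun u : Rˣ => Hc (prod p q) (fun x => T x.1 + (u : R) • T' x.2)
        (fun x => (Z x.1, Z' x.2))) - (Hc p T Z + Hc q T' Z') / 2 +
      η * (av (fun u : Rˣ => Hd (conv ρ (sm (u : R) (law p T)))) +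
        av (fun u : Rˣ => Hd (conv ρ (sm (u : R) (law q T')))) - Hd ρ -
        (Hc p T Z + Hc q T' Z') / 2) := by
  set σ : Ω → G → ℝ := fun ω => condLaw p T Z (Z ω) with hσ
  set σ' : Ω' → G → ℝ := fun ω => condLaw q T' Z' (Z' ω) with hσ'
  have h1 : ∀ ω ω', p ω * q ω' * τ₀ ≤ p ω * q ω' * tau R η ρ (σ ω) (σ' ω') := by
    intro ω ω'
    by_cases hω : p ω = 0
    · simp [hω]
    by_cases hω' : q ω' = 0
    · simp [hω']
    refine mul_le_mul_of_nonneg_left ?_ (mul_nonneg (hp.nonneg _) (hq.nonneg _))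
    exact hmin _ _ (isProb_condLaw hp T Z (pr_pos hp Z hω).ne')
      (isProb_condLaw hq T' Z' (pr_pos hq Z' hω').ne')
  have h2 : τ₀ ≤ ∑ ω, ∑ ω', p ω * q ω' * tau R η ρ (σ ω) (σ' ω') := by
    calc τ₀ = ∑ ω, ∑ ω', p ω * q ω' * τ₀ := by
          simp_rw [← sum_mul, ← mul_sum, hq.sum_one, mul_one, hp.sum_one, one_mul]
      _ ≤ _ := sum_le_sum fun ω _ => sum_le_sum fun ω' _ => h1 ω ω'
  -- evaluate the sum
  have e1 : ∑ ω, ∑ ω', p ω * q ω' * av (fun u : Rˣ => Hd (conv (σ ω) (sm (u : R) (σ' ω')))) =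
      av (fun u : Rˣ => Hc (prod p q) (fun x => T x.1 + (u : R) • T' x.2)
        (fun x => (Z x.1, Z' x.2))) := by
    simp_rw [Hc_add_eq hp hq T Z T' Z']
    rw [av_sum]
    refine sum_congr rfl fun ω _ => ?_
    rw [av_sum]
    refine sum_congr rfl fun ω' _ => ?_
    rw [av_mul_left]
  have e2 : ∑ ω, ∑ ω', p ω * q ω' * Hd (σ ω) = Hc p T Z := by
    rw [Hc_eq hp]
    refine sum_congr rfl fun ω _ => ?_
    rw [← sum_mul, ← mul_sum, hq.sum_one, mul_one]
  have e3 : ∑ ω, ∑ ω', p ω * q ω' * Hd (σ' ω') = Hc q T' Z' := by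
    rw [Hc_eq hq, sum_comm]
    refine sum_congr rfl fun ω' _ => ?_
    rw [← sum_mul, ← sum_mul, hp.sum_one, one_mul]
  have e4 : ∑ ω, ∑ ω', p ω * q ω' * av (fun u : Rˣ => Hd (conv ρ (sm (u : R) (σ ω)))) ≤
      av (fun u : Rˣ => Hd (conv ρ (sm (u : R) (law p T)))) := by
    have : ∀ ω, ∑ ω', p ω * q ω' * av (fun u : Rˣ => Hd (conv ρ (sm (u : R) (σ ω)))) =
        av (fun u : Rˣ => p ω * Hd (conv ρ (sm (u : R) (σ ω)))) := by
      intro ω
      rw [← sum_mul, ← mul_sum, hq.sum_one, mul_one, av_mul_left]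
    rw [sum_congr rfl fun ω _ => this ω, ← av_sum]
    exact av_mono fun u => sum_Hd_conv_le hρ hp T Z _
  have e5 : ∑ ω, ∑ ω', p ω * q ω' * av (fun u : Rˣ => Hd (conv ρ (sm (u : R) (σ' ω')))) ≤
      av (fun u : Rˣ => Hd (conv ρ (sm (u : R) (law q T')))) := by
    rw [sum_comm]
    have : ∀ ω', ∑ ω, p ω * q ω' * av (fun u : Rˣ => Hd (conv ρ (sm (u : R) (σ' ω')))) =
        av (fun u : Rˣ => q ω' * Hd (conv ρ (sm (u : R) (σ' ω')))) := by
      intro ω
      rw [← sum_mul, ← sum_mul, hp.sum_one, one_mul, av_mul_left]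
    rw [sum_congr rfl fun ω _ => this ω, ← av_sum]
    exact av_mono fun u => sum_Hd_conv_le hρ hq T' Z' _
  have e6 : ∑ ω, ∑ ω', p ω * q ω' * Hd ρ = Hd ρ := by
    simp_rw [← sum_mul, ← mul_sum, hq.sum_one, mul_one, hp.sum_one, one_mul]
  have e7 : ∑ ω, ∑ ω', p ω * q ω' * tau R η ρ (σ ω) (σ' ω') =
      (∑ ω, ∑ ω', p ω * q ω' * av (fun u : Rˣ => Hd (conv (σ ω) (sm (u : R) (σ' ω'))))) -
      ((∑ ω, ∑ ω', p ω * q ω' * Hd (σ ω)) + (∑ ω, ∑ ω', p ω * q ω' * Hd (σ' ω'))) / 2 +
      η * ((∑ ω, ∑ ω', p ω * q ω' * av (fun u : Rˣ => Hd (conv ρ (sm (u : R) (σ ω))))) +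
      (∑ ω, ∑ ω', p ω * q ω' * av (fun u : Rˣ => Hd (conv ρ (sm (u : R) (σ' ω'))))) -
      (∑ ω, ∑ ω', p ω * q ω' * Hd ρ) -
      ((∑ ω, ∑ ω', p ω * q ω' * Hd (σ ω)) + (∑ ω, ∑ ω', p ω * q ω' * Hd (σ' ω'))) / 2) := by
    simp only [← sum_add_distrib, ← sum_sub_distrib, sum_div, mul_sum]
    refine sum_congr rfl fun ω _ => sum_congr rfl fun ω' _ => ?_
    rw [tau_expand]
    ring
  rw [e7, e1, e2, e3, e6] at h2
  nlinarith [mul_le_mul_of_nonneg_left e4 hη, mul_le_mul_of_nonneg_left e5 hη]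

/-- Consequence of minimality for conditionally independent copies. -/
lemma min_glued (hη : 0 ≤ η) (hρ : IsProb ρ)
    (hmin : ∀ μ ν : G → ℝ, IsProb μ → IsProb ν → τ₀ ≤ tau R η ρ μ ν)
    (hp : IsProb p) (T : Ω → G) (Z : Ω → β) :
    τ₀ ≤ av (fun u : Rˣ => ∑ ω, p ω * Hd (conv (condLaw p T Z (Z ω))
        (sm (u : R) (condLaw p T Z (Z ω))))) - Hc p T Z +
      η * (2 * av (fun u : Rˣ => Hd (conv ρ (sm (u : R) (law p T)))) - Hd ρ - Hc p T Z) := by
  set σ : Ω → G → ℝ := fun ω => condLaw p T Z (Z ω) with hσ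
  have h1 : ∀ ω, p ω * τ₀ ≤ p ω * tau R η ρ (σ ω) (σ ω) := by
    intro ω
    by_cases hω : p ω = 0
    · simp [hω]
    refine mul_le_mul_of_nonneg_left ?_ (hp.nonneg _)
    exact hmin _ _ (isProb_condLaw hp T Z (pr_pos hp Z hω).ne')
      (isProb_condLaw hp T Z (pr_pos hp Z hω).ne')
  have h2 : τ₀ ≤ ∑ ω, p ω * tau R η ρ (σ ω) (σ ω) := by
    calc τ₀ = ∑ ω, p ω * τ₀ := by
          rw [← sum_mul, hp.sum_one, one_mul]
      _ ≤ _ := sum_le_sum fun ω _ => h1 ω
  have e2 : ∑ ω, p ω * Hd (σ ω) = Hc p T Z := by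
    rw [Hc_eq hp]
  have e4 : ∑ ω, p ω * av (fun u : Rˣ => Hd (conv ρ (sm (u : R) (σ ω)))) ≤
      av (fun u : Rˣ => Hd (conv ρ (sm (u : R) (law p T)))) := by
    simp_rw [← av_mul_left]
    rw [← av_sum]
    exact av_mono fun u => sum_Hd_conv_le hρ hp T Z _
  have e6 : ∑ ω, p ω * Hd ρ = Hd ρ := by
    rw [← sum_mul, hp.sum_one, one_mul]
  have e1 : ∑ ω, p ω * av (fun u : Rˣ => Hd (conv (σ ω) (sm (u : R) (σ ω)))) =
      av (fun u : Rˣ => ∑ ω, p ω * Hd (conv (σ ω) (sm (u : R) (σ ω)))) := by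
    simp_rw [← av_mul_left]
    rw [← av_sum]
  have e7 : ∑ ω, p ω * tau R η ρ (σ ω) (σ ω) =
      (∑ ω, p ω * av (fun u : Rˣ => Hd (conv (σ ω) (sm (u : R) (σ ω))))) -
      (∑ ω, p ω * Hd (σ ω)) +
      η * (2 * (∑ ω, p ω * av (fun u : Rˣ => Hd (conv ρ (sm (u : R) (σ ω))))) -
      (∑ ω, p ω * Hd ρ) - (∑ ω, p ω * Hd (σ ω))) := by
    simp only [← sum_add_distrib, ← sum_sub_distrib, mul_sum]
    refine sum_congr rfl fun ω _ => ?_
    rw [tau_expand]
    ring
  rw [e7, e1, e2, e6] at h2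
  nlinarith [mul_le_mul_of_nonneg_left e4 hη]

end minimizer

/-! ### Existence of minimizers -/

lemma continuous_Hd : Continuous (Hd : (G → ℝ) → ℝ) := by
  have : (Hd : (G → ℝ) → ℝ) = fun μ => ∑ a, Real.negMulLog (μ a) := funext Hd_eq
  rw [this]
  exact continuous_finsetSum _ fun a _ => Real.continuous_negMulLog.comp (continuous_apply a)

lemma continuous_conv {X : Type*} [TopologicalSpace X] {f g : X → G → ℝ} (hf : Continuous f)
    (hg : Continuous g) : Continuous (fun x => conv (f x) (g x)) := by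
  refine continuous_pi fun a => ?_
  unfold conv law pr
  refine continuous_finsetSum _ fun ω _ => ?_
  split_ifs
  · unfold prod
    exact ((continuous_apply _).comp hf).mul ((continuous_apply _).comp hg)
  · exact continuous_const

lemma continuous_sm (r : R) {X : Type*} [TopologicalSpace X] {f : X → G → ℝ}
    (hf : Continuous f) : Continuous (fun x => sm r (f x)) := by
  refine continuous_pi fun a => ?_
  unfold sm law pr
  refine continuous_finsetSum _ fun ω _ => ?_
  split_ifs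
  · exact (continuous_apply _).comp hf
  · exact continuous_const

lemma continuous_DD {X : Type*} [TopologicalSpace X] {f g : X → G → ℝ} (hf : Continuous f)
    (hg : Continuous g) : Continuous (fun x => DD R (f x) (g x)) := by
  unfold DD av
  refine Continuous.sub (Continuous.div_const (continuous_finsetSum _ fun u _ => ?_) _) ?_
  · exact continuous_Hd.comp (continuous_conv hf (continuous_sm _ hg))
  · exact ((continuous_Hd.comp hf).add (continuous_Hd.comp hg)).div_const _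

lemma exists_min (η : ℝ) (ρ : G → ℝ) [Nonempty G] :
    ∃ μ ν : G → ℝ, IsProb μ ∧ IsProb ν ∧
      ∀ μ' ν' : G → ℝ, IsProb μ' → IsProb ν' → tau R η ρ μ ν ≤ tau R η ρ μ' ν' := by
  have hcomp : IsCompact ((stdSimplex ℝ G) ×ˢ (stdSimplex ℝ G)) :=
    (isCompact_stdSimplex ℝ G).prod (isCompact_stdSimplex ℝ G)
  have hne : ((stdSimplex ℝ G) ×ˢ (stdSimplex ℝ G)).Nonempty := by
    have : (stdSimplex ℝ G).Nonempty := ⟨delta, ⟨isProb_delta.nonneg, isProb_delta.sum_one⟩⟩
    exact this.prod this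
  have hcont : ContinuousOn (fun x : (G → ℝ) × (G → ℝ) => tau R η ρ x.1 x.2)
      ((stdSimplex ℝ G) ×ˢ (stdSimplex ℝ G)) := by
    refine Continuous.continuousOn ?_
    unfold tau
    refine (continuous_DD continuous_fst continuous_snd).add (continuous_const.mul ?_)
    exact (continuous_DD continuous_const continuous_fst).add
      (continuous_DD continuous_const continuous_snd)
  obtain ⟨x, hx, hmin⟩ := hcomp.exists_isMinOn hne hcont
  refine ⟨x.1, x.2, ⟨hx.1.1, hx.1.2⟩, ⟨hx.2.1, hx.2.2⟩, fun μ' ν' h1 h2 => ?_⟩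
  exact hmin (a := (μ', ν')) ⟨⟨h1.nonneg, h1.sum_one⟩, ⟨h2.nonneg, h2.sum_one⟩⟩

end

end Pool.Agent.Lib.MP_dd2a7c_co
end
end

section

/-!
Conditionally independent copies and the entropic Balog-Szemeredi-Gowers step for all dilates.
-/

namespace Pool.Agent.Lib.MP_dd2a7c_co

open Finset
open scoped Classical

noncomputable section

section glue

variable {Ω α β γ : Type*} [Fintype Ω] {p : Ω → ℝ}

/-- Two copies of the space, conditionally independent given `Z`. -/
def glue (p : Ω → ℝ) (Z : Ω → β) : Ω × Ω → ℝ :=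
  fun x => if Z x.1 = Z x.2 then p x.1 * p x.2 / pr p Z (Z x.1) else 0

lemma sum_glue_right (hp : IsProb p) (Z : Ω → β) (ω : Ω) : ∑ ω', glue p Z (ω, ω') = p ω := by
  unfold glue
  by_cases hω : p ω = 0
  · simp [hω]
  have hz := pr_pos hp Z hω
  have : ∀ ω', (if Z ω = Z ω' then p ω * p ω' / pr p Z (Z ω) else 0) =
      (if Z ω' = Z ω then p ω' else 0) * (p ω / pr p Z (Z ω)) := by
    intro ω'
    by_cases h : Z ω = Z ω'
    · rw [if_pos h, if_pos h.symm]; ring
    · rw [if_neg h, if_neg (Ne.symm h)]; ring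
  simp only [this]
  rw [← sum_mul]
  change pr p Z (Z ω) * _ = _
  field_simp

lemma glue_swap (Z : Ω → β) (x : Ω × Ω) : glue p Z x.swap = glue p Z x := by
  unfold glue
  simp only [Prod.fst_swap, Prod.snd_swap]
  by_cases h : Z x.1 = Z x.2
  · rw [if_pos h, if_pos h.symm, h]; ring
  · rw [if_neg h, if_neg (Ne.symm h)]

lemma isProb_glue (hp : IsProb p) (Z : Ω → β) : IsProb (glue p Z) where
  nonneg x := by
    unfold glue
    split_ifs
    · exact div_nonneg (mul_nonneg (hp.nonneg _) (hp.nonneg _)) (pr_nonneg hp _ _)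
    · exact le_rfl
  sum_one := by
    rw [Fintype.sum_prod_type]
    simp only [sum_glue_right hp]
    exact hp.sum_one

lemma glue_support {Z : Ω → β} {x : Ω × Ω} (h : glue p Z x ≠ 0) : Z x.1 = Z x.2 := by
  by_contra hc
  apply h
  unfold glue
  rw [if_neg hc]

lemma pr_glue_fst (hp : IsProb p) (Z : Ω → β) (f : Ω → α) (a : α) :
    pr (glue p Z) (fun x => f x.1) a = pr p f a := by
  unfold pr
  rw [Fintype.sum_prod_type]
  refine sum_congr rfl fun ω _ => ?_
  by_cases h : f ω = a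
  · simp only [h, if_true]
    exact sum_glue_right hp Z ω
  · simp [h]

lemma pr_glue_snd (hp : IsProb p) (Z : Ω → β) (f : Ω → α) (a : α) :
    pr (glue p Z) (fun x => f x.2) a = pr p f a := by
  rw [← pr_glue_fst hp Z f a]
  exact pr_of_equiv (Equiv.prodComm Ω Ω) (fun x => glue_swap Z x) (fun x : Ω × Ω => f x.2)
    (fun x : Ω × Ω => f x.1) (fun x => rfl) a

lemma ent_glue_fst (hp : IsProb p) (Z : Ω → β) (f : Ω → α) :
    ent (glue p Z) (fun x => f x.1) = ent p f := by
  unfold ent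
  simp_rw [pr_glue_fst hp Z f]
  rw [Fintype.sum_prod_type]
  congr 1
  refine sum_congr rfl fun x _ => ?_
  simp only
  rw [← sum_mul, sum_glue_right hp]

lemma ent_glue_snd (hp : IsProb p) (Z : Ω → β) (f : Ω → α) :
    ent (glue p Z) (fun x => f x.2) = ent p f := by
  rw [← ent_glue_fst hp Z f]
  exact ent_of_equiv (Equiv.prodComm Ω Ω) (fun x => glue_swap Z x) (fun x : Ω × Ω => f x.2)
    (fun x : Ω × Ω => f x.1) (fun x => rfl)

lemma condLaw_glue (hp : IsProb p) (T : Ω → α) (Z : Ω → β) {z : β} :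
    condLaw (glue p Z) (fun x => (T x.1, T x.2)) (fun x => Z x.1) z =
      prod (condLaw p T Z z) (condLaw p T Z z) := by
  funext a
  unfold condLaw
  rw [pr_glue_fst hp Z Z z]
  by_cases hz : pr p Z z = 0
  · simp only [hz, div_zero, prod]
    ring
  have h1 : pr (glue p Z) (fun x => ((T x.1, T x.2), Z x.1)) (a, z) =
      pr p (fun ω => (T ω, Z ω)) (a.1, z) * pr p (fun ω => (T ω, Z ω)) (a.2, z) / pr p Z z := by
    have hD : ∀ ω ω', (if ((T ω, T ω'), Z ω) = (a, z) then glue p Z (ω, ω') else 0) =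
        (if (T ω, Z ω) = (a.1, z) then p ω else 0) *
        (if (T ω', Z ω') = (a.2, z) then p ω' else 0) / pr p Z z := by
      intro ω ω'
      by_cases h3 : Z ω = z
      · by_cases h4 : Z ω' = z
        · by_cases h1 : T ω = a.1 <;> by_cases h2 : T ω' = a.2
          · have e1 : ((T ω, T ω'), Z ω) = (a, z) := by
              rw [h1, h2, h3]
            rw [if_pos e1, if_pos (by rw [h1, h3]), if_pos (by rw [h2, h4])]
            unfold glue
            rw [if_pos (by rw [h3, h4])]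
            simp only [h3]
          · simp [Prod.ext_iff, h2]
          · simp [Prod.ext_iff, h1]
          · simp [Prod.ext_iff, h1]
        · have : glue p Z (ω, ω') = 0 := by
            unfold glue
            rw [if_neg]
            simp only
            rw [h3]
            exact Ne.symm h4
          simp [this, h4]
      · simp [h3]
    unfold pr at hD ⊢
    rw [sum_mul_sum, sum_div, Fintype.sum_prod_type]
    refine sum_congr rfl fun ω _ => ?_
    rw [sum_div]
    refine sum_congr rfl fun ω' _ => ?_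
    beta_reduce
    convert hD ω ω' using 1
    · congr
    · congr
  rw [h1]
  simp only [prod]
  field_simp

end glue

section sums

variable {Ω Ω' α β γ φ : Type*} [Fintype Ω] {p : Ω → ℝ}

lemma Hd_prod {α β : Type*} [Fintype α] [Fintype β] {σ : α → ℝ} {τ : β → ℝ} (hσ : IsProb σ)
    (hτ : IsProb τ) : Hd (prod σ τ) = Hd σ + Hd τ := by
  have := ent_prod hσ hτ (id : α → α) (id : β → β)
  exact this

lemma Hc_glue_pair [Fintype α] (hp : IsProb p) (T : Ω → α) (Z : Ω → β) :
    Hc (glue p Z) (fun x => (T x.1, T x.2)) (fun x => Z x.1) = 2 * Hc p T Z := by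
  rw [Hc_eq (isProb_glue hp Z), Fintype.sum_prod_type, Hc_eq hp, mul_sum]
  refine sum_congr rfl fun ω _ => ?_
  simp only [condLaw_glue hp]
  rw [← sum_mul, sum_glue_right hp]
  by_cases hω : p ω = 0
  · simp [hω]
  have := isProb_condLaw hp T Z (pr_pos hp Z hω).ne'
  rw [Hd_prod this this]
  ring

variable {G : Type*} [Fintype G] [AddCommGroup G]
variable {R : Type*} [CommRing R] [Module R G]

lemma Hc_glue_add (hp : IsProb p) (T : Ω → G) (Z : Ω → β) (r : R) :
    Hc (glue p Z) (fun x => T x.1 + r • T x.2) (fun x => Z x.1) =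
      ∑ ω, p ω * Hd (conv (condLaw p T Z (Z ω)) (sm r (condLaw p T Z (Z ω)))) := by
  rw [Hc_eq (isProb_glue hp Z), Fintype.sum_prod_type]
  refine sum_congr rfl fun ω _ => ?_
  have : ∀ z, condLaw (glue p Z) (fun x => T x.1 + r • T x.2) (fun x => Z x.1) z =
      conv (condLaw p T Z z) (sm r (condLaw p T Z z)) := by
    intro z
    rw [condLaw_comp (glue p Z) (fun x => (T x.1, T x.2)) _ _ (fun a : G × G => a.1 + r • a.2),
      condLaw_glue hp, law_add _ _ (fun g : G => g) (fun g : G => r • g)]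
    congr 1
    exact law_id _
  simp only [this]
  rw [← sum_mul, sum_glue_right hp]

/-- The entropic Balog-Szemeredi-Gowers step, for an arbitrary unit dilate. -/
lemma bsg (hp : IsProb p) (T₁ T₂ : Ω → G) (F : Ω → φ) (u : Rˣ) :
    ∑ ω, p ω * Hd (conv (condLaw p T₁ (fun ω => (T₁ ω + T₂ ω, F ω)) (T₁ ω + T₂ ω, F ω))
      (sm (u : R) (condLaw p T₁ (fun ω => (T₁ ω + T₂ ω, F ω)) (T₁ ω + T₂ ω, F ω)))) ≤
    2 * Hc p T₁ F + Hc p (fun ω => (2 : R) • T₁ ω + T₂ ω) F +
      Hc p (fun ω => ((u : R) - 1) • T₁ ω - T₂ ω) F - Hc p (fun ω => T₁ ω + T₂ ω) F -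
      2 * Hc p T₁ (fun ω => (T₁ ω + T₂ ω, F ω)) := by
  set Z : Ω → G × φ := fun ω => (T₁ ω + T₂ ω, F ω) with hZ
  set q := glue p Z with hq
  have hqp : IsProb q := isProb_glue hp Z
  have h0 := Hc_glue_add (R := R) hp T₁ Z (u : R)
  change ∑ ω, p ω * Hd (conv (condLaw p T₁ Z (Z ω)) (sm (u : R) (condLaw p T₁ Z (Z ω)))) ≤ _
  rw [← h0]
  -- conditioning on less
  have h1 : Hc q (fun x => T₁ x.1 + (u : R) • T₁ x.2) (fun x => Z x.1) ≤
      Hc q (fun x => T₁ x.1 + (u : R) • T₁ x.2) (fun x => F x.1) := by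
    unfold Hc
    have := submod' hqp (fun x : Ω × Ω => (T₁ x.1 + (u : R) • T₁ x.2, F x.1))
      (fun x : Ω × Ω => Z x.1) (fun x : Ω × Ω => F x.1)
      (fun x : Ω × Ω => (T₁ x.1 + (u : R) • T₁ x.2, Z x.1))
      (by
        intro x y h
        simp only [Prod.mk.injEq] at h
        exact h.2)
      (by
        intro x y h
        simp only [hZ, Prod.mk.injEq] at h
        exact h.2)
      (by
        intro x y _ _ ha hb
        simp only [Prod.mk.injEq] at ha ⊢
        exact ⟨ha.1, hb⟩)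
    linarith
  -- submodularity
  have h2 := submod' hqp (fun x : Ω × Ω => (T₁ x.1, T₁ x.2, F x.1))
    (fun x : Ω × Ω => (T₁ x.1 + (T₁ x.1 + T₂ x.1), (u : R) • T₁ x.2 - (T₁ x.1 + T₂ x.1), F x.1))
    (fun x : Ω × Ω => (T₁ x.1 + (u : R) • T₁ x.2, F x.1))
    (fun x : Ω × Ω => ((T₁ x.1, T₁ x.2), Z x.1))
    (by
      intro x y h
      simp only [Prod.mk.injEq] at h ⊢
      obtain ⟨a1, a2, a3⟩ := h
      rw [a1, a2, a3]
      exact ⟨rfl, rfl⟩)
    (by
      intro x y h
      simp only [Prod.mk.injEq] at h ⊢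
      obtain ⟨a1, a2, a3⟩ := h
      refine ⟨?_, a3⟩
      calc T₁ x.1 + (u : R) • T₁ x.2 = (T₁ x.1 + (T₁ x.1 + T₂ x.1)) +
            ((u : R) • T₁ x.2 - (T₁ x.1 + T₂ x.1)) := by abel
        _ = (T₁ y.1 + (T₁ y.1 + T₂ y.1)) +
            ((u : R) • T₁ y.2 - (T₁ y.1 + T₂ y.1)) := by rw [a1, a2]
        _ = _ := by abel)
    (by
      intro x y _ _ ha hb
      simp only [hZ, Prod.mk.injEq] at ha hb ⊢
      obtain ⟨a1, a2, a3⟩ := ha
      obtain ⟨b1, b2, b3⟩ := hb
      refine ⟨⟨a1, a2⟩, ?_, a3⟩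
      rw [a1] at b1
      have := add_left_cancel b1
      rw [← this, a1])
  have h3 : ent q (fun x : Ω × Ω => ((T₁ x.1, T₁ x.2), Z x.1)) =
      2 * Hc p T₁ Z + ent p Z := by
    have a1 := Hc_glue_pair hp T₁ Z
    unfold Hc at a1
    rw [ent_glue_fst hp Z Z] at a1
    unfold Hc
    linarith
  have hF : ent q (fun x : Ω × Ω => F x.1) = ent p F := ent_glue_fst hp Z F
  have h4 : ent q (fun x : Ω × Ω => (T₁ x.1, T₁ x.2, F x.1)) + ent p F ≤
      2 * ent p (fun ω => (T₁ ω, F ω)) := by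
    have := submod' hqp (fun x : Ω × Ω => (T₁ x.1, F x.1)) (fun x : Ω × Ω => (T₁ x.2, F x.1))
      (fun x : Ω × Ω => F x.1) (fun x : Ω × Ω => (T₁ x.1, T₁ x.2, F x.1))
      (by
        intro x y h
        simp only [Prod.mk.injEq] at h
        exact h.2)
      (by
        intro x y h
        simp only [Prod.mk.injEq] at h
        exact h.2)
      (by
        intro x y _ _ ha hb
        simp only [Prod.mk.injEq] at ha hb ⊢
        exact ⟨ha.1, hb.1, ha.2⟩)
    have e1 : ent q (fun x : Ω × Ω => (T₁ x.1, F x.1)) = ent p (fun ω => (T₁ ω, F ω)) :=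
      ent_glue_fst hp Z (fun ω => (T₁ ω, F ω))
    have e2 : ent q (fun x : Ω × Ω => (T₁ x.2, F x.1)) = ent p (fun ω => (T₁ ω, F ω)) := by
      rw [← ent_glue_snd hp Z (fun ω => (T₁ ω, F ω))]
      refine ent_congr _ _ fun x y hx hy => ?_
      have hx' := glue_support hx
      have hy' := glue_support hy
      simp only [hZ, Prod.mk.injEq] at hx' hy' ⊢
      rw [hx'.2, hy'.2]
    rw [e1, e2, hF] at this
    linarith
  have h5 : ent q (fun x : Ω × Ω => (T₁ x.1 + (T₁ x.1 + T₂ x.1),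
      (u : R) • T₁ x.2 - (T₁ x.1 + T₂ x.1), F x.1)) + ent p F ≤
      ent p (fun ω => ((2 : R) • T₁ ω + T₂ ω, F ω)) +
      ent p (fun ω => (((u : R) - 1) • T₁ ω - T₂ ω, F ω)) := by
    have := submod' hqp (fun x : Ω × Ω => (T₁ x.1 + (T₁ x.1 + T₂ x.1), F x.1))
      (fun x : Ω × Ω => ((u : R) • T₁ x.2 - (T₁ x.1 + T₂ x.1), F x.1))
      (fun x : Ω × Ω => F x.1) (fun x : Ω × Ω => (T₁ x.1 + (T₁ x.1 + T₂ x.1),
      (u : R) • T₁ x.2 - (T₁ x.1 + T₂ x.1), F x.1))
      (by
        intro x y h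
        simp only [Prod.mk.injEq] at h
        exact h.2)
      (by
        intro x y h
        simp only [Prod.mk.injEq] at h
        exact h.2)
      (by
        intro x y _ _ ha hb
        simp only [Prod.mk.injEq] at ha hb ⊢
        exact ⟨ha.1, hb.1, ha.2⟩)
    have e1 : ent q (fun x : Ω × Ω => (T₁ x.1 + (T₁ x.1 + T₂ x.1), F x.1)) =
        ent p (fun ω => ((2 : R) • T₁ ω + T₂ ω, F ω)) := by
      rw [← ent_glue_fst hp Z (fun ω => ((2 : R) • T₁ ω + T₂ ω, F ω))]
      congr 1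
      funext x
      rw [two_smul]
      simp only [Prod.mk.injEq, and_true]
      abel
    have e2 : ent q (fun x : Ω × Ω => ((u : R) • T₁ x.2 - (T₁ x.1 + T₂ x.1), F x.1)) =
        ent p (fun ω => (((u : R) - 1) • T₁ ω - T₂ ω, F ω)) := by
      rw [← ent_glue_snd hp Z (fun ω => (((u : R) - 1) • T₁ ω - T₂ ω, F ω))]
      refine ent_congr _ _ fun x y hx hy => ?_
      have hx' := glue_support hx
      have hy' := glue_support hy
      simp only [hZ, Prod.mk.injEq] at hx' hy' ⊢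
      rw [hx'.1, hx'.2, hy'.1, hy'.2, sub_smul, one_smul, sub_smul, one_smul, sub_sub, sub_sub]
    rw [e1, e2, hF] at this
    linarith
  have h6 : Hc p (fun ω => T₁ ω + T₂ ω) F = ent p Z - ent p F := rfl
  rw [h3] at h2
  rw [h6]
  unfold Hc at h1 h2 ⊢
  rw [hF] at h1
  linarith

end sums

end

end Pool.Agent.Lib.MP_dd2a7c_co
end
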