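import Pool.Agent.Lib.MP_dd2a7c_co.Basic

/-!
Finitely supported probability laws on an abelian group, with convolution as multiplication
(so that powers and finite products are available), and their entropy.
-/

namespace Pool.Agent.Lib.MP_dd2a7c_co

open Finset
open scoped Classical

noncomputable section

universe u

lemma coeff_tot {Γ : Type u} [AddCommGroup Γ] (f : AddMonoidAlgebra ℝ Γ) :
    f.coeff.sum (fun _ r => r) = (AddMonoidAlgebra.lift ℝ ℝ Γ 1) f := by
  rw [AddMonoidAlgebra.lift_apply]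
  simp

/-- The submonoid of the group algebra formed by the finitely supported probability laws. -/
def lawSub (Γ : Type u) [AddCommGroup Γ] : Submonoid (AddMonoidAlgebra ℝ Γ) where
  carrier := {μ | (∀ g, 0 ≤ μ.coeff g) ∧ μ.coeff.sum (fun _ r => r) = 1}
  mul_mem' := by
    rintro μ ν ⟨h1, h2⟩ ⟨h3, h4⟩
    constructor
    · intro g
      rw [AddMonoidAlgebra.coeff_mul]
      refine Finsupp.sum_nonneg fun a _ => Finsupp.sum_nonneg fun b _ => ?_
      split_ifs
      · exact mul_nonneg (h1 a) (h3 b)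
      · exact le_rfl
    · rw [coeff_tot, map_mul, ← coeff_tot, ← coeff_tot, h2, h4, one_mul]
  one_mem' := by
    constructor
    · intro g
      rw [AddMonoidAlgebra.one_def]
      simp only [AddMonoidAlgebra.coeff_single]
      rw [Finsupp.single_apply]
      split_ifs <;> norm_num
    · rw [AddMonoidAlgebra.one_def]
      simp

/-- Finitely supported probability laws on `Γ`; multiplication is convolution. -/
abbrev Law (Γ : Type u) [AddCommGroup Γ] := ↥(lawSub Γ)

variable {Γ : Type u} [AddCommGroup Γ]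

/-- The weight of a point. -/
def wt (μ : Law Γ) (g : Γ) : ℝ := μ.1.coeff g

/-- The support. -/
def supp (μ : Law Γ) : Finset Γ := μ.1.coeff.support

/-- Shannon entropy of a law. -/
def H (μ : Law Γ) : ℝ := ∑ g ∈ supp μ, Real.negMulLog (wt μ g)

lemma wt_nonneg (μ : Law Γ) (g : Γ) : 0 ≤ wt μ g := μ.2.1 g

lemma mem_supp {μ : Law Γ} {g : Γ} : g ∈ supp μ ↔ wt μ g ≠ 0 := Finsupp.mem_support_iff

lemma sum_wt (μ : Law Γ) : ∑ g ∈ supp μ, wt μ g = 1 := μ.2.2

lemma sum_wt_of_subset (μ : Law Γ) {s : Finset Γ} (h : supp μ ⊆ s) : ∑ g ∈ s, wt μ g = 1 := by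
  rw [← sum_wt μ]
  symm
  refine sum_subset h fun g _ hg => ?_
  by_contra h
  exact hg (mem_supp.2 h)

lemma H_eq_of_subset (μ : Law Γ) {s : Finset Γ} (h : supp μ ⊆ s) :
    H μ = ∑ g ∈ s, Real.negMulLog (wt μ g) := by
  unfold H
  refine sum_subset h fun g _ hg => ?_
  have : wt μ g = 0 := by
    by_contra h
    exact hg (mem_supp.2 h)
  rw [this]
  simp

lemma law_ext {μ ν : Law Γ} (h : ∀ g, wt μ g = wt ν g) : μ = ν := by
  apply Subtype.ext
  apply AddMonoidAlgebra.coeff_injective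
  exact Finsupp.ext h

lemma wt_le_one (μ : Law Γ) (g : Γ) : wt μ g ≤ 1 := by
  by_cases h : g ∈ supp μ
  · rw [← sum_wt μ]
    exact single_le_sum (fun x _ => wt_nonneg μ x) h
  · have : wt μ g = 0 := by
      by_contra h'
      exact h (mem_supp.2 h')
    rw [this]
    exact zero_le_one

/-! ### Laws of random variables -/

section rv

variable {Ω Ω' Ω'' : Type*} [Fintype Ω] [Fintype Ω'] [Fintype Ω'']

lemma coeff_sum_single (p : Ω → ℝ) (f : Ω → Γ) (g : Γ) :
    (∑ ω, AddMonoidAlgebra.single (f ω) (p ω) : AddMonoidAlgebra ℝ Γ).coeff g = pr p f g := by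
  rw [AddMonoidAlgebra.coeff_sum, Finsupp.finsetSum_apply]
  unfold pr
  refine sum_congr rfl fun ω _ => ?_
  rw [AddMonoidAlgebra.coeff_single, Finsupp.single_apply]

/-- The law of the random variable `f` under the weights `p`. -/
def lawOf {p : Ω → ℝ} (hp : IsProb p) (f : Ω → Γ) : Law Γ :=
  ⟨∑ ω, AddMonoidAlgebra.single (f ω) (p ω), by
    constructor
    · intro g
      rw [coeff_sum_single]
      exact pr_nonneg hp f g
    · rw [coeff_tot, map_sum]
      simp only [AddMonoidAlgebra.lift_single]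
      simp [hp.sum_one]⟩

variable {p : Ω → ℝ} {q : Ω' → ℝ}

lemma wt_lawOf (hp : IsProb p) (f : Ω → Γ) (g : Γ) : wt (lawOf hp f) g = pr p f g :=
  coeff_sum_single p f g

lemma sum_pr_mul (hp : IsProb p) (f : Ω → Γ) (F : Γ → ℝ) {s : Finset Γ}
    (hs : ∀ ω, p ω ≠ 0 → f ω ∈ s) :
    ∑ g ∈ s, pr p f g * F g = ∑ ω, p ω * F (f ω) := by
  unfold pr
  simp_rw [sum_mul]
  rw [sum_comm]
  refine sum_congr rfl fun ω _ => ?_
  by_cases h0 : p ω = 0
  · simp [h0]
  rw [sum_eq_single (f ω)]
  · simp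
  · intro b _ hb
    simp [Ne.symm hb]
  · intro h
    exact absurd (hs ω h0) h

lemma mem_supp_lawOf (hp : IsProb p) (f : Ω → Γ) {ω : Ω} (h : p ω ≠ 0) :
    f ω ∈ supp (lawOf hp f) := by
  rw [mem_supp, wt_lawOf]
  exact (pr_pos hp f h).ne'

lemma H_lawOf (hp : IsProb p) (f : Ω → Γ) : H (lawOf hp f) = ent p f := by
  have h := sum_pr_mul hp f (fun g => Real.log (pr p f g)) (s := supp (lawOf hp f))
    fun ω h => mem_supp_lawOf hp f h
  unfold ent H
  rw [← h, ← sum_neg_distrib]
  refine sum_congr rfl fun g _ => ?_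
  rw [wt_lawOf, Real.negMulLog]
  ring

lemma lawOf_mul (hp : IsProb p) (hq : IsProb q) (f : Ω → Γ) (g : Ω' → Γ) :
    lawOf hp f * lawOf hq g = lawOf (isProb_prod hp hq) (fun x => f x.1 + g x.2) := by
  apply Subtype.ext
  change (∑ ω, AddMonoidAlgebra.single (f ω) (p ω) : AddMonoidAlgebra ℝ Γ) *
    (∑ ω, AddMonoidAlgebra.single (g ω) (q ω)) =
    ∑ x : Ω × Ω', AddMonoidAlgebra.single (f x.1 + g x.2) (prod p q x)
  rw [sum_mul_sum, Fintype.sum_prod_type]
  refine sum_congr rfl fun a _ => sum_congr rfl fun b _ => ?_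
  rw [AddMonoidAlgebra.single_mul_single]
  rfl

lemma lawOf_fst (hp : IsProb p) (hq : IsProb q) (f : Ω → Γ) :
    lawOf (isProb_prod hp hq) (fun x => f x.1) = lawOf hp f := by
  apply law_ext
  intro g
  rw [wt_lawOf, wt_lawOf]
  exact pr_prod_fst p hq f g

lemma lawOf_snd (hp : IsProb p) (hq : IsProb q) (f : Ω' → Γ) :
    lawOf (isProb_prod hp hq) (fun x => f x.2) = lawOf hq f := by
  apply law_ext
  intro g
  rw [wt_lawOf, wt_lawOf]
  exact pr_prod_snd hp q f g

/-- Every law is the law of a random variable with positive weights. -/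
lemma exists_rep (μ : Law Γ) : ∃ (Ω : Type u) (_ : Fintype Ω) (p : Ω → ℝ) (hp : IsProb p)
    (f : Ω → Γ), (∀ ω, p ω ≠ 0) ∧ lawOf hp f = μ := by
  have hp : IsProb (fun ω : ↥(supp μ) => wt μ ω) :=
    { nonneg := fun ω => wt_nonneg μ ω
      sum_one := by
        rw [← sum_wt μ]
        exact sum_coe_sort (supp μ) (wt μ) }
  refine ⟨↥(supp μ), inferInstance, fun ω => wt μ ω, hp, fun ω => ω, fun ω => mem_supp.1 ω.2, ?_⟩
  apply law_ext
  intro g
  rw [wt_lawOf]
  unfold pr
  by_cases h : g ∈ supp μ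
  · rw [sum_eq_single ⟨g, h⟩]
    · simp
    · intro b _ hb
      rw [if_neg]
      intro h'
      exact hb (Subtype.ext h')
    · simp
  · have h0 : wt μ g = 0 := by
      by_contra h'
      exact h (mem_supp.2 h')
    rw [h0]
    refine sum_eq_zero fun ω _ => ?_
    rw [if_neg]
    rintro rfl
    exact h ω.2

end rv

/-! ### Entropy inequalities -/

lemma H_nonneg (μ : Law Γ) : 0 ≤ H μ :=
  sum_nonneg fun g _ => Real.negMulLog_nonneg (wt_nonneg μ g) (wt_le_one μ g)

lemma H_mul_le (μ ν : Law Γ) : H (μ * ν) ≤ H μ + H ν := by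
  obtain ⟨Ω, _, p, hp, f, -, rfl⟩ := exists_rep μ
  obtain ⟨Ω', _, q, hq, g, -, rfl⟩ := exists_rep ν
  rw [lawOf_mul, H_lawOf, H_lawOf, H_lawOf, ← ent_prod hp hq f g]
  refine ent_mono (isProb_prod hp hq) _ _ fun x y _ _ h => ?_
  simp only [Prod.mk.injEq] at h
  rw [h.1, h.2]

lemma H_le_mul (μ ν : Law Γ) : H μ ≤ H (μ * ν) := by
  obtain ⟨Ω, _, p, hp, f, -, rfl⟩ := exists_rep μ
  obtain ⟨Ω', _, q, hq, g, -, rfl⟩ := exists_rep ν
  rw [lawOf_mul, H_lawOf, H_lawOf]
  have h1 := ent_prod hp hq f g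
  have h2 := ent_pair_le (isProb_prod hp hq) (fun x => f x.1 + g x.2) (fun x => g x.2)
  have h3 : ent (prod p q) (fun x => (f x.1, g x.2)) =
      ent (prod p q) (fun x => (f x.1 + g x.2, g x.2)) := by
    refine ent_congr _ _ fun x y _ _ => ?_
    simp only [Prod.mk.injEq]
    constructor
    · rintro ⟨h1, h2⟩
      rw [h1, h2]
      exact ⟨rfl, rfl⟩
    · rintro ⟨h1, h2⟩
      rw [h2] at h1
      exact ⟨add_right_cancel h1, h2⟩
  have h4 := ent_prod_snd hp q (fun x => g x)
  rw [h4] at h2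
  linarith

lemma H_le_mul_left (μ ν : Law Γ) : H ν ≤ H (μ * ν) := by
  rw [mul_comm]
  exact H_le_mul ν μ

/-- Submodularity for sums of independent variables. -/
lemma H_submod (μ ν ξ : Law Γ) : H (μ * ν * ξ) + H ν ≤ H (μ * ν) + H (ν * ξ) := by
  obtain ⟨Ω1, _, p, hp, f, -, rfl⟩ := exists_rep μ
  obtain ⟨Ω2, _, q, hq, g, -, rfl⟩ := exists_rep ν
  obtain ⟨Ω3, _, r, hr, h, -, rfl⟩ := exists_rep ξ
  have hpq := isProb_prod hp hq
  have hP := isProb_prod hpq hr
  have e1 : H (lawOf hp f * lawOf hq g * lawOf hr h) =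
      ent (prod (prod p q) r) (fun x => f x.1.1 + g x.1.2 + h x.2) := by
    rw [lawOf_mul hp hq, lawOf_mul hpq hr, H_lawOf]
  have e2 : H (lawOf hp f * lawOf hq g) = ent (prod p q) (fun x => f x.1 + g x.2) := by
    rw [lawOf_mul hp hq, H_lawOf]
  have e3 : H (lawOf hq g * lawOf hr h) = ent (prod q r) (fun x => g x.1 + h x.2) := by
    rw [lawOf_mul hq hr, H_lawOf]
  rw [e1, e2, e3, H_lawOf]
  have s := submod' hP (fun x => (f x.1.1, g x.1.2 + h x.2)) (fun x => (f x.1.1 + g x.1.2, h x.2))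
    (fun x => f x.1.1 + g x.1.2 + h x.2) (fun x => ((f x.1.1, g x.1.2), h x.2))
    (fun x y e => by
      simp only [Prod.mk.injEq] at e
      rw [add_assoc, add_assoc, e.1, e.2])
    (fun x y e => by
      simp only [Prod.mk.injEq] at e
      rw [e.1, e.2])
    (fun x y _ _ e e' => by
      simp only [Prod.mk.injEq] at e e' ⊢
      obtain ⟨a1, a2⟩ := e
      obtain ⟨b1, b2⟩ := e'
      rw [a1] at b1
      exact ⟨⟨a1, add_left_cancel b1⟩, b2⟩)
  have s1 : ent (prod (prod p q) r) (fun x => ((f x.1.1, g x.1.2), h x.2)) =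
      ent p f + ent q g + ent r h := by
    rw [ent_prod hpq hr (fun x => (f x.1, g x.2)) h, ent_prod hp hq]
  have s2 : ent (prod (prod p q) r) (fun x => (f x.1.1 + g x.1.2, h x.2)) =
      ent (prod p q) (fun x => f x.1 + g x.2) + ent r h :=
    ent_prod hpq hr (fun x => f x.1 + g x.2) h
  have s3 : ent (prod (prod p q) r) (fun x => (f x.1.1, g x.1.2 + h x.2)) =
      ent p f + ent (prod q r) (fun x => g x.1 + h x.2) := by
    have hqr := isProb_prod hq hr
    rw [← ent_prod hp hqr f (fun x => g x.1 + h x.2)]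
    -- transport along the associativity of the product
    unfold ent pr
    congr 1
    have key : ∀ F : (Ω1 × Ω2) × Ω3 → ℝ,
        ∑ x, F x = ∑ y : Ω1 × (Ω2 × Ω3), F ((y.1, y.2.1), y.2.2) := by
      intro F
      rw [Fintype.sum_prod_type, Fintype.sum_prod_type, Fintype.sum_prod_type]
      refine sum_congr rfl fun a _ => ?_
      rw [Fintype.sum_prod_type]
    rw [key]
    refine sum_congr rfl fun y _ => ?_
    rw [key]
    simp only [prod, mul_assoc]
  rw [s1, s2, s3] at s
  linarith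

/-! ### Uniform laws -/

lemma isProb_unifSub {A : Finset Γ} (hA : A.Nonempty) :
    IsProb (fun _ : ↥A => 1 / (A.card : ℝ)) where
  nonneg _ := by positivity
  sum_one := by
    rw [sum_const, nsmul_eq_mul, card_univ, Fintype.card_coe]
    have : (A.card : ℝ) ≠ 0 := Nat.cast_ne_zero.2 hA.card_pos.ne'
    field_simp

/-- The uniform law on a nonempty finite set. -/
def lawU (A : Finset Γ) (hA : A.Nonempty) : Law Γ :=
  lawOf (isProb_unifSub hA) (fun a => (a : Γ))

lemma wt_lawU (A : Finset Γ) (hA : A.Nonempty) (g : Γ) :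
    wt (lawU A hA) g = if g ∈ A then 1 / (A.card : ℝ) else 0 := by
  unfold lawU
  rw [wt_lawOf]
  unfold pr
  by_cases h : g ∈ A
  · rw [if_pos h, sum_eq_single ⟨g, h⟩]
    · simp
    · intro b _ hb
      rw [if_neg]
      intro h'
      exact hb (Subtype.ext h')
    · simp
  · rw [if_neg h]
    refine sum_eq_zero fun ω _ => ?_
    rw [if_neg]
    rintro rfl
    exact h ω.2

lemma supp_lawU (A : Finset Γ) (hA : A.Nonempty) : supp (lawU A hA) = A := by
  ext g
  rw [mem_supp, wt_lawU]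
  have : (A.card : ℝ) ≠ 0 := Nat.cast_ne_zero.2 hA.card_pos.ne'
  split_ifs with h
  · simp only [h, iff_true]
    positivity
  · simp [h]

lemma H_lawU (A : Finset Γ) (hA : A.Nonempty) : H (lawU A hA) = Real.log A.card := by
  unfold H
  rw [supp_lawU]
  have : (A.card : ℝ) ≠ 0 := Nat.cast_ne_zero.2 hA.card_pos.ne'
  have h : ∀ g ∈ A, Real.negMulLog (wt (lawU A hA) g) =
      1 / (A.card : ℝ) * Real.log A.card := by
    intro g hg
    rw [wt_lawU, if_pos hg, Real.negMulLog, one_div, Real.log_inv]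
    ring
  rw [sum_congr rfl h, sum_const, nsmul_eq_mul]
  field_simp

/-- Jensen: the entropy is at most the logarithm of the cardinality of a set carrying the law. -/
lemma H_le_log_card (μ : Law Γ) {s : Finset Γ} (h : supp μ ⊆ s) : H μ ≤ Real.log s.card := by
  have hne : s.Nonempty := by
    by_contra hcon
    rw [not_nonempty_iff_eq_empty] at hcon
    have := sum_wt_of_subset μ h
    rw [hcon] at this
    simp at this
  have hc : (0 : ℝ) < s.card := Nat.cast_pos.2 hne.card_pos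
  rw [H_eq_of_subset μ h]
  have key : ∀ g ∈ s, Real.negMulLog (wt μ g) - wt μ g * Real.log s.card ≤
      1 / s.card - wt μ g := by
    intro g _
    by_cases h0 : wt μ g = 0
    · rw [h0]
      simp
    have hpos : 0 < wt μ g := lt_of_le_of_ne (wt_nonneg μ g) (Ne.symm h0)
    have h1 := Real.log_le_sub_one_of_pos (show 0 < 1 / (s.card * wt μ g) by positivity)
    rw [Real.log_div one_ne_zero (by positivity), Real.log_one,
      Real.log_mul hc.ne' hpos.ne'] at h1
    have h2 := mul_le_mul_of_nonneg_left h1 hpos.le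
    have h3 : wt μ g * (1 / (s.card * wt μ g) - 1) = 1 / s.card - wt μ g := by
      field_simp
    rw [h3] at h2
    rw [Real.negMulLog]
    linarith
  have hsum := sum_le_sum key
  rw [sum_sub_distrib, sum_sub_distrib, ← sum_mul, sum_wt_of_subset μ h, one_mul, sum_const,
    nsmul_eq_mul] at hsum
  have : (s.card : ℝ) * (1 / s.card) = 1 := by field_simp
  rw [this] at hsum
  linarith

lemma supp_mul_subset (μ ν : Law Γ) (g : Γ) (hg : g ∈ supp (μ * ν)) :
    ∃ a ∈ supp μ, ∃ b ∈ supp ν, g = a + b := by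
  obtain ⟨Ω, _, p, hp, f, hf, rfl⟩ := exists_rep μ
  obtain ⟨Ω', _, q, hq, h, hh, rfl⟩ := exists_rep ν
  rw [lawOf_mul, mem_supp, wt_lawOf] at hg
  unfold pr at hg
  obtain ⟨x, -, hx⟩ := exists_ne_zero_of_sum_ne_zero hg
  rw [ne_eq, ite_eq_right_iff, Classical.not_imp] at hx
  exact ⟨f x.1, mem_supp_lawOf hp f (hf _), h x.2, mem_supp_lawOf hq h (hh _), hx.1.symm⟩

lemma H_one : H (1 : Law Γ) = 0 := by
  apply le_antisymm _ (H_nonneg _)
  have h := H_le_log_card (1 : Law Γ) (s := {0}) (by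
    intro g hg
    rw [mem_supp] at hg
    rw [mem_singleton]
    by_contra h
    apply hg
    change (1 : AddMonoidAlgebra ℝ Γ).coeff g = 0
    rw [AddMonoidAlgebra.one_def, AddMonoidAlgebra.coeff_single, Finsupp.single_apply,
      if_neg (Ne.symm h)])
  simpa using h

end

end Pool.Agent.Lib.MP_dd2a7c_co
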