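import Mathlib
import Pool.Agent.Lib.MP_dd2a7c_co.Growth
import Pool.Agent.Lib.MP_dd2a7c_co.LawToSet

section

/-!
Variants of `LocalGroup.exists_prog` and `exists_prog_of_growth` in which the coset progression is
proper and contains the set at scale `1/8`.
-/

set_option autoImplicit false

open Finset Module

namespace Pool.Agent.Lib.MP_dd2a7c_co

namespace LocalGroup

variable {Γ ι : Type*} [AddCommGroup Γ] [Fintype ι] (L : LocalGroup Γ ι)

/-- **Balls of local groups are proper centered convex coset progressions.** -/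
theorem exists_prog_proper (ρ : ℝ) (hρ0 : 0 < ρ)
    (h : 3 * ((finrank ℝ (L.V ρ) : ℝ) + 1) * ρ ≤ 1) :
    ∃ Q : CosetProg Γ, Q.base = 0 ∧ Q.dim = finrank ℝ (L.V ρ) ∧ Q.carrier = L.ball ρ ∧
      Q.vol = Set.ncard (L.ball ρ) ∧
      (∀ v ∈ Q.points, ∀ w ∈ Q.points, Q.hom v - Q.hom w ∈ Q.sub → v = w) ∧
      (∀ y ∈ L.ball (ρ / 8), ∃ v : Fin Q.dim → ℤ, (fun i => 8 * (v i : ℝ)) ∈ Q.body ∧
        ∃ h ∈ Q.sub, y = Q.hom v + h) := by
  classical
  set d := finrank ℝ (L.V ρ) with hd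
  have hd0 : (0 : ℝ) ≤ d := Nat.cast_nonneg d
  have hdρ : 0 ≤ (d : ℝ) * ρ := by positivity
  have hρ1 : ρ ≤ 1 := by nlinarith
  have hρ2 : 2 * ((d : ℝ) * ρ) ≤ 1 := by nlinarith
  obtain ⟨ψ, hψ⟩ := L.exists_hom ρ hρ0 hρ2 hρ1
  -- lift to `Γ`
  have hsurj : Function.Surjective (QuotientAddGroup.mk : Γ → Γ ⧸ L.ker) :=
    QuotientAddGroup.mk_surjective
  choose g hg using fun i => hsurj (ψ (L.latBasis ρ i))
  let hom : (Fin d → ℤ) →+ Γ :=
    { toFun := fun c => ∑ i, c i • g i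
      map_zero' := by simp
      map_add' := fun c c' => by simp [add_smul, Finset.sum_add_distrib] }
  have hhom : ∀ c : Fin d → ℤ, (QuotientAddGroup.mk (hom c) : Γ ⧸ L.ker) =
      ψ ((L.latBasis ρ).equivFun.symm c) := by
    intro c
    rw [Basis.equivFun_symm_apply, map_sum]
    change (QuotientAddGroup.mk (∑ i, c i • g i) : Γ ⧸ L.ker) = _
    rw [QuotientAddGroup.mk_sum]
    refine Finset.sum_congr rfl fun i _ => ?_
    rw [map_zsmul, ← hg i]
    rfl
  let Q : CosetProg Γ :=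
    { dim := d
      body := (L.param ρ) ⁻¹' Metric.closedBall 0 ρ
      isCompact_body := by
        have := (L.param ρ).toHomeomorph.isCompact_preimage.mpr
          (isCompact_closedBall (0 : L.V ρ) ρ)
        exact this
      convex_body := (convex_closedBall (0 : L.V ρ) ρ).linear_preimage
        (L.param ρ).toLinearEquiv.toLinearMap
      interior_nonempty := by
        refine ⟨0, mem_interior.mpr ⟨(L.param ρ) ⁻¹' Metric.ball 0 ρ,
          Set.preimage_mono Metric.ball_subset_closedBall,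
          Metric.isOpen_ball.preimage (L.param ρ).continuous, ?_⟩⟩
        simp [hρ0]
      neg_mem_body := fun y hy => by
        simp only [Set.mem_preimage, map_neg, mem_closedBall_zero_iff, norm_neg] at hy ⊢
        exact hy
      base := 0
      hom := hom
      sub := L.ker
      finite_sub := L.ker_finite }
  -- points of the body
  have hpts : ∀ c : Fin d → ℤ, (Q.points : Set (Fin d → ℤ)) c ↔
      ‖((((L.latBasis ρ).equivFun.symm c : L.lat ρ) : L.V ρ) : ι → ℝ)‖ ≤ ρ := by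
    intro c
    change L.param ρ (fun i => (c i : ℝ)) ∈ Metric.closedBall 0 ρ ↔ _
    rw [param_intCast, mem_closedBall_zero_iff]
    rfl
  -- the elements above a lattice point
  have hover : ∀ c : Fin d → ℤ, (Q.points : Set (Fin d → ℤ)) c → ∀ k ∈ L.ker,
      hom c + k ∈ L.ball ρ ∧ L.ℓ (hom c + k) =
        ((((L.latBasis ρ).equivFun.symm c : L.lat ρ) : L.V ρ) : ι → ℝ) := by
    intro c hc k hk
    have hc' := (hpts c).mp hc
    set w := (L.latBasis ρ).equivFun.symm c with hw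
    obtain ⟨y, hy, hyw⟩ := L.surj _ w.2 (hc'.trans hρ1)
    have hyball : y ∈ L.ball ρ := ⟨hy, by rw [hyw]; exact hc'⟩
    have h1 := hψ y hyball w hyw.symm
    have h2 : (QuotientAddGroup.mk y : Γ ⧸ L.ker) = QuotientAddGroup.mk (hom c) := by
      rw [hhom, ← h1]
    rw [QuotientAddGroup.eq] at h2
    have h3 : hom c + k = y + ((-y + hom c) + k) := by abel
    have h4 : (-y + hom c) + k ∈ L.ker := L.ker.add_mem h2 hk
    have h5 := L.add y hy _ h4.1 (by rw [h4.2, add_zero]; exact (L.mem_Λ y hy).2)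
    rw [h3, h5.2, h4.2, add_zero, hyw]
    refine ⟨⟨h5.1, ?_⟩, rfl⟩
    rw [h5.2, h4.2, add_zero, hyw]
    exact hc'
  -- every element of the ball is above a lattice point
  have hunder : ∀ y ∈ L.ball ρ, ∃ c : Fin d → ℤ, (Q.points : Set (Fin d → ℤ)) c ∧
      ∃ k ∈ L.ker, y = hom c + k := by
    intro y hy
    let w : L.lat ρ := ⟨⟨L.ℓ y, Submodule.subset_span ⟨y, hy, rfl⟩⟩, (L.mem_Λ y hy.1).1⟩
    have hwc : (L.latBasis ρ).equivFun.symm ((L.latBasis ρ).equivFun w) = w :=
      LinearEquiv.symm_apply_apply _ _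
    refine ⟨(L.latBasis ρ).equivFun w, ?_, -(hom ((L.latBasis ρ).equivFun w)) + y, ?_, ?_⟩
    · rw [hpts, hwc]
      exact hy.2
    · rw [← QuotientAddGroup.eq, hhom, hwc]
      exact hψ y hy w rfl
    · abel
  have hcarrier : Q.carrier = L.ball ρ := by
    ext y
    constructor
    · rintro ⟨c, hc, k, hk, rfl⟩
      change (0 : Γ) + hom c + k ∈ _
      rw [zero_add]
      exact (hover c hc k hk).1
    · intro hy
      obtain ⟨c, hc, k, hk, hyk⟩ := hunder y hy
      refine ⟨c, hc, k, hk, ?_⟩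
      change y = (0 : Γ) + hom c + k
      rw [zero_add]
      exact hyk
  -- volume
  have hinj : Function.Injective (fun c : Fin d → ℤ =>
      ((((L.latBasis ρ).equivFun.symm c : L.lat ρ) : L.V ρ) : ι → ℝ)) := by
    intro c c' hcc
    exact (L.latBasis ρ).equivFun.symm.injective (Subtype.ext (Subtype.ext hcc))
  have hkerfin : Finite L.ker := L.ker_finite
  let F : L.ker × (Q.points : Set (Fin d → ℤ)) → L.ball ρ := fun p =>
    ⟨hom p.2.1 + p.1.1, (hover p.2.1 p.2.2 p.1.1 p.1.2).1⟩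
  have hF : Function.Bijective F := by
    constructor
    · rintro ⟨⟨k, hk⟩, ⟨c, hc⟩⟩ ⟨⟨k', hk'⟩, ⟨c', hc'⟩⟩ heq
      have h1 : hom c + k = hom c' + k' := congrArg Subtype.val heq
      have h2 := (hover c hc k hk).2
      have h3 := (hover c' hc' k' hk').2
      have h4 : c = c' := hinj (h2.symm.trans ((congrArg L.ℓ h1).trans h3))
      subst h4
      have h5 := add_left_cancel h1
      subst h5
      rfl
    · rintro ⟨y, hy⟩
      obtain ⟨c, hc, k, hk, hyk⟩ := hunder y hy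
      exact ⟨(⟨k, hk⟩, ⟨c, hc⟩), Subtype.ext hyk.symm⟩
  have hcard := Nat.card_congr (Equiv.ofBijective F hF)
  rw [Nat.card_prod] at hcard
  refine ⟨Q, rfl, rfl, hcarrier, hcard, ?_, ?_⟩
  · intro v hv w hw hvw
    have h1 := (hover v hv 0 L.ker.zero_mem).2
    have h2 := (hover w hw (hom v - hom w) hvw).2
    refine hinj ?_
    change ((((L.latBasis ρ).equivFun.symm v : L.lat ρ) : L.V ρ) : ι → ℝ) =
      ((((L.latBasis ρ).equivFun.symm w : L.lat ρ) : L.V ρ) : ι → ℝ)
    rw [← h1, ← h2]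
    congr 1
    abel
  · intro y hy
    have hy' : y ∈ L.ball ρ := ⟨hy.1, hy.2.trans (by linarith)⟩
    obtain ⟨c, hc, k, hk, hyk⟩ := hunder y hy'
    refine ⟨c, ?_, k, hk, hyk⟩
    have h1 := (hover c hc k hk).2
    rw [← hyk] at h1
    change L.param ρ (fun i => 8 * (c i : ℝ)) ∈ Metric.closedBall 0 ρ
    have h2 : (fun i => 8 * (c i : ℝ)) = (8 : ℝ) • (fun i => (c i : ℝ)) := by
      ext i; simp
    rw [h2, map_smul, param_intCast, mem_closedBall_zero_iff, norm_smul]
    have h3 : ‖(((L.latBasis ρ).equivFun.symm c : L.lat ρ) : L.V ρ)‖ = ‖L.ℓ y‖ := by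
      rw [h1]; rfl
    rw [h3]
    have h4 : ‖L.ℓ y‖ ≤ ρ / 8 := hy.2
    rw [Real.norm_of_nonneg (by norm_num)]
    linarith

end LocalGroup

set_option maxHeartbeats 4000000 in
/-- **Growth implies a proper coset progression** containing the set at scale `1/8`. -/
theorem exists_proper_prog_of_growth' {Γ : Type*} [AddCommGroup Γ] [DecidableEq Γ]
    (S : Finset Γ) (h0 : 0 ∈ S) (hneg : ∀ x ∈ S, -x ∈ S) (κ : ℝ) (N : ℕ) (hκ : 1 ≤ κ)
    (hN : (1000 * κ) ^ 8 ≤ N) (hg : ((itSum N S).card : ℝ) ≤ Real.exp κ * S.card) :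
    ∃ Q : CosetProg Γ, Q.base = 0 ∧
      (∀ v ∈ Q.points, ∀ w ∈ Q.points, Q.hom v - Q.hom w ∈ Q.sub → v = w) ∧
      (∀ s ∈ S, ∃ v : Fin Q.dim → ℤ, (fun i => 8 * (v i : ℝ)) ∈ Q.body ∧
        ∃ h ∈ Q.sub, s = Q.hom v + h) ∧
      (Q.vol : ℝ) ≤ Real.exp κ * S.card ∧ (Q.dim : ℝ) ≤ 8 * κ / Real.log N := by
  classical
  have hκ0 : 0 < κ := by linarith
  -- `L ^ 8 = N`
  have hN0 : (0 : ℝ) < N := lt_of_lt_of_le (by positivity) hN
  set l : ℝ := (N : ℝ) ^ ((1 : ℝ) / 8) with hl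
  have hl0 : 0 < l := Real.rpow_pos_of_pos hN0 _
  have hl8 : l ^ 8 = N := by
    rw [hl, ← Real.rpow_natCast, ← Real.rpow_mul hN0.le]
    norm_num
  have hlκ : 1000 * κ ≤ l := by
    have : (1000 * κ) ^ 8 ≤ l ^ 8 := by rw [hl8]; exact hN
    exact le_of_pow_le_pow_left₀ (by norm_num) hl0.le this
  have hl100 : 1000 ≤ l := by linarith
  have hlogN : Real.log N = 8 * Real.log l := by
    rw [← hl8, Real.log_pow]; norm_num
  have hlogl : 1 ≤ Real.log l := by
    rw [Real.le_log_iff_exp_le hl0]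
    have := Real.exp_one_lt_d9
    linarith
  have hlogN8 : 8 ≤ Real.log N := by rw [hlogN]; linarith
  -- parameters
  set i0 : ℕ := ⌈18 * κ * l⌉₊ with hi0
  have hi0l : 18 * κ * l ≤ i0 := Nat.le_ceil _
  have hi0u : (i0 : ℝ) < 18 * κ * l + 1 := Nat.ceil_lt_add_one (by positivity)
  set I : ℝ := (i0 : ℝ) + 1 with hI
  have hI0 : 0 < I := by positivity
  have hIl : 1800 * κ ≤ I := by nlinarith
  have hIu : I ≤ l ^ 2 / 5 := by nlinarith
  set δ : ℝ := 1 / (224 * I) with hδdef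
  have hδ0 : 0 < δ := by positivity
  have hI1 : 1 ≤ I := by linarith
  have hδ1 : δ ≤ 1 := by
    rw [hδdef, div_le_one (by positivity)]; linarith
  set n0 : ℕ := ⌈2 * κ / δ⌉₊ with hn0
  have hn0l : 2 * κ / δ ≤ n0 := Nat.le_ceil _
  have hn0u : (n0 : ℝ) < 2 * κ / δ + 1 := Nat.ceil_lt_add_one (by positivity)
  have hn0u2 : (n0 : ℝ) ≤ 449 * κ * I := by
    have : 2 * κ / δ = 448 * κ * I := by rw [hδdef]; field_simp; ring
    rw [this] at hn0u
    nlinarith
  set m : ℕ := ⌈κ + 3⌉₊ with hm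
  have hml : κ + 3 ≤ m := Nat.le_ceil _
  have hmu : (m : ℝ) < κ + 3 + 1 := Nat.ceil_lt_add_one (by positivity)
  have hmu2 : (m : ℝ) ≤ 5 * κ := by linarith
  set M : ℕ := 4 * n0 * m with hM
  have hMu : (M : ℝ) ≤ 8980 * κ ^ 2 * I := by
    rw [hM]
    push_cast
    calc 4 * (n0 : ℝ) * m ≤ 4 * (449 * κ * I) * (5 * κ) := by gcongr
      _ = 8980 * κ ^ 2 * I := by ring
  have hMI : I * M ≤ N := by
    have h1 : κ ^ 2 ≤ l ^ 2 / 1000000 := by nlinarith
    have hl2 : 0 ≤ l ^ 2 := by positivity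
    calc I * M ≤ I * (8980 * κ ^ 2 * I) := by gcongr
      _ = 8980 * κ ^ 2 * I ^ 2 := by ring
      _ ≤ 8980 * (l ^ 2 / 1000000) * (l ^ 2 / 5) ^ 2 := by gcongr
      _ ≤ l ^ 6 := by nlinarith [pow_pos hl0 6]
      _ ≤ l ^ 8 := pow_le_pow_right₀ (by linarith) (by norm_num)
      _ = N := hl8
  have hMIn : (i0 + 1) * M ≤ N := by
    rw [hI] at hMI
    exact_mod_cast hMI
  have hMN : M ≤ N := le_trans (Nat.le_mul_of_pos_left M (by omega)) hMIn
  have hpi3 := Real.pi_gt_three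
  have hpi4 := Real.pi_lt_d2
  set ρ : ℝ := 1 / (4 * I) with hρdef
  have hρ0 : 0 < ρ := by positivity
  have hδρ8 : Real.pi / 2 * (4 * δ) ≤ ρ / 8 := by
    rw [hδdef, hρdef]
    rw [show Real.pi / 2 * (4 * (1 / (224 * I))) = (Real.pi / 112) / I by field_simp; ring,
      show 1 / (4 * I) / 8 = (1 / 32) / I by field_simp; norm_num]
    have h1 : Real.pi / 112 ≤ 1 / 32 := by linarith
    exact div_le_div_of_nonneg_right h1 hI0.le
  have hδρ : Real.pi / 2 * (4 * δ) ≤ ρ := hδρ8.trans (by linarith)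
  have hρ1 : ρ ≤ 1 := by
    rw [hρdef, div_le_one (by positivity)]; linarith
  obtain ⟨ι, _, L, hLB, hLS⟩ := exists_localGroup S h0 hneg κ δ hκ hδ0 hδ1 (hδρ.trans hρ1)
    n0 m N hn0l hml (by rw [← hM]; exact hMN) hg
  rw [← hM] at hLB
  have hSball8 : ∀ s ∈ S, s ∈ L.ball (ρ / 8) :=
    fun s hs => ⟨(hLS s hs).1, (hLS s hs).2.trans hδρ8⟩
  have hSball : ∀ s ∈ S, s ∈ L.ball ρ := fun s hs => ⟨(hLS s hs).1, (hLS s hs).2.trans hδρ⟩
  have hcardS : S.card ≤ Set.ncard (L.ball ρ) := by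
    rw [← Set.ncard_coe_finset]
    exact Set.ncard_le_ncard (fun s hs => hSball s (by exact_mod_cast hs)) (L.ball_finite ρ)
  have hcardball : (Set.ncard (L.ball ρ) : ℝ) ≤ Real.exp κ * S.card := by
    have h1 : Set.ncard (L.ball ρ) ≤ (itSum M S).card := by
      rw [← Set.ncard_coe_finset]
      exact Set.ncard_le_ncard (fun x hx => by exact_mod_cast hLB x hx.1)
        (itSum M S).finite_toSet
    have h2 := card_itSum_le hMN h0
    refine le_trans ?_ hg
    exact_mod_cast h1.trans h2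
  have hScard : (0 : ℝ) < S.card := by
    exact_mod_cast card_pos.mpr ⟨0, h0⟩
  -- dimension
  set r : ℕ := ⌊8 * κ / Real.log N⌋₊ + 1 with hr
  have hrl : 8 * κ / Real.log N < r := by
    rw [hr]; push_cast; exact Nat.lt_floor_add_one _
  have h8 : 8 * κ / Real.log N ≤ κ := by
    rw [div_le_iff₀ (by linarith)]
    have := mul_le_mul_of_nonneg_left hlogN8 hκ0.le
    linarith
  have hru : (r : ℝ) ≤ 2 * κ := by
    rw [hr]; push_cast
    have := Nat.floor_le (show 0 ≤ 8 * κ / Real.log N by positivity)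
    linarith
  have hr0 : (0 : ℝ) < r := by rw [hr]; positivity
  have hdim : finrank ℝ (L.V ρ) < r := by
    by_contra hcon
    push Not at hcon
    obtain ⟨x, hx, hY⟩ := L.dim_bound ρ hρ0 r i0 hcon (by
      rw [show 4 * (i0 : ℝ) + 4 = 4 * I by rw [hI]; ring, hρdef]
      rw [mul_one_div_cancel (by positivity)])
    have hY2 := hY (itSum N S : Finset Γ) (itSum N S).finite_toSet (by
      intro b hb c hc
      have h1 : b ∈ itSum M S := hLB b hb.1
      have h2 : ∑ i, c i • x i ∈ itSum (∑ i, c i * M) S :=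
        sum_mem_itSum Finset.univ (fun i => c i * M) (fun i => c i • x i)
          (fun i _ => nsmul_mem_itSum (c i) (hLB (x i) (hx i).1))
      have h3 := add_mem_itSum h1 h2
      have h4 : M + ∑ i, c i * M ≤ N := by
        rw [← Finset.sum_mul]
        calc M + (∑ i, c i) * M ≤ M + i0 * M := by gcongr
          _ = (i0 + 1) * M := by ring
          _ ≤ N := hMIn
      exact_mod_cast itSum_subset_of_le h4 h0 h3)
    rw [Set.ncard_coe_finset] at hY2
    have h1 : (S.card : ℝ) * ((i0 + r).choose r : ℝ) ≤ 2 ^ r * (Real.exp κ * S.card) := by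
      calc (S.card : ℝ) * ((i0 + r).choose r : ℝ)
          ≤ (Set.ncard (L.ball ρ) : ℝ) * ((i0 + r).choose r : ℝ) := by
            gcongr
        _ ≤ 2 ^ r * ((itSum N S).card : ℝ) := by exact_mod_cast hY2
        _ ≤ 2 ^ r * (Real.exp κ * S.card) := by gcongr
    have h2 : ((i0 + r).choose r : ℝ) ≤ 2 ^ r * Real.exp κ := by
      have : (S.card : ℝ) * ((i0 + r).choose r : ℝ) ≤ S.card * (2 ^ r * Real.exp κ) := by
        refine h1.trans (le_of_eq ?_); ring
      exact le_of_mul_le_mul_left this hScard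
    have h3 := choose_lower i0 r (by omega)
    have h4 : (I / (2 * r)) ^ r ≤ Real.exp κ := by
      have h5 : (I / r) ^ r = 2 ^ r * (I / (2 * r)) ^ r := by
        rw [← mul_pow]; congr 1; field_simp
      have h6 : 2 ^ r * (I / (2 * r)) ^ r ≤ 2 ^ r * Real.exp κ := by
        rw [← h5]; exact h3.trans h2
      exact le_of_mul_le_mul_left h6 (by positivity)
    have h5 : l ≤ I / (2 * r) := by
      rw [le_div_iff₀ (by positivity)]
      nlinarith
    have h6 : l ^ r ≤ Real.exp κ := (pow_le_pow_left₀ hl0.le h5 r).trans h4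
    have h7 : (r : ℝ) * Real.log l ≤ κ := by
      have := Real.log_le_log (by positivity) h6
      rwa [Real.log_pow, Real.log_exp] at this
    rw [div_lt_iff₀ (by linarith), hlogN] at hrl
    nlinarith
  have hdim2 : (finrank ℝ (L.V ρ) : ℝ) ≤ 8 * κ / Real.log N := by
    have h1 : finrank ℝ (L.V ρ) ≤ ⌊8 * κ / Real.log N⌋₊ := by omega
    have h2 : (finrank ℝ (L.V ρ) : ℝ) ≤ (⌊8 * κ / Real.log N⌋₊ : ℝ) := by exact_mod_cast h1
    exact h2.trans (Nat.floor_le (by positivity))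
  obtain ⟨Q, hQ1, hQ2, hQ3, hQ4, hQ5, hQ6⟩ := L.exists_prog_proper ρ hρ0 (by
    have h1 : (finrank ℝ (L.V ρ) : ℝ) + 1 ≤ 2 * κ := by linarith
    calc 3 * ((finrank ℝ (L.V ρ) : ℝ) + 1) * ρ ≤ 3 * (2 * κ) * ρ := by gcongr
      _ ≤ 1 := by
        rw [hρdef, mul_one_div, div_le_one (by positivity)]
        linarith)
  refine ⟨Q, hQ1, hQ5, fun s hs => hQ6 s (hSball8 s hs), ?_, ?_⟩
  · rw [hQ4]; exact hcardball
  · rw [hQ2]; exact hdim2

/-- **Growth implies a proper coset progression** containing the set at scale `1/8`. -/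
theorem exists_proper_prog_of_growth {Γ : Type*} [AddCommGroup Γ] [DecidableEq Γ]
    (S : Finset Γ) (h0 : 0 ∈ S) (hneg : ∀ x ∈ S, -x ∈ S) (κ : ℝ) (N : ℕ) (hκ : 1 ≤ κ)
    (hN : (1000 * κ) ^ 8 ≤ N) (hg : ((itSum N S).card : ℝ) ≤ Real.exp κ * S.card) :
    ∃ Q : CosetProg Γ, Q.base = 0 ∧
      (∀ v ∈ Q.points, ∀ w ∈ Q.points, Q.hom v - Q.hom w ∈ Q.sub → v = w) ∧
      (∀ s ∈ S, ∃ v : Fin Q.dim → ℤ, (fun i => 8 * (v i : ℝ)) ∈ Q.body ∧
        ∃ h ∈ Q.sub, s = Q.hom v + h) ∧
      (Q.vol : ℝ) ≤ Real.exp κ * S.card := by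
  obtain ⟨Q, h1, h2, h3, h4, -⟩ := exists_proper_prog_of_growth' S h0 hneg κ N hκ hN hg
  exact ⟨Q, h1, h2, h3, h4⟩

end Pool.Agent.Lib.MP_dd2a7c_co
end

section

set_option autoImplicit false

/-!
From a law with small entropy growth to a set with small growth and to a covering,
with two separate parameters (helper43).
-/

set_option linter.unusedSectionVars false

namespace Pool.Agent.Lib.MP_dd2a7c_co

open Finset
open scoped Pointwise

noncomputable section

universe u

set_option maxHeartbeats 4000000 in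
/-- From a law with small entropy growth to a symmetric set with small growth, and a covering:
the number of translates of the covering depends only on the smaller parameter `κ₁`. -/
theorem exists_set_of_law_two : ∃ C : ℝ, 1 ≤ C ∧ ∀ {Γ : Type u} [AddCommGroup Γ] [DecidableEq Γ]
    (A : Finset Γ) (hA : A.Nonempty) (K κ₁ κ : ℝ) (n j : ℕ) (τ : Law Γ), 1 ≤ κ₁ → κ₁ ≤ κ →
    1 ≤ j → ((A + A).card : ℝ) ≤ K * A.card → H (τ * τ) ≤ H τ + κ₁ →
    H (τ ^ (2 * n)) ≤ H τ + κ →
    H (lawU A hA * τ) ≤ (H (lawU A hA) + H τ) / 2 + κ₁ → 256 * (j : ℝ) ^ 2 * κ ≤ n →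
    ∃ (S F : Finset Γ), 0 ∈ S ∧ (∀ x ∈ S, -x ∈ S) ∧ A ⊆ F + S ∧
      (F.card : ℝ) ≤ K * Real.exp (C * κ₁) ∧ (S.card : ℝ) ≤ Real.exp (C * κ) * A.card ∧
      ((itSum j S).card : ℝ) ≤ Real.exp (C * κ) * S.card := by
  refine ⟨400, by norm_num, ?_⟩
  intro Γ _ _ A hA K κ₁ κ n j τ hκ₁ hκκ hj hAA hττ hgrow hc hn
  classical
  have hκ : 1 ≤ κ := hκ₁.trans hκκ
  have ha : (0 : ℝ) < A.card := Nat.cast_pos.2 hA.card_pos
  have hj1 : (1 : ℝ) ≤ j := by exact_mod_cast hj
  have hnR : (1 : ℝ) ≤ n := by nlinarith [sq_nonneg ((j : ℝ) - 1)]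
  have hn1 : 1 ≤ n := by exact_mod_cast hnR
  have hn0 : (0 : ℝ) < n := by linarith
  set μ := τ ^ n with hμ
  -- entropies
  have hinc : H (μ * τ) - H μ ≤ κ / n := pow_growth τ κ n hn1 hgrow
  have hmono := H_pow_mono τ
  have hτμ : H τ ≤ H μ := by
    have := hmono hn1
    simpa only [pow_one] using this
  have hμ2 : H μ ≤ H (τ ^ (2 * n)) := hmono (by omega)
  have hμμ : H (μ * μ) ≤ H μ + κ := by
    rw [hμ, ← pow_add, ← two_mul]
    linarith
  rw [H_lawU] at hc
  have hρ1 : Real.log A.card ≤ H (lawU A hA * τ) := by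
    rw [← H_lawU A hA]
    exact H_le_mul _ _
  have hρ2 : H τ ≤ H (lawU A hA * τ) := H_le_mul_left _ _
  have hlow : Real.log A.card - 2 * κ₁ ≤ H τ := by linarith
  have hup : H τ ≤ Real.log A.card + 2 * κ₁ := by linarith
  have hH : H (lawU A hA * τ) ≤ Real.log A.card + 2 * κ₁ := by linarith
  -- good translations
  set E := (supp τ).filter (fun t => dv μ (μ * τ) t ≤ 4 * (κ / n)) with hE
  have hκn : 0 < κ / n := by positivity
  have hE34 : 1 - 1 / 4 ≤ ∑ t ∈ E, wt τ t := by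
    refine markov τ (dv μ (μ * τ)) (fun t ht => dv_nonneg μ τ ht) (1 / 4) (4 * (κ / n))
      (by positivity) ?_ E (filter_subset _ _) fun t ht h => mem_filter.2 ⟨ht, h⟩
    rw [Ex_dv]
    linarith
  set E1 := (supp τ).filter (fun t => |-Real.log (wt τ t) - H τ| ≤ 4 * (2 * κ₁ + 4)) with hE1
  have hE134 : 1 - 1 / 4 ≤ ∑ t ∈ E1, wt τ t := by
    refine markov τ (fun t => |-Real.log (wt τ t) - H τ|) (fun t _ => abs_nonneg _) (1 / 4)
      (4 * (2 * κ₁ + 4)) (by positivity) ?_ E1 (filter_subset _ _)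
      fun t ht h => mem_filter.2 ⟨ht, h⟩
    have := flat τ κ₁ hττ
    linarith
  have hE' : 1 / 2 ≤ ∑ t ∈ E ∩ E1, wt τ t := by
    have h1 := sum_union_inter (s₁ := E) (s₂ := E1) (f := fun t => wt τ t)
    have h2 := sum_wt_le_one τ (E ∪ E1)
    linarith
  have hE's : E ∩ E1 ⊆ supp τ := inter_subset_left.trans (filter_subset _ _)
  set b := Real.exp (-H τ + 8 * κ₁ + 16) with hb
  have hEb : ∀ t ∈ E ∩ E1, wt τ t ≤ b := by
    intro t ht
    obtain ⟨ht1, ht2⟩ := mem_filter.1 (mem_inter.1 ht).2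
    rw [abs_le] at ht2
    rw [hb, ← Real.exp_log (wt_pos_of_mem ht1)]
    apply Real.exp_le_exp.2
    linarith [ht2.1]
  have hb0 : 0 < b := Real.exp_pos _
  have hEcard : 1 / 2 ≤ b * ((E ∩ E1).card : ℝ) := by
    refine hE'.trans ?_
    rw [mul_comm, ← nsmul_eq_mul]
    exact sum_le_card_nsmul _ _ _ hEb
  -- the large fibre
  obtain ⟨z, hz⟩ := exists_fiber A hA τ κ₁ b (by linarith) (E ∩ E1) hE's hE' hb0.le hEb hH
  set A0 := A.filter (fun a => z - a ∈ E ∩ E1) with hA0
  have hA0ne : A0.Nonempty := by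
    rw [nonempty_iff_ne_empty]
    intro h0
    rw [h0] at hz
    simp at hz
    linarith
  have hA0c : (A.card : ℝ) ≤ 4 * Real.exp (18 * κ₁ + 16) * A0.card :=
    num_fiber ha (by positivity) hb hz hlow
  -- the flat part of `μ`
  set F := (supp μ).filter (fun t => |-Real.log (wt μ t) - H μ| ≤ 16 * (2 * κ + 4)) with hF
  have hFw : 1 - 1 / 16 ≤ ∑ t ∈ F, wt μ t := by
    refine markov μ (fun t => |-Real.log (wt μ t) - H μ|) (fun t _ => abs_nonneg _) (1 / 16)
      (16 * (2 * κ + 4)) (by positivity) ?_ F (filter_subset _ _)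
      fun t ht h => mem_filter.2 ⟨ht, h⟩
    have := flat μ κ hμμ
    linarith
  set bF := Real.exp (-H μ + 32 * κ + 64) with hbF
  have hFb : ∀ t ∈ F, wt μ t ≤ bF := by
    intro t ht
    rw [hF, mem_filter] at ht
    obtain ⟨ht1, ht2⟩ := ht
    rw [abs_le] at ht2
    rw [hbF, ← Real.exp_log (wt_pos_of_mem ht1)]
    apply Real.exp_le_exp.2
    linarith [ht2.1]
  have hbF0 : 0 < bF := Real.exp_pos _
  have hFcard : (F.card : ℝ) ≤ Real.exp (H μ + 32 * κ + 64) := by
    have h1 : (F.card : ℝ) * Real.exp (-(H μ + 32 * κ + 64)) ≤ 1 := by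
      refine le_trans ?_ (sum_wt_le_one μ F)
      rw [← nsmul_eq_mul]
      refine card_nsmul_le_sum _ _ _ fun t ht => ?_
      rw [hF, mem_filter] at ht
      obtain ⟨ht1, ht2⟩ := ht
      rw [abs_le] at ht2
      rw [← Real.exp_log (wt_pos_of_mem ht1)]
      apply Real.exp_le_exp.2
      linarith [ht2.2]
    rw [Real.exp_neg, ← div_eq_mul_inv, div_le_one (Real.exp_pos _)] at h1
    exact h1
  -- finite sets of near translates have bounded size
  have hnear : ∀ T : Finset Γ, (∀ x ∈ T, Near μ (1 / 4) x) →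
      (T.card : ℝ) ≤ 4 * Real.exp (H τ + 97 * κ + 192) := by
    intro T hT
    refine (card_near_le μ F hFw bF hFb hbF0.le T hT).trans ?_
    rw [hbF]
    exact num_near (by positivity) hFcard (by linarith)
  -- the set `S`
  set ε := 4 * √(κ / n) with hε
  have hε0 : 0 ≤ ε := by positivity
  have hjε : (j : ℝ) * ε ≤ 1 / 4 := by
    have h1 : √(κ / n) ≤ 1 / (16 * j) := by
      rw [Real.sqrt_le_left (by positivity), div_pow, mul_pow, one_pow, div_le_div_iff₀ hn0
        (by positivity)]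
      linarith
    calc (j : ℝ) * ε = 4 * j * √(κ / n) := by rw [hε]; ring
      _ ≤ 4 * j * (1 / (16 * j)) := by gcongr
      _ = 1 / 4 := by
        field_simp
        norm_num
  have hε4 : ε ≤ 1 / 4 := by nlinarith
  set S := (F - F).filter (fun x => Near μ ε x) with hS
  have hmemS : ∀ x, x ∈ S ↔ Near μ ε x := by
    intro x
    rw [hS, mem_filter]
    refine ⟨fun h => h.2, fun h => ⟨?_, h⟩⟩
    have h1 := overlap μ F hFw bF hFb hbF0.le x (h.mono hε0 hε4)
    have h2 : (F.filter (fun g => g - x ∈ F)).Nonempty := by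
      rw [nonempty_iff_ne_empty]
      intro h0
      rw [h0] at h1
      simp at h1
      linarith
    obtain ⟨g, hg⟩ := h2
    rw [mem_filter] at hg
    rw [mem_sub]
    exact ⟨g, hg.1, g - x, hg.2, by abel⟩
  have hEES : ∀ t ∈ E, ∀ t' ∈ E, t - t' ∈ S := by
    have hcl : ∀ t ∈ E, Cl (2 * √(κ / n)) (fun g => rt μ (g - t)) (rt (μ * τ)) := by
      intro t ht
      rw [hE, mem_filter] at ht
      refine cl_of_dv μ τ ht.1 ?_
      rw [mul_pow, Real.sq_sqrt hκn.le]
      linarith [ht.2]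
    intro t ht t' ht'
    rw [hmemS]
    have h0 : 0 ≤ 2 * √(κ / n) := by positivity
    have h1 := Cl.trans h0 h0 (hcl t ht) (hcl t' ht').symm
    have h2 := Cl.translate h1 (-t')
    have e1 : 2 * √(κ / n) + 2 * √(κ / n) = ε := by rw [hε]; ring
    rw [e1] at h2
    unfold Near
    have e2 : (fun g => rt μ (g - -t' - t)) = fun g => rt μ (g - (t - t')) := by
      funext g
      congr 1
      abel
    have e3 : (fun g => rt μ (g - -t' - t')) = rt μ := by
      funext g
      congr 1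
      abel
    rw [e2, e3] at h2
    exact h2
  have hitS : ∀ i : ℕ, ∀ x ∈ itSum i S, Near μ (i * ε) x := by
    intro i
    induction i with
    | zero =>
      intro x hx
      rw [itSum_zero, mem_singleton] at hx
      rw [hx]
      exact Near.zero μ
    | succ i ih =>
      intro x hx
      rw [itSum_succ, mem_add] at hx
      obtain ⟨y, hy, w, hw, rfl⟩ := hx
      have h1 := Near.add (by positivity) hε0 (ih y hy) ((hmemS w).1 hw)
      have e : (i : ℝ) * ε + ε = ((i + 1 : ℕ) : ℝ) * ε := by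
        push_cast
        ring
      rwa [e] at h1
  have hjS : ((itSum j S).card : ℝ) ≤ 4 * Real.exp (H τ + 97 * κ + 192) :=
    hnear _ fun x hx => (hitS j x hx).mono (by positivity) hjε
  have hSup : (S.card : ℝ) ≤ 4 * Real.exp (H τ + 97 * κ + 192) :=
    hnear _ fun x hx => ((hmemS x).1 hx).mono hε0 hε4
  -- lower bound for `S`
  have hSlow : ((E ∩ E1).card : ℝ) ≤ S.card := by
    have hne : (E ∩ E1).Nonempty := by
      rw [nonempty_iff_ne_empty]
      intro h0
      rw [h0] at hE'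
      simp at hE'
      linarith
    obtain ⟨t0, ht0⟩ := hne
    have : (E ∩ E1).card ≤ S.card := by
      refine card_le_card_of_injOn (fun t => t - t0) ?_ ?_
      · intro t ht
        exact hEES t (mem_inter.1 ht).1 t0 (mem_inter.1 ht0).1
      · intro t _ t' _ e
        simpa using e
    exact_mod_cast this
  -- the covering
  have hAA0 : ((A + A0).card : ℝ) ≤ K * (4 * Real.exp (18 * κ₁ + 16)) * A0.card := by
    have h1 : ((A + A0).card : ℝ) ≤ (A + A).card := by
      exact_mod_cast card_le_card (add_subset_add_left (filter_subset _ _))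
    have hK : 0 ≤ K := by
      by_contra hK
      have h2 : (0 : ℝ) ≤ (A + A).card := by positivity
      have h3 := mul_neg_of_neg_of_pos (not_le.1 hK) ha
      linarith
    calc ((A + A0).card : ℝ) ≤ K * A.card := h1.trans hAA
      _ ≤ K * (4 * Real.exp (18 * κ₁ + 16) * A0.card) := by gcongr
      _ = K * (4 * Real.exp (18 * κ₁ + 16)) * A0.card := by ring
  obtain ⟨F', -, hF'c, hF's⟩ := ruzsa_covering_add hA0ne hAA0
  have hK : 0 ≤ K := by
    by_contra hK
    have h2 : (0 : ℝ) ≤ (A + A).card := by positivity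
    have h3 := mul_neg_of_neg_of_pos (not_le.1 hK) ha
    linarith
  refine ⟨S, F', (hmemS 0).2 (Near.zero μ), fun x hx => (hmemS _).2 ((hmemS x).1 hx).neg, ?_,
    ?_, ?_, ?_⟩
  · refine hF's.trans (add_subset_add_left ?_)
    intro x hx
    rw [mem_sub] at hx
    obtain ⟨a1, h1, a2, h2, rfl⟩ := hx
    rw [hA0, mem_filter, mem_inter] at h1 h2
    have := hEES _ h2.2.1 _ h1.2.1
    rwa [sub_sub_sub_cancel_left] at this
  · exact hF'c.trans (mul_le_mul_of_nonneg_left (num_cover hκ₁) hK)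
  · exact hSup.trans (num_up hκ ha (by linarith))
  · refine hjS.trans (num_growth (b := Real.exp (-H τ + 8 * κ + 16)) hκ (by positivity) rfl
      (hEcard.trans ?_))
    refine (mul_le_mul_of_nonneg_left hSlow hb0.le).trans
      (mul_le_mul_of_nonneg_right ?_ (by positivity))
    rw [hb]
    exact Real.exp_le_exp.2 (by linarith)

end

end Pool.Agent.Lib.MP_dd2a7c_co
end
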