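import Mathlib
import Pool.Agent.Lib.MP_dd2a7c_co.Growth
import Pool.Agent.Lib.MP_dd2a7c_co.RegIter
import Pool.Agent.Lib.MP_dd2a7c_co.IterSum

section

section

/-!
Restriction of a coset progression to a sublattice.
-/

namespace Pool.Agent.Lib.MP_dd2a7c_co

open Finset

universe u

/-- A dual system for integer vectors which are linearly independent over `ℤ`. -/
theorem exists_dual {r d : ℕ} (b : Fin r → (Fin d → ℤ)) (hb : LinearIndependent ℤ b) :
    ∃ L : Fin r → Fin d → ℝ, ∀ i j, ∑ k, L i k * (b j k : ℝ) = if i = j then 1 else 0 := by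
  classical
  let b' : Fin r → (Fin d → ℚ) := fun j k => (b j k : ℚ)
  have h1 : LinearIndependent ℤ b' := by
    let F : (Fin d → ℤ) →ₗ[ℤ] (Fin d → ℚ) :=
      { toFun := fun v k => (v k : ℚ)
        map_add' := fun v w => by funext k; simp
        map_smul' := fun c v => by funext k; simp }
    have hF : LinearMap.ker F = ⊥ := by
      rw [LinearMap.ker_eq_bot]
      intro v w hvw
      funext k
      have h0 : (v k : ℚ) = (w k : ℚ) := congrFun hvw k
      exact_mod_cast h0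
    exact hb.map' F hF
  have h2 : LinearIndependent ℚ b' := (LinearIndependent.iff_fractionRing ℤ ℚ).mp h1
  have h3 : LinearMap.ker (Fintype.linearCombination ℚ b') = ⊥ :=
    LinearMap.ker_eq_bot.mpr (linearIndependent_iff_injective_fintypeLinearCombination.mp h2)
  obtain ⟨g, hg⟩ := LinearMap.exists_leftInverse_of_injective _ h3
  have h4 : ∀ j, g (b' j) = Pi.single j 1 := by
    intro j
    have h5 := LinearMap.congr_fun hg (Pi.single j 1)
    rw [LinearMap.comp_apply, Fintype.linearCombination_apply_single, one_smul] at h5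
    exact h5
  refine ⟨fun i k => ((g (Pi.single k 1) i : ℚ) : ℝ), fun i j => ?_⟩
  have h5 : ∑ k, g (Pi.single k 1) i * (b j k : ℚ) = if i = j then 1 else 0 := by
    have h6 := congrFun (h4 j) i
    have h7 : b' j = ∑ k, (b j k : ℚ) • (Pi.single k 1 : Fin d → ℚ) := by
      funext l
      rw [Finset.sum_apply, Finset.sum_eq_single l]
      · simp [b']
      · intro k _ hk
        rw [Pi.smul_apply, Pi.single_eq_of_ne hk.symm, smul_zero]
      · simp
    rw [h7, map_sum, Finset.sum_apply] at h6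
    simp only [map_smul, Pi.smul_apply, smul_eq_mul] at h6
    rw [Pi.single_apply] at h6
    rw [← h6]
    exact Finset.sum_congr rfl fun k _ => mul_comm _ _
  have h6 : ((∑ k, g (Pi.single k 1) i * (b j k : ℚ) : ℚ) : ℝ) =
      ((if i = j then 1 else 0 : ℚ) : ℝ) := by rw [h5]
  push_cast at h6
  rw [h6]
  split_ifs <;> norm_num

/-- **Restriction to a sublattice.** -/
theorem exists_pullback {Γ : Type u} [AddCommGroup Γ] (Q : CosetProg Γ) {r : ℕ}
    (b : Fin r → (Fin Q.dim → ℤ)) (hb : LinearIndependent ℤ b) :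
    ∃ Q' : CosetProg Γ, Q'.dim = r ∧ Q'.vol ≤ Q.vol ∧
      ∀ w ∈ Submodule.span ℤ (Set.range b), (fun i => 4 * (w i : ℝ)) ∈ Q.body →
        ∀ h ∈ Q.sub, Q.hom w + h ∈ Q'.carrier := by
  classical
  obtain ⟨L, hL⟩ := exists_dual b hb
  let B : (Fin r → ℝ) →ₗ[ℝ] (Fin Q.dim → ℝ) :=
    Fintype.linearCombination ℝ (fun j i => 4 * (b j i : ℝ))
  have hB : ∀ t i, B t i = ∑ j, t j * (4 * (b j i : ℝ)) := by
    intro t i
    simp [B, Fintype.linearCombination_apply]
  have hinj : LinearMap.ker B = ⊥ := by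
    rw [LinearMap.ker_eq_bot']
    intro t ht
    funext i
    have h1 : ∑ k, L i k * B t k = 0 := by
      rw [ht]
      simp
    simp_rw [hB, Finset.mul_sum] at h1
    rw [Finset.sum_comm] at h1
    have h2 : ∀ j, ∑ k, L i k * (t j * (4 * (b j k : ℝ))) = 4 * t j * (if i = j then 1 else 0) := by
      intro j
      rw [← hL i j, Finset.mul_sum]
      exact Finset.sum_congr rfl fun k _ => by ring
    simp_rw [h2] at h1
    simp only [mul_ite, mul_one, mul_zero, Finset.sum_ite_eq, Finset.mem_univ, if_true] at h1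
    have : t i = 0 := by linarith
    simpa using this
  have hcont : Continuous B := B.continuous_of_finiteDimensional
  let Q' : CosetProg Γ :=
    { dim := r
      body := B ⁻¹' Q.body
      isCompact_body :=
        (LinearMap.isClosedEmbedding_of_injective hinj).isCompact_preimage Q.isCompact_body
      convex_body := Q.convex_body.linear_preimage B
      interior_nonempty := by
        have h0 : (0 : Fin Q.dim → ℝ) ∈ interior Q.body := by
          obtain ⟨x, hx⟩ := Q.interior_nonempty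
          have hx' : -x ∈ Q.body := Q.neg_mem_body x (interior_subset hx)
          have h1 := Q.convex_body.combo_interior_self_mem_interior hx hx'
            (show (0 : ℝ) < 1 / 2 by norm_num) (show (0 : ℝ) ≤ 1 / 2 by norm_num) (by norm_num)
          have h2 : (1 / 2 : ℝ) • x + (1 / 2 : ℝ) • (-x) = 0 := by
            rw [smul_neg, add_neg_cancel]
          rwa [h2] at h1
        refine ⟨0, ?_⟩
        rw [mem_interior_iff_mem_nhds]
        refine hcont.continuousAt.preimage_mem_nhds ?_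
        rw [map_zero]
        exact mem_interior_iff_mem_nhds.mp h0
      neg_mem_body := fun t ht => by
        change B (-t) ∈ Q.body
        rw [map_neg]
        exact Q.neg_mem_body _ ht
      base := 0
      hom := Q.hom.comp (Fintype.linearCombination ℤ b).toAddMonoidHom
      sub := Q.sub
      finite_sub := Q.finite_sub }
  have hBcast : ∀ t : Fin r → ℤ, B (fun j => (t j : ℝ)) =
      fun i => 4 * ((Fintype.linearCombination ℤ b t i : ℤ) : ℝ) := by
    intro t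
    funext i
    rw [hB, Fintype.linearCombination_apply, Finset.sum_apply]
    push_cast
    rw [Finset.mul_sum]
    exact Finset.sum_congr rfl fun j _ => by simp; ring
  refine ⟨Q', rfl, ?_, ?_⟩
  · unfold CosetProg.vol
    refine Nat.mul_le_mul_left _ ?_
    have hinjZ : Function.Injective (Fintype.linearCombination ℤ b) :=
      linearIndependent_iff_injective_fintypeLinearCombination.mp hb
    refine Set.ncard_le_ncard_of_injOn (Fintype.linearCombination ℤ b) ?_ hinjZ.injOn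
      Q.symBody.pts_finite
    intro t ht
    have h1 : (fun i => 4 * ((Fintype.linearCombination ℤ b t i : ℤ) : ℝ)) ∈ Q.body := by
      rw [← hBcast]
      exact ht
    change (fun i => ((Fintype.linearCombination ℤ b t i : ℤ) : ℝ)) ∈ Q.body
    have h2 := Q.convex_body h1 Q.symBody.zero_mem (show (0 : ℝ) ≤ 1 / 4 by norm_num)
      (show (0 : ℝ) ≤ 3 / 4 by norm_num) (by norm_num)
    have h3 : (1 / 4 : ℝ) • (fun i => 4 * ((Fintype.linearCombination ℤ b t i : ℤ) : ℝ)) +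
        (3 / 4 : ℝ) • (0 : Fin Q.dim → ℝ) =
        fun i => ((Fintype.linearCombination ℤ b t i : ℤ) : ℝ) := by
      funext i
      simp
    rwa [h3] at h2
  · intro w hw hw4 h hh
    rw [← Fintype.range_linearCombination] at hw
    obtain ⟨t, rfl⟩ := hw
    refine ⟨t, ?_, h, hh, ?_⟩
    · change B (fun j => (t j : ℝ)) ∈ Q.body
      rw [hBcast]
      exact hw4
    · change _ = 0 + Q.hom (Fintype.linearCombination ℤ b t) + h
      rw [zero_add]

end Pool.Agent.Lib.MP_dd2a7c_co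
end

section

/-!
Reduction of the dimension of a proper progression which covers a set of small doubling.
-/

namespace Pool.Agent.Lib.MP_dd2a7c_co

open Finset
open scoped Pointwise

universe u

/-- The weak form of the polynomial Freiman-Ruzsa theorem over the integers. -/
def WeakPFRStmt (C : ℝ) : Prop :=
  ∀ (G : Type u) [AddCommGroup G] [DecidableEq G] (d : ℕ) (π : G →+ (Fin d → ℤ))
    (A : Finset G) (K : ℝ), A.Nonempty → ((A + A).card : ℝ) ≤ K * A.card →
    ∃ A' ⊆ A, A'.Nonempty ∧ (A.card : ℝ) ≤ K ^ C * A'.card ∧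
      ∃ (r : ℕ) (b : Fin r → (Fin d → ℤ)), LinearIndependent ℤ b ∧ (r : ℝ) ≤ C * Real.log K ∧
        ∀ x ∈ A', ∀ y ∈ A', π x - π y ∈ Submodule.span ℤ (Set.range b)

/-- Pigeonhole. -/
theorem exists_pigeon {Γ : Type u} [AddCommGroup Γ] [DecidableEq Γ] (A S F : Finset Γ)
    (hA : A.Nonempty) (hAF : A ⊆ F + S) :
    ∃ f ∈ F, ∃ A' ⊆ A, (∀ a ∈ A', a - f ∈ S) ∧ A.card ≤ F.card * A'.card := by
  classical
  have hF : F.Nonempty := by
    obtain ⟨a, ha⟩ := hA
    obtain ⟨f, hf, -, -, -⟩ := Finset.mem_add.mp (hAF ha)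
    exact ⟨f, hf⟩
  obtain ⟨f, hf, hmax⟩ := Finset.exists_max_image F
    (fun f => (A.filter fun a => a - f ∈ S).card) hF
  refine ⟨f, hf, A.filter fun a => a - f ∈ S, Finset.filter_subset _ _,
    fun a ha => (Finset.mem_filter.mp ha).2, ?_⟩
  have h1 : A ⊆ F.biUnion fun f => A.filter fun a => a - f ∈ S := by
    intro a ha
    obtain ⟨f', hf', s, hs, rfl⟩ := Finset.mem_add.mp (hAF ha)
    rw [Finset.mem_biUnion]
    exact ⟨f', hf', Finset.mem_filter.mpr ⟨ha, by rwa [add_sub_cancel_left]⟩⟩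
  calc A.card ≤ (F.biUnion fun f => A.filter fun a => a - f ∈ S).card := Finset.card_le_card h1
    _ ≤ ∑ f' ∈ F, (A.filter fun a => a - f' ∈ S).card := Finset.card_biUnion_le
    _ ≤ ∑ _f' ∈ F, (A.filter fun a => a - f ∈ S).card := Finset.sum_le_sum hmax
    _ = F.card * (A.filter fun a => a - f ∈ S).card := by
      rw [Finset.sum_const, smul_eq_mul]

/-- **Reduction of the dimension.** -/
theorem poly_step {C₄ : ℝ} (hweak : WeakPFRStmt.{u} C₄) {Γ : Type u} [AddCommGroup Γ]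
    [DecidableEq Γ] (A S F : Finset Γ) (hA : A.Nonempty) (K : ℝ) (hK1 : 1 ≤ K)
    (hK : ((A + A).card : ℝ) ≤ K * A.card) (hAF : A ⊆ F + S) (Q : CosetProg Γ)
    (hprop : ∀ v ∈ Q.points, ∀ w ∈ Q.points, Q.hom v - Q.hom w ∈ Q.sub → v = w)
    (hS : ∀ s ∈ S, ∃ v : Fin Q.dim → ℤ, (fun i => 8 * (v i : ℝ)) ∈ Q.body ∧
      ∃ h ∈ Q.sub, s = Q.hom v + h) :
    ∃ (Q' : CosetProg Γ) (T : Finset Γ), (Q'.dim : ℝ) ≤ C₄ * Real.log (K * F.card) ∧
      Q'.vol ≤ Q.vol ∧ (T.card : ℝ) ≤ (K * F.card) ^ (C₄ + 1) ∧ CoveredBy A T Q' := by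
  classical
  obtain ⟨f, hf, A', hA'A, hA'S, hA'card⟩ := exists_pigeon A S F hA hAF
  have hFpos : 0 < F.card := Finset.card_pos.mpr ⟨f, hf⟩
  have hF1 : (1 : ℝ) ≤ F.card := by exact_mod_cast hFpos
  have hK''1 : 1 ≤ K * F.card := one_le_mul_of_one_le_of_one_le hK1 hF1
  have hA'ne : A'.Nonempty := by
    rw [← Finset.card_pos]
    have := hA.card_pos
    by_contra h0
    have h1 : A'.card = 0 := by omega
    rw [h1, mul_zero] at hA'card
    omega
  choose! v hv8 h hh hs using hS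
  obtain ⟨lam, hlam⟩ : ∃ lam : Γ → (Fin Q.dim → ℤ) × Q.sub,
      ∀ s ∈ S, (lam s).1 = v s ∧ ((lam s).2 : Γ) = h s :=
    ⟨fun s => (v s, if hmem : h s ∈ Q.sub then ⟨h s, hmem⟩ else 0),
      fun s hsS => ⟨rfl, by simp only [dif_pos (hh s hsS)]⟩⟩
  obtain ⟨φ, hφ⟩ : ∃ φ : (Fin Q.dim → ℤ) × Q.sub →+ Γ,
      ∀ x : (Fin Q.dim → ℤ) × Q.sub, φ x = Q.hom x.1 + (x.2 : Γ) :=
    ⟨Q.hom.coprod Q.sub.subtype, fun x => rfl⟩
  have hφlam : ∀ s ∈ S, φ (lam s) = s := by
    intro s hsS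
    rw [hφ, (hlam s hsS).1, (hlam s hsS).2]
    exact (hs s hsS).symm
  let L : Γ → (Fin Q.dim → ℤ) × Q.sub := fun a => lam (a - f)
  have hφL : ∀ a ∈ A', φ (L a) = a - f := fun a ha => hφlam _ (hA'S a ha)
  set A'' : Finset ((Fin Q.dim → ℤ) × Q.sub) := A'.image L with hA''
  have hmemA'' : ∀ x ∈ A'', ∃ a ∈ A', L a = x := fun x hx => Finset.mem_image.mp hx
  have hbody : ∀ x ∈ A'', (fun i => 8 * (x.1 i : ℝ)) ∈ Q.body := by
    intro x hx
    obtain ⟨a, ha, rfl⟩ := hmemA'' x hx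
    have h1 : (L a).1 = v (a - f) := (hlam _ (hA'S a ha)).1
    rw [h1]
    exact hv8 _ (hA'S a ha)
  have hcard : A''.card = A'.card := by
    apply Finset.card_image_of_injOn
    intro a ha a' ha' haa'
    have h1 := hφL a ha
    have h2 := hφL a' ha'
    have h3 : L a = L a' := haa'
    rw [h3, h2] at h1
    exact (sub_left_injective h1).symm
  have hφA'' : ∀ x ∈ A'', φ x + f ∈ A' := by
    intro x hx
    obtain ⟨a, ha, rfl⟩ := hmemA'' x hx
    rw [hφL a ha, sub_add_cancel]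
    exact ha
  have hinj1 : ∀ x ∈ A'', ∀ y ∈ A'', φ x = φ y → x = y := by
    intro x hx y hy hxy
    obtain ⟨a, ha, rfl⟩ := hmemA'' x hx
    obtain ⟨a', ha', rfl⟩ := hmemA'' y hy
    rw [hφL a ha, hφL a' ha'] at hxy
    rw [sub_left_injective hxy]
  -- the doubling of `A''`
  have hpts : ∀ x ∈ A'' + A'', x.1 ∈ Q.points := by
    intro x hx
    obtain ⟨y, hy, z, hz, rfl⟩ := Finset.mem_add.mp hx
    change (fun i => (((y + z).1 i : ℤ) : ℝ)) ∈ Q.body
    have h1 := hbody y hy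
    have h2 := hbody z hz
    have h3 := Q.convex_body h1 h2 (show (0 : ℝ) ≤ 1 / 2 by norm_num)
      (show (0 : ℝ) ≤ 1 / 2 by norm_num) (by norm_num)
    have h4 := Q.convex_body h3 Q.symBody.zero_mem (show (0 : ℝ) ≤ 1 / 4 by norm_num)
      (show (0 : ℝ) ≤ 3 / 4 by norm_num) (by norm_num)
    convert h4 using 1
    funext i
    simp only [Prod.fst_add, Pi.add_apply, Pi.smul_apply, smul_eq_mul, Pi.zero_apply, mul_zero,
      add_zero]
    push_cast
    ring
  have hinj2 : ∀ x ∈ A'' + A'', ∀ y ∈ A'' + A'', φ x = φ y → x = y := by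
    intro x hx y hy hxy
    rw [hφ, hφ] at hxy
    have h1 : Q.hom x.1 - Q.hom y.1 = ((y.2 - x.2 : Q.sub) : Γ) := by
      rw [AddSubgroup.coe_sub]
      rw [sub_eq_sub_iff_add_eq_add, hxy, add_comm]
    have h2 : x.1 = y.1 := hprop _ (hpts x hx) _ (hpts y hy) (by rw [h1]; exact SetLike.coe_mem _)
    rw [h2] at hxy
    have h3 : x.2 = y.2 := Subtype.ext (add_left_cancel hxy)
    exact Prod.ext h2 h3
  have hdbl : (A'' + A'').card ≤ (A + A).card := by
    refine Finset.card_le_card_of_injOn (fun x => φ x + (f + f)) ?_ ?_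
    · intro x hx
      obtain ⟨y, hy, z, hz, rfl⟩ := Finset.mem_add.mp hx
      have h1 : φ (y + z) + (f + f) = (φ y + f) + (φ z + f) := by
        rw [map_add]
        abel
      change φ (y + z) + (f + f) ∈ (A + A : Finset Γ)
      rw [h1]
      exact Finset.add_mem_add (hA'A (hφA'' y hy)) (hA'A (hφA'' z hz))
    · intro x hx y hy hxy
      exact hinj2 x hx y hy (add_right_cancel hxy)
  have hKA : K * A.card ≤ K * F.card * A''.card := by
    rw [mul_assoc, hcard]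
    have : (A.card : ℝ) ≤ F.card * A'.card := by exact_mod_cast hA'card
    gcongr
  have hdbl' : ((A'' + A'').card : ℝ) ≤ K * F.card * A''.card := by
    calc ((A'' + A'').card : ℝ) ≤ ((A + A).card : ℝ) := by exact_mod_cast hdbl
      _ ≤ K * A.card := hK
      _ ≤ K * F.card * A''.card := hKA
  obtain ⟨As, hAsA, hAsne, hAscard, r, b, hb, hr, hspan⟩ := hweak
    ((Fin Q.dim → ℤ) × Q.sub) Q.dim (AddMonoidHom.fst _ _) A'' (K * F.card)
    (hA'ne.image L) hdbl'
  obtain ⟨Q', hQ'dim, hQ'vol, hQ'⟩ := exists_pullback Q b hb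
  set A₁ : Finset Γ := As.image fun x => φ x + f with hA₁
  have hA₁A : A₁ ⊆ A := by
    intro a ha
    obtain ⟨x, hx, rfl⟩ := Finset.mem_image.mp ha
    exact hA'A (hφA'' x (hAsA hx))
  have hA₁card : A₁.card = As.card := by
    apply Finset.card_image_of_injOn
    intro x hx y hy hxy
    exact hinj1 x (hAsA hx) y (hAsA hy) (add_right_cancel hxy)
  have hcov : ((A + A₁).card : ℝ) ≤ (K * F.card) ^ (C₄ + 1) * A₁.card := by
    calc ((A + A₁).card : ℝ) ≤ ((A + A).card : ℝ) := by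
          exact_mod_cast Finset.card_le_card (Finset.add_subset_add_left hA₁A)
      _ ≤ K * A.card := hK
      _ ≤ K * F.card * A''.card := hKA
      _ ≤ K * F.card * ((K * F.card) ^ C₄ * As.card) := by gcongr
      _ = (K * F.card) ^ (C₄ + 1) * A₁.card := by
        rw [hA₁card, Real.rpow_add_one (by positivity)]
        ring
  obtain ⟨T, -, hT, hAT⟩ := Finset.ruzsa_covering_add (hAsne.image _) hcov
  refine ⟨Q', T, ?_, hQ'vol, hT, ?_⟩
  · rw [hQ'dim]
    exact hr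
  · intro a ha
    obtain ⟨t, ht, g, hg, rfl⟩ := Finset.mem_add.mp (hAT ha)
    refine ⟨t, ht, g, ?_, rfl⟩
    obtain ⟨p, hp, q, hq, rfl⟩ := Finset.mem_sub.mp hg
    obtain ⟨x, hx, rfl⟩ := Finset.mem_image.mp hp
    obtain ⟨y, hy, rfl⟩ := Finset.mem_image.mp hq
    have h0 : Q.hom (x.1 - y.1) = Q.hom x.1 - Q.hom y.1 := Q.hom.map_sub _ _
    have h1 : φ x + f - (φ y + f) = Q.hom (x.1 - y.1) + ((x.2 : Γ) - (y.2 : Γ)) := by
      rw [hφ x, hφ y, h0]
      abel
    rw [h1]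
    refine hQ' (x.1 - y.1) (hspan x hx y hy) ?_ _ (Q.sub.sub_mem x.2.2 y.2.2)
    have h2 := hbody x (hAsA hx)
    have h3 := Q.neg_mem_body _ (hbody y (hAsA hy))
    have h4 := Q.convex_body h2 h3 (show (0 : ℝ) ≤ 1 / 2 by norm_num)
      (show (0 : ℝ) ≤ 1 / 2 by norm_num) (by norm_num)
    convert h4 using 1
    funext i
    simp only [Pi.sub_apply, Pi.add_apply, Pi.smul_apply, smul_eq_mul, Pi.neg_apply]
    push_cast
    ring

end Pool.Agent.Lib.MP_dd2a7c_co
end

section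

/-!
Regularization with a constant penalty: the two-fold functional.
-/

namespace Pool.Agent.Lib.MP_dd2a7c_co

open Finset
open scoped Classical

noncomputable section

universe u

variable {Γ : Type u} [AddCommGroup Γ]

/-- The basic recursion for near-minimizers of the two-fold functional. -/
lemma two_step {ρ : Law Γ} {η ε : ℝ} (hη : 0 ≤ η) (μ : Fin 2 → Law Γ)
    (hmin : ∀ ν : Fin 2 → Law Γ, Fn ρ η μ ≤ Fn ρ η ν + ε) (i : ℕ) :
    H ((μ 0 * μ 1) ^ (2 * i + 2)) - H ((μ 0 * μ 1) ^ (2 * i)) ≤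
      (1 + η / 2) * (H ((μ 0 * μ 1) ^ (i + 1)) - H ((μ 0 * μ 1) ^ i)) + 2 * ε := by
  set T := μ 0 * μ 1 with hT
  have h1 := key_ineq hη μ hmin (fun _ => T ^ i)
  have h2 := key_ineq hη μ hmin ![μ 1 * T ^ i, μ 0 * T ^ i]
  simp only [Fin.prod_univ_two, Fin.sum_univ_two, Fintype.card_fin, Matrix.cons_val_zero,
    Matrix.cons_val_one] at h1 h2
  have e1 : μ 0 * T ^ i * (μ 1 * T ^ i) = T ^ (2 * i + 1) := by
    rw [pow_succ, two_mul, pow_add, hT]
    ac_rfl
  have e2 : T ^ i * T ^ i = T ^ (2 * i) := by rw [two_mul, pow_add]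
  have e3 : μ 0 * (μ 1 * T ^ i) * (μ 1 * (μ 0 * T ^ i)) = T ^ (2 * i + 2) := by
    rw [show 2 * i + 2 = (i + 1) + (i + 1) by ring, pow_add, pow_succ, hT]
    ac_rfl
  have e4 : μ 1 * T ^ i * (μ 0 * T ^ i) = T ^ (2 * i + 1) := by
    rw [pow_succ, two_mul, pow_add, hT]
    ac_rfl
  have e5 : μ 0 * (μ 1 * T ^ i) = T ^ (i + 1) := by
    rw [pow_succ, hT]
    ac_rfl
  have e6 : μ 1 * (μ 0 * T ^ i) = T ^ (i + 1) := by
    rw [pow_succ, hT]
    ac_rfl
  rw [e1, e2] at h1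
  rw [e3, e4, e5, e6] at h2
  push_cast at h1 h2
  linarith

/-- The first step. -/
lemma two_first {ρ : Law Γ} {η ε : ℝ} (hη : 0 ≤ η) (μ : Fin 2 → Law Γ)
    (hmin : ∀ ν : Fin 2 → Law Γ, Fn ρ η μ ≤ Fn ρ η ν + ε) :
    H ((μ 0 * μ 1) ^ 2) - H (μ 0 * μ 1) ≤
      (1 + η / 2) * (H (μ 0 * μ 1) - (H (μ 0) + H (μ 1)) / 2) + ε := by
  have h2 := key_ineq hη μ hmin ![μ 1, μ 0]
  simp only [Fin.prod_univ_two, Fin.sum_univ_two, Fintype.card_fin, Matrix.cons_val_zero,
    Matrix.cons_val_one] at h2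
  rw [mul_comm (μ 1) (μ 0), ← sq] at h2
  push_cast at h2
  linarith

lemma two_tele {g : ℕ → ℝ} {c ε : ℝ}
    (h : ∀ i, g (2 * i + 2) - g (2 * i) ≤ c * (g (i + 1) - g i) + 2 * ε) (m n : ℕ) :
    g (2 * (m + n)) - g (2 * m) ≤ c * (g (m + n) - g m) + 2 * n * ε := by
  induction n with
  | zero => simp
  | succ n ih =>
    have h1 := h (m + n)
    rw [show 2 * (m + (n + 1)) = 2 * (m + n) + 2 by ring, show m + (n + 1) = m + n + 1 by ring]
    push_cast
    linarith

lemma two_dyadic {g : ℕ → ℝ} {c ε B : ℝ} (hc : 1 ≤ c) (hε : 0 ≤ ε) (hB : g 2 - g 1 ≤ B)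
    (h : ∀ i, g (2 * i + 2) - g (2 * i) ≤ c * (g (i + 1) - g i) + 2 * ε) (t : ℕ) :
    g (2 ^ (t + 1)) - g (2 ^ t) ≤ c ^ t * (B + (2 ^ (t + 1) - 2) * ε) := by
  induction t with
  | zero => simpa using hB
  | succ t ih =>
    have h1 := two_tele h (2 ^ t) (2 ^ t)
    have e1 : 2 * (2 ^ t + 2 ^ t) = 2 ^ (t + 1 + 1) := by rw [pow_succ, pow_succ]; ring
    have e2 : 2 * 2 ^ t = 2 ^ (t + 1) := by rw [pow_succ]; ring
    have e3 : 2 ^ t + 2 ^ t = 2 ^ (t + 1) := by rw [pow_succ]; ring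
    rw [e1, e2, e3] at h1
    push_cast at h1
    have hct : 1 ≤ c ^ (t + 1) := one_le_pow₀ hc
    have h2 : c * (g (2 ^ (t + 1)) - g (2 ^ t)) ≤ c * (c ^ t * (B + (2 ^ (t + 1) - 2) * ε)) :=
      mul_le_mul_of_nonneg_left ih (by linarith)
    have h3 : 2 * 2 ^ t * ε ≤ c ^ (t + 1) * (2 * 2 ^ t * ε) :=
      le_mul_of_one_le_left (by positivity) hct
    have e4 : c ^ (t + 1) * (B + (2 ^ (t + 1 + 1) - 2) * ε) =
        c * (c ^ t * (B + (2 ^ (t + 1) - 2) * ε)) + c ^ (t + 1) * (2 * 2 ^ t * ε) := by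
      rw [pow_succ c t, pow_succ (2:ℝ) (t + 1), pow_succ (2:ℝ) t]
      ring
    rw [e4]
    linarith

/-- **Regularization with a constant penalty.** -/
theorem exists_reg_two (ρ : Law Γ) (k : ℝ) (hk : 0 < k) (h : H (ρ * ρ) ≤ H ρ + k) (η : ℝ)
    (hη : 0 < η) (hη1 : η ≤ 1) (s : ℕ) :
    ∃ τ : Law Γ, H (τ * τ) ≤ H τ + 13 * k ∧
      H (ρ * τ) ≤ (H ρ + H τ) / 2 + 13 * k / η ∧
      H (τ ^ (2 ^ s)) ≤ H τ + 13 * k / η * (1 + η / 2) ^ s := by
  set ε : ℝ := k / 2 ^ (s + 1) with hε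
  have hεpos : 0 < ε := by positivity
  have hεk : 2 ^ (s + 1) * ε = k := by
    rw [hε]
    field_simp
  have hεk' : ε ≤ k := by
    rw [← hεk]
    exact le_mul_of_one_le_left hεpos.le (one_le_pow₀ one_le_two)
  obtain ⟨μ, hmin, hμ⟩ := exists_near_min (ι := Fin 2) (ρ := ρ) hη.le hεpos (fun _ => ρ)
  have h1 : Fn ρ η (fun _ : Fin 2 => ρ) = H (ρ * ρ) - H ρ + η * cst ρ ρ := by
    unfold Fn
    simp only [Fin.prod_univ_two, sum_const, card_univ, Fintype.card_fin, nsmul_eq_mul]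
    norm_num
  have h2 : cst ρ ρ ≤ k := by
    unfold cst
    linarith
  have h4 : η * cst ρ ρ ≤ 1 * k := mul_le_mul hη1 h2 (cst_nonneg _ _) zero_le_one
  have hF : Fn ρ η μ ≤ 3 * k := by
    rw [h1] at hμ
    linarith
  have hFn : Fn ρ η μ = H (μ 0 * μ 1) - (H (μ 0) + H (μ 1)) / 2 +
      η * ((cst ρ (μ 0) + cst ρ (μ 1)) / 2) := by
    unfold Fn
    simp only [Fin.prod_univ_two, Fin.sum_univ_two, Fintype.card_fin]
    norm_num
  have hc0 : 0 ≤ (cst ρ (μ 0) + cst ρ (μ 1)) / 2 := by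
    have := cst_nonneg ρ (μ 0)
    have := cst_nonneg ρ (μ 1)
    linarith
  have hD0 : 0 ≤ H (μ 0 * μ 1) - (H (μ 0) + H (μ 1)) / 2 := by
    have := H_le_mul (μ 0) (μ 1)
    have := H_le_mul_left (μ 0) (μ 1)
    linarith
  have hD : H (μ 0 * μ 1) - (H (μ 0) + H (μ 1)) / 2 ≤ 3 * k := by
    have : 0 ≤ η * ((cst ρ (μ 0) + cst ρ (μ 1)) / 2) := mul_nonneg hη.le hc0
    linarith
  have hC : (cst ρ (μ 0) + cst ρ (μ 1)) / 2 ≤ 3 * k / η := by
    rw [le_div_iff₀ hη]
    linarith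
  set T := μ 0 * μ 1 with hT
  have hfirst : H (T ^ 2) - H (T ^ 1) ≤ 11 / 2 * k := by
    have := two_first hη.le μ hmin
    rw [← hT] at this
    rw [pow_one]
    have h5 : (1 + η / 2) * (H T - (H (μ 0) + H (μ 1)) / 2) ≤ (3 / 2) * (3 * k) :=
      mul_le_mul (by linarith) hD hD0 (by norm_num)
    linarith
  refine ⟨T, ?_, ?_, ?_⟩
  · rw [pow_one, sq] at hfirst
    linarith
  · have h5 := cst_prod_le ρ μ
    simp only [Fin.prod_univ_two, Fin.sum_univ_two, Fintype.card_fin] at h5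
    rw [← hT] at h5
    push_cast at h5
    have h6 : 3 / 2 * k ≤ 10 * k / η := by
      rw [le_div_iff₀ hη]
      nlinarith
    have h7 : 13 * k / η = 3 * k / η + 10 * k / η := by ring
    have h8 : cst ρ T = H (ρ * T) - (H ρ + H T) / 2 := rfl
    linarith
  · have hrec : ∀ i, H (T ^ (2 * i + 2)) - H (T ^ (2 * i)) ≤
        (1 + η / 2) * (H (T ^ (i + 1)) - H (T ^ i)) + 2 * ε := two_step hη.le μ hmin
    have hE : ∀ t < s, H (T ^ (2 ^ (t + 1))) - H (T ^ (2 ^ t)) ≤
        (1 + η / 2) ^ t * (13 / 2 * k) := by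
      intro t ht
      have h5 := two_dyadic (g := fun n => H (T ^ n)) (by linarith : 1 ≤ 1 + η / 2) hεpos.le
        hfirst hrec t
      refine h5.trans ?_
      refine mul_le_mul_of_nonneg_left ?_ (by positivity)
      have h6 : (2 ^ (t + 1) - 2) * ε ≤ 2 ^ (s + 1) * ε := by
        refine mul_le_mul_of_nonneg_right ?_ hεpos.le
        have : (2:ℝ) ^ (t + 1) ≤ 2 ^ (s + 1) := pow_le_pow_right₀ one_le_two (by omega)
        linarith
      linarith
    have hsum : ∀ t ≤ s, H (T ^ (2 ^ t)) - H T ≤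
        (13 / 2 * k) * ((2 / η) * ((1 + η / 2) ^ t - 1)) := by
      intro t
      induction t with
      | zero => intro _; simp
      | succ t ih =>
        intro ht
        have h5 := ih (by omega)
        have h6 := hE t (by omega)
        have h7 : (13 / 2 * k) * ((2 / η) * ((1 + η / 2) ^ (t + 1) - 1)) =
            (13 / 2 * k) * ((2 / η) * ((1 + η / 2) ^ t - 1)) +
              (1 + η / 2) ^ t * (13 / 2 * k) := by
          rw [pow_succ]
          field_simp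
          ring
        rw [h7]
        linarith
    have h5 := hsum s le_rfl
    have h6 : (13 / 2 * k) * ((2 / η) * ((1 + η / 2) ^ s - 1)) ≤
        13 * k / η * (1 + η / 2) ^ s := by
      have : (13 / 2 * k) * ((2 / η) * ((1 + η / 2) ^ s - 1)) =
        13 * k / η * (1 + η / 2) ^ s - 13 * k / η := by ring
      rw [this]
      have : 0 ≤ 13 * k / η := by positivity
      linarith
    linarith

end

end Pool.Agent.Lib.MP_dd2a7c_co
end
end

section

/-!
Choice of the parameters and assembly of the theorem with polynomially many translates.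
-/

namespace Pool.Agent.Lib.MP_dd2a7c_co

open Finset
open scoped Pointwise

universe u

/-- From a law to a set and a covering, with two parameters. -/
def LawToSetTwoStmt (C : ℝ) : Prop :=
  ∀ (Γ : Type u) [AddCommGroup Γ] [DecidableEq Γ] (A : Finset Γ) (hA : A.Nonempty)
    (K κ₁ κ : ℝ) (n j : ℕ) (τ : Law Γ), 1 ≤ κ₁ → κ₁ ≤ κ → 1 ≤ j →
    ((A + A).card : ℝ) ≤ K * A.card → H (τ * τ) ≤ H τ + κ₁ → H (τ ^ (2 * n)) ≤ H τ + κ →
    H (lawU A hA * τ) ≤ (H (lawU A hA) + H τ) / 2 + κ₁ → 256 * (j : ℝ) ^ 2 * κ ≤ n →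
    ∃ S F : Finset Γ, 0 ∈ S ∧ (∀ x ∈ S, -x ∈ S) ∧ A ⊆ F + S ∧
      (F.card : ℝ) ≤ K * Real.exp (C * κ₁) ∧ (S.card : ℝ) ≤ Real.exp (C * κ) * A.card ∧
      ((itSum j S).card : ℝ) ≤ Real.exp (C * κ) * S.card

/-- From a set of small growth to a proper coset progression. -/
def GrowthProperStmt : Prop :=
  ∀ (Γ : Type u) [AddCommGroup Γ] [DecidableEq Γ] (S : Finset Γ) (κ : ℝ) (N : ℕ), 0 ∈ S →
    (∀ x ∈ S, -x ∈ S) → 1 ≤ κ → (1000 * κ) ^ 8 ≤ N →
    ((itSum N S).card : ℝ) ≤ Real.exp κ * S.card →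
    ∃ Q : CosetProg Γ, Q.base = 0 ∧
      (∀ v ∈ Q.points, ∀ w ∈ Q.points, Q.hom v - Q.hom w ∈ Q.sub → v = w) ∧
      (∀ s ∈ S, ∃ v : Fin Q.dim → ℤ, (fun i => 8 * (v i : ℝ)) ∈ Q.body ∧
        ∃ h ∈ Q.sub, s = Q.hom v + h) ∧
      (Q.vol : ℝ) ≤ Real.exp κ * S.card

/-- Choice of the scale. -/
theorem exists_scale_poly (C₂ : ℝ) (hC₂ : 1 ≤ C₂) :
    ∃ C' : ℝ, 1 ≤ C' ∧ ∀ k ε : ℝ, Real.log 2 ≤ k → 0 < ε → ε ≤ 1 → ∃ s j : ℕ, 1 ≤ j ∧
      (1000 * (C₂ * (13 * k / (ε / 64) * (1 + ε / 64 / 2) ^ (s + 1)))) ^ 8 ≤ (j : ℝ) ∧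
      256 * (j : ℝ) ^ 2 * (13 * k / (ε / 64) * (1 + ε / 64 / 2) ^ (s + 1)) ≤ (2 : ℝ) ^ s ∧
      13 * k / (ε / 64) * (1 + ε / 64 / 2) ^ (s + 1) ≤ C' / ε * k ^ (1 + ε) := by
  have hlog2 : 0 < Real.log 2 := Real.log_pos one_lt_two
  have hlog2' : 0.6931471803 < Real.log 2 := Real.log_two_gt_d9
  set c₁ : ℝ := 1024 * (1000 * C₂) ^ 17 with hc₁
  have hc₁1 : 1 ≤ c₁ := by
    have : (1 : ℝ) ≤ (1000 * C₂) ^ 17 := one_le_pow₀ (by linarith)
    rw [hc₁]; linarith
  set c₂ : ℝ := Real.log 2 + 2 * Real.log (2 * c₁) + 34 * Real.log 832 with hc₂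
  have hc₂0 : 0 ≤ c₂ := by
    have h1 : 0 ≤ Real.log (2 * c₁) := Real.log_nonneg (by linarith)
    have h2 : (0 : ℝ) ≤ Real.log 832 := Real.log_nonneg (by norm_num)
    positivity
  refine ⟨832 * Real.exp (c₂ + 2), ?_, fun k ε hk hε hε1 => ?_⟩
  · have : 1 ≤ Real.exp (c₂ + 2) := Real.one_le_exp (by linarith)
    linarith
  have hk0 : 0 < k := lt_of_lt_of_le hlog2 hk
  set η : ℝ := ε / 64 with hη
  have hη0 : 0 < η := by positivity
  set a : ℝ := 13 * k / η with ha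
  have haeq : a = 832 * k / ε := by
    rw [ha, hη]; field_simp; ring
  have ha1 : 1 ≤ a := by
    rw [haeq, le_div_iff₀ hε]; nlinarith
  clear_value a
  set X : ℝ := (2 * c₁ * a ^ 17) ^ 2 with hX
  have ha17 : 1 ≤ a ^ 17 := one_le_pow₀ ha1
  have h2ca : 1 ≤ 2 * c₁ * a ^ 17 := one_le_mul_of_one_le_of_one_le (by linarith) ha17
  have hX1 : 1 ≤ X := one_le_pow₀ h2ca
  obtain ⟨m, hm1, hm2⟩ := exists_nat_pow_near hX1 (one_lt_two (α := ℝ))
  set q : ℝ := 1 + η / 2 with hq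
  have hq1 : 1 ≤ q := by rw [hq]; linarith
  have hq34 : q ^ 34 ≤ 2 := by
    have h1 : q ≤ 1 + 1 / 128 := by rw [hq, hη]; linarith
    calc q ^ 34 ≤ (1 + 1 / 128 : ℝ) ^ 34 := pow_le_pow_left₀ (by linarith) h1 34
      _ ≤ 2 := by norm_num
  set κ : ℝ := a * q ^ (m + 1) with hκ
  have hqm : 1 ≤ q ^ (m + 1) := one_le_pow₀ hq1
  have hκ1 : 1 ≤ κ := one_le_mul_of_one_le_of_one_le ha1 hqm
  set Y : ℝ := (1000 * (C₂ * κ)) ^ 8 with hY
  have hCκ : 1 ≤ C₂ * κ := one_le_mul_of_one_le_of_one_le hC₂ hκ1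
  have hY1 : 1 ≤ Y := one_le_pow₀ (by linarith)
  set j : ℕ := ⌈Y⌉₊ with hj
  have hj1 : Y ≤ j := Nat.le_ceil _
  have hj2 : (j : ℝ) ≤ 2 * Y := by
    have := Nat.ceil_lt_add_one (show 0 ≤ Y by linarith)
    linarith
  clear_value j
  refine ⟨m, j, ?_, hj1, ?_, ?_⟩
  · have : (1 : ℝ) ≤ j := hY1.trans hj1
    exact_mod_cast this
  · -- the main inequality
    have h1 : 256 * (j : ℝ) ^ 2 * κ ≤ c₁ * κ ^ 17 := by
      have e1 : (j : ℝ) ^ 2 ≤ (2 * Y) ^ 2 := pow_le_pow_left₀ (Nat.cast_nonneg j) hj2 2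
      have e2 : κ ≤ 1000 * (C₂ * κ) := by
        have e3 : κ ≤ C₂ * κ := le_mul_of_one_le_left (by linarith) hC₂
        linarith
      calc 256 * (j : ℝ) ^ 2 * κ ≤ 256 * (2 * Y) ^ 2 * (1000 * (C₂ * κ)) := by gcongr
        _ = c₁ * κ ^ 17 := by rw [hY, hc₁]; ring
    have h2 : 2 * (c₁ * κ ^ 17) ≤ (2 : ℝ) ^ (m + 1) := by
      refine (pow_le_pow_iff_left₀ (by positivity) (by positivity) two_ne_zero).mp ?_
      calc (2 * (c₁ * κ ^ 17)) ^ 2 = X * (q ^ 34) ^ (m + 1) := by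
            rw [hX, hκ, ← pow_mul]; ring
        _ ≤ (2 : ℝ) ^ (m + 1) * 2 ^ (m + 1) := by gcongr
        _ = ((2 : ℝ) ^ (m + 1)) ^ 2 := by ring
    rw [pow_succ (2 : ℝ) m] at h2
    linarith
  · -- the size of `κ`
    have hlogX : (m : ℝ) * Real.log 2 ≤ 2 * (Real.log (2 * c₁) + 17 * Real.log a) := by
      have e1 := Real.log_le_log (by positivity) hm1
      rw [Real.log_pow, hX, Real.log_pow, Real.log_mul (by positivity) (by positivity),
        Real.log_pow] at e1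
      push_cast at e1
      exact e1
    have hloga : Real.log a = Real.log 832 + Real.log k - Real.log ε := by
      rw [haeq, Real.log_div (by positivity) hε.ne', Real.log_mul (by norm_num) hk0.ne']
    have hs : ((m : ℝ) + 1) * Real.log 2 ≤ c₂ + 34 * Real.log k - 34 * Real.log ε := by
      rw [hloga] at hlogX
      rw [hc₂]
      linarith
    have hεlog : -(ε * Real.log ε) ≤ 1 := by
      have e1 := Real.log_le_sub_one_of_pos (show 0 < ε⁻¹ by positivity)
      rw [Real.log_inv] at e1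
      have e2 : ε * (-Real.log ε) ≤ ε * (ε⁻¹ - 1) := mul_le_mul_of_nonneg_left e1 hε.le
      rw [mul_sub, mul_inv_cancel₀ hε.ne', mul_one] at e2
      linarith
    have hlogk : -1 ≤ Real.log k := by
      have e1 : Real.log (Real.log 2) ≤ Real.log k := Real.log_le_log hlog2 hk
      have e2 : -1 ≤ Real.log (Real.log 2) := by
        rw [Real.le_log_iff_exp_le hlog2, Real.exp_neg]
        have e3 : (2 : ℝ) ≤ Real.exp 1 := by
          have := Real.add_one_le_exp (1 : ℝ)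
          linarith
        calc (Real.exp 1)⁻¹ ≤ 2⁻¹ := inv_anti₀ two_pos e3
          _ ≤ Real.log 2 := by linarith
      linarith
    have hexp : η / 2 * ((m : ℝ) + 1) ≤ c₂ + 2 + Real.log k * ε := by
      have e1 : η / 2 * ((m : ℝ) + 1) = ε / (128 * Real.log 2) * (((m : ℝ) + 1) * Real.log 2) := by
        rw [hη]; field_simp; ring
      have e2 : ε / (128 * Real.log 2) * (((m : ℝ) + 1) * Real.log 2) ≤
          ε / (128 * Real.log 2) * (c₂ + 34 * Real.log k - 34 * Real.log ε) := by gcongr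
      set b : ℝ := 1 / (128 * Real.log 2) with hb
      have hb0 : 0 < b := by positivity
      have hb1 : b ≤ 1 / 68 := by
        rw [hb]
        apply one_div_le_one_div_of_le (by norm_num)
        linarith
      have e3 : ε / (128 * Real.log 2) * (c₂ + 34 * Real.log k - 34 * Real.log ε) =
          b * ε * c₂ + 34 * b * (Real.log k * ε) + 34 * b * (-(ε * Real.log ε)) := by
        rw [hb]; ring
      have e4 : b * ε * c₂ ≤ c₂ := by
        have : b * ε ≤ 1 := by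
          calc b * ε ≤ 1 * 1 := mul_le_mul (by linarith) hε1 hε.le (by norm_num)
            _ = 1 := one_mul 1
        exact mul_le_of_le_one_left hc₂0 this
      have e5 : 34 * b * (-(ε * Real.log ε)) ≤ 34 * b * 1 := by gcongr
      have e6 : -1 ≤ Real.log k * ε := by nlinarith
      have e7 : 34 * b * (Real.log k * ε) ≤ Real.log k * ε + (1 - 34 * b) := by
        nlinarith
      rw [e1]
      refine e2.trans ?_
      rw [e3]
      linarith
    have hq' : q ^ (m + 1) ≤ Real.exp (c₂ + 2) * k ^ ε := by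
      calc q ^ (m + 1) ≤ (Real.exp (η / 2)) ^ (m + 1) := by
            refine pow_le_pow_left₀ (by linarith) ?_ _
            have := Real.add_one_le_exp (η / 2)
            rw [hq]; linarith
        _ = Real.exp (η / 2 * ((m : ℝ) + 1)) := by
            rw [← Real.exp_nat_mul]; push_cast; ring_nf
        _ ≤ Real.exp (c₂ + 2 + Real.log k * ε) := Real.exp_le_exp.mpr hexp
        _ = Real.exp (c₂ + 2) * k ^ ε := by rw [Real.exp_add, Real.rpow_def_of_pos hk0]
    calc κ ≤ a * (Real.exp (c₂ + 2) * k ^ ε) := by rw [hκ]; gcongr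
      _ = 832 * Real.exp (c₂ + 2) / ε * k ^ (1 + ε) := by
        rw [haeq, Real.rpow_add hk0, Real.rpow_one]; ring

/-- **Assembly.** -/
theorem assemble_poly {C₂ C₄ : ℝ} (hC₂ : 1 ≤ C₂) (hC₄ : 1 ≤ C₄)
    (hlaw : LawToSetTwoStmt.{u} C₂) (hgrowth : GrowthProperStmt.{u})
    (hweak : WeakPFRStmt.{u} C₄) :
    ∃ C : ℝ, 0 < C ∧ ∀ (Γ : Type u) [AddCommGroup Γ] [DecidableEq Γ] (ε : ℝ), 0 < ε → ε ≤ 1 →
      ∀ (K : ℝ) (A : Finset Γ), A.Nonempty → ((A + A).card : ℝ) ≤ K * A.card →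
      ∃ (Q : CosetProg Γ) (T : Finset Γ), (Q.dim : ℝ) ≤ C / ε * Real.log (2 * K) ∧
        (Q.vol : ℝ) ≤ Real.exp (C / ε * Real.log (2 * K) ^ (1 + ε)) * A.card ∧
        (T.card : ℝ) ≤ (2 * K) ^ (C / ε) ∧ CoveredBy A T Q := by
  have hlog2 : 0 < Real.log 2 := Real.log_pos one_lt_two
  have hlog2' : 0.6931471803 < Real.log 2 := Real.log_two_gt_d9
  obtain ⟨C', hC'1, hC'⟩ := exists_scale_poly C₂ hC₂
  set B : ℝ := 2 + 832 * C₂ with hB
  have hB0 : 0 < B := by positivity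
  refine ⟨(C₄ + 1) * B + 2 * C₂ * C', by positivity, ?_⟩
  set C : ℝ := (C₄ + 1) * B + 2 * C₂ * C' with hC
  have hC1 : (C₄ + 1) * B ≤ C := by
    have : 0 ≤ 2 * C₂ * C' := by positivity
    linarith
  have hC3 : C₄ * B ≤ C := by linarith
  have hC2' : 2 * C₂ * C' ≤ C := by
    have : 0 ≤ (C₄ + 1) * B := by positivity
    linarith
  intro Γ _ _ ε hε hε1 K A hA hK
  have hApos : (0 : ℝ) < A.card := Nat.cast_pos.mpr hA.card_pos
  have hK1 : 1 ≤ K := by
    have h1 : A.card ≤ (A + A).card := by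
      obtain ⟨x, hx⟩ := hA
      calc A.card = (A.image (fun y => x + y)).card :=
            (Finset.card_image_of_injective _ (add_right_injective x)).symm
        _ ≤ (A + A).card := Finset.card_le_card (by
            intro z hz
            obtain ⟨y, hy, rfl⟩ := Finset.mem_image.mp hz
            exact Finset.add_mem_add hx hy)
    have h2 : (A.card : ℝ) ≤ (A + A).card := by exact_mod_cast h1
    have h3 : 1 * (A.card : ℝ) ≤ K * A.card := by linarith
    exact le_of_mul_le_mul_right h3 hApos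
  set k := Real.log (2 * K) with hk
  have hk2 : Real.log 2 ≤ k := Real.log_le_log two_pos (by linarith)
  have hkpos : 0 < k := lt_of_lt_of_le hlog2 hk2
  have hlogK : Real.log K ≤ k := Real.log_le_log (by linarith) (by linarith)
  obtain ⟨s, j, hj1, hj, hn, hκC⟩ := hC' k ε hk2 hε hε1
  set η : ℝ := ε / 64 with hη
  have hη0 : 0 < η := by positivity
  have hη1 : η ≤ 1 := by rw [hη]; linarith
  have hκ₁eq : 13 * k / η = 832 * k / ε := by
    rw [hη]; field_simp; ring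
  have hκ₁1 : 1 ≤ 13 * k / η := by
    rw [hκ₁eq, le_div_iff₀ hε]; nlinarith
  have hq1 : (1 : ℝ) ≤ (1 + η / 2) ^ (s + 1) := one_le_pow₀ (by linarith)
  have hκ₁κ : 13 * k / η ≤ 13 * k / η * (1 + η / 2) ^ (s + 1) :=
    le_mul_of_one_le_right (by linarith) hq1
  -- regularisation
  have hreg : H (lawU A hA * lawU A hA) ≤ H (lawU A hA) + k := by
    have h1 : H (lawU A hA * lawU A hA) ≤ Real.log (A + A).card := by
      apply H_le_log_card
      intro g hg
      obtain ⟨x, hx, y, hy, rfl⟩ := supp_mul_subset _ _ g hg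
      rw [supp_lawU] at hx hy
      exact Finset.add_mem_add hx hy
    have h2 : Real.log (A + A).card ≤ Real.log (K * A.card) := by
      refine Real.log_le_log ?_ hK
      exact Nat.cast_pos.mpr (hA.add hA).card_pos
    rw [Real.log_mul (by linarith) hApos.ne'] at h2
    rw [H_lawU]
    linarith
  obtain ⟨τ, hτ1, hτ2, hτ3⟩ := exists_reg_two (lawU A hA) k hkpos hreg η hη0 hη1 (s + 1)
  set κ₁ : ℝ := 13 * k / η with hκ₁
  set κ : ℝ := κ₁ * (1 + η / 2) ^ (s + 1) with hκ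
  have hκ1 : 1 ≤ κ := hκ₁1.trans hκ₁κ
  have h13 : 13 * k ≤ κ₁ := by
    rw [hκ₁, le_div_iff₀ hη0]
    exact mul_le_of_le_one_right (by positivity) hη1
  obtain ⟨S, F, hS0, hSneg, hAF, hF, hScard, hSj⟩ :=
    hlaw Γ A hA K κ₁ κ (2 ^ s) j τ hκ₁1 hκ₁κ hj1 hK (by linarith)
      (by rw [← pow_succ']; exact hτ3) hτ2 (by push_cast; exact hn)
  have hCκ : 1 ≤ C₂ * κ := one_le_mul_of_one_le_of_one_le hC₂ hκ1
  obtain ⟨Q, -, hprop, hSQ, hQvol⟩ := hgrowth Γ S (C₂ * κ) j hS0 hSneg hCκ hj hSj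
  obtain ⟨Q', T, hdim, hvol, hT, hcov⟩ :=
    poly_step hweak A S F hA K hK1 hK hAF Q hprop hSQ
  -- the size of `F`
  have hFpos : (1 : ℝ) ≤ F.card := by
    have : F.Nonempty := by
      obtain ⟨a, ha⟩ := hA
      obtain ⟨f, hf, -, -, -⟩ := Finset.mem_add.mp (hAF ha)
      exact ⟨f, hf⟩
    exact_mod_cast this.card_pos
  have hKF : K * F.card ≤ Real.exp (B / ε * k) := by
    have e1 : K ≤ Real.exp k := by
      rw [hk, Real.exp_log (by linarith)]; linarith
    calc K * F.card ≤ K * (K * Real.exp (C₂ * κ₁)) := by gcongr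
      _ ≤ Real.exp k * (Real.exp k * Real.exp (C₂ * κ₁)) := by gcongr
      _ = Real.exp (k + (k + C₂ * κ₁)) := by rw [Real.exp_add, Real.exp_add]
      _ ≤ Real.exp (B / ε * k) := by
        apply Real.exp_le_exp.mpr
        rw [hκ₁eq, hB]
        have e2 : k ≤ k / ε := by
          rw [le_div_iff₀ hε]
          exact mul_le_of_le_one_right hkpos.le hε1
        have e3 : (2 + 832 * C₂) / ε * k = k / ε + k / ε + C₂ * (832 * k / ε) := by ring
        rw [e3]
        linarith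
  have hKF1 : 1 ≤ K * F.card := one_le_mul_of_one_le_of_one_le hK1 hFpos
  refine ⟨Q', T, ?_, ?_, ?_, hcov⟩
  · calc (Q'.dim : ℝ) ≤ C₄ * Real.log (K * F.card) := hdim
      _ ≤ C₄ * (B / ε * k) := by
        have e1 := Real.log_le_log (by linarith) hKF
        rw [Real.log_exp] at e1
        gcongr
      _ = C₄ * B / ε * k := by ring
      _ ≤ C / ε * k := by gcongr
  · have e1 : (Q'.vol : ℝ) ≤ Q.vol := by exact_mod_cast hvol
    calc (Q'.vol : ℝ) ≤ Q.vol := e1
      _ ≤ Real.exp (C₂ * κ) * S.card := hQvol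
      _ ≤ Real.exp (C₂ * κ) * (Real.exp (C₂ * κ) * A.card) := by gcongr
      _ = Real.exp (2 * C₂ * κ) * A.card := by
        rw [← mul_assoc, ← Real.exp_add]
        congr 2
        ring
      _ ≤ Real.exp (C / ε * k ^ (1 + ε)) * A.card := by
        refine mul_le_mul_of_nonneg_right (Real.exp_le_exp.mpr ?_) hApos.le
        have hkp : 0 ≤ k ^ (1 + ε) := Real.rpow_nonneg hkpos.le _
        calc 2 * C₂ * κ ≤ 2 * C₂ * (C' / ε * k ^ (1 + ε)) := by gcongr
          _ = 2 * C₂ * C' / ε * k ^ (1 + ε) := by ring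
          _ ≤ C / ε * k ^ (1 + ε) := by gcongr
  · calc (T.card : ℝ) ≤ (K * F.card) ^ (C₄ + 1) := hT
      _ ≤ (Real.exp (B / ε * k)) ^ (C₄ + 1) :=
        Real.rpow_le_rpow (by linarith) hKF (by linarith)
      _ = Real.exp (B / ε * k * (C₄ + 1)) := by rw [← Real.exp_mul]
      _ ≤ Real.exp (k * (C / ε)) := by
        apply Real.exp_le_exp.mpr
        calc B / ε * k * (C₄ + 1) = k * ((C₄ + 1) * B / ε) := by ring
          _ ≤ k * (C / ε) := by gcongr
      _ = (2 * K) ^ (C / ε) := by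
        rw [Real.rpow_def_of_pos (by linarith : 0 < 2 * K), ← hk]

end Pool.Agent.Lib.MP_dd2a7c_co
end
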