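import Pool.Agent.Lib.MP_dd2a7c_co.Law

/-!
Regularization: the key inequality for near-minimizers of the `n`-fold functional.
-/

namespace Pool.Agent.Lib.MP_dd2a7c_co

open Finset
open scoped Classical

noncomputable section

universe u

/-! ### Products of finitely many probability spaces -/

section pi

variable {ι : Type*} [Fintype ι] {Ω : ι → Type*} [∀ j, Fintype (Ω j)]

/-- Product weights on a dependent product. -/
def pip (p : ∀ j, Ω j → ℝ) : (∀ j, Ω j) → ℝ := fun x => ∏ j, p j (x j)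

lemma sum_pi_prod (F : ∀ j, Ω j → ℝ) : ∑ x : ∀ j, Ω j, ∏ j, F j (x j) = ∏ j, ∑ a, F j a := by
  rw [prod_univ_sum, Fintype.piFinset_univ]

variable {p : ∀ j, Ω j → ℝ}

lemma isProb_pip (hp : ∀ j, IsProb (p j)) : IsProb (pip p) where
  nonneg x := prod_nonneg fun j _ => (hp j).nonneg _
  sum_one := by
    unfold pip
    rw [sum_pi_prod]
    exact prod_eq_one fun j _ => (hp j).sum_one

lemma sum_pip_coord (hp : ∀ j, IsProb (p j)) (j : ι) (F : Ω j → ℝ) :
    ∑ x, pip p x * F (x j) = ∑ a, p j a * F a := by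
  have h : ∀ x : ∀ j, Ω j, pip p x * F (x j) =
      ∏ i, (p i (x i) * if h : i = j then F (h ▸ x i) else 1) := by
    intro x
    rw [prod_mul_distrib]
    unfold pip
    congr 1
    rw [prod_eq_single j]
    · simp
    · intro b _ hb
      rw [dif_neg hb]
    · simp
  rw [sum_congr rfl fun x _ => h x, sum_pi_prod (fun i a => p i a * if h : i = j then F (h ▸ a) else 1),
    prod_eq_single j]
  · simp
  · intro b _ hb
    simp only [dif_neg hb, mul_one]
    exact (hp b).sum_one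
  · simp

lemma pr_pip {β : ι → Type*} (Z : ∀ j, Ω j → β j) (z : ∀ j, β j) :
    pr (pip p) (fun x j => Z j (x j)) z = ∏ j, pr (p j) (Z j) (z j) := by
  unfold pr
  rw [← sum_pi_prod (fun j a => if Z j a = z j then p j a else 0)]
  refine sum_congr rfl fun x _ => ?_
  rw [prod_ite_zero]
  simp only [funext_iff, mem_univ, forall_const]
  rfl

end pi

/-! ### Conditional weights and the chain rule -/

section cond

variable {Ω α β : Type*} [Fintype Ω] {p : Ω → ℝ}

/-- Conditional weights given `g = z`. -/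
def cw (p : Ω → ℝ) (g : Ω → β) (z : β) : Ω → ℝ := fun ω => if g ω = z then p ω / pr p g z else 0

lemma isProb_cw (hp : IsProb p) {g : Ω → β} {z : β} (hz : pr p g z ≠ 0) : IsProb (cw p g z) where
  nonneg ω := by
    unfold cw
    split_ifs
    · exact div_nonneg (hp.nonneg _) (pr_nonneg hp _ _)
    · exact le_rfl
  sum_one := by
    unfold cw
    have : ∀ ω, (if g ω = z then p ω / pr p g z else 0) =
        (if g ω = z then p ω else 0) / pr p g z := by
      intro ω
      split_ifs <;> simp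
    rw [sum_congr rfl fun ω _ => this ω, ← sum_div]
    exact div_self hz

lemma pr_cw (p : Ω → ℝ) (f : Ω → α) (g : Ω → β) (a : α) (z : β) :
    pr (cw p g z) f a = pr p (fun ω => (f ω, g ω)) (a, z) / pr p g z := by
  unfold cw
  generalize pr p g z = c
  unfold pr
  rw [sum_div]
  refine sum_congr rfl fun ω _ => ?_
  by_cases h1 : f ω = a <;> by_cases h2 : g ω = z <;> simp [h1, h2]

/-- The chain rule, with conditional entropies computed on the same space. -/
lemma ent_chain (hp : IsProb p) (f : Ω → α) (g : Ω → β) :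
    ent p (fun ω => (f ω, g ω)) - ent p g = ∑ ω, p ω * ent (cw p g (g ω)) f := by
  have h1 : ∀ ω, p ω * ent (cw p g (g ω)) f = ∑ ω', (if g ω' = g ω then
      p ω * (p ω' / pr p g (g ω)) *
      (Real.log (pr p g (g ω')) - Real.log (pr p (fun ω => (f ω, g ω)) (f ω', g ω')))
      else 0) := by
    intro ω
    by_cases h0 : p ω = 0
    · simp [h0]
    have hz := pr_pos hp g h0
    unfold ent
    rw [← sum_neg_distrib, mul_sum]
    refine sum_congr rfl fun ω' _ => ?_
    rw [pr_cw]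
    by_cases h2 : g ω' = g ω
    · rw [if_pos h2]
      by_cases h3 : p ω' = 0
      · simp [cw, h3]
      · have h4 := pr_pos hp (fun ω => (f ω, g ω)) h3
        have h4' : 0 < pr p (fun ω => (f ω, g ω)) (f ω', g ω) := by
          rw [← h2]
          exact h4
        rw [Real.log_div h4'.ne' hz.ne']
        unfold cw
        rw [if_pos h2, h2]
        ring
    · rw [if_neg h2]
      unfold cw
      rw [if_neg h2]
      ring
  rw [sum_congr rfl fun ω _ => h1 ω, sum_comm]
  have h2 : ∀ ω', ∑ ω, (if g ω' = g ω then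
      p ω * (p ω' / pr p g (g ω)) *
      (Real.log (pr p g (g ω')) - Real.log (pr p (fun ω => (f ω, g ω)) (f ω', g ω')))
      else 0) = p ω' * (Real.log (pr p g (g ω')) -
        Real.log (pr p (fun ω => (f ω, g ω)) (f ω', g ω'))) := by
    intro ω'
    by_cases h0 : p ω' = 0
    · simp [h0]
    have hz := pr_pos hp g h0
    have h3 : ∀ ω, (if g ω' = g ω then
        p ω * (p ω' / pr p g (g ω)) *
        (Real.log (pr p g (g ω')) - Real.log (pr p (fun ω => (f ω, g ω)) (f ω', g ω')))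
        else 0) = (if g ω = g ω' then p ω else 0) * ((p ω' / pr p g (g ω')) *
        (Real.log (pr p g (g ω')) - Real.log (pr p (fun ω => (f ω, g ω)) (f ω', g ω')))) := by
      intro ω
      by_cases h : g ω' = g ω
      · rw [if_pos h, if_pos h.symm, h]
        ring
      · rw [if_neg h, if_neg (Ne.symm h), zero_mul]
    rw [sum_congr rfl fun ω _ => h3 ω, ← sum_mul]
    have h4 : (∑ ω, if g ω = g ω' then p ω else 0) = pr p g (g ω') := rfl
    rw [h4]
    field_simp
  rw [sum_congr rfl fun ω' _ => h2 ω']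
  unfold ent
  rw [← sum_neg_distrib, ← sum_neg_distrib, ← sum_sub_distrib]
  refine sum_congr rfl fun ω _ => ?_
  ring

lemma cw_pip {ι : Type*} [Fintype ι] {Ω : ι → Type*} [∀ j, Fintype (Ω j)] {β : ι → Type*}
    (p : ∀ j, Ω j → ℝ) (Z : ∀ j, Ω j → β j) (z : ∀ j, β j) :
    cw (pip p) (fun x j => Z j (x j)) z = pip fun j => cw (p j) (Z j) (z j) := by
  funext x
  unfold cw
  rw [pr_pip]
  unfold pip
  rw [prod_ite_zero]
  simp only [funext_iff, mem_univ, forall_const]
  rw [prod_div_distrib]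

lemma cw_prod_snd {Ω' : Type*} [Fintype Ω'] (hp : IsProb p) (q : Ω' → ℝ) (g : Ω' → β) (z : β) :
    cw (prod p q) (fun x => g x.2) z = prod p (cw q g z) := by
  funext x
  unfold cw
  rw [pr_prod_snd hp]
  unfold prod
  by_cases h : g x.2 = z
  · simp only [h, if_true]
    ring
  · simp only [h, if_false]
    ring

end cond

section laws

variable {Γ : Type u} [AddCommGroup Γ]

lemma prod_lawOf {ι : Type*} [Fintype ι] {Ω : ι → Type*} [∀ j, Fintype (Ω j)]
    {p : ∀ j, Ω j → ℝ} (hp : ∀ j, IsProb (p j)) (f : ∀ j, Ω j → Γ) :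
    ∏ j, lawOf (hp j) (f j) = lawOf (isProb_pip hp) (fun x => ∑ j, f j (x j)) := by
  apply Subtype.ext
  rw [Submonoid.coe_finsetProd]
  change ∏ j, (∑ ω, AddMonoidAlgebra.single (f j ω) (p j ω) : AddMonoidAlgebra ℝ Γ) =
    ∑ x : ∀ j, Ω j, AddMonoidAlgebra.single (∑ j, f j (x j)) (pip p x)
  rw [prod_univ_sum, Fintype.piFinset_univ]
  refine sum_congr rfl fun x _ => ?_
  rw [AddMonoidAlgebra.prod_single]
  rfl

/-- The cost of a law relative to `ρ`. -/
def cst (ρ μ : Law Γ) : ℝ := H (ρ * μ) - (H ρ + H μ) / 2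

lemma cst_nonneg (ρ μ : Law Γ) : 0 ≤ cst ρ μ := by
  unfold cst
  have h1 := H_le_mul ρ μ
  have h2 := H_le_mul_left ρ μ
  linarith

/-- The `n`-fold functional. -/
def Fn {ι : Type*} [Fintype ι] (ρ : Law Γ) (η : ℝ) (μ : ι → Law Γ) : ℝ :=
  H (∏ j, μ j) - (∑ j, H (μ j)) / Fintype.card ι + η * ((∑ j, cst ρ (μ j)) / Fintype.card ι)

section key

variable {Ω Ω' : Type*} [Fintype Ω] [Fintype Ω'] {p : Ω → ℝ} {q : Ω' → ℝ}

/-- The conditional law of `y` given `y + w = y a.1 + w a.2`. -/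
def kap (hp : IsProb p) (hq : IsProb q) (hp0 : ∀ a, p a ≠ 0) (hq0 : ∀ a, q a ≠ 0)
    (y : Ω → Γ) (w : Ω' → Γ) (a : Ω × Ω') : Law Γ :=
  lawOf (isProb_cw (isProb_prod hp hq) (g := fun x => y x.1 + w x.2) (z := y a.1 + w a.2)
    (pr_pos (isProb_prod hp hq) (fun x => y x.1 + w x.2)
      (mul_ne_zero (hp0 a.1) (hq0 a.2))).ne') (fun x => y x.1)

lemma sum_H_kap (hp : IsProb p) (hq : IsProb q) (hp0 : ∀ a, p a ≠ 0) (hq0 : ∀ a, q a ≠ 0)
    (y : Ω → Γ) (w : Ω' → Γ) :
    ∑ a, prod p q a * H (kap hp hq hp0 hq0 y w a) =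
      H (lawOf hp y) + H (lawOf hq w) - H (lawOf hp y * lawOf hq w) := by
  have h := ent_chain (isProb_prod hp hq) (fun x => y x.1) (fun x => y x.1 + w x.2)
  have h1 : ent (prod p q) (fun x => (y x.1, y x.1 + w x.2)) = ent p y + ent q w := by
    rw [← ent_prod hp hq]
    refine ent_congr _ _ fun a b _ _ => ?_
    simp only [Prod.mk.injEq]
    constructor
    · rintro ⟨h1, h2⟩
      rw [h1] at h2
      exact ⟨h1, add_left_cancel h2⟩
    · rintro ⟨h1, h2⟩
      rw [h1, h2]
      exact ⟨rfl, rfl⟩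
  rw [h1] at h
  rw [lawOf_mul, H_lawOf, H_lawOf, H_lawOf, h]
  refine sum_congr rfl fun a _ => ?_
  unfold kap
  rw [H_lawOf]

lemma sum_H_mul_kap (hp : IsProb p) (hq : IsProb q) (hp0 : ∀ a, p a ≠ 0) (hq0 : ∀ a, q a ≠ 0)
    (y : Ω → Γ) (w : Ω' → Γ) (ρ : Law Γ) :
    ∑ a, prod p q a * H (ρ * kap hp hq hp0 hq0 y w a) ≤ H (ρ * lawOf hp y) := by
  obtain ⟨Ω₀, _, r, hr, x₀, -, rfl⟩ := exists_rep ρ
  have hP := isProb_prod hp hq
  have hR := isProb_prod hr hP
  have h := ent_chain hR (fun x => x₀ x.1 + y x.2.1) (fun x => y x.2.1 + w x.2.2)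
  have h1 := ent_pair_le hR (fun x => x₀ x.1 + y x.2.1) (fun x => y x.2.1 + w x.2.2)
  have e1 : ent (prod r (prod p q)) (fun x => x₀ x.1 + y x.2.1) =
      H (lawOf hr x₀ * lawOf hp y) := by
    rw [← lawOf_fst hp hq y, lawOf_mul hr hP, H_lawOf]
  have e2 : ∀ a : Ω × Ω', H (lawOf hr x₀ * kap hp hq hp0 hq0 y w a) =
      ent (prod r (cw (prod p q) (fun x => y x.1 + w x.2) (y a.1 + w a.2)))
        (fun x => x₀ x.1 + y x.2.1) := by
    intro a
    unfold kap
    rw [lawOf_mul, H_lawOf]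
  have e3 : ∑ x, prod r (prod p q) x * ent (cw (prod r (prod p q))
      (fun x => y x.2.1 + w x.2.2) (y x.2.1 + w x.2.2)) (fun x => x₀ x.1 + y x.2.1) =
      ∑ a, prod p q a * H (lawOf hr x₀ * kap hp hq hp0 hq0 y w a) := by
    rw [Fintype.sum_prod_type, sum_comm]
    refine sum_congr rfl fun a _ => ?_
    rw [e2]
    have e4 := cw_prod_snd hr (prod p q) (fun x : Ω × Ω' => y x.1 + w x.2) (y a.1 + w a.2)
    simp only
    rw [e4]
    have e5 : ∀ b, prod r (prod p q) (b, a) = r b * prod p q a := fun b => rfl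
    simp_rw [e5]
    rw [← sum_mul, ← sum_mul, hr.sum_one, one_mul]
  rw [e3] at h
  rw [← h, ← e1]
  linarith

end key

/-- The key inequality for near-minimizers of the `n`-fold functional. -/
theorem key_ineq {ι : Type*} [Fintype ι] [Nonempty ι] {ρ : Law Γ} {η ε : ℝ} (hη : 0 ≤ η)
    (μ : ι → Law Γ) (hmin : ∀ ν : ι → Law Γ, Fn ρ η μ ≤ Fn ρ η ν + ε) (ξ : ι → Law Γ) :
    H (∏ j, μ j * ξ j) - H (∏ j, ξ j) ≤
      (1 + η / 2) * ((∑ j, (H (μ j * ξ j) - H (ξ j))) / Fintype.card ι) + ε := by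
  choose Ω₁ inst₁ p hp y hp0 hy using fun j => exists_rep (μ j)
  choose Ω₂ inst₂ q hq w hq0 hw using fun j => exists_rep (ξ j)
  have hP : ∀ j, IsProb (prod (p j) (q j)) := fun j => isProb_prod (hp j) (hq j)
  have hQ := isProb_pip hP
  set n : ℝ := (Fintype.card ι : ℝ) with hn
  have hnpos : 0 < n := Nat.cast_pos.2 Fintype.card_pos
  -- the laws of the sums
  have e1 : ∏ j, μ j = lawOf hQ (fun x => ∑ j, y j (x j).1) := by
    rw [← prod_lawOf hP (fun j x => y j x.1)]
    refine prod_congr rfl fun j _ => ?_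
    rw [lawOf_fst (hp j) (hq j), hy]
  have e2 : ∏ j, ξ j = lawOf hQ (fun x => ∑ j, w j (x j).2) := by
    rw [← prod_lawOf hP (fun j x => w j x.2)]
    refine prod_congr rfl fun j _ => ?_
    rw [lawOf_snd (hp j) (hq j), hw]
  have e3 : ∏ j, μ j * ξ j = lawOf hQ (fun x => ∑ j, (y j (x j).1 + w j (x j).2)) := by
    rw [← prod_lawOf hP (fun j x => y j x.1 + w j x.2)]
    refine prod_congr rfl fun j _ => ?_
    rw [← lawOf_mul (hp j) (hq j), hy, hw]
  have E1 : H (∏ j, μ j) = ent (pip fun j => prod (p j) (q j)) (fun x => ∑ j, y j (x j).1) := by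
    rw [e1, H_lawOf]
  have E2 : H (∏ j, ξ j) = ent (pip fun j => prod (p j) (q j)) (fun x => ∑ j, w j (x j).2) := by
    rw [e2, H_lawOf]
  have E3 : H (∏ j, μ j * ξ j) = ent (pip fun j => prod (p j) (q j))
      (fun x => ∑ j, (y j (x j).1 + w j (x j).2)) := by
    rw [e3, H_lawOf]
  -- submodularity
  have s1 := ent_pair_le hQ (fun x => ∑ j, y j (x j).1) (fun x => ∑ j, w j (x j).2)
  have s2 : ent (pip fun j => prod (p j) (q j))
      (fun x => (∑ j, y j (x j).1, ∑ j, w j (x j).2)) =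
      ent (pip fun j => prod (p j) (q j))
      (fun x => (∑ j, y j (x j).1, ∑ j, (y j (x j).1 + w j (x j).2))) := by
    refine ent_congr _ _ fun a b _ _ => ?_
    simp only [Prod.mk.injEq, sum_add_distrib]
    constructor
    · rintro ⟨h1, h2⟩
      rw [h1, h2]
      exact ⟨rfl, rfl⟩
    · rintro ⟨h1, h2⟩
      rw [h1] at h2
      exact ⟨h1, add_left_cancel h2⟩
  have s3 := submod' hQ
    (fun x => (∑ j, y j (x j).1, ∑ j, (y j (x j).1 + w j (x j).2)))
    (fun x j => y j (x j).1 + w j (x j).2)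
    (fun x => ∑ j, (y j (x j).1 + w j (x j).2))
    (fun x => (∑ j, y j (x j).1, fun j => y j (x j).1 + w j (x j).2))
    (fun a b h => by
      simp only [Prod.mk.injEq] at h
      exact h.2)
    (fun a b h => by
      simp only [funext_iff] at h
      exact sum_congr rfl fun j _ => h j)
    (fun a b _ _ h h' => by
      simp only [Prod.mk.injEq] at h ⊢
      exact ⟨h.1, h'⟩)
  -- the chain rule
  have s4 := ent_chain hQ (fun x => ∑ j, y j (x j).1) (fun x j => y j (x j).1 + w j (x j).2)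
  set κ : ∀ j, Ω₁ j × Ω₂ j → Law Γ := fun j => kap (hp j) (hq j) (hp0 j) (hq0 j) (y j) (w j)
    with hκ
  have s5 : ∀ x : ∀ j, Ω₁ j × Ω₂ j, ent (cw (pip fun j => prod (p j) (q j))
      (fun x j => y j (x j).1 + w j (x j).2) (fun j => y j (x j).1 + w j (x j).2))
      (fun x => ∑ j, y j (x j).1) = H (∏ j, κ j (x j)) := by
    intro x
    rw [cw_pip (fun j => prod (p j) (q j)) (fun j a => y j a.1 + w j a.2)
      (fun j => y j (x j).1 + w j (x j).2)]
    have : ∏ j, κ j (x j) = lawOf (isProb_pip fun j => isProb_cw (hP j)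
        (g := fun a => y j a.1 + w j a.2) (z := y j (x j).1 + w j (x j).2)
        (pr_pos (hP j) (fun a => y j a.1 + w j a.2)
          (mul_ne_zero (hp0 j (x j).1) (hq0 j (x j).2))).ne')
        (fun x => ∑ j, y j (x j).1) :=
      prod_lawOf (fun j => isProb_cw (hP j)
        (g := fun a => y j a.1 + w j a.2) (z := y j (x j).1 + w j (x j).2)
        (pr_pos (hP j) (fun a => y j a.1 + w j a.2)
          (mul_ne_zero (hp0 j (x j).1) (hq0 j (x j).2))).ne') (fun j a => y j a.1)
    rw [this, H_lawOf]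
  -- near-minimality at the fibres
  have s6 : ∀ x : ∀ j, Ω₁ j × Ω₂ j, Fn ρ η μ - ε + (1 + η / 2) * ((∑ j, H (κ j (x j))) / n) -
      η * ((∑ j, H (ρ * κ j (x j))) / n) + η / 2 * H ρ ≤ H (∏ j, κ j (x j)) := by
    intro x
    have h := hmin fun j => κ j (x j)
    have h' : Fn ρ η (fun j => κ j (x j)) = H (∏ j, κ j (x j)) -
        (1 + η / 2) * ((∑ j, H (κ j (x j))) / n) +
        η * ((∑ j, H (ρ * κ j (x j))) / n) - η / 2 * H ρ := by
      unfold Fn cst
      rw [sum_sub_distrib, ← sum_div, sum_add_distrib, sum_const, nsmul_eq_mul, card_univ,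
        ← hn]
      field_simp
      ring
    rw [h'] at h
    linarith
  -- average over `x`
  have s7 : Fn ρ η μ - ε + (1 + η / 2) * ((∑ j, (H (μ j) + H (ξ j) - H (μ j * ξ j))) / n) -
      η * ((∑ j, H (ρ * μ j)) / n) + η / 2 * H ρ ≤
      ∑ x, pip (fun j => prod (p j) (q j)) x * H (∏ j, κ j (x j)) := by
    have h1 : ∑ x, pip (fun j => prod (p j) (q j)) x *
        (Fn ρ η μ - ε + (1 + η / 2) * ((∑ j, H (κ j (x j))) / n) -
        η * ((∑ j, H (ρ * κ j (x j))) / n) + η / 2 * H ρ) ≤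
        ∑ x, pip (fun j => prod (p j) (q j)) x * H (∏ j, κ j (x j)) :=
      sum_le_sum fun x _ => mul_le_mul_of_nonneg_left (s6 x) (hQ.nonneg x)
    refine le_trans ?_ h1
    have h2 : ∑ x, pip (fun j => prod (p j) (q j)) x * (∑ j, H (κ j (x j))) =
        ∑ j, (H (μ j) + H (ξ j) - H (μ j * ξ j)) := by
      simp_rw [mul_sum]
      rw [sum_comm]
      refine sum_congr rfl fun j _ => ?_
      rw [sum_pip_coord hP j (fun a => H (κ j a))]
      have := sum_H_kap (hp j) (hq j) (hp0 j) (hq0 j) (y j) (w j)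
      rw [hy, hw] at this
      exact this
    have h3 : ∑ x, pip (fun j => prod (p j) (q j)) x * (∑ j, H (ρ * κ j (x j))) ≤
        ∑ j, H (ρ * μ j) := by
      simp_rw [mul_sum]
      rw [sum_comm]
      refine sum_le_sum fun j _ => ?_
      rw [sum_pip_coord hP j (fun a => H (ρ * κ j a))]
      have := sum_H_mul_kap (hp j) (hq j) (hp0 j) (hq0 j) (y j) (w j) ρ
      rw [hy] at this
      exact this
    have h4 : ∑ x, pip (fun j => prod (p j) (q j)) x *
        (Fn ρ η μ - ε + (1 + η / 2) * ((∑ j, H (κ j (x j))) / n) -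
        η * ((∑ j, H (ρ * κ j (x j))) / n) + η / 2 * H ρ) =
        Fn ρ η μ - ε + (1 + η / 2) * ((∑ x, pip (fun j => prod (p j) (q j)) x *
          (∑ j, H (κ j (x j)))) / n) -
        η * ((∑ x, pip (fun j => prod (p j) (q j)) x * (∑ j, H (ρ * κ j (x j)))) / n) +
        η / 2 * H ρ := by
      have h5 : ∀ x, pip (fun j => prod (p j) (q j)) x *
          (Fn ρ η μ - ε + (1 + η / 2) * ((∑ j, H (κ j (x j))) / n) -
          η * ((∑ j, H (ρ * κ j (x j))) / n) + η / 2 * H ρ) =
          pip (fun j => prod (p j) (q j)) x * (Fn ρ η μ - ε + η / 2 * H ρ) +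
          (pip (fun j => prod (p j) (q j)) x * (∑ j, H (κ j (x j)))) * ((1 + η / 2) / n) -
          (pip (fun j => prod (p j) (q j)) x * (∑ j, H (ρ * κ j (x j)))) * (η / n) := by
        intro x
        ring
      rw [sum_congr rfl fun x _ => h5 x, sum_sub_distrib, sum_add_distrib, ← sum_mul,
        ← sum_mul, ← sum_mul, hQ.sum_one]
      ring
    rw [h4, h2]
    have h6 : η * ((∑ x, pip (fun j => prod (p j) (q j)) x *
        (∑ j, H (ρ * κ j (x j)))) / n) ≤ η * ((∑ j, H (ρ * μ j)) / n) :=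
      mul_le_mul_of_nonneg_left (div_le_div_of_nonneg_right h3 hnpos.le) hη
    linarith
  -- conclusion
  have s8 : Fn ρ η μ = H (∏ j, μ j) - (1 + η / 2) * ((∑ j, H (μ j)) / n) +
      η * ((∑ j, H (ρ * μ j)) / n) - η / 2 * H ρ := by
    unfold Fn cst
    rw [sum_sub_distrib, ← sum_div, sum_add_distrib, sum_const, nsmul_eq_mul, card_univ,
      ← hn]
    field_simp
    ring
  have s9 : ∑ x, pip (fun j => prod (p j) (q j)) x * H (∏ j, κ j (x j)) =
      ent (pip fun j => prod (p j) (q j))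
        (fun x => (∑ j, y j (x j).1, fun j => y j (x j).1 + w j (x j).2)) -
      ent (pip fun j => prod (p j) (q j)) (fun x j => y j (x j).1 + w j (x j).2) := by
    rw [s4]
    refine sum_congr rfl fun x _ => ?_
    rw [← s5]
  rw [s9] at s7
  have s10 : ∑ j, (H (μ j) + H (ξ j) - H (μ j * ξ j)) =
      ∑ j, H (μ j) - ∑ j, (H (μ j * ξ j) - H (ξ j)) := by
    rw [← sum_sub_distrib]
    refine sum_congr rfl fun j _ => ?_
    ring
  rw [s10, s8, sub_div, mul_sub] at s7
  linarith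

end laws

end

end Pool.Agent.Lib.MP_dd2a7c_co
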