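import Mathlib
import Pool.Agent.Lib.MP_dd2a7c_co.Glue

section

section

/-!
Slow growth of the entropy of random unit sums at a minimizer.
-/

namespace Pool.Agent.Lib.MP_dd2a7c_co

open Finset
open scoped Classical

noncomputable section

variable {G : Type*} [Fintype G] [AddCommGroup G]
variable {R : Type*} [CommRing R] [Module R G] [Fintype Rˣ]

/-- The two by two array inequality. -/
lemma array_ineq {s1 s2 s3 s4 : G → ℝ} (h1 : IsProb s1) (h2 : IsProb s2) (h3 : IsProb s3)
    (h4 : IsProb s4) (v : R) :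
    Hc (prod (prod s1 s2) (prod s3 s4)) (fun x => x.1.1 + v • x.2.1)
      (fun x => (x.1.1 + x.1.2, x.2.1 + x.2.2)) ≤
    Hd (conv s1 (sm v s3)) + Hd (conv s2 (sm v s4)) -
      Hd (conv (conv s1 s2) (sm v (conv s3 s4))) := by
  have hp := isProb_prod (isProb_prod h1 h2) (isProb_prod h3 h4)
  set P := prod (prod s1 s2) (prod s3 s4) with hP
  have key := submod' hp (fun x : (G × G) × (G × G) => (x.1.1 + x.1.2, x.2.1 + x.2.2))
    (fun x : (G × G) × (G × G) => (x.1.1 + v • x.2.1, x.1.2 + v • x.2.2))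
    (fun x : (G × G) × (G × G) => (x.1.1 + x.1.2) + v • (x.2.1 + x.2.2))
    (fun x : (G × G) × (G × G) => (x.1.1 + v • x.2.1, (x.1.1 + x.1.2, x.2.1 + x.2.2)))
    (by
      intro x y h
      simp only [Prod.mk.injEq] at h
      rw [h.1, h.2])
    (by
      intro x y h
      simp only [Prod.mk.injEq] at h
      calc (x.1.1 + x.1.2) + v • (x.2.1 + x.2.2)
          = (x.1.1 + v • x.2.1) + (x.1.2 + v • x.2.2) := by rw [smul_add]; abel
        _ = (y.1.1 + v • y.2.1) + (y.1.2 + v • y.2.2) := by rw [h.1, h.2]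
        _ = _ := by rw [smul_add]; abel)
    (by
      intro x y _ _ ha hb
      simp only [Prod.mk.injEq] at ha hb ⊢
      exact ⟨hb.1, ha⟩)
  have e1 : ent P (fun x : (G × G) × (G × G) => (x.1.1 + v • x.2.1, x.1.2 + v • x.2.2)) =
      Hd (conv s1 (sm v s3)) + Hd (conv s2 (sm v s4)) := by
    have a1 : ent P (fun x : (G × G) × (G × G) => (x.1.1 + v • x.2.1, x.1.2 + v • x.2.2)) =
        ent (prod (prod s1 s3) (prod s2 s4))
        (fun x : (G × G) × (G × G) => ((fun y : G × G => y.1 + v • y.2) x.1,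
          (fun y : G × G => y.1 + v • y.2) x.2)) := by
      refine ent_of_equiv (Equiv.prodProdProdComm G G G G) (fun x => ?_) _ _ (fun x => ?_)
      · simp only [hP, prod, Equiv.prodProdProdComm_apply]
        ring
      · rfl
    rw [a1, ent_prod (isProb_prod h1 h3) (isProb_prod h2 h4)
      (fun y : G × G => y.1 + v • y.2) (fun y : G × G => y.1 + v • y.2)]
    rw [ent_add s1 s3 (fun g : G => g) (fun g : G => v • g),
      ent_add s2 s4 (fun g : G => g) (fun g : G => v • g)]
    congr 3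
    · exact law_id _
    · exact law_id _
  have e2 : ent P (fun x : (G × G) × (G × G) => (x.1.1 + x.1.2) + v • (x.2.1 + x.2.2)) =
      Hd (conv (conv s1 s2) (sm v (conv s3 s4))) := by
    rw [hP, ent_add (prod s1 s2) (prod s3 s4) (fun y : G × G => y.1 + y.2)
      (fun y : G × G => v • (y.1 + y.2))]
    congr 2
    unfold sm conv
    rw [law_law]
    rfl
  unfold Hc
  rw [e1, e2] at key
  linarith

lemma Hc_fst_add {s1 s2 : G → ℝ} (h1 : IsProb s1) (h2 : IsProb s2) :
    Hc (prod s1 s2) (fun x => x.1) (fun x => x.1 + x.2) = Hd s1 + Hd s2 - Hd (conv s1 s2) := by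
  unfold Hc
  rw [Hd_conv]
  have : ent (prod s1 s2) (fun x : G × G => (x.1, x.1 + x.2)) =
      ent (prod s1 s2) (fun x : G × G => (id x.1, id x.2)) := by
    refine ent_congr _ _ fun x y _ _ => ?_
    simp only [Prod.mk.injEq, id]
    constructor
    · rintro ⟨h1, h2⟩
      rw [h1] at h2
      exact ⟨h1, add_left_cancel h2⟩
    · rintro ⟨h1, h2⟩
      rw [h1, h2]
      exact ⟨rfl, rfl⟩
  rw [this, ent_prod h1 h2 id id]
  rfl

variable {η τ₀ : ℝ} {ρ : G → ℝ}

lemma pol_pointwise (hη : 0 ≤ η) (hρ : IsProb ρ)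
    (hmin : ∀ μ ν : G → ℝ, IsProb μ → IsProb ν → τ₀ ≤ tau R η ρ μ ν)
    {s1 s2 s3 s4 : G → ℝ} (h1 : IsProb s1) (h2 : IsProb s2) (h3 : IsProb s3)
    (h4 : IsProb s4) :
    av (fun v : Rˣ => Hd (conv (conv s1 s2) (sm (v : R) (conv s3 s4)))) ≤
      av (fun v : Rˣ => Hd (conv s1 (sm (v : R) s3))) +
      av (fun v : Rˣ => Hd (conv s2 (sm (v : R) s4))) -
      (1 + η) * ((Hd s1 + Hd s2 - Hd (conv s1 s2)) + (Hd s3 + Hd s4 - Hd (conv s3 s4))) / 2 +
      η * (av (fun u : Rˣ => Hd (conv ρ (sm (u : R) s1))) +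
        av (fun u : Rˣ => Hd (conv ρ (sm (u : R) s3)))) - η * Hd ρ - τ₀ := by
  have key := min_unglued (R := R) hη hρ hmin (isProb_prod h1 h2) (isProb_prod h3 h4)
    (fun x : G × G => x.1) (fun x : G × G => x.1 + x.2)
    (fun x : G × G => x.1) (fun x : G × G => x.1 + x.2)
  have b1 := av_mono (fun v : Rˣ => array_ineq h1 h2 h3 h4 (v : R))
  rw [av_sub, av_add] at b1
  rw [Hc_fst_add h1 h2, Hc_fst_add h3 h4] at key
  have l1 : law (prod s1 s2) (fun x : G × G => x.1) = s1 := by
    have := law_prod_fst s1 h2 (id : G → G)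
    rw [law_id] at this
    exact this
  have l3 : law (prod s3 s4) (fun x : G × G => x.1) = s3 := by
    have := law_prod_fst s3 h4 (id : G → G)
    rw [law_id] at this
    exact this
  rw [l1, l3] at key
  linarith

section E4

variable {L1 L2 L3 L4 : List (G → ℝ)}

lemma pol_lists (hη : 0 ≤ η) (hρ : IsProb ρ)
    (hmin : ∀ μ ν : G → ℝ, IsProb μ → IsProb ν → τ₀ ≤ tau R η ρ μ ν)
    (h1 : ∀ μ ∈ L1, IsProb μ) (h2 : ∀ μ ∈ L2, IsProb μ) (h3 : ∀ μ ∈ L3, IsProb μ)
    (h4 : ∀ μ ∈ L4, IsProb μ) :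
    AL R ((L1 ++ L2) ++ (L3 ++ L4)) ≤ AL R (L1 ++ L3) + AL R (L2 ++ L4) -
      (1 + η) * ((AL R L1 + AL R L2 - AL R (L1 ++ L2)) +
        (AL R L3 + AL R L4 - AL R (L3 ++ L4))) / 2 +
      η * (EL R L1 (fun σ => Hd (conv ρ σ)) + EL R L3 (fun σ => Hd (conv ρ σ))) -
      η * Hd ρ - τ₀ := by
  have key : EL R L1 (fun s1 => EL R L2 (fun s2 => EL R L3 (fun s3 => EL R L4 (fun s4 =>
      av (fun v : Rˣ => Hd (conv (conv s1 s2) (sm (v : R) (conv s3 s4)))))))) ≤
      EL R L1 (fun s1 => EL R L2 (fun s2 => EL R L3 (fun s3 => EL R L4 (fun s4 =>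
      av (fun v : Rˣ => Hd (conv s1 (sm (v : R) s3))) +
      av (fun v : Rˣ => Hd (conv s2 (sm (v : R) s4))) -
      (1 + η) / 2 * ((Hd s1 + Hd s2 - Hd (conv s1 s2)) + (Hd s3 + Hd s4 - Hd (conv s3 s4))) +
      η * (av (fun u : Rˣ => Hd (conv ρ (sm (u : R) s1))) +
        av (fun u : Rˣ => Hd (conv ρ (sm (u : R) s3)))) - (η * Hd ρ + τ₀))))) := by
    refine EL_mono h1 fun s1 hs1 => EL_mono h2 fun s2 hs2 => EL_mono h3 fun s3 hs3 =>
      EL_mono h4 fun s4 hs4 => ?_
    have := pol_pointwise hη hρ hmin hs1 hs2 hs3 hs4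
    linarith
  -- simplify both sides
  have sm3 : ∀ (L : List (G → ℝ)) (σ : G → ℝ), EL R L (fun τ => av (fun v : Rˣ =>
      Hd (conv σ (sm (v : R) τ)))) = EL R L (fun τ => Hd (conv σ τ)) := by
    intro L σ
    rw [EL_av]
    have : ∀ v : Rˣ, EL R L (fun τ => Hd (conv σ (sm (v : R) τ))) =
        EL R L (fun τ => Hd (conv σ τ)) := fun v => EL_sm L v (fun τ => Hd (conv σ τ))
    rw [av_congr this, av_const]
  have lhs : EL R L1 (fun s1 => EL R L2 (fun s2 => EL R L3 (fun s3 => EL R L4 (fun s4 =>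
      av (fun v : Rˣ => Hd (conv (conv s1 s2) (sm (v : R) (conv s3 s4)))))))) =
      AL R ((L1 ++ L2) ++ (L3 ++ L4)) := by
    unfold AL
    rw [EL_append, EL_append]
    congr 1
    funext s1
    congr 1
    funext s2
    rw [← sm3 (L3 ++ L4) (conv s1 s2), EL_append]
  rw [lhs] at key
  simp only [EL_add, EL_sub, EL_mul_left, EL_const] at key
  have t1 : EL R L1 (fun s1 => EL R L3 (fun s3 =>
      av (fun v : Rˣ => Hd (conv s1 (sm (v : R) s3))))) = AL R (L1 ++ L3) := by
    unfold AL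
    rw [EL_append]
    congr 1
    funext s1
    exact sm3 L3 s1
  have t2 : EL R L2 (fun s2 => EL R L4 (fun s4 =>
      av (fun v : Rˣ => Hd (conv s2 (sm (v : R) s4))))) = AL R (L2 ++ L4) := by
    unfold AL
    rw [EL_append]
    congr 1
    funext s2
    exact sm3 L4 s2
  have t3 : EL R L1 (fun s1 => EL R L2 (fun s2 => Hd (conv s1 s2))) = AL R (L1 ++ L2) := by
    unfold AL
    rw [EL_append]
  have t4 : EL R L3 (fun s1 => EL R L4 (fun s2 => Hd (conv s1 s2))) = AL R (L3 ++ L4) := by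
    unfold AL
    rw [EL_append]
  rw [t1, t2, t3, t4, sm3 L1 ρ, sm3 L3 ρ] at key
  unfold AL at *
  linarith

end E4

/-- The two lists of `2^j` laws each. -/
def PQ (μ ν : G → ℝ) : ℕ → List (G → ℝ) × List (G → ℝ)
  | 0 => ([μ], [ν])
  | j + 1 => ((PQ μ ν j).1 ++ (PQ μ ν j).2, (PQ μ ν j).2 ++ (PQ μ ν j).1)

lemma PQ_isProb {μ ν : G → ℝ} (hμ : IsProb μ) (hν : IsProb ν) (j : ℕ) :
    (∀ σ ∈ (PQ μ ν j).1, IsProb σ) ∧ (∀ σ ∈ (PQ μ ν j).2, IsProb σ) := by
  induction j with
  | zero => simp [PQ, hμ, hν]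
  | succ j ih =>
    simp only [PQ, List.mem_append]
    exact ⟨fun σ h => h.elim (ih.1 σ) (ih.2 σ), fun σ h => h.elim (ih.2 σ) (ih.1 σ)⟩

lemma PQ_mem (μ ν : G → ℝ) (j : ℕ) : μ ∈ (PQ μ ν j).1 ∧ ν ∈ (PQ μ ν j).2 := by
  induction j with
  | zero => simp [PQ]
  | succ j ih =>
    simp only [PQ, List.mem_append]
    exact ⟨Or.inl ih.1, Or.inl ih.2⟩

variable (R) in
/-- `hs 0` is the mean entropy of `μ` and `ν`, and `hs (j+1)` is the average entropy of random unit
sums of `2^j` copies of each. -/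
def hs (μ ν : G → ℝ) : ℕ → ℝ
  | 0 => (Hd μ + Hd ν) / 2
  | j + 1 => AL R ((PQ μ ν j).1 ++ (PQ μ ν j).2)

lemma hs_succ_fst (μ ν : G → ℝ) (j : ℕ) : AL R (PQ μ ν (j + 1)).1 = hs R μ ν (j + 1) := rfl

lemma hs_succ_snd (μ ν : G → ℝ) (j : ℕ) : AL R (PQ μ ν (j + 1)).2 = hs R μ ν (j + 1) :=
  AL_perm List.perm_append_comm

lemma hs_sum (μ ν : G → ℝ) (j : ℕ) :
    AL R (PQ μ ν j).1 + AL R (PQ μ ν j).2 = 2 * hs R μ ν j := by
  cases j with
  | zero =>
    simp only [PQ, AL_singleton, hs]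
    ring
  | succ j =>
    rw [hs_succ_fst, hs_succ_snd]
    ring

lemma EL_conv_le_of_mem {ρ μ : G → ℝ} {L : List (G → ℝ)} (hρ : IsProb ρ)
    (hL : ∀ ν ∈ L, IsProb ν) (hμ : μ ∈ L) :
    EL R L (fun σ => Hd (conv ρ σ)) ≤
      av (fun u : Rˣ => Hd (conv ρ (sm (u : R) μ))) + AL R L - Hd μ := by
  have hp := List.perm_cons_erase hμ
  rw [AL_perm hp, EL_perm hp]
  refine EL_conv_le hρ (hL μ hμ) fun ν hν => hL ν (List.mem_of_mem_erase hν)

/-- The recursion for the entropies of random unit sums at a minimizer. -/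
lemma hs_rec (hη : 0 ≤ η) (hρ : IsProb ρ) {μ ν : G → ℝ} (hμ : IsProb μ) (hν : IsProb ν)
    (hmin : ∀ μ' ν' : G → ℝ, IsProb μ' → IsProb ν' → tau R η ρ μ ν ≤ tau R η ρ μ' ν') (j : ℕ) :
    hs R μ ν (j + 2) - hs R μ ν (j + 1) ≤ 2 * (hs R μ ν (j + 1) - hs R μ ν j) - DD R μ ν +
      η * (hs R μ ν (j + 1) - hs R μ ν 0) := by
  obtain ⟨hP, hQ⟩ := PQ_isProb hμ hν j
  obtain ⟨mP, mQ⟩ := PQ_mem μ ν j
  have key := pol_lists (R := R) hη hρ hmin hP hQ hQ hP
  have e1 := EL_conv_le_of_mem (R := R) hρ hP mP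
  have e2 := EL_conv_le_of_mem (R := R) hρ hQ mQ
  have hsum := hs_sum (R := R) μ ν j
  have a1 : AL R ((PQ μ ν j).1 ++ (PQ μ ν j).2) = hs R μ ν (j + 1) := rfl
  have a2 : AL R ((PQ μ ν j).2 ++ (PQ μ ν j).1) = hs R μ ν (j + 1) := hs_succ_snd μ ν j
  have a3 : AL R (((PQ μ ν j).1 ++ (PQ μ ν j).2) ++ ((PQ μ ν j).2 ++ (PQ μ ν j).1)) =
    hs R μ ν (j + 2) := rfl
  rw [a1, a2, a3] at key
  have ht := tau_expand (R := R) η ρ μ ν
  have hD : DD R μ ν = av (fun u : Rˣ => Hd (conv μ (sm (u : R) ν))) - (Hd μ + Hd ν) / 2 := rfl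
  have h0 : hs R μ ν 0 = (Hd μ + Hd ν) / 2 := rfl
  rw [← hD] at ht
  have hA : AL R (PQ μ ν j).1 = 2 * hs R μ ν j - AL R (PQ μ ν j).2 := by linarith
  rw [ht] at key
  have e12 := add_le_add e1 e2
  have e12' := mul_le_mul_of_nonneg_left e12 hη
  rw [hA] at key e12'
  nlinarith

lemma hs_one_sub_zero {μ ν : G → ℝ} (hμ : IsProb μ) (hν : IsProb ν) :
    hs R μ ν 1 - hs R μ ν 0 = DD R μ ν := by
  have h1 : hs R μ ν 1 = av (fun u : Rˣ => Hd (conv μ (sm (u : R) ν))) := by
    simp only [hs, PQ, AL, EL, List.cons_append, List.nil_append, conv_delta]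
    have : ∀ u : Rˣ, av (fun v : Rˣ => Hd (conv (sm (u : R) μ) (sm (v : R) ν))) =
        av (fun v : Rˣ => Hd (conv μ (sm (v : R) ν))) := by
      intro u
      refine av_equiv (Equiv.mulLeft u⁻¹) _ _ fun v => ?_
      rw [← Hd_sm_unit (u⁻¹) (conv (sm (u : R) μ) (sm (v : R) ν)), sm_conv, sm_sm, sm_sm,
        Units.inv_mul, sm_one]
      rfl
    rw [av_congr this, av_const]
  rw [h1]
  rfl

/-- Slow growth. -/
lemma hs_le (hη : 0 ≤ η) (hρ : IsProb ρ) {μ ν : G → ℝ} (hμ : IsProb μ) (hν : IsProb ν)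
    (hmin : ∀ μ' ν' : G → ℝ, IsProb μ' → IsProb ν' → tau R η ρ μ ν ≤ tau R η ρ μ' ν')
    (J : ℕ) (hJ : η * 4 ^ J ≤ 1) :
    ∀ j ≤ J, hs R μ ν (j + 1) - hs R μ ν j ≤ DD R μ ν * (1 + η * (4 ^ j - 1)) ∧
      hs R μ ν (j + 1) - hs R μ ν 0 ≤ 2 * (j + 1) * DD R μ ν := by
  have hk : 0 ≤ DD R μ ν := DD_nonneg hμ hν
  intro j
  induction j with
  | zero =>
    intro _
    have := hs_one_sub_zero (R := R) hμ hν
    constructor
    · rw [zero_add, this]
      simp
    · rw [zero_add, this]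
      push_cast
      linarith
  | succ j ih =>
    intro hj
    obtain ⟨i1, i2⟩ := ih (by omega)
    have hrec := hs_rec (R := R) hη hρ hμ hν hmin j
    have hpow : (2 : ℝ) * j + 1 ≤ 2 * 4 ^ j := by
      have : ∀ n : ℕ, (2 : ℝ) * n + 1 ≤ 2 * 4 ^ n := by
        intro n
        induction n with
        | zero => norm_num
        | succ n ihn =>
          have : (1 : ℝ) ≤ 4 ^ n := one_le_pow₀ (by norm_num)
          push_cast
          rw [pow_succ]
          linarith
      exact this j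
    have c1 : hs R μ ν (j + 1 + 1) - hs R μ ν (j + 1) ≤
        DD R μ ν * (1 + η * (4 ^ (j + 1) - 1)) := by
      have hηk : 0 ≤ η * DD R μ ν := mul_nonneg hη hk
      have := mul_le_mul_of_nonneg_left i2 hη
      have hp4 : (4 : ℝ) ^ (j + 1) = 4 * 4 ^ j := by rw [pow_succ]; ring
      rw [hp4]
      have h2 := mul_le_mul_of_nonneg_left hpow hηk
      nlinarith
    refine ⟨c1, ?_⟩
    have hmono : η * 4 ^ (j + 1) ≤ 1 := by
      refine le_trans (mul_le_mul_of_nonneg_left ?_ hη) hJ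
      exact pow_le_pow_right₀ (by norm_num) hj
    have c2 : DD R μ ν * (1 + η * (4 ^ (j + 1) - 1)) ≤ DD R μ ν * 2 := by
      refine mul_le_mul_of_nonneg_left ?_ hk
      nlinarith
    push_cast
    linarith

end

end Pool.Agent.Lib.MP_dd2a7c_co
end

section

/-!
Product weights on `Fin N → G`, linear forms, and bounds for linear forms with arbitrary
coefficients.
-/

namespace Pool.Agent.Lib.MP_dd2a7c_co

open Finset
open scoped Classical

noncomputable section

lemma av_prod {ι κ : Type*} [Fintype ι] [Fintype κ] (φ : ι × κ → ℝ) :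
    av φ = av (fun i => av (fun j => φ (i, j))) := by
  unfold av
  rw [Fintype.sum_prod_type, ← sum_div, div_div, Fintype.card_prod, Nat.cast_mul, mul_comm]

section piw

variable {G : Type*} [Fintype G] {N : ℕ}

/-- Product weights. -/
def piw (m : Fin N → G → ℝ) : (Fin N → G) → ℝ := fun x => ∏ i, m i (x i)

lemma piw_cons (m : Fin (N + 1) → G → ℝ) (a : G) (x : Fin N → G) :
    piw m (Fin.cons a x : Fin (N + 1) → G) = m 0 a * piw (fun i => m i.succ) x := by
  unfold piw
  rw [Fin.prod_univ_succ]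
  simp

lemma isProb_piw {m : Fin N → G → ℝ} (hm : ∀ i, IsProb (m i)) : IsProb (piw m) where
  nonneg x := prod_nonneg fun i _ => (hm i).nonneg _
  sum_one := by
    induction N with
    | zero => simp [piw]
    | succ N ih =>
      rw [← (Fin.consEquiv (fun _ : Fin (N + 1) => G)).sum_comp, Fintype.sum_prod_type]
      have : ∀ (a : G) (y : Fin N → G), piw m (Fin.consEquiv (fun _ => G) (a, y)) =
          m 0 a * piw (fun i => m i.succ) y := fun a y => piw_cons m a y
      simp only [this]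
      simp_rw [← mul_sum, ih fun i => hm i.succ, mul_one]
      exact (hm 0).sum_one

lemma ent_piw_id {m : Fin N → G → ℝ} (hm : ∀ i, IsProb (m i)) :
    ent (piw m) (fun x => x) = ∑ i, Hd (m i) := by
  induction N with
  | zero =>
    have : (fun x : Fin 0 → G => x) = (fun _ => (Fin.elim0 : Fin 0 → G)) := by
      funext x i
      exact i.elim0
    rw [this, ent_const (isProb_piw hm)]
    simp
  | succ N ih =>
    have hm' : ∀ i : Fin N, IsProb (m i.succ) := fun i => hm i.succ
    rw [Fin.sum_univ_succ, ← ih hm']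
    have h1 := ent_prod (hm 0) (isProb_piw hm') (id : G → G) (fun x : Fin N → G => x)
    have h2 : ent (piw m) (fun x => x) = ent (prod (m 0) (piw fun i => m i.succ))
        (fun y : G × (Fin N → G) => (Fin.cons y.1 y.2 : Fin (N + 1) → G)) := by
      symm
      refine ent_of_equiv (Fin.consEquiv (fun _ : Fin (N + 1) => G)) (fun y => ?_) _ _
        (fun y => rfl)
      exact piw_cons m y.1 y.2
    rw [h2]
    have h3 : ent (prod (m 0) (piw fun i => m i.succ))
        (fun y : G × (Fin N → G) => (Fin.cons y.1 y.2 : Fin (N + 1) → G)) =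
        ent (prod (m 0) (piw fun i => m i.succ)) (fun y => (id y.1, y.2)) := by
      refine ent_congr _ _ fun y z _ _ => ?_
      rw [Fin.cons_inj]
      simp only [Prod.mk.injEq, id]
    rw [h3, h1]
    rfl

end piw

section forms

variable {G : Type*} [Fintype G] [AddCommGroup G]
variable {R : Type*} [CommRing R] [Module R G]

/-- Law of `∑ wᵢ • Xᵢ`. -/
def wcv : ∀ {N : ℕ}, (Fin N → R) → (Fin N → G → ℝ) → (G → ℝ)
  | 0, _, _ => delta
  | _ + 1, w, m => conv (sm (w 0) (m 0)) (wcv (fun i => w i.succ) (fun i => m i.succ))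

lemma isProb_wcv {N : ℕ} (w : Fin N → R) {m : Fin N → G → ℝ} (hm : ∀ i, IsProb (m i)) :
    IsProb (wcv w m) := by
  induction N with
  | zero => exact isProb_delta
  | succ N ih => exact isProb_conv (isProb_sm _ (hm 0)) (ih _ fun i => hm i.succ)

lemma law_sum_smul {N : ℕ} (w : Fin N → R) {m : Fin N → G → ℝ} :
    law (piw m) (fun x => ∑ i, w i • x i) = wcv w m := by
  induction N with
  | zero =>
    funext g
    simp [law, pr, piw, wcv, delta, eq_comm]
  | succ N ih =>
    have h1 : law (piw m) (fun x => ∑ i, w i • x i) =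
        law (prod (m 0) (piw fun i => m i.succ))
        (fun y : G × (Fin N → G) => w 0 • y.1 + ∑ i : Fin N, w i.succ • y.2 i) := by
      symm
      refine law_of_equiv (Fin.consEquiv (fun _ : Fin (N + 1) => G)) (fun y => ?_) _ _
        (fun y => ?_)
      · exact piw_cons m y.1 y.2
      · rw [Fin.sum_univ_succ]
        simp [Fin.consEquiv]
    rw [h1, law_add (m 0) (piw fun i => m i.succ) (fun g : G => w 0 • g)
      (fun y : Fin N → G => ∑ i : Fin N, w i.succ • y i), ih]
    rfl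

end forms

section cov

variable {G : Type*} [Fintype G] [AddCommGroup G]
variable {R : Type*} [CommRing R] [Module R G] [Fintype Rˣ]

lemma av_fin_succ {N : ℕ} (φ : (Fin (N + 1) → Rˣ) → ℝ) :
    av φ = av (fun u : Rˣ => av (fun c : Fin N → Rˣ => φ (Fin.cons u c))) := by
  rw [← av_prod (fun y : Rˣ × (Fin N → Rˣ) => φ (Fin.cons y.1 y.2))]
  symm
  exact av_equiv (Fin.consEquiv (fun _ : Fin (N + 1) => Rˣ)) _ _ (fun y => rfl)

/-- Monotonicity of a functional under adding independent variables. -/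
def Mon (φ : (G → ℝ) → ℝ) : Prop := ∀ σ τ, IsProb σ → IsProb τ → φ σ ≤ φ (conv τ σ)

lemma Mon.conv_left {φ : (G → ℝ) → ℝ} (h : Mon φ) {s : G → ℝ} (hs : IsProb s) :
    Mon (fun σ => φ (conv s σ)) := by
  intro σ τ hσ hτ
  have := h (conv s σ) τ (isProb_conv hs hσ) hτ
  rwa [conv_left_comm] at this

lemma mon_EL {X : List (G → ℝ)} (hX : ∀ μ ∈ X, IsProb μ) :
    Mon (fun σ : G → ℝ => EL R X (fun τ => Hd (conv σ τ))) := by
  intro σ τ hσ hτ
  refine EL_mono hX fun υ hυ => ?_
  rw [conv_assoc]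
  exact Hd_le_conv_right hτ (isProb_conv hσ hυ)

lemma cov {N : ℕ} {v : Fin N → R} (hv : ∀ i, v i = 0 ∨ IsUnit (v i)) {m : Fin N → G → ℝ}
    (hm : ∀ i, IsProb (m i)) {φ : (G → ℝ) → ℝ} (hφ : Mon φ) :
    av (fun c : Fin N → Rˣ => φ (wcv (fun i => (c i : R) * v i) m)) ≤
      EL R (List.ofFn m) φ := by
  induction N generalizing φ with
  | zero =>
    simp only [wcv, List.ofFn_zero, EL]
    rw [av_const]
  | succ N ih =>
    rw [av_fin_succ, List.ofFn_succ, EL]
    simp only [wcv, Fin.cons_zero, Fin.cons_succ]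
    have hm' : ∀ i : Fin N, IsProb (m i.succ) := fun i => hm i.succ
    have hv' : ∀ i : Fin N, v i.succ = 0 ∨ IsUnit (v i.succ) := fun i => hv i.succ
    have step : ∀ u : Rˣ, av (fun c : Fin N → Rˣ =>
        φ (conv (sm (u : R) (m 0)) (wcv (fun i => (c i : R) * v i.succ) fun i => m i.succ))) ≤
        EL R (List.ofFn fun i => m i.succ) (fun σ => φ (conv (sm (u : R) (m 0)) σ)) :=
      fun u => ih hv' hm' (hφ.conv_left (isProb_sm _ (hm 0)))
    rcases hv 0 with h0 | ⟨w, hw⟩
    · refine av_mono fun u => le_trans ?_ (step u)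
      refine av_mono fun c => ?_
      rw [h0, mul_zero, sm_zero (hm 0), delta_conv]
      exact hφ _ _ (isProb_wcv _ hm') (isProb_sm _ (hm 0))
    · refine le_trans (le_of_eq ?_) (av_mono step)
      refine av_equiv (Equiv.mulRight w) _ (fun u : Rˣ => av (fun c : Fin N → Rˣ =>
        φ (conv (sm (u : R) (m 0)) (wcv (fun i => (c i : R) * v i.succ) fun i => m i.succ))))
        fun u => ?_
      simp [hw]

lemma cov_AL {N : ℕ} {v : Fin N → R} (hv : ∀ i, v i = 0 ∨ IsUnit (v i)) {m : Fin N → G → ℝ}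
    (hm : ∀ i, IsProb (m i)) {X : List (G → ℝ)} (hX : ∀ μ ∈ X, IsProb μ) :
    av (fun c : Fin N → Rˣ => EL R X (fun τ => Hd (conv (wcv (fun i => (c i : R) * v i) m) τ))) ≤
      AL R (List.ofFn m ++ X) := by
  unfold AL
  rw [EL_append]
  exact cov hv hm (mon_EL hX)

/-- Splitting a sum of three dependent variables. -/
lemma triple {Ω : Type*} [Fintype Ω] {p : Ω → ℝ} (hp : IsProb p) (A₁ A₂ A₃ : Ω → G)
    {y z₁ z₂ : G → ℝ} (hy : IsProb y) (hz₁ : IsProb z₁) (hz₂ : IsProb z₂) :
    Hd (conv (law p (fun ω => A₁ ω + A₂ ω + A₃ ω)) y) ≤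
      Hd (conv (law p A₁) (conv y z₁)) +
      Hd (conv (law p A₂) (conv (sm (-1 : R) z₁) z₂)) +
      Hd (conv (law p A₃) (sm (-1 : R) z₂)) - Hd z₁ - Hd z₂ := by
  have hpy := isProb_prod hp hy
  have hpz := isProb_prod hp hz₁
  have t1 := triangle hpy (fun x : Ω × G => A₁ x.1 + x.2) (fun x : Ω × G => A₂ x.1 + A₃ x.1) hz₁
  have t2 := triangle hpz (fun x : Ω × G => A₂ x.1 - x.2) (fun x : Ω × G => A₃ x.1) hz₂
  have e1 : ent (prod p y) (fun x => A₁ x.1 + x.2 + (A₂ x.1 + A₃ x.1)) =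
      Hd (conv (law p (fun ω => A₁ ω + A₂ ω + A₃ ω)) y) := by
    have := ent_add p y (fun ω => A₁ ω + A₂ ω + A₃ ω) (fun g : G => g)
    rw [show law y (fun g : G => g) = y from law_id y] at this
    rw [← this]
    congr 1
    funext x
    abel
  have e2 : ent (prod (prod p y) z₁) (fun x => A₁ x.1.1 + x.1.2 + x.2) =
      Hd (conv (law p A₁) (conv y z₁)) := by
    rw [ent_add (prod p y) z₁ (fun x : Ω × G => A₁ x.1 + x.2) (fun g : G => g),
      law_add p y A₁ (fun g : G => g), show law y (fun g : G => g) = y from law_id y,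
      show law z₁ (fun g : G => g) = z₁ from law_id z₁, conv_assoc]
  have e3 : ent (prod (prod p y) z₁) (fun x => A₂ x.1.1 + A₃ x.1.1 - x.2) =
      Hd (conv (law p (fun ω => A₂ ω + A₃ ω)) (sm (-1 : R) z₁)) := by
    have h := ent_add (prod p y) z₁ (fun x : Ω × G => A₂ x.1 + A₃ x.1) (fun g : G => (-1 : R) • g)
    rw [show law (prod p y) (fun x : Ω × G => A₂ x.1 + A₃ x.1) =
      law p (fun ω => A₂ ω + A₃ ω) from law_prod_fst p hy (fun ω => A₂ ω + A₃ ω)] at h
    rw [show sm (-1 : R) z₁ = law z₁ (fun g : G => (-1 : R) • g) from rfl, ← h]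
    congr 1
    funext x
    simp [sub_eq_add_neg]
  have e4 : ent (prod p z₁) (fun x => A₂ x.1 - x.2 + A₃ x.1) =
      Hd (conv (law p (fun ω => A₂ ω + A₃ ω)) (sm (-1 : R) z₁)) := by
    have h := ent_add p z₁ (fun ω => A₂ ω + A₃ ω) (fun g : G => (-1 : R) • g)
    rw [show sm (-1 : R) z₁ = law z₁ (fun g : G => (-1 : R) • g) from rfl, ← h]
    congr 1
    funext x
    simp only [neg_smul, one_smul]
    abel
  have e5 : ent (prod (prod p z₁) z₂) (fun x => A₂ x.1.1 - x.1.2 + x.2) =
      Hd (conv (law p A₂) (conv (sm (-1 : R) z₁) z₂)) := by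
    have h := ent_add (prod p z₁) z₂ (fun x : Ω × G => A₂ x.1 + (-1 : R) • x.2) (fun g : G => g)
    rw [law_add p z₁ A₂ (fun g : G => (-1 : R) • g),
      show law z₂ (fun g : G => g) = z₂ from law_id z₂, conv_assoc] at h
    rw [show sm (-1 : R) z₁ = law z₁ (fun g : G => (-1 : R) • g) from rfl, ← h]
    congr 1
    funext x
    simp [sub_eq_add_neg]
  have e6 : ent (prod (prod p z₁) z₂) (fun x => A₃ x.1.1 - x.2) =
      Hd (conv (law p A₃) (sm (-1 : R) z₂)) := by
    have h := ent_add (prod p z₁) z₂ (fun x : Ω × G => A₃ x.1) (fun g : G => (-1 : R) • g)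
    rw [show law (prod p z₁) (fun x : Ω × G => A₃ x.1) = law p A₃ from
      law_prod_fst p hz₁ A₃] at h
    rw [show sm (-1 : R) z₂ = law z₂ (fun g : G => (-1 : R) • g) from rfl, ← h]
    congr 1
    funext x
    simp [sub_eq_add_neg]
  rw [e1, e2, e3] at t1
  rw [e4, e5, e6] at t2
  linarith

/-- Averaged version of `triple`. -/
lemma triple_av {Ω : Type*} [Fintype Ω] {p : Ω → ℝ} (hp : IsProb p) (A₁ A₂ A₃ : Ω → G)
    {y z₁ z₂ : G → ℝ} (hy : IsProb y) (hz₁ : IsProb z₁) (hz₂ : IsProb z₂) :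
    EL R [y] (fun τ => Hd (conv (law p (fun ω => A₁ ω + A₂ ω + A₃ ω)) τ)) ≤
      EL R [y, z₁] (fun τ => Hd (conv (law p A₁) τ)) +
      EL R [z₁, z₂] (fun τ => Hd (conv (law p A₂) τ)) +
      EL R [z₂] (fun τ => Hd (conv (law p A₃) τ)) - Hd z₁ - Hd z₂ := by
  simp only [EL, conv_delta]
  have neg1 : ∀ ψ : (G → ℝ) → ℝ, ∀ z : G → ℝ, av (fun b : Rˣ => ψ (sm (-1 : R) (sm (b : R) z))) =
      av (fun b : Rˣ => ψ (sm (b : R) z)) := by
    intro ψ z
    refine av_equiv (Equiv.mulLeft (-1 : Rˣ)) _ (fun b : Rˣ => ψ (sm (b : R) z)) fun b => ?_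
    rw [sm_sm]
    simp
  have key : av (fun u : Rˣ => av (fun b : Rˣ => av (fun b' : Rˣ =>
      Hd (conv (law p (fun ω => A₁ ω + A₂ ω + A₃ ω)) (sm (u : R) y))))) ≤
      av (fun u : Rˣ => av (fun b : Rˣ => av (fun b' : Rˣ =>
      Hd (conv (law p A₁) (conv (sm (u : R) y) (sm (b : R) z₁))) +
      Hd (conv (law p A₂) (conv (sm (-1 : R) (sm (b : R) z₁)) (sm (b' : R) z₂))) +
      Hd (conv (law p A₃) (sm (-1 : R) (sm (b' : R) z₂))) - (Hd z₁ + Hd z₂)))) := by
    refine av_mono fun u => av_mono fun b => av_mono fun b' => ?_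
    have := triple (R := R) hp A₁ A₂ A₃ (isProb_sm (u : R) hy) (isProb_sm (b : R) hz₁)
      (isProb_sm (b' : R) hz₂)
    rw [Hd_sm_unit, Hd_sm_unit] at this
    linarith
  simp only [av_add, av_sub, av_const] at key
  rw [neg1 (fun τ => av (fun b' : Rˣ => Hd (conv (law p A₂) (conv τ (sm (b' : R) z₂))))) z₁,
    neg1 (fun τ => Hd (conv (law p A₃) τ)) z₂] at key
  linarith

end cov

end

end Pool.Agent.Lib.MP_dd2a7c_co
end

section

/-!
Random flags of linear forms over `GL N R`, and the main inequality.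
-/

namespace Pool.Agent.Lib.MP_dd2a7c_co

open Finset
open scoped Classical

noncomputable section

/-- A concave sequence argument. -/
lemma concave_seq (f : ℕ → ℝ) (n : ℕ) (hn : 0 < n) (h β : ℝ) (h0 : f 0 = 0)
    (hN : f (2 * n) = 2 * n * h) (h1 : f 1 ≤ β)
    (hc : ∀ s, s + 2 ≤ 2 * n → f (s + 2) + f s ≤ 2 * f (s + 1)) :
    ∃ s, s < n ∧ (f (s + 1) - f s) - (f (s + 2) - f (s + 1)) ≤ 2 * (β - h) / n ∧
      2 * h - β ≤ f (s + 2) - f (s + 1) := by
  set b : ℕ → ℝ := fun s => f (s + 1) - f s with hb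
  have hanti : ∀ s, s + 2 ≤ 2 * n → b (s + 1) ≤ b s := by
    intro s hs
    have := hc s hs
    simp only [hb]
    have e : f (s + 1 + 1) = f (s + 2) := rfl
    linarith
  have hanti' : ∀ t s, s ≤ t → t + 1 ≤ 2 * n → b t ≤ b s := by
    intro t
    induction t with
    | zero =>
      intro s hs _
      have : s = 0 := by omega
      rw [this]
    | succ t ih =>
      intro s hs ht
      rcases Nat.lt_or_ge t s with h | h
      · have : s = t + 1 := by omega
        rw [this]
      · exact (hanti t (by omega)).trans (ih s h (by omega))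
  have hsum : ∀ k, ∑ s ∈ range k, b s = f k - f 0 := fun k => sum_range_sub f k
  have hb0 : b 0 ≤ β := by
    simp only [hb, zero_add, h0, sub_zero]
    exact h1
  have hnR : (0 : ℝ) < n := Nat.cast_pos.2 hn
  -- the first half
  have hfirst : ∑ s ∈ range n, b s ≤ n * β := by
    calc ∑ s ∈ range n, b s ≤ ∑ s ∈ range n, β :=
          sum_le_sum fun s hs => (hanti' s 0 (Nat.zero_le _) (by
            have := mem_range.1 hs
            omega)).trans hb0
      _ = n * β := by simp
  have hsecond : ∑ s ∈ range n, b (n + s) ≤ n * b n := by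
    calc ∑ s ∈ range n, b (n + s) ≤ ∑ s ∈ range n, b n :=
          sum_le_sum fun s hs => hanti' (n + s) n (by omega) (by
            have := mem_range.1 hs
            omega)
      _ = n * b n := by simp
  have htot : ∑ s ∈ range n, b s + ∑ s ∈ range n, b (n + s) = 2 * n * h := by
    rw [← sum_range_add b n n, hsum, h0, sub_zero, ← two_mul, hN]
  have hbn : 2 * h - β ≤ b n := by
    have h3 : (n : ℝ) * (2 * h) ≤ n * (β + b n) := by nlinarith
    have := le_of_mul_le_mul_left h3 hnR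
    linarith
  have htel : ∑ s ∈ range n, (b s - b (s + 1)) = b 0 - b n := sum_range_sub' b n
  obtain ⟨s, hs, hle⟩ : ∃ s ∈ range n, (b s - b (s + 1)) ≤ 2 * (β - h) / n := by
    by_contra hcon
    push Not at hcon
    have : ∑ s ∈ range n, (2 * (β - h) / n) < ∑ s ∈ range n, (b s - b (s + 1)) :=
      sum_lt_sum_of_nonempty (nonempty_range_iff.2 hn.ne') hcon
    rw [htel, sum_const, card_range, nsmul_eq_mul, mul_div_cancel₀ _ hnR.ne'] at this
    linarith
  refine ⟨s, mem_range.1 hs, hle, ?_⟩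
  have hs' := mem_range.1 hs
  exact hbn.trans (hanti' n (s + 1) (by omega) (by omega))

section act

variable {G : Type*} [AddCommGroup G]
variable {R : Type*} [CommRing R] [Module R G] {N : ℕ}

/-- Action of a matrix on `G^N`. -/
def act (M : Matrix (Fin N) (Fin N) R) (x : Fin N → G) : Fin N → G :=
  fun i => ∑ j, M i j • x j

lemma act_mul (A B : Matrix (Fin N) (Fin N) R) (x : Fin N → G) :
    act (A * B) x = act A (act B x) := by
  funext i
  unfold act
  simp only [Matrix.mul_apply, Finset.sum_smul, smul_sum, smul_smul]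
  rw [sum_comm]

lemma act_one (x : Fin N → G) : act (1 : Matrix (Fin N) (Fin N) R) x = x := by
  funext i
  unfold act
  rw [sum_eq_single i]
  · simp
  · intro j _ hj
    rw [Matrix.one_apply_ne (Ne.symm hj), zero_smul]
  · simp

lemma act_injective (M : GL (Fin N) R) :
    Function.Injective (act (G := G) (M : Matrix (Fin N) (Fin N) R)) := by
  intro x y h
  have := congrArg (act (G := G) ((M⁻¹ : GL (Fin N) R) : Matrix (Fin N) (Fin N) R)) h
  rw [← act_mul, ← act_mul, Units.inv_mul, act_one, act_one] at this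
  exact this

lemma act_transvection (i j : Fin N) (c : R) (y : Fin N → G) :
    act (Matrix.transvection i j c) y = fun k => if k = i then y k + c • y j else y k := by
  funext k
  unfold act Matrix.transvection
  simp only [Matrix.add_apply, add_smul, sum_add_distrib]
  have h1 : ∑ l, (1 : Matrix (Fin N) (Fin N) R) k l • y l = y k := congrFun (act_one (R := R) y) k
  rw [h1]
  by_cases hk : k = i
  · rw [if_pos hk, hk]
    congr 1
    rw [sum_eq_single j]
    · simp
    · intro l _ hl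
      rw [Matrix.single_apply, if_neg (fun h => hl h.2.symm), zero_smul]
    · simp
  · rw [if_neg hk]
    rw [sum_eq_zero, add_zero]
    intro l _
    rw [Matrix.single_apply, if_neg (fun h => hk h.1.symm), zero_smul]

/-- Transvections as elements of the general linear group. -/
def tv (i j : Fin N) (h : i ≠ j) (c : R) : GL (Fin N) R where
  val := Matrix.transvection i j c
  inv := Matrix.transvection i j (-c)
  val_inv := by
    rw [Matrix.transvection_mul_transvection_same i j h]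
    simp
  inv_val := by
    rw [Matrix.transvection_mul_transvection_same i j h]
    simp

/-- Diagonal matrices as elements of the general linear group. -/
def dg (c : Fin N → Rˣ) : GL (Fin N) R where
  val := Matrix.diagonal fun i => (c i : R)
  inv := Matrix.diagonal fun i => ((c i)⁻¹ : Rˣ)
  val_inv := by
    rw [Matrix.diagonal_mul_diagonal]
    simp
  inv_val := by
    rw [Matrix.diagonal_mul_diagonal]
    simp

/-- Keep the first `s` coordinates. -/
def mask (s : ℕ) (y : Fin N → G) : Fin N → G := fun i => if (i : ℕ) < s then y i else 0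

lemma mask_eq_iff (s : ℕ) (y z : Fin N → G) :
    mask s y = mask s z ↔ ∀ i : Fin N, (i : ℕ) < s → y i = z i := by
  constructor
  · intro h i hi
    have := congrFun h i
    unfold mask at this
    rwa [if_pos hi, if_pos hi] at this
  · intro h
    funext i
    unfold mask
    by_cases hi : (i : ℕ) < s
    · rw [if_pos hi, if_pos hi, h i hi]
    · rw [if_neg hi, if_neg hi]

end act

section main

variable {G : Type*} [Fintype G] [AddCommGroup G]
variable {R : Type*} [CommRing R] [Module R G] [Fintype Rˣ] {N : ℕ} [Fintype (GL (Fin N) R)]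

lemma av_GL_left (g : GL (Fin N) R) (φ : GL (Fin N) R → ℝ) :
    av (fun M => φ (g * M)) = av φ :=
  av_equiv (Equiv.mulLeft g) _ _ fun _ => rfl

lemma av_GL_right (g : GL (Fin N) R) (φ : GL (Fin N) R → ℝ) :
    av (fun M => φ (M * g)) = av φ :=
  av_equiv (Equiv.mulRight g) _ _ fun _ => rfl

variable (R) in
/-- Average joint entropy of the first `s` random forms. -/
def fs (m : Fin N → G → ℝ) (s : ℕ) : ℝ :=
  av (fun M : GL (Fin N) R =>
    ent (piw m) (fun x => mask s (act (M : Matrix (Fin N) (Fin N) R) x)))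

variable {m : Fin N → G → ℝ}

lemma fs_zero (hm : ∀ i, IsProb (m i)) : fs R m 0 = 0 := by
  unfold fs
  have : ∀ M : GL (Fin N) R, ent (piw m)
      (fun x => mask 0 (act (M : Matrix (Fin N) (Fin N) R) x)) = 0 := by
    intro M
    have h : (fun x : Fin N → G => mask 0 (act (M : Matrix (Fin N) (Fin N) R) x)) =
        fun _ => (0 : Fin N → G) := by
      funext x i
      simp [mask]
    rw [h, ent_const (isProb_piw hm)]
  rw [av_congr this, av_const]

lemma fs_top (hm : ∀ i, IsProb (m i)) : fs R m N = ∑ i, Hd (m i) := by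
  unfold fs
  have : ∀ M : GL (Fin N) R, ent (piw m)
      (fun x => mask N (act (M : Matrix (Fin N) (Fin N) R) x)) = ∑ i, Hd (m i) := by
    intro M
    rw [← ent_piw_id hm]
    refine ent_congr _ _ fun x y _ _ => ?_
    rw [mask_eq_iff]
    constructor
    · intro h
      exact act_injective M (funext fun i => h i i.2)
    · intro h i _
      rw [h]
  rw [av_congr this, av_const]

/-- By invariance, any suitable combination of rows `s` and `s + 1` may replace row `s`. -/
lemma fs_comb (m : Fin N → G → ℝ) (s : ℕ) (h0 : s < N) (h1 : s + 1 < N) (c : R) :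
    av (fun M : GL (Fin N) R => ent (piw m) (fun x =>
      ((1 + c) • act (M : Matrix (Fin N) (Fin N) R) x ⟨s, h0⟩ +
        act (M : Matrix (Fin N) (Fin N) R) x ⟨s + 1, h1⟩,
        mask s (act (M : Matrix (Fin N) (Fin N) R) x)))) = fs R m (s + 1) := by
  have hne : (⟨s, h0⟩ : Fin N) ≠ ⟨s + 1, h1⟩ := by
    intro h
    simp at h
  unfold fs
  rw [← av_GL_left (tv ⟨s, h0⟩ ⟨s + 1, h1⟩ hne (1 : R) * tv ⟨s + 1, h1⟩ ⟨s, h0⟩ hne.symm c)
    (fun M => ent (piw m) (fun x => mask (s + 1) (act (M : Matrix (Fin N) (Fin N) R) x)))]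
  refine av_congr fun M => ?_
  refine ent_congr _ _ fun x y _ _ => ?_
  have hact : ∀ x : Fin N → G, act (((tv ⟨s, h0⟩ ⟨s + 1, h1⟩ hne (1 : R) *
      tv ⟨s + 1, h1⟩ ⟨s, h0⟩ hne.symm c) * M : GL (Fin N) R) : Matrix (Fin N) (Fin N) R) x =
      act (Matrix.transvection ⟨s, h0⟩ ⟨s + 1, h1⟩ (1 : R))
        (act (Matrix.transvection ⟨s + 1, h1⟩ ⟨s, h0⟩ c)
          (act (M : Matrix (Fin N) (Fin N) R) x)) := by
    intro x
    rw [Units.val_mul, Units.val_mul, act_mul, act_mul]
    rfl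
  rw [hact, hact]
  set X := act (M : Matrix (Fin N) (Fin N) R) x
  set Y := act (M : Matrix (Fin N) (Fin N) R) y
  have hrow : ∀ X : Fin N → G, act (Matrix.transvection ⟨s, h0⟩ ⟨s + 1, h1⟩ (1 : R))
        (act (Matrix.transvection ⟨s + 1, h1⟩ ⟨s, h0⟩ c) X) ⟨s, h0⟩ =
        (1 + c) • X ⟨s, h0⟩ + X ⟨s + 1, h1⟩ := by
    intro X
    rw [act_transvection, act_transvection]
    simp only [if_true]
    rw [if_neg hne, one_smul, add_smul, one_smul]
    abel
  have hlow : ∀ X : Fin N → G, ∀ i : Fin N, (i : ℕ) < s →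
      act (Matrix.transvection ⟨s, h0⟩ ⟨s + 1, h1⟩ (1 : R))
        (act (Matrix.transvection ⟨s + 1, h1⟩ ⟨s, h0⟩ c) X) i = X i := by
    intro X i hi
    have i0 : i ≠ ⟨s, h0⟩ := by
      rintro rfl
      simp at hi
    have i1 : i ≠ ⟨s + 1, h1⟩ := by
      rintro rfl
      simp at hi
    rw [act_transvection, act_transvection]
    simp only
    rw [if_neg i0, if_neg i1]
  simp only [Prod.mk.injEq, mask_eq_iff]
  constructor
  · rintro ⟨e1, e2⟩ i hi
    rcases Nat.lt_succ_iff_lt_or_eq.1 hi with h | h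
    · rw [hlow X i h, hlow Y i h]
      exact e2 i h
    · have : i = ⟨s, h0⟩ := Fin.ext h
      rw [this, hrow, hrow]
      exact e1
  · intro e
    constructor
    · have := e ⟨s, h0⟩ (by simp)
      rwa [hrow, hrow] at this
    · intro i hi
      have := e i (by omega)
      rwa [hlow X i hi, hlow Y i hi] at this

/-- First row version: `H(T_s, F)`. -/
lemma ent_row (m : Fin N → G → ℝ) (s : ℕ) (h0 : s < N) (M : GL (Fin N) R) :
    ent (piw m) (fun x => (act (M : Matrix (Fin N) (Fin N) R) x ⟨s, h0⟩,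
      mask s (act (M : Matrix (Fin N) (Fin N) R) x))) =
    ent (piw m) (fun x => mask (s + 1) (act (M : Matrix (Fin N) (Fin N) R) x)) := by
  refine ent_congr _ _ fun x y _ _ => ?_
  simp only [Prod.mk.injEq, mask_eq_iff]
  constructor
  · rintro ⟨e1, e2⟩ i hi
    rcases Nat.lt_succ_iff_lt_or_eq.1 hi with h | h
    · exact e2 i h
    · have : i = ⟨s, h0⟩ := Fin.ext h
      rw [this]
      exact e1
  · intro e
    exact ⟨e _ (by simp), fun i hi => e i (by omega)⟩

lemma ent_two_rows (m : Fin N → G → ℝ) (s : ℕ) (h0 : s < N) (h1 : s + 1 < N)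
    (M : GL (Fin N) R) :
    ent (piw m) (fun x => (act (M : Matrix (Fin N) (Fin N) R) x ⟨s, h0⟩,
      (act (M : Matrix (Fin N) (Fin N) R) x ⟨s, h0⟩ +
        act (M : Matrix (Fin N) (Fin N) R) x ⟨s + 1, h1⟩,
      mask s (act (M : Matrix (Fin N) (Fin N) R) x)))) =
    ent (piw m) (fun x => mask (s + 2) (act (M : Matrix (Fin N) (Fin N) R) x)) := by
  refine ent_congr _ _ fun x y _ _ => ?_
  simp only [Prod.mk.injEq, mask_eq_iff]
  constructor
  · rintro ⟨e1, e2, e3⟩ i hi
    rw [e1] at e2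
    have e2' := add_left_cancel e2
    have : (i : ℕ) < s ∨ (i : ℕ) = s ∨ (i : ℕ) = s + 1 := by omega
    rcases this with h | h | h
    · exact e3 i h
    · have : i = ⟨s, h0⟩ := Fin.ext h
      rw [this]
      exact e1
    · have : i = ⟨s + 1, h1⟩ := Fin.ext h
      rw [this]
      exact e2'
  · intro e
    have a := e ⟨s, h0⟩ (by simp)
    have b := e ⟨s + 1, h1⟩ (by simp)
    exact ⟨a, by rw [a, b], fun i hi => e i (by omega)⟩

lemma fs_concave (hm : ∀ i, IsProb (m i)) (s : ℕ) (h : s + 2 ≤ N) :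
    fs R m (s + 2) + fs R m s ≤ 2 * fs R m (s + 1) := by
  have h0 : s < N := by omega
  have h1 : s + 1 < N := by omega
  have e1 := fs_comb (R := R) m s h0 h1 (-1)
  have key : fs R m (s + 2) + fs R m s ≤ fs R m (s + 1) +
      av (fun M : GL (Fin N) R => ent (piw m) (fun x =>
      ((1 + (-1 : R)) • act (M : Matrix (Fin N) (Fin N) R) x ⟨s, h0⟩ +
        act (M : Matrix (Fin N) (Fin N) R) x ⟨s + 1, h1⟩,
        mask s (act (M : Matrix (Fin N) (Fin N) R) x)))) := by
    unfold fs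
    rw [← av_add, ← av_add]
    refine av_mono fun M => ?_
    rw [← ent_row m s h0 M]
    refine submod' (isProb_piw hm) _ _ _ _ ?_ ?_ ?_
    · intro x y e
      simp only [Prod.mk.injEq] at e
      exact e.2
    · intro x y e
      simp only [Prod.mk.injEq] at e
      exact e.2
    · intro x y _ _ ea eb
      simp only [Prod.mk.injEq, mask_eq_iff, add_neg_cancel, zero_smul, zero_add] at ea eb ⊢
      intro i hi
      have : (i : ℕ) < s ∨ (i : ℕ) = s ∨ (i : ℕ) = s + 1 := by omega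
      rcases this with h | h | h
      · exact ea.2 i h
      · have : i = ⟨s, h0⟩ := Fin.ext h
        rw [this]
        exact ea.1
      · have : i = ⟨s + 1, h1⟩ := Fin.ext h
        rw [this]
        exact eb.1
  rw [e1] at key
  linarith

/-- Every element is a sum of three elements that are zero or units. -/
def SumUnits (R : Type*) [CommRing R] : Prop :=
  ∀ r : R, ∃ a b c : R, (a = 0 ∨ IsUnit a) ∧ (b = 0 ∨ IsUnit b) ∧ (c = 0 ∨ IsUnit c) ∧
    r = a + b + c

/-- Bound for the entropy of a random row plus an extra variable. -/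
lemma row_bound (hR : SumUnits R) (hm : ∀ i, IsProb (m i)) (i : Fin N) {y z₁ z₂ : G → ℝ}
    (hy : IsProb y) (hz₁ : IsProb z₁) (hz₂ : IsProb z₂) :
    av (fun M : GL (Fin N) R => EL R [y] (fun τ =>
      Hd (conv (wcv (fun j => (M : Matrix (Fin N) (Fin N) R) i j) m) τ))) ≤
      AL R (List.ofFn m ++ [y, z₁]) + AL R (List.ofFn m ++ [z₁, z₂]) +
      AL R (List.ofFn m ++ [z₂]) - Hd z₁ - Hd z₂ := by
  -- average over right multiplication by diagonal matrices
  have h1 : av (fun M : GL (Fin N) R => EL R [y] (fun τ =>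
      Hd (conv (wcv (fun j => (M : Matrix (Fin N) (Fin N) R) i j) m) τ))) =
      av (fun M : GL (Fin N) R => av (fun c : Fin N → Rˣ => EL R [y] (fun τ =>
      Hd (conv (wcv (fun j => (c j : R) * (M : Matrix (Fin N) (Fin N) R) i j) m) τ)))) := by
    rw [av_comm]
    have : ∀ c : Fin N → Rˣ, av (fun M : GL (Fin N) R => EL R [y] (fun τ =>
      Hd (conv (wcv (fun j => (c j : R) * (M : Matrix (Fin N) (Fin N) R) i j) m) τ))) =
      av (fun M : GL (Fin N) R => EL R [y] (fun τ =>
      Hd (conv (wcv (fun j => (M : Matrix (Fin N) (Fin N) R) i j) m) τ))) := by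
      intro c
      rw [← av_GL_right (dg c) (fun M : GL (Fin N) R => EL R [y] (fun τ =>
        Hd (conv (wcv (fun j => (M : Matrix (Fin N) (Fin N) R) i j) m) τ)))]
      refine av_congr fun M => ?_
      have : (fun j => ((M * dg c : GL (Fin N) R) : Matrix (Fin N) (Fin N) R) i j) =
          fun j => (c j : R) * (M : Matrix (Fin N) (Fin N) R) i j := by
        funext j
        rw [Units.val_mul]
        change ((M : Matrix (Fin N) (Fin N) R) * Matrix.diagonal fun i => (c i : R)) i j = _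
        rw [Matrix.mul_diagonal, mul_comm]
      rw [this]
    rw [av_congr this, av_const]
  rw [h1]
  calc _ ≤ av (fun _ : GL (Fin N) R => AL R (List.ofFn m ++ [y, z₁]) +
        AL R (List.ofFn m ++ [z₁, z₂]) + AL R (List.ofFn m ++ [z₂]) - Hd z₁ - Hd z₂) := by
        refine av_mono fun M => ?_
        choose a b c ha hb hc habc using fun j => hR ((M : Matrix (Fin N) (Fin N) R) i j)
        have hp := isProb_piw hm
        have key : ∀ u : Fin N → Rˣ, EL R [y] (fun τ =>
            Hd (conv (wcv (fun j => (u j : R) * (M : Matrix (Fin N) (Fin N) R) i j) m) τ)) ≤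
            EL R [y, z₁] (fun τ => Hd (conv (wcv (fun j => (u j : R) * a j) m) τ)) +
            EL R [z₁, z₂] (fun τ => Hd (conv (wcv (fun j => (u j : R) * b j) m) τ)) +
            EL R [z₂] (fun τ => Hd (conv (wcv (fun j => (u j : R) * c j) m) τ)) -
            (Hd z₁ + Hd z₂) := by
          intro u
          have t := triple_av (R := R) hp (fun x : Fin N → G => ∑ j, ((u j : R) * a j) • x j)
            (fun x : Fin N → G => ∑ j, ((u j : R) * b j) • x j)
            (fun x : Fin N → G => ∑ j, ((u j : R) * c j) • x j) hy hz₁ hz₂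
          have e : (fun x : Fin N → G => ∑ j, ((u j : R) * a j) • x j +
              ∑ j, ((u j : R) * b j) • x j + ∑ j, ((u j : R) * c j) • x j) =
              fun x => ∑ j, ((u j : R) * (M : Matrix (Fin N) (Fin N) R) i j) • x j := by
            funext x
            rw [← sum_add_distrib, ← sum_add_distrib]
            refine sum_congr rfl fun j _ => ?_
            rw [habc j, mul_add, mul_add, add_smul, add_smul]
          rw [e, law_sum_smul, law_sum_smul, law_sum_smul, law_sum_smul] at t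
          linarith
        refine (av_mono key).trans ?_
        rw [av_sub, av_add, av_add, av_const]
        have c1 := cov_AL (R := R) (v := a) ha hm (X := [y, z₁]) (by
          intro μ hμ
          simp only [List.mem_cons, List.not_mem_nil, or_false] at hμ
          rcases hμ with rfl | rfl
          · exact hy
          · exact hz₁)
        have c2 := cov_AL (R := R) (v := b) hb hm (X := [z₁, z₂]) (by
          intro μ hμ
          simp only [List.mem_cons, List.not_mem_nil, or_false] at hμ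
          rcases hμ with rfl | rfl
          · exact hz₁
          · exact hz₂)
        have c3 := cov_AL (R := R) (v := c) hc hm (X := [z₂]) (by
          intro μ hμ
          simp only [List.mem_cons, List.not_mem_nil, or_false] at hμ
          rw [hμ]
          exact hz₂)
        linarith
    _ = _ := av_const _

/-- The main inequality for a random pencil. -/
lemma pencil_ineq {η τ₀ : ℝ} {ρ : G → ℝ} (hη : 0 ≤ η) (hρ : IsProb ρ)
    (hmin : ∀ μ ν : G → ℝ, IsProb μ → IsProb ν → τ₀ ≤ tau R η ρ μ ν)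
    (hm : ∀ i, IsProb (m i)) (s : ℕ) (h0 : s < N) (h1 : s + 1 < N) :
    τ₀ ≤ 3 * ((fs R m (s + 1) - fs R m s) - (fs R m (s + 2) - fs R m (s + 1))) +
      η * (2 * av (fun M : GL (Fin N) R => av (fun u : Rˣ => Hd (conv ρ (sm (u : R)
        (wcv (fun j => (M : Matrix (Fin N) (Fin N) R) ⟨s, h0⟩ j) m))))) - Hd ρ -
        (fs R m (s + 2) - fs R m (s + 1))) := by
  have hp := isProb_piw hm
  have e1 : ∀ c : R, av (fun M : GL (Fin N) R => ent (piw m) (fun x =>
      ((1 + c) • act (M : Matrix (Fin N) (Fin N) R) x ⟨s, h0⟩ +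
        act (M : Matrix (Fin N) (Fin N) R) x ⟨s + 1, h1⟩,
        mask s (act (M : Matrix (Fin N) (Fin N) R) x)))) = fs R m (s + 1) :=
    fun c => fs_comb m s h0 h1 c
  -- pointwise inequality for each matrix
  have key : ∀ M : GL (Fin N) R, τ₀ ≤
      (2 * (ent (piw m) (fun x => mask (s + 1) (act (M : Matrix (Fin N) (Fin N) R) x)) -
        ent (piw m) (fun x => mask s (act (M : Matrix (Fin N) (Fin N) R) x))) +
      (ent (piw m) (fun x => ((1 + (1 : R)) • act (M : Matrix (Fin N) (Fin N) R) x ⟨s, h0⟩ +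
        act (M : Matrix (Fin N) (Fin N) R) x ⟨s + 1, h1⟩,
        mask s (act (M : Matrix (Fin N) (Fin N) R) x))) -
        ent (piw m) (fun x => mask s (act (M : Matrix (Fin N) (Fin N) R) x))) +
      av (fun u : Rˣ => (ent (piw m) (fun x =>
        ((1 + (-(u : R))) • act (M : Matrix (Fin N) (Fin N) R) x ⟨s, h0⟩ +
        act (M : Matrix (Fin N) (Fin N) R) x ⟨s + 1, h1⟩,
        mask s (act (M : Matrix (Fin N) (Fin N) R) x))))) -
        ent (piw m) (fun x => mask s (act (M : Matrix (Fin N) (Fin N) R) x)) -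
      (ent (piw m) (fun x => ((1 + (0 : R)) • act (M : Matrix (Fin N) (Fin N) R) x ⟨s, h0⟩ +
        act (M : Matrix (Fin N) (Fin N) R) x ⟨s + 1, h1⟩,
        mask s (act (M : Matrix (Fin N) (Fin N) R) x))) -
        ent (piw m) (fun x => mask s (act (M : Matrix (Fin N) (Fin N) R) x))) -
      (3 + η) * (ent (piw m) (fun x => mask (s + 2) (act (M : Matrix (Fin N) (Fin N) R) x)) -
        ent (piw m) (fun x => ((1 + (0 : R)) • act (M : Matrix (Fin N) (Fin N) R) x ⟨s, h0⟩ +
        act (M : Matrix (Fin N) (Fin N) R) x ⟨s + 1, h1⟩,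
        mask s (act (M : Matrix (Fin N) (Fin N) R) x))))) +
      (2 * η) * av (fun u : Rˣ => Hd (conv ρ (sm (u : R)
        (wcv (fun j => (M : Matrix (Fin N) (Fin N) R) ⟨s, h0⟩ j) m)))) - η * Hd ρ := by
    intro M
    set T₁ : (Fin N → G) → G := fun x => act (M : Matrix (Fin N) (Fin N) R) x ⟨s, h0⟩ with hT₁
    set T₂ : (Fin N → G) → G := fun x => act (M : Matrix (Fin N) (Fin N) R) x ⟨s + 1, h1⟩
      with hT₂
    set F : (Fin N → G) → (Fin N → G) :=
      fun x => mask s (act (M : Matrix (Fin N) (Fin N) R) x) with hF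
    have hg := min_glued (R := R) hη hρ hmin hp T₁ (fun x => (T₁ x + T₂ x, F x))
    have hb := av_mono (fun u : Rˣ => bsg (R := R) hp T₁ T₂ F u)
    simp only [av_add, av_sub, av_const] at hb
    have hlaw : law (piw m) T₁ = wcv (fun j => (M : Matrix (Fin N) (Fin N) R) ⟨s, h0⟩ j) m := by
      rw [← law_sum_smul]
      rfl
    rw [hlaw] at hg
    have a1 : Hc (piw m) T₁ F =
        ent (piw m) (fun x => mask (s + 1) (act (M : Matrix (Fin N) (Fin N) R) x)) -
        ent (piw m) F := by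
      unfold Hc
      rw [← ent_row m s h0 M]
    have a2 : Hc (piw m) (fun ω => (2 : R) • T₁ ω + T₂ ω) F =
        ent (piw m) (fun x => ((1 + (1 : R)) • T₁ x + T₂ x, F x)) - ent (piw m) F := by
      unfold Hc
      rw [one_add_one_eq_two]
    have a3 : ∀ u : Rˣ, Hc (piw m) (fun ω => ((u : R) - 1) • T₁ ω - T₂ ω) F =
        ent (piw m) (fun x => ((1 + (-(u : R))) • T₁ x + T₂ x, F x)) - ent (piw m) F := by
      intro u
      unfold Hc
      congr 1
      refine ent_congr _ _ fun x y _ _ => ?_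
      have hneg : ∀ x, ((1 + (-(u : R))) • T₁ x + T₂ x) = -(((u : R) - 1) • T₁ x - T₂ x) := by
        intro x
        rw [neg_sub, show (1 + (-(u : R))) = -((u : R) - 1) by ring, neg_smul]
        abel
      simp only [Prod.mk.injEq, hneg, neg_inj]
    have a4 : Hc (piw m) (fun ω => T₁ ω + T₂ ω) F =
        ent (piw m) (fun x => ((1 + (0 : R)) • T₁ x + T₂ x, F x)) - ent (piw m) F := by
      unfold Hc
      simp only [add_zero, one_smul]
    have a5 : Hc (piw m) T₁ (fun x => (T₁ x + T₂ x, F x)) =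
        ent (piw m) (fun x => mask (s + 2) (act (M : Matrix (Fin N) (Fin N) R) x)) -
        ent (piw m) (fun x => ((1 + (0 : R)) • T₁ x + T₂ x, F x)) := by
      unfold Hc
      rw [← ent_two_rows m s h0 h1 M]
      simp only [add_zero, one_smul]
      rfl
    have a3' : av (fun u : Rˣ => Hc (piw m) (fun ω => ((u : R) - 1) • T₁ ω - T₂ ω) F) =
        av (fun u : Rˣ => ent (piw m) (fun x => ((1 + (-(u : R))) • T₁ x + T₂ x, F x))) -
        ent (piw m) F := by
      rw [av_congr a3, av_sub_const]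
    rw [a1, a2, a3', a4, a5] at hb
    rw [a5] at hg
    linarith
  have hav := av_mono key
  rw [av_const] at hav
  simp only [av_add, av_sub, av_mul_left, av_const] at hav
  have c1 := e1 1
  have c0 := e1 0
  have cu : av (fun M : GL (Fin N) R => av (fun u : Rˣ => (ent (piw m) (fun x =>
        ((1 + (-(u : R))) • act (M : Matrix (Fin N) (Fin N) R) x ⟨s, h0⟩ +
        act (M : Matrix (Fin N) (Fin N) R) x ⟨s + 1, h1⟩,
        mask s (act (M : Matrix (Fin N) (Fin N) R) x)))))) = fs R m (s + 1) := by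
    rw [av_comm]
    rw [av_congr (fun u : Rˣ => e1 (-(u : R))), av_const]
  rw [c1, c0, cu] at hav
  have d0 : av (fun M : GL (Fin N) R =>
      ent (piw m) (fun x => mask s (act (M : Matrix (Fin N) (Fin N) R) x))) = fs R m s := rfl
  have d1 : av (fun M : GL (Fin N) R =>
      ent (piw m) (fun x => mask (s + 1) (act (M : Matrix (Fin N) (Fin N) R) x))) =
      fs R m (s + 1) := rfl
  have d2 : av (fun M : GL (Fin N) R =>
      ent (piw m) (fun x => mask (s + 2) (act (M : Matrix (Fin N) (Fin N) R) x))) =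
      fs R m (s + 2) := rfl
  rw [d0, d1, d2] at hav
  linarith

end main

end

end Pool.Agent.Lib.MP_dd2a7c_co
end
end

section

section

/-!
Sums of dilates: `|A + n·A| ≤ K^{O(log n)} |A|` when `|A + A| ≤ K |A|`.
-/

namespace Pool.Agent.Lib.MP_dd2a7c_co

open Finset
open scoped Pointwise

variable {Γ : Type*} [AddCommGroup Γ] [DecidableEq Γ]

/-- The set of multiples `n • a`, `a ∈ A`. -/
def dil (n : ℕ) (A : Finset Γ) : Finset Γ := A.image fun a => n • a

/-- `S L = B + 2B + 4B + ... + 2^{L-1} B`. -/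
def dyad (B : Finset Γ) : ℕ → Finset Γ
  | 0 => {0}
  | L + 1 => B + dil 2 (dyad B L)

lemma dil_subset_add_self (B : Finset Γ) : dil 2 B ⊆ B + B := by
  intro x hx
  obtain ⟨b, hb, rfl⟩ := mem_image.1 hx
  rw [two_nsmul]
  exact add_mem_add hb hb

lemma dil_add (n : ℕ) (A B : Finset Γ) : dil n (A + B) = dil n A + dil n B := by
  ext x
  simp only [dil, mem_image, mem_add]
  constructor
  · rintro ⟨_, ⟨a, ha, b, hb, rfl⟩, rfl⟩
    exact ⟨n • a, ⟨a, ha, rfl⟩, n • b, ⟨b, hb, rfl⟩, (nsmul_add a b n).symm⟩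
  · rintro ⟨_, ⟨a, ha, rfl⟩, _, ⟨b, hb, rfl⟩, rfl⟩
    exact ⟨a + b, ⟨a, ha, b, hb, rfl⟩, nsmul_add a b n⟩

lemma dil_mono (n : ℕ) {A B : Finset Γ} (h : A ⊆ B) : dil n A ⊆ dil n B := image_subset_image h

lemma card_dil_le (n : ℕ) (A : Finset Γ) : (dil n A).card ≤ A.card := card_image_le

lemma nsmul_mem_dyad {B : Finset Γ} (h0 : (0 : Γ) ∈ B) {b : Γ} (hb : b ∈ B) (L : ℕ) :
    ∀ n < 2 ^ L, n • b ∈ dyad B L := by
  induction L with
  | zero =>
    intro n hn
    have : n = 0 := by simpa using hn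
    rw [this, zero_nsmul]
    simp [dyad]
  | succ L ih =>
    intro n hn
    have h1 : n / 2 < 2 ^ L := by
      rw [pow_succ] at hn
      omega
    have h2 := ih (n / 2) h1
    have h3 : n • b = (n % 2) • b + 2 • ((n / 2) • b) := by
      rw [← mul_nsmul', ← add_nsmul, Nat.mod_add_div]
    rw [h3]
    refine add_mem_add ?_ (mem_image_of_mem _ h2)
    rcases Nat.mod_two_eq_zero_or_one n with h | h
    · rw [h, zero_nsmul]
      exact h0
    · rw [h, one_nsmul]
      exact hb

lemma dyad_cover {B F : Finset Γ} (hBF : B + B ⊆ F + B) (h0 : (0 : Γ) ∈ B) (L : ℕ) :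
    ∃ Z : Finset Γ, dyad B L ⊆ Z + B ∧ Z.card ≤ F.card ^ (2 * L) := by
  induction L with
  | zero =>
    refine ⟨{0}, ?_, by simp⟩
    intro x hx
    simp only [dyad, mem_singleton] at hx
    rw [hx, mem_add]
    exact ⟨0, mem_singleton_self _, 0, h0, add_zero 0⟩
  | succ L ih =>
    obtain ⟨Z, hZ1, hZ2⟩ := ih
    refine ⟨dil 2 Z + F + F, ?_, ?_⟩
    · calc dyad B (L + 1) = B + dil 2 (dyad B L) := rfl
        _ ⊆ B + dil 2 (Z + B) := add_subset_add_left (dil_mono 2 hZ1)
        _ = B + (dil 2 Z + dil 2 B) := by rw [dil_add]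
        _ ⊆ B + (dil 2 Z + (B + B)) :=
            add_subset_add_left (add_subset_add_left (dil_subset_add_self B))
        _ = dil 2 Z + ((B + B) + B) := by
            rw [add_left_comm, add_comm B (B + B)]
        _ ⊆ dil 2 Z + ((F + B) + B) :=
            add_subset_add_left (add_subset_add_right hBF)
        _ = dil 2 Z + (F + (B + B)) := by rw [add_assoc F]
        _ ⊆ dil 2 Z + (F + (F + B)) := add_subset_add_left (add_subset_add_left hBF)
        _ = dil 2 Z + F + F + B := by rw [← add_assoc, ← add_assoc]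
    · calc (dil 2 Z + F + F).card ≤ (dil 2 Z).card * F.card * F.card :=
          (card_add_le).trans (Nat.mul_le_mul_right _ card_add_le)
        _ ≤ F.card ^ (2 * L) * F.card * F.card :=
          Nat.mul_le_mul_right _ (Nat.mul_le_mul_right _ ((card_dil_le 2 Z).trans hZ2))
        _ = F.card ^ (2 * (L + 1)) := by ring

/-- Main estimate for sums of dilates. -/
lemma card_add_dil_le {A : Finset Γ} (hA : A.Nonempty) {K : ℝ}
    (hK : ((A + A).card : ℝ) ≤ K * A.card) (L n : ℕ) (hn : n < 2 ^ L) :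
    ((A + dil n A).card : ℝ) ≤ K ^ (10 * L + 3) * A.card := by
  have hApos : (0 : ℝ) < A.card := Nat.cast_pos.2 hA.card_pos
  have hK1 : 1 ≤ K := by
    have h1 : (A.card : ℝ) ≤ (A + A).card := by
      exact_mod_cast card_le_card_add_right hA
    have := h1.trans hK
    by_contra hc
    push Not at hc
    nlinarith
  have hKpos : 0 < K := by linarith
  have hpr : ∀ i j : ℕ, ((i • A - j • A).card : ℝ) ≤ K ^ (i + j) * A.card := by
    intro i j
    have h := pluennecke_ruzsa_inequality_nsmul_sub_nsmul_add hA A i j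
    have h' : ((i • A - j • A).card : ℝ) ≤
        (((A + A).card : ℝ) / A.card) ^ (i + j) * A.card := by
      have h2 : ((((i • A - j • A).card : ℚ≥0)) : ℝ) ≤
        (((((A + A).card : ℚ≥0) / A.card) ^ (i + j) * A.card : ℚ≥0) : ℝ) := by
        exact_mod_cast h
      push_cast at h2
      exact h2
    refine h'.trans ?_
    refine mul_le_mul_of_nonneg_right ?_ hApos.le
    refine pow_le_pow_left₀ (by positivity) ?_ _
    rw [div_le_iff₀ hApos]
    exact hK
  set B := A - A with hB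
  have h0 : (0 : Γ) ∈ B := by
    obtain ⟨a, ha⟩ := hA
    rw [hB, mem_sub]
    exact ⟨a, ha, a, ha, sub_self a⟩
  -- covering of B + B
  have hcov : ∃ F ⊆ B + B, (F.card : ℝ) ≤ K ^ 5 ∧ B + B ⊆ F + (A - A) := by
    refine ruzsa_covering_add hA ?_
    have e : B + B + A = 3 • A - 2 • A := by
      rw [hB]
      simp only [succ_nsmul, zero_nsmul, zero_add]
      rw [sub_add_sub_comm, sub_add_eq_add_sub]
    rw [e]
    exact hpr 3 2
  obtain ⟨F, _, hF1, hF2⟩ := hcov
  obtain ⟨Z, hZ1, hZ2⟩ := dyad_cover hF2 h0 L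
  obtain ⟨a0, ha0⟩ := hA
  have hsub : A + dil n A ⊆ {n • a0} + (Z + (2 • A - 1 • A)) := by
    intro x hx
    obtain ⟨a, ha, y, hy, rfl⟩ := mem_add.1 hx
    obtain ⟨a', ha', rfl⟩ := mem_image.1 hy
    have hb : a' - a0 ∈ B := sub_mem_sub ha' ha0
    have h1 := hZ1 (nsmul_mem_dyad h0 hb L n hn)
    obtain ⟨z, hz, b, hb', hzb⟩ := mem_add.1 h1
    have e : a + n • a' = n • a0 + (z + (a + b)) := by
      have : n • a' = n • a0 + n • (a' - a0) := by
        rw [← nsmul_add]
        congr 1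
        abel
      rw [this, ← hzb]
      abel
    rw [e]
    refine add_mem_add (mem_singleton_self _) (add_mem_add hz ?_)
    obtain ⟨c, hc, d, hd, hcd⟩ := mem_sub.1 hb'
    rw [← hcd, ← add_sub_assoc]
    refine sub_mem_sub ?_ ?_
    · rw [two_nsmul]
      exact add_mem_add ha hc
    · rw [one_nsmul]
      exact hd
  calc ((A + dil n A).card : ℝ) ≤ (({n • a0} + (Z + (2 • A - 1 • A))).card : ℝ) := by
        exact_mod_cast card_le_card hsub
    _ ≤ ((Z.card * (2 • A - 1 • A).card : ℕ) : ℝ) := by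
        have h1 : ({n • a0} + (Z + (2 • A - 1 • A))).card ≤
            ({n • a0} : Finset Γ).card * (Z + (2 • A - 1 • A)).card := card_add_le
        have h2 : (Z + (2 • A - 1 • A)).card ≤ Z.card * (2 • A - 1 • A).card := card_add_le
        rw [card_singleton, one_mul] at h1
        exact_mod_cast h1.trans h2
    _ = (Z.card : ℝ) * (2 • A - 1 • A).card := by push_cast; ring
    _ ≤ (K ^ 5) ^ (2 * L) * (K ^ (2 + 1) * A.card) := by
        refine mul_le_mul ?_ (hpr 2 1) (by positivity) (by positivity)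
        calc (Z.card : ℝ) ≤ ((F.card ^ (2 * L) : ℕ) : ℝ) := by exact_mod_cast hZ2
          _ = (F.card : ℝ) ^ (2 * L) := by push_cast; ring
          _ ≤ (K ^ 5) ^ (2 * L) := pow_le_pow_left₀ (by positivity) hF1 _
    _ = K ^ (10 * L + 3) * A.card := by ring

end Pool.Agent.Lib.MP_dd2a7c_co
end

section

/-!
The minimizer has zero distance, and hence is uniform on a coset of a subgroup.
-/

namespace Pool.Agent.Lib.MP_dd2a7c_co

open Finset
open scoped Classical

noncomputable section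

variable {G : Type*} [Fintype G] [AddCommGroup G]
variable {R : Type*} [CommRing R] [Module R G] [Fintype Rˣ]

lemma PQ_length (μ ν : G → ℝ) (j : ℕ) :
    (PQ μ ν j).1.length = 2 ^ j ∧ (PQ μ ν j).2.length = 2 ^ j := by
  induction j with
  | zero => simp [PQ]
  | succ j ih =>
    simp only [PQ, List.length_append, ih.1, ih.2]
    constructor <;> ring

lemma PQ_sum (μ ν : G → ℝ) (j : ℕ) :
    ((PQ μ ν j).1.map Hd).sum + ((PQ μ ν j).2.map Hd).sum = 2 ^ j * (Hd μ + Hd ν) := by
  induction j with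
  | zero => simp [PQ]
  | succ j ih =>
    simp only [PQ, List.map_append, List.sum_append]
    rw [pow_succ]
    linarith

lemma PQ_sum_fst (μ ν : G → ℝ) (j : ℕ) :
    ((PQ μ ν (j + 1)).1.map Hd).sum = 2 ^ j * (Hd μ + Hd ν) := by
  rw [← PQ_sum]
  simp only [PQ, List.map_append, List.sum_append]

lemma PQ_sublist (μ ν : G → ℝ) {i j : ℕ} (h : i ≤ j) :
    (PQ μ ν i).1.Sublist (PQ μ ν j).1 := by
  induction j with
  | zero =>
    have : i = 0 := by omega
    rw [this]
  | succ j ih =>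
    rcases Nat.lt_or_ge j i with h' | h'
    · have : i = j + 1 := by omega
      rw [this]
    · exact (ih h').trans (List.sublist_append_left _ _)

lemma PQ_two (μ ν : G → ℝ) : (PQ μ ν 2).1 = [μ, ν, ν, μ] := rfl

lemma AL_append_le (μ ν : G → ℝ) (hμ : IsProb μ) (hν : IsProb ν) (j : ℕ) {X : List (G → ℝ)}
    (hX : X.Sublist [μ, ν, ν, μ]) :
    AL R ((PQ μ ν (j + 3)).1 ++ X) ≤ hs R μ ν (j + 4) := by
  have hP := PQ_isProb hμ hν (j + 3)
  change _ ≤ AL R ((PQ μ ν (j + 3)).1 ++ (PQ μ ν (j + 3)).2)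
  refine AL_le_of_subperm ?_ fun σ hσ => ?_
  · refine List.Sublist.subperm ?_
    refine List.Sublist.append (List.Sublist.refl _) ?_
    refine hX.trans ?_
    rw [← PQ_two]
    refine (PQ_sublist μ ν (show 2 ≤ j + 2 by omega)).trans ?_
    exact List.sublist_append_right _ _
  · rcases List.mem_append.1 hσ with h | h
    · exact hP.1 σ h
    · exact hP.2 σ h

lemma conv_row_le {ρ y W : G → ℝ} (hρ : IsProb ρ) (hy : IsProb y) (hW : IsProb W) :
    av (fun u : Rˣ => Hd (conv ρ (sm (u : R) W))) ≤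
      av (fun u : Rˣ => Hd (conv ρ (sm (u : R) y))) + EL R [y] (fun τ => Hd (conv W τ)) -
        Hd y := by
  have h1 : ∀ u u' : Rˣ, Hd (conv ρ (sm (u : R) W)) ≤ Hd (conv ρ (sm (u' : R) y)) +
      Hd (conv (sm (u' : R) y) (sm (u : R) W)) - Hd y := by
    intro u u'
    have hy' := isProb_sm (u' : R) hy
    have hW' := isProb_sm (u : R) hW
    have k := kvm hρ hy' hW'
    rw [Hd_sm_unit] at k
    have l : Hd (conv ρ (sm (u : R) W)) ≤
        Hd (conv (conv ρ (sm (u' : R) y)) (sm (u : R) W)) := by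
      rw [conv_comm ρ (sm (u' : R) y), conv_assoc]
      exact Hd_le_conv_right hy' (isProb_conv hρ hW')
    linarith
  have h2 : av (fun u : Rˣ => Hd (conv ρ (sm (u : R) W))) ≤
      av (fun u : Rˣ => av (fun u' : Rˣ => Hd (conv ρ (sm (u' : R) y)) +
      Hd (conv (sm (u' : R) y) (sm (u : R) W)) - Hd y)) := by
    refine av_mono fun u => ?_
    rw [← av_const (ι := Rˣ) (Hd (conv ρ (sm (u : R) W)))]
    exact av_mono fun u' => h1 u u'
  simp only [av_sub, av_add, av_const] at h2
  have h3 : ∀ u : Rˣ, av (fun u' : Rˣ => Hd (conv (sm (u' : R) y) (sm (u : R) W))) =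
      EL R [y] (fun τ => Hd (conv W τ)) := by
    intro u
    simp only [EL, conv_delta]
    refine av_equiv (Equiv.mulLeft u⁻¹) _ (fun u' : Rˣ => Hd (conv W (sm (u' : R) y)))
      fun u' => ?_
    rw [← Hd_sm_unit (u⁻¹) (conv (sm (u' : R) y) (sm (u : R) W)), sm_conv, sm_sm, sm_sm,
      Units.inv_mul, sm_one, conv_comm]
    rfl
  rw [av_congr h3, av_const] at h2
  linarith

/-- At a minimizer the distance vanishes. -/
theorem min_zero (hR : SumUnits R) {n N : ℕ} (hn : n = 1024) (hN : N = 2 * n)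
    [Fintype (GL (Fin N) R)] {η : ℝ} {ρ μ ν : G → ℝ} (hη : 0 ≤ η) (hη' : η * 4 ^ 11 ≤ 1)
    (hρ : IsProb ρ) (hμ : IsProb μ) (hν : IsProb ν)
    (hmin : ∀ μ' ν' : G → ℝ, IsProb μ' → IsProb ν' → tau R η ρ μ ν ≤ tau R η ρ μ' ν') :
    DD R μ ν = 0 := by
  have hk : 0 ≤ DD R μ ν := DD_nonneg hμ hν
  set k := DD R μ ν with hkdef
  set h := (Hd μ + Hd ν) / 2 with hh
  set L := (PQ μ ν 11).1 with hL
  have hlen : L.length = N := by rw [hL, (PQ_length μ ν 11).1, hN, hn]; norm_num
  have hnpos : 0 < n := by omega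
  have hNpos : 0 < N := by omega
  have hnR : (n : ℝ) = 1024 := by rw [hn]; norm_num
  have hLp : ∀ σ ∈ L, IsProb σ := (PQ_isProb hμ hν 11).1
  set m : Fin N → G → ℝ := fun i => L.get (i.cast hlen.symm) with hm
  have hmp : ∀ i, IsProb (m i) := fun i => hLp _ (List.get_mem _ _)
  have hofFn : List.ofFn m = L := by
    apply List.ext_get
    · simp [hlen]
    · intro n h1 h2
      simp [hm]
  have hsum : ∑ i, Hd (m i) = 2 * (n : ℝ) * h := by
    have : ∑ i, Hd (m i) = (L.map Hd).sum := by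
      rw [← hofFn, List.map_ofFn, List.sum_ofFn]
      rfl
    rw [this, hL, PQ_sum_fst]
    rw [hh, hnR]
    ring
  -- slow growth
  have hslow := (hs_le (R := R) hη hρ hμ hν hmin 11 hη' 11 le_rfl).2
  have hs0 : hs R μ ν 0 = h := rfl
  rw [hs0] at hslow
  set β := 3 * hs R μ ν 12 - 2 * h with hβ
  have hβk : β - h ≤ 72 * k := by
    rw [hβ]
    have : hs R μ ν (11 + 1) = hs R μ ν 12 := rfl
    rw [this] at hslow
    push_cast at hslow
    linarith
  have a1 : AL R (L ++ [μ, μ]) ≤ hs R μ ν 12 := AL_append_le μ ν hμ hν 8 (by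
    refine List.Sublist.cons_cons μ ?_
    exact List.Sublist.cons _ (List.Sublist.cons _ (List.Sublist.refl _)))
  have a2 : AL R (L ++ [ν, μ]) ≤ hs R μ ν 12 := AL_append_le μ ν hμ hν 8 (by
    exact List.Sublist.cons _ (List.Sublist.cons _ (List.Sublist.refl _)))
  have a3 : AL R (L ++ [μ, ν]) ≤ hs R μ ν 12 := AL_append_le μ ν hμ hν 8 (by
    refine List.Sublist.cons_cons μ (List.Sublist.cons_cons ν ?_)
    exact List.nil_sublist _)
  have a4 : AL R (L ++ [ν]) ≤ hs R μ ν 12 := AL_append_le μ ν hμ hν 8 (by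
    refine List.Sublist.cons _ (List.Sublist.cons_cons ν ?_)
    exact List.nil_sublist _)
  have r1 : ∀ i : Fin N, av (fun M : GL (Fin N) R => EL R [μ] (fun τ =>
      Hd (conv (wcv (fun j => (M : Matrix (Fin N) (Fin N) R) i j) m) τ))) ≤ β := by
    intro i
    have := row_bound (R := R) hR hmp i hμ hμ hν
    rw [hofFn] at this
    rw [hβ, hh]
    linarith
  have r2 : ∀ i : Fin N, av (fun M : GL (Fin N) R => EL R [ν] (fun τ =>
      Hd (conv (wcv (fun j => (M : Matrix (Fin N) (Fin N) R) i j) m) τ))) ≤ β := by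
    intro i
    have := row_bound (R := R) hR hmp i hν hμ hν
    rw [hofFn] at this
    rw [hβ, hh]
    linarith
  -- the first increment
  have hf1 : fs R m 1 ≤ β := by
    refine le_trans ?_ (r1 ⟨0, hNpos⟩)
    unfold fs
    refine av_mono fun M => ?_
    have e1 := ent_row m 0 hNpos M
    rw [zero_add] at e1
    rw [← e1]
    have e2 : ent (piw m) (fun x => (act (M : Matrix (Fin N) (Fin N) R) x ⟨0, hNpos⟩,
        mask 0 (act (M : Matrix (Fin N) (Fin N) R) x))) =
        Hd (wcv (fun j => (M : Matrix (Fin N) (Fin N) R) ⟨0, hNpos⟩ j) m) := by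
      rw [← law_sum_smul, Hd_law]
      refine ent_congr _ _ fun x y _ _ => ?_
      simp only [Prod.mk.injEq, mask_eq_iff]
      constructor
      · rintro ⟨e, -⟩
        exact e
      · intro e
        exact ⟨e, fun i hi => absurd hi (Nat.not_lt_zero _)⟩
    rw [e2]
    simp only [EL, conv_delta]
    rw [← av_const (ι := Rˣ)
      (Hd (wcv (fun j => (M : Matrix (Fin N) (Fin N) R) ⟨0, hNpos⟩ j) m))]
    exact av_mono fun u => Hd_le_conv_left (isProb_wcv _ hmp) (isProb_sm _ hμ)
  obtain ⟨s, hs1, hs2, hs3⟩ := concave_seq (fs R m) n hnpos h β (fs_zero hmp)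
    (by
      have := fs_top (R := R) hmp
      rw [hsum] at this
      rw [← hN]
      exact this) hf1
    (fun s hs => fs_concave hmp s (by omega))
  have hp := pencil_ineq (R := R) hη hρ hmin hmp s (by omega) (by omega)
  -- bound for the distance to ρ
  have q1 : av (fun M : GL (Fin N) R => av (fun u : Rˣ => Hd (conv ρ (sm (u : R)
      (wcv (fun j => (M : Matrix (Fin N) (Fin N) R) ⟨s, by omega⟩ j) m))))) ≤
      av (fun u : Rˣ => Hd (conv ρ (sm (u : R) μ))) + β - Hd μ := by
    have t := av_mono (fun M : GL (Fin N) R => conv_row_le (R := R) hρ hμ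
      (isProb_wcv (fun j => (M : Matrix (Fin N) (Fin N) R) ⟨s, by omega⟩ j) hmp))
    simp only [av_sub, av_add, av_const] at t
    have := r1 ⟨s, by omega⟩
    linarith
  have q2 : av (fun M : GL (Fin N) R => av (fun u : Rˣ => Hd (conv ρ (sm (u : R)
      (wcv (fun j => (M : Matrix (Fin N) (Fin N) R) ⟨s, by omega⟩ j) m))))) ≤
      av (fun u : Rˣ => Hd (conv ρ (sm (u : R) ν))) + β - Hd ν := by
    have t := av_mono (fun M : GL (Fin N) R => conv_row_le (R := R) hρ hν
      (isProb_wcv (fun j => (M : Matrix (Fin N) (Fin N) R) ⟨s, by omega⟩ j) hmp))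
    simp only [av_sub, av_add, av_const] at t
    have := r2 ⟨s, by omega⟩
    linarith
  have ht := tau_expand (R := R) η ρ μ ν
  have hD : DD R μ ν = av (fun u : Rˣ => Hd (conv μ (sm (u : R) ν))) - (Hd μ + Hd ν) / 2 := rfl
  rw [← hD, ← hkdef, ← hh] at ht
  rw [ht] at hp
  have hq := mul_le_mul_of_nonneg_left (add_le_add q1 q2) hη
  have hq3 := mul_le_mul_of_nonneg_left hs3 hη
  have hηβ : η * (β - h) ≤ η * (72 * k) := mul_le_mul_of_nonneg_left hβk hη
  have hηk : η * k ≤ (1 / 4 ^ 11) * k := by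
    refine mul_le_mul_of_nonneg_right ?_ hk
    rw [le_div_iff₀ (by positivity)]
    exact hη'
  have hs2' : 3 * ((fs R m (s + 1) - fs R m s) - (fs R m (s + 2) - fs R m (s + 1))) ≤
      3 * (2 * (72 * k) / 1024) := by
    have : 2 * (β - h) / (n : ℝ) ≤ 2 * (72 * k) / 1024 := by
      rw [hnR]
      linarith
    linarith
  have hμν : Hd μ + Hd ν = 2 * h := by rw [hh]; ring
  have fin : k ≤ 3 * (2 * (72 * k) / 1024) + 3 * (η * (β - h)) := by
    nlinarith
  have : k ≤ 0 := by
    norm_num at hηk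
    linarith
  linarith

end

end Pool.Agent.Lib.MP_dd2a7c_co
end

section

/-!
Every residue modulo `m` is a sum of at most three units.
-/

namespace Pool.Agent.Lib.MP_dd2a7c_co

lemma isUnit_of_prime_not_dvd (m : ℕ) (b : ℤ)
    (h : ∀ p : ℕ, p.Prime → p ∣ m → ¬ (p : ℤ) ∣ b) : IsUnit (b : ZMod m) := by
  rw [ZMod.coe_int_isUnit_iff_isCoprime, Int.isCoprime_iff_gcd_eq_one]
  have : Nat.Coprime m b.natAbs := by
    refine Nat.coprime_of_dvd fun p hp hpm hpb => ?_
    exact h p hp hpm (Int.natCast_dvd.2 hpb)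
  rw [Int.gcd]
  simpa using this

/-- Sum of two units. -/
lemma exists_two_units (m n : ℕ) (hm : 0 < m) (h : ¬ 2 ∣ m ∨ 2 ∣ n) :
    ∃ a b : ZMod m, IsUnit a ∧ IsUnit b ∧ (n : ZMod m) = a + b := by
  set g' := Nat.gcd m (n ^ m) with hg'
  have hg'm : g' ∣ m := Nat.gcd_dvd_left _ _
  have hg'pos : 0 < g' := Nat.gcd_pos_of_pos_left _ hm
  obtain ⟨g, hg⟩ := hg'm
  have hgpos : 0 < g := by
    rcases Nat.eq_zero_or_pos g with h0 | h0
    · rw [h0, mul_zero] at hg
      omega
    · exact h0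
  -- primes dividing g' divide n
  have hp1 : ∀ p : ℕ, p.Prime → p ∣ g' → p ∣ n := fun p hp hpg =>
    hp.dvd_of_dvd_pow (hpg.trans (Nat.gcd_dvd_right _ _))
  -- primes dividing g do not divide n
  have hp2 : ∀ p : ℕ, p.Prime → p ∣ g → ¬ p ∣ n := by
    intro p hp hpg hpn
    have hm0 : m ≠ 0 := hm.ne'
    -- p ^ (v + 1) divides m, where v is the valuation of g'
    set v := m.factorization p with hv
    have hvm : p ^ v ∣ m := Nat.ordProj_dvd m p
    have hvlt : v ≤ m := (Nat.factorization_lt p hm0).le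
    have hvn : p ^ v ∣ n ^ m := by
      refine (pow_dvd_pow p hvlt).trans ?_
      exact pow_dvd_pow_of_dvd hpn m
    have hvg : p ^ v ∣ g' := Nat.dvd_gcd hvm hvn
    have : p ^ (v + 1) ∣ m := by
      rw [hg, pow_succ]
      exact mul_dvd_mul hvg hpg
    exact Nat.pow_succ_factorization_not_dvd hm0 hp this
  have hcop : g'.Coprime g := by
    refine Nat.coprime_of_dvd fun p hp h1 h2 => ?_
    exact hp2 p hp h2 (hp1 p hp h1)
  obtain ⟨a, ha1, ha2⟩ := Nat.chineseRemainder hcop 1 (2 * n)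
  have hodd : ∀ p : ℕ, p.Prime → p ∣ g → p ≠ 2 := by
    intro p hp hpg h2
    rw [h2] at hpg
    rcases h with h | h
    · exact h (by rw [hg]; exact hpg.mul_left _)
    · exact hp2 2 Nat.prime_two hpg h
  have hcases : ∀ p : ℕ, p.Prime → p ∣ m → p ∣ g' ∨ p ∣ g := by
    intro p hp hpm
    rw [hg] at hpm
    exact (Nat.Prime.dvd_mul hp).1 hpm
  refine ⟨((a : ℤ) : ZMod m), (((n : ℤ) - a : ℤ) : ZMod m), ?_, ?_, ?_⟩
  · refine isUnit_of_prime_not_dvd m a fun p hp hpm hpa => ?_
    rw [Int.natCast_dvd_natCast] at hpa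
    rcases hcases p hp hpm with h1 | h1
    · have h3 : a ≡ 1 [MOD p] := ha1.of_dvd h1
      have h4 : p ∣ 1 := (h3.dvd_iff (dvd_refl p)).1 hpa
      exact hp.one_lt.ne' (Nat.dvd_one.1 h4)
    · have h3 : a ≡ 2 * n [MOD p] := ha2.of_dvd h1
      have h4 : p ∣ 2 * n := (h3.dvd_iff (dvd_refl p)).1 hpa
      rcases (Nat.Prime.dvd_mul hp).1 h4 with h5 | h5
      · exact hodd p hp h1 ((Nat.prime_dvd_prime_iff_eq hp Nat.prime_two).1 h5)
      · exact hp2 p hp h1 h5
  · refine isUnit_of_prime_not_dvd m _ fun p hp hpm hpa => ?_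
    rcases hcases p hp hpm with h1 | h1
    · have hpn : (p : ℤ) ∣ n := Int.natCast_dvd_natCast.2 (hp1 p hp h1)
      have hpa' : (p : ℤ) ∣ a := by
        have := dvd_sub hpn hpa
        simpa using this
      rw [Int.natCast_dvd_natCast] at hpa'
      have h3 : a ≡ 1 [MOD p] := ha1.of_dvd h1
      have h4 : p ∣ 1 := (h3.dvd_iff (dvd_refl p)).1 hpa'
      exact hp.one_lt.ne' (Nat.dvd_one.1 h4)
    · have h3 : a ≡ 2 * n [MOD p] := ha2.of_dvd h1
      have h4 : (p : ℤ) ∣ (2 * n : ℕ) - (a : ℕ) := h3.dvd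
      have h5 : (p : ℤ) ∣ n := by
        have := dvd_sub h4 hpa
        push_cast at this
        have e : 2 * (n : ℤ) - a - (n - a) = n := by ring
        rwa [e] at this
      exact hp2 p hp h1 (Int.natCast_dvd_natCast.1 h5)
  · push_cast
    ring

lemma sumUnits_zmod (m : ℕ) [NeZero m] : SumUnits (ZMod m) := by
  intro r
  have hm : 0 < m := NeZero.pos m
  have hr : ((r.val : ℕ) : ZMod m) = r := ZMod.natCast_zmod_val r
  by_cases h : ¬ 2 ∣ m ∨ 2 ∣ r.val
  · obtain ⟨a, b, ha, hb, hab⟩ := exists_two_units m r.val hm h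
    refine ⟨a, b, 0, Or.inr ha, Or.inr hb, Or.inl rfl, ?_⟩
    rw [← hr, hab, add_zero]
  · push Not at h
    obtain ⟨h1, h2⟩ := h
    have hodd : 2 ∣ r.val - 1 ∧ 1 ≤ r.val := by omega
    obtain ⟨a, b, ha, hb, hab⟩ := exists_two_units m (r.val - 1) hm (Or.inr hodd.1)
    refine ⟨a, b, 1, Or.inr ha, Or.inr hb, Or.inr isUnit_one, ?_⟩
    rw [← hab, Nat.cast_sub hodd.2, hr]
    simp

end Pool.Agent.Lib.MP_dd2a7c_co
end
end
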