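import Mathlib

/-!
The exponent `O(log m)` in Marton's conjecture for groups of exponent `m` is sharp: any exponent
`α` of `2K` that works for all groups killed by `m` is at least `c log m`.
-/

open Finset
open scoped Pointwise

namespace Pool.Agent.Lib.MP_dd2a7c_co

/-- Two elements of `[0, a)` in the same coset of a subgroup of order at most `a` of `ℤ/m`,
with `a ^ 2 ≤ m`, are equal. -/
theorem eq_of_sub_mem_small {m a : ℕ} [NeZero m] (hm : a ^ 2 ≤ m) (H : AddSubgroup (ZMod m))
    (hH : Nat.card H ≤ a) {x y : ℕ} (hx : x < a) (hy : y < a)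
    (hxy : ((x : ZMod m) - (y : ZMod m)) ∈ H) : x = y := by
  have hHpos : 0 < Nat.card H := Nat.card_pos
  have h1 : (Nat.card H) • (⟨(x : ZMod m) - (y : ZMod m), hxy⟩ : H) = 0 := card_nsmul_eq_zero'
  have h2 : (Nat.card H) • ((x : ZMod m) - (y : ZMod m)) = 0 := congrArg Subtype.val h1
  have h3 : (((Nat.card H : ℤ) * ((x : ℤ) - y) : ℤ) : ZMod m) = 0 := by
    push_cast
    rw [nsmul_eq_mul] at h2
    exact_mod_cast h2
  rw [ZMod.intCast_zmod_eq_zero_iff_dvd] at h3
  by_contra hne
  have hpos : (0 : ℤ) < Nat.card H := by exact_mod_cast hHpos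
  have hne' : (x : ℤ) - y ≠ 0 := by omega
  have h4 : (m : ℤ) ≤ |(Nat.card H : ℤ) * ((x : ℤ) - y)| :=
    Int.le_of_dvd (abs_pos.2 (mul_ne_zero hpos.ne' hne')) ((dvd_abs _ _).2 h3)
  rw [abs_mul, abs_of_pos hpos] at h4
  have h5 : |(x : ℤ) - y| ≤ a - 1 := by
    rw [abs_le]
    constructor <;> omega
  have h6 : (Nat.card H : ℤ) ≤ a := by exact_mod_cast hH
  have h7 : (a : ℤ) ^ 2 ≤ m := by exact_mod_cast hm
  have h8 : (0 : ℤ) ≤ |(x : ℤ) - y| := abs_nonneg _
  have h9 : (0 : ℤ) < a := by omega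
  nlinarith

/-- If distinct elements of `A` are in distinct cosets of `H`, then at least `|A|` cosets
are needed to cover `A`. -/
theorem card_le_of_cover {Γ : Type*} [AddCommGroup Γ] (A T : Finset Γ)
    (H : AddSubgroup Γ) (hcov : (A : Set Γ) ⊆ (T : Set Γ) + (H : Set Γ))
    (hinj : ∀ x ∈ A, ∀ y ∈ A, x - y ∈ H → x = y) : A.card ≤ T.card := by
  have h : ∀ x ∈ A, ∃ t ∈ T, x - t ∈ H := by
    intro x hx
    obtain ⟨t, ht, h, hh, hth⟩ := Set.mem_add.1 (hcov hx)
    exact ⟨t, ht, by rw [← hth]; simpa using hh⟩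
  choose! f hf hf' using h
  refine Finset.card_le_card_of_injOn f (fun x hx => hf x hx) ?_
  intro x hx y hy hxy
  apply hinj x hx y hy
  have h := H.sub_mem (hf' x hx) (hf' y hy)
  simp only [hxy] at h
  simpa using h

theorem card_add_range_cast (m a : ℕ) [NeZero m] (ham : a ≤ m) :
    (((range a).image (fun x : ℕ => (x : ZMod m)) + (range a).image
      (fun x : ℕ => (x : ZMod m))).card : ℝ) ≤ 2 * ((range a).image (fun x : ℕ => (x : ZMod m))).card := by
  have h1 : ((range a).image (fun x : ℕ => (x : ZMod m))).card = a := by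
    rw [Finset.card_image_of_injOn, card_range]
    intro x hx y hy hxy
    have hx' : x < a := by simpa using hx
    have hy' : y < a := by simpa using hy
    have := (ZMod.natCast_eq_natCast_iff' x y m).1 hxy
    rwa [Nat.mod_eq_of_lt (by omega), Nat.mod_eq_of_lt (by omega)] at this
  have h2 : ((range a).image (fun x : ℕ => (x : ZMod m)) + (range a).image
      (fun x : ℕ => (x : ZMod m))) ⊆ (range (2 * a)).image (fun x : ℕ => (x : ZMod m)) := by
    intro z hz
    obtain ⟨x', hx', y', hy', rfl⟩ := Finset.mem_add.1 hz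
    obtain ⟨x, hx, rfl⟩ := Finset.mem_image.1 hx'
    obtain ⟨y, hy, rfl⟩ := Finset.mem_image.1 hy'
    rw [Finset.mem_image]
    refine ⟨x + y, ?_, by push_cast; rfl⟩
    simp only [mem_range] at hx hy ⊢
    omega
  rw [h1]
  calc ((((range a).image (fun x : ℕ => (x : ZMod m)) + (range a).image
      (fun x : ℕ => (x : ZMod m))).card : ℕ) : ℝ)
      ≤ (((range (2 * a)).image (fun x : ℕ => (x : ZMod m))).card : ℕ) := by
        exact_mod_cast card_le_card h2
    _ ≤ ((2 * a : ℕ) : ℝ) := by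
        exact_mod_cast (card_image_le.trans (card_range _).le)
    _ = 2 * a := by push_cast; rfl

/-- The three-point set `{0, e₁, e₂}` in `(ℤ/m)²`. -/
theorem three_point {m : ℕ} (hm : 2 ≤ m) (H : AddSubgroup (ZMod m × ZMod m))
    (hH : Nat.card H ≤ 3) (T : Finset (ZMod m × ZMod m))
    (hcov : ((({0, (1, 0), (0, 1)} : Finset (ZMod m × ZMod m))) : Set (ZMod m × ZMod m)) ⊆
      (T : Set (ZMod m × ZMod m)) + (H : Set (ZMod m × ZMod m))) : 2 ≤ T.card := by
  have : NeZero m := ⟨by omega⟩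
  by_contra hT
  have hT' : T.card ≤ 1 := by omega
  rw [Finset.card_le_one] at hT'
  have key : ∀ x ∈ (({0, (1, 0), (0, 1)} : Finset (ZMod m × ZMod m))),
      ∀ y ∈ (({0, (1, 0), (0, 1)} : Finset (ZMod m × ZMod m))), x - y ∈ H := by
    intro x hx y hy
    obtain ⟨t, ht, h, hh, hth⟩ := Set.mem_add.1 (hcov (by exact_mod_cast hx))
    obtain ⟨t', ht', h', hh', hth'⟩ := Set.mem_add.1 (hcov (by exact_mod_cast hy))
    have hE := hT' t (by exact_mod_cast ht) t' (by exact_mod_cast ht')
    rw [← hth, ← hth', hE]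
    simpa using H.sub_mem hh hh'
  have e1 : ((1, 0) : ZMod m × ZMod m) ∈ H := by
    have := key (1, 0) (by simp) 0 (by simp)
    simpa using this
  have e2 : ((0, 1) : ZMod m × ZMod m) ∈ H := by
    have := key (0, 1) (by simp) 0 (by simp)
    simpa using this
  have htop : H = ⊤ := by
    rw [eq_top_iff]
    rintro ⟨a, b⟩ -
    have h := H.add_mem (H.nsmul_mem e1 a.val) (H.nsmul_mem e2 b.val)
    have h' : a.val • ((1, 0) : ZMod m × ZMod m) + b.val • ((0, 1) : ZMod m × ZMod m) = (a, b) := by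
      ext <;> simp
    rwa [h'] at h
  have hc : Nat.card H = m * m := by
    rw [htop]
    simp
  rw [hc] at hH
  nlinarith

theorem torsion_lower : ∃ c : ℝ, 0 < c ∧ ∀ (m : ℕ), 2 ≤ m → ∀ α : ℝ,
    (∀ (Γ : Type) [AddCommGroup Γ] [DecidableEq Γ], (∀ g : Γ, m • g = 0) →
      ∀ (K : ℝ) (A : Finset Γ), A.Nonempty → ((A + A).card : ℝ) ≤ K * A.card →
      ∃ (H : AddSubgroup Γ) (T : Finset Γ), (H : Set Γ).Finite ∧ Nat.card H ≤ A.card ∧
        (T.card : ℝ) ≤ (2 * K) ^ α ∧ (A : Set Γ) ⊆ (T : Set Γ) + (H : Set Γ)) →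
    c * Real.log m ≤ α := by
  have hlog2 : 0 < Real.log 2 := Real.log_pos (by norm_num)
  have hlog4 : Real.log 4 = 2 * Real.log 2 := by
    rw [show (4 : ℝ) = 2 ^ 2 by norm_num, Real.log_pow]
    push_cast
    ring
  refine ⟨1 / (8 * Real.log 2), by positivity, ?_⟩
  intro m hm α hα
  have : NeZero m := ⟨by omega⟩
  have : Fact (1 < m) := ⟨by omega⟩
  -- first bound
  have hhalf : 1 / 2 ≤ α := by
    obtain ⟨H, T, -, hHc, hT, hcov⟩ := hα (ZMod m × ZMod m) (by
      rintro ⟨a, b⟩
      ext <;> simp) 2 {0, (1, 0), (0, 1)} (by simp) (by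
        have h3 : ({0, (1, 0), (0, 1)} : Finset (ZMod m × ZMod m)).card = 3 := by
          rw [Finset.card_eq_three]
          exact ⟨0, (1, 0), (0, 1), by simp [Prod.ext_iff], by simp [Prod.ext_iff],
            by simp [Prod.ext_iff], rfl⟩
        have h6 : ((({0, (1, 0), (0, 1)} : Finset (ZMod m × ZMod m)) + {0, (1, 0), (0, 1)}).card)
            ≤ 6 := by
          have hsub : (({0, (1, 0), (0, 1)} : Finset (ZMod m × ZMod m)) + {0, (1, 0), (0, 1)}) ⊆
              {0, (1, 0), (0, 1), (1, 1), (1 + 1, 0), (0, 1 + 1)} := by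
            intro z hz
            obtain ⟨x, hx, y, hy, rfl⟩ := Finset.mem_add.1 hz
            simp only [Finset.mem_insert, Finset.mem_singleton] at hx hy ⊢
            rcases hx with rfl | rfl | rfl <;> rcases hy with rfl | rfl | rfl <;> simp
          exact (card_le_card hsub).trans card_le_six
        rw [h3]
        calc (((({0, (1, 0), (0, 1)} : Finset (ZMod m × ZMod m)) +
            {0, (1, 0), (0, 1)}).card : ℕ) : ℝ) ≤ (6 : ℕ) := by exact_mod_cast h6
          _ = 2 * (3 : ℕ) := by norm_num)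
    have h3 : ({0, (1, 0), (0, 1)} : Finset (ZMod m × ZMod m)).card ≤ 3 := card_le_three
    have h2 := three_point hm H (hHc.trans h3) T hcov
    have h2' : (2 : ℝ) ≤ T.card := by exact_mod_cast h2
    by_contra hlt
    push Not at hlt
    have h4 : ((2 : ℝ) * 2) ^ α < (2 * 2) ^ (1 / 2 : ℝ) :=
      Real.rpow_lt_rpow_of_exponent_lt (by norm_num) hlt
    have h5 : ((2 : ℝ) * 2) ^ (1 / 2 : ℝ) = 2 := by
      rw [← Real.sqrt_eq_rpow, Real.sqrt_mul_self (by norm_num)]
    exact absurd (h2'.trans hT) (not_le.2 (h4.trans_eq h5))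
  -- second bound
  set a : ℕ := Nat.sqrt m with ha
  have ha1 : 1 ≤ a := Nat.sqrt_pos.2 (by omega)
  have ham : a ^ 2 ≤ m := Nat.sqrt_le' m
  have ham' : a ≤ m := Nat.sqrt_le_self m
  have hbd : Real.log a ≤ α * (2 * Real.log 2) := by
    obtain ⟨H, T, -, hHc, hT, hcov⟩ := hα (ZMod m) (by
      intro g
      simp) 2 ((range a).image (fun x : ℕ => (x : ZMod m))) (by
        rw [Finset.image_nonempty, Finset.nonempty_range_iff]
        omega) (card_add_range_cast m a ham')
    have h1 : ((range a).image (fun x : ℕ => (x : ZMod m))).card = a := by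
      rw [Finset.card_image_of_injOn, card_range]
      intro x hx y hy hxy
      have hx' : x < a := by simpa using hx
      have hy' : y < a := by simpa using hy
      have := (ZMod.natCast_eq_natCast_iff' x y m).1 hxy
      rwa [Nat.mod_eq_of_lt (by omega), Nat.mod_eq_of_lt (by omega)] at this
    have h2 := card_le_of_cover _ T H hcov (by
      intro x' hx' y' hy' hxy
      obtain ⟨x, hx, rfl⟩ := Finset.mem_image.1 hx'
      obtain ⟨y, hy, rfl⟩ := Finset.mem_image.1 hy'
      rw [eq_of_sub_mem_small ham H (hHc.trans h1.le) (Finset.mem_range.1 hx)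
        (Finset.mem_range.1 hy) hxy])
    rw [h1] at h2
    have h3 : (a : ℝ) ≤ (2 * 2) ^ α := le_trans (by exact_mod_cast h2) hT
    have ha0 : (0 : ℝ) < a := by exact_mod_cast ha1
    calc Real.log a ≤ Real.log ((2 * 2) ^ α) := Real.log_le_log ha0 h3
      _ = α * (2 * Real.log 2) := by
        rw [Real.log_rpow (by norm_num)]
        rw [show (2 : ℝ) * 2 = 4 by norm_num, hlog4]
  have hm0 : (0 : ℝ) < m := by exact_mod_cast (by omega : 0 < m)
  have hlogm : Real.log m ≤ 2 * (Real.log a + Real.log 2) := by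
    have h1 : m < (a + 1) * (a + 1) := Nat.lt_succ_sqrt m
    have h2 : (m : ℝ) ≤ (a * 2) ^ 2 := by
      have : m ≤ (a * 2) ^ 2 := by nlinarith
      exact_mod_cast this
    have ha0 : (0 : ℝ) < a := by exact_mod_cast ha1
    calc Real.log m ≤ Real.log ((a * 2) ^ 2) := Real.log_le_log hm0 h2
      _ = 2 * (Real.log a + Real.log 2) := by
        rw [Real.log_pow, Real.log_mul ha0.ne' (by norm_num)]
        push_cast
        ring
  rw [div_mul_eq_mul_div, one_mul, div_le_iff₀ (by positivity)]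
  nlinarith

end Pool.Agent.Lib.MP_dd2a7c_co
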