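import Pool.Agent.Lib.MP_dd2a7c_co.Finite

/-!
Reduction of the dilate-stable case to finite groups: a set with small sums with all its integer
dilates is covered by few translates of a finite subgroup of comparable size.
-/

namespace Pool.Agent.Lib.MP_dd2a7c_co

open Finset
open scoped Pointwise

variable {Γ : Type*} [AddCommGroup Γ] [DecidableEq Γ]

/-- In a torsion-free group, a generic dilate has no collisions. -/
lemma exists_generic_int {M : Type*} [AddCommGroup M] [IsAddTorsionFree M] (R : Finset M) :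
    ∃ k : ℤ, ∀ s ∈ R, ∀ s' ∈ R, ∀ t ∈ R, ∀ t' ∈ R, s + k • t = s' + k • t' → t = t' := by
  classical
  have hfin : (⋃ x ∈ ((R ×ˢ R) ×ˢ (R ×ˢ R) : Finset ((M × M) × (M × M))),
      {k : ℤ | x.2.1 ≠ x.2.2 ∧ x.1.1 + k • x.2.1 = x.1.2 + k • x.2.2}).Finite := by
    apply Set.Finite.biUnion (Finset.finite_toSet _)
    intro x _
    apply Set.Subsingleton.finite
    rintro k ⟨hne, hk⟩ l ⟨_, hl⟩
    by_contra hkl
    have h1 : (k - l) • (x.2.1 - x.2.2) = 0 := by
      have h2 : k • x.2.1 - k • x.2.2 = x.1.2 - x.1.1 := by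
        rw [sub_eq_sub_iff_add_eq_add, add_comm (k • x.2.1), hk, add_comm]
      have h3 : l • x.2.1 - l • x.2.2 = x.1.2 - x.1.1 := by
        rw [sub_eq_sub_iff_add_eq_add, add_comm (l • x.2.1), hl, add_comm]
      rw [sub_smul, smul_sub, smul_sub, h2, h3, sub_self]
    rw [IsAddTorsionFree.zsmul_eq_zero_iff_left (sub_ne_zero.2 hne)] at h1
    exact hkl (sub_eq_zero.1 h1)
  obtain ⟨k, hk⟩ := hfin.exists_notMem
  refine ⟨k, ?_⟩
  intro s hs s' hs' t ht t' ht' h
  by_contra hne
  apply hk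
  simp only [Set.mem_iUnion]
  exact ⟨((s, s'), (t, t')), by simp [hs, hs', ht, ht'], hne, h⟩

/-- The torsion classes met by `A` are few, so one of them contains a large part of `A`. -/
lemma exists_large_fibre {K : ℝ} {A : Finset Γ} (hA : A.Nonempty)
    (h : ∀ n : ℤ, ((A + A.image (fun a => n • a)).card : ℝ) ≤ K * A.card) :
    ∃ a₀ ∈ A, ∃ F ⊆ A, a₀ ∈ F ∧ (∀ a ∈ F, a - a₀ ∈ AddCommGroup.torsion Γ) ∧
      (A.card : ℝ) ≤ K * F.card := by
  classical
  set π : Γ → Γ ⧸ AddCommGroup.torsion Γ :=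
    fun x => QuotientAddGroup.mk' (AddCommGroup.torsion Γ) x with hπ
  have hπadd : ∀ x y, π (x + y) = π x + π y := map_add (QuotientAddGroup.mk' _)
  have hπsmul : ∀ (k : ℤ) x, π (k • x) = k • π x := map_zsmul (QuotientAddGroup.mk' _)
  set R := A.image π with hR
  obtain ⟨k, hk⟩ := exists_generic_int R
  have hex : ∀ t : Γ ⧸ AddCommGroup.torsion Γ, ∃ a : Γ, t ∈ R → a ∈ A ∧ π a = t := by
    intro t
    by_cases ht : t ∈ R
    · obtain ⟨a, ha, hat⟩ := mem_image.1 ht
      exact ⟨a, fun _ => ⟨ha, hat⟩⟩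
    · exact ⟨0, fun h => absurd h ht⟩
  choose σ hσ using hex
  have hApos : (0 : ℝ) < A.card := Nat.cast_pos.2 hA.card_pos
  have hcard : A.card * R.card ≤ (A + A.image (fun a => k • a)).card := by
    rw [← card_product]
    apply card_le_card_of_injOn (fun x => x.1 + k • σ x.2)
    · rintro ⟨a, t⟩ hx
      simp only [coe_product, Set.mem_prod, mem_coe] at hx
      exact add_mem_add hx.1 (mem_image_of_mem _ (hσ t hx.2).1)
    · rintro ⟨a, t⟩ hx ⟨a', t'⟩ hx' heq
      simp only [coe_product, Set.mem_prod, mem_coe] at hx hx' heq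
      have h1 := congrArg π heq
      rw [hπadd, hπadd, hπsmul, hπsmul, (hσ t hx.2).2, (hσ t' hx'.2).2] at h1
      have h2 := hk _ (mem_image_of_mem _ hx.1) _ (mem_image_of_mem _ hx'.1) t hx.2 t' hx'.2 h1
      subst h2
      simpa using heq
  have hRK : (R.card : ℝ) ≤ K := by
    have h1 : (A.card : ℝ) * R.card ≤ K * A.card := by
      calc (A.card : ℝ) * R.card = ((A.card * R.card : ℕ) : ℝ) := by push_cast; ring
        _ ≤ ((A + A.image (fun a => k • a)).card : ℝ) := by exact_mod_cast hcard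
        _ ≤ K * A.card := h k
    rw [mul_comm] at h1
    exact le_of_mul_le_mul_right h1 hApos
  have hRne : R.Nonempty := hA.image _
  obtain ⟨t, htR, htmax⟩ := exists_max_image R (fun t => (A.filter (fun a => π a = t)).card) hRne
  obtain ⟨a₀, ha₀, ha₀t⟩ := mem_image.1 htR
  refine ⟨a₀, ha₀, A.filter (fun a => π a = t), filter_subset _ _, ?_, ?_, ?_⟩
  · simp [ha₀, ha₀t]
  · intro a ha
    have h1 := (mem_filter.1 ha).2
    rw [← ha₀t] at h1
    have h2 := (QuotientAddGroup.eq).1 h1.symm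
    rwa [neg_add_eq_sub] at h2
  · have h1 := card_eq_sum_card_image π A
    have h2 : A.card ≤ R.card * (A.filter (fun a => π a = t)).card := by
      calc A.card = ∑ b ∈ R, (A.filter (fun a => π a = b)).card := h1
        _ ≤ ∑ _b ∈ R, (A.filter (fun a => π a = t)).card := sum_le_sum (fun b hb => htmax b hb)
        _ = _ := by rw [sum_const, smul_eq_mul]
    calc (A.card : ℝ) ≤ (R.card : ℝ) * ((A.filter (fun a => π a = t)).card : ℝ) := by
          exact_mod_cast h2
      _ ≤ _ := mul_le_mul_of_nonneg_right hRK (Nat.cast_nonneg _)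

/-- A finite set with small sums with all its integer dilates is covered by few translates of a
finite subgroup of comparable size. -/
theorem exists_subgroup_of_dilates {K : ℝ} (hK : 1 ≤ K) {A : Finset Γ} (hA : A.Nonempty)
    (h : ∀ n : ℤ, ((A + A.image (fun a => n • a)).card : ℝ) ≤ K * A.card) :
    ∃ (H : AddSubgroup Γ) (T : Finset Γ), (H : Set Γ).Finite ∧
      (Nat.card H : ℝ) ≤ K ^ (4 ^ 12) * A.card ∧ (T.card : ℝ) ≤ K ^ (2 + 4 ^ 12) ∧
      ∀ a ∈ A, ∃ t ∈ T, ∃ g ∈ H, a = t + g := by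
  classical
  obtain ⟨a₀, ha₀, F, hFA, ha₀F, hFt, hFc⟩ := exists_large_fibre hA h
  have hKpos : 0 < K := by linarith
  set B : Finset Γ := F.image (fun a => a - a₀) with hB
  set G : AddSubgroup Γ := AddSubgroup.closure (B : Set Γ) with hG
  have hGt : G ≤ AddCommGroup.torsion Γ := by
    rw [hG, AddSubgroup.closure_le]
    intro x hx
    obtain ⟨a, ha, rfl⟩ := mem_image.1 (mem_coe.1 hx)
    exact hFt a ha
  have hGfg : AddGroup.FG G := by
    rw [AddGroup.fg_iff_addSubgroup_fg]
    exact ⟨B, rfl⟩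
  have hGtor : IsAddTorsion G := by
    intro g
    have h1 : IsOfFinAddOrder (g : Γ) := hGt g.2
    exact AddSubmonoid.isOfFinAddOrder_coe.1 h1
  have hGfin : Finite G := AddCommGroup.finite_of_fg_isAddTorsion G hGtor
  have : Fintype G := Fintype.ofFinite G
  set B' : Finset G := univ.filter (fun g => (g : Γ) + a₀ ∈ F) with hB'
  -- translation
  have hinj : Function.Injective (fun g : G => (g : Γ) + a₀) := by
    intro x y hxy
    exact Subtype.ext (add_right_cancel hxy)
  have hB'F : B'.image (fun g : G => (g : Γ) + a₀) = F := by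
    ext a
    simp only [mem_image, hB', mem_filter, mem_univ, true_and]
    constructor
    · rintro ⟨g, hg, rfl⟩; exact hg
    · intro ha
      refine ⟨⟨a - a₀, AddSubgroup.subset_closure (mem_coe.2 (mem_image_of_mem _ ha))⟩, ?_, ?_⟩
      · simpa using ha
      · simp
  have hB'c : B'.card = F.card := by
    rw [← hB'F, card_image_of_injective _ hinj]
  have hFne : F.Nonempty := ⟨a₀, ha₀F⟩
  have hFpos : (0 : ℝ) < F.card := Nat.cast_pos.2 hFne.card_pos
  have hB'ne : B'.Nonempty := by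
    rw [← card_pos, hB'c]; exact hFne.card_pos
  -- sums of dilates of `B'`
  have hdil : ∀ n : ℕ, ((B' + dil n B').card : ℝ) ≤ K ^ 2 * B'.card := by
    intro n
    have h1 : (B' + dil n B').card ≤ (A + A.image (fun a => (n : ℤ) • a)).card := by
      apply card_le_card_of_injOn (fun g : G => (g : Γ) + (a₀ + n • a₀))
      · intro x hx
        rw [mem_coe] at hx
        obtain ⟨g, hg, y, hy, rfl⟩ := mem_add.1 hx
        obtain ⟨g', hg', rfl⟩ := mem_image.1 hy
        have h2 : (g : Γ) + a₀ ∈ A := hFA (mem_filter.1 hg).2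
        have h3 : (g' : Γ) + a₀ ∈ A := hFA (mem_filter.1 hg').2
        have h4 : ((g + n • g' : G) : Γ) + (a₀ + n • a₀) =
            ((g : Γ) + a₀) + (n : ℤ) • ((g' : Γ) + a₀) := by
          rw [natCast_zsmul, smul_add]
          push_cast
          abel
        rw [mem_coe]
        simp only
        rw [h4]
        exact add_mem_add h2 (mem_image_of_mem _ h3)
      · intro x _ y _ hxy
        exact Subtype.ext (add_right_cancel hxy)
    calc ((B' + dil n B').card : ℝ) ≤ ((A + A.image (fun a => (n : ℤ) • a)).card : ℝ) := by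
          exact_mod_cast h1
      _ ≤ K * A.card := h n
      _ ≤ K * (K * F.card) := mul_le_mul_of_nonneg_left hFc hKpos.le
      _ = K ^ 2 * B'.card := by rw [hB'c]; ring
  have hB'pos : (0 : ℝ) < B'.card := Nat.cast_pos.2 hB'ne.card_pos
  have hNZ : NeZero (Fintype.card G) := ⟨Fintype.card_ne_zero⟩
  obtain ⟨H, z, hHz⟩ := finite_dilate (G := G) (m := Fintype.card G)
    (fun g => card_nsmul_eq_zero) hB'ne (ℓ := 2 * Real.log K) (by
      intro n _
      have h1 : (0 : ℝ) < ((B' + dil n B').card : ℝ) := by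
        apply Nat.cast_pos.2
        rw [card_pos]
        exact hB'ne.add (hB'ne.image _)
      have h2 := Real.log_le_log h1 (hdil n)
      rw [Real.log_mul (by positivity) hB'pos.ne', Real.log_pow] at h2
      push_cast at h2
      have key : ∀ d1 d2 : DecidableEq G,
          (@HAdd.hAdd (Finset G) (Finset G) (Finset G) (@instHAdd _ (@Finset.add G d1 _)) B'
            (@dil G _ d1 n B')).card =
          (@HAdd.hAdd (Finset G) (Finset G) (Finset G) (@instHAdd _ (@Finset.add G d2 _)) B'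
            (@dil G _ d2 n B')).card := by
        intro d1 d2
        rw [Subsingleton.elim d1 d2]
      exact (le_of_eq (congrArg (fun n : ℕ => Real.log n) (key _ _))).trans h2)
  set q : ℕ := (B'.filter fun a => a - z ∈ H).card with hq
  have hexp : Real.exp (2 * 4 ^ 11 * (2 * Real.log K)) = K ^ (4 ^ 12) := by
    rw [show (2 * 4 ^ 11 * (2 * Real.log K) : ℝ) = ((4 ^ 12 : ℕ) : ℝ) * Real.log K by
      push_cast; ring]
    rw [← Real.log_pow, Real.exp_log (by positivity)]
  rw [hexp] at hHz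
  clear hexp
  obtain ⟨E, hE⟩ : ∃ E : ℕ, E = 4 ^ 12 := ⟨_, rfl⟩
  rw [← hE] at hHz ⊢
  clear hE
  have hHpos : (0 : ℝ) < Nat.card H := Nat.cast_pos.2 Nat.card_pos
  have hqB : q ≤ B'.card := card_filter_le _ _
  have hqH : q ≤ Nat.card H := by
    rw [Nat.card_eq_fintype_card, Fintype.card_subtype]
    apply card_le_card_of_injOn (fun g => g - z)
    · intro g hg
      rw [mem_coe] at hg ⊢
      simpa using (mem_filter.1 hg).2
    · intro a _ b _ hab
      exact sub_left_injective hab
  have hq0 : 0 < q := by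
    by_contra hcon
    have h0 : q = 0 := by omega
    rw [h0] at hHz
    have h1 : 0 < (B'.card : ℝ) * Nat.card H := mul_pos hB'pos hHpos
    rw [Nat.cast_zero, zero_pow two_ne_zero, mul_zero] at hHz
    linarith
  have hqR : (0 : ℝ) < q := Nat.cast_pos.2 hq0
  have hKE : (0 : ℝ) < K ^ E := by positivity
  have hqB' : (q : ℝ) ≤ B'.card := by exact_mod_cast hqB
  have hqH' : (q : ℝ) ≤ Nat.card H := by exact_mod_cast hqH
  have hc1 : (B'.card : ℝ) ≤ K ^ E * q := by
    have h1 : (B'.card : ℝ) * Nat.card H ≤ (K ^ E * q) * Nat.card H := by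
      calc (B'.card : ℝ) * Nat.card H ≤ K ^ E * (q : ℝ) ^ 2 := hHz
        _ = (K ^ E * q) * q := by ring
        _ ≤ _ := mul_le_mul_of_nonneg_left hqH' (by positivity)
    exact le_of_mul_le_mul_right h1 hHpos
  have hc2 : (Nat.card H : ℝ) ≤ K ^ E * B'.card := by
    have h1 : (Nat.card H : ℝ) * B'.card ≤ (K ^ E * B'.card) * B'.card := by
      calc (Nat.card H : ℝ) * B'.card = (B'.card : ℝ) * Nat.card H := mul_comm _ _
        _ ≤ K ^ E * (q : ℝ) ^ 2 := hHz
        _ ≤ K ^ E * (B'.card : ℝ) ^ 2 :=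
            mul_le_mul_of_nonneg_left (pow_le_pow_left₀ hqR.le hqB' 2) hKE.le
        _ = _ := by ring
    exact le_of_mul_le_mul_right h1 hB'pos
  -- the large piece of `A`
  set A₀ : Finset Γ := (B'.filter fun a => a - z ∈ H).image (fun g : G => (g : Γ) + a₀) with hA₀
  have hA₀c : A₀.card = q := card_image_of_injective _ hinj
  have hA₀A : A₀ ⊆ A := by
    intro a ha
    obtain ⟨g, hg, rfl⟩ := mem_image.1 ha
    exact hFA (mem_filter.1 (mem_filter.1 hg).1).2
  have hA₀ne : A₀.Nonempty := by rw [← card_pos, hA₀c]; exact hq0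
  have hcov : ((A + A₀).card : ℝ) ≤ K ^ (2 + E) * A₀.card := by
    have h1 : (A + A₀).card ≤ (A + A.image (fun a => (1 : ℤ) • a)).card := by
      apply card_le_card
      apply add_subset_add_left
      intro a ha
      exact mem_image.2 ⟨a, hA₀A ha, one_zsmul a⟩
    calc ((A + A₀).card : ℝ) ≤ ((A + A.image (fun a => (1 : ℤ) • a)).card : ℝ) := by
          exact_mod_cast h1
      _ ≤ K * A.card := h 1
      _ ≤ K * (K * F.card) := mul_le_mul_of_nonneg_left hFc hKpos.le
      _ = K ^ 2 * B'.card := by rw [hB'c]; ring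
      _ ≤ K ^ 2 * (K ^ E * q) := mul_le_mul_of_nonneg_left hc1 (by positivity)
      _ = K ^ (2 + E) * A₀.card := by rw [hA₀c, pow_add]; ring
  obtain ⟨T, _, hTc, hT⟩ := ruzsa_covering_add hA₀ne hcov
  refine ⟨H.map G.subtype, T, ?_, ?_, hTc, ?_⟩
  · rw [AddSubgroup.coe_map]
    exact (Set.toFinite _).image _
  · have h1 : Nat.card (H.map G.subtype) = Nat.card H :=
      Nat.card_congr (H.equivMapOfInjective G.subtype (AddSubgroup.subtype_injective G)).toEquiv.symm
    rw [h1]
    refine hc2.trans ?_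
    apply mul_le_mul_of_nonneg_left _ hKE.le
    rw [hB'c]
    exact_mod_cast card_le_card hFA
  · intro a ha
    obtain ⟨t, ht, y, hy, rfl⟩ := mem_add.1 (hT ha)
    refine ⟨t, ht, y, ?_, rfl⟩
    obtain ⟨x1, hx1, x2, hx2, rfl⟩ := mem_sub.1 hy
    obtain ⟨g1, hg1, rfl⟩ := mem_image.1 hx1
    obtain ⟨g2, hg2, rfl⟩ := mem_image.1 hx2
    have h1 := (mem_filter.1 hg1).2
    have h2 := (mem_filter.1 hg2).2
    have h3 := H.sub_mem h1 h2
    rw [sub_sub_sub_cancel_right] at h3
    refine ⟨g1 - g2, h3, ?_⟩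
    simp

end Pool.Agent.Lib.MP_dd2a7c_co
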