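import Mathlib

/-!
A Balog-Szemeredi-Gowers lemma for difference sets along a dense graph.
-/

namespace Pool.Agent.Lib.MP_dd2a7c_co

open Finset
open scoped Pointwise

section bsg

variable {G : Type*} [AddCommGroup G] [DecidableEq G]

/-- left neighbours of `v` -/
private def nl (B D : Finset G) (v : G) : Finset G := B.filter (fun b => b - v ∈ D)

/-- right neighbours of `b` -/
private def nr (B D : Finset G) (b : G) : Finset G := B.filter (fun v => b - v ∈ D)

private lemma sum_nl (B D : Finset G) :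
    ∑ v ∈ B, ((nl B D v).card : ℝ) =
      (((B ×ˢ B).filter (fun q => q.1 - q.2 ∈ D)).card : ℝ) := by
  rw [← Nat.cast_sum]
  congr 1
  rw [card_filter, sum_product_right]
  refine sum_congr rfl fun v _ => ?_
  unfold nl
  rw [card_filter]

private lemma sum_bad (B D : Finset G) (p : G → G → Prop) [DecidableRel p] :
    ∑ v ∈ B, (((nl B D v ×ˢ nl B D v).filter (fun q => p q.1 q.2)).card : ℝ) =
      ∑ q ∈ (B ×ˢ B).filter (fun q => p q.1 q.2), ((nr B D q.1 ∩ nr B D q.2).card : ℝ) := by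
  rw [← Nat.cast_sum, ← Nat.cast_sum]
  congr 1
  have h1 : ∀ v ∈ B, ((nl B D v ×ˢ nl B D v).filter (fun q => p q.1 q.2)).card =
      ∑ q ∈ (B ×ˢ B).filter (fun q => p q.1 q.2),
        if (q.1 - v ∈ D ∧ q.2 - v ∈ D) then 1 else 0 := by
    intro v _
    rw [← card_filter]
    congr 1
    ext q
    simp only [nl, mem_filter, mem_product]
    tauto
  have h2 : ∀ q ∈ (B ×ˢ B).filter (fun q => p q.1 q.2), (nr B D q.1 ∩ nr B D q.2).card =
      ∑ v ∈ B, if (q.1 - v ∈ D ∧ q.2 - v ∈ D) then 1 else 0 := by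
    intro q _
    rw [← card_filter]
    congr 1
    ext v
    simp only [nr, mem_filter, mem_inter]
    tauto
  rw [sum_congr rfl h1, sum_congr rfl h2, sum_comm]

/-- Balog-Szemeredi-Gowers for differences. -/
theorem bsg_diff (B D : Finset G) (δ : ℝ) (hδ : 0 < δ) (hB : B.Nonempty)
    (h : δ * (B.card : ℝ) ^ 2 ≤ (((B ×ˢ B).filter (fun q => q.1 - q.2 ∈ D)).card : ℝ)) :
    ∃ B' ⊆ B, δ / 4 * B.card ≤ B'.card ∧
      ((B' - B').card : ℝ) * (δ ^ 5 * (B.card : ℝ) ^ 3) ≤ 1024 * (D.card : ℝ) ^ 4 := by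
  classical
  set n : ℝ := (B.card : ℝ) with hn
  have hn0 : 0 < n := by rw [hn]; exact_mod_cast hB.card_pos
  set η : ℝ := δ ^ 2 / 16 with hη
  have hη0 : 0 < η := by rw [hη]; positivity
  set bad : G → G → Prop := fun b b' => ((nr B D b ∩ nr B D b').card : ℝ) < η * n with hbad
  -- choice of the vertex
  have hs1 : δ * n ^ 2 ≤ ∑ v ∈ B, ((nl B D v).card : ℝ) := by rw [sum_nl]; exact h
  have hs2 : δ ^ 2 * n ^ 3 ≤ ∑ v ∈ B, ((nl B D v).card : ℝ) ^ 2 := by
    have hcs := sq_sum_le_card_mul_sum_sq (s := B) (f := fun v => ((nl B D v).card : ℝ))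
    have h1 : (δ * n ^ 2) ^ 2 ≤ (∑ v ∈ B, ((nl B D v).card : ℝ)) ^ 2 :=
      pow_le_pow_left₀ (by positivity) hs1 2
    have h2 : (δ * n ^ 2) ^ 2 ≤ n * ∑ v ∈ B, ((nl B D v).card : ℝ) ^ 2 := h1.trans hcs
    have h3 : n * (δ ^ 2 * n ^ 3) ≤ n * ∑ v ∈ B, ((nl B D v).card : ℝ) ^ 2 := by
      calc n * (δ ^ 2 * n ^ 3) = (δ * n ^ 2) ^ 2 := by ring
        _ ≤ _ := h2
    exact le_of_mul_le_mul_left h3 hn0
  have hs3 : ∑ v ∈ B, (((nl B D v ×ˢ nl B D v).filter (fun q => bad q.1 q.2)).card : ℝ) ≤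
      η * n ^ 3 := by
    have hsb : ∑ v ∈ B, (((nl B D v ×ˢ nl B D v).filter (fun q => bad q.1 q.2)).card : ℝ) =
        ∑ q ∈ (B ×ˢ B).filter (fun q => bad q.1 q.2), ((nr B D q.1 ∩ nr B D q.2).card : ℝ) :=
      sum_bad B D bad
    rw [hsb]
    calc ∑ q ∈ (B ×ˢ B).filter (fun q => bad q.1 q.2), ((nr B D q.1 ∩ nr B D q.2).card : ℝ)
        ≤ ∑ _q ∈ (B ×ˢ B).filter (fun q => bad q.1 q.2), η * n := by
          refine sum_le_sum fun q hq => ?_
          exact (mem_filter.1 hq).2.le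
      _ = (((B ×ˢ B).filter (fun q => bad q.1 q.2)).card : ℝ) * (η * n) := by
          rw [sum_const, nsmul_eq_mul]
      _ ≤ ((B ×ˢ B).card : ℝ) * (η * n) := by
          refine mul_le_mul_of_nonneg_right ?_ (by positivity)
          exact_mod_cast card_filter_le _ _
      _ = η * n ^ 3 := by rw [card_product]; push_cast; ring
  obtain ⟨v, hv, hvN⟩ : ∃ v ∈ B, δ ^ 2 / 2 * n ^ 2 ≤ ((nl B D v).card : ℝ) ^ 2 -
      8 * (((nl B D v ×ˢ nl B D v).filter (fun q => bad q.1 q.2)).card : ℝ) := by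
    by_contra hcon
    push Not at hcon
    have hlt := sum_lt_sum_of_nonempty hB hcon
    rw [sum_sub_distrib, ← mul_sum, sum_const, nsmul_eq_mul] at hlt
    have : δ ^ 2 * n ^ 3 - 8 * (η * n ^ 3) < n * (δ ^ 2 / 2 * n ^ 2) := by
      calc δ ^ 2 * n ^ 3 - 8 * (η * n ^ 3) ≤ _ := by linarith
        _ < _ := hlt
    rw [hη] at this
    nlinarith
  set N := nl B D v with hN
  set m : ℝ := (N.card : ℝ) with hm
  set bd : ℝ := (((N ×ˢ N).filter (fun q => bad q.1 q.2)).card : ℝ) with hbd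
  have hbd0 : 0 ≤ bd := Nat.cast_nonneg _
  have hm0 : 0 ≤ m := Nat.cast_nonneg _
  have hm1 : δ / 2 * n ≤ m := by
    have : (δ / 2 * n) ^ 2 ≤ m ^ 2 := by nlinarith [sq_nonneg (δ * n)]
    exact le_of_sq_le_sq this hm0
  have hm2 : δ * n ≤ 1.5 * m := by
    have : (δ * n) ^ 2 ≤ (1.5 * m) ^ 2 := by nlinarith [sq_nonneg (δ * n)]
    exact le_of_sq_le_sq this (by positivity)
  have hmpos : 0 < m := lt_of_lt_of_le (by positivity) hm1
  have hbdm : 8 * bd ≤ m ^ 2 := by nlinarith [sq_nonneg (δ * n)]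
  -- the set
  set B' := N.filter (fun b => ((N.filter (fun b' => bad b b')).card : ℝ) ≤ m / 4) with hB'
  have hNB : N ⊆ B := filter_subset _ _
  have hB'N : B' ⊆ N := filter_subset _ _
  have hcomp : ((N \ B').card : ℝ) * (m / 4) ≤ bd := by
    have e : bd = ∑ b ∈ N, ((N.filter (fun b' => bad b b')).card : ℝ) := by
      rw [hbd, ← Nat.cast_sum]
      congr 1
      rw [card_filter, sum_product]
      refine sum_congr rfl fun b _ => ?_
      rw [card_filter]
    rw [e]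
    calc ((N \ B').card : ℝ) * (m / 4) = ∑ _b ∈ N \ B', m / 4 := by
          rw [sum_const, nsmul_eq_mul]
      _ ≤ ∑ b ∈ N \ B', ((N.filter (fun b' => bad b b')).card : ℝ) := by
          refine sum_le_sum fun b hb => ?_
          rw [mem_sdiff, hB', mem_filter, not_and] at hb
          exact (not_le.1 (hb.2 hb.1)).le
      _ ≤ ∑ b ∈ N, ((N.filter (fun b' => bad b b')).card : ℝ) :=
          sum_le_sum_of_subset_of_nonneg sdiff_subset fun _ _ _ => Nat.cast_nonneg _
  have hcard : ((N \ B').card : ℝ) + B'.card = m := by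
    rw [hm]
    exact_mod_cast card_sdiff_add_card_eq_card hB'N
  have hB'm : m / 2 ≤ B'.card := by
    have h1 : ((N \ B').card : ℝ) * (m / 4) ≤ (m / 2) * (m / 4) := by nlinarith
    have h2 : ((N \ B').card : ℝ) ≤ m / 2 := le_of_mul_le_mul_right h1 (by positivity)
    linarith
  refine ⟨B', hB'N.trans hNB, ?_, ?_⟩
  · nlinarith
  -- representations
  have hrep : ∀ d ∈ B' - B', m / 2 * (η * n) ^ 2 ≤
      (((D ×ˢ D) ×ˢ (D ×ˢ D)).filter (fun q => q.1.1 - q.1.2 + (q.2.1 - q.2.2) = d)).card := by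
    intro d hd
    obtain ⟨b, hb, b', hb', rfl⟩ := mem_sub.1 hd
    have hbN := hB'N hb
    have hb'N := hB'N hb'
    set Y := N.filter (fun y => ¬ bad b y ∧ ¬ bad b' y) with hY
    have hYc : m / 2 ≤ Y.card := by
      have hsub : N ⊆ Y ∪ (N.filter (fun y => bad b y) ∪ N.filter (fun y => bad b' y)) := by
        intro y hy
        simp only [hY, mem_union, mem_filter]
        tauto
      have h1 : (N.card : ℝ) ≤ Y.card + ((N.filter (fun y => bad b y)).card +
          (N.filter (fun y => bad b' y)).card) := by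
        exact_mod_cast (card_le_card hsub).trans ((card_union_le _ _).trans
          (Nat.add_le_add_left (card_union_le _ _) _))
      have h2 := (mem_filter.1 hb).2
      have h3 := (mem_filter.1 hb').2
      linarith
    set Z := Y.sigma (fun y => (nr B D b ∩ nr B D y) ×ˢ (nr B D b' ∩ nr B D y)) with hZ
    have hZc : m / 2 * (η * n) ^ 2 ≤ Z.card := by
      rw [hZ, card_sigma]
      push_cast
      calc m / 2 * (η * n) ^ 2 ≤ (Y.card : ℝ) * (η * n) ^ 2 :=
            mul_le_mul_of_nonneg_right hYc (by positivity)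
        _ = ∑ _y ∈ Y, (η * n) ^ 2 := by rw [sum_const, nsmul_eq_mul]
        _ ≤ ∑ y ∈ Y, ((((nr B D b ∩ nr B D y) ×ˢ (nr B D b' ∩ nr B D y)).card : ℕ) : ℝ) := by
            refine sum_le_sum fun y hy => ?_
            have h1 := (mem_filter.1 hy).2
            rw [card_product]
            push_cast
            have h2 : η * n ≤ ((nr B D b ∩ nr B D y).card : ℝ) := not_lt.1 h1.1
            have h3 : η * n ≤ ((nr B D b' ∩ nr B D y).card : ℝ) := not_lt.1 h1.2
            rw [sq]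
            exact mul_le_mul h2 h3 (by positivity) (Nat.cast_nonneg _)
    refine hZc.trans ?_
    have : Z.card ≤ (((D ×ˢ D) ×ˢ (D ×ˢ D)).filter
        (fun q => q.1.1 - q.1.2 + (q.2.1 - q.2.2) = b - b')).card := by
      refine card_le_card_of_injOn
        (fun z => ((b - z.2.1, z.1 - z.2.1), (z.1 - z.2.2, b' - z.2.2))) ?_ ?_
      · intro z hz
        rw [mem_coe, hZ, mem_sigma, mem_product, mem_inter, mem_inter] at hz
        simp only [nr, mem_filter] at hz
        simp only [coe_filter, mem_product, Set.mem_ofPred_eq]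
        refine ⟨⟨⟨hz.2.1.1.2, hz.2.1.2.2⟩, ⟨hz.2.2.2.2, hz.2.2.1.2⟩⟩, by abel⟩
      · rintro ⟨y, x, w⟩ _ ⟨y', x', w'⟩ _ he
        simp only [Prod.mk.injEq] at he
        obtain ⟨⟨h1, h2⟩, h3, h4⟩ := he
        have hx : x = x' := by simpa using h1
        have hw : w = w' := by simpa using h4
        subst hx
        subst hw
        have hy : y = y' := by simpa using h2
        subst hy
        rfl
    exact_mod_cast this
  have hsum : ∑ d ∈ B' - B', ((((D ×ˢ D) ×ˢ (D ×ˢ D)).filter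
      (fun q => q.1.1 - q.1.2 + (q.2.1 - q.2.2) = d)).card : ℝ) ≤ (D.card : ℝ) ^ 4 := by
    have h1 : ∑ d ∈ B' - B', (((D ×ˢ D) ×ˢ (D ×ˢ D)).filter
      (fun q => q.1.1 - q.1.2 + (q.2.1 - q.2.2) = d)).card ≤ ((D ×ˢ D) ×ˢ (D ×ˢ D)).card := by
      have := card_eq_sum_card_fiberwise (s := ((D ×ˢ D) ×ˢ (D ×ˢ D)).filter
        (fun q => q.1.1 - q.1.2 + (q.2.1 - q.2.2) ∈ B' - B'))
        (f := fun q => q.1.1 - q.1.2 + (q.2.1 - q.2.2)) (t := B' - B')
        (fun q hq => (mem_filter.1 hq).2)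
      refine le_trans (le_of_eq ?_) (card_filter_le _
        (fun q => q.1.1 - q.1.2 + (q.2.1 - q.2.2) ∈ B' - B'))
      rw [this]
      refine sum_congr rfl fun d hd => ?_
      congr 1
      ext q
      simp only [mem_filter]
      constructor
      · rintro ⟨h1, h2⟩
        exact ⟨⟨h1, h2 ▸ hd⟩, h2⟩
      · rintro ⟨⟨h1, _⟩, h2⟩
        exact ⟨h1, h2⟩
    have h2 : (((D ×ˢ D) ×ˢ (D ×ˢ D)).card : ℝ) = (D.card : ℝ) ^ 4 := by
      simp only [card_product]
      push_cast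
      ring
    rw [← h2]
    exact_mod_cast h1
  have hfin : ((B' - B').card : ℝ) * (m / 2 * (η * n) ^ 2) ≤ (D.card : ℝ) ^ 4 := by
    calc ((B' - B').card : ℝ) * (m / 2 * (η * n) ^ 2)
        = ∑ _d ∈ B' - B', m / 2 * (η * n) ^ 2 := by rw [sum_const, nsmul_eq_mul]
      _ ≤ _ := (sum_le_sum hrep).trans hsum
  have hlow : δ ^ 5 * n ^ 3 ≤ 1024 * (m / 2 * (η * n) ^ 2) := by
    have e : 1024 * (m / 2 * (η * n) ^ 2) = 2 * m * (δ ^ 4 * n ^ 2) := by
      rw [hη]; ring
    rw [e]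
    have e2 : δ ^ 5 * n ^ 3 = (δ * n) * (δ ^ 4 * n ^ 2) := by ring
    rw [e2]
    refine mul_le_mul_of_nonneg_right ?_ (by positivity)
    linarith
  calc ((B' - B').card : ℝ) * (δ ^ 5 * n ^ 3)
      ≤ ((B' - B').card : ℝ) * (1024 * (m / 2 * (η * n) ^ 2)) :=
        mul_le_mul_of_nonneg_left hlow (Nat.cast_nonneg _)
    _ = 1024 * (((B' - B').card : ℝ) * (m / 2 * (η * n) ^ 2)) := by ring
    _ ≤ 1024 * (D.card : ℝ) ^ 4 := mul_le_mul_of_nonneg_left hfin (by norm_num)

end bsg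

end Pool.Agent.Lib.MP_dd2a7c_co
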