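import Pool.Agent.Lib.MP_dd2a7c_co.WeakQuot

/-!
Large subsets of small dimension: if `|A + A| ≤ K |A|` and `π` is a homomorphism to `ℤ^d`, then a
subset of `A` of size at least `K ^ (-C) |A|` is mapped by `π` to a coset of a subgroup of rank
at most `C log K`.
-/

namespace Pool.Agent.Lib.MP_dd2a7c_co

open Finset
open scoped Classical Pointwise

noncomputable section

universe u

/-- The structure of an exact minimizer. -/
lemma exists_min_weights {G : Type u} [AddCommGroup G] (A : Finset G) (K : ℝ) (hA : A.Nonempty)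
    (hK : ((A + A).card : ℝ) ≤ K * A.card) {η : ℝ} (hη : η = 1 / (6 * 4 ^ 11)) :
    ∃ p q u : A → ℝ, IsProb p ∧ IsProb q ∧ IsProb u ∧
      (∀ p' q' : A → ℝ, IsProb p' → IsProb q' →
        Phi (fun ω : A => (ω : G)) u η p q ≤ Phi (fun ω : A => (ω : G)) u η p' q') ∧
      Hs p q (fun ω : A => (ω : G)) (fun ω : A => (ω : G)) -
        (ent p (fun ω : A => (ω : G)) + ent q (fun ω : A => (ω : G))) / 2 ≤ 2 * Real.log K ∧
      Real.log A.card - ent p (fun ω : A => (ω : G)) ≤ 8 / η * Real.log K := by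
  have hApos : (0 : ℝ) < A.card := Nat.cast_pos.2 hA.card_pos
  haveI : Nonempty A := hA.to_subtype
  have hη0 : 0 < η := by rw [hη]; positivity
  have hη1 : η ≤ 1 := by rw [hη]; norm_num
  set x : A → G := fun ω => (ω : G) with hx
  have hK1 : 1 ≤ K := by
    have h1 : (A.card : ℝ) ≤ (A + A).card := by
      exact_mod_cast card_le_card_add_right hA
    have h2 : 1 * (A.card : ℝ) ≤ K * A.card := by linarith
    exact le_of_mul_le_mul_right h2 hApos
  have hlogK : 0 ≤ Real.log K := Real.log_nonneg hK1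
  let u : A → ℝ := fun _ => 1 / (A.card : ℝ)
  have hu : IsProb u := by
    refine ⟨fun _ => by positivity, ?_⟩
    simp only [u, sum_const, nsmul_eq_mul, card_univ, Fintype.card_coe]
    field_simp
  have hentu : ent u x = Real.log A.card := by
    apply le_antisymm
    · exact ent_le_log_card hu x A fun ω _ => ω.2
    · have h1 : ∀ a, pr u x a ≤ 1 / (A.card : ℝ) := by
        intro a
        unfold pr
        by_cases ha : a ∈ A
        · rw [sum_eq_single (⟨a, ha⟩ : A)]
          · rw [if_pos rfl]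
          · intro b _ hb
            rw [if_neg]
            intro h
            exact hb (Subtype.ext h)
          · intro h
            exact absurd (mem_univ _) h
        · rw [sum_eq_zero]
          · positivity
          · intro b _
            rw [if_neg]
            intro h
            exact ha (h ▸ b.2)
      have := neg_log_le_ent hu x h1
      rwa [one_div, Real.log_inv, neg_neg] at this
  have hsum : Hs u u x x ≤ Real.log K + Real.log A.card := by
    have h1 : Hs u u x x ≤ Real.log (A + A).card :=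
      ent_le_log_card (isProb_prod hu hu) _ _ fun ω _ => add_mem_add ω.1.2 ω.2.2
    have h2 : Real.log (A + A).card ≤ Real.log (K * A.card) :=
      Real.log_le_log (Nat.cast_pos.2 (hA.add hA).card_pos) hK
    rw [Real.log_mul (by linarith) hApos.ne'] at h2
    linarith
  obtain ⟨p, q, hp, hq, hmin⟩ := exists_min_Phi x u η
  have hPu := hmin u u hu hu
  have hD0 : 0 ≤ Hs p q x x - (ent p x + ent q x) / 2 := by
    have := ent_le_Hs_left hp hq x x
    have := ent_le_Hs_right hp hq x x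
    linarith
  have hcp1 := ent_le_Hs_left hu hp x x
  have hcp2 := ent_le_Hs_right hu hp x x
  have hcq1 := ent_le_Hs_left hu hq x x
  have hcq2 := ent_le_Hs_right hu hq x x
  unfold Phi at hPu
  rw [hentu] at hPu hcp1 hcq1
  have hc : 0 ≤ Hs u p x x + Hs u q x x - Real.log A.card - (ent p x + ent q x) / 2 := by
    linarith
  have hPu2 : Hs p q x x - (ent p x + ent q x) / 2 +
      η / 2 * (Hs u p x x + Hs u q x x - Real.log A.card - (ent p x + ent q x) / 2) ≤
      2 * Real.log K := by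
    refine hPu.trans ?_
    have h1 : η / 2 * (Hs u u x x + Hs u u x x - Real.log A.card -
        (Real.log A.card + Real.log A.card) / 2) ≤ 1 / 2 * (2 * Real.log K) := by
      apply mul_le_mul (by linarith) (by linarith) _ (by norm_num)
      have := ent_le_Hs_left hu hu x x
      rw [hentu] at this
      linarith
    linarith
  refine ⟨p, q, u, hp, hq, hu, hmin, ?_, ?_⟩
  · have : 0 ≤ η / 2 * (Hs u p x x + Hs u q x x - Real.log A.card -
      (ent p x + ent q x) / 2) := mul_nonneg (by linarith) hc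
    linarith
  · have h1 : η / 2 * ((Real.log A.card - ent p x) / 2) ≤ 2 * Real.log K := by
      have h2 : η / 2 * ((Real.log A.card - ent p x) / 2) ≤
          η / 2 * (Hs u p x x + Hs u q x x - Real.log A.card - (ent p x + ent q x) / 2) :=
        mul_le_mul_of_nonneg_left (by linarith) (by linarith)
      linarith
    rw [div_mul_eq_mul_div, le_div_iff₀ hη0]
    linarith

/-- **Large subsets of small dimension.** -/
theorem weak_pfr : ∃ C : ℝ, 1 ≤ C ∧ ∀ {G : Type u} [AddCommGroup G] [DecidableEq G] {d : ℕ}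
    (π : G →+ (Fin d → ℤ)) (A : Finset G) (K : ℝ), A.Nonempty →
    ((A + A).card : ℝ) ≤ K * A.card →
    ∃ A' ⊆ A, A'.Nonempty ∧ (A.card : ℝ) ≤ K ^ C * A'.card ∧
      ∃ (r : ℕ) (b : Fin r → (Fin d → ℤ)), LinearIndependent ℤ b ∧ (r : ℝ) ≤ C * Real.log K ∧
        ∀ x ∈ A', ∀ y ∈ A', π x - π y ∈ Submodule.span ℤ (Set.range b) := by
  refine ⟨48 * 4 ^ 11, by norm_num, ?_⟩
  intro G _ inst d π A K hA hK
  have hinst : inst = Classical.decEq G := Subsingleton.elim _ _
  subst hinst
  have hApos : (0 : ℝ) < A.card := Nat.cast_pos.2 hA.card_pos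
  have hK1 : 1 ≤ K := by
    have h1 : (A.card : ℝ) ≤ (A + A).card := by
      exact_mod_cast card_le_card_add_right hA
    have h2 : 1 * (A.card : ℝ) ≤ K * A.card := by linarith
    exact le_of_mul_le_mul_right h2 hApos
  have hlogK : 0 ≤ Real.log K := Real.log_nonneg hK1
  set η : ℝ := 1 / (6 * 4 ^ 11) with hη
  have hη0 : 0 < η := by rw [hη]; positivity
  obtain ⟨p, q, u, hp, hq, hu, hmin, hD, hE⟩ := exists_min_weights A K hA hK hη
  set x : A → G := fun ω => (ω : G) with hx
  have hsupp : ∀ {p : A → ℝ}, IsProb p → ∃ ω, p ω ≠ 0 := by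
    intro p hp
    by_contra hcon
    push Not at hcon
    have := hp.sum_one
    simp [hcon] at this
  obtain ⟨ω₀, hω₀⟩ := hsupp hp
  obtain ⟨υ₀, hυ₀⟩ := hsupp hq
  -- the lattice
  set S₀ : Set (Fin d → ℤ) := {z | ∃ ω, p ω ≠ 0 ∧ z = π (x ω) - π (x ω₀)} ∪
    {z | ∃ ω, q ω ≠ 0 ∧ z = π (x ω) - π (x υ₀)} with hS₀
  set L : Submodule ℤ (Fin d → ℤ) := Submodule.span ℤ S₀ with hL
  have hmemp : ∀ {ω}, p ω ≠ 0 → π (x ω) - π (x ω₀) ∈ L := fun {ω} h =>
    Submodule.subset_span (Or.inl ⟨ω, h, rfl⟩)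
  have hmemq : ∀ {ω}, q ω ≠ 0 → π (x ω) - π (x υ₀) ∈ L := fun {ω} h =>
    Submodule.subset_span (Or.inr ⟨ω, h, rfl⟩)
  set r := Module.finrank ℤ L with hr
  let bL : Module.Basis (Fin r) ℤ L := Module.finBasis ℤ L
  let φ : L →+ (Fin r → ZMod 2) :=
    { toFun := fun z i => ((bL.repr z i : ℤ) : ZMod 2)
      map_zero' := by
        funext i
        simp
      map_add' := fun z w => by
        funext i
        simp }
  have hφsurj : Function.Surjective φ := by
    intro y
    refine ⟨∑ i, ((y i).val : ℤ) • bL i, ?_⟩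
    funext i
    change ((bL.repr (∑ i, ((y i).val : ℤ) • bL i) i : ℤ) : ZMod 2) = y i
    rw [bL.repr_sum_self]
    simp
  have hexp : ∀ z : Fin r → ZMod 2, 2 • z = 0 := by
    intro z
    funext i
    simp only [Pi.smul_apply, Pi.zero_apply, nsmul_eq_mul]
    have : ((2 : ℕ) : ZMod 2) = 0 := by decide
    rw [this, zero_mul]
  have hφ2 : ∀ z : L, φ (2 • z) = 0 := fun z => by rw [map_nsmul, hexp]
  let f : A → (Fin r → ZMod 2) := fun ω =>
    if h : p ω ≠ 0 then φ ⟨π (x ω) - π (x ω₀), hmemp h⟩ else 0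
  let g : A → (Fin r → ZMod 2) := fun ω =>
    if h : q ω ≠ 0 then φ ⟨π (x ω) - π (x υ₀), hmemq h⟩ else 0
  have hf : ∀ {ω} (h : p ω ≠ 0), f ω = φ ⟨π (x ω) - π (x ω₀), hmemp h⟩ := fun {ω} h => dif_pos h
  have hg : ∀ {ω} (h : q ω ≠ 0), g ω = φ ⟨π (x ω) - π (x υ₀), hmemq h⟩ := fun {ω} h => dif_pos h
  -- fibring
  have hfg : ∀ ω ω' υ υ', p ω ≠ 0 → p ω' ≠ 0 → q υ ≠ 0 → q υ' ≠ 0 →
      x ω + x υ = x ω' + x υ' → f ω + g υ = f ω' + g υ' := by
    intro ω ω' υ υ' h1 h2 h3 h4 he
    rw [hf h1, hf h2, hg h3, hg h4, ← map_add, ← map_add]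
    congr 1
    apply Subtype.ext
    have : π (x ω) + π (x υ) = π (x ω') + π (x υ') := by rw [← map_add, ← map_add, he]
    change (π (x ω) - π (x ω₀)) + (π (x υ) - π (x υ₀)) =
      (π (x ω') - π (x ω₀)) + (π (x υ') - π (x υ₀))
    have e : ∀ a b c d : Fin d → ℤ, (a - b) + (c - d) = (a + c) - (b + d) := by
      intro a b c d
      abel
    rw [e, e, this]
  have hfib : ∀ V : AddSubgroup (Fin r → ZMod 2),
      Hs p q (fun ω => (QuotientAddGroup.mk (f ω) : (Fin r → ZMod 2) ⧸ V))
      (fun ω => (QuotientAddGroup.mk (g ω) : (Fin r → ZMod 2) ⧸ V)) ≤ (1 / 2 + η / 4) *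
      (ent p (fun ω => (QuotientAddGroup.mk (f ω) : (Fin r → ZMod 2) ⧸ V)) +
        ent q (fun ω => (QuotientAddGroup.mk (g ω) : (Fin r → ZMod 2) ⧸ V))) := by
    intro V
    refine fibring hη0.le hu hp hq hmin _ _ fun ω ω' υ υ' h1 h2 h3 h4 he => ?_
    have := hfg ω ω' υ υ' h1 h2 h3 h4 he
    rw [← QuotientAddGroup.mk_add, ← QuotientAddGroup.mk_add, this]
  obtain ⟨V, hVf, hVg, hVcard⟩ := exists_exact_subgroup hp hq hexp f g hη hfib
  -- the entropies of the residues
  have htf : ∀ z : Fin d → ℤ, 2 • z = 0 → z = 0 := by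
    intro z hz
    funext i
    have := congrFun hz i
    simp only [Pi.smul_apply, Pi.zero_apply, nsmul_eq_mul] at this ⊢
    push_cast at this
    omega
  have hcontr := contraction hp hq x x π
  have hfe : ent p f ≤ 8 * Real.log K := by
    have h1 := ent_mod_two hp hq (fun ω => π (x ω)) (fun ω => π (x ω)) htf f (by
      intro ω ω' h1 h2 he
      rw [hf h1, hf h2]
      congr 2
      rw [he]) (by
      intro ω ω' υ υ' h1 h2 h3 h4 he
      rw [hf h1, hf h2]
      have k1 : φ (⟨π (x ω) - π (x ω₀), hmemp h1⟩ + 2 • ⟨π (x υ) - π (x υ₀), hmemq h3⟩) =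
          φ (⟨π (x ω') - π (x ω₀), hmemp h2⟩ + 2 • ⟨π (x υ') - π (x υ₀), hmemq h4⟩) := by
        congr 1
        apply Subtype.ext
        change (π (x ω) - π (x ω₀)) + 2 • (π (x υ) - π (x υ₀)) =
          (π (x ω') - π (x ω₀)) + 2 • (π (x υ') - π (x υ₀))
        rw [smul_sub, smul_sub]
        have e : ∀ a b c d : Fin d → ℤ, (a - b) + (c - d) = (a + c) - (b + d) := by
          intro a b c d
          abel
        rw [e, e, he]
      rwa [map_add, map_add, hφ2, hφ2, add_zero, add_zero] at k1)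
    linarith
  have hge : ent q g ≤ 8 * Real.log K := by
    have h1 := ent_mod_two hq hp (fun ω => π (x ω)) (fun ω => π (x ω)) htf g (by
      intro ω ω' h1 h2 he
      rw [hg h1, hg h2]
      congr 2
      rw [he]) (by
      intro ω ω' υ υ' h1 h2 h3 h4 he
      rw [hg h1, hg h2]
      have k1 : φ (⟨π (x ω) - π (x υ₀), hmemq h1⟩ + 2 • ⟨π (x υ) - π (x ω₀), hmemp h3⟩) =
          φ (⟨π (x ω') - π (x υ₀), hmemq h2⟩ + 2 • ⟨π (x υ') - π (x ω₀), hmemp h4⟩) := by
        congr 1
        apply Subtype.ext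
        change (π (x ω) - π (x υ₀)) + 2 • (π (x υ) - π (x ω₀)) =
          (π (x ω') - π (x υ₀)) + 2 • (π (x υ') - π (x ω₀))
        rw [smul_sub, smul_sub]
        have e : ∀ a b c d : Fin d → ℤ, (a - b) + (c - d) = (a + c) - (b + d) := by
          intro a b c d
          abel
        rw [e, e, he]
      rwa [map_add, map_add, hφ2, hφ2, add_zero, add_zero] at k1)
    rw [Hs_comm q p] at h1
    linarith
  -- V is everything
  have hφ0 : ∀ z : L, (z : Fin d → ℤ) = 0 → φ z = 0 := by
    intro z hz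
    have : z = 0 := Subtype.ext hz
    rw [this, map_zero]
  have hVtop : ∀ z : L, φ z ∈ V := by
    have key : L ≤ (AddSubgroup.toIntSubmodule (V.comap φ)).map L.subtype := by
      refine Submodule.span_le.2 ?_
      rintro y (⟨ω, hω, rfl⟩ | ⟨ω, hω, rfl⟩)
      · refine ⟨⟨_, hmemp hω⟩, ?_, rfl⟩
        have h1 := hVf ω ω₀ hω hω₀
        rw [hf hω, hf hω₀, hφ0 ⟨π (x ω₀) - π (x ω₀), hmemp hω₀⟩ (sub_self _), sub_zero] at h1
        exact h1
      · refine ⟨⟨_, hmemq hω⟩, ?_, rfl⟩
        have h1 := hVg ω υ₀ hω hυ₀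
        rw [hg hω, hg hυ₀, hφ0 ⟨π (x υ₀) - π (x υ₀), hmemq hυ₀⟩ (sub_self _), sub_zero] at h1
        exact h1
    intro z
    obtain ⟨w, hw, hwz⟩ := key z.2
    have : w = z := Subtype.ext hwz
    rw [← this]
    exact hw
  have hVeq : V = ⊤ := by
    rw [AddSubgroup.eq_top_iff']
    intro y
    obtain ⟨z, rfl⟩ := hφsurj y
    exact hVtop z
  have hcardV : Nat.card V = 2 ^ r := by
    rw [hVeq, Nat.card_congr (AddSubgroup.topEquiv (G := Fin r → ZMod 2)).toEquiv]
    simp
  rw [hcardV] at hVcard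
  push_cast at hVcard
  rw [Real.log_pow] at hVcard
  -- the conclusion
  have hlog2 := Real.log_two_gt_d9
  set A' : Finset G := A.filter (fun a => ∃ h : a ∈ A, p ⟨a, h⟩ ≠ 0) with hA'
  have hmemA' : ∀ {ω : A}, p ω ≠ 0 → x ω ∈ A' := fun {ω} h =>
    mem_filter.2 ⟨ω.2, ω.2, h⟩
  have hA'ne : A'.Nonempty := ⟨x ω₀, hmemA' hω₀⟩
  have hA'pos : (0 : ℝ) < A'.card := Nat.cast_pos.2 hA'ne.card_pos
  refine ⟨A', filter_subset _ _, hA'ne, ?_, r, fun i => (bL i : Fin d → ℤ), ?_, ?_, ?_⟩
  · have h1 : ent p x ≤ Real.log A'.card := ent_le_log_card hp x A' fun ω h => hmemA' h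
    have h2 : Real.log A.card ≤ 48 * 4 ^ 11 * Real.log K + Real.log A'.card := by
      have : 8 / η = 48 * 4 ^ 11 := by
        rw [hη]
        norm_num
      rw [this] at hE
      linarith
    have h3 : Real.log A.card ≤ Real.log (K ^ (48 * 4 ^ 11 : ℝ) * A'.card) := by
      rw [Real.log_mul (by positivity) hA'pos.ne', Real.log_rpow (by linarith)]
      exact h2
    exact (Real.log_le_log_iff hApos (by positivity)).1 h3
  · have h1 := bL.linearIndependent.map' L.subtype (Submodule.ker_subtype L)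
    exact h1
  · have : (r : ℝ) * 0.69 ≤ 4 * (16 * Real.log K) := by
      have h1 : (r : ℝ) * 0.69 ≤ r * Real.log 2 := by
        have : (0 : ℝ) ≤ r := Nat.cast_nonneg r
        nlinarith
      linarith
    have h2 : (r : ℝ) ≤ 100 * Real.log K := by
      nlinarith
    refine h2.trans ?_
    nlinarith
  · intro a ha b hb
    obtain ⟨haA, haA', hpa⟩ := mem_filter.1 ha
    obtain ⟨hbA, hbA', hpb⟩ := mem_filter.1 hb
    have h1 := L.sub_mem (hmemp hpa) (hmemp hpb)
    have h2 : π a - π b ∈ L := by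
      have e : π (x ⟨a, haA'⟩) - π (x ω₀) - (π (x ⟨b, hbA'⟩) - π (x ω₀)) = π a - π b := by
        simp only [hx]
        abel
      rwa [e] at h1
    have h3 : Submodule.span ℤ (Set.range fun i => (bL i : Fin d → ℤ)) = L := by
      have h4 : Set.range (fun i => (bL i : Fin d → ℤ)) = L.subtype '' (Set.range bL) := by
        ext z
        simp
      rw [h4, ← Submodule.map_span, bL.span_eq, Submodule.map_top, Submodule.range_subtype]
    rw [h3]
    exact h2

end

end Pool.Agent.Lib.MP_dd2a7c_co
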