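import Mathlib
import Pool.Agent.Lib.MP_dd2a7c_co.Growth
import Pool.Agent.Lib.MP_dd2a7c_co.Spec
import Pool.Agent.Lib.MP_dd2a7c_co.WaBsg
import Pool.Agent.Lib.MP_dd2a7c_co.PolyAssemble
import Pool.Agent.Lib.MP_dd2a7c_co.LawToSetTwo
import Pool.Agent.Lib.MP_dd2a7c_co.WeakPFR

section

section

/-!
Generation of a finite abelian group modulo the common kernel of few characters, and generation of a
finite abelian group whose order has only large prime factors.
-/

namespace Pool.Agent.Lib.MP_dd2a7c_co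

open Finset
open scoped Classical

/-- The image of a finite subgroup under a character is cyclic: one element generates the subgroup
modulo the kernel of the character. -/
lemma exists_gen_mod_ker {M : Type*} [AddCommGroup M] (V : AddSubgroup M) [Finite V]
    (χ : AddChar M ℂ) : ∃ s ∈ V, ∀ v ∈ V, ∃ j : ℤ, χ (v - j • s) = 1 := by
  set f : Multiplicative V →* ℂˣ :=
    ((χ.toMonoidHom.comp (AddMonoidHom.toMultiplicative V.subtype)).toHomUnits) with hf
  have hfin : Finite f.range := by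
    have : Finite (Multiplicative V) := inferInstanceAs (Finite V)
    exact Set.finite_range f
  obtain ⟨g, hg⟩ := IsCyclic.exists_generator (α := f.range)
  obtain ⟨s, hs⟩ := g.2
  have hval : ∀ v : V, ((f (Multiplicative.ofAdd v) : ℂˣ) : ℂ) = χ (v : M) := by
    intro v
    rfl
  refine ⟨(Multiplicative.toAdd s : V), (Multiplicative.toAdd s).2, ?_⟩
  intro v hv
  obtain ⟨j, hj⟩ := Subgroup.mem_zpowers_iff.1 (hg ⟨f (Multiplicative.ofAdd ⟨v, hv⟩), ⟨_, rfl⟩⟩)
  refine ⟨j, ?_⟩
  have h1 : (f s) ^ j = f (Multiplicative.ofAdd ⟨v, hv⟩) := by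
    have h0 : ((g ^ j : f.range) : ℂˣ) = f (Multiplicative.ofAdd ⟨v, hv⟩) := by rw [hj]
    rw [hs, ← h0]
    rfl
  have h2 : f (Multiplicative.ofAdd (⟨v, hv⟩ - j • (Multiplicative.toAdd s) : V)) = 1 := by
    have e : Multiplicative.ofAdd (⟨v, hv⟩ - j • (Multiplicative.toAdd s) : V) =
        Multiplicative.ofAdd ⟨v, hv⟩ / s ^ j := rfl
    rw [e, map_div, map_zpow, h1, div_self']
  have h3 := hval (⟨v, hv⟩ - j • (Multiplicative.toAdd s) : V)
  rw [h2] at h3
  simpa using h3.symm

/-- Generation modulo the common kernel of the characters in `X`. -/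
theorem exists_gens_mod_chars {M : Type*} [AddCommGroup M] [Finite M] (X : Finset (AddChar M ℂ)) :
    ∃ S : Finset M, S.card ≤ X.card ∧ ∀ V : AddSubgroup M,
      (∀ m : M, (∀ χ ∈ X, χ m = 1) → m ∈ V) →
      AddSubgroup.closure (S : Set M) ⊔ V = ⊤ := by
  induction X using Finset.induction_on with
  | empty =>
    refine ⟨∅, le_rfl, fun V hV => ?_⟩
    rw [eq_top_iff]
    intro m _
    exact AddSubgroup.mem_sup_right (hV m (by simp))
  | insert χ X hχ ih =>
    obtain ⟨S, hS1, hS2⟩ := ih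
    let V₀ : AddSubgroup M :=
      { carrier := {m | ∀ ψ ∈ X, ψ m = 1}
        zero_mem' := fun ψ _ => ψ.map_zero_eq_one
        add_mem' := fun {a b} ha hb ψ hψ => by
          rw [AddChar.map_add_eq_mul, ha ψ hψ, hb ψ hψ, one_mul]
        neg_mem' := fun {a} ha ψ hψ => by
          rw [AddChar.map_neg_eq_inv, ha ψ hψ, inv_one] }
    obtain ⟨s, hs, hsV⟩ := exists_gen_mod_ker V₀ χ
    refine ⟨insert s S, ?_, fun V hV => ?_⟩
    · rw [card_insert_of_notMem hχ]
      exact (card_insert_le _ _).trans (by omega)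
    · have h0 := hS2 V₀ (fun m hm => hm)
      rw [eq_top_iff, ← h0, sup_le_iff]
      refine ⟨le_trans (AddSubgroup.closure_mono (by simp)) le_sup_left, ?_⟩
      intro v hv
      obtain ⟨j, hj⟩ := hsV v hv
      have h1 : v - j • s ∈ V := by
        apply hV
        intro ψ hψ
        rcases mem_insert.1 hψ with rfl | hψ
        · exact hj
        · exact (V₀.sub_mem hv (V₀.zsmul_mem hs j)) ψ hψ
      have h2 : j • s ∈ AddSubgroup.closure ((insert s S : Finset M) : Set M) :=
        AddSubgroup.zsmul_mem _ (AddSubgroup.subset_closure (by simp)) j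
      have e : v = j • s + (v - j • s) := by abel
      rw [e]
      exact AddSubgroup.add_mem_sup h2 h1

/-- A finite abelian group `H` whose order has no prime factor below `z` is generated by at most
`log |H| / log z` elements. -/
theorem exists_gens_of_primes {G : Type*} [AddCommGroup G] (H : AddSubgroup G) [Finite H] (z : ℝ)
    (hz : 1 ≤ z) (hp : ∀ p : ℕ, p.Prime → p ∣ Nat.card H → z ≤ p) :
    ∃ S : Finset G, AddSubgroup.closure (S : Set G) = H ∧ z ^ S.card ≤ (Nat.card H : ℝ) := by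
  by_contra hcon
  push Not at hcon
  -- arbitrarily long independent sequences
  have key : ∀ n : ℕ, ∃ S : Finset G, S.card = n ∧ AddSubgroup.closure (S : Set G) ≤ H ∧
      z ^ n ≤ (Nat.card (AddSubgroup.closure (S : Set G)) : ℝ) := by
    intro n
    induction n with
    | zero =>
      refine ⟨∅, rfl, ?_, ?_⟩
      · simp
      · simp
    | succ n ih =>
      obtain ⟨S, hS1, hS2, hS3⟩ := ih
      set L := AddSubgroup.closure (S : Set G) with hL
      have hfinL : Finite L := Finite.of_injective _ (AddSubgroup.inclusion_injective hS2)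
      have hne : L ≠ H := by
        intro h
        have h1 := hcon S h
        rw [hS1, ← h] at h1
        linarith
      obtain ⟨g, hgH, hgL⟩ : ∃ g ∈ H, g ∉ L := by
        by_contra hc
        push Not at hc
        exact hne (le_antisymm hS2 hc)
      have hgS : g ∉ S := fun h => hgL (AddSubgroup.subset_closure h)
      have hsub : AddSubgroup.closure ((insert g S : Finset G) : Set G) ≤ H := by
        rw [AddSubgroup.closure_le]
        intro y hy
        rw [coe_insert] at hy
        rcases hy with rfl | hy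
        · exact hgH
        · exact hS2 (AddSubgroup.subset_closure hy)
      refine ⟨insert g S, by rw [card_insert_of_notMem hgS, hS1], hsub, ?_⟩
      set L' := AddSubgroup.closure ((insert g S : Finset G) : Set G) with hL'
      have hfinL' : Finite L' := Finite.of_injective _ (AddSubgroup.inclusion_injective hsub)
      have hLL' : L ≤ L' := AddSubgroup.closure_mono (by simp)
      have hgL' : g ∈ L' := AddSubgroup.subset_closure (by simp)
      have hcard : Nat.card L * L.relIndex L' = Nat.card L' := by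
        have h := AddSubgroup.relIndex_mul_relIndex ⊥ L L' bot_le hLL'
        rwa [AddSubgroup.relIndex_bot_left, AddSubgroup.relIndex_bot_left] at h
      have hpos : 0 < Nat.card L' := Nat.card_pos
      have hidx1 : L.relIndex L' ≠ 1 := by
        intro h
        rw [AddSubgroup.relIndex_eq_one] at h
        exact hgL (h hgL')
      obtain ⟨p, hpp, hpd⟩ := Nat.exists_prime_and_dvd hidx1
      have hpH : p ∣ Nat.card H := by
        have h1 : p ∣ Nat.card L' := by
          rw [← hcard]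
          exact dvd_mul_of_dvd_right hpd _
        exact h1.trans (AddSubgroup.card_dvd_of_le hsub)
      have hzp := hp p hpp hpH
      have hidx0 : 0 < L.relIndex L' := by
        rcases Nat.eq_zero_or_pos (L.relIndex L') with h | h
        · rw [h, mul_zero] at hcard
          omega
        · exact h
      have hple : (p : ℝ) ≤ (L.relIndex L' : ℝ) := by
        exact_mod_cast Nat.le_of_dvd hidx0 hpd
      have hz0 : 0 ≤ z := by linarith
      calc z ^ (n + 1) = z ^ n * z := pow_succ _ _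
        _ ≤ (Nat.card L : ℝ) * (L.relIndex L' : ℝ) :=
            mul_le_mul hS3 (hzp.trans hple) hz0 (Nat.cast_nonneg _)
        _ = ((Nat.card L * L.relIndex L' : ℕ) : ℝ) := by push_cast; ring
        _ = _ := by rw [hcard]
  obtain ⟨S, hS1, hS2, _⟩ := key (Nat.card H + 1)
  have h1 : S.card ≤ Nat.card H := by
    have h2 : (S : Set G) ⊆ (H : Set G) := fun y hy => hS2 (AddSubgroup.subset_closure hy)
    have h3 := Set.ncard_le_ncard h2 (Set.toFinite _)
    rwa [Set.ncard_coe_finset] at h3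
  omega

end Pool.Agent.Lib.MP_dd2a7c_co
end

section

/-!
Fibres of a set of small doubling over a quotient.
-/

namespace Pool.Agent.Lib.MP_dd2a7c_co

open Finset
open scoped Classical Pointwise

section

variable {G : Type*} [AddCommGroup G]

/-- The classes of the elements of `A` modulo `H`. -/
noncomputable def clsA (H : AddSubgroup G) (A : Finset G) : Finset (G ⧸ H) :=
  A.image (fun a => (QuotientAddGroup.mk a : G ⧸ H))

/-- The part of `A` in the coset `x + H`. -/
noncomputable def fibA (H : AddSubgroup G) (A : Finset G) (x : G) : Finset G :=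
  A.filter (fun a => a - x ∈ H)

lemma mem_fibA {H : AddSubgroup G} {A : Finset G} {x a : G} :
    a ∈ fibA H A x ↔ a ∈ A ∧ a - x ∈ H := by
  unfold fibA
  rw [mem_filter]

lemma fibA_subset (H : AddSubgroup G) (A : Finset G) (x : G) : fibA H A x ⊆ A :=
  filter_subset _ _

lemma clsA_mul_card_le (H : AddSubgroup G) (A Y : Finset G) (hY : ∀ y ∈ Y, ∀ y' ∈ Y, y - y' ∈ H) :
    (clsA H A).card * Y.card ≤ (A + Y).card := by
  have hsec : ∀ c : G ⧸ H, ∃ a : G, c ∈ clsA H A → a ∈ A ∧ (QuotientAddGroup.mk a : G ⧸ H) = c := by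
    intro c
    by_cases hc : c ∈ clsA H A
    · unfold clsA at hc
      rw [mem_image] at hc
      obtain ⟨a, ha, hac⟩ := hc
      exact ⟨a, fun _ => ⟨ha, hac⟩⟩
    · exact ⟨0, fun h => absurd h hc⟩
  choose s hs using hsec
  rw [← card_product]
  refine card_le_card_of_injOn (fun z => s z.1 + z.2) ?_ ?_
  · intro z hz
    rw [mem_coe, mem_product] at hz
    exact mem_coe.2 (add_mem_add (hs _ hz.1).1 hz.2)
  · intro z hz w hw h
    rw [mem_coe, mem_product] at hz hw
    have h' : s z.1 + z.2 = s w.1 + w.2 := h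
    have e1 : z.1 = w.1 := by
      rw [← (hs _ hz.1).2, ← (hs _ hw.1).2, QuotientAddGroup.eq]
      have e : -s z.1 + s w.1 = z.2 - w.2 := by
        have : s w.1 + w.2 - w.2 = s z.1 + z.2 - w.2 := by rw [h']
        rw [add_sub_cancel_right] at this
        rw [this]
        abel
      rw [e]
      exact hY _ hz.2 _ hw.2
    rw [e1] at h'
    exact Prod.ext e1 (add_left_cancel h')

lemma ncard_add_le_clsA (H : AddSubgroup G) (hH : (H : Set G).Finite) (A : Finset G) :
    Set.ncard ((A : Set G) + (H : Set G)) ≤ (clsA H A).card * Nat.card H := by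
  have hsec : ∀ c : G ⧸ H, ∃ a : G, c ∈ clsA H A → a ∈ A ∧ (QuotientAddGroup.mk a : G ⧸ H) = c := by
    intro c
    by_cases hc : c ∈ clsA H A
    · unfold clsA at hc
      rw [mem_image] at hc
      obtain ⟨a, ha, hac⟩ := hc
      exact ⟨a, fun _ => ⟨ha, hac⟩⟩
    · exact ⟨0, fun h => absurd h hc⟩
  choose s hs using hsec
  have h8 : (A : Set G) + (H : Set G) ⊆
      (fun z : (G ⧸ H) × G => s z.1 + z.2) '' ((clsA H A : Set (G ⧸ H)) ×ˢ (H : Set G)) := by
    rintro y ⟨a, ha, h, hh, rfl⟩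
    have hc : (QuotientAddGroup.mk a : G ⧸ H) ∈ clsA H A := mem_image_of_mem _ (mem_coe.1 ha)
    refine ⟨(QuotientAddGroup.mk a, - s (QuotientAddGroup.mk a) + a + h), ⟨?_, ?_⟩, ?_⟩
    · exact mem_coe.2 hc
    · have := (hs _ hc).2
      rw [QuotientAddGroup.eq] at this
      exact H.add_mem this hh
    · simp only
      abel
  calc Set.ncard ((A : Set G) + (H : Set G)) ≤ Set.ncard
        ((fun z : (G ⧸ H) × G => s z.1 + z.2) '' ((clsA H A : Set (G ⧸ H)) ×ˢ (H : Set G))) :=
        Set.ncard_le_ncard h8 (((clsA H A).finite_toSet.prod hH).image _)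
    _ ≤ Set.ncard ((clsA H A : Set (G ⧸ H)) ×ˢ (H : Set G)) :=
        Set.ncard_image_le ((clsA H A).finite_toSet.prod hH)
    _ = (clsA H A).card * Nat.card H := by
        rw [Set.ncard_prod, Set.ncard_coe_finset]
        rfl

/-- If a coset of `V` contains a large part of `A`, then `A + V` is small. -/
theorem ncard_add_le_of_fibA (A : Finset G) (K B : ℝ) (hK : ((A + A).card : ℝ) ≤ K * A.card)
    (V : AddSubgroup G) (hV : (V : Set G).Finite) (x : G)
    (hB : (Nat.card V : ℝ) ≤ B * (fibA V A x).card) :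
    (Set.ncard ((A : Set G) + (V : Set G)) : ℝ) ≤ K * B * A.card := by
  have : Finite V := hV
  have hVpos : (0 : ℝ) < Nat.card V := by exact_mod_cast Nat.card_pos
  have hB0 : 0 ≤ B := by
    by_contra hc
    push Not at hc
    have : B * (fibA V A x).card ≤ 0 :=
      mul_nonpos_of_nonpos_of_nonneg hc.le (Nat.cast_nonneg _)
    linarith
  have h1 : ((clsA V A).card : ℝ) * (fibA V A x).card ≤ K * A.card := by
    have h2 := clsA_mul_card_le V A (fibA V A x) (by
      intro y hy y' hy'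
      have := V.sub_mem (mem_fibA.1 hy).2 (mem_fibA.1 hy').2
      rwa [sub_sub_sub_cancel_right] at this)
    have h3 : (A + fibA V A x).card ≤ (A + A).card :=
      card_le_card (add_subset_add_left (fibA_subset V A x))
    calc ((clsA V A).card : ℝ) * (fibA V A x).card
        = (((clsA V A).card * (fibA V A x).card : ℕ) : ℝ) := by push_cast; ring
      _ ≤ ((A + A).card : ℝ) := by exact_mod_cast h2.trans h3
      _ ≤ _ := hK
  calc (Set.ncard ((A : Set G) + (V : Set G)) : ℝ) ≤ (((clsA V A).card * Nat.card V : ℕ) : ℝ) := by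
        exact_mod_cast ncard_add_le_clsA V hV A
    _ = ((clsA V A).card : ℝ) * Nat.card V := by push_cast; ring
    _ ≤ ((clsA V A).card : ℝ) * (B * (fibA V A x).card) :=
        mul_le_mul_of_nonneg_left hB (Nat.cast_nonneg _)
    _ = B * (((clsA V A).card : ℝ) * (fibA V A x).card) := by ring
    _ ≤ B * (K * A.card) := mul_le_mul_of_nonneg_left h1 hB0
    _ = _ := by ring

/-- The largest fibre of a set of small doubling has small doubling. -/
theorem exists_fibA (A : Finset G) (K : ℝ) (hA : A.Nonempty)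
    (hK : ((A + A).card : ℝ) ≤ K * A.card) (H : AddSubgroup G) :
    ∃ x : G, A.card ≤ (clsA H A).card * (fibA H A x).card ∧
      ((fibA H A x + fibA H A x).card : ℝ) ≤ K ^ 3 * (fibA H A x).card := by
  have hApos : (0 : ℝ) < A.card := by exact_mod_cast hA.card_pos
  set π : G → G ⧸ H := fun a => QuotientAddGroup.mk a with hπ
  have hcls : (clsA H A).Nonempty := hA.image _
  obtain ⟨c, hc, hmax⟩ := exists_max_image (clsA H A)
    (fun c => (A.filter (fun a => π a = c)).card) hcls
  unfold clsA at hc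
  rw [mem_image] at hc
  obtain ⟨x, hx, hxc⟩ := hc
  have hfib : fibA H A x = A.filter (fun a => π a = c) := by
    unfold fibA
    ext a
    rw [mem_filter, mem_filter, and_congr_right_iff]
    intro _
    rw [← hxc, hπ]
    simp only
    rw [eq_comm, QuotientAddGroup.eq, neg_add_eq_sub]
  have h1 : A.card ≤ (clsA H A).card * (fibA H A x).card := by
    rw [card_eq_sum_card_fiberwise (f := π) (t := clsA H A)
      (fun a ha => mem_coe.2 (mem_image_of_mem _ (mem_coe.1 ha))), hfib]
    calc ∑ b ∈ clsA H A, (A.filter (fun a => π a = b)).card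
        ≤ ∑ _b ∈ clsA H A, (A.filter (fun a => π a = c)).card := sum_le_sum hmax
      _ = _ := by rw [sum_const, smul_eq_mul]
  refine ⟨x, h1, ?_⟩
  set Y := fibA H A x with hY
  have h2 : (clsA H A).card * (Y + Y).card ≤ (3 • A).card := by
    have h3 := clsA_mul_card_le H A (Y + Y) (by
      intro y hy y' hy'
      obtain ⟨a, ha, b, hb, rfl⟩ := mem_add.1 hy
      obtain ⟨a', ha', b', hb', rfl⟩ := mem_add.1 hy'
      have e : a + b - (a' + b') = (a - x) + (b - x) - ((a' - x) + (b' - x)) := by abel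
      rw [e]
      exact H.sub_mem (H.add_mem (mem_fibA.1 ha).2 (mem_fibA.1 hb).2)
        (H.add_mem (mem_fibA.1 ha').2 (mem_fibA.1 hb').2))
    refine h3.trans (card_le_card ?_)
    have e : 3 • A = A + (A + A) := by
      rw [show (3 : ℕ) = 2 + 1 from rfl, succ_nsmul', two_nsmul]
    rw [e]
    exact add_subset_add_left (add_subset_add (fibA_subset H A x) (fibA_subset H A x))
  have h4 : ((3 • A).card : ℝ) ≤ K ^ 3 * A.card := by
    have h := pluennecke_ruzsa_inequality_nsmul_add hA A 3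
    have h' : ((3 • A).card : ℝ) ≤ (((A + A).card : ℝ) / A.card) ^ 3 * A.card := by
      have h0 := (NNRat.cast_le (K := ℝ)).2 h
      push_cast at h0
      exact h0
    refine h'.trans (mul_le_mul_of_nonneg_right ?_ hApos.le)
    refine pow_le_pow_left₀ (by positivity) ?_ 3
    rw [div_le_iff₀ hApos]
    exact hK
  have hK0 : 0 ≤ K := by
    by_contra hcon
    push Not at hcon
    have h5 : K * A.card < 0 := mul_neg_of_neg_of_pos hcon hApos
    have h6 : (0 : ℝ) ≤ ((A + A).card : ℝ) := Nat.cast_nonneg _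
    linarith
  have hclspos : (0 : ℝ) < (clsA H A).card := by exact_mod_cast hcls.card_pos
  have h7 : ((clsA H A).card : ℝ) * ((Y + Y).card : ℝ) ≤
      ((clsA H A).card : ℝ) * (K ^ 3 * Y.card) := by
    calc ((clsA H A).card : ℝ) * ((Y + Y).card : ℝ)
        = (((clsA H A).card * (Y + Y).card : ℕ) : ℝ) := by push_cast; ring
      _ ≤ ((3 • A).card : ℝ) := by exact_mod_cast h2
      _ ≤ K ^ 3 * A.card := h4
      _ ≤ K ^ 3 * (((clsA H A).card * Y.card : ℕ) : ℝ) := by
          refine mul_le_mul_of_nonneg_left ?_ (by positivity)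
          exact_mod_cast h1
      _ = _ := by push_cast; ring
  exact le_of_mul_le_mul_left h7 hclspos

/-- The fibre as a set in the subgroup. -/
noncomputable def inA (H : AddSubgroup G) [Fintype H] (A : Finset G) (x : G) : Finset H :=
  univ.filter (fun m : H => (m : G) + x ∈ A)

lemma inA_image (H : AddSubgroup G) [Fintype H] (A : Finset G) (x : G) :
    (inA H A x).image (fun m : H => (m : G) + x) = fibA H A x := by
  ext a
  rw [mem_image, mem_fibA]
  constructor
  · rintro ⟨m, hm, rfl⟩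
    unfold inA at hm
    refine ⟨(mem_filter.1 hm).2, ?_⟩
    rw [add_sub_cancel_right]
    exact m.2
  · rintro ⟨ha, hax⟩
    refine ⟨⟨a - x, hax⟩, ?_, ?_⟩
    · unfold inA
      rw [mem_filter]
      refine ⟨mem_univ _, ?_⟩
      simp only [sub_add_cancel]
      exact ha
    · simp only [sub_add_cancel]

lemma inA_card (H : AddSubgroup G) [Fintype H] (A : Finset G) (x : G) :
    (inA H A x).card = (fibA H A x).card := by
  rw [← inA_image, card_image_of_injective]
  intro m m' h
  exact Subtype.ext (add_right_cancel h)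

lemma inA_add_card (H : AddSubgroup G) [Fintype H] (A : Finset G) (x : G) :
    (inA H A x + inA H A x).card = (fibA H A x + fibA H A x).card := by
  have h : (inA H A x + inA H A x).image (fun m : H => (m : G) + (x + x)) =
      fibA H A x + fibA H A x := by
    rw [← inA_image]
    ext a
    simp only [mem_image, mem_add]
    constructor
    · rintro ⟨m, ⟨y, hy, z, hz, rfl⟩, rfl⟩
      refine ⟨(y : G) + x, ⟨y, hy, rfl⟩, (z : G) + x, ⟨z, hz, rfl⟩, ?_⟩
      rw [AddSubgroup.coe_add]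
      abel
    · rintro ⟨_, ⟨y, hy, rfl⟩, _, ⟨z, hz, rfl⟩, rfl⟩
      refine ⟨y + z, ⟨y, hy, z, hz, rfl⟩, ?_⟩
      rw [AddSubgroup.coe_add]
      abel
  rw [← h, card_image_of_injective]
  intro m m' h'
  exact Subtype.ext (add_right_cancel h')

lemma inA_fib_card_le (H : AddSubgroup G) [Fintype H] (A : Finset G) (x : G) (V : AddSubgroup H)
    (x' : H) : ((inA H A x).filter (fun a => a - x' ∈ V)).card ≤
      (fibA (V.map H.subtype) A ((x' : G) + x)).card := by
  refine card_le_card_of_injOn (fun m : H => (m : G) + x) ?_ ?_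
  · intro m hm
    rw [mem_coe, mem_filter] at hm
    unfold inA at hm
    rw [mem_coe, mem_fibA]
    refine ⟨(mem_filter.1 hm.1).2, ?_⟩
    rw [add_sub_add_right_eq_sub]
    exact ⟨m - x', hm.2, rfl⟩
  · intro m _ m' _ h
    exact Subtype.ext (add_right_cancel h)

/-- Number of classes of a set covered by translates of a coset progression. -/
lemma clsA_card_le (A T : Finset G) (Q : CosetProg G) (hcov : CoveredBy A T Q) :
    (clsA Q.sub A).card ≤ T.card * Set.ncard Q.points := by
  have hpfin : (Q.points).Finite := Q.symBody.pts_finite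
  have h1 : clsA Q.sub A ⊆ (T ×ˢ hpfin.toFinset).image
      (fun z => (QuotientAddGroup.mk (z.1 + (Q.base + Q.hom z.2)) : G ⧸ Q.sub)) := by
    intro c hc
    unfold clsA at hc
    rw [mem_image] at hc
    obtain ⟨a, ha, rfl⟩ := hc
    obtain ⟨t, ht, g, ⟨v, hv, h, hh, rfl⟩, rfl⟩ := hcov a ha
    rw [mem_image]
    refine ⟨(t, v), ?_, ?_⟩
    · rw [mem_product]
      exact ⟨ht, hpfin.mem_toFinset.2 hv⟩
    · rw [QuotientAddGroup.eq]
      have e : -(t + (Q.base + Q.hom v)) + (t + (Q.base + Q.hom v + h)) = h := by abel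
      rw [e]
      exact hh
  calc (clsA Q.sub A).card ≤ _ := card_le_card h1
    _ ≤ (T ×ˢ hpfin.toFinset).card := card_image_le
    _ = _ := by rw [card_product, Set.ncard_eq_toFinset_card _ hpfin]

/-- Some translate of the coset progression contains a large part of the set. -/
lemma exists_large_part (A T : Finset G) (Q : CosetProg G) (hA : A.Nonempty)
    (hcov : CoveredBy A T Q) :
    ∃ t ∈ T, A.card ≤ T.card * (A.filter (fun a => ∃ g ∈ Q.carrier, a = t + g)).card := by
  have hT : T.Nonempty := by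
    obtain ⟨a, ha⟩ := hA
    obtain ⟨t, ht, _⟩ := hcov a ha
    exact ⟨t, ht⟩
  obtain ⟨t, ht, hmax⟩ := exists_max_image T
    (fun t => (A.filter (fun a => ∃ g ∈ Q.carrier, a = t + g)).card) hT
  refine ⟨t, ht, ?_⟩
  have h1 : A ⊆ T.biUnion (fun t => A.filter (fun a => ∃ g ∈ Q.carrier, a = t + g)) := by
    intro a ha
    obtain ⟨t, ht, g, hg, rfl⟩ := hcov a ha
    rw [mem_biUnion]
    exact ⟨t, ht, mem_filter.2 ⟨ha, g, hg, rfl⟩⟩
  calc A.card ≤ _ := card_le_card h1
    _ ≤ ∑ t ∈ T, (A.filter (fun a => ∃ g ∈ Q.carrier, a = t + g)).card := card_biUnion_le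
    _ ≤ ∑ _t ∈ T, (A.filter (fun a => ∃ g ∈ Q.carrier, a = t + g)).card := sum_le_sum hmax
    _ = _ := by rw [sum_const, smul_eq_mul]

end

end Pool.Agent.Lib.MP_dd2a7c_co
end

section

/-!
Many large Fourier coefficients at characters trivial on a subgroup `V` force a dense coset of `V`.
-/

namespace Pool.Agent.Lib.MP_dd2a7c_co

open Finset
open scoped Classical Pointwise

/-- A character trivial on `V` factors through the quotient. -/
lemma exists_lift_char {G : Type*} [AddCommGroup G] (V : AddSubgroup G) (γ : AddChar G ℂ)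
    (h : ∀ v ∈ V, γ v = 1) :
    ∃ ψ : AddChar (G ⧸ V) ℂ, ∀ x : G, ψ (QuotientAddGroup.mk x) = γ x := by
  refine ⟨AddChar.toAddMonoidHomEquiv.symm (QuotientAddGroup.lift V
    (AddChar.toAddMonoidHomEquiv γ) ?_), ?_⟩
  · intro v hv
    rw [AddMonoidHom.mem_ker]
    exact h v hv
  · intro x
    rfl

theorem exists_dense_coset {G : Type*} [AddCommGroup G] [Fintype G] (P : Finset G)
    (hP : P.Nonempty) (K : ℝ) (hK : 0 < K) (V : AddSubgroup G) (B : Finset (AddChar G ℂ))
    (hB1 : ∀ γ ∈ B, ∀ v ∈ V, γ v = 1)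
    (hB2 : ∀ γ ∈ B, (P.card : ℝ) ^ 2 ≤ 2 * K * ‖expSum P γ‖ ^ 2) :
    ∃ x : G, (B.card : ℝ) * Nat.card V * P.card ≤
      2 * K * Fintype.card G * ((P.filter (fun a => a - x ∈ V)).card : ℝ) := by
  set p : ℝ := (P.card : ℝ) with hp
  have hp0 : 0 < p := by rw [hp]; exact_mod_cast hP.card_pos
  set π : G → G ⧸ V := fun x => QuotientAddGroup.mk x with hπ
  set f : G ⧸ V → ℝ := fun c => ((P.filter (fun a => π a = c)).card : ℝ) with hf
  have hf0 : ∀ c, 0 ≤ f c := fun c => Nat.cast_nonneg _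
  -- choose the largest class
  obtain ⟨c₀, hc₀⟩ := Finite.exists_max f
  have hsumf : ∑ c, f c = p := by
    rw [hf, hp, ← Nat.cast_sum]
    congr 1
    exact (card_eq_sum_card_fiberwise fun a _ => mem_coe.2 (mem_univ (π a))).symm
  have hsq : ∑ c, f c ^ 2 ≤ f c₀ * p := by
    rw [← hsumf, mul_sum]
    refine sum_le_sum fun c _ => ?_
    rw [sq]
    exact mul_le_mul_of_nonneg_right (hc₀ c) (hf0 c)
  -- Fourier side
  have hlift : ∀ γ : B, ∃ ψ : AddChar (G ⧸ V) ℂ, ∀ x : G, ψ (QuotientAddGroup.mk x) = γ.1 x :=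
    fun γ => exists_lift_char V γ.1 (hB1 γ.1 γ.2)
  choose L hL using hlift
  have hLinj : Function.Injective L := by
    intro γ γ' h
    apply Subtype.ext
    ext x
    rw [← hL γ x, ← hL γ' x, h]
  have hft : ∀ γ : B, ft f (L γ) = expSum P γ.1 := by
    intro γ
    unfold ft expSum
    have h1 : ∀ c : G ⧸ V, ((f c : ℝ) : ℂ) * L γ c =
        ∑ a ∈ P.filter (fun a => π a = c), γ.1 a := by
      intro c
      have : ∀ a ∈ P.filter (fun a => π a = c), γ.1 a = L γ c := by
        intro a ha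
        rw [← (mem_filter.1 ha).2]
        exact (hL γ a).symm
      rw [sum_congr rfl this, sum_const, nsmul_eq_mul, hf]
      push_cast
      rfl
    rw [sum_congr rfl fun c _ => h1 c]
    exact sum_fiberwise_of_maps_to (fun a _ => mem_univ (π a)) _
  have h1 : (B.card : ℝ) * p ^ 2 ≤ 2 * K * (Fintype.card (G ⧸ V) * (f c₀ * p)) := by
    calc (B.card : ℝ) * p ^ 2 = ∑ _γ ∈ B, p ^ 2 := by rw [sum_const, nsmul_eq_mul]
      _ ≤ ∑ γ ∈ B, 2 * K * ‖expSum P γ‖ ^ 2 := sum_le_sum hB2
      _ = ∑ γ : B, 2 * K * ‖ft f (L γ)‖ ^ 2 := by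
          rw [← sum_coe_sort B (fun γ => 2 * K * ‖expSum P γ‖ ^ 2)]
          refine sum_congr rfl fun γ _ => ?_
          rw [hft]
      _ = ∑ ψ ∈ univ.image L, 2 * K * ‖ft f ψ‖ ^ 2 := by
          rw [sum_image fun a _ b _ h => hLinj h]
      _ ≤ ∑ ψ : AddChar (G ⧸ V) ℂ, 2 * K * ‖ft f ψ‖ ^ 2 :=
          sum_le_sum_of_subset_of_nonneg (subset_univ _) fun _ _ _ => by positivity
      _ = 2 * K * (Fintype.card (G ⧸ V) * ∑ c, f c ^ 2) := by
          rw [← mul_sum, ft_parseval]
      _ ≤ _ := by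
          refine mul_le_mul_of_nonneg_left ?_ (by positivity)
          exact mul_le_mul_of_nonneg_left hsq (Nat.cast_nonneg _)
  have hcard : (Fintype.card (G ⧸ V) : ℝ) * Nat.card V = Fintype.card G := by
    have := AddSubgroup.card_eq_card_quotient_mul_card_addSubgroup V
    rw [Nat.card_eq_fintype_card, Nat.card_eq_fintype_card (α := G ⧸ V)] at this
    exact_mod_cast this.symm
  obtain ⟨x, hx⟩ := QuotientAddGroup.mk_surjective c₀
  refine ⟨x, ?_⟩
  have hfx : ((P.filter (fun a => a - x ∈ V)).card : ℝ) = f c₀ := by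
    rw [hf]
    simp only
    congr 2
    ext a
    simp only [mem_filter, and_congr_right_iff]
    intro _
    rw [← hx, hπ]
    simp only
    rw [eq_comm, QuotientAddGroup.eq, neg_add_eq_sub]
  rw [hfx]
  have h2 : p * ((B.card : ℝ) * Nat.card V * p) ≤ p * (2 * K * Fintype.card G * f c₀) := by
    calc p * ((B.card : ℝ) * Nat.card V * p) = ((B.card : ℝ) * p ^ 2) * Nat.card V := by ring
      _ ≤ (2 * K * (Fintype.card (G ⧸ V) * (f c₀ * p))) * Nat.card V :=
          mul_le_mul_of_nonneg_right h1 (Nat.cast_nonneg _)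
      _ = p * (2 * K * ((Fintype.card (G ⧸ V) : ℝ) * Nat.card V) * f c₀) := by ring
      _ = _ := by rw [hcard]
  exact le_of_mul_le_mul_left h2 hp0

end Pool.Agent.Lib.MP_dd2a7c_co
end
end

section

section

/-!
A large part of the large spectrum of a set of small doubling has small doubling.
-/

namespace Pool.Agent.Lib.MP_dd2a7c_co

open Finset
open scoped Pointwise ComplexConjugate

section spec

variable {G : Type*} [AddCommGroup G] [Fintype G] [DecidableEq G]

omit [Fintype G] [DecidableEq G] in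
private lemma wa_phase (z : ℂ) : ∃ c : ℂ, ‖c‖ = 1 ∧ c * z = (‖z‖ : ℂ) := by
  by_cases hz : z = 0
  · exact ⟨1, by simp, by simp [hz]⟩
  · have hn : (‖z‖ : ℂ) ≠ 0 := by
      simpa using hz
    refine ⟨conj z / ‖z‖, ?_, ?_⟩
    · rw [norm_div, RCLike.norm_conj, Complex.norm_real, norm_norm, div_self]
      simpa using hz
    · rw [div_mul_eq_mul_div, mul_comm (conj z) z, Complex.mul_conj']
      field_simp

omit [Fintype G] [DecidableEq G] in
/-- The norm of an exponential sum is at most the number of terms. -/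
lemma norm_expSum_le [Finite G] (P : Finset G) (γ : AddChar G ℂ) : ‖expSum P γ‖ ≤ P.card := by
  unfold expSum
  refine (norm_sum_le _ _).trans ?_
  simp [AddChar.norm_apply]

omit [Fintype G] [DecidableEq G] in
private lemma wa_pairs [Finite G] (P : Finset G) (B : Finset (AddChar G ℂ)) (θ : ℝ) (hθ : 0 ≤ θ)
    (hB : ∀ γ ∈ B, θ * P.card ≤ ‖expSum P γ‖) (hP : P.Nonempty) :
    θ ^ 2 * (B.card : ℝ) ^ 2 * P.card ≤
      ∑ q ∈ B ×ˢ B, ‖expSum P (q.1 - q.2)‖ := by
  choose c hc1 hc2 using fun γ : AddChar G ℂ => wa_phase (expSum P γ)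
  set F : G → ℂ := fun a => ∑ γ ∈ B, c γ * γ a with hF
  have hPpos : (0 : ℝ) < P.card := by exact_mod_cast hP.card_pos
  have h1 : ∑ a ∈ P, F a = ((∑ γ ∈ B, ‖expSum P γ‖ : ℝ) : ℂ) := by
    rw [hF, sum_comm]
    push_cast
    refine sum_congr rfl fun γ _ => ?_
    rw [← mul_sum, ← hc2 γ]
    rfl
  have h2 : θ * P.card * B.card ≤ ∑ γ ∈ B, ‖expSum P γ‖ := by
    calc θ * P.card * B.card = ∑ _γ ∈ B, θ * P.card := by
          rw [sum_const, nsmul_eq_mul]; ring
      _ ≤ _ := sum_le_sum hB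
  have h3 : (∑ γ ∈ B, ‖expSum P γ‖) ^ 2 ≤ P.card * ∑ a ∈ P, ‖F a‖ ^ 2 := by
    have hpos : 0 ≤ ∑ γ ∈ B, ‖expSum P γ‖ := sum_nonneg fun _ _ => norm_nonneg _
    have h4 : ∑ γ ∈ B, ‖expSum P γ‖ ≤ ∑ a ∈ P, ‖F a‖ := by
      calc ∑ γ ∈ B, ‖expSum P γ‖ = ‖∑ a ∈ P, F a‖ := by
            rw [h1, Complex.norm_real, Real.norm_eq_abs, abs_of_nonneg hpos]
        _ ≤ _ := norm_sum_le _ _
    calc (∑ γ ∈ B, ‖expSum P γ‖) ^ 2 ≤ (∑ a ∈ P, ‖F a‖) ^ 2 := pow_le_pow_left₀ hpos h4 2
      _ ≤ _ := sq_sum_le_card_mul_sum_sq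
  have h5 : ((∑ a ∈ P, ‖F a‖ ^ 2 : ℝ) : ℂ) =
      ∑ q ∈ B ×ˢ B, c q.1 * conj (c q.2) * expSum P (q.1 - q.2) := by
    push_cast
    have : ∀ a, ((‖F a‖ : ℂ)) ^ 2 = ∑ q ∈ B ×ˢ B, c q.1 * conj (c q.2) * (q.1 - q.2) a := by
      intro a
      rw [← Complex.mul_conj', hF]
      simp only
      rw [map_sum, sum_mul_sum, sum_product]
      refine sum_congr rfl fun γ _ => sum_congr rfl fun γ' _ => ?_
      rw [map_mul, AddChar.sub_apply, AddChar.map_neg_eq_conj]
      ring
    simp_rw [this]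
    rw [sum_comm]
    refine sum_congr rfl fun q _ => ?_
    rw [← mul_sum]
    rfl
  have h6 : ∑ a ∈ P, ‖F a‖ ^ 2 ≤ ∑ q ∈ B ×ˢ B, ‖expSum P (q.1 - q.2)‖ := by
    have hpos : 0 ≤ ∑ a ∈ P, ‖F a‖ ^ 2 := sum_nonneg fun _ _ => sq_nonneg _
    calc ∑ a ∈ P, ‖F a‖ ^ 2 = ‖((∑ a ∈ P, ‖F a‖ ^ 2 : ℝ) : ℂ)‖ := by
          rw [Complex.norm_real, Real.norm_eq_abs, abs_of_nonneg hpos]
      _ ≤ ∑ q ∈ B ×ˢ B, ‖c q.1 * conj (c q.2) * expSum P (q.1 - q.2)‖ := by
          rw [h5]; exact norm_sum_le _ _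
      _ = _ := by
          refine sum_congr rfl fun q _ => ?_
          rw [norm_mul, norm_mul, RCLike.norm_conj, hc1, hc1]
          ring
  have h7 : (θ * P.card * B.card) ^ 2 ≤ P.card * ∑ q ∈ B ×ˢ B, ‖expSum P (q.1 - q.2)‖ := by
    calc (θ * P.card * B.card) ^ 2 ≤ (∑ γ ∈ B, ‖expSum P γ‖) ^ 2 :=
          pow_le_pow_left₀ (by positivity) h2 2
      _ ≤ P.card * ∑ a ∈ P, ‖F a‖ ^ 2 := h3
      _ ≤ _ := mul_le_mul_of_nonneg_left h6 hPpos.le
  have h8 : (P.card : ℝ) * (θ ^ 2 * (B.card : ℝ) ^ 2 * P.card) ≤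
      P.card * ∑ q ∈ B ×ˢ B, ‖expSum P (q.1 - q.2)‖ := by
    calc (P.card : ℝ) * (θ ^ 2 * (B.card : ℝ) ^ 2 * P.card) = (θ * P.card * B.card) ^ 2 := by ring
      _ ≤ _ := h7
  exact le_of_mul_le_mul_left h8 hPpos

/-- A large part of the large spectrum has small doubling. -/
theorem exists_small_doubling_spec (P : Finset G) (K : ℝ) (hP : P.Nonempty) (hK1 : 1 ≤ K)
    (hK : ((P + P).card : ℝ) ≤ K * P.card) :
    ∃ B : Finset (AddChar G ℂ), (∀ γ ∈ B, (P.card : ℝ) ^ 2 ≤ 2 * K * ‖expSum P γ‖ ^ 2) ∧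
      (Fintype.card G : ℝ) ≤ 32 * K ^ 2 * P.card * B.card ∧
      (B.card : ℝ) * P.card ≤ 2 * K * Fintype.card G ∧
      ((B - B).card : ℝ) ≤ 2 ^ 44 * K ^ 18 * B.card := by
  classical
  have hK0 : 0 < K := by linarith
  set p : ℝ := (P.card : ℝ) with hp
  set g : ℝ := (Fintype.card G : ℝ) with hg
  have hp0 : 0 < p := by rw [hp]; exact_mod_cast hP.card_pos
  have hg0 : 0 < g := by rw [hg]; exact_mod_cast Fintype.card_pos
  set B : Finset (AddChar G ℂ) := univ.filter (fun γ => p ^ 2 ≤ 2 * K * ‖expSum P γ‖ ^ 2) with hB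
  have hmem : ∀ γ, γ ∈ B ↔ p ^ 2 ≤ 2 * K * ‖expSum P γ‖ ^ 2 := by
    intro γ; rw [hB, mem_filter]; simp
  have hm2 : ∑ γ : AddChar G ℂ, ‖expSum P γ‖ ^ 2 = g * p := moment_two P
  have hm4 : g * p ^ 3 ≤ K * ∑ γ : AddChar G ℂ, ‖expSum P γ‖ ^ 4 := by
    have h := moment_lower P 2
    have e : itSum 2 P = P + P := by
      rw [itSum_succ, itSum_succ]
      have e0 : itSum 0 P = (0 : Finset G) := by simp; rfl
      rw [e0, zero_add]
    rw [e] at h
    have h2 : g * p ^ (2 * 2) ≤ (K * p) * ∑ γ : AddChar G ℂ, ‖expSum P γ‖ ^ (2 * 2) :=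
      h.trans (mul_le_mul_of_nonneg_right hK (sum_nonneg fun _ _ => by positivity))
    have h3 : p * (g * p ^ 3) ≤ p * (K * ∑ γ : AddChar G ℂ, ‖expSum P γ‖ ^ 4) := by
      calc p * (g * p ^ 3) = g * p ^ (2 * 2) := by ring
        _ ≤ _ := h2
        _ = _ := by ring
    exact le_of_mul_le_mul_left h3 hp0
  have hle : ∀ γ : AddChar G ℂ, ‖expSum P γ‖ ≤ p := fun γ => norm_expSum_le P γ
  -- lower bound for `B`
  have hBlow : g ≤ 2 * K * p * B.card := by
    have h1 : 2 * K * ∑ γ : AddChar G ℂ, ‖expSum P γ‖ ^ 4 ≤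
        2 * K * (p ^ 4 * B.card) + p ^ 2 * (g * p) := by
      rw [← hm2, ← sum_filter_add_sum_filter_not univ (fun γ => p ^ 2 ≤ 2 * K * ‖expSum P γ‖ ^ 2)
        (fun γ : AddChar G ℂ => ‖expSum P γ‖ ^ 4), mul_add]
      refine add_le_add ?_ ?_
      · refine mul_le_mul_of_nonneg_left ?_ (by positivity)
        calc ∑ γ ∈ B, ‖expSum P γ‖ ^ 4 ≤ ∑ _γ ∈ B, p ^ 4 :=
              sum_le_sum fun γ _ => pow_le_pow_left₀ (norm_nonneg _) (hle γ) 4
          _ = p ^ 4 * B.card := by rw [sum_const, nsmul_eq_mul, mul_comm]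
      · rw [mul_sum, mul_sum]
        calc ∑ γ ∈ univ.filter (fun γ => ¬ p ^ 2 ≤ 2 * K * ‖expSum P γ‖ ^ 2),
              2 * K * ‖expSum P γ‖ ^ 4
            ≤ ∑ γ ∈ univ.filter (fun γ => ¬ p ^ 2 ≤ 2 * K * ‖expSum P γ‖ ^ 2),
              p ^ 2 * ‖expSum P γ‖ ^ 2 := by
                refine sum_le_sum fun γ hγ => ?_
                have h := (not_le.1 (mem_filter.1 hγ).2).le
                calc 2 * K * ‖expSum P γ‖ ^ 4 = (2 * K * ‖expSum P γ‖ ^ 2) * ‖expSum P γ‖ ^ 2 := by
                      ring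
                  _ ≤ _ := mul_le_mul_of_nonneg_right h (by positivity)
          _ ≤ _ := sum_le_sum_of_subset_of_nonneg (filter_subset _ _)
              fun _ _ _ => by positivity
    have h2 : g * p ^ 3 ≤ 2 * K * (p ^ 4 * B.card) := by nlinarith
    have h3 : p ^ 3 * g ≤ p ^ 3 * (2 * K * p * B.card) := by
      calc p ^ 3 * g = g * p ^ 3 := by ring
        _ ≤ _ := h2
        _ = _ := by ring
    exact le_of_mul_le_mul_left h3 (by positivity)
  have hBne : B.Nonempty := by
    rw [nonempty_iff_ne_empty]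
    intro h
    rw [h] at hBlow
    simp at hBlow
    linarith
  have hBpos : (0 : ℝ) < B.card := by exact_mod_cast hBne.card_pos
  -- upper bound for `B`
  have hBup : (B.card : ℝ) * p ≤ 2 * K * g := by
    have h1 : (B.card : ℝ) * p ^ 2 ≤ 2 * K * (g * p) := by
      calc (B.card : ℝ) * p ^ 2 = ∑ _γ ∈ B, p ^ 2 := by rw [sum_const, nsmul_eq_mul]
        _ ≤ ∑ γ ∈ B, 2 * K * ‖expSum P γ‖ ^ 2 := sum_le_sum fun γ hγ => (hmem γ).1 hγ
        _ ≤ ∑ γ : AddChar G ℂ, 2 * K * ‖expSum P γ‖ ^ 2 :=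
            sum_le_sum_of_subset_of_nonneg (subset_univ _) fun _ _ _ => by positivity
        _ = 2 * K * (g * p) := by rw [← mul_sum, hm2]
    have h2 : p * ((B.card : ℝ) * p) ≤ p * (2 * K * g) := by nlinarith
    exact le_of_mul_le_mul_left h2 hp0
  -- the set of differences
  set D : Finset (AddChar G ℂ) := univ.filter (fun γ => p ≤ 4 * K * ‖expSum P γ‖) with hD
  have hmemD : ∀ γ, γ ∈ D ↔ p ≤ 4 * K * ‖expSum P γ‖ := by
    intro γ; rw [hD, mem_filter]; simp
  have hDup : (D.card : ℝ) * p ≤ 16 * K ^ 2 * g := by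
    have h1 : (D.card : ℝ) * p ^ 2 ≤ 16 * K ^ 2 * (g * p) := by
      calc (D.card : ℝ) * p ^ 2 = ∑ _γ ∈ D, p ^ 2 := by rw [sum_const, nsmul_eq_mul]
        _ ≤ ∑ γ ∈ D, 16 * K ^ 2 * ‖expSum P γ‖ ^ 2 := by
            refine sum_le_sum fun γ hγ => ?_
            calc p ^ 2 ≤ (4 * K * ‖expSum P γ‖) ^ 2 := pow_le_pow_left₀ hp0.le ((hmemD γ).1 hγ) 2
              _ = _ := by ring
        _ ≤ ∑ γ : AddChar G ℂ, 16 * K ^ 2 * ‖expSum P γ‖ ^ 2 :=
            sum_le_sum_of_subset_of_nonneg (subset_univ _) fun _ _ _ => by positivity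
        _ = 16 * K ^ 2 * (g * p) := by rw [← mul_sum, hm2]
    have h2 : p * ((D.card : ℝ) * p) ≤ p * (16 * K ^ 2 * g) := by nlinarith
    exact le_of_mul_le_mul_left h2 hp0
  have hDB : (D.card : ℝ) ≤ 32 * K ^ 3 * B.card := by
    have h1 : (D.card : ℝ) * p ≤ 16 * K ^ 2 * (2 * K * p * B.card) :=
      hDup.trans (mul_le_mul_of_nonneg_left hBlow (by positivity))
    have h2 : p * D.card ≤ p * (32 * K ^ 3 * B.card) := by nlinarith
    exact le_of_mul_le_mul_left h2 hp0
  -- many pairs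
  have hpairs : 1 / (4 * K) * (B.card : ℝ) ^ 2 ≤
      (((B ×ˢ B).filter (fun q => q.1 - q.2 ∈ D)).card : ℝ) := by
    have hθ : ∀ γ ∈ B, Real.sqrt (1 / (2 * K)) * p ≤ ‖expSum P γ‖ := by
      intro γ hγ
      have h := (hmem γ).1 hγ
      have h1 : (Real.sqrt (1 / (2 * K)) * p) ^ 2 ≤ ‖expSum P γ‖ ^ 2 := by
        rw [mul_pow, Real.sq_sqrt (by positivity), div_mul_eq_mul_div, div_le_iff₀ (by positivity)]
        linarith
      exact le_of_sq_le_sq h1 (norm_nonneg _)
    have h1 := wa_pairs P B (Real.sqrt (1 / (2 * K))) (Real.sqrt_nonneg _) hθ hP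
    rw [Real.sq_sqrt (by positivity), ← hp] at h1
    have h2 : ∑ q ∈ B ×ˢ B, ‖expSum P (q.1 - q.2)‖ ≤
        p * (((B ×ˢ B).filter (fun q => q.1 - q.2 ∈ D)).card : ℝ) +
          (B.card : ℝ) ^ 2 * (p / (4 * K)) := by
      rw [← sum_filter_add_sum_filter_not (B ×ˢ B) (fun q => q.1 - q.2 ∈ D)]
      refine add_le_add ?_ ?_
      · calc ∑ q ∈ (B ×ˢ B).filter (fun q => q.1 - q.2 ∈ D), ‖expSum P (q.1 - q.2)‖
            ≤ ∑ _q ∈ (B ×ˢ B).filter (fun q => q.1 - q.2 ∈ D), p :=
              sum_le_sum fun q _ => hle _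
          _ = _ := by rw [sum_const, nsmul_eq_mul, mul_comm]
      · calc ∑ q ∈ (B ×ˢ B).filter (fun q => ¬ q.1 - q.2 ∈ D), ‖expSum P (q.1 - q.2)‖
            ≤ ∑ _q ∈ (B ×ˢ B).filter (fun q => ¬ q.1 - q.2 ∈ D), p / (4 * K) := by
              refine sum_le_sum fun q hq => ?_
              have h := (mem_filter.1 hq).2
              rw [hmemD, not_le] at h
              rw [le_div_iff₀ (by positivity)]
              linarith
          _ = (((B ×ˢ B).filter (fun q => ¬ q.1 - q.2 ∈ D)).card : ℝ) * (p / (4 * K)) := by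
              rw [sum_const, nsmul_eq_mul]
          _ ≤ ((B ×ˢ B).card : ℝ) * (p / (4 * K)) := by
              refine mul_le_mul_of_nonneg_right ?_ (by positivity)
              exact_mod_cast card_filter_le _ _
          _ = _ := by rw [card_product]; push_cast; ring
    have h3 := h1.trans h2
    have e1 : 1 / (2 * K) * (B.card : ℝ) ^ 2 * p = 2 * ((B.card : ℝ) ^ 2 * (p / (4 * K))) := by
      field_simp
      ring
    rw [e1] at h3
    have h4 : (B.card : ℝ) ^ 2 * (p / (4 * K)) ≤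
        p * (((B ×ˢ B).filter (fun q => q.1 - q.2 ∈ D)).card : ℝ) := by linarith
    have e2 : (B.card : ℝ) ^ 2 * (p / (4 * K)) = p * (1 / (4 * K) * (B.card : ℝ) ^ 2) := by
      field_simp
    rw [e2] at h4
    exact le_of_mul_le_mul_left h4 hp0
  obtain ⟨B', hB'B, hB'1, hB'2⟩ := bsg_diff B D (1 / (4 * K)) (by positivity) hBne hpairs
  have hB'3 : (B.card : ℝ) ≤ 16 * K * B'.card := by
    have e : 1 / (4 * K) / 4 * (B.card : ℝ) = B.card / (16 * K) := by
      field_simp
      norm_num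
    rw [e, div_le_iff₀ (by positivity)] at hB'1
    linarith
  refine ⟨B', fun γ hγ => (hmem γ).1 (hB'B hγ), ?_, ?_, ?_⟩
  · calc g ≤ 2 * K * p * B.card := hBlow
      _ ≤ 2 * K * p * (16 * K * B'.card) := mul_le_mul_of_nonneg_left hB'3 (by positivity)
      _ = _ := by ring
  · refine le_trans (mul_le_mul_of_nonneg_right ?_ hp0.le) hBup
    exact_mod_cast card_le_card hB'B
  · have h1 : ((B' - B').card : ℝ) * ((1 / (4 * K)) ^ 5 * (B.card : ℝ) ^ 3) ≤
        1024 * (32 * K ^ 3 * B.card) ^ 4 :=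
      hB'2.trans (mul_le_mul_of_nonneg_left (pow_le_pow_left₀ (Nat.cast_nonneg _) hDB 4)
        (by norm_num))
    have h2 : ((B' - B').card : ℝ) ≤ 2 ^ 40 * K ^ 17 * B.card := by
      have h3 : ((1 / (4 * K)) ^ 5 * (B.card : ℝ) ^ 3) * ((B' - B').card : ℝ) ≤
          ((1 / (4 * K)) ^ 5 * (B.card : ℝ) ^ 3) * (2 ^ 40 * K ^ 17 * B.card) := by
        calc ((1 / (4 * K)) ^ 5 * (B.card : ℝ) ^ 3) * ((B' - B').card : ℝ)
            = ((B' - B').card : ℝ) * ((1 / (4 * K)) ^ 5 * (B.card : ℝ) ^ 3) := by ring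
          _ ≤ _ := h1
          _ = _ := by
            field_simp
            ring
      exact le_of_mul_le_mul_left h3 (by positivity)
    calc ((B' - B').card : ℝ) ≤ 2 ^ 40 * K ^ 17 * B.card := h2
      _ ≤ 2 ^ 40 * K ^ 17 * (16 * K * B'.card) := mul_le_mul_of_nonneg_left hB'3 (by positivity)
      _ = _ := by ring

end spec

end Pool.Agent.Lib.MP_dd2a7c_co
end

section

/-!
Cutting a finite subgroup down to a prescribed size.
-/

namespace Pool.Agent.Lib.MP_dd2a7c_co

open Finset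
open scoped Classical Pointwise

/-- A finite subgroup `V` is covered by at most `max 1 (|V| / N)` translates of the sum of a cyclic
group and a subgroup `H` of `V` of order at most `N`. -/
theorem exists_cut {G : Type*} [AddCommGroup G] (V : AddSubgroup G) (hV : (V : Set G).Finite)
    (N : ℕ) (hN : 1 ≤ N) :
    ∃ (H : AddSubgroup G) (g : G) (T : Finset G), H ≤ V ∧ Nat.card H ≤ N ∧
      (T.card : ℝ) ≤ max 1 ((Nat.card V : ℝ) / N) ∧
      ∀ v ∈ V, ∃ t ∈ T, ∃ j : ℤ, ∃ h ∈ H, v = t + j • g + h := by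
  have hfinV : Finite V := hV
  rcases le_or_gt (Nat.card V) N with hle | hlt
  · refine ⟨V, 0, {0}, le_rfl, hle, ?_, ?_⟩
    · simp
    · intro v hv
      exact ⟨0, by simp, 0, v, hv, by simp⟩
  · -- a minimal large subgroup
    have hex : ∃ n : ℕ, ∃ L : AddSubgroup G, L ≤ V ∧ N < Nat.card L ∧ Nat.card L = n :=
      ⟨_, V, le_rfl, hlt, rfl⟩
    obtain ⟨L, hLV, hNL, hLn⟩ := Nat.find_spec hex
    have hmin : ∀ L' : AddSubgroup G, L' ≤ V → Nat.card L' < Nat.card L → Nat.card L' ≤ N := by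
      intro L' h1 h2
      by_contra hc
      push Not at hc
      have h3 := Nat.find_min' hex ⟨L', h1, hc, rfl⟩
      rw [← hLn] at h3
      omega
    have hfinL : Finite L := Finite.of_injective _ (AddSubgroup.inclusion_injective hLV)
    have hlt_card : ∀ H₁ H₂ : AddSubgroup G, Finite H₂ → H₁ < H₂ → Nat.card H₁ < Nat.card H₂ := by
      intro H₁ H₂ hf h
      have hss : (H₁ : Set G) ⊂ (H₂ : Set G) := SetLike.coe_ssubset_coe.2 h
      exact Set.ncard_lt_ncard hss hf
    -- a maximal proper subgroup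
    have hex2 : ∃ n : ℕ, ∃ H : AddSubgroup G, H < L ∧ Nat.card L - Nat.card H = n := by
      refine ⟨_, ⊥, ?_, rfl⟩
      refine lt_of_le_of_ne bot_le ?_
      intro h
      rw [← h] at hNL
      simp at hNL
      omega
    obtain ⟨H, hHL, hHn⟩ := Nat.find_spec hex2
    have hmax : ∀ H' : AddSubgroup G, H' < L → Nat.card H' ≤ Nat.card H := by
      intro H' h1
      have h3 := Nat.find_min' hex2 ⟨H', h1, rfl⟩
      rw [← hHn] at h3
      have h4 := hlt_card H' L hfinL h1
      have h5 := hlt_card H L hfinL hHL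
      omega
    obtain ⟨g, hgL, hgH⟩ := SetLike.exists_of_lt hHL
    have hsup : H ⊔ AddSubgroup.zmultiples g = L := by
      have h1 : H ⊔ AddSubgroup.zmultiples g ≤ L := by
        rw [sup_le_iff]
        exact ⟨hHL.le, by rwa [AddSubgroup.zmultiples_le]⟩
      by_contra hne
      have h2 := hmax _ (lt_of_le_of_ne h1 hne)
      have h3 : H < H ⊔ AddSubgroup.zmultiples g := by
        refine lt_of_le_of_ne le_sup_left ?_
        intro h
        apply hgH
        rw [h]
        exact AddSubgroup.mem_sup_right (AddSubgroup.mem_zmultiples g)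
      have hf : Finite (H ⊔ AddSubgroup.zmultiples g : AddSubgroup G) :=
        Finite.of_injective _ (AddSubgroup.inclusion_injective h1)
      have h4 := hlt_card _ _ hf h3
      omega
    have hHV : H ≤ V := hHL.le.trans hLV
    have hHN : Nat.card H ≤ N := hmin H hHV (hlt_card H L hfinL hHL)
    -- representatives
    set Vf : Finset G := hV.toFinset with hVf
    have hLfin : (L : Set G).Finite := hV.subset hLV
    set Lf : Finset G := hLfin.toFinset with hLf
    have hVc : Vf.card = Nat.card V := by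
      rw [hVf, ← Set.ncard_eq_toFinset_card _ hV]
      rfl
    have hLc : Lf.card = Nat.card L := by
      rw [hLf, ← Set.ncard_eq_toFinset_card _ hLfin]
      rfl
    have hcount : (clsA L Vf).card * Nat.card L ≤ Nat.card V := by
      have h1 := clsA_mul_card_le L Vf Lf (by
        intro y hy y' hy'
        rw [hLf, Set.Finite.mem_toFinset] at hy hy'
        exact L.sub_mem hy hy')
      rw [hLc] at h1
      refine h1.trans ?_
      rw [← hVc]
      refine card_le_card ?_
      intro y hy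
      obtain ⟨a, ha, b, hb, rfl⟩ := mem_add.1 hy
      rw [hVf, Set.Finite.mem_toFinset] at ha ⊢
      rw [hLf, Set.Finite.mem_toFinset] at hb
      exact V.add_mem ha (hLV hb)
    refine ⟨H, g, (clsA L Vf).image Quotient.out, hHV, hHN, ?_, ?_⟩
    · refine le_trans ?_ (le_max_right _ _)
      have hN0 : (0 : ℝ) < N := by exact_mod_cast hN
      rw [le_div_iff₀ hN0]
      calc (((clsA L Vf).image Quotient.out).card : ℝ) * N
          ≤ ((clsA L Vf).card : ℝ) * (Nat.card L : ℝ) := by
            refine mul_le_mul ?_ ?_ hN0.le (Nat.cast_nonneg _)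
            · exact_mod_cast card_image_le
            · exact_mod_cast hNL.le
        _ = (((clsA L Vf).card * Nat.card L : ℕ) : ℝ) := by push_cast; ring
        _ ≤ _ := by exact_mod_cast hcount
    · intro v hv
      have hvf : v ∈ Vf := by rw [hVf, Set.Finite.mem_toFinset]; exact hv
      refine ⟨(QuotientAddGroup.mk v : G ⧸ L).out, mem_image_of_mem _ (mem_image_of_mem _ hvf), ?_⟩
      have h1 : -(QuotientAddGroup.mk v : G ⧸ L).out + v ∈ L := by
        rw [← QuotientAddGroup.eq]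
        exact QuotientAddGroup.out_eq' _
      rw [← hsup] at h1
      obtain ⟨h, hh, y, hy, hhy⟩ := AddSubgroup.mem_sup.1 h1
      obtain ⟨j, rfl⟩ := AddSubgroup.mem_zmultiples_iff.1 hy
      rw [hsup] at hhy
      refine ⟨j, h, hh, ?_⟩
      rw [add_assoc, add_comm (j • g) h, hhy]
      abel

end Pool.Agent.Lib.MP_dd2a7c_co
end

section

/-!
The dual step: a dense subset of small doubling of a finite abelian group `M` has many points in a
coset of a subgroup `V` which has few generators modulo it.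
-/

namespace Pool.Agent.Lib.MP_dd2a7c_co

open Finset
open scoped Classical Pointwise

/-- The common kernel of the characters in `X`. -/
def kerA {M : Type*} [AddCommGroup M] (X : Finset (AddChar M ℂ)) : AddSubgroup M where
  carrier := {m | ∀ ψ ∈ X, ψ m = 1}
  zero_mem' := fun ψ _ => ψ.map_zero_eq_one
  add_mem' := fun {a b} ha hb ψ hψ => by
    rw [AddChar.map_add_eq_mul, ha ψ hψ, hb ψ hψ, one_mul]
  neg_mem' := fun {a} ha ψ hψ => by
    rw [AddChar.map_neg_eq_inv, ha ψ hψ, inv_one]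

lemma eq_one_of_mem_closure {M : Type*} [AddCommGroup M] (X : Finset (AddChar M ℂ)) {m : M}
    (hm : m ∈ kerA X) {γ : AddChar M ℂ}
    (hγ : γ ∈ AddSubgroup.closure (X : Set (AddChar M ℂ))) : γ m = 1 := by
  have h : AddSubgroup.closure (X : Set (AddChar M ℂ)) ≤
      { carrier := {ψ : AddChar M ℂ | ψ m = 1}
        zero_mem' := by
          show (0 : AddChar M ℂ) m = 1
          exact AddChar.zero_apply m
        add_mem' := fun {a b} ha hb => by
          show (a + b) m = 1
          rw [AddChar.add_apply]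
          have ha' : a m = 1 := ha
          have hb' : b m = 1 := hb
          rw [ha', hb', one_mul]
        neg_mem' := fun {a} ha => by
          show (-a) m = 1
          have ha' : a m = 1 := ha
          rw [AddChar.neg_apply', ha', inv_one] } := by
    rw [AddSubgroup.closure_le]
    intro ψ hψ
    exact hm ψ (mem_coe.1 hψ)
  exact h hγ

/-- The values of a homomorphism from `ℤ^d` lie in the subgroup generated by the images of the unit
vectors. -/
lemma hom_mem_closure {G : Type*} [AddCommGroup G] {d : ℕ} (φ : (Fin d → ℤ) →+ G)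
    (v : Fin d → ℤ) :
    φ v ∈ AddSubgroup.closure
      (((univ : Finset (Fin d)).image (fun i => φ (Pi.single i 1)) : Finset G) : Set G) := by
  have h : v = ∑ i, v i • (Pi.single i 1 : Fin d → ℤ) := by
    have h1 : ∀ i, v i • (Pi.single i 1 : Fin d → ℤ) = Pi.single i (v i) := by
      intro i
      rw [← Pi.single_smul, smul_eq_mul, mul_one]
    rw [sum_congr rfl fun i _ => h1 i, Finset.univ_sum_single]
  rw [h, map_sum]
  refine AddSubgroup.sum_mem _ fun i _ => ?_
  rw [map_zsmul]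
  refine AddSubgroup.zsmul_mem _ (AddSubgroup.subset_closure ?_) _
  rw [coe_image]
  exact ⟨i, by simp, rfl⟩

/-- Sum set from the difference set. -/
lemma add_card_of_sub_card {G : Type*} [AddCommGroup G] (B : Finset G) (hB : B.Nonempty) (L : ℝ)
    (h : ((B - B).card : ℝ) ≤ L * B.card) : ((B + B).card : ℝ) ≤ L ^ 2 * B.card := by
  have hBpos : (0 : ℝ) < B.card := by exact_mod_cast hB.card_pos
  have h1 := pluennecke_ruzsa_inequality_nsmul_sub hB B 2
  have h2 : ((2 • B).card : ℝ) ≤ (((B - B).card : ℝ) / B.card) ^ 2 * B.card := by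
    have h0 := (NNRat.cast_le (K := ℝ)).2 h1
    push_cast at h0
    exact h0
  rw [two_nsmul] at h2
  refine h2.trans (mul_le_mul_of_nonneg_right ?_ hBpos.le)
  refine pow_le_pow_left₀ (by positivity) ?_ 2
  rw [div_le_iff₀ hBpos]
  exact h

/-- The dual step. -/
theorem dual_step {M : Type*} [AddCommGroup M] [Fintype M] (P : Finset M) (hP : P.Nonempty)
    (K : ℝ) (hK1 : 1 ≤ K) (hK : ((P + P).card : ℝ) ≤ K * P.card) (z : ℝ) (hz : 2 ≤ z)
    (hprime : ∀ p : ℕ, p.Prime → p ∣ Nat.card M → z ≤ p)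
    (E : ℝ) (hE : (Fintype.card M : ℝ) ≤ E * P.card) (κ κ₂ τ : ℝ)
    (hcover : ∀ B : Finset (AddChar M ℂ), B.Nonempty →
      ((B + B).card : ℝ) ≤ (2 ^ 88 * K ^ 36) * B.card →
      ∃ (Q : CosetProg (AddChar M ℂ)) (T : Finset (AddChar M ℂ)), (Q.dim : ℝ) ≤ κ ∧
        (Q.vol : ℝ) ≤ Real.exp κ₂ * B.card ∧ (T.card : ℝ) ≤ τ ∧ CoveredBy B T Q) :
    ∃ (V : AddSubgroup M) (S : Finset M) (x : M), AddSubgroup.closure (S : Set M) ⊔ V = ⊤ ∧
      (Nat.card V : ℝ) ≤ 64 * K ^ 3 * τ * ((P.filter (fun a => a - x ∈ V)).card : ℝ) ∧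
      (S.card : ℝ) ≤ 1 + κ + (κ₂ + Real.log (2 * K * E)) / Real.log z := by
  have hK0 : 0 < K := by linarith
  obtain ⟨B, hB1, hB2, hB3, hB4⟩ := exists_small_doubling_spec P K hP hK1 hK
  have hPpos : (0 : ℝ) < P.card := by exact_mod_cast hP.card_pos
  have hMpos : (0 : ℝ) < Fintype.card M := by
    have : Nonempty M := ⟨0⟩
    exact_mod_cast Fintype.card_pos
  have hBne : B.Nonempty := by
    rw [nonempty_iff_ne_empty]
    intro h
    rw [h, card_empty, Nat.cast_zero, mul_zero] at hB2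
    linarith
  have hBpos : (0 : ℝ) < B.card := by exact_mod_cast hBne.card_pos
  have hadd := add_card_of_sub_card B hBne _ hB4
  have e1 : (2 ^ 44 * K ^ 18) ^ 2 = 2 ^ 88 * K ^ 36 := by ring
  rw [e1] at hadd
  obtain ⟨Q, T, hQd, hQv, hT, hcov⟩ := hcover B hBne hadd
  obtain ⟨t, _, hlarge0⟩ := exists_large_part B T Q hBne hcov
  obtain ⟨B₂, hB₂⟩ : ∃ B₂, B₂ = B.filter (fun a => ∃ g ∈ Q.carrier, a = t + g) := ⟨_, rfl⟩
  have hlarge : B.card ≤ T.card * B₂.card := by
    rw [hB₂]
    convert hlarge0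
  have hmemB₂ : ∀ γ, γ ∈ B₂ ↔ γ ∈ B ∧ ∃ g ∈ Q.carrier, γ = t + g := by
    intro γ
    rw [hB₂, mem_filter]
  have hB₂pos : (0 : ℝ) < B₂.card := by
    rcases Nat.eq_zero_or_pos B₂.card with h | h
    · rw [h, mul_zero] at hlarge
      have := hBne.card_pos
      omega
    · exact_mod_cast h
  -- the finite subgroup
  have hfinQ : Finite Q.sub := Q.finite_sub
  have hQpts : 1 ≤ Set.ncard Q.points := by
    obtain ⟨a, ha⟩ := hBne
    obtain ⟨_, _, g, ⟨v, hv, _, _, _⟩, _⟩ := hcov a ha
    exact (Set.ncard_pos Q.symBody.pts_finite).2 ⟨v, hv⟩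
  have hsubvol : (Nat.card Q.sub : ℝ) ≤ Real.exp κ₂ * B.card := by
    refine le_trans ?_ hQv
    unfold CosetProg.vol
    exact_mod_cast Nat.le_mul_of_pos_right _ (by omega)
  have hBE : (B.card : ℝ) ≤ 2 * K * E := by
    have h1 : (B.card : ℝ) * P.card ≤ (2 * K * E) * P.card := by
      calc (B.card : ℝ) * P.card ≤ 2 * K * Fintype.card M := hB3
        _ ≤ 2 * K * (E * P.card) := mul_le_mul_of_nonneg_left hE (by positivity)
        _ = _ := by ring
    exact le_of_mul_le_mul_right h1 hPpos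
  have hKE : 0 < 2 * K * E := lt_of_lt_of_le hBpos hBE
  obtain ⟨S', hS'1, hS'2⟩ := exists_gens_of_primes Q.sub z (by linarith) (by
    intro p hp hpd
    refine hprime p hp ?_
    have h1 : Nat.card Q.sub ∣ Nat.card (AddChar M ℂ) := AddSubgroup.card_addSubgroup_dvd_card _
    have h2 : Nat.card (AddChar M ℂ) = Nat.card M := by
      rw [Nat.card_eq_fintype_card, Nat.card_eq_fintype_card, AddChar.card_eq]
    rw [← h2]
    exact hpd.trans h1)
  have hlogz : 0 < Real.log z := Real.log_pos (by linarith)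
  have hS'3 : (S'.card : ℝ) ≤ (κ₂ + Real.log (2 * K * E)) / Real.log z := by
    rw [le_div_iff₀ hlogz, ← Real.log_pow]
    calc Real.log (z ^ S'.card) ≤ Real.log (Real.exp κ₂ * (2 * K * E)) := by
          refine Real.log_le_log (by positivity) ?_
          refine hS'2.trans (hsubvol.trans ?_)
          exact mul_le_mul_of_nonneg_left hBE (Real.exp_pos _).le
      _ = _ := by rw [Real.log_mul (Real.exp_pos _).ne' hKE.ne', Real.log_exp]
  -- the characters
  set X : Finset (AddChar M ℂ) := insert (t + Q.base)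
    ((univ : Finset (Fin Q.dim)).image (fun i => Q.hom (Pi.single i 1)) ∪ S') with hX
  have hXcard : (X.card : ℝ) ≤ 1 + κ + (κ₂ + Real.log (2 * K * E)) / Real.log z := by
    have h1 : X.card ≤ (Q.dim + S'.card) + 1 := by
      refine (card_insert_le _ _).trans (Nat.add_le_add_right ?_ 1)
      refine (card_union_le _ _).trans (Nat.add_le_add_right ?_ _)
      refine card_image_le.trans ?_
      rw [card_univ, Fintype.card_fin]
    calc (X.card : ℝ) ≤ (((Q.dim + S'.card) + 1 : ℕ) : ℝ) := by exact_mod_cast h1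
      _ = Q.dim + S'.card + 1 := by push_cast; ring
      _ ≤ _ := by linarith
  have hcl : ∀ γ ∈ B₂, γ ∈ AddSubgroup.closure (X : Set (AddChar M ℂ)) := by
    intro γ hγ
    obtain ⟨_, g, ⟨v, _, h, hh, rfl⟩, rfl⟩ := (hmemB₂ γ).1 hγ
    have h1 : t + Q.base ∈ AddSubgroup.closure (X : Set (AddChar M ℂ)) :=
      AddSubgroup.subset_closure (by rw [hX]; simp)
    have h2 : Q.hom v ∈ AddSubgroup.closure (X : Set (AddChar M ℂ)) := by
      refine AddSubgroup.closure_mono ?_ (hom_mem_closure Q.hom v)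
      intro y hy
      rw [hX, coe_insert, coe_union]
      exact Or.inr (Or.inl hy)
    have h3 : h ∈ AddSubgroup.closure (X : Set (AddChar M ℂ)) := by
      rw [← hS'1] at hh
      refine AddSubgroup.closure_mono ?_ hh
      intro y hy
      rw [hX, coe_insert, coe_union]
      exact Or.inr (Or.inr hy)
    have e : t + (Q.base + Q.hom v + h) = (t + Q.base) + Q.hom v + h := by abel
    rw [e]
    exact AddSubgroup.add_mem _ (AddSubgroup.add_mem _ h1 h2) h3
  obtain ⟨S, hS1, hS2⟩ := exists_gens_mod_chars X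
  obtain ⟨x, hx⟩ := exists_dense_coset P hP K hK0 (kerA X) B₂
    (fun γ hγ v hv => eq_one_of_mem_closure X hv (hcl γ hγ))
    (fun γ hγ => hB1 γ ((hmemB₂ γ).1 hγ).1)
  refine ⟨kerA X, S, x, hS2 (kerA X) (fun m hm => hm), ?_, ?_⟩
  · set F : ℝ := ((P.filter (fun a => a - x ∈ kerA X)).card : ℝ) with hF
    have hF0 : 0 ≤ F := Nat.cast_nonneg _
    have hτ : (B.card : ℝ) ≤ τ * B₂.card := by
      calc (B.card : ℝ) ≤ ((T.card * B₂.card : ℕ) : ℝ) := by exact_mod_cast hlarge
        _ = (T.card : ℝ) * B₂.card := by push_cast; ring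
        _ ≤ _ := mul_le_mul_of_nonneg_right hT hB₂pos.le
    have h1 : (B₂.card : ℝ) * P.card * Nat.card (kerA X) ≤
        (B₂.card : ℝ) * P.card * (64 * K ^ 3 * τ * F) := by
      calc (B₂.card : ℝ) * P.card * Nat.card (kerA X)
          = (B₂.card : ℝ) * Nat.card (kerA X) * P.card := by ring
        _ ≤ 2 * K * Fintype.card M * F := hx
        _ ≤ 2 * K * (32 * K ^ 2 * P.card * B.card) * F :=
            mul_le_mul_of_nonneg_right (mul_le_mul_of_nonneg_left hB2 (by positivity)) hF0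
        _ ≤ 2 * K * (32 * K ^ 2 * P.card * (τ * B₂.card)) * F :=
            mul_le_mul_of_nonneg_right (mul_le_mul_of_nonneg_left
              (mul_le_mul_of_nonneg_left hτ (by positivity)) (by positivity)) hF0
        _ = _ := by ring
    exact le_of_mul_le_mul_left h1 (by positivity)
  · refine le_trans ?_ hXcard
    exact_mod_cast hS1

end Pool.Agent.Lib.MP_dd2a7c_co
end

section

/-!
The polynomial covering theorem, as a library statement.
-/

namespace Pool.Agent.Lib.MP_dd2a7c_co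

open Pointwise

universe u

theorem poly_cover :
    ∃ C : ℝ, 0 < C ∧ ∀ (Γ : Type u) [AddCommGroup Γ] [DecidableEq Γ] (ε : ℝ), 0 < ε → ε ≤ 1 →
      ∀ (K : ℝ) (A : Finset Γ), A.Nonempty → ((A + A).card : ℝ) ≤ K * A.card →
      ∃ (Q : CosetProg Γ) (T : Finset Γ), (Q.dim : ℝ) ≤ C / ε * Real.log (2 * K) ∧
        (Q.vol : ℝ) ≤ Real.exp (C / ε * Real.log (2 * K) ^ (1 + ε)) * A.card ∧
        (T.card : ℝ) ≤ (2 * K) ^ (C / ε) ∧ CoveredBy A T Q := by
  obtain ⟨C₂, hC₂, h₂⟩ := exists_set_of_law_two.{u}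
  obtain ⟨C₄, hC₄, h₄⟩ := weak_pfr.{u}
  refine assemble_poly hC₂ hC₄ ?_ ?_ ?_
  · intro Γ _ _ A hA K κ₁ κ n j τ
    exact h₂ A hA K κ₁ κ n j τ
  · intro Γ _ _ S κ N h0 hneg hκ hN hg
    exact exists_proper_prog_of_growth S h0 hneg κ N hκ hN hg
  · intro G _ _ d π A K
    exact h₄ π A K

end Pool.Agent.Lib.MP_dd2a7c_co
end

section

/-!
The weak Freiman-Ruzsa theorem in all abelian groups, with almost logarithmic rank.
-/

namespace Pool.Agent.Lib.MP_dd2a7c_co

open Finset
open scoped Classical Pointwise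

universe u

lemma card_add_inst {G : Type*} [AddCommGroup G] (d1 d2 : DecidableEq G) (A B : Finset G) :
    (@HAdd.hAdd (Finset G) (Finset G) (Finset G) (@instHAdd _ (@Finset.add G d1 _)) A B).card =
      (@HAdd.hAdd (Finset G) (Finset G) (Finset G) (@instHAdd _ (@Finset.add G d2 _)) A B).card := by
  rw [Subsingleton.elim d1 d2]

lemma card_filter_inst {α : Type*} (s : Finset α) (p : α → Prop) (d1 d2 : DecidablePred p) :
    (@Finset.filter α p d1 s).card = (@Finset.filter α p d2 s).card := by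
  rw [Subsingleton.elim d1 d2]

lemma one_le_of_doubling {Γ : Type*} [AddCommGroup Γ] (K : ℝ) (A : Finset Γ) (hA : A.Nonempty)
    (hK : ((A + A).card : ℝ) ≤ K * A.card) : 1 ≤ K := by
  have hApos : (0 : ℝ) < A.card := by exact_mod_cast hA.card_pos
  have h1 : (A.card : ℝ) ≤ (A + A).card := by
    exact_mod_cast card_le_card_add_right hA
  have h2 : 1 * (A.card : ℝ) ≤ K * A.card := by linarith
  exact le_of_mul_le_mul_right h2 hApos

/-- The covering theorem with a constant at least `1` and an exponential. -/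
theorem poly_cover' :
    ∃ C : ℝ, 1 ≤ C ∧ ∀ (Γ : Type u) [AddCommGroup Γ] (ε : ℝ), 0 < ε → ε ≤ 1 →
      ∀ (K : ℝ) (k : ℝ) (A : Finset Γ), A.Nonempty → ((A + A).card : ℝ) ≤ K * A.card →
      Real.log (2 * K) ≤ k →
      ∃ (Q : CosetProg Γ) (T : Finset Γ), (Q.dim : ℝ) ≤ C / ε * k ∧
        (Q.vol : ℝ) ≤ Real.exp (C / ε * k ^ (1 + ε)) * A.card ∧
        (T.card : ℝ) ≤ Real.exp (C / ε * k) ∧ CoveredBy A T Q := by
  obtain ⟨C, hC, h⟩ := poly_cover.{u}
  refine ⟨max C 1, le_max_right _ _, ?_⟩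
  intro Γ _ ε hε hε1 K k A hA hK hk
  have hK1 := one_le_of_doubling K A hA hK
  obtain ⟨Q, T, h1, h2, h3, h4⟩ := h Γ ε hε hε1 K A hA hK
  have hC1 : C / ε ≤ max C 1 / ε := div_le_div_of_nonneg_right (le_max_left _ _) hε.le
  have hCe : 0 ≤ C / ε := by positivity
  have hk0 : 0 ≤ Real.log (2 * K) := Real.log_nonneg (by linarith)
  have hCk : C / ε * Real.log (2 * K) ≤ max C 1 / ε * k :=
    mul_le_mul hC1 hk hk0 (hCe.trans hC1)
  refine ⟨Q, T, h1.trans hCk, ?_, ?_, h4⟩
  · refine h2.trans (mul_le_mul_of_nonneg_right ?_ (Nat.cast_nonneg _))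
    apply Real.exp_le_exp.2
    refine mul_le_mul hC1 ?_ (by positivity) (hCe.trans hC1)
    exact Real.rpow_le_rpow hk0 hk (by linarith)
  · refine h3.trans ?_
    rw [Real.rpow_def_of_pos (by linarith)]
    apply Real.exp_le_exp.2
    rw [mul_comm]
    exact hCk

theorem all_final : ∃ C : ℝ, 0 < C ∧ ∀ (Γ : Type u) [AddCommGroup Γ] [DecidableEq Γ] (ε : ℝ),
    0 < ε → ε ≤ 1 → ∀ z : ℝ, 2 ≤ z →
    (∀ p : ℕ, p.Prime → (p : ℝ) < z → ∀ g : Γ, p • g = 0 → g = 0) →
    ∀ (K : ℝ) (A : Finset Γ), A.Nonempty → ((A + A).card : ℝ) ≤ K * A.card →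
    ∃ (H : AddSubgroup Γ) (S T : Finset Γ), (H : Set Γ).Finite ∧ Nat.card H ≤ A.card ∧
      (Set.ncard ((A : Set Γ) + (H : Set Γ)) : ℝ) ≤ (2 * K) ^ (C / ε) * A.card ∧
      (S.card : ℝ) ≤ C / ε * Real.log (2 * K) * (1 + Real.log (2 * K) ^ ε / Real.log z) ∧
      (T.card : ℝ) ≤ (2 * K) ^ (C / ε) ∧
      (A : Set Γ) ⊆ (T : Set Γ) + (AddSubgroup.closure (S : Set Γ) : Set Γ) + (H : Set Γ) := by
  obtain ⟨C, hC, hcov⟩ := poly_cover'.{u}
  refine ⟨12000 * C, by linarith, ?_⟩
  intro Γ _ inst ε hε hε1 z hz htor K A hA hK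
  have hinst : inst = Classical.decEq Γ := Subsingleton.elim _ _
  subst hinst
  have hK1 := one_le_of_doubling K A hA hK
  have hApos : (0 : ℝ) < A.card := by exact_mod_cast hA.card_pos
  set κ : ℝ := C / ε with hκ
  have hκ1 : 1 ≤ κ := by
    rw [hκ, le_div_iff₀ hε, one_mul]
    exact hε1.trans hC
  set k : ℝ := Real.log (2 * K) with hk
  have hlog2 : (0.6931471803 : ℝ) < Real.log 2 := Real.log_two_gt_d9
  have hlogK : 0 ≤ Real.log K := Real.log_nonneg hK1
  have hk2 : k = Real.log 2 + Real.log K := by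
    rw [hk, Real.log_mul (by norm_num) (by linarith)]
  have hk0 : 0.69 ≤ k := by linarith
  have hkpos : 0 < k := by linarith
  have hKe : K ≤ Real.exp k := by
    calc K = Real.exp (Real.log K) := (Real.exp_log (by linarith)).symm
      _ ≤ _ := Real.exp_le_exp.2 (by linarith)
  have h2e : (2 : ℝ) ≤ Real.exp k := by
    calc (2 : ℝ) = Real.exp (Real.log 2) := (Real.exp_log (by norm_num)).symm
      _ ≤ _ := Real.exp_le_exp.2 (by linarith)
  have hCe : 12000 * C / ε = 12000 * κ := by rw [hκ]; ring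
  have hpow : (2 * K) ^ (12000 * C / ε) = Real.exp (12000 * κ * k) := by
    rw [Real.rpow_def_of_pos (by linarith), hCe, ← hk, mul_comm]
  -- first covering
  obtain ⟨Q, T₀, hQd, hQv, hT₀, hcovA⟩ := hcov Γ ε hε hε1 K k A hA hK le_rfl
  have hfinQ : Finite Q.sub := Q.finite_sub
  let hFt : Fintype Q.sub := Fintype.ofFinite _
  obtain ⟨x, hx1, hx2⟩ := exists_fibA A K hA hK Q.sub
  set P : Finset Q.sub := inA Q.sub A x with hP
  have hPc : P.card = (fibA Q.sub A x).card := inA_card Q.sub A x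
  have hPP : ((P + P).card : ℝ) ≤ K ^ 3 * P.card := by
    have h1 : (P + P).card = (fibA Q.sub A x + fibA Q.sub A x).card := by
      rw [← inA_add_card Q.sub A x, hP]
    rw [h1, hPc]
    exact hx2
  have hPne : P.Nonempty := by
    rw [← card_pos, hPc]
    rcases Nat.eq_zero_or_pos (fibA Q.sub A x).card with h | h
    · rw [h, mul_zero] at hx1
      have := hA.card_pos
      omega
    · exact h
  have hQpts : 1 ≤ Set.ncard Q.points := by
    obtain ⟨a, ha⟩ := hA
    obtain ⟨_, _, g, ⟨v, hv, _, _, _⟩, _⟩ := hcovA a ha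
    exact (Set.ncard_pos Q.symBody.pts_finite).2 ⟨v, hv⟩
  have hptspos : (0 : ℝ) < Set.ncard Q.points := by exact_mod_cast hQpts
  set E : ℝ := Real.exp (κ * k ^ (1 + ε) + κ * k) with hE
  have hME : (Fintype.card Q.sub : ℝ) ≤ E * P.card := by
    have h1 : (A.card : ℝ) ≤ Real.exp (κ * k) * Set.ncard Q.points * P.card := by
      have h2 : (clsA Q.sub A).card ≤ T₀.card * Set.ncard Q.points := clsA_card_le A T₀ Q hcovA
      calc (A.card : ℝ) ≤ (((clsA Q.sub A).card * (fibA Q.sub A x).card : ℕ) : ℝ) := by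
            exact_mod_cast hx1
        _ ≤ (((T₀.card * Set.ncard Q.points) * (fibA Q.sub A x).card : ℕ) : ℝ) := by
            exact_mod_cast Nat.mul_le_mul_right _ h2
        _ = (T₀.card : ℝ) * (Set.ncard Q.points * P.card) := by rw [hPc]; push_cast; ring
        _ ≤ Real.exp (κ * k) * (Set.ncard Q.points * P.card) :=
            mul_le_mul_of_nonneg_right hT₀ (by positivity)
        _ = _ := by ring
    have h3 : (Fintype.card Q.sub : ℝ) * Set.ncard Q.points ≤
        (E * P.card) * Set.ncard Q.points := by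
      calc (Fintype.card Q.sub : ℝ) * Set.ncard Q.points = (Q.vol : ℝ) := by
            unfold CosetProg.vol
            rw [Nat.card_eq_fintype_card]
            push_cast
            ring
        _ ≤ Real.exp (κ * k ^ (1 + ε)) * A.card := hQv
        _ ≤ Real.exp (κ * k ^ (1 + ε)) * (Real.exp (κ * k) * Set.ncard Q.points * P.card) :=
            mul_le_mul_of_nonneg_left h1 (Real.exp_pos _).le
        _ = _ := by rw [hE, Real.exp_add]; ring
    exact le_of_mul_le_mul_right h3 hptspos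
  -- the dual step
  have hK3 : (1 : ℝ) ≤ K ^ 3 := one_le_pow₀ hK1
  obtain ⟨V', S₁, x', hgen, hV', hS₁⟩ := dual_step P hPne (K ^ 3) hK3
      (le_of_eq_of_le (congrArg Nat.cast (card_add_inst _ _ P P)) hPP) z hz (by
      intro p hp hpd
      by_contra hlt
      push Not at hlt
      have := Fact.mk hp
      obtain ⟨g, hg⟩ := exists_prime_addOrderOf_dvd_card' p hpd
      have h1 : p • (g : Γ) = 0 := by
        have h2 : p • g = 0 := by rw [← hg]; exact addOrderOf_nsmul_eq_zero g
        have h3 := congrArg (Subtype.val) h2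
        simpa using h3
      have h2 := htor p hp hlt g h1
      have h3 : g = 0 := Subtype.ext h2
      rw [h3, addOrderOf_zero] at hg
      exact hp.one_lt.ne hg) E hME (κ * (108 * k)) (κ * (108 * k) ^ (1 + ε))
      (Real.exp (κ * (108 * k))) (by
      intro B hB hBB
      refine hcov (AddChar Q.sub ℂ) ε hε hε1 _ (108 * k) B hB
        (le_of_eq_of_le (congrArg Nat.cast (card_add_inst _ _ B B)) hBB) ?_
      have e : 2 * (2 ^ 88 * (K ^ 3) ^ 36) = 2 ^ 89 * K ^ 108 := by ring
      rw [e, Real.log_mul (by positivity) (by positivity), Real.log_pow, Real.log_pow, hk2]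
      push_cast
      linarith)
  have hclosed : ∀ y : Q.sub, ∃ s ∈ AddSubgroup.closure (S₁ : Set Q.sub), ∃ w ∈ V', s + w = y := by
    intro y
    have h1 : y ∈ AddSubgroup.closure (S₁ : Set Q.sub) ⊔ V' := by
      rw [hgen]
      exact AddSubgroup.mem_top y
    exact AddSubgroup.mem_sup.1 h1
  -- the subgroup of `Γ`
  set V : AddSubgroup Γ := V'.map Q.sub.subtype with hVdef
  have hVfin : (V : Set Γ).Finite := by
    refine Q.finite_sub.subset ?_
    rintro _ ⟨m, _, rfl⟩
    exact m.2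
  have hVcard : Nat.card V = Nat.card V' := by
    rw [hVdef]
    exact Nat.card_congr (V'.equivMapOfInjective _ Q.sub.subtype_injective).symm.toEquiv
  set τ : ℝ := Real.exp (κ * (108 * k)) with hτ
  set R : ℝ := 64 * (K ^ 3) ^ 3 * τ with hR
  have hR0 : 0 ≤ R := by positivity
  have hVR : (Nat.card V : ℝ) ≤ R * (fibA V A ((x' : Γ) + x)).card := by
    rw [hVcard]
    refine hV'.trans (mul_le_mul_of_nonneg_left ?_ hR0)
    have h := inA_fib_card_le Q.sub A x V' x'
    have h2 : (P.filter (fun a => a - x' ∈ V')).card ≤ (fibA V A ((x' : Γ) + x)).card := by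
      rw [hP]
      exact le_of_eq_of_le (card_filter_inst _ _ _ _) h
    exact_mod_cast h2
  have hAV := ncard_add_le_of_fibA A K R hK V hVfin _ hVR
  have hVA : (Nat.card V : ℝ) ≤ R * A.card := by
    refine hVR.trans (mul_le_mul_of_nonneg_left ?_ hR0)
    exact_mod_cast card_le_card (fibA_subset _ _ _)
  obtain ⟨H, g, T₁, hHV, hHA, hT₁, hcut⟩ := exists_cut V hVfin A.card hA.card_pos
  -- numerics
  have hR1 : R ≤ Real.exp (15 * k + 108 * (κ * k)) := by
    have h64 : (64 : ℝ) ≤ Real.exp k ^ 6 := by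
      calc (64 : ℝ) = 2 ^ 6 := by norm_num
        _ ≤ _ := pow_le_pow_left₀ (by norm_num) h2e 6
    have hK9 : (K ^ 3) ^ 3 ≤ Real.exp k ^ 9 := by
      calc (K ^ 3) ^ 3 = K ^ 9 := by ring
        _ ≤ _ := pow_le_pow_left₀ (by linarith) hKe 9
    calc R ≤ Real.exp k ^ 6 * Real.exp k ^ 9 * τ := by
          rw [hR]
          refine mul_le_mul_of_nonneg_right ?_ (Real.exp_pos _).le
          exact mul_le_mul h64 hK9 (by positivity) (by positivity)
      _ = Real.exp (15 * k + 108 * (κ * k)) := by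
          rw [hτ, ← pow_add, ← Real.exp_nat_mul, ← Real.exp_add]
          congr 1
          push_cast
          ring
  have hkκ : k ≤ κ * k := by nlinarith
  have hR2 : R ≤ Real.exp (123 * (κ * k)) :=
    hR1.trans (Real.exp_le_exp.2 (by linarith))
  have hT₁R : (T₁.card : ℝ) ≤ Real.exp (123 * (κ * k)) := by
    refine hT₁.trans (max_le ?_ ?_)
    · exact Real.one_le_exp (by positivity)
    · rw [div_le_iff₀ hApos]
      exact hVA.trans (mul_le_mul_of_nonneg_right hR2 hApos.le)
  set S : Finset Γ := insert g (((univ : Finset (Fin Q.dim)).image (fun i => Q.hom (Pi.single i 1)))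
    ∪ S₁.image (fun m : Q.sub => (m : Γ))) with hS
  set T : Finset Γ := (T₀ ×ˢ T₁).image (fun p => p.1 + Q.base + p.2) with hT
  refine ⟨H, S, T, hVfin.subset hHV, hHA, ?_, ?_, ?_, ?_⟩
  · -- the sum set
    have h1 : (Set.ncard ((A : Set Γ) + (H : Set Γ)) : ℝ) ≤
        Set.ncard ((A : Set Γ) + (V : Set Γ)) := by
      exact_mod_cast Set.ncard_le_ncard (Set.add_subset_add_left hHV)
        (A.finite_toSet.add hVfin)
    refine h1.trans (hAV.trans (mul_le_mul_of_nonneg_right ?_ hApos.le))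
    rw [hpow]
    calc K * R ≤ Real.exp k * Real.exp (123 * (κ * k)) :=
          mul_le_mul hKe hR2 hR0 (Real.exp_pos _).le
      _ = Real.exp (k + 123 * (κ * k)) := by rw [Real.exp_add]
      _ ≤ _ := Real.exp_le_exp.2 (by nlinarith)
  · -- the number of generators
    have hScard : S.card ≤ Q.dim + S₁.card + 1 := by
      refine (card_insert_le _ _).trans (Nat.add_le_add_right ?_ 1)
      refine (card_union_le _ _).trans (Nat.add_le_add ?_ card_image_le)
      refine card_image_le.trans ?_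
      rw [card_univ, Fintype.card_fin]
    have hlogz : Real.log 2 ≤ Real.log z := Real.log_le_log (by norm_num) hz
    have hlogz0 : 0 < Real.log z := by linarith
    have hkε0 : 0 < k ^ (1 + ε) := Real.rpow_pos_of_pos hkpos _
    have hkε : k ^ (1 + ε) = k * k ^ ε := by
      rw [Real.rpow_add hkpos, Real.rpow_one]
    have h108 : (108 * k) ^ (1 + ε) ≤ 11664 * k ^ (1 + ε) := by
      rw [Real.mul_rpow (by norm_num) hkpos.le]
      refine mul_le_mul_of_nonneg_right ?_ hkε0.le
      calc (108 : ℝ) ^ (1 + ε) ≤ 108 ^ (2 : ℝ) :=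
            Real.rpow_le_rpow_of_exponent_le (by norm_num) (by linarith)
        _ = 11664 := by norm_num
    have hlog3 : Real.log (2 * K ^ 3 * E) ≤ 3 * k + κ * k ^ (1 + ε) + κ * k := by
      have h1 : (2 * K ^ 3 : ℝ) ≠ 0 := by positivity
      rw [Real.log_mul h1 (Real.exp_pos _).ne', Real.log_exp,
        Real.log_mul (by norm_num) (by positivity), Real.log_pow]
      push_cast
      linarith
    have hnum : κ * (108 * k) ^ (1 + ε) + Real.log (2 * K ^ 3 * E) ≤
        11665 * (κ * k ^ (1 + ε)) + 4 * (κ * k) := by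
      have h1 : κ * (108 * k) ^ (1 + ε) ≤ κ * (11664 * k ^ (1 + ε)) :=
        mul_le_mul_of_nonneg_left h108 (by linarith)
      linarith
    have h4 : 4 * (κ * k) / Real.log z ≤ 6 * (κ * k) := by
      rw [div_le_iff₀ hlogz0]
      have h0 : 0 ≤ κ * k := by positivity
      nlinarith
    have hS₁' : (S₁.card : ℝ) ≤ 1 + 108 * (κ * k) + 11665 * (κ * k ^ (1 + ε)) / Real.log z
        + 6 * (κ * k) := by
      refine hS₁.trans ?_
      have h5 : (κ * (108 * k) ^ (1 + ε) + Real.log (2 * K ^ 3 * E)) / Real.log z ≤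
          11665 * (κ * k ^ (1 + ε)) / Real.log z + 6 * (κ * k) := by
        calc _ ≤ (11665 * (κ * k ^ (1 + ε)) + 4 * (κ * k)) / Real.log z :=
              div_le_div_of_nonneg_right hnum hlogz0.le
          _ = 11665 * (κ * k ^ (1 + ε)) / Real.log z + 4 * (κ * k) / Real.log z := add_div _ _ _
          _ ≤ _ := by linarith
      linarith
    have h6 : (S.card : ℝ) ≤ (Q.dim : ℝ) + S₁.card + 1 := by exact_mod_cast hScard
    have h7 : 0 ≤ κ * k ^ (1 + ε) / Real.log z := by positivity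
    have hgoal : 12000 * C / ε * k * (1 + k ^ ε / Real.log z) =
        12000 * (κ * k) + 12000 * (κ * k ^ (1 + ε) / Real.log z) := by
      rw [hCe, hkε]
      ring
    rw [hgoal]
    have h8 : 11665 * (κ * k ^ (1 + ε)) / Real.log z =
        11665 * (κ * k ^ (1 + ε) / Real.log z) := by ring
    rw [h8] at hS₁'
    have h9 : (Q.dim : ℝ) ≤ κ * k := hQd
    linarith
  · -- the number of translates
    rw [hpow]
    calc (T.card : ℝ) ≤ ((T₀.card * T₁.card : ℕ) : ℝ) := by
          rw [← card_product]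
          exact_mod_cast card_image_le
      _ = (T₀.card : ℝ) * T₁.card := by push_cast; ring
      _ ≤ Real.exp (κ * k) * Real.exp (123 * (κ * k)) :=
          mul_le_mul hT₀ hT₁R (Nat.cast_nonneg _) (Real.exp_pos _).le
      _ = Real.exp (124 * (κ * k)) := by rw [← Real.exp_add]; congr 1; ring
      _ ≤ _ := Real.exp_le_exp.2 (by nlinarith)
  · -- the covering
    intro a ha
    obtain ⟨t, ht, _, ⟨v, hv, h₀, hh₀, rfl⟩, rfl⟩ := hcovA a (mem_coe.1 ha)
    obtain ⟨s, hs, w, hw, hsw⟩ := hclosed ⟨h₀, hh₀⟩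
    have hsw' : (s : Γ) + (w : Γ) = h₀ := by
      have := congrArg Subtype.val hsw
      simpa using this
    obtain ⟨t₁, ht₁, j, h, hh, hwe⟩ := hcut (w : Γ) ⟨w, hw, rfl⟩
    refine ⟨(t + Q.base + t₁) + (Q.hom v + (s : Γ) + j • g), ⟨t + Q.base + t₁, ?_,
      Q.hom v + (s : Γ) + j • g, ?_, rfl⟩, h, hh, ?_⟩
    · rw [hT, coe_image]
      exact ⟨(t, t₁), mem_coe.2 (mem_product.2 ⟨ht, ht₁⟩), rfl⟩
    · have h1 : Q.hom v ∈ AddSubgroup.closure (S : Set Γ) := by
        refine AddSubgroup.closure_mono ?_ (hom_mem_closure Q.hom v)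
        intro y hy
        rw [hS, coe_insert, coe_union]
        exact Or.inr (Or.inl hy)
      have h2 : (s : Γ) ∈ AddSubgroup.closure (S : Set Γ) := by
        have h3 : (s : Γ) ∈ (AddSubgroup.closure (S₁ : Set Q.sub)).map Q.sub.subtype :=
          ⟨s, hs, rfl⟩
        rw [AddMonoidHom.map_closure] at h3
        refine AddSubgroup.closure_mono ?_ h3
        intro y hy
        obtain ⟨y', hy', rfl⟩ := hy
        rw [hS, coe_insert, coe_union, coe_image (s := S₁)]
        exact Or.inr (Or.inr ⟨y', hy', rfl⟩)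
      have h3 : j • g ∈ AddSubgroup.closure (S : Set Γ) :=
        AddSubgroup.zsmul_mem _ (AddSubgroup.subset_closure (by rw [hS]; simp)) j
      exact AddSubgroup.add_mem _ (AddSubgroup.add_mem _ h1 h2) h3
    · rw [← hsw', hwe]
      simp only
      abel

end Pool.Agent.Lib.MP_dd2a7c_co
end
end
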