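import Pool.Agent.Lib.MP_dd2a7c_co.SumUnits
import Pool.Agent.Lib.MP_dd2a7c_co.Reg

section

/-!
Distributions at distance zero are uniform on cosets of a subgroup; the entropic theorem.
-/

namespace Pool.Agent.Lib.MP_dd2a7c_co

open Finset
open scoped Classical

noncomputable section

section indep

variable {Ω α β : Type*} [Fintype Ω] {p : Ω → ℝ}

/-- Equality case of subadditivity. -/
lemma indep_of_ent_eq (hp : IsProb p) (f : Ω → α) (g : Ω → β)
    (h : ent p (fun ω => (f ω, g ω)) = ent p f + ent p g) {ω : Ω} (hω : p ω ≠ 0) :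
    pr p (fun ω => (f ω, g ω)) (f ω, g ω) = pr p f (f ω) * pr p g (g ω) := by
  have key := submod_sum hp f g (fun _ => ()) (fun _ _ _ => rfl) (fun _ _ _ => rfl)
  have hone : ∀ ω : Ω, pr p (fun _ : Ω => ()) () = 1 := by
    intro _
    unfold pr
    simp [hp.sum_one]
  have key' : ∑ ω, p ω * (pr p f (f ω) * pr p g (g ω) /
      pr p (fun ω => (f ω, g ω)) (f ω, g ω)) ≤ 1 := by
    refine le_trans (le_of_eq ?_) key
    refine sum_congr rfl fun ω _ => ?_
    rw [hone ω, mul_one]
  set x : Ω → ℝ := fun ω => pr p f (f ω) * pr p g (g ω) /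
      pr p (fun ω => (f ω, g ω)) (f ω, g ω) with hx
  have hxpos : ∀ ω, p ω ≠ 0 → 0 < x ω := fun ω hω =>
    div_pos (mul_pos (pr_pos hp f hω) (pr_pos hp g hω)) (pr_pos hp (fun ω => (f ω, g ω)) hω)
  have hlog : ∑ ω, p ω * Real.log (x ω) = 0 := by
    have : ∀ ω, p ω * Real.log (x ω) = p ω * Real.log (pr p f (f ω)) +
        p ω * Real.log (pr p g (g ω)) -
        p ω * Real.log (pr p (fun ω => (f ω, g ω)) (f ω, g ω)) := by
      intro ω
      by_cases h0 : p ω = 0
      · simp [h0]
      rw [hx]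
      simp only
      rw [Real.log_div (mul_pos (pr_pos hp f h0) (pr_pos hp g h0)).ne'
        (pr_pos hp (fun ω => (f ω, g ω)) h0).ne',
        Real.log_mul (pr_pos hp f h0).ne' (pr_pos hp g h0).ne']
      ring
    rw [sum_congr rfl fun ω _ => this ω, sum_sub_distrib, sum_add_distrib]
    unfold ent at h
    dsimp only at h
    linarith
  have hnn : ∀ ω, 0 ≤ p ω * (x ω - 1 - Real.log (x ω)) := by
    intro ω
    by_cases h0 : p ω = 0
    · simp [h0]
    exact mul_nonneg (hp.nonneg ω) (by
      have := Real.log_le_sub_one_of_pos (hxpos ω h0)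
      linarith)
  have hsum : ∑ ω, p ω * (x ω - 1 - Real.log (x ω)) ≤ 0 := by
    have : ∀ ω, p ω * (x ω - 1 - Real.log (x ω)) =
        p ω * x ω - p ω - p ω * Real.log (x ω) := fun ω => by ring
    rw [sum_congr rfl fun ω _ => this ω, sum_sub_distrib, sum_sub_distrib, hlog, hp.sum_one]
    linarith
  have hz := (sum_eq_zero_iff_of_nonneg fun ω _ => hnn ω).1
    (le_antisymm hsum (sum_nonneg fun ω _ => hnn ω)) ω (mem_univ ω)
  have hz' : x ω - 1 - Real.log (x ω) = 0 := by
    rcases mul_eq_zero.1 hz with h | h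
    · exact absurd h hω
    · exact h
  have hx1 : x ω = 1 := by
    by_contra hne
    have := Real.log_lt_sub_one_of_pos (hxpos ω hω) hne
    linarith
  have hpos := pr_pos hp (fun ω => (f ω, g ω)) hω
  rw [hx] at hx1
  simp only at hx1
  rw [div_eq_one_iff_eq hpos.ne'] at hx1
  exact hx1.symm

end indep

variable {G : Type*} [Fintype G] [AddCommGroup G]

lemma pr_add_eq (μ ν : G → ℝ) (a b : G) :
    pr (prod μ ν) (fun x => (x.1 + x.2, x.2)) (a, b) = μ (a - b) * ν b := by
  unfold pr
  rw [Fintype.sum_prod_type, sum_eq_single (a - b)]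
  · rw [sum_eq_single b]
    · simp [prod]
    · intro c _ hc
      simp [hc]
    · simp
  · intro c _ hc
    refine sum_eq_zero fun d _ => ?_
    rw [if_neg]
    simp only [Prod.mk.injEq, not_and]
    rintro h1 rfl
    exact hc (eq_sub_of_add_eq h1)
  · simp

/-- If `H(X + Y) = H(X)` then `X + Y` is independent of `Y`. -/
lemma conv_eq_of_Hd_eq {μ ν : G → ℝ} (hμ : IsProb μ) (hν : IsProb ν)
    (h : Hd (conv μ ν) = Hd μ) {y : G} (hy : ν y ≠ 0) (g : G) : μ (g - y) = conv μ ν g := by
  have hp := isProb_prod hμ hν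
  have hent : ent (prod μ ν) (fun x : G × G => (x.1 + x.2, x.2)) =
      ent (prod μ ν) (fun x : G × G => x.1 + x.2) + ent (prod μ ν) (fun x : G × G => x.2) := by
    have h1 : ent (prod μ ν) (fun x : G × G => (x.1 + x.2, x.2)) =
        ent (prod μ ν) (fun x : G × G => (id x.1, id x.2)) := by
      refine ent_congr _ _ fun x y _ _ => ?_
      simp only [Prod.mk.injEq, id]
      constructor
      · rintro ⟨h1, h2⟩
        rw [h2] at h1
        exact ⟨add_right_cancel h1, h2⟩
      · rintro ⟨h1, h2⟩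
        rw [h1, h2]
        exact ⟨rfl, rfl⟩
    rw [h1, ent_prod hμ hν id id, ← Hd_conv, h]
    congr 1
    exact (ent_prod_snd hμ ν id).symm
  have hind := fun ω (hω : prod μ ν ω ≠ 0) =>
    indep_of_ent_eq hp (fun x : G × G => x.1 + x.2) (fun x : G × G => x.2) hent hω
  have hprν : ∀ b, pr (prod μ ν) (fun x : G × G => x.2) b = ν b := by
    intro b
    have := congrFun (law_prod_snd hμ ν (id : G → G)) b
    rw [law_id] at this
    exact this
  -- equality on the support
  have hsupp : ∀ a, μ (a - y) ≠ 0 → μ (a - y) = conv μ ν a := by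
    intro a ha
    have hω : prod μ ν (a - y, y) ≠ 0 := mul_ne_zero ha hy
    have := hind (a - y, y) hω
    simp only [sub_add_cancel] at this
    rw [pr_add_eq, hprν] at this
    exact mul_right_cancel₀ hy this
  have hconv := isProb_conv hμ hν
  by_cases hg : μ (g - y) = 0
  · -- total mass
    have h1 : ∑ a, μ (a - y) = 1 := by
      rw [← hμ.sum_one]
      exact Fintype.sum_equiv (Equiv.subRight y) _ _ fun a => rfl
    have hle : ∀ a, μ (a - y) ≤ conv μ ν a := by
      intro a
      by_cases ha : μ (a - y) = 0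
      · rw [ha]
        exact hconv.nonneg a
      · exact (hsupp a ha).le
    have heq := (sum_eq_sum_iff_of_le fun a (_ : a ∈ (univ : Finset G)) => hle a).1
      (h1.trans hconv.sum_one.symm)
    exact heq g (mem_univ g)
  · exact hsupp g hg

/-- The uniform distribution on the coset `x + H`. -/
def unif (H : AddSubgroup G) (x : G) : G → ℝ :=
  fun g => if g - x ∈ H then 1 / (Nat.card H : ℝ) else 0

lemma eq_unif_of_Hd_eq {μ ν : G → ℝ} (hμ : IsProb μ) (hν : IsProb ν)
    (h1 : Hd (conv μ ν) = Hd μ) (h2 : Hd (conv μ ν) = Hd ν) :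
    ∃ (H : AddSubgroup G) (x : G), μ = unif H x := by
  have hex : ∀ σ : G → ℝ, IsProb σ → ∃ x, σ x ≠ 0 := by
    intro σ hσ
    by_contra hcon
    push Not at hcon
    have := hσ.sum_one
    simp [hcon] at this
  obtain ⟨x0, hx0⟩ := hex μ hμ
  obtain ⟨y0, hy0⟩ := hex ν hν
  have e1 : ∀ y, ν y ≠ 0 → ∀ g, μ (g - y) = conv μ ν g := fun y hy g =>
    conv_eq_of_Hd_eq hμ hν h1 hy g
  have e2 : ∀ x, μ x ≠ 0 → ∀ g, ν (g - x) = conv μ ν g := by
    intro x hx g
    rw [conv_comm]
    refine conv_eq_of_Hd_eq hν hμ ?_ hx g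
    rw [conv_comm]
    exact h2
  -- the stabilizer of μ
  let H : AddSubgroup G :=
    { carrier := {h | ∀ g, μ (g + h) = μ g}
      zero_mem' := fun g => by rw [add_zero]
      add_mem' := fun {a b} ha hb g => by
        rw [← add_assoc, hb, ha]
      neg_mem' := fun {a} ha g => by
        have := ha (g + -a)
        rw [neg_add_cancel_right] at this
        exact this.symm }
  have memH : ∀ h, h ∈ H ↔ ∀ g, μ (g + h) = μ g := fun h => Iff.rfl
  have hH : ∀ y, ν y ≠ 0 → y - y0 ∈ H := by
    intro y hy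
    rw [memH]
    intro g
    have a := e1 y hy (g + y)
    have b := e1 y0 hy0 (g + y)
    rw [add_sub_cancel_right] at a
    rw [a, ← b, add_sub_assoc]
  have hsupp : ∀ x, μ x ≠ 0 → x - x0 ∈ H := by
    intro x hx
    have a := e1 y0 hy0 (x + y0)
    rw [add_sub_cancel_right] at a
    have b := e2 x0 hx0 (x + y0)
    have : ν (x + y0 - x0) ≠ 0 := by
      rw [b, ← a]
      exact hx
    have := hH _ this
    have e : x + y0 - x0 - y0 = x - x0 := by abel
    rwa [e] at this
  have hval : ∀ g, μ g = if g - x0 ∈ H then μ x0 else 0 := by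
    intro g
    by_cases hg : g - x0 ∈ H
    · rw [if_pos hg]
      have := (memH _).1 hg x0
      rw [add_sub_cancel] at this
      exact this
    · rw [if_neg hg]
      by_contra hne
      exact hg (hsupp g hne)
  refine ⟨H, x0, ?_⟩
  have hsum := hμ.sum_one
  have hcount : ∑ g, μ g = (Nat.card H : ℝ) * μ x0 := by
    calc ∑ g, μ g = ∑ g, if g - x0 ∈ H then μ x0 else 0 := sum_congr rfl fun g _ => hval g
      _ = ∑ g, if g ∈ H then μ x0 else 0 :=
        Fintype.sum_equiv (Equiv.subRight x0) _ _ fun g => rfl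
      _ = (Nat.card H : ℝ) * μ x0 := by
        rw [← sum_filter, sum_const, nsmul_eq_mul]
        congr 2
        rw [Nat.card_eq_fintype_card, Fintype.card_subtype]
  rw [hcount] at hsum
  have hc : (Nat.card H : ℝ) ≠ 0 := by
    intro h0
    rw [h0, zero_mul] at hsum
    exact zero_ne_one hsum
  funext g
  rw [hval g]
  unfold unif
  have : μ x0 = 1 / (Nat.card H : ℝ) := by
    field_simp
    linarith
  rw [this]

variable {R : Type*} [CommRing R] [Module R G] [Fintype Rˣ]

/-- **Entropic theorem.** Every distribution `ρ` on a finite `R`-module is close to the uniform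
distribution on a coset of a subgroup, in terms of its average distance to its unit dilates. -/
theorem entropic_main (hR : SumUnits R) [Fintype (GL (Fin 2048) R)] {ρ : G → ℝ}
    (hρ : IsProb ρ) :
    ∃ (H : AddSubgroup G) (x : G), DD R ρ (unif H x) ≤ 4 ^ 11 * DD R ρ ρ := by
  haveI : Nonempty G := ⟨0⟩
  set η : ℝ := 1 / 4 ^ 11 with hη
  have hη0 : 0 < η := by positivity
  have hη1 : η * 4 ^ 11 ≤ 1 := by
    rw [hη]
    norm_num
  obtain ⟨μ, ν, hμ, hν, hmin⟩ := exists_min (R := R) η ρ
  have hzero : DD R μ ν = 0 :=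
    min_zero (R := R) (n := 1024) (N := 2048) hR rfl rfl hη0.le hη1 hρ hμ hν hmin
  -- the entropies agree
  have hterm : ∀ u : Rˣ, (Hd μ + Hd ν) / 2 ≤ Hd (conv μ (sm (u : R) ν)) := by
    intro u
    have h1 := Hd_le_conv_left hμ (isProb_sm (u : R) hν)
    have h2 := Hd_le_conv_right hμ (isProb_sm (u : R) hν)
    rw [Hd_sm_unit] at h2
    linarith
  have hone : Hd (conv μ ν) = (Hd μ + Hd ν) / 2 := by
    have hav : av (fun u : Rˣ => Hd (conv μ (sm (u : R) ν)) - (Hd μ + Hd ν) / 2) = 0 := by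
      rw [av_sub_const]
      exact hzero
    unfold av at hav
    have hc : (Fintype.card Rˣ : ℝ) ≠ 0 := Nat.cast_ne_zero.2 Fintype.card_ne_zero
    have hs := (div_eq_zero_iff.1 hav).resolve_right hc
    have := (sum_eq_zero_iff_of_nonneg fun u _ => sub_nonneg.2 (hterm u)).1 hs 1 (mem_univ 1)
    simp only [Units.val_one, sm_one] at this
    linarith
  have hl := Hd_le_conv_left hμ hν
  have hr := Hd_le_conv_right hμ hν
  have e1 : Hd (conv μ ν) = Hd μ := by linarith
  have e2 : Hd (conv μ ν) = Hd ν := by linarith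
  have htau := hmin ρ ρ hρ hρ
  unfold tau at htau
  rw [hzero, zero_add] at htau
  have hD0 := DD_nonneg (R := R) hρ hρ
  have hDμ := DD_nonneg (R := R) hρ hμ
  have hDν := DD_nonneg (R := R) hρ hν
  -- choose the closer of the two
  have hfin : ∀ d : ℝ, η * (2 * d) ≤ DD R ρ ρ + η * (DD R ρ ρ + DD R ρ ρ) →
      d ≤ 4 ^ 11 * DD R ρ ρ := by
    intro d hd
    have h4 : (4 : ℝ) ^ 11 * η = 1 := by
      rw [hη]
      norm_num
    have := mul_le_mul_of_nonneg_left hd (show (0 : ℝ) ≤ 4 ^ 11 by positivity)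
    have e : (4 : ℝ) ^ 11 * (η * (2 * d)) = 2 * d := by
      rw [← mul_assoc, h4, one_mul]
    have e' : (4 : ℝ) ^ 11 * (DD R ρ ρ + η * (DD R ρ ρ + DD R ρ ρ)) =
        4 ^ 11 * DD R ρ ρ + 2 * DD R ρ ρ := by
      rw [mul_add, ← mul_assoc, h4, one_mul]
      ring
    rw [e, e'] at this
    have : (4 : ℝ) ^ 11 = 4194304 := by norm_num
    rw [this] at *
    linarith
  rcases le_total (DD R ρ μ) (DD R ρ ν) with hle | hle
  · obtain ⟨H, x, hx⟩ := eq_unif_of_Hd_eq hμ hν e1 e2
    refine ⟨H, x, ?_⟩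
    rw [← hx]
    refine hfin _ ?_
    refine le_trans (mul_le_mul_of_nonneg_left ?_ hη0.le) htau
    linarith
  · obtain ⟨H, x, hx⟩ := eq_unif_of_Hd_eq hν hμ (by rw [conv_comm]; exact e2)
      (by rw [conv_comm]; exact e1)
    refine ⟨H, x, ?_⟩
    rw [← hx]
    refine hfin _ ?_
    refine le_trans (mul_le_mul_of_nonneg_left ?_ hη0.le) htau
    linarith

end

end Pool.Agent.Lib.MP_dd2a7c_co
end

section

/-!
From the entropic theorem to sets, for finite groups.
-/

namespace Pool.Agent.Lib.MP_dd2a7c_co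

open Finset
open scoped Classical Pointwise

noncomputable section

section bounds

variable {Ω α : Type*} [Fintype Ω] {p : Ω → ℝ}

lemma ent_le_log_card (hp : IsProb p) (f : Ω → α) (S : Finset α)
    (hS : ∀ ω, p ω ≠ 0 → f ω ∈ S) : ent p f ≤ Real.log S.card := by
  have hne : S.Nonempty := by
    by_contra hcon
    rw [not_nonempty_iff_eq_empty] at hcon
    have : ∀ ω, p ω = 0 := by
      intro ω
      by_contra h
      have := hS ω h
      rw [hcon] at this
      simp at this
    have h1 := hp.sum_one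
    simp [this] at h1
  have hc : (0 : ℝ) < S.card := Nat.cast_pos.2 hne.card_pos
  have hterm : ∀ ω, -(p ω * Real.log (pr p f (f ω))) - p ω * Real.log S.card ≤
      p ω * (1 / (S.card * pr p f (f ω))) - p ω := by
    intro ω
    by_cases h0 : p ω = 0
    · simp [h0]
    have hpos := pr_pos hp f h0
    have h1 := Real.log_le_sub_one_of_pos (show 0 < 1 / (S.card * pr p f (f ω)) by positivity)
    rw [Real.log_div one_ne_zero (by positivity), Real.log_one, Real.log_mul hc.ne' hpos.ne']
      at h1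
    have := mul_le_mul_of_nonneg_left h1 (hp.nonneg ω)
    linarith
  have hsum := sum_le_sum fun ω (_ : ω ∈ (univ : Finset Ω)) => hterm ω
  rw [sum_sub_distrib, sum_sub_distrib, ← sum_mul, hp.sum_one, one_mul] at hsum
  have hle : ∑ ω, p ω * (1 / (S.card * pr p f (f ω))) ≤ 1 := by
    have e : ∑ ω, p ω * (1 / (S.card * pr p f (f ω))) =
        ∑ a ∈ S, pr p f a * (1 / (S.card * pr p f a)) := by
      have : ∀ a ∈ S, pr p f a * (1 / (S.card * pr p f a)) =
          ∑ ω, if f ω = a then p ω * (1 / (S.card * pr p f (f ω))) else 0 := by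
        intro a _
        have hdef : pr p f a = ∑ ω, if f ω = a then p ω else 0 := rfl
        conv_lhs => enter [1]; rw [hdef]
        rw [sum_mul]
        refine sum_congr rfl fun ω _ => ?_
        by_cases h : f ω = a
        · rw [if_pos h, if_pos h, h]
        · rw [if_neg h, if_neg h, zero_mul]
      rw [sum_congr rfl this, sum_comm]
      refine sum_congr rfl fun ω _ => ?_
      by_cases h0 : p ω = 0
      · simp [h0]
      · rw [sum_eq_single (f ω)]
        · simp
        · intro b _ hb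
          rw [if_neg (Ne.symm hb)]
        · intro h
          exact absurd (hS ω h0) h
    rw [e]
    calc ∑ a ∈ S, pr p f a * (1 / (S.card * pr p f a)) ≤ ∑ _a ∈ S, 1 / (S.card : ℝ) := by
          refine sum_le_sum fun a _ => ?_
          by_cases h : pr p f a = 0
          · rw [h]
            simp
          · field_simp
            exact le_rfl
      _ = 1 := by
          rw [sum_const, nsmul_eq_mul]
          field_simp
  have e2 : ent p f = ∑ ω, -(p ω * Real.log (pr p f (f ω))) := by
    unfold ent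
    rw [sum_neg_distrib]
  rw [e2]
  linarith

lemma neg_log_le_ent (hp : IsProb p) (f : Ω → α) {c : ℝ} (h : ∀ a, pr p f a ≤ c) :
    -Real.log c ≤ ent p f := by
  unfold ent
  rw [neg_le_neg_iff]
  calc ∑ ω, p ω * Real.log (pr p f (f ω)) ≤ ∑ ω, p ω * Real.log c := by
        refine sum_le_sum fun ω _ => ?_
        by_cases h0 : p ω = 0
        · simp [h0]
        refine mul_le_mul_of_nonneg_left ?_ (hp.nonneg ω)
        exact Real.log_le_log (pr_pos hp f h0) (h _)
    _ = Real.log c := by rw [← sum_mul, hp.sum_one, one_mul]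

end bounds

variable {G : Type*} [Fintype G]

/-- Uniform distribution on a finite set. -/
def uA (A : Finset G) : G → ℝ := fun g => if g ∈ A then 1 / (A.card : ℝ) else 0

lemma isProb_uA {A : Finset G} (hA : A.Nonempty) : IsProb (uA A) where
  nonneg g := by
    unfold uA
    split_ifs
    · positivity
    · exact le_rfl
  sum_one := by
    unfold uA
    rw [← sum_filter]
    simp only [filter_mem_eq_inter, univ_inter, sum_const, nsmul_eq_mul]
    have : (A.card : ℝ) ≠ 0 := Nat.cast_ne_zero.2 hA.card_pos.ne'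
    field_simp

lemma Hd_uA {A : Finset G} (hA : A.Nonempty) : Hd (uA A) = Real.log A.card := by
  have hp := isProb_uA hA
  apply le_antisymm
  · refine ent_le_log_card hp id A fun g hg => ?_
    by_contra h
    apply hg
    unfold uA
    have h' : g ∉ A := h
    rw [if_neg h']
  · have : ∀ a, pr (uA A) id a ≤ 1 / (A.card : ℝ) := by
      intro a
      have : pr (uA A) id a = uA A a := congrFun (law_id (uA A)) a
      rw [this]
      unfold uA
      split_ifs
      · exact le_rfl
      · positivity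
    have h2 := neg_log_le_ent hp id this
    rw [one_div, Real.log_inv, neg_neg] at h2
    exact h2

variable [AddCommGroup G]

lemma conv_apply (μ ν : G → ℝ) (g : G) : conv μ ν g = ∑ a, μ a * ν (g - a) := by
  unfold conv law pr
  rw [Fintype.sum_prod_type]
  refine sum_congr rfl fun a _ => ?_
  rw [sum_eq_single (g - a)]
  · simp [prod]
  · intro b _ hb
    rw [if_neg]
    intro h
    exact hb (eq_sub_of_add_eq' h)
  · simp

/-- **Set version for finite groups**: if `A` has small sums with all its unit dilates, then some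
coset of a subgroup `H` captures a large part of both `A` and `H`. -/
theorem finite_dilate {m : ℕ} [NeZero m] (hm : ∀ g : G, m • g = 0) {A : Finset G}
    (hA : A.Nonempty) {ℓ : ℝ}
    (hℓ : ∀ n : ℕ, n.Coprime m → Real.log ((A + dil n A).card) ≤ ℓ + Real.log A.card) :
    ∃ (H : AddSubgroup G) (z : G), (A.card : ℝ) * Nat.card H ≤
      Real.exp (2 * 4 ^ 11 * ℓ) * ((A.filter fun a => a - z ∈ H).card : ℝ) ^ 2 := by
  letI : Module (ZMod m) G := AddCommGroup.zmodModule hm
  have hρ := isProb_uA hA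
  set ρ := uA A with hρdef
  obtain ⟨H, x, hHx⟩ := entropic_main (R := ZMod m) (sumUnits_zmod m) hρ
  have hsmul : ∀ (r : ZMod m) (g : G), r • g = r.val • g := by
    intro r g
    conv_lhs => rw [← ZMod.natCast_zmod_val r, Nat.cast_smul_eq_nsmul]
  have hApos : (0 : ℝ) < A.card := Nat.cast_pos.2 hA.card_pos
  have hHd : Hd ρ = Real.log A.card := Hd_uA hA
  -- the self-distance of ρ is at most ℓ
  have hself : DD (ZMod m) ρ ρ ≤ ℓ := by
    unfold DD
    rw [hHd]
    have : av (fun u : (ZMod m)ˣ => Hd (conv ρ (sm (u : ZMod m) ρ))) ≤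
        av (fun _ : (ZMod m)ˣ => ℓ + Real.log A.card) := by
      refine av_mono fun u => ?_
      have h1 := hℓ (u : ZMod m).val (ZMod.val_coe_unit_coprime u)
      refine le_trans ?_ h1
      rw [Hd_conv]
      refine ent_le_log_card (isProb_prod hρ (isProb_sm _ hρ)) _ _ fun y hy => ?_
      have hy1 : ρ y.1 ≠ 0 := left_ne_zero_of_mul hy
      have hy2 : sm (u : ZMod m) ρ y.2 ≠ 0 := right_ne_zero_of_mul hy
      have hy1' : y.1 ∈ A := by
        by_contra h
        apply hy1
        rw [hρdef]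
        unfold uA
        rw [if_neg h]
      have hy2' : y.2 ∈ dil (u : ZMod m).val A := by
        by_contra h
        apply hy2
        unfold sm law pr
        refine sum_eq_zero fun g _ => ?_
        split_ifs with hg
        · rw [hρdef]
          unfold uA
          rw [if_neg]
          intro hgA
          apply h
          have hg' : (u : ZMod m) • g = y.2 := hg
          rw [← hg', hsmul]
          exact mem_image_of_mem _ hgA
        · rfl
      exact add_mem_add hy1' hy2'
    rw [av_const] at this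
    linarith
  -- the uniform distribution on the coset
  have hcardH : 0 < Nat.card H := Nat.card_pos
  have hHpos : (0 : ℝ) < Nat.card H := Nat.cast_pos.2 hcardH
  have hunif : ∀ y : G, unif H y = uA (univ.filter fun g => g - y ∈ H) := by
    intro y
    funext g
    unfold unif uA
    have hcard : (univ.filter fun g => g - y ∈ H).card = Nat.card H := by
      rw [Nat.card_eq_fintype_card, Fintype.card_subtype]
      refine card_bij (fun g _ => g - y) ?_ ?_ ?_
      · intro g hg
        simpa using hg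
      · intro a _ b _ h
        exact sub_left_injective h
      · intro b hb
        refine ⟨b + y, ?_, by abel⟩
        simpa using hb
    rw [hcard]
    simp
  have hcosne : ∀ y : G, (univ.filter fun g => g - y ∈ H).Nonempty := by
    intro y
    refine ⟨y, ?_⟩
    simp [H.zero_mem]
  have hcoscard : ∀ y : G, (univ.filter fun g => g - y ∈ H).card = Nat.card H := by
    intro y
    rw [Nat.card_eq_fintype_card, Fintype.card_subtype]
    refine card_bij (fun g _ => g - y) ?_ ?_ ?_
    · intro g hg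
      simpa using hg
    · intro a _ b _ h
      exact sub_left_injective h
    · intro b hb
      refine ⟨b + y, ?_, by abel⟩
      simpa using hb
  have hprobu : ∀ y : G, IsProb (unif H y) := fun y => by
    rw [hunif]
    exact isProb_uA (hcosne y)
  have hHdu : Hd (unif H x) = Real.log (Nat.card H) := by
    rw [hunif, Hd_uA (hcosne x), hcoscard]
  -- the largest fibre
  obtain ⟨z, -, hz⟩ := exists_max_image (univ : Finset G)
    (fun z => (A.filter fun a => a - z ∈ H).card) ⟨0, mem_univ 0⟩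
  set q := (A.filter fun a => a - z ∈ H).card with hq
  have hqpos : 0 < q := by
    obtain ⟨a, ha⟩ := hA
    have h1 : 0 < (A.filter fun b => b - a ∈ H).card := by
      refine card_pos.2 ⟨a, ?_⟩
      simp [ha, H.zero_mem]
    exact lt_of_lt_of_le h1 (hz a (mem_univ a))
  have hqR : (0 : ℝ) < q := Nat.cast_pos.2 hqpos
  -- dilates of the coset
  have hHsmul : ∀ (r : ZMod m) (g : G), g ∈ H → r • g ∈ H := by
    intro r g hg
    rw [hsmul]
    exact H.nsmul_mem hg _
  have hsmunif : ∀ u : (ZMod m)ˣ, sm (u : ZMod m) (unif H x) = unif H ((u : ZMod m) • x) := by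
    intro u
    funext g
    unfold sm law pr
    rw [sum_eq_single (((u⁻¹ : (ZMod m)ˣ) : ZMod m) • g)]
    · have h1 : (u : ZMod m) • (((u⁻¹ : (ZMod m)ˣ) : ZMod m) • g) = g := by
        rw [smul_smul, Units.mul_inv, one_smul]
      rw [if_pos h1]
      unfold unif
      have h2 : ((u⁻¹ : (ZMod m)ˣ) : ZMod m) • g - x ∈ H ↔ g - (u : ZMod m) • x ∈ H := by
        constructor
        · intro h
          have := hHsmul (u : ZMod m) _ h
          rwa [smul_sub, h1] at this
        · intro h
          have := hHsmul ((u⁻¹ : (ZMod m)ˣ) : ZMod m) _ h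
          rwa [smul_sub, smul_smul _ _ x, Units.inv_mul, one_smul] at this
      simp only [h2]
    · intro b _ hb
      rw [if_neg]
      intro h
      apply hb
      rw [← h, smul_smul, Units.inv_mul, one_smul]
    · simp
  -- pointwise bound for the convolution
  have hpt : ∀ (u : (ZMod m)ˣ) (g : G), conv ρ (sm (u : ZMod m) (unif H x)) g ≤
      q / (A.card * Nat.card H) := by
    intro u g
    rw [hsmunif, conv_apply]
    have e : ∀ a, ρ a * unif H ((u : ZMod m) • x) (g - a) =
        if a ∈ A ∧ a - (g - (u : ZMod m) • x) ∈ H then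
          1 / ((A.card : ℝ) * Nat.card H) else 0 := by
      intro a
      rw [hρdef]
      unfold uA unif
      have h2 : g - a - (u : ZMod m) • x ∈ H ↔ a - (g - (u : ZMod m) • x) ∈ H := by
        rw [← H.neg_mem_iff]
        have : -(g - a - (u : ZMod m) • x) = a - (g - (u : ZMod m) • x) := by abel
        rw [this]
      by_cases h3 : a ∈ A
      · by_cases h4 : a - (g - (u : ZMod m) • x) ∈ H
        · rw [if_pos h3, if_pos (h2.2 h4), if_pos ⟨h3, h4⟩]
          field_simp
        · rw [if_neg (show ¬(g - a - (u : ZMod m) • x ∈ H) from fun h => h4 (h2.1 h)),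
            if_neg (show ¬(a ∈ A ∧ a - (g - (u : ZMod m) • x) ∈ H) from fun h => h4 h.2),
            mul_zero]
      · rw [if_neg h3, if_neg (show ¬(a ∈ A ∧ a - (g - (u : ZMod m) • x) ∈ H) from
          fun h => h3 h.1), zero_mul]
    rw [sum_congr rfl fun a _ => e a, ← sum_filter, sum_const, nsmul_eq_mul, mul_one_div]
    refine div_le_div_of_nonneg_right ?_ (by positivity)
    have h5 : (univ.filter fun a => a ∈ A ∧ a - (g - (u : ZMod m) • x) ∈ H) =
        A.filter fun a => a - (g - (u : ZMod m) • x) ∈ H := by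
      ext a
      simp
    rw [h5]
    exact_mod_cast hz _ (mem_univ _)
  have hlow : ∀ u : (ZMod m)ˣ, Real.log A.card + Real.log (Nat.card H) - Real.log q ≤
      Hd (conv ρ (sm (u : ZMod m) (unif H x))) := by
    intro u
    have hp := isProb_conv hρ (isProb_sm (u : ZMod m) (hprobu x))
    have := neg_log_le_ent hp id (c := q / (A.card * Nat.card H)) (fun g => by
      have : pr (conv ρ (sm (u : ZMod m) (unif H x))) id g =
          conv ρ (sm (u : ZMod m) (unif H x)) g := congrFun (law_id _) g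
      rw [this]
      exact hpt u g)
    rw [Real.log_div hqR.ne' (by positivity), Real.log_mul hApos.ne' hHpos.ne'] at this
    unfold Hd
    linarith
  have hDD : (Real.log A.card + Real.log (Nat.card H)) / 2 - Real.log q ≤
      DD (ZMod m) ρ (unif H x) := by
    unfold DD
    rw [hHd, hHdu]
    have : av (fun _ : (ZMod m)ˣ => Real.log A.card + Real.log (Nat.card H) - Real.log q) ≤
      av (fun u : (ZMod m)ˣ => Hd (conv ρ (sm (u : ZMod m) (unif H x)))) := av_mono hlow
    rw [av_const] at this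
    linarith
  refine ⟨H, z, ?_⟩
  have hfin : Real.log A.card + Real.log (Nat.card H) ≤
      2 * 4 ^ 11 * ℓ + 2 * Real.log q := by
    have := hDD.trans (hHx.trans (mul_le_mul_of_nonneg_left hself (by positivity)))
    linarith
  have h6 := Real.exp_le_exp.2 hfin
  rw [Real.exp_add, Real.exp_add, Real.exp_log hApos, Real.exp_log hHpos,
    show 2 * Real.log (q : ℝ) = Real.log ((q : ℝ) ^ 2) by rw [Real.log_pow]; norm_num,
    Real.exp_log (by positivity)] at h6
  exact h6

end

end Pool.Agent.Lib.MP_dd2a7c_co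
end

section

/-!
Entropy inequalities for the reduction of the dimension.
-/

namespace Pool.Agent.Lib.MP_dd2a7c_co

open Finset
open scoped Classical

noncomputable section

section gen

variable {Ω Ω' α β γ δ : Type*} [Fintype Ω] [Fintype Ω'] {p : Ω → ℝ} {q : Ω' → ℝ}

/-- Submodularity with conditions only on the support. -/
lemma submod_supp (hp : IsProb p) (f : Ω → α) (g : Ω → β) (h : Ω → γ) (j : Ω → δ)
    (hf : ∀ ω ω', p ω ≠ 0 → p ω' ≠ 0 → f ω = f ω' → h ω = h ω')
    (hg : ∀ ω ω', p ω ≠ 0 → p ω' ≠ 0 → g ω = g ω' → h ω = h ω')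
    (hj : ∀ ω ω', p ω ≠ 0 → p ω' ≠ 0 → f ω = f ω' → g ω = g ω' → j ω = j ω') :
    ent p j + ent p h ≤ ent p f + ent p g := by
  let F : Ω → Option α := fun ω => if p ω = 0 then none else some (f ω)
  let G : Ω → Option β := fun ω => if p ω = 0 then none else some (g ω)
  let K : Ω → Option γ := fun ω => if p ω = 0 then none else some (h ω)
  have e1 : ent p f = ent p F := ent_congr _ _ fun ω ω' h1 h2 => by simp [F, h1, h2]
  have e2 : ent p g = ent p G := ent_congr _ _ fun ω ω' h1 h2 => by simp [G, h1, h2]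
  have e3 : ent p h = ent p K := ent_congr _ _ fun ω ω' h1 h2 => by simp [K, h1, h2]
  rw [e1, e2, e3]
  refine submod' hp F G K j ?_ ?_ ?_
  · intro ω ω' he
    by_cases h1 : p ω = 0 <;> by_cases h2 : p ω' = 0
    · simp [K, h1, h2]
    · simp [F, h1, h2] at he
    · simp [F, h1, h2] at he
    · simp only [F, K, h1, h2, if_false, Option.some.injEq] at he ⊢
      exact hf ω ω' h1 h2 he
  · intro ω ω' he
    by_cases h1 : p ω = 0 <;> by_cases h2 : p ω' = 0
    · simp [K, h1, h2]
    · simp [G, h1, h2] at he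
    · simp [G, h1, h2] at he
    · simp only [G, K, h1, h2, if_false, Option.some.injEq] at he ⊢
      exact hg ω ω' h1 h2 he
  · intro ω ω' h1 h2 he1 he2
    simp only [F, G, h1, h2, if_false, Option.some.injEq] at he1 he2
    exact hj ω ω' h1 h2 he1 he2

lemma ne_fst {ω : Ω × Ω'} (h : prod p q ω ≠ 0) : p ω.1 ≠ 0 := left_ne_zero_of_mul h

lemma ne_snd {ω : Ω × Ω'} (h : prod p q ω ≠ 0) : q ω.2 ≠ 0 := right_ne_zero_of_mul h

lemma cw_prod (p : Ω → ℝ) (q : Ω' → ℝ) (f : Ω → α) (g : Ω' → β) (z : α) (z' : β) :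
    cw (prod p q) (fun x => (f x.1, g x.2)) (z, z') = prod (cw p f z) (cw q g z') := by
  funext x
  unfold cw
  rw [pr_prod]
  unfold prod
  simp only [Prod.mk.injEq]
  by_cases h1 : f x.1 = z <;> by_cases h2 : g x.2 = z'
  · simp only [h1, h2, and_self, if_true]
    rw [mul_div_mul_comm]
  · simp [h1, h2]
  · simp [h1, h2]
  · simp [h1, h2]

/-- Mutual-information version of the chain rule: `H(f) ≤ H(f, g)`. -/
lemma ent_le_pair (hp : IsProb p) (f : Ω → α) (g : Ω → β) :
    ent p f ≤ ent p (fun ω => (f ω, g ω)) :=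
  ent_mono hp _ _ fun ω ω' _ _ h => (Prod.ext_iff.1 h).1

/-- Three independent variables: marginals. -/
lemma law_three_12 (p : Ω → ℝ) (hq : IsProb q) :
    law (prod p (prod q q)) (fun ω => (ω.1, ω.2.1)) = prod p q := by
  have h := law_prod p (prod q q) (fun x => x) (fun x => x.1)
  rw [h, law_prod_fst q hq (fun x => x)]
  congr 1
  · exact law_id p
  · exact law_id q

lemma law_three_13 (p : Ω → ℝ) (hq : IsProb q) :
    law (prod p (prod q q)) (fun ω => (ω.1, ω.2.2)) = prod p q := by
  have h := law_prod p (prod q q) (fun x => x) (fun x => x.2)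
  rw [h, law_prod_snd hq q (fun x => x)]
  congr 1
  · exact law_id p
  · exact law_id q

lemma ent_three_12 (p : Ω → ℝ) (hq : IsProb q) (F : Ω × Ω' → α) :
    ent (prod p (prod q q)) (fun ω => F (ω.1, ω.2.1)) = ent (prod p q) F := by
  rw [← law_three_12 p hq, ent_law]
  rfl

lemma ent_three_13 (p : Ω → ℝ) (hq : IsProb q) (F : Ω × Ω' → α) :
    ent (prod p (prod q q)) (fun ω => F (ω.1, ω.2.2)) = ent (prod p q) F := by
  rw [← law_three_13 p hq, ent_law]
  rfl

end gen

section sums

variable {Ω Ω' : Type*} [Fintype Ω] [Fintype Ω'] {p : Ω → ℝ} {q : Ω' → ℝ}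
variable {G : Type*} [AddCommGroup G]

/-- The entropy of the sum of two independent variables. -/
def Hs (p : Ω → ℝ) (q : Ω' → ℝ) (a : Ω → G) (b : Ω' → G) : ℝ :=
  ent (prod p q) (fun ω => a ω.1 + b ω.2)

lemma Hs_three (hp : IsProb p) (hq : IsProb q) (a : Ω → G) (b : Ω' → G) :
    ent (prod p (prod q q)) (fun ω => (a ω.1, b ω.2.1, b ω.2.2)) = ent p a + 2 * ent q b := by
  have h := ent_prod hp (isProb_prod hq hq) a (fun x => (b x.1, b x.2))
  have h2 := ent_prod hq hq b b
  rw [h, h2]
  ring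

/-- Ruzsa triangle inequality: `H(Y₁ - Y₂) ≤ 2 H(X + Y) - H(X)`. -/
lemma ruzsa_diff (hp : IsProb p) (hq : IsProb q) (a : Ω → G) (b : Ω' → G) :
    ent (prod q q) (fun ω => b ω.1 - b ω.2) ≤ 2 * Hs p q a b - ent p a := by
  have hP := isProb_prod hp (isProb_prod hq hq)
  have h1 := submod' hP (fun ω => (a ω.1 + b ω.2.1, a ω.1 + b ω.2.2))
    (fun ω => (b ω.2.1, b ω.2.2)) (fun ω => b ω.2.1 - b ω.2.2)
    (fun ω => (a ω.1, b ω.2.1, b ω.2.2)) (by
      intro ω ω' h
      simp only [Prod.mk.injEq] at h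
      have : b ω.2.1 - b ω.2.2 = (a ω.1 + b ω.2.1) - (a ω.1 + b ω.2.2) := by abel
      rw [this, h.1, h.2]
      abel) (by
      intro ω ω' h
      simp only [Prod.mk.injEq] at h
      rw [h.1, h.2]) (by
      intro ω ω' _ _ h h'
      simp only [Prod.mk.injEq] at h h'
      have h3 := h.1
      rw [h'.1] at h3
      rw [h'.1, h'.2, add_right_cancel h3])
  have h2 := ent_pair_le hP (fun ω => a ω.1 + b ω.2.1) (fun ω => a ω.1 + b ω.2.2)
  have h3 := ent_three_12 p hq (fun ω => a ω.1 + b ω.2)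
  have h4 := ent_three_13 p hq (fun ω => a ω.1 + b ω.2)
  have h5 := Hs_three hp hq a b
  have h6 := ent_prod_snd hp (prod q q) (fun ω => (b ω.1, b ω.2))
  have h7 := ent_prod hq hq b b
  have h8 := ent_prod_snd hp (prod q q) (fun ω => b ω.1 - b ω.2)
  unfold Hs
  simp only at h3 h4
  linarith

/-- `H(X + Y₁ + Y₂) ≤ 2 H(X + Y) - H(X)`. -/
lemma three_sum (hp : IsProb p) (hq : IsProb q) (a : Ω → G) (b : Ω' → G) :
    ent (prod p (prod q q)) (fun ω => a ω.1 + b ω.2.1 + b ω.2.2) ≤ 2 * Hs p q a b - ent p a := by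
  have hP := isProb_prod hp (isProb_prod hq hq)
  have h1 := submod' hP (fun ω => (a ω.1 + b ω.2.1, b ω.2.2))
    (fun ω => (a ω.1 + b ω.2.2, b ω.2.1)) (fun ω => a ω.1 + b ω.2.1 + b ω.2.2)
    (fun ω => (a ω.1, b ω.2.1, b ω.2.2)) (by
      intro ω ω' h
      simp only [Prod.mk.injEq] at h
      rw [h.1, h.2]) (by
      intro ω ω' h
      simp only [Prod.mk.injEq] at h
      rw [add_right_comm, h.1, h.2]
      abel) (by
      intro ω ω' _ _ h h'
      simp only [Prod.mk.injEq] at h h'
      have h3 := h.1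
      rw [h'.2] at h3
      rw [h'.2, h.2, add_right_cancel h3])
  have h2 := ent_pair_le hP (fun ω => a ω.1 + b ω.2.1) (fun ω => b ω.2.2)
  have h2' := ent_pair_le hP (fun ω => a ω.1 + b ω.2.2) (fun ω => b ω.2.1)
  have h3 := ent_three_12 p hq (fun ω => a ω.1 + b ω.2)
  have h4 := ent_three_13 p hq (fun ω => a ω.1 + b ω.2)
  have h5 := Hs_three hp hq a b
  have h6 := ent_three_13 p hq (fun ω => b ω.2)
  have h7 := ent_three_12 p hq (fun ω => b ω.2)
  have h8 := ent_prod_snd hp q b
  unfold Hs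
  simp only at h3 h4 h6 h7
  linarith

/-- The mod-two part of a variable with small doubling in a torsion-free group. -/
lemma ent_mod_two {F : Type*} (hp : IsProb p) (hq : IsProb q) (a : Ω → G) (b : Ω' → G)
    (htf : ∀ z : G, 2 • z = 0 → z = 0) (f : Ω → F)
    (hf1 : ∀ ω ω', p ω ≠ 0 → p ω' ≠ 0 → a ω = a ω' → f ω = f ω')
    (hf2 : ∀ ω ω' υ υ', p ω ≠ 0 → p ω' ≠ 0 → q υ ≠ 0 → q υ' ≠ 0 →
      a ω + 2 • b υ = a ω' + 2 • b υ' → f ω = f ω') :
    ent p f ≤ 4 * (Hs p q a b - (ent p a + ent q b) / 2) := by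
  have hP := isProb_prod hp (isProb_prod hq hq)
  have s1 := submod' hP (fun ω => (a ω.1, a ω.1 + 2 • b ω.2.1))
    (fun ω => (b ω.2.1 - b ω.2.2, a ω.1 + b ω.2.1 + b ω.2.2)) (fun ω => a ω.1 + 2 • b ω.2.1)
    (fun ω => (a ω.1, b ω.2.1, b ω.2.2)) (by
      intro ω ω' h
      simp only [Prod.mk.injEq] at h
      exact h.2) (by
      intro ω ω' h
      simp only [Prod.mk.injEq] at h
      have : ∀ ω : Ω × Ω' × Ω', a ω.1 + 2 • b ω.2.1 =
          (b ω.2.1 - b ω.2.2) + (a ω.1 + b ω.2.1 + b ω.2.2) := by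
        intro ω
        rw [two_nsmul]
        abel
      rw [this ω, this ω', h.1, h.2]) (by
      intro ω ω' _ _ h h'
      simp only [Prod.mk.injEq] at h h'
      have h3 := h.2
      rw [h.1] at h3
      have h4 := add_left_cancel h3
      have h5 : b ω.2.1 = b ω'.2.1 := by
        apply sub_eq_zero.1
        apply htf
        rw [smul_sub, h4, sub_self]
      have h6 := h'.1
      rw [h5] at h6
      rw [h.1, h5, sub_right_injective h6])
  have s2 : ent (prod p (prod q q)) (fun ω => (a ω.1, a ω.1 + 2 • b ω.2.1)) ≤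
      ent p a + ent q b := by
    have h1 : ent (prod p (prod q q)) (fun ω => (a ω.1, a ω.1 + 2 • b ω.2.1)) ≤
        ent (prod p (prod q q)) (fun ω => (a ω.1, b ω.2.1)) :=
      ent_mono hP _ _ fun ω ω' _ _ h => by
        simp only [Prod.mk.injEq] at h ⊢
        rw [h.1, h.2]
        exact ⟨rfl, rfl⟩
    have h2 := ent_three_12 p hq (fun ω => (a ω.1, b ω.2))
    have h3 := ent_prod hp hq a b
    simp only at h2
    linarith
  have s3 := Hs_three hp hq a b
  have s4 := ent_pair_le hP (fun ω => b ω.2.1 - b ω.2.2) (fun ω => a ω.1 + b ω.2.1 + b ω.2.2)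
  have s5 := ruzsa_diff hp hq a b
  have s5' := ent_prod_snd hp (prod q q) (fun ω => b ω.1 - b ω.2)
  have s6 := three_sum hp hq a b
  have s7 := submod_supp (isProb_prod hp hq) (fun ω => a ω.1 + 2 • b ω.2) (fun ω => a ω.1)
    (fun ω => f ω.1) (fun ω => (a ω.1, b ω.2)) (fun ω ω' h h' he =>
      hf2 _ _ _ _ (ne_fst h) (ne_fst h') (ne_snd h) (ne_snd h') he) (fun ω ω' h h' he =>
      hf1 _ _ (ne_fst h) (ne_fst h') he) (by
      intro ω ω' _ _ h h'
      rw [h'] at h
      have h4 := add_left_cancel h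
      have h5 : b ω.2 = b ω'.2 := by
        apply sub_eq_zero.1
        apply htf
        rw [smul_sub, h4, sub_self]
      rw [h', h5])
  have s8 := ent_prod hp hq a b
  have s9 := ent_prod_fst p hq a
  have s10 := ent_prod_fst p hq f
  have s11 := ent_three_12 p hq (fun ω => a ω.1 + 2 • b ω.2)
  simp only at s11
  linarith

/-- Contraction of the distance under homomorphisms. -/
lemma contraction {G' : Type*} [AddCommGroup G'] (hp : IsProb p) (hq : IsProb q) (a : Ω → G)
    (b : Ω' → G) (ψ : G →+ G') :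
    Hs p q (fun ω => ψ (a ω)) (fun ω => ψ (b ω)) -
      (ent p (fun ω => ψ (a ω)) + ent q (fun ω => ψ (b ω))) / 2 ≤
    Hs p q a b - (ent p a + ent q b) / 2 := by
  have hP := isProb_prod hp hq
  have h1 := submod' hP (fun ω => a ω.1 + b ω.2) (fun ω => (ψ (a ω.1), b ω.2))
    (fun ω => ψ (a ω.1) + ψ (b ω.2)) (fun ω => (a ω.1, b ω.2)) (by
      intro ω ω' h
      rw [← map_add, ← map_add, h]) (by
      intro ω ω' h
      simp only [Prod.mk.injEq] at h
      rw [h.1, h.2]) (by
      intro ω ω' _ _ h h'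
      simp only [Prod.mk.injEq] at h h'
      rw [h'.2] at h
      rw [h'.2, add_right_cancel h])
  have h2 := submod' hP (fun ω => a ω.1 + b ω.2) (fun ω => (a ω.1, ψ (b ω.2)))
    (fun ω => ψ (a ω.1) + ψ (b ω.2)) (fun ω => (a ω.1, b ω.2)) (by
      intro ω ω' h
      rw [← map_add, ← map_add, h]) (by
      intro ω ω' h
      simp only [Prod.mk.injEq] at h
      rw [h.1, h.2]) (by
      intro ω ω' _ _ h h'
      simp only [Prod.mk.injEq] at h h'
      rw [h'.1] at h
      rw [h'.1, add_left_cancel h])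
  have e1 := ent_prod hp hq a b
  have e2 := ent_prod hp hq (fun ω => ψ (a ω)) b
  have e3 := ent_prod hp hq a (fun ω => ψ (b ω))
  unfold Hs
  linarith

/-- The sum is at least as random as each summand. -/
lemma ent_le_Hs_right (hp : IsProb p) (hq : IsProb q) (a : Ω → G) (b : Ω' → G) :
    ent q b ≤ Hs p q a b := by
  have h1 := submod' (isProb_prod hp hq) (fun ω => a ω.1 + b ω.2) (fun ω => a ω.1)
    (fun _ => ()) (fun ω => (a ω.1, b ω.2)) (fun _ _ _ => rfl) (fun _ _ _ => rfl) (by
      intro ω ω' _ _ h h'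
      rw [h'] at h
      rw [h', add_left_cancel h])
  have e0 := ent_const (isProb_prod hp hq) ()
  have e1 := ent_prod hp hq a b
  have e2 := ent_prod_fst p hq a
  unfold Hs
  linarith

lemma ent_le_Hs_left (hp : IsProb p) (hq : IsProb q) (a : Ω → G) (b : Ω' → G) :
    ent p a ≤ Hs p q a b := by
  have h1 := submod' (isProb_prod hp hq) (fun ω => a ω.1 + b ω.2) (fun ω => b ω.2)
    (fun _ => ()) (fun ω => (a ω.1, b ω.2)) (fun _ _ _ => rfl) (fun _ _ _ => rfl) (by
      intro ω ω' _ _ h h'
      rw [h'] at h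
      rw [h', add_right_cancel h])
  have e0 := ent_const (isProb_prod hp hq) ()
  have e1 := ent_prod hp hq a b
  have e2 := ent_prod_snd hp q b
  unfold Hs
  linarith

end sums

/-! ### The functional on laws with a given finite support -/

section functional

variable {Ω : Type*} [Fintype Ω] {G : Type*} [AddCommGroup G]

/-- The two-fold functional for weights on `Ω` pushed forward by `x`. -/
def Phi (x : Ω → G) (u : Ω → ℝ) (η : ℝ) (p q : Ω → ℝ) : ℝ :=
  Hs p q x x - (ent p x + ent q x) / 2 +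
    η / 2 * (Hs u p x x + Hs u q x x - ent u x - (ent p x + ent q x) / 2)

lemma continuous_ent {Ω' α X : Type*} [Fintype Ω'] [TopologicalSpace X] (f : Ω' → α)
    {P : X → Ω' → ℝ} (hP : Continuous P) : Continuous (fun x => ent (P x) f) := by
  have h1 : ∀ p : Ω' → ℝ, ent p f = ∑ a ∈ univ.image f, Real.negMulLog (pr p f a) := by
    intro p
    unfold ent
    rw [← sum_neg_distrib]
    have h2 : ∀ a ∈ univ.image f, Real.negMulLog (pr p f a) =
        ∑ ω, if f ω = a then -(p ω * Real.log (pr p f (f ω))) else 0 := by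
      intro a _
      unfold Real.negMulLog
      rw [neg_mul, ← mul_neg]
      have hdef : pr p f a = ∑ ω, if f ω = a then p ω else 0 := rfl
      conv_lhs => enter [1]; rw [hdef]
      rw [sum_mul]
      refine sum_congr rfl fun ω _ => ?_
      split_ifs with h
      · rw [h]
        ring
      · rw [zero_mul]
    rw [sum_congr rfl h2, sum_comm]
    refine sum_congr rfl fun ω _ => ?_
    rw [sum_ite_eq, if_pos (mem_image_of_mem _ (mem_univ _))]
  simp_rw [h1]
  refine continuous_finsetSum _ fun a _ => Real.continuous_negMulLog.comp ?_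
  unfold pr
  refine continuous_finsetSum _ fun ω _ => ?_
  split_ifs
  · exact (continuous_apply ω).comp hP
  · exact continuous_const

lemma continuous_prodw {Ω₁ Ω₂ X : Type*} [TopologicalSpace X] {P : X → Ω₁ → ℝ} {Q : X → Ω₂ → ℝ}
    (hP : Continuous P) (hQ : Continuous Q) : Continuous (fun x => prod (P x) (Q x)) := by
  refine continuous_pi fun a => ?_
  unfold prod
  exact ((continuous_apply _).comp hP).mul ((continuous_apply _).comp hQ)

lemma exists_min_Phi [Nonempty Ω] (x : Ω → G) (u : Ω → ℝ) (η : ℝ) :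
    ∃ p q : Ω → ℝ, IsProb p ∧ IsProb q ∧
      ∀ p' q' : Ω → ℝ, IsProb p' → IsProb q' → Phi x u η p q ≤ Phi x u η p' q' := by
  have hcomp : IsCompact ((stdSimplex ℝ Ω) ×ˢ (stdSimplex ℝ Ω)) :=
    (isCompact_stdSimplex ℝ Ω).prod (isCompact_stdSimplex ℝ Ω)
  obtain ⟨ω₀⟩ := ‹Nonempty Ω›
  have hne : ((stdSimplex ℝ Ω) ×ˢ (stdSimplex ℝ Ω)).Nonempty := by
    have : (stdSimplex ℝ Ω).Nonempty := ⟨Pi.single ω₀ 1, single_mem_stdSimplex ℝ ω₀⟩
    exact this.prod this
  have hcont : ContinuousOn (fun y : (Ω → ℝ) × (Ω → ℝ) => Phi x u η y.1 y.2)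
      ((stdSimplex ℝ Ω) ×ˢ (stdSimplex ℝ Ω)) := by
    refine Continuous.continuousOn ?_
    unfold Phi Hs
    have c1 := continuous_ent (fun ω : Ω × Ω => x ω.1 + x ω.2)
      (continuous_prodw (continuous_fst (X := Ω → ℝ) (Y := Ω → ℝ)) continuous_snd)
    have c2 := continuous_ent (X := (Ω → ℝ) × (Ω → ℝ)) (fun ω : Ω × Ω => x ω.1 + x ω.2)
      (continuous_prodw (continuous_const (y := u)) continuous_fst)
    have c3 := continuous_ent (X := (Ω → ℝ) × (Ω → ℝ)) (fun ω : Ω × Ω => x ω.1 + x ω.2)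
      (continuous_prodw (continuous_const (y := u)) continuous_snd)
    have c4 := continuous_ent x (continuous_fst (X := Ω → ℝ) (Y := Ω → ℝ))
    have c5 := continuous_ent x (continuous_snd (X := Ω → ℝ) (Y := Ω → ℝ))
    exact (c1.sub ((c4.add c5).div_const _)).add (continuous_const.mul
      (((c2.add c3).sub continuous_const).sub ((c4.add c5).div_const _)))
  obtain ⟨y, hy, hmin⟩ := hcomp.exists_isMinOn hne hcont
  refine ⟨y.1, y.2, ⟨hy.1.1, hy.1.2⟩, ⟨hy.2.1, hy.2.2⟩, fun μ' ν' h1 h2 => ?_⟩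
  exact hmin (a := (μ', ν')) ⟨⟨h1.nonneg, h1.sum_one⟩, ⟨h2.nonneg, h2.sum_one⟩⟩

/-- Fibring for an exact minimizer. -/
lemma fibring {V : Type*} [AddCommGroup V] {x : Ω → G} {u : Ω → ℝ} {η : ℝ} (hη : 0 ≤ η)
    (hu : IsProb u) {p q : Ω → ℝ} (hp : IsProb p) (hq : IsProb q)
    (hmin : ∀ p' q' : Ω → ℝ, IsProb p' → IsProb q' → Phi x u η p q ≤ Phi x u η p' q')
    (f g : Ω → V)
    (hfg : ∀ ω ω' υ υ', p ω ≠ 0 → p ω' ≠ 0 → q υ ≠ 0 → q υ' ≠ 0 →
      x ω + x υ = x ω' + x υ' → f ω + g υ = f ω' + g υ') :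
    Hs p q f g ≤ (1 / 2 + η / 4) * (ent p f + ent q g) := by
  have hP := isProb_prod hp hq
  -- submodularity
  have h1 := submod_supp hP (fun ω => x ω.1 + x ω.2) (fun ω => (f ω.1, g ω.2))
    (fun ω => f ω.1 + g ω.2) (fun ω => (x ω.1 + x ω.2, (f ω.1, g ω.2)))
    (fun ω ω' h h' he => hfg _ _ _ _ (ne_fst h) (ne_fst h') (ne_snd h) (ne_snd h') he) (by
      intro ω ω' _ _ h
      simp only [Prod.mk.injEq] at h
      rw [h.1, h.2]) (by
      intro ω ω' _ _ h h'
      rw [h, h'])
  -- chain rules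
  have h2 := ent_chain hP (fun ω => x ω.1 + x ω.2) (fun ω => (f ω.1, g ω.2))
  have h3 := ent_chain hp x f
  have h4 := ent_chain hq x g
  have h5 := ent_chain (isProb_prod hu hp) (fun ω => x ω.1 + x ω.2) (fun ω => f ω.2)
  have h6 := ent_chain (isProb_prod hu hq) (fun ω => x ω.1 + x ω.2) (fun ω => g ω.2)
  -- rewriting the conditional entropies
  have e2 : ∑ ω, prod p q ω * ent (cw (prod p q) (fun ω => (f ω.1, g ω.2)) (f ω.1, g ω.2))
      (fun ω => x ω.1 + x ω.2) =
      ∑ ω, ∑ ω', p ω * q ω' * Hs (cw p f (f ω)) (cw q g (g ω')) x x := by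
    rw [Fintype.sum_prod_type]
    refine sum_congr rfl fun ω _ => sum_congr rfl fun ω' _ => ?_
    simp only
    rw [cw_prod]
    rfl
  have e5 : ∑ ω, prod u p ω * ent (cw (prod u p) (fun ω => f ω.2) (f ω.2))
      (fun ω => x ω.1 + x ω.2) = ∑ ω, p ω * Hs u (cw p f (f ω)) x x := by
    rw [Fintype.sum_prod_type, sum_comm]
    refine sum_congr rfl fun ω _ => ?_
    simp only
    rw [cw_prod_snd hu p f (f ω)]
    have e : ∀ i, prod u p (i, ω) = u i * p ω := fun i => rfl
    simp_rw [e]
    rw [← sum_mul, ← sum_mul, hu.sum_one, one_mul]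
    rfl
  have e6 : ∑ ω, prod u q ω * ent (cw (prod u q) (fun ω => g ω.2) (g ω.2))
      (fun ω => x ω.1 + x ω.2) = ∑ ω, q ω * Hs u (cw q g (g ω)) x x := by
    rw [Fintype.sum_prod_type, sum_comm]
    refine sum_congr rfl fun ω _ => ?_
    simp only
    rw [cw_prod_snd hu q g (g ω)]
    have e : ∀ i, prod u q (i, ω) = u i * q ω := fun i => rfl
    simp_rw [e]
    rw [← sum_mul, ← sum_mul, hu.sum_one, one_mul]
    rfl
  rw [e2] at h2
  rw [e5] at h5
  rw [e6] at h6
  -- minimality
  have hm : Phi x u η p q ≤ ∑ ω, ∑ ω', p ω * q ω' *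
      Phi x u η (cw p f (f ω)) (cw q g (g ω')) := by
    calc Phi x u η p q = ∑ ω, ∑ ω', p ω * q ω' * Phi x u η p q := by
          simp_rw [← sum_mul, ← mul_sum, hq.sum_one, mul_one, hp.sum_one, one_mul]
      _ ≤ _ := by
          refine sum_le_sum fun ω _ => sum_le_sum fun ω' _ => ?_
          by_cases hω : p ω = 0
          · simp [hω]
          by_cases hω' : q ω' = 0
          · simp [hω']
          refine mul_le_mul_of_nonneg_left ?_ (mul_nonneg (hp.nonneg _) (hq.nonneg _))
          exact hmin _ _ (isProb_cw hp (pr_pos hp f hω).ne') (isProb_cw hq (pr_pos hq g hω').ne')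
  have s1 : ∀ F : Ω → ℝ, ∑ ω, ∑ ω', p ω * q ω' * F ω = ∑ ω, p ω * F ω := by
    intro F
    refine sum_congr rfl fun ω _ => ?_
    rw [← sum_mul, ← mul_sum, hq.sum_one, mul_one]
  have s2 : ∀ F : Ω → ℝ, ∑ ω, ∑ ω', p ω * q ω' * F ω' = ∑ ω', q ω' * F ω' := by
    intro F
    rw [sum_comm]
    refine sum_congr rfl fun ω' _ => ?_
    rw [← sum_mul, ← sum_mul, hp.sum_one, one_mul]
  have s3 : ∀ c : ℝ, ∑ ω, ∑ ω', p ω * q ω' * c = c := by
    intro c
    simp_rw [← sum_mul, ← mul_sum, hq.sum_one, mul_one, hp.sum_one, one_mul]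
  have e7 : ∑ ω, ∑ ω', p ω * q ω' * Phi x u η (cw p f (f ω)) (cw q g (g ω')) =
      (∑ ω, ∑ ω', p ω * q ω' * Hs (cw p f (f ω)) (cw q g (g ω')) x x) -
      ((∑ ω, ∑ ω', p ω * q ω' * ent (cw p f (f ω)) x) +
        (∑ ω, ∑ ω', p ω * q ω' * ent (cw q g (g ω')) x)) / 2 +
      η / 2 * ((∑ ω, ∑ ω', p ω * q ω' * Hs u (cw p f (f ω)) x x) +
      (∑ ω, ∑ ω', p ω * q ω' * Hs u (cw q g (g ω')) x x) -
      (∑ ω, ∑ ω', p ω * q ω' * ent u x) -
      ((∑ ω, ∑ ω', p ω * q ω' * ent (cw p f (f ω)) x) +
        (∑ ω, ∑ ω', p ω * q ω' * ent (cw q g (g ω')) x)) / 2) := by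
    simp only [← sum_add_distrib, ← sum_sub_distrib, sum_div, mul_sum]
    refine sum_congr rfl fun ω _ => sum_congr rfl fun ω' _ => ?_
    unfold Phi
    ring
  rw [e7, s1 (fun ω => ent (cw p f (f ω)) x), s2 (fun ω' => ent (cw q g (g ω')) x),
    s1 (fun ω => Hs u (cw p f (f ω)) x x), s2 (fun ω' => Hs u (cw q g (g ω')) x x), s3, ← h2, ← h3,
    ← h4, ← h5, ← h6] at hm
  have m1 := ent_le_pair hp x f
  have m2 := ent_le_pair hq x g
  have m3 := ent_pair_le (isProb_prod hu hp) (fun ω => x ω.1 + x ω.2) (fun ω => f ω.2)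
  have m4 := ent_pair_le (isProb_prod hu hq) (fun ω => x ω.1 + x ω.2) (fun ω => g ω.2)
  have m5 : Phi x u η p q = Hs p q x x - (ent p x + ent q x) / 2 +
    η / 2 * (Hs u p x x + Hs u q x x - ent u x - (ent p x + ent q x) / 2) := rfl
  have e8 : ∀ (p q : Ω → ℝ), ent (prod p q) (fun ω => x ω.1 + x ω.2) = Hs p q x x :=
    fun _ _ => rfl
  have e9 : ent (prod p q) (fun ω => f ω.1 + g ω.2) = Hs p q f g := rfl
  rw [m5] at hm
  simp only [e8] at hm h1 m3 m4
  rw [e9] at h1
  have n3 : ent (prod u p) (fun ω => (x ω.1 + x ω.2, f ω.2)) - ent (prod u p) (fun ω => f ω.2) ≤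
      Hs u p x x := by linarith
  have n4 : ent (prod u q) (fun ω => (x ω.1 + x ω.2, g ω.2)) - ent (prod u q) (fun ω => g ω.2) ≤
      Hs u q x x := by linarith
  have k1 := mul_le_mul_of_nonneg_left (add_le_add n3 n4) (by linarith : 0 ≤ η / 2)
  have k2 : 0 ≤ (1 / 2 + η / 4) * ((ent p (fun ω => (x ω, f ω)) - ent p x) +
      (ent q (fun ω => (x ω, g ω)) - ent q x)) := by
    apply mul_nonneg (by linarith)
    linarith
  linarith

end functional

end

end Pool.Agent.Lib.MP_dd2a7c_co
end

section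

/-!
The iteration over quotients of a finite group of exponent two.
-/

namespace Pool.Agent.Lib.MP_dd2a7c_co

open Finset
open scoped Classical

noncomputable section

section basic

variable {Ω Ω' α : Type*} [Fintype Ω] [Fintype Ω'] {p : Ω → ℝ} {q : Ω' → ℝ}
variable {G : Type*} [AddCommGroup G]

lemma Hs_comm (p : Ω → ℝ) (q : Ω' → ℝ) (a : Ω → G) (b : Ω' → G) :
    Hs p q a b = Hs q p b a := by
  unfold Hs
  refine ent_of_equiv (Equiv.prodComm Ω Ω') (fun ω => ?_) _ _ (fun ω => ?_)
  · unfold prod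
    simp only [Equiv.prodComm_apply, Prod.fst_swap, Prod.snd_swap]
    ring
  · simp only [Equiv.prodComm_apply, Prod.fst_swap, Prod.snd_swap]
    rw [add_comm]

lemma eq_of_ent_eq_zero (hp : IsProb p) (f : Ω → α) (h : ent p f = 0) {ω ω' : Ω}
    (hω : p ω ≠ 0) (hω' : p ω' ≠ 0) : f ω = f ω' := by
  by_contra hne
  have hpos : ∀ ω, 0 ≤ -(p ω * Real.log (pr p f (f ω))) := by
    intro ω
    rw [neg_nonneg]
    exact mul_nonpos_of_nonneg_of_nonpos (hp.nonneg ω)
      (Real.log_nonpos (pr_nonneg hp f _) (pr_le_one hp f _))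
  have h1 : ent p f = ∑ ω, -(p ω * Real.log (pr p f (f ω))) := by
    unfold ent
    rw [sum_neg_distrib]
  rw [h1, sum_eq_zero_iff_of_nonneg fun ω _ => hpos ω] at h
  have h2 := h ω (mem_univ ω)
  have h3 : Real.log (pr p f (f ω)) = 0 := by
    rcases mul_eq_zero.1 (neg_eq_zero.1 h2) with h4 | h4
    · exact absurd h4 hω
    · exact h4
  have h4 := pr_pos hp f hω
  have h5 : pr p f (f ω) = 1 := Real.eq_one_of_pos_of_log_eq_zero h4 h3
  have h6 : pr p f (f ω) + p ω' ≤ 1 := by
    rw [← hp.sum_one]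
    have h7 : p ω' = ∑ υ, if υ = ω' then p υ else 0 := by simp
    conv_lhs => rw [h7]
    unfold pr
    rw [← sum_add_distrib]
    refine sum_le_sum fun υ _ => ?_
    by_cases h8 : υ = ω'
    · subst h8
      rw [if_neg (Ne.symm hne), if_pos rfl, zero_add]
    · rw [if_neg h8, add_zero]
      split_ifs
      · exact le_rfl
      · exact hp.nonneg _
  have h7 : 0 < p ω' := lt_of_le_of_ne (hp.nonneg _) (Ne.symm hω')
  linarith

end basic

section quot

variable {F : Type*} [AddCommGroup F] [Fintype F]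

lemma Hd_unif (H : AddSubgroup F) (x : F) : IsProb (unif H x) ∧
    Hd (unif H x) = Real.log (Nat.card H) := by
  have hne : (univ.filter fun g => g - x ∈ H).Nonempty := ⟨x, by simp [H.zero_mem]⟩
  have hcard : (univ.filter fun g => g - x ∈ H).card = Nat.card H := by
    rw [Nat.card_eq_fintype_card, Fintype.card_subtype]
    refine card_bij (fun g _ => g - x) ?_ ?_ ?_
    · intro g hg
      simpa using hg
    · intro a _ b _ h
      exact sub_left_injective h
    · intro b hb
      refine ⟨b + x, ?_, by abel⟩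
      simpa using hb
  have e : unif H x = uA (univ.filter fun g => g - x ∈ H) := by
    funext g
    unfold unif uA
    rw [hcard]
    simp
  rw [e]
  exact ⟨isProb_uA hne, by rw [Hd_uA hne, hcard]⟩

lemma DD_two [Module (ZMod 2) F] (μ ν : F → ℝ) :
    DD (ZMod 2) μ ν = Hs μ ν id id - (Hd μ + Hd ν) / 2 := by
  unfold DD
  congr 1
  have h1 : ∀ u : (ZMod 2)ˣ, Hd (conv μ (sm (u : ZMod 2) ν)) = Hs μ ν id id := by
    intro u
    have : u = 1 := by
      revert u
      decide
    rw [this, Units.val_one, sm_one, Hd_conv]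
    rfl
  rw [show (fun u : (ZMod 2)ˣ => Hd (conv μ (sm (u : ZMod 2) ν))) = fun _ => Hs μ ν id id from
    funext h1, av_const]

/-- One step of the iteration, in a group of exponent two. -/
lemma exists_sub_step {Ω : Type*} [Fintype Ω] {p q : Ω → ℝ} (hp : IsProb p) (hq : IsProb q)
    (h2 : ∀ z : F, 2 • z = 0) (f g : Ω → F) {η : ℝ} (hη : η = 1 / (6 * 4 ^ 11))
    (hfib : Hs p q f g ≤ (1 / 2 + η / 4) * (ent p f + ent q g)) :
    ∃ W : AddSubgroup F,
      ent p (fun ω => (QuotientAddGroup.mk (f ω) : F ⧸ W)) ≤ (ent p f + ent q g) / 6 ∧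
      Real.log (Nat.card W) ≤ 2 * (ent p f + ent q g) := by
  set h := ent p f + ent q g with hh
  have hf0 := ent_nonneg hp f
  have hg0 := ent_nonneg hq g
  have hη0 : 0 < η := by rw [hη]; positivity
  let _ : Module (ZMod 2) F := AddCommGroup.zmodModule h2
  set μ := law p f with hμdef
  have hμ : IsProb μ := isProb_law hp f
  have hHμ : Hd μ = ent p f := Hd_law p f
  -- the self-distance
  have hself : DD (ZMod 2) μ μ ≤ η / 2 * h := by
    rw [DD_two, hHμ]
    have e1 : Hs μ μ id id = ent (prod p p) (fun ω => f ω.1 - f ω.2) := by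
      have : Hs μ μ id id = ent (law (prod p p) (fun ω => (f ω.1, f ω.2)))
          (fun z : F × F => z.1 + z.2) := by
        rw [law_prod]
        rfl
      rw [this, ent_law]
      refine ent_congr _ _ fun ω ω' _ _ => ?_
      have hneg : ∀ z : F, -z = z := by
        intro z
        have := h2 z
        rw [two_nsmul] at this
        exact neg_eq_of_add_eq_zero_left this
      simp only [Function.comp, sub_eq_add_neg, hneg]
    have e2 := ruzsa_diff hq hp g f
    rw [Hs_comm q p g f] at e2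
    rw [e1]
    have e3 : 2 * Hs p q f g ≤ (1 + η / 2) * h := by linarith
    linarith
  obtain ⟨H', x, hH'⟩ := entropic_main (R := ZMod 2) (sumUnits_zmod 2) hμ
  obtain ⟨hυ, hHυ⟩ := Hd_unif H' x
  set υ := unif H' x with hυdef
  have hD : Hs μ υ id id - (Hd μ + Hd υ) / 2 ≤ h / 12 := by
    rw [← DD_two]
    refine hH'.trans ?_
    calc (4 : ℝ) ^ 11 * DD (ZMod 2) μ μ ≤ 4 ^ 11 * (η / 2 * h) :=
          mul_le_mul_of_nonneg_left hself (by positivity)
      _ = h / 12 := by
          rw [hη]
          ring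
  refine ⟨H', ?_, ?_⟩
  · -- contraction to the quotient by H'
    have c := contraction hμ hυ id id (QuotientAddGroup.mk' H')
    have c0 : ent υ (fun ω => QuotientAddGroup.mk' H' (id ω)) = 0 := by
      have : ent υ (fun ω => QuotientAddGroup.mk' H' (id ω)) = ent υ (fun _ => ()) := by
        refine ent_congr _ _ fun ω ω' h1 h1' => ?_
        simp only [iff_true]
        have m1 : ∀ z : F, υ z ≠ 0 → z - x ∈ H' := by
          intro z hz
          by_contra hc
          apply hz
          rw [hυdef]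
          unfold unif
          rw [if_neg hc]
        have : -ω + ω' ∈ H' := by
          have := H'.sub_mem (m1 ω' h1') (m1 ω h1)
          have e : ω' - x - (ω - x) = -ω + ω' := by abel
          rwa [e] at this
        exact QuotientAddGroup.eq.2 this
      rw [this, ent_const hυ]
    have c1 := ent_le_Hs_left hμ hυ (fun ω => QuotientAddGroup.mk' H' (id ω))
      (fun ω => QuotientAddGroup.mk' H' (id ω))
    have c2 : ent μ (fun ω => QuotientAddGroup.mk' H' (id ω)) =
        ent p (fun ω => (QuotientAddGroup.mk (f ω) : F ⧸ H')) := by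
      rw [hμdef, ent_law]
      rfl
    have c3 : Hd μ = ent μ id := rfl
    have c4 : Hd υ = ent υ id := rfl
    rw [c0, c2] at c
    rw [c2] at c1
    linarith
  · have c1 := ent_le_Hs_right hμ hυ id id
    have c4 : Hd υ = ent υ id := rfl
    rw [← c4, hHυ] at c1
    rw [hHυ] at hD
    linarith

/-- The iteration: an exact subgroup. -/
lemma exists_exact_subgroup {Ω : Type*} [Fintype Ω] {p q : Ω → ℝ} (hp : IsProb p)
    (hq : IsProb q) (h2 : ∀ z : F, 2 • z = 0) (f g : Ω → F) {η : ℝ} (hη : η = 1 / (6 * 4 ^ 11))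
    (hfib : ∀ V : AddSubgroup F, Hs p q (fun ω => (QuotientAddGroup.mk (f ω) : F ⧸ V))
      (fun ω => (QuotientAddGroup.mk (g ω) : F ⧸ V)) ≤ (1 / 2 + η / 4) *
      (ent p (fun ω => (QuotientAddGroup.mk (f ω) : F ⧸ V)) +
        ent q (fun ω => (QuotientAddGroup.mk (g ω) : F ⧸ V)))) :
    ∃ V : AddSubgroup F, (∀ ω ω', p ω ≠ 0 → p ω' ≠ 0 → f ω - f ω' ∈ V) ∧
      (∀ ω ω', q ω ≠ 0 → q ω' ≠ 0 → g ω - g ω' ∈ V) ∧
      Real.log (Nat.card V) ≤ 4 * (ent p f + ent q g) := by
  set h : AddSubgroup F → ℝ := fun V => ent p (fun ω => (QuotientAddGroup.mk (f ω) : F ⧸ V)) +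
    ent q (fun ω => (QuotientAddGroup.mk (g ω) : F ⧸ V)) with hdef
  have h0 : ∀ V, 0 ≤ h V := fun V => add_nonneg (ent_nonneg hp _) (ent_nonneg hq _)
  have hη0 : 0 < η := by rw [hη]; positivity
  have hη1 : η ≤ 2 / 3 := by rw [hη]; norm_num
  -- one step
  have step : ∀ V : AddSubgroup F, ∃ W : AddSubgroup F, h W ≤ h V / 2 ∧
      Real.log (Nat.card W) ≤ Real.log (Nat.card V) + 2 * h V := by
    intro V
    have h2' : ∀ z : F ⧸ V, 2 • z = 0 := by
      intro z
      obtain ⟨y, rfl⟩ := QuotientAddGroup.mk_surjective z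
      have : (2 • (QuotientAddGroup.mk y : F ⧸ V)) = QuotientAddGroup.mk (2 • y) := rfl
      rw [this, h2 y]
      rfl
    obtain ⟨W', hW1, hW2⟩ := exists_sub_step hp hq h2'
      (fun ω => (QuotientAddGroup.mk (f ω) : F ⧸ V))
      (fun ω => (QuotientAddGroup.mk (g ω) : F ⧸ V)) hη (hfib V)
    set W := W'.comap (QuotientAddGroup.mk' V) with hW
    have hmk : ∀ a b : F, (QuotientAddGroup.mk a : F ⧸ W) = QuotientAddGroup.mk b ↔
        (QuotientAddGroup.mk (QuotientAddGroup.mk a : F ⧸ V) : (F ⧸ V) ⧸ W') =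
          QuotientAddGroup.mk (QuotientAddGroup.mk b : F ⧸ V) := by
      intro a b
      rw [QuotientAddGroup.eq, QuotientAddGroup.eq]
      rfl
    have e1 : ent p (fun ω => (QuotientAddGroup.mk (f ω) : F ⧸ W)) =
        ent p (fun ω => (QuotientAddGroup.mk (QuotientAddGroup.mk (f ω) : F ⧸ V) :
          (F ⧸ V) ⧸ W')) := ent_congr _ _ fun ω ω' _ _ => hmk _ _
    rw [← e1] at hW1
    refine ⟨W, ?_, ?_⟩
    · -- the other variable
      have f1 := hfib W
      have f2 := ent_le_Hs_right hp hq (fun ω => (QuotientAddGroup.mk (f ω) : F ⧸ W))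
        (fun ω => (QuotientAddGroup.mk (g ω) : F ⧸ W))
      have f3 := ent_nonneg hp (fun ω => (QuotientAddGroup.mk (f ω) : F ⧸ W))
      have f4 := ent_nonneg hq (fun ω => (QuotientAddGroup.mk (g ω) : F ⧸ W))
      have f5 : ent q (fun ω => (QuotientAddGroup.mk (g ω) : F ⧸ W)) ≤
          2 * ent p (fun ω => (QuotientAddGroup.mk (f ω) : F ⧸ W)) := by
        have := mul_le_mul_of_nonneg_right hη1 f3
        have := mul_le_mul_of_nonneg_right hη1 f4
        nlinarith
      simp only [hdef] at hW1 ⊢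
      linarith
    · -- cardinalities
      have c1 := AddSubgroup.card_mul_index W
      have c2 := AddSubgroup.card_mul_index V
      have c3 := AddSubgroup.card_mul_index W'
      have c4 : W.index = W'.index :=
        AddSubgroup.index_comap_of_surjective W' (QuotientAddGroup.mk'_surjective V)
      have c5 : Nat.card (F ⧸ V) = V.index := rfl
      have c6 : Nat.card W = Nat.card V * Nat.card W' := by
        have hpos : 0 < W.index := by
          rw [c4]
          exact Nat.pos_of_ne_zero W'.index_ne_zero_of_finite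
        apply Nat.eq_of_mul_eq_mul_right hpos
        rw [c1, c4, mul_assoc, c3, c5, c2]
      have p1 : (0 : ℝ) < Nat.card V := by exact_mod_cast Nat.card_pos
      have p2 : (0 : ℝ) < Nat.card W' := by exact_mod_cast Nat.card_pos
      rw [c6, Nat.cast_mul, Real.log_mul p1.ne' p2.ne']
      linarith
  -- choose a good subgroup with minimal h
  have hb0 : h ⊥ = ent p f + ent q g := by
    simp only [hdef]
    congr 1
    · refine ent_congr _ _ fun ω ω' _ _ => ?_
      rw [QuotientAddGroup.eq, AddSubgroup.mem_bot, neg_add_eq_zero]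
    · refine ent_congr _ _ fun ω ω' _ _ => ?_
      rw [QuotientAddGroup.eq, AddSubgroup.mem_bot, neg_add_eq_zero]
  obtain ⟨V, hV, hVmin⟩ := Set.exists_min_image
    {V : AddSubgroup F | Real.log (Nat.card V) + 4 * h V ≤ 4 * (ent p f + ent q g)} h
    (Set.toFinite _) ⟨⊥, by
      simp only [Set.mem_setOf_eq]
      rw [hb0]
      simp⟩
  obtain ⟨W, hW1, hW2⟩ := step V
  have hWm : W ∈ {V : AddSubgroup F | Real.log (Nat.card V) + 4 * h V ≤
      4 * (ent p f + ent q g)} := by
    simp only [Set.mem_setOf_eq] at hV ⊢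
    linarith
  have hle := hVmin W hWm
  have hV0 : h V = 0 := by
    have := h0 V
    linarith
  have hp0 := ent_nonneg hp (fun ω => (QuotientAddGroup.mk (f ω) : F ⧸ V))
  have hq0 := ent_nonneg hq (fun ω => (QuotientAddGroup.mk (g ω) : F ⧸ V))
  have hVe : ent p (fun ω => (QuotientAddGroup.mk (f ω) : F ⧸ V)) +
    ent q (fun ω => (QuotientAddGroup.mk (g ω) : F ⧸ V)) = 0 := hV0
  refine ⟨V, fun ω ω' hω hω' => ?_, fun ω ω' hω hω' => ?_, ?_⟩
  · have := eq_of_ent_eq_zero hp (fun ω => (QuotientAddGroup.mk (f ω) : F ⧸ V)) (by linarith)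
      hω' hω
    have h3 := QuotientAddGroup.eq.1 this
    rwa [neg_add_eq_sub] at h3
  · have := eq_of_ent_eq_zero hq (fun ω => (QuotientAddGroup.mk (g ω) : F ⧸ V)) (by linarith)
      hω' hω
    have h3 := QuotientAddGroup.eq.1 this
    rwa [neg_add_eq_sub] at h3
  · simp only [Set.mem_setOf_eq] at hV
    linarith

end quot

end

end Pool.Agent.Lib.MP_dd2a7c_co
end
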