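import Pool.Agent.Lib.MP_dd2a7c_co.WpPfr

section

/-!
Choice of a good fibre of the quotient by a subgroup.
-/

namespace Pool.Agent.Lib.MP_dd2a7c_co

open Finset
open scoped Classical

noncomputable section

universe u

variable {G : Type u} [AddCommGroup G] {Ω Ω' : Type*} [Fintype Ω] [Fintype Ω']
  {p : Ω → ℝ} {q r : Ω' → ℝ}

/-- Some fibre of `y` is as close to `x` as the average.
Notation: `π` the class modulo `H`, `r = cw q (π ∘ y) (π (y υ))`, and
`Θ(υ) = Hs p r x y - (ent p x + entq H p x + ent r y) / 2`.  Proof: averaging over `υ` with weights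
`q` (`ent_chain` for `(y, π y)` on `q` and for `(x + y, π y)` on `prod p q`, with `cw_prod_snd`, as
in the proof of `fibring`):
`∑ υ, q υ * Θ(υ) = H(x + y, π y) - H(π y) - (H(x) + H(π x) + H(y) - H(π y)) / 2`, and
`H(x + y, π y) + H(π x + π y) ≤ H(x + y) + H(π x) + H(π y)` by `submod'` with `f = x + y`,
`g = (π x, π y)`, `h = π x + π y`, `j = (x + y, π y)`. -/
lemma exists_good_fibre (hp : IsProb p) (hq : IsProb q) (x : Ω → G) (y : Ω' → G)
    (H : AddSubgroup G) :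
    ∃ υ : Ω', q υ ≠ 0 ∧
      Hs p (cw q (fun υ => (QuotientAddGroup.mk (y υ) : G ⧸ H)) (QuotientAddGroup.mk (y υ))) x y -
        (ent p x + entq H p x +
          ent (cw q (fun υ => (QuotientAddGroup.mk (y υ) : G ⧸ H)) (QuotientAddGroup.mk (y υ))) y) /
          2 ≤ rd p q x y - rdq H p q x y := by
  have hP := isProb_prod hp hq
  -- submodularity
  have h1 := submod' hP (fun ω => x ω.1 + y ω.2)
    (fun ω => ((QuotientAddGroup.mk (x ω.1) : G ⧸ H), (QuotientAddGroup.mk (y ω.2) : G ⧸ H)))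
    (fun ω => (QuotientAddGroup.mk (x ω.1) : G ⧸ H) + (QuotientAddGroup.mk (y ω.2) : G ⧸ H))
    (fun ω => (x ω.1 + y ω.2, (QuotientAddGroup.mk (y ω.2) : G ⧸ H))) (by
      intro ω ω' h
      rw [← QuotientAddGroup.mk_add, ← QuotientAddGroup.mk_add, h]) (by
      intro ω ω' h
      simp only [Prod.mk.injEq] at h
      rw [h.1, h.2]) (by
      intro ω ω' _ _ h h'
      simp only [Prod.mk.injEq] at h'
      rw [h, h'.2])
  have h2 := ent_prod hp hq (fun ω => (QuotientAddGroup.mk (x ω) : G ⧸ H))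
    (fun ω => (QuotientAddGroup.mk (y ω) : G ⧸ H))
  -- chain rules
  have h3 := ent_chain hP (fun ω => x ω.1 + y ω.2) (fun ω => (QuotientAddGroup.mk (y ω.2) : G ⧸ H))
  have h4 := ent_chain hq y (fun ω => (QuotientAddGroup.mk (y ω) : G ⧸ H))
  have h5 : ent q (fun ω => (y ω, (QuotientAddGroup.mk (y ω) : G ⧸ H))) = ent q y :=
    ent_congr _ _ fun ω ω' _ _ => by
      constructor
      · intro h
        exact (Prod.ext_iff.1 h).1
      · intro h
        rw [h]
  have h6 := ent_prod_snd hp q (fun ω => (QuotientAddGroup.mk (y ω) : G ⧸ H))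
  have e3 : ∑ ω, prod p q ω * ent (cw (prod p q) (fun ω => (QuotientAddGroup.mk (y ω.2) : G ⧸ H))
      (QuotientAddGroup.mk (y ω.2))) (fun ω => x ω.1 + y ω.2) =
      ∑ υ, q υ * Hs p (cw q (fun υ => (QuotientAddGroup.mk (y υ) : G ⧸ H))
        (QuotientAddGroup.mk (y υ))) x y := by
    rw [Fintype.sum_prod_type, sum_comm]
    refine sum_congr rfl fun υ _ => ?_
    simp only
    rw [cw_prod_snd hp q (fun υ => (QuotientAddGroup.mk (y υ) : G ⧸ H)) (QuotientAddGroup.mk (y υ))]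
    have e : ∀ i, prod p q (i, υ) = p i * q υ := fun i => rfl
    simp_rw [e]
    rw [← sum_mul, ← sum_mul, hp.sum_one, one_mul]
    rfl
  rw [e3] at h3
  by_contra hcon
  push Not at hcon
  set R : ℝ := rd p q x y - rdq H p q x y with hR
  have hex : ∃ υ, q υ ≠ 0 := by
    by_contra h0
    push Not at h0
    have h7 := hq.sum_one
    rw [sum_congr rfl fun υ _ => h0 υ, sum_const_zero] at h7
    exact zero_ne_one h7
  obtain ⟨υ₀, hυ₀⟩ := hex
  have h8 : ∑ υ, q υ * R < ∑ υ, q υ * (Hs p (cw q (fun υ => (QuotientAddGroup.mk (y υ) : G ⧸ H))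
      (QuotientAddGroup.mk (y υ))) x y - (ent p x + entq H p x +
      ent (cw q (fun υ => (QuotientAddGroup.mk (y υ) : G ⧸ H)) (QuotientAddGroup.mk (y υ))) y) / 2) := by
    refine sum_lt_sum (fun υ _ => ?_) ⟨υ₀, mem_univ _, ?_⟩
    · by_cases h0 : q υ = 0
      · rw [h0, zero_mul, zero_mul]
      · exact mul_le_mul_of_nonneg_left (hcon υ h0).le (hq.nonneg υ)
    · exact mul_lt_mul_of_pos_left (hcon υ₀ hυ₀) (lt_of_le_of_ne (hq.nonneg υ₀) hυ₀.symm)
  rw [← sum_mul, hq.sum_one, one_mul] at h8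
  have h9 : ∑ υ, q υ * (Hs p (cw q (fun υ => (QuotientAddGroup.mk (y υ) : G ⧸ H))
      (QuotientAddGroup.mk (y υ))) x y - (ent p x + entq H p x +
      ent (cw q (fun υ => (QuotientAddGroup.mk (y υ) : G ⧸ H)) (QuotientAddGroup.mk (y υ))) y) / 2) =
      (∑ υ, q υ * Hs p (cw q (fun υ => (QuotientAddGroup.mk (y υ) : G ⧸ H))
        (QuotientAddGroup.mk (y υ))) x y) - (ent p x + entq H p x) / 2 -
      (∑ υ, q υ * ent (cw q (fun υ => (QuotientAddGroup.mk (y υ) : G ⧸ H))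
        (QuotientAddGroup.mk (y υ))) y) / 2 := by
    have h10 : (ent p x + entq H p x) / 2 = ∑ υ, q υ * ((ent p x + entq H p x) / 2) := by
      rw [← sum_mul, hq.sum_one, one_mul]
    rw [h10, sum_div, ← sum_sub_distrib, ← sum_sub_distrib]
    refine sum_congr rfl fun υ _ => ?_
    ring
  rw [h9, ← h3, ← h4, h5, h6] at h8
  have h11 : R = Hs p q x y - (ent p x + ent q y) / 2 -
      (Hs p q (fun ω => (QuotientAddGroup.mk (x ω) : G ⧸ H))
        (fun ω => (QuotientAddGroup.mk (y ω) : G ⧸ H)) - (entq H p x + entq H q y) / 2) := rfl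
  have h12 : Hs p q x y = ent (prod p q) (fun ω => x ω.1 + y ω.2) := rfl
  have h13 : Hs p q (fun ω => (QuotientAddGroup.mk (x ω) : G ⧸ H))
        (fun ω => (QuotientAddGroup.mk (y ω) : G ⧸ H)) =
      ent (prod p q) (fun ω => (QuotientAddGroup.mk (x ω.1) : G ⧸ H) +
        (QuotientAddGroup.mk (y ω.2) : G ⧸ H)) := rfl
  have h14 : entq H p x = ent p (fun ω => (QuotientAddGroup.mk (x ω) : G ⧸ H)) := rfl
  have h15 : entq H q y = ent q (fun ω => (QuotientAddGroup.mk (y ω) : G ⧸ H)) := rfl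
  rw [h11, h12, h13, h14, h15] at h8
  linarith

/-- If `y` lives in one class modulo `H` under `r`, then
`H(y - y') ≤ 2 H(x + y) - H(x) - H(x mod H)`.
Proof: `submod_supp` on `prod p (prod r r)` with `f = (x + y₁, x + y₂)`, `g = (y₁, y₂, π x)`,
`h = (y₁ - y₂, π x)`, `j = (x, y₁, y₂)` gives `H(x) + H(y₁ - y₂) ≤ H(x + y₁, x + y₂)`, and
`submod_supp` with `f = x + y₁`, `g = x + y₂`, `h = π x`, `j = (f, g)` gives
`H(x + y₁, x + y₂) ≤ 2 H(x + y) - H(π x)`. -/
lemma diff_le_of_fibre (hp : IsProb p) (hr : IsProb r) (x : Ω → G) (y : Ω' → G)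
    (H : AddSubgroup G) (hy : ∀ υ υ', r υ ≠ 0 → r υ' ≠ 0 → y υ - y υ' ∈ H) :
    hdil r y 1 ≤ 2 * Hs p r x y - ent p x - entq H p x := by
  have hR := isProb_prod hr hr
  have hP := isProb_prod hp hR
  have hcls : ∀ ω ω' : Ω × Ω' × Ω', prod p (prod r r) ω ≠ 0 → prod p (prod r r) ω' ≠ 0 →
      x ω.1 + y ω.2.1 = x ω'.1 + y ω'.2.1 →
      (QuotientAddGroup.mk (x ω.1) : G ⧸ H) = QuotientAddGroup.mk (x ω'.1) := by
    intro ω ω' h h' he
    rw [QuotientAddGroup.eq]
    have h1 := hy ω.2.1 ω'.2.1 (ne_fst (ne_snd h)) (ne_fst (ne_snd h'))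
    have h2 : -x ω.1 + x ω'.1 = y ω.2.1 - y ω'.2.1 := by
      rw [neg_add_eq_sub, sub_eq_sub_iff_add_eq_add, ← he]
      abel
    rw [h2]
    exact h1
  have hcls2 : ∀ ω ω' : Ω × Ω' × Ω', prod p (prod r r) ω ≠ 0 → prod p (prod r r) ω' ≠ 0 →
      x ω.1 + y ω.2.2 = x ω'.1 + y ω'.2.2 →
      (QuotientAddGroup.mk (x ω.1) : G ⧸ H) = QuotientAddGroup.mk (x ω'.1) := by
    intro ω ω' h h' he
    rw [QuotientAddGroup.eq]
    have h1 := hy ω.2.2 ω'.2.2 (ne_snd (ne_snd h)) (ne_snd (ne_snd h'))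
    have h2 : -x ω.1 + x ω'.1 = y ω.2.2 - y ω'.2.2 := by
      rw [neg_add_eq_sub, sub_eq_sub_iff_add_eq_add, ← he]
      abel
    rw [h2]
    exact h1
  have s1 := submod_supp hP (fun ω => (x ω.1 + y ω.2.1, x ω.1 + y ω.2.2))
    (fun ω => ((QuotientAddGroup.mk (x ω.1) : G ⧸ H), (y ω.2.1, y ω.2.2)))
    (fun ω => ((QuotientAddGroup.mk (x ω.1) : G ⧸ H), y ω.2.1 - y ω.2.2))
    (fun ω => (x ω.1, y ω.2.1, y ω.2.2)) (by
      intro ω ω' h h' he
      simp only [Prod.mk.injEq] at he ⊢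
      refine ⟨hcls ω ω' h h' he.1, ?_⟩
      have : ∀ ω : Ω × Ω' × Ω', y ω.2.1 - y ω.2.2 = (x ω.1 + y ω.2.1) - (x ω.1 + y ω.2.2) := by
        intro ω
        abel
      rw [this ω, this ω', he.1, he.2]) (by
      intro ω ω' _ _ he
      simp only [Prod.mk.injEq] at he ⊢
      rw [he.1, he.2.1, he.2.2]
      exact ⟨rfl, rfl⟩) (by
      intro ω ω' _ _ h h'
      simp only [Prod.mk.injEq] at h h' ⊢
      have h3 := h.1
      rw [h'.2.1] at h3
      exact ⟨add_right_cancel h3, h'.2.1, h'.2.2⟩)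
  have s2 := submod_supp hP (fun ω => x ω.1 + y ω.2.1) (fun ω => x ω.1 + y ω.2.2)
    (fun ω => (QuotientAddGroup.mk (x ω.1) : G ⧸ H))
    (fun ω => (x ω.1 + y ω.2.1, x ω.1 + y ω.2.2)) hcls hcls2 (by
      intro ω ω' _ _ h h'
      rw [h, h'])
  have e1 := Hs_three hp hr x y
  have e2 := ent_prod hp hR (fun ω => (QuotientAddGroup.mk (x ω) : G ⧸ H)) (fun ω => (y ω.1, y ω.2))
  have e3 := ent_prod hp hR (fun ω => (QuotientAddGroup.mk (x ω) : G ⧸ H)) (fun ω => y ω.1 - y ω.2)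
  have e4 := ent_prod hr hr y y
  have e5 := ent_three_12 p hr (fun ω => x ω.1 + y ω.2)
  have e6 := ent_three_13 p hr (fun ω => x ω.1 + y ω.2)
  have e7 := ent_prod_fst p hR (fun ω => (QuotientAddGroup.mk (x ω) : G ⧸ H))
  have e8 : hdil r y 1 = ent (prod r r) (fun ω => y ω.1 - y ω.2) := by
    unfold hdil
    simp only [one_smul]
  rw [e8]
  have e9 : Hs p r x y = ent (prod p r) (fun ω => x ω.1 + y ω.2) := rfl
  have e10 : entq H p x = ent p (fun ω => (QuotientAddGroup.mk (x ω) : G ⧸ H)) := rfl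
  rw [e9, e10]
  simp only at e5 e6
  linarith

end

end Pool.Agent.Lib.MP_dd2a7c_co
end

section

/-!
The Freiman-Ruzsa theorem in the fibres of the quotient by a finite subgroup of exponent `m`.
-/

namespace Pool.Agent.Lib.MP_dd2a7c_co

open Finset
open scoped Classical

noncomputable section

universe u

variable {G : Type u} [AddCommGroup G] {Ω Ω' : Type*} [Fintype Ω] [Fintype Ω']
  {p : Ω → ℝ} {q r : Ω' → ℝ}

/-- The Freiman-Ruzsa theorem for a variable living in one class of `H`.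
Proof: `pfr_mod` for `F = ↥H` and `f υ = y υ - y υ₀` (on the support of `r`); map the subgroup of
`↥H` to `G`. -/
lemma pfr_of_fibre {m : ℕ} (hm : 2 ≤ m) (H : AddSubgroup G) (hH : (H : Set G).Finite)
    (hHm : ∀ z ∈ H, m • z = 0) (hr : IsProb r) (y : Ω' → G)
    (hy : ∀ υ υ', r υ ≠ 0 → r υ' ≠ 0 → y υ - y υ' ∈ H) :
    ∃ V : AddSubgroup G, V ≤ H ∧ Real.log (Nat.card V) + 2 * entq V r y ≤
      ent r y + cm m * (hdil r y 1 - ent r y) := by
  have hex : ∃ υ, r υ ≠ 0 := by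
    by_contra hcon
    push Not at hcon
    have h1 := hr.sum_one
    simp [hcon] at h1
  obtain ⟨υ₀, hυ₀⟩ := hex
  have hFin : Finite H := hH.to_subtype
  have hFm : ∀ z : H, m • z = 0 := fun z => Subtype.ext (hHm z z.2)
  let f : Ω' → H := fun υ => if h : y υ - y υ₀ ∈ H then ⟨y υ - y υ₀, h⟩ else 0
  have hf : ∀ υ, r υ ≠ 0 → ((f υ : H) : G) = y υ - y υ₀ := by
    intro υ hυ
    have h1 : y υ - y υ₀ ∈ H := hy υ υ₀ hυ hυ₀
    show ((if h : y υ - y υ₀ ∈ H then (⟨y υ - y υ₀, h⟩ : H) else 0 : H) : G) = _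
    rw [dif_pos h1]
  obtain ⟨W, hW⟩ := pfr_mod hm hFm hr f
  refine ⟨W.map H.subtype, ?_, ?_⟩
  · rintro _ ⟨w, _, rfl⟩
    exact w.2
  have e1 : Nat.card (W.map H.subtype) = Nat.card W :=
    (Nat.card_congr (W.equivMapOfInjective H.subtype H.subtype_injective).toEquiv).symm
  have e2 : entq (W.map H.subtype) r y = entq W r f := by
    unfold entq
    refine ent_congr _ _ fun ω ω' hω hω' => ?_
    rw [QuotientAddGroup.eq, QuotientAddGroup.eq]
    have h1 : -y ω + y ω' = ((-f ω + f ω' : H) : G) := by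
      rw [AddSubgroup.coe_add, AddSubgroup.coe_neg, hf ω hω, hf ω' hω']
      abel
    rw [h1]
    constructor
    · rintro ⟨w, hw, hwe⟩
      have : w = -f ω + f ω' := Subtype.ext hwe
      rwa [← this]
    · intro h
      exact ⟨_, h, rfl⟩
  have e3 : ent r y = ent r f := by
    refine ent_congr _ _ fun ω ω' hω hω' => ?_
    constructor
    · intro h
      apply Subtype.ext
      rw [hf ω hω, hf ω' hω', h]
    · intro h
      have h1 := congrArg (fun z : H => (z : G)) h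
      rw [hf ω hω, hf ω' hω'] at h1
      exact sub_left_injective h1
  have e4 : hdil r y 1 = hdil r f 1 := by
    unfold hdil
    refine ent_congr _ _ fun ω ω' hω hω' => ?_
    have h1 := mul_ne_zero_iff.1 hω
    have h2 := mul_ne_zero_iff.1 hω'
    have h3 : ∀ υ : Ω' × Ω', r υ.1 ≠ 0 → r υ.2 ≠ 0 →
        ((f υ.1 - 1 • f υ.2 : H) : G) = y υ.1 - 1 • y υ.2 := by
      intro υ ha hb
      rw [one_smul, one_smul, AddSubgroup.coe_sub, hf _ ha, hf _ hb]
      abel
    rw [← h3 ω h1.1 h1.2, ← h3 ω' h2.1 h2.2]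
    exact Subtype.ext_iff.symm
  rw [e1, e2, e3, e4]
  exact hW

/-- Proof: take `υ` from `exists_good_fibre`, `r` the conditional weights, `V` from `pfr_of_fibre`.
By `ent_data` (first variable `y` under `r`, second `x` under `p`, `Hs_comm`) and
`ent_le_Hs_left`: `entq V p x ≤ Hs p r x y - ent r y + entq V r y`. With
`Θ = Hs p r x y - (ent p x + entq H p x + ent r y) / 2` and `diff_le_of_fibre`
(`hdil r y 1 - ent r y ≤ 2 Θ`) we get
`log |V| + 2 entq V p x ≤ ent p x + entq H p x + (2 + 2 cm m) Θ`. -/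
theorem fibre_pfr {m : ℕ} (hm : 2 ≤ m) (H : AddSubgroup G) (hH : (H : Set G).Finite)
    (hHm : ∀ z ∈ H, m • z = 0) (hp : IsProb p) (hq : IsProb q) (x : Ω → G) (y : Ω' → G) :
    ∃ V : AddSubgroup G, V ≤ H ∧ Real.log (Nat.card V) + 2 * entq V p x ≤
      ent p x + entq H p x + (2 + 2 * cm m) * (rd p q x y - rdq H p q x y) := by
  obtain ⟨υ, hυ, hΘ⟩ := exists_good_fibre hp hq x y H
  set r := cw q (fun υ => (QuotientAddGroup.mk (y υ) : G ⧸ H)) (QuotientAddGroup.mk (y υ)) with hrdef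
  have hr : IsProb r := isProb_cw hq (pr_pos hq _ hυ).ne'
  have hcls : ∀ υ₁, r υ₁ ≠ 0 → (QuotientAddGroup.mk (y υ₁) : G ⧸ H) = QuotientAddGroup.mk (y υ) := by
    intro υ₁ h1
    by_contra hne
    apply h1
    rw [hrdef]
    unfold cw
    rw [if_neg hne]
  have hy : ∀ υ₁ υ₂, r υ₁ ≠ 0 → r υ₂ ≠ 0 → y υ₁ - y υ₂ ∈ H := by
    intro υ₁ υ₂ h1 h2
    have h3 : (QuotientAddGroup.mk (y υ₂) : G ⧸ H) = QuotientAddGroup.mk (y υ₁) :=
      (hcls υ₂ h2).trans (hcls υ₁ h1).symm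
    rw [QuotientAddGroup.eq] at h3
    rwa [sub_eq_neg_add]
  obtain ⟨V, hVH, hV⟩ := pfr_of_fibre hm H hH hHm hr y hy
  refine ⟨V, hVH, ?_⟩
  have h1 := ent_data hr hp y x (QuotientAddGroup.mk' V)
  have h2 := ent_le_Hs_right hr hp (fun ω => QuotientAddGroup.mk' V (y ω))
    (fun ω => QuotientAddGroup.mk' V (x ω))
  have h3 : Hs r p y x = Hs p r x y := Hs_comm r p y x
  have h4 := diff_le_of_fibre hp hr x y H hy
  have h5 : entq V p x = ent p (fun ω => QuotientAddGroup.mk' V (x ω)) := rfl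
  have h6 : entq V r y = ent r (fun ω => QuotientAddGroup.mk' V (y ω)) := rfl
  have hcm := cm_nonneg m
  rw [h3] at h1
  rw [← h6] at h1
  rw [← h5] at h2
  have h7 : cm m * (hdil r y 1 - ent r y) ≤
      cm m * (2 * (Hs p r x y - (ent p x + entq H p x + ent r y) / 2)) :=
    mul_le_mul_of_nonneg_left (by linarith) hcm
  have h8 : (2 + 2 * cm m) * (Hs p r x y - (ent p x + entq H p x + ent r y) / 2) ≤
      (2 + 2 * cm m) * (rd p q x y - rdq H p q x y) :=
    mul_le_mul_of_nonneg_left hΘ (by linarith)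
  have h9 : (2 + 2 * cm m) * (Hs p r x y - (ent p x + entq H p x + ent r y) / 2) =
      cm m * (2 * (Hs p r x y - (ent p x + entq H p x + ent r y) / 2)) +
      2 * (Hs p r x y - (ent p x + entq H p x + ent r y) / 2) := by ring
  linarith

end

end Pool.Agent.Lib.MP_dd2a7c_co
end
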