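import Pool.Agent.Lib.MP_dd2a7c_co.WeakPFR

section

/-!
Weak Freiman-Ruzsa theorem for groups with smooth torsion: definitions.
-/

namespace Pool.Agent.Lib.MP_dd2a7c_co

open Finset
open scoped Classical

noncomputable section

variable {G : Type*} [AddCommGroup G] {Ω Ω' : Type*} [Fintype Ω] [Fintype Ω']

/-- Entropy of the class of `x` modulo the subgroup `H`. -/
def entq (H : AddSubgroup G) (p : Ω → ℝ) (x : Ω → G) : ℝ :=
  ent p (fun ω => (QuotientAddGroup.mk (x ω) : G ⧸ H))

/-- The Ruzsa distance (with sums) of two independent random variables. -/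
def rd (p : Ω → ℝ) (q : Ω' → ℝ) (x : Ω → G) (y : Ω' → G) : ℝ :=
  Hs p q x y - (ent p x + ent q y) / 2

/-- The Ruzsa distance (with sums) modulo a subgroup. -/
def rdq (H : AddSubgroup G) (p : Ω → ℝ) (q : Ω' → ℝ) (x : Ω → G) (y : Ω' → G) : ℝ :=
  Hs p q (fun ω => (QuotientAddGroup.mk (x ω) : G ⧸ H))
    (fun ω => (QuotientAddGroup.mk (y ω) : G ⧸ H)) - (entq H p x + entq H q y) / 2

/-- The constant of the Freiman-Ruzsa theorem in groups of exponent dividing `m`. -/
def cm (m : ℕ) : ℝ := 10 * 4 ^ 11 * (Nat.size m : ℝ)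

lemma cm_nonneg (m : ℕ) : 0 ≤ cm m := by
  unfold cm
  positivity

lemma cm_mono {m n : ℕ} (h : m ≤ n) : cm m ≤ cm n := by
  unfold cm
  have : (Nat.size m : ℝ) ≤ Nat.size n := by exact_mod_cast Nat.size_le_size h
  nlinarith

/-- No nontrivial finite subgroup is cheap. -/
def Irr (M : ℝ) (p q : Ω → ℝ) (x : Ω → G) : Prop :=
  ∀ H : AddSubgroup G, (H : Set G).Finite → H ≠ ⊥ →
    M * (rd p q x x - rdq H p q x x) < Real.log (Nat.card H) - (ent p x - entq H p x)

/-- The subgroup generated by the differences of the values of `x` under `p` and under `q`. -/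
def diffGrp (p q : Ω → ℝ) (x : Ω → G) : AddSubgroup G :=
  AddSubgroup.closure ({z | ∃ ω ω', p ω ≠ 0 ∧ p ω' ≠ 0 ∧ x ω - x ω' = z} ∪
    {z | ∃ ω ω', q ω ≠ 0 ∧ q ω' ≠ 0 ∧ x ω - x ω' = z})

/-- The conclusion of the fibring lemma. -/
def Fibred.{u} {G : Type u} [AddCommGroup G] (η : ℝ) (p q : Ω → ℝ) (x : Ω → G) : Prop :=
  ∀ (V : Type u) [AddCommGroup V] (f g : Ω → V),
    (∀ ω ω' υ υ', p ω ≠ 0 → p ω' ≠ 0 → q υ ≠ 0 → q υ' ≠ 0 →
      x ω + x υ = x ω' + x υ' → f ω + g υ = f ω' + g υ') →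
    Hs p q f g ≤ (1 / 2 + η / 4) * (ent p f + ent q g)

end

end Pool.Agent.Lib.MP_dd2a7c_co
end

section

/-!
Entropy inequalities: triangle inequality, data processing for sums, entropies modulo subgroups.
-/

namespace Pool.Agent.Lib.MP_dd2a7c_co

open Finset
open scoped Classical

noncomputable section

variable {G G' : Type*} [AddCommGroup G] [AddCommGroup G'] {Ω Ω' : Type*} [Fintype Ω] [Fintype Ω']
  {p : Ω → ℝ} {q : Ω' → ℝ}

/-- Ruzsa triangle inequality; `a` and `c` may be dependent.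
Proof: `submod'` on `prod p q` with `f = (a - b, b - c)`, `g = (a, c)`, `h = a - c`, `j = (a, c, b)`. -/
lemma ent_triangle (hp : IsProb p) (hq : IsProb q) (a c : Ω → G) (b : Ω' → G) :
    ent p (fun ω => a ω - c ω) + ent q b ≤
      ent (prod p q) (fun ω => a ω.1 - b ω.2) + ent (prod p q) (fun ω => b ω.2 - c ω.1) := by
  have hP := isProb_prod hp hq
  have h1 := submod' hP (fun ω => (a ω.1 - b ω.2, b ω.2 - c ω.1))
    (fun ω => (a ω.1, c ω.1)) (fun ω => a ω.1 - c ω.1)
    (fun ω => ((a ω.1, c ω.1), b ω.2)) (by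
      intro ω ω' h
      simp only [Prod.mk.injEq] at h
      have : a ω.1 - c ω.1 = (a ω.1 - b ω.2) + (b ω.2 - c ω.1) := by abel
      rw [this, h.1, h.2]
      abel) (by
      intro ω ω' h
      simp only [Prod.mk.injEq] at h
      rw [h.1, h.2]) (by
      intro ω ω' _ _ h h'
      simp only [Prod.mk.injEq] at h h'
      have h3 := h.1
      rw [h'.1] at h3
      rw [h'.1, h'.2, sub_right_injective h3])
  have h2 := ent_pair_le hP (fun ω => a ω.1 - b ω.2) (fun ω => b ω.2 - c ω.1)
  have h3 := ent_prod hp hq (fun ω => (a ω, c ω)) b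
  have h4 := ent_prod_fst p hq (fun ω => (a ω, c ω))
  have h5 := ent_prod_fst p hq (fun ω => a ω - c ω)
  linarith

/-- Data processing: `H(φ(U + V)) - H(φ(U)) ≤ H(U + V) - H(U)` for independent `U`, `V`.
Proof: with `S = U + V`, two applications of `submod'`:
`H(S, V) + H(φ S) ≤ H(S) + H(φ S, V)` and `H(φ S, V) + H(φ V) ≤ H(V) + H(φ S, φ V)`;
moreover `H(S, V) = H(U) + H(V)` and `H(φ S, φ V) = H(φ U) + H(φ V)`. -/
lemma ent_data (hp : IsProb p) (hq : IsProb q) (a : Ω → G) (b : Ω' → G) (φ : G →+ G') :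
    Hs p q (fun ω => φ (a ω)) (fun ω => φ (b ω)) - ent p (fun ω => φ (a ω)) ≤
      Hs p q a b - ent p a := by
  have hP := isProb_prod hp hq
  have h1 := submod' hP (fun ω => a ω.1 + b ω.2) (fun ω => (φ (a ω.1) + φ (b ω.2), b ω.2))
    (fun ω => φ (a ω.1) + φ (b ω.2)) (fun ω => (a ω.1, b ω.2)) (by
      intro ω ω' h
      rw [← map_add, ← map_add, h]) (by
      intro ω ω' h
      simp only [Prod.mk.injEq] at h
      exact h.1) (by
      intro ω ω' _ _ h h'
      simp only [Prod.mk.injEq] at h h'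
      rw [h'.2] at h
      rw [h'.2, add_right_cancel h])
  have h2 := submod' hP (fun ω => b ω.2) (fun ω => (φ (a ω.1), φ (b ω.2)))
    (fun ω => φ (b ω.2)) (fun ω => (φ (a ω.1) + φ (b ω.2), b ω.2)) (by
      intro ω ω' h
      rw [h]) (by
      intro ω ω' h
      simp only [Prod.mk.injEq] at h
      exact h.2) (by
      intro ω ω' _ _ h h'
      simp only [Prod.mk.injEq] at h h'
      rw [h'.1, h'.2, h])
  have e1 := ent_prod hp hq a b
  have e2 := ent_prod hp hq (fun ω => φ (a ω)) (fun ω => φ (b ω))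
  have e3 := ent_prod_snd hp q b
  have e4 := ent_prod_snd hp q (fun ω => φ (b ω))
  unfold Hs
  linarith

lemma entq_nonneg (hp : IsProb p) (x : Ω → G) (V : AddSubgroup G) : 0 ≤ entq V p x :=
  ent_nonneg hp _

lemma entq_le (hp : IsProb p) (x : Ω → G) (V : AddSubgroup G) : entq V p x ≤ ent p x :=
  ent_mono hp _ _ fun ω ω' _ _ h => by rw [h]

lemma entq_anti (hp : IsProb p) (x : Ω → G) {V W : AddSubgroup G} (h : V ≤ W) :
    entq W p x ≤ entq V p x := by
  refine ent_mono hp _ _ fun ω ω' _ _ e => ?_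
  rw [QuotientAddGroup.eq] at e ⊢
  exact h e

lemma entq_bot (x : Ω → G) : entq (⊥ : AddSubgroup G) p x = ent p x := by
  refine ent_congr _ _ fun ω ω' _ _ => ?_
  rw [QuotientAddGroup.eq, AddSubgroup.mem_bot, neg_add_eq_zero]

/-- Proof: `ent_chain` for `x` and its class; the conditional laws live on cosets of `V`
(`ent_le_log_card`). -/
lemma ent_le_entq_add (hp : IsProb p) (x : Ω → G) (V : AddSubgroup G)
    (hV : (V : Set G).Finite) : ent p x ≤ entq V p x + Real.log (Nat.card V) := by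
  set g : Ω → G ⧸ V := fun ω => QuotientAddGroup.mk (x ω) with hg
  have h1 := ent_chain hp x g
  have h2 := ent_le_pair hp x g
  have h3 : ∑ ω, p ω * ent (cw p g (g ω)) x ≤ ∑ ω, p ω * Real.log (Nat.card V) := by
    refine sum_le_sum fun ω _ => ?_
    by_cases h0 : p ω = 0
    · simp [h0]
    refine mul_le_mul_of_nonneg_left ?_ (hp.nonneg ω)
    have hc := isProb_cw hp (pr_pos hp g h0).ne'
    have h4 := ent_le_log_card hc x (hV.toFinset.image fun v => x ω + v) (by
      intro ω' hω'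
      have h5 : g ω = g ω' := by
        by_contra hne
        apply hω'
        unfold cw
        rw [if_neg (Ne.symm hne)]
      rw [hg] at h5
      simp only at h5
      rw [QuotientAddGroup.eq] at h5
      rw [mem_image]
      refine ⟨-x ω + x ω', ?_, by abel⟩
      rw [Set.Finite.mem_toFinset]
      exact h5)
    have h6 : (hV.toFinset.image fun v => x ω + v).card = Nat.card V := by
      rw [card_image_of_injective _ (add_right_injective (x ω))]
      rw [← Set.ncard_eq_toFinset_card (V : Set G) hV]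
      rfl
    rw [h6] at h4
    exact h4
  rw [← sum_mul, hp.sum_one, one_mul] at h3
  unfold entq
  linarith

/-- `rdq ≤ rd` (this is `contraction`). -/
lemma rdq_le (hp : IsProb p) (hq : IsProb q) (x : Ω → G) (y : Ω' → G) (V : AddSubgroup G) :
    rdq V p q x y ≤ rd p q x y := contraction hp hq x y (QuotientAddGroup.mk' V)

lemma rd_nonneg (hp : IsProb p) (hq : IsProb q) (x : Ω → G) (y : Ω' → G) : 0 ≤ rd p q x y := by
  have h1 := ent_le_Hs_left hp hq x y
  have h2 := ent_le_Hs_right hp hq x y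
  unfold rd
  linarith

lemma rdq_nonneg (hp : IsProb p) (hq : IsProb q) (x : Ω → G) (y : Ω' → G) (V : AddSubgroup G) :
    0 ≤ rdq V p q x y := rd_nonneg hp hq _ _

end

end Pool.Agent.Lib.MP_dd2a7c_co
end
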