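import Mathlib
import Pool.Agent.Lib.MP_dd2a7c_co.WpTri
import Pool.Agent.Lib.MP_dd2a7c_co.FromSubgroup

section

/-!
Finitely generated abelian groups: torsion, quotients by multiples, numbers of generators.
-/

namespace Pool.Agent.Lib.MP_dd2a7c_co

/-- The multiples of `q` have finite index in a finitely generated abelian group. -/
theorem index_range_nsmul_ne_zero {L : Type*} [AddCommGroup L] [AddGroup.FG L] {q : ℕ}
    (hq : 0 < q) : (nsmulAddMonoidHom (α := L) q).range.index ≠ 0 := by
  have htor : ∀ x : L ⧸ (nsmulAddMonoidHom (α := L) q).range, q • x = 0 := by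
    intro x
    induction x using QuotientAddGroup.induction_on with
    | H g =>
      rw [← QuotientAddGroup.mk_nsmul, QuotientAddGroup.eq_zero_iff]
      exact ⟨g, rfl⟩
  have hfg : AddGroup.FG (L ⧸ (nsmulAddMonoidHom (α := L) q).range) := inferInstance
  have : Module.Finite ℤ (L ⧸ (nsmulAddMonoidHom (α := L) q).range) :=
    Module.Finite.iff_addGroup_fg.mpr hfg
  have : Finite (L ⧸ (nsmulAddMonoidHom (α := L) q).range) :=
    AddCommGroup.finite_of_fg_torsion _
      (fun x => isOfFinAddOrder_iff_nsmul_eq_zero.mpr ⟨q, hq, htor x⟩)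
  exact AddSubgroup.index_ne_zero_of_finite

/-- The minimal number of generators is the maximum of the ranks modulo the primes.
Proof: `AddCommGroup.equiv_free_prod_directSum_zmod`: `L ≅ (Fin n →₀ ℤ) × ⨁ i, ZMod (p i ^ e i)`.
For each prime `p` the number of `i` with `p i = p`, `e i ≠ 0` plus `n` is at most `r`. Choose
`j : ι → Fin (r - n)` injective on `{i | p i = p, e i ≠ 0}` for every prime `p`; the elements
`v_j = ∑ i, j(i) = j, of i 1` and the `n` free generators generate `L`: for `e i ≠ 0` and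
`N = ∏ (i' ≠ i, j(i') = j(i)) p i' ^ e i'` we have `N • v_j = N • of i 1`, and `N` is a unit modulo
`p i ^ e i`. -/
theorem exists_generators {L : Type*} [AddCommGroup L] [AddGroup.FG L] (r : ℕ)
    (h : ∀ p : ℕ, p.Prime → (nsmulAddMonoidHom (α := L) p).range.index ≤ p ^ r) :
    ∃ S : Finset L, S.card ≤ r ∧ AddSubgroup.closure (S : Set L) = ⊤ := by
  classical
  obtain ⟨n, ι, hι, p, hp, e, ⟨φ⟩⟩ := AddCommGroup.equiv_free_prod_directSum_zmod L
  let Φ : L ≃+ (Fin n → ℤ) × (∀ i : ι, ZMod (p i ^ e i)) :=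
    φ.trans (AddEquiv.prodCongr (Finsupp.linearEquivFunOnFinite ℤ ℤ (Fin n)).toAddEquiv
      (DirectSum.addEquivProd (fun i : ι => ZMod (p i ^ e i))))
  -- the count
  have hcount : ∀ q : ℕ, q.Prime → n + Fintype.card {i : ι // p i = q ∧ e i ≠ 0} ≤ r := by
    intro q hq
    have hdvd : ∀ i : {i : ι // p i = q ∧ e i ≠ 0}, q ∣ p i.1 ^ e i.1 := by
      intro i
      rw [i.2.1]
      exact dvd_pow_self q i.2.2
    let α : (Fin n → ℤ) →+ (Fin n → ZMod q) :=
      AddMonoidHom.mk' (fun f i => (f i : ZMod q)) (by intro a b; funext i; simp)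
    let β : (∀ i : ι, ZMod (p i ^ e i)) →+ ({i : ι // p i = q ∧ e i ≠ 0} → ZMod q) :=
      AddMonoidHom.mk' (fun g i => ZMod.castHom (hdvd i) (ZMod q) (g i.1))
        (by intro a b; funext i; simp only [Pi.add_apply, map_add])
    let ψ : L →+ (Fin n → ZMod q) × ({i : ι // p i = q ∧ e i ≠ 0} → ZMod q) :=
      (AddMonoidHom.prodMap α β).comp Φ.toAddMonoidHom
    have hα : Function.Surjective α := by
      intro f
      refine ⟨fun i => (ZMod.cast (f i) : ℤ), ?_⟩
      funext i
      exact ZMod.intCast_zmod_cast (f i)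
    have hβ : Function.Surjective β := by
      intro g
      refine ⟨fun i => if hi : p i = q ∧ e i ≠ 0 then
        (((ZMod.cast (g ⟨i, hi⟩) : ℤ) : ZMod (p i ^ e i))) else 0, ?_⟩
      funext i
      show ZMod.castHom (hdvd i) (ZMod q) (if hi : p i.1 = q ∧ e i.1 ≠ 0 then
        (((ZMod.cast (g ⟨i.1, hi⟩) : ℤ) : ZMod (p i.1 ^ e i.1))) else 0) = g i
      rw [dif_pos i.2, map_intCast]
      exact ZMod.intCast_zmod_cast (g i)
    have hψ : Function.Surjective ψ := (Function.Surjective.prodMap hα hβ).comp Φ.surjective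
    have hker : (nsmulAddMonoidHom (α := L) q).range ≤ ψ.ker := by
      rintro _ ⟨x, rfl⟩
      rw [AddMonoidHom.mem_ker]
      show ψ (q • x) = 0
      rw [map_nsmul]
      ext i
      · show (q • (ψ x).1) i = 0
        rw [Pi.smul_apply, nsmul_eq_mul, CharP.cast_eq_zero, zero_mul]
      · show (q • (ψ x).2) i = 0
        rw [Pi.smul_apply, nsmul_eq_mul, CharP.cast_eq_zero, zero_mul]
    have hqne : NeZero q := ⟨hq.ne_zero⟩
    have hidx : ψ.ker.index = q ^ (n + Fintype.card {i : ι // p i = q ∧ e i ≠ 0}) := by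
      rw [AddSubgroup.index_ker, AddMonoidHom.range_eq_top.mpr hψ, AddSubgroup.card_top,
        Nat.card_prod, Nat.card_pi, Nat.card_pi]
      simp only [Nat.card_eq_fintype_card, ZMod.card, Finset.prod_const, Finset.card_univ,
        Fintype.card_fin]
      rw [← pow_add]
    have h1 : ψ.ker.index ∣ (nsmulAddMonoidHom (α := L) q).range.index :=
      AddSubgroup.index_dvd_of_le hker
    have h2 := Nat.le_of_dvd (Nat.pos_of_ne_zero (index_range_nsmul_ne_zero hq.pos)) h1
    rw [hidx] at h2
    exact (Nat.pow_le_pow_iff_right hq.one_lt).mp (h2.trans (h q hq))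
  have hnr : n ≤ r := by
    have := hcount 2 Nat.prime_two
    omega
  -- the choice of `j`
  have hj : ∃ j : ι → ℕ, (∀ i, e i ≠ 0 → j i < r - n) ∧
      ∀ i i', e i ≠ 0 → e i' ≠ 0 → p i = p i' → j i = j i' → i = i' := by
    refine ⟨fun i => if hi : e i ≠ 0 then
      ((Fintype.equivFin {i' : ι // p i' = p i ∧ e i' ≠ 0} ⟨i, rfl, hi⟩ : Fin _) : ℕ) else 0,
      ?_, ?_⟩
    · intro i hi
      simp only [dif_pos hi]
      have h1 := (Fintype.equivFin {i' : ι // p i' = p i ∧ e i' ≠ 0} ⟨i, rfl, hi⟩).2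
      have h2 := hcount (p i) (hp i)
      omega
    · intro i i' hi hi' hpp hjj
      simp only [dif_pos hi, dif_pos hi'] at hjj
      have key : ∀ q : ℕ, ∀ (hq : p i = q) (hq' : p i' = q),
          ((Fintype.equivFin {i' : ι // p i' = q ∧ e i' ≠ 0} ⟨i, hq, hi⟩ : Fin _) : ℕ) =
          ((Fintype.equivFin {i' : ι // p i' = q ∧ e i' ≠ 0} ⟨i', hq', hi'⟩ : Fin _) : ℕ) →
          i = i' := by
        intro q hq hq' hh
        have := (Fintype.equivFin {i' : ι // p i' = q ∧ e i' ≠ 0}).injective (Fin.ext hh)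
        exact congrArg Subtype.val this
      refine key (p i) rfl hpp.symm ?_
      rw [hjj]
      have gen : ∀ q : ℕ, ∀ (hq' : p i' = q),
          ((Fintype.equivFin {i'' : ι // p i'' = p i' ∧ e i'' ≠ 0} ⟨i', rfl, hi'⟩ : Fin _) : ℕ) =
          ((Fintype.equivFin {i'' : ι // p i'' = q ∧ e i'' ≠ 0} ⟨i', hq', hi'⟩ : Fin _) : ℕ) := by
        intro q hq'
        subst hq'
        rfl
      exact gen (p i) hpp.symm
  obtain ⟨j, hj1, hj2⟩ := hj
  let A : (Fin n → ℤ) →+ L :=
    Φ.symm.toAddMonoidHom.comp (AddMonoidHom.inl (Fin n → ℤ) (∀ i : ι, ZMod (p i ^ e i)))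
  let B : (∀ i : ι, ZMod (p i ^ e i)) →+ L :=
    Φ.symm.toAddMonoidHom.comp (AddMonoidHom.inr (Fin n → ℤ) (∀ i : ι, ZMod (p i ^ e i)))
  let b : ι → L := fun i => B (Pi.single i 1)
  let v : ℕ → L := fun t => ∑ i ∈ Finset.univ.filter (fun i => e i ≠ 0 ∧ j i = t), b i
  let S : Finset L := (Finset.univ.image (fun i : Fin n => A (Pi.single i 1))) ∪
    ((Finset.range (r - n)).image v)
  refine ⟨S, ?_, ?_⟩
  · calc S.card ≤ (Finset.univ.image (fun i : Fin n => A (Pi.single i 1))).card +
          ((Finset.range (r - n)).image v).card := Finset.card_union_le _ _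
      _ ≤ n + (r - n) := by
          gcongr
          · calc _ ≤ (Finset.univ : Finset (Fin n)).card := Finset.card_image_le
              _ = n := by simp
          · calc _ ≤ (Finset.range (r - n)).card := Finset.card_image_le
              _ = r - n := by simp
      _ = r := by omega
  · have hbmul : ∀ i, (p i ^ e i) • b i = 0 := by
      intro i
      show (p i ^ e i) • B (Pi.single i 1) = 0
      rw [← map_nsmul]
      have : (p i ^ e i) • (Pi.single i 1 : ∀ i : ι, ZMod (p i ^ e i)) = 0 := by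
        rw [← Pi.single_smul]
        have h0 : (p i ^ e i) • (1 : ZMod (p i ^ e i)) = 0 := by
          rw [nsmul_eq_mul, mul_one]
          exact ZMod.natCast_self _
        rw [h0, Pi.single_zero]
      rw [this, map_zero]
    have hv : ∀ t < r - n, v t ∈ AddSubgroup.closure (S : Set L) := by
      intro t ht
      apply AddSubgroup.subset_closure
      apply Finset.mem_coe.mpr
      exact Finset.mem_union_right _ (Finset.mem_image_of_mem _ (Finset.mem_range.mpr ht))
    have hb : ∀ i, b i ∈ AddSubgroup.closure (S : Set L) := by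
      intro i
      by_cases hi : e i = 0
      · have := hbmul i
        rw [hi, pow_zero, one_smul] at this
        rw [this]
        exact AddSubgroup.zero_mem _
      · set F := (Finset.univ.filter (fun i' => e i' ≠ 0 ∧ j i' = j i)).erase i with hF
        set N := ∏ i' ∈ F, p i' ^ e i' with hN
        have hiF : i ∈ Finset.univ.filter (fun i' => e i' ≠ 0 ∧ j i' = j i) := by
          simp [hi]
        have hNv : N • v (j i) = N • b i := by
          show N • (∑ i' ∈ Finset.univ.filter (fun i' => e i' ≠ 0 ∧ j i' = j i), b i') = N • b i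
          rw [← Finset.add_sum_erase _ _ hiF, smul_add, Finset.smul_sum]
          have : ∑ i' ∈ (Finset.univ.filter (fun i' => e i' ≠ 0 ∧ j i' = j i)).erase i,
              N • b i' = 0 := by
            apply Finset.sum_eq_zero
            intro i' hi'
            obtain ⟨c, hc⟩ := Finset.dvd_prod_of_mem (fun i' => p i' ^ e i') hi'
            rw [hN, hF, hc, mul_comm, mul_smul, hbmul, smul_zero]
          rw [this, add_zero]
        have hcop : Nat.Coprime N (p i ^ e i) := by
          apply Nat.Coprime.prod_left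
          intro i' hi'
          rw [hF, Finset.mem_erase, Finset.mem_filter] at hi'
          apply Nat.Coprime.pow
          rw [Nat.coprime_primes (hp i') (hp i)]
          intro hpp
          exact hi'.1 (hj2 i' i hi'.2.2.1 hi hpp hi'.2.2.2)
        have hNmem : N • b i ∈ AddSubgroup.closure (S : Set L) := by
          rw [← hNv]
          exact AddSubgroup.nsmul_mem _ (hv _ (hj1 i hi)) _
        have hbez := Nat.gcd_eq_gcd_ab N (p i ^ e i)
        rw [Nat.Coprime.gcd_eq_one hcop] at hbez
        have h3 : b i = (Nat.gcdA N (p i ^ e i)) • (N • b i) := by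
          have e1 : ((1 : ℕ) : ℤ) • b i = ((N : ℤ) * Nat.gcdA N (p i ^ e i)
              + ((p i ^ e i : ℕ) : ℤ) * Nat.gcdB N (p i ^ e i)) • b i := by rw [← hbez]
          rw [Nat.cast_one, one_zsmul, add_zsmul, mul_comm (N : ℤ),
            mul_comm (((p i ^ e i : ℕ) : ℤ)),
            mul_zsmul, mul_zsmul, natCast_zsmul, natCast_zsmul, hbmul, zsmul_zero,
            add_zero] at e1
          exact e1
        rw [h3]
        exact AddSubgroup.zsmul_mem _ hNmem _
    have hA : ∀ f, A f ∈ AddSubgroup.closure (S : Set L) := by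
      intro f
      rw [← Finset.univ_sum_single f, map_sum]
      apply AddSubgroup.sum_mem
      intro i _
      have : (Pi.single i (f i) : Fin n → ℤ) = f i • (Pi.single i 1 : Fin n → ℤ) := by
        rw [← Pi.single_smul]
        simp
      rw [this, map_zsmul]
      apply AddSubgroup.zsmul_mem
      apply AddSubgroup.subset_closure
      apply Finset.mem_coe.mpr
      exact Finset.mem_union_left _ (Finset.mem_image_of_mem _ (Finset.mem_univ i))
    have hB : ∀ g, B g ∈ AddSubgroup.closure (S : Set L) := by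
      intro g
      rw [← Finset.univ_sum_single g, map_sum]
      apply AddSubgroup.sum_mem
      intro i _
      have : (Pi.single i (g i) : ∀ i : ι, ZMod (p i ^ e i)) =
          (ZMod.cast (g i) : ℤ) • (Pi.single i 1 : ∀ i : ι, ZMod (p i ^ e i)) := by
        rw [← Pi.single_smul]
        congr 1
        rw [zsmul_eq_mul, mul_one]
        exact (ZMod.intCast_zmod_cast (g i)).symm
      rw [this, map_zsmul]
      exact AddSubgroup.zsmul_mem _ (hb i) _
    rw [eq_top_iff]
    intro x _
    have hx : x = A (Φ x).1 + B (Φ x).2 := by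
      show x = Φ.symm ((Φ x).1, 0) + Φ.symm (0, (Φ x).2)
      rw [← map_add]
      have : ((Φ x).1, (0 : ∀ i : ι, ZMod (p i ^ e i))) + ((0 : Fin n → ℤ), (Φ x).2) = Φ x := by
        ext <;> simp
      rw [this]
      exact (Φ.symm_apply_apply x).symm
    rw [hx]
    exact AddSubgroup.add_mem _ (hA _) (hB _)

end Pool.Agent.Lib.MP_dd2a7c_co
end

section

/-!
From entropies to sets.
-/

namespace Pool.Agent.Lib.MP_dd2a7c_co

open Finset
open scoped Classical Pointwise

noncomputable section

universe u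

variable {G : Type u} [AddCommGroup G]

/-- The structure of an exact minimizer (this is `exists_min_weights` for all `η ∈ (0, 1]`, the
same proof). -/
lemma exists_min_weights' (A : Finset G) (K : ℝ) (hA : A.Nonempty)
    (hK : ((A + A).card : ℝ) ≤ K * A.card) {η : ℝ} (hη0 : 0 < η) (hη1 : η ≤ 1) :
    ∃ p q u : A → ℝ, IsProb p ∧ IsProb q ∧ IsProb u ∧
      (∀ p' q' : A → ℝ, IsProb p' → IsProb q' →
        Phi (fun ω : A => (ω : G)) u η p q ≤ Phi (fun ω : A => (ω : G)) u η p' q') ∧
      rd p q (fun ω : A => (ω : G)) (fun ω : A => (ω : G)) ≤ 2 * Real.log K ∧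
      Real.log A.card - ent p (fun ω : A => (ω : G)) ≤ 8 / η * Real.log K := by
  have hApos : (0 : ℝ) < A.card := Nat.cast_pos.2 hA.card_pos
  haveI : Nonempty A := hA.to_subtype
  set x : A → G := fun ω => (ω : G) with hx
  have hK1 : 1 ≤ K := by
    have h1 : (A.card : ℝ) ≤ (A + A).card := by
      exact_mod_cast card_le_card_add_right hA
    have h2 : 1 * (A.card : ℝ) ≤ K * A.card := by linarith
    exact le_of_mul_le_mul_right h2 hApos
  have hlogK : 0 ≤ Real.log K := Real.log_nonneg hK1
  let u : A → ℝ := fun _ => 1 / (A.card : ℝ)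
  have hu : IsProb u := by
    refine ⟨fun _ => by positivity, ?_⟩
    simp only [u, sum_const, nsmul_eq_mul, card_univ, Fintype.card_coe]
    field_simp
  have hentu : ent u x = Real.log A.card := by
    apply le_antisymm
    · exact ent_le_log_card hu x A fun ω _ => ω.2
    · have h1 : ∀ a, pr u x a ≤ 1 / (A.card : ℝ) := by
        intro a
        unfold pr
        by_cases ha : a ∈ A
        · rw [sum_eq_single (⟨a, ha⟩ : A)]
          · rw [if_pos rfl]
          · intro b _ hb
            rw [if_neg]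
            intro h
            exact hb (Subtype.ext h)
          · intro h
            exact absurd (mem_univ _) h
        · rw [sum_eq_zero]
          · positivity
          · intro b _
            rw [if_neg]
            intro h
            exact ha (h ▸ b.2)
      have := neg_log_le_ent hu x h1
      rwa [one_div, Real.log_inv, neg_neg] at this
  have hsum : Hs u u x x ≤ Real.log K + Real.log A.card := by
    have h1 : Hs u u x x ≤ Real.log (A + A).card :=
      ent_le_log_card (isProb_prod hu hu) _ _ fun ω _ => add_mem_add ω.1.2 ω.2.2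
    have h2 : Real.log (A + A).card ≤ Real.log (K * A.card) :=
      Real.log_le_log (Nat.cast_pos.2 (hA.add hA).card_pos) hK
    rw [Real.log_mul (by linarith) hApos.ne'] at h2
    linarith
  obtain ⟨p, q, hp, hq, hmin⟩ := exists_min_Phi x u η
  have hPu := hmin u u hu hu
  have hD0 : 0 ≤ Hs p q x x - (ent p x + ent q x) / 2 := by
    have := ent_le_Hs_left hp hq x x
    have := ent_le_Hs_right hp hq x x
    linarith
  have hcp1 := ent_le_Hs_left hu hp x x
  have hcp2 := ent_le_Hs_right hu hp x x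
  have hcq1 := ent_le_Hs_left hu hq x x
  have hcq2 := ent_le_Hs_right hu hq x x
  unfold Phi at hPu
  rw [hentu] at hPu hcp1 hcq1
  have hc : 0 ≤ Hs u p x x + Hs u q x x - Real.log A.card - (ent p x + ent q x) / 2 := by
    linarith
  have hPu2 : Hs p q x x - (ent p x + ent q x) / 2 +
      η / 2 * (Hs u p x x + Hs u q x x - Real.log A.card - (ent p x + ent q x) / 2) ≤
      2 * Real.log K := by
    refine hPu.trans ?_
    have h1 : η / 2 * (Hs u u x x + Hs u u x x - Real.log A.card -
        (Real.log A.card + Real.log A.card) / 2) ≤ 1 / 2 * (2 * Real.log K) := by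
      apply mul_le_mul (by linarith) (by linarith) _ (by norm_num)
      have := ent_le_Hs_left hu hu x x
      rw [hentu] at this
      linarith
    linarith
  refine ⟨p, q, u, hp, hq, hu, hmin, ?_, ?_⟩
  · unfold rd
    have : 0 ≤ η / 2 * (Hs u p x x + Hs u q x x - Real.log A.card -
      (ent p x + ent q x) / 2) := mul_nonneg (by linarith) hc
    linarith
  · have h1 : η / 2 * ((Real.log A.card - ent p x) / 2) ≤ 2 * Real.log K := by
      have h2 : η / 2 * ((Real.log A.card - ent p x) / 2) ≤
          η / 2 * (Hs u p x x + Hs u q x x - Real.log A.card - (ent p x + ent q x) / 2) :=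
        mul_le_mul_of_nonneg_left (by linarith) (by linarith)
      linarith
    rw [div_mul_eq_mul_div, le_div_iff₀ hη0]
    linarith

end

end Pool.Agent.Lib.MP_dd2a7c_co
end

section

/-!
From entropies to sets.
-/

namespace Pool.Agent.Lib.MP_dd2a7c_co

open Finset
open scoped Classical Pointwise

noncomputable section

universe u

variable {G : Type u} [AddCommGroup G]

/-- Proof: the largest fibre of `x` modulo `H` has at least `exp (ent p x - entq H p x)` elements
(`ent_chain`, `ent_le_log_card`), i.e. some `A₁ = A.filter (class = c)` has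
`|H| ≤ exp B * |A₁|`. The classes of `A` are translates of different cosets, so
`|A + A₁| ≥ |π A| |A₁|`, and `|A + A₁| ≤ |A + A| ≤ K |A|`. Finally `|A + H| = |π A| |H|`. -/
theorem ncard_add_le (A : Finset G) (K : ℝ) (hK : ((A + A).card : ℝ) ≤ K * A.card)
    {p : A → ℝ} (hp : IsProb p) (H : AddSubgroup G) (hH : (H : Set G).Finite) {B : ℝ}
    (hB : Real.log (Nat.card H) - (ent p (fun ω : A => (ω : G)) -
      entq H p (fun ω : A => (ω : G))) ≤ B) :
    (Set.ncard ((A : Set G) + (H : Set G)) : ℝ) ≤ K * Real.exp B * A.card := by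
  set x : A → G := fun ω => (ω : G) with hx
  set g : A → G ⧸ H := fun ω => (QuotientAddGroup.mk (x ω) : G ⧸ H) with hg
  have : Finite H := hH
  -- a fibre of large entropy
  have h1 : ent p (fun ω => (x ω, g ω)) = ent p x :=
    ent_congr _ _ fun ω ω' _ _ => by
      constructor
      · intro h
        exact (Prod.ext_iff.1 h).1
      · intro h
        simp only [hg, h]
  have h2 := ent_chain hp x g
  rw [h1] at h2
  have hex : ∃ ω₀, p ω₀ ≠ 0 ∧ ent p x - ent p g ≤ ent (cw p g (g ω₀)) x := by
    by_contra hcon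
    push Not at hcon
    have hle : ∀ ω, p ω * ent (cw p g (g ω)) x ≤ p ω * (ent p x - ent p g) := by
      intro ω
      by_cases h0 : p ω = 0
      · simp [h0]
      · exact mul_le_mul_of_nonneg_left (hcon ω h0).le (hp.nonneg ω)
    have hex' : ∃ ω, p ω ≠ 0 := by
      by_contra hc
      push Not at hc
      have := hp.sum_one
      simp [hc] at this
    obtain ⟨ω₁, hω₁⟩ := hex'
    have hlt : ∑ ω, p ω * ent (cw p g (g ω)) x < ∑ ω, p ω * (ent p x - ent p g) :=
      sum_lt_sum (fun ω _ => hle ω) ⟨ω₁, mem_univ _, mul_lt_mul_of_pos_left (hcon ω₁ hω₁)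
        (lt_of_le_of_ne (hp.nonneg _) (Ne.symm hω₁))⟩
    rw [← h2, ← sum_mul, hp.sum_one, one_mul] at hlt
    exact lt_irrefl _ hlt
  obtain ⟨ω₀, hω₀, h3⟩ := hex
  set A₁ : Finset G := A.filter (fun a => (QuotientAddGroup.mk a : G ⧸ H) = g ω₀) with hA₁
  have hz : pr p g (g ω₀) ≠ 0 := (pr_pos hp g hω₀).ne'
  have h4 : ent (cw p g (g ω₀)) x ≤ Real.log A₁.card := by
    refine ent_le_log_card (isProb_cw hp hz) x A₁ fun ω hω => ?_
    rw [hA₁, mem_filter]
    refine ⟨ω.2, ?_⟩
    by_contra hne
    apply hω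
    unfold cw
    rw [if_neg]
    exact hne
  have hA₁pos : (0 : ℝ) < A₁.card := by
    have : (ω₀ : G) ∈ A₁ := by
      rw [hA₁, mem_filter]
      exact ⟨ω₀.2, rfl⟩
    exact_mod_cast card_pos.2 ⟨_, this⟩
  have hHpos : (0 : ℝ) < Nat.card H := by exact_mod_cast Nat.card_pos
  have h5 : (Nat.card H : ℝ) ≤ Real.exp B * A₁.card := by
    have h6 : Real.log (Nat.card H) ≤ B + Real.log A₁.card := by
      have : entq H p x = ent p g := rfl
      rw [this] at hB
      linarith
    calc (Nat.card H : ℝ) = Real.exp (Real.log (Nat.card H)) := (Real.exp_log hHpos).symm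
      _ ≤ Real.exp (B + Real.log A₁.card) := Real.exp_le_exp.2 h6
      _ = Real.exp B * A₁.card := by rw [Real.exp_add, Real.exp_log hA₁pos]
  -- a section of the projection of `A`
  set πA : Finset (G ⧸ H) := A.image (fun a => (QuotientAddGroup.mk a : G ⧸ H)) with hπA
  have hsec : ∀ c : G ⧸ H, ∃ a : G, c ∈ πA → a ∈ A ∧ (QuotientAddGroup.mk a : G ⧸ H) = c := by
    intro c
    by_cases hc : c ∈ πA
    · rw [hπA, mem_image] at hc
      obtain ⟨a, ha, hac⟩ := hc
      exact ⟨a, fun _ => ⟨ha, hac⟩⟩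
    · exact ⟨0, fun h => absurd h hc⟩
  choose s hs using hsec
  have h7 : (πA ×ˢ A₁).card ≤ (A + A).card := by
    refine card_le_card_of_injOn (fun z => s z.1 + z.2) ?_ ?_
    · intro z hz
      rw [mem_coe, mem_product] at hz
      exact mem_coe.2 (add_mem_add (hs _ hz.1).1 (mem_filter.1 hz.2).1)
    · intro z hz w hw h
      rw [mem_coe, mem_product] at hz hw
      have hz2 := (mem_filter.1 hz.2).2
      have hw2 := (mem_filter.1 hw.2).2
      have e : (QuotientAddGroup.mk (s z.1 + z.2) : G ⧸ H) = QuotientAddGroup.mk (s w.1 + w.2) :=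
        congrArg _ h
      rw [QuotientAddGroup.mk_add, QuotientAddGroup.mk_add, hz2, hw2, (hs _ hz.1).2,
        (hs _ hw.1).2] at e
      have e1 : z.1 = w.1 := add_right_cancel e
      have h' : s z.1 + z.2 = s w.1 + w.2 := h
      rw [e1] at h'
      exact Prod.ext e1 (add_left_cancel h')
  have h8 : (A : Set G) + (H : Set G) ⊆
      (fun z : (G ⧸ H) × G => s z.1 + z.2) '' ((πA : Set (G ⧸ H)) ×ˢ (H : Set G)) := by
    rintro y ⟨a, ha, h, hh, rfl⟩
    have hc : (QuotientAddGroup.mk a : G ⧸ H) ∈ πA := mem_image_of_mem _ (mem_coe.1 ha)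
    refine ⟨(QuotientAddGroup.mk a, - s (QuotientAddGroup.mk a) + a + h), ⟨?_, ?_⟩, ?_⟩
    · exact mem_coe.2 hc
    · have := (hs _ hc).2
      rw [QuotientAddGroup.eq] at this
      exact H.add_mem this hh
    · simp only
      abel
  have h9 : Set.ncard ((A : Set G) + (H : Set G)) ≤ πA.card * Nat.card H := by
    calc Set.ncard ((A : Set G) + (H : Set G)) ≤ Set.ncard
          ((fun z : (G ⧸ H) × G => s z.1 + z.2) '' ((πA : Set (G ⧸ H)) ×ˢ (H : Set G))) :=
          Set.ncard_le_ncard h8 ((πA.finite_toSet.prod hH).image _)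
      _ ≤ Set.ncard ((πA : Set (G ⧸ H)) ×ˢ (H : Set G)) :=
          Set.ncard_image_le (πA.finite_toSet.prod hH)
      _ = πA.card * Nat.card H := by
          rw [Set.ncard_prod, Set.ncard_coe_finset]
          rfl
  have h10 : (πA.card : ℝ) * A₁.card ≤ K * A.card := by
    rw [card_product] at h7
    calc (πA.card : ℝ) * A₁.card = ((πA.card * A₁.card : ℕ) : ℝ) := by push_cast; ring
      _ ≤ ((A + A).card : ℝ) := by exact_mod_cast h7
      _ ≤ K * A.card := hK
  calc (Set.ncard ((A : Set G) + (H : Set G)) : ℝ) ≤ ((πA.card * Nat.card H : ℕ) : ℝ) := by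
        exact_mod_cast h9
    _ = (πA.card : ℝ) * Nat.card H := by push_cast; ring
    _ ≤ (πA.card : ℝ) * (Real.exp B * A₁.card) := mul_le_mul_of_nonneg_left h5 (Nat.cast_nonneg _)
    _ = Real.exp B * (πA.card * A₁.card) := by ring
    _ ≤ Real.exp B * (K * A.card) := mul_le_mul_of_nonneg_left h10 (Real.exp_pos _).le
    _ = K * Real.exp B * A.card := by ring

/-- Proof: `A'` = the support of `p` has at least `exp (ent p x)` elements; `A ⊆ T + (A' - A')`
with `|T| ≤ |A + A'| / |A'|` by `Finset.ruzsa_covering_add`, and `A' - A' ⊆ L`. -/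
theorem exists_cover (A : Finset G) (K : ℝ) (hA : A.Nonempty)
    (hK : ((A + A).card : ℝ) ≤ K * A.card) {p : A → ℝ} (hp : IsProb p) (L : AddSubgroup G) {B : ℝ}
    (hB : Real.log A.card - ent p (fun ω : A => (ω : G)) ≤ B)
    (hL : ∀ ω ω' : A, p ω ≠ 0 → p ω' ≠ 0 → (ω : G) - ω' ∈ L) :
    ∃ T : Finset G, (T.card : ℝ) ≤ K * Real.exp B ∧ (A : Set G) ⊆ (T : Set G) + (L : Set G) := by
  set x : A → G := fun ω => (ω : G) with hx
  set A' : Finset G := (univ.filter (fun ω : A => p ω ≠ 0)).image x with hA'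
  have hApos : (0 : ℝ) < A.card := by exact_mod_cast hA.card_pos
  have hK0 : 0 ≤ K := by
    by_contra hcon
    push Not at hcon
    have h1 : K * A.card < 0 := mul_neg_of_neg_of_pos hcon hApos
    have h2 : (0 : ℝ) ≤ ((A + A).card : ℝ) := Nat.cast_nonneg _
    linarith
  have hex' : ∃ ω, p ω ≠ 0 := by
    by_contra hc
    push Not at hc
    have := hp.sum_one
    simp [hc] at this
  obtain ⟨ω₁, hω₁⟩ := hex'
  have hmem : ∀ ω, p ω ≠ 0 → x ω ∈ A' := fun ω hω =>
    mem_image_of_mem _ (mem_filter.2 ⟨mem_univ _, hω⟩)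
  have hA'ne : A'.Nonempty := ⟨_, hmem ω₁ hω₁⟩
  have hA'pos : (0 : ℝ) < A'.card := by exact_mod_cast hA'ne.card_pos
  have h1 : ent p x ≤ Real.log A'.card := ent_le_log_card hp x A' hmem
  have h2 : (A.card : ℝ) ≤ Real.exp B * A'.card := by
    calc (A.card : ℝ) = Real.exp (Real.log A.card) := (Real.exp_log hApos).symm
      _ ≤ Real.exp (B + Real.log A'.card) := Real.exp_le_exp.2 (by linarith)
      _ = Real.exp B * A'.card := by rw [Real.exp_add, Real.exp_log hA'pos]
  have hsub : A' ⊆ A := by
    intro a ha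
    rw [hA', mem_image] at ha
    obtain ⟨ω, _, rfl⟩ := ha
    exact ω.2
  have h3 : ((A + A').card : ℝ) ≤ (K * Real.exp B) * A'.card := by
    calc ((A + A').card : ℝ) ≤ ((A + A).card : ℝ) := by
          exact_mod_cast card_le_card (add_subset_add_left hsub)
      _ ≤ K * A.card := hK
      _ ≤ K * (Real.exp B * A'.card) := mul_le_mul_of_nonneg_left h2 hK0
      _ = (K * Real.exp B) * A'.card := by ring
  obtain ⟨F, _, hF, hAF⟩ := Finset.ruzsa_covering_add hA'ne h3
  refine ⟨F, hF, fun a ha => ?_⟩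
  obtain ⟨t, ht, d, hd, htd⟩ := mem_add.1 (hAF (mem_coe.1 ha))
  refine ⟨t, mem_coe.2 ht, d, ?_, htd⟩
  obtain ⟨b, hb, b', hb', hbb⟩ := mem_sub.1 hd
  rw [hA', mem_image] at hb hb'
  obtain ⟨ω, hω, rfl⟩ := hb
  obtain ⟨ω', hω', rfl⟩ := hb'
  rw [← hbb]
  exact hL ω ω' (mem_filter.1 hω).2 (mem_filter.1 hω').2

end

end Pool.Agent.Lib.MP_dd2a7c_co
end

section

/-!
Finitely generated abelian groups: torsion, quotients by multiples, numbers of generators.
-/

namespace Pool.Agent.Lib.MP_dd2a7c_co

open scoped Pointwise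

/-- Proof: Cauchy's theorem. -/
theorem prime_le_of_dvd_card {G : Type*} [AddCommGroup G] {P : ℕ}
    (h : ∀ p : ℕ, p.Prime → P < p → ∀ g : G, p • g = 0 → g = 0) (H : AddSubgroup G)
    (hH : (H : Set G).Finite) {p : ℕ} (hp : p.Prime) (hpH : p ∣ Nat.card H) : p ≤ P := by
  by_contra hcon
  push Not at hcon
  have hfin : Finite H := hH
  have : Fact p.Prime := ⟨hp⟩
  obtain ⟨g, hg⟩ := exists_prime_addOrderOf_dvd_card' (G := H) p hpH
  have h1 : p • g = 0 := by rw [← hg]; exact addOrderOf_nsmul_eq_zero g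
  have h2 : (g : G) = 0 := by
    apply h p hp hcon
    have := congrArg (Subtype.val) h1
    simpa using this
  have h3 : g = 0 := Subtype.ext h2
  rw [h3, addOrderOf_zero] at hg
  exact hp.one_lt.ne hg

/-- Proof: let `g` be in the class; `p • g ∈ H`, `N = |H|`, so `p • (N • g) = 0`, hence
`N • g = 0` by `h`; `p` and `N` are coprime (`prime_le_of_dvd_card`), so `g` is a multiple of
`p • g`, an element of `H`. -/
theorem no_torsion_quotient {G : Type*} [AddCommGroup G] {P : ℕ}
    (h : ∀ p : ℕ, p.Prime → P < p → ∀ g : G, p • g = 0 → g = 0) (H : AddSubgroup G)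
    (hH : (H : Set G).Finite) :
    ∀ p : ℕ, p.Prime → P < p → ∀ g : G ⧸ H, p • g = 0 → g = 0 := by
  intro p hp hPp g hg
  have hfin : Finite H := hH
  induction g using QuotientAddGroup.induction_on with
  | H g =>
    rw [← QuotientAddGroup.mk_nsmul, QuotientAddGroup.eq_zero_iff] at hg
    rw [QuotientAddGroup.eq_zero_iff]
    have h1 : Nat.card H • (p • g) = 0 := by
      have := card_nsmul_eq_zero' (G := H) (x := ⟨p • g, hg⟩)
      have := congrArg (Subtype.val) this
      simpa only [AddSubgroup.coe_nsmul, ZeroMemClass.coe_zero] using this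
    have h2 : Nat.card H • g = 0 := by
      apply h p hp hPp
      rw [smul_comm]
      exact h1
    have hcop : Nat.Coprime p (Nat.card H) := by
      rw [Nat.Prime.coprime_iff_not_dvd hp]
      intro hd
      exact absurd (prime_le_of_dvd_card h H hH hp hd) (by omega)
    have hbez := Nat.gcd_eq_gcd_ab p (Nat.card H)
    rw [Nat.Coprime.gcd_eq_one hcop] at hbez
    have h3 : g = (Nat.gcdA p (Nat.card H)) • (p • g) := by
      have e1 : ((1 : ℕ) : ℤ) • g = ((p : ℤ) * Nat.gcdA p (Nat.card H)
          + (Nat.card H : ℤ) * Nat.gcdB p (Nat.card H)) • g := by rw [← hbez]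
      rw [Nat.cast_one, one_zsmul, add_zsmul, mul_comm (p : ℤ), mul_comm (Nat.card H : ℤ),
        mul_zsmul, mul_zsmul, natCast_zsmul, natCast_zsmul, h2, zsmul_zero, add_zero] at e1
      exact e1
    rw [h3]
    exact H.zsmul_mem hg _

/-- Proof: as `exists_small_subgroup` (file `Cover.lean`): if `|H₀| ≤ N` take `H = H₀`,
`R = {0}`. Otherwise let `H ≤ H₀` have the largest cardinality among the subgroups of `H₀` with at
most `N` elements; some `H₁ ≤ H₀` contains `H` with prime index `p ≤ P` (Cauchy in `H₀ ⧸ H`), so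
`N < |H₁| = p |H| ≤ P |H|`, and `R` is a set of representatives, `|R| = |H₀| / |H|`. -/
theorem exists_smooth_subgroup {G : Type*} [AddCommGroup G] (H₀ : AddSubgroup G)
    (hH₀ : (H₀ : Set G).Finite) {P : ℕ} (hP : 1 ≤ P)
    (h : ∀ p : ℕ, p.Prime → p ∣ Nat.card H₀ → p ≤ P) (N : ℕ) (hN : 1 ≤ N) (M : ℝ) (hM : 1 ≤ M)
    (hc : (Nat.card H₀ : ℝ) ≤ M * N) :
    ∃ (H : AddSubgroup G) (R : Finset G), H ≤ H₀ ∧ Nat.card H ≤ N ∧ (R.card : ℝ) ≤ P * M ∧
      ∀ z ∈ H₀, ∃ t ∈ R, ∃ g ∈ H, z = t + g := by
  classical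
  have hPR : (1 : ℝ) ≤ P := by exact_mod_cast hP
  by_cases hcase : Nat.card H₀ ≤ N
  · refine ⟨H₀, {0}, le_refl _, hcase, ?_, ?_⟩
    · simp only [Finset.card_singleton, Nat.cast_one]; nlinarith
    · intro x hx
      exact ⟨0, Finset.mem_singleton_self _, x, hx, (zero_add x).symm⟩
  · push Not at hcase
    have hfin : Finite H₀ := hH₀
    let Q : ℕ → Prop := fun n => ∃ K : AddSubgroup G, K ≤ H₀ ∧ Nat.card K = n
    have hP1 : Q 1 := ⟨⊥, bot_le, by simp⟩
    have hPmax : Q (Nat.findGreatest Q N) := Nat.findGreatest_spec (m := 1) hN hP1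
    obtain ⟨K, hKH, hKcard⟩ := hPmax
    have hKN : Nat.card K ≤ N := by rw [hKcard]; exact Nat.findGreatest_le N
    have hmax : ∀ L : AddSubgroup G, L ≤ H₀ → Nat.card L ≤ N → Nat.card L ≤ Nat.card K := by
      intro L hL hLN
      rw [hKcard]
      exact Nat.le_findGreatest hLN ⟨L, hL, rfl⟩
    have hKfin : (K : Set G).Finite := hH₀.subset hKH
    have hKfin' : Finite K := hKfin
    -- an element of prime order modulo `K`
    obtain ⟨p, g, hpP, hgH, hgK, hpg⟩ : ∃ (p : ℕ) (g : G), (p ≤ P ∧ 1 ≤ p) ∧ g ∈ H₀ ∧ g ∉ K ∧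
        p • g ∈ K := by
      have hidx : K.relIndex H₀ ≠ 1 := by
        intro hcon
        rw [AddSubgroup.relIndex_eq_one] at hcon
        have : H₀ = K := le_antisymm hcon hKH
        rw [this] at hcase
        omega
      obtain ⟨p, hp, hpd⟩ := Nat.exists_prime_and_dvd hidx
      have : Fact p.Prime := ⟨hp⟩
      have hcardmul : K.relIndex H₀ ∣ Nat.card H₀ := by
        unfold AddSubgroup.relIndex
        exact AddSubgroup.index_dvd_card _
      have hpP : p ≤ P := h p hp (hpd.trans hcardmul)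
      have hpd' : p ∣ Nat.card (H₀ ⧸ (K.addSubgroupOf H₀)) := hpd
      obtain ⟨q, hq⟩ := exists_prime_addOrderOf_dvd_card' (G := H₀ ⧸ (K.addSubgroupOf H₀)) p hpd'
      induction q using QuotientAddGroup.induction_on with
      | H g =>
        refine ⟨p, g, ⟨hpP, hp.one_lt.le⟩, g.2, ?_, ?_⟩
        · intro hgK
          have : (QuotientAddGroup.mk g : H₀ ⧸ (K.addSubgroupOf H₀)) = 0 := by
            rw [QuotientAddGroup.eq_zero_iff]
            exact hgK
          rw [this, addOrderOf_zero] at hq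
          exact hp.one_lt.ne hq
        · have h1 : p • (QuotientAddGroup.mk g : H₀ ⧸ (K.addSubgroupOf H₀)) = 0 := by
            rw [← hq]; exact addOrderOf_nsmul_eq_zero _
          rw [← QuotientAddGroup.mk_nsmul, QuotientAddGroup.eq_zero_iff] at h1
          exact h1
    set L : AddSubgroup G := K ⊔ AddSubgroup.zmultiples g with hL
    have hLH : L ≤ H₀ := by
      rw [hL]
      refine sup_le hKH ?_
      rw [AddSubgroup.zmultiples_le]
      exact hgH
    have hLfin : Finite L := (hH₀.subset hLH : (L : Set G).Finite)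
    have hLm : Nat.card L ≤ p * Nat.card K :=
      card_sup_zmultiples_le K hKfin g p hpP.2 hpg
    have hgL : g ∈ L := by
      rw [hL]
      exact AddSubgroup.mem_sup_right (AddSubgroup.mem_zmultiples g)
    have hKL : Nat.card K < Nat.card L := by
      have hss : (K : Set G) ⊂ (L : Set G) := by
        refine ⟨?_, ?_⟩
        · intro x hx
          exact AddSubgroup.mem_sup_left hx
        · intro hsub
          exact hgK (hsub hgL)
      have := Set.ncard_lt_ncard hss (hH₀.subset hLH)
      rwa [← Nat.card_coe_set_eq, ← Nat.card_coe_set_eq] at this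
    have hNL : N < Nat.card L := by
      by_contra hcon
      push Not at hcon
      have := hmax L hLH hcon
      omega
    have hKpos : (0 : ℝ) < Nat.card K := by exact_mod_cast Nat.card_pos
    have hNK : (N : ℝ) ≤ P * Nat.card K := by
      have : N ≤ P * Nat.card K := by
        calc N ≤ p * Nat.card K := by omega
          _ ≤ P * Nat.card K := Nat.mul_le_mul_right _ hpP.1
      exact_mod_cast this
    have hsum : (H₀ : Set G) + (K : Set G) ⊆ (H₀ : Set G) := by
      rintro _ ⟨x, hx, y, hy, rfl⟩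
      exact H₀.add_mem hx (hKH hy)
    obtain ⟨F, hFH, hFcard, hFcov, hFfin⟩ := Set.ruzsa_covering_add (A := (H₀ : Set G))
      (B := (K : Set G)) (K := (Nat.card H₀ : ℝ) / Nat.card K) hH₀ hKfin ⟨0, K.zero_mem⟩ (by
        have e : Nat.card ((K : Set G)) = Nat.card K := rfl
        rw [e, div_mul_cancel₀ _ hKpos.ne']
        have h1 : Nat.card ((H₀ : Set G) + (K : Set G) : Set G) ≤ Nat.card H₀ :=
          Nat.card_mono hH₀ hsum
        exact_mod_cast h1)
    refine ⟨K, hFfin.toFinset, hKH, hKN, ?_, ?_⟩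
    · have h1 : (hFfin.toFinset.card : ℝ) = Nat.card F := by
        rw [Nat.card_eq_card_finite_toFinset hFfin]
      rw [h1]
      refine le_trans hFcard ?_
      rw [div_le_iff₀ hKpos]
      calc (Nat.card H₀ : ℝ) ≤ M * N := hc
        _ ≤ M * (P * Nat.card K) := by gcongr
        _ = P * M * Nat.card K := by ring
    · intro x hx
      obtain ⟨t, ht, y, ⟨a, ha, b, hb, rfl⟩, rfl⟩ := hFcov hx
      exact ⟨t, hFfin.mem_toFinset.mpr ht, _, K.sub_mem ha hb, rfl⟩

end Pool.Agent.Lib.MP_dd2a7c_co
end
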