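import Pool.Agent.Lib.MP_dd2a7c_co.WpTri

section

/-!
Entropic sums of dilates.
-/

namespace Pool.Agent.Lib.MP_dd2a7c_co

open Finset
open scoped Classical

noncomputable section

variable {G : Type*} [AddCommGroup G] {Ω : Type*} [Fintype Ω] {q : Ω → ℝ}

/-- The entropy of `X - n X'` for independent copies `X`, `X'`. -/
def hdil (q : Ω → ℝ) (b : Ω → G) (n : ℕ) : ℝ :=
  ent (prod q q) (fun ω => b ω.1 - n • b ω.2)

/-- Entropy is invariant under a relabelling of the probability space. -/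
private lemma dil_ent_equiv {Ω₁ Ω₂ α : Type*} [Fintype Ω₁] [Fintype Ω₂] (e : Ω₁ ≃ Ω₂)
    (P : Ω₁ → ℝ) (P' : Ω₂ → ℝ) (h : ∀ ω, P ω = P' (e ω)) (F : Ω₂ → α) :
    ent P (fun ω => F (e ω)) = ent P' F := by
  have h1 : law P (fun ω => e ω) = P' := by
    funext b
    unfold law pr
    rw [sum_eq_single (e.symm b)]
    · rw [if_pos (e.apply_symm_apply b), h, e.apply_symm_apply]
    · intro c _ hc
      rw [if_neg]
      intro h2
      exact hc ((Equiv.eq_symm_apply e).2 h2)
    · intro h2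
      exact absurd (mem_univ _) h2
  rw [← h1, ent_law]
  rfl

private lemma dil_ent_neg (b : Ω → G) : ent q (fun ω => -b ω) = ent q b :=
  ent_congr _ _ fun _ _ _ _ => neg_inj

/-- The reordering `((X₁, X₂), X₃) ↦ (X₁, (X₂, X₃))`. -/
private def dilE1 (Ω : Type*) : (Ω × Ω) × Ω ≃ Ω × (Ω × Ω) := Equiv.prodAssoc Ω Ω Ω

/-- The reordering `((X₁, X₂), X₃) ↦ (X₃, (X₂, X₁))`. -/
private def dilE2 (Ω : Type*) : (Ω × Ω) × Ω ≃ Ω × (Ω × Ω) where
  toFun ω := (ω.2, (ω.1.2, ω.1.1))
  invFun ω := ((ω.2.2, ω.2.1), ω.1)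
  left_inv _ := rfl
  right_inv _ := rfl

/-- `H(X - (n+1) X') ≤ H(X - n X') + 2 (H(X - X') - H(X))`.
Proof: `ent_triangle` on the space of `(X₁, X₂)` with `a = - n • X₂`, `c = X₂ - X₁` and the
independent variable `b = - X₃`: `a - c = X₁ - (n + 1) X₂`, `a - b = X₃ - n X₂`,
`b - c = X₁ - X₂ - X₃`; and `H(X₁ - X₂ - X₃) + H(X₁) ≤ 2 H(X₁ - X₂)` by `submod'`
(`f = (X₁ - X₂, X₃)`, `g = (X₁ - X₃, X₂)`, `h = X₁ - X₂ - X₃`, `j = (X₁, X₂, X₃)`). -/
lemma hdil_succ (hq : IsProb q) (b : Ω → G) (n : ℕ) :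
    hdil q b (n + 1) ≤ hdil q b n + 2 * (hdil q b 1 - ent q b) := by
  have hP := isProb_prod hq hq
  have h1 := ent_triangle hP hq (fun ω => -(n • b ω.2)) (fun ω => b ω.2 - b ω.1)
    (fun ω => -b ω)
  have h2 := dil_ent_neg (q := q) b
  have h3 : ent (prod q q) (fun ω => -(n • b ω.2) - (b ω.2 - b ω.1)) = hdil q b (n + 1) := by
    unfold hdil
    congr 1
    funext ω
    rw [succ_nsmul]
    abel
  have h4 : ent (prod (prod q q) q) (fun ω => -(n • b ω.1.2) - -b ω.2) = hdil q b n := by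
    have e1 := dil_ent_equiv (dilE2 Ω) (prod (prod q q) q) (prod q (prod q q))
      (fun ω => by simp only [prod, dilE2, Equiv.coe_fn_mk]; ring)
      (fun ω => b ω.1 - n • b ω.2.1)
    have e2 := ent_three_12 q hq (fun ω => b ω.1 - n • b ω.2)
    unfold hdil
    rw [← e2, ← e1]
    congr 1
    funext ω
    simp only [dilE2, Equiv.coe_fn_mk]
    abel
  have h5 : ent (prod (prod q q) q) (fun ω => -b ω.2 - (b ω.1.2 - b ω.1.1)) =
      ent (prod q (prod q q)) (fun ω => b ω.1 + -b ω.2.1 + -b ω.2.2) := by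
    have e1 := dil_ent_equiv (dilE1 Ω) (prod (prod q q) q) (prod q (prod q q))
      (fun ω => by simp only [prod, dilE1, Equiv.prodAssoc_apply]; ring)
      (fun ω => b ω.1 + -b ω.2.1 + -b ω.2.2)
    rw [← e1]
    congr 1
    funext ω
    simp only [dilE1, Equiv.prodAssoc_apply]
    abel
  have h6 := three_sum hq hq b (fun ω => -b ω)
  have h7 : Hs q q b (fun ω => -b ω) = hdil q b 1 := by
    unfold Hs hdil
    congr 1
    funext ω
    rw [one_nsmul, sub_eq_add_neg]
  rw [h7] at h6
  rw [h3, h4, h5, h2] at h1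
  linarith

/-- `H(X - 2n X') - H(X) ≤ (H(X - 2 X') - H(X)) + (H(X - n X') - H(X))`.
Proof: `ent_triangle` with `a = X₁`, `c = 2n X₂` and the independent `b = 2 X₃`:
`H(X₁ - 2n X₂) + H(2 X₃) ≤ H(X₁ - 2 X₃) + H(2 (X₃ - n X₂))`, and
`H(2 (X₃ - n X₂)) - H(2 X₃) ≤ H(X₃ - n X₂) - H(X₃)` by `ent_data`. -/
lemma hdil_two_mul (hq : IsProb q) (b : Ω → G) (n : ℕ) :
    hdil q b (2 * n) ≤ hdil q b 2 + hdil q b n - ent q b := by
  have hP := isProb_prod hq hq
  have h1 := ent_triangle hP hq (fun ω => b ω.1) (fun ω => (2 * n) • b ω.2)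
    (fun ω => 2 • b ω)
  have h3 : ent (prod q q) (fun ω => b ω.1 - (2 * n) • b ω.2) = hdil q b (2 * n) := rfl
  have h4 : ent (prod (prod q q) q) (fun ω => b ω.1.1 - 2 • b ω.2) = hdil q b 2 := by
    have e1 := dil_ent_equiv (dilE1 Ω) (prod (prod q q) q) (prod q (prod q q))
      (fun ω => by simp only [prod, dilE1, Equiv.prodAssoc_apply]; ring)
      (fun ω => b ω.1 - 2 • b ω.2.2)
    have e2 := ent_three_13 q hq (fun ω => b ω.1 - 2 • b ω.2)
    unfold hdil
    rw [← e2, ← e1]
    rfl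
  have h5 : ent (prod (prod q q) q) (fun ω => 2 • b ω.2 - (2 * n) • b ω.1.2) =
      Hs q q (fun ω => 2 • b ω) (fun ω => 2 • (-(n • b ω))) := by
    have e1 := dil_ent_equiv (dilE2 Ω) (prod (prod q q) q) (prod q (prod q q))
      (fun ω => by simp only [prod, dilE2, Equiv.coe_fn_mk]; ring)
      (fun ω => 2 • b ω.1 + 2 • (-(n • b ω.2.1)))
    have e2 := ent_three_12 q hq (fun ω => 2 • b ω.1 + 2 • (-(n • b ω.2)))
    unfold Hs
    rw [← e2, ← e1]
    congr 1
    funext ω
    simp only [dilE2, Equiv.coe_fn_mk]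
    rw [smul_neg, smul_smul, sub_eq_add_neg]
  have h6 := ent_data hq hq b (fun ω => -(n • b ω)) (nsmulAddMonoidHom 2)
  simp only [nsmulAddMonoidHom_apply] at h6
  have h7 : Hs q q b (fun ω => -(n • b ω)) = hdil q b n := by
    unfold Hs hdil
    congr 1
    funext ω
    rw [sub_eq_add_neg]
  rw [h7] at h6
  rw [h3, h4, h5] at h1
  linarith

/-- Proof: induction on binary digits (`Nat.binaryRec` or strong induction with
`Nat.size_bit`); `hdil q b 1 - ent q b ≥ 0`. -/
theorem hdil_le (hq : IsProb q) (b : Ω → G) (n : ℕ) (hn : 1 ≤ n) :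
    hdil q b n ≤ ent q b + 5 * (Nat.size n : ℝ) * (hdil q b 1 - ent q b) := by
  have hD : 0 ≤ hdil q b 1 - ent q b := by
    have h1 := ent_le_Hs_left hq hq b (fun ω => -b ω)
    have h7 : Hs q q b (fun ω => -b ω) = hdil q b 1 := by
      unfold Hs hdil
      congr 1
      funext ω
      rw [one_nsmul, sub_eq_add_neg]
    linarith
  have h2 : hdil q b 2 ≤ hdil q b 1 + 2 * (hdil q b 1 - ent q b) := hdil_succ hq b 1
  induction n using Nat.strong_induction_on with
  | _ n ih =>
    rcases Nat.lt_or_ge n 2 with hn2 | hn2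
    · have : n = 1 := by omega
      subst this
      rw [Nat.size_one]
      push_cast
      nlinarith
    · obtain ⟨m, hm⟩ : ∃ m, m = n / 2 := ⟨_, rfl⟩
      have hm1 : 1 ≤ m := by omega
      have hlt : m < n := by omega
      have h3 := ih m hlt hm1
      have h4 := hdil_two_mul hq b m
      rcases Nat.even_or_odd' n with ⟨k, hk | hk⟩
      · have : k = m := by omega
        subst this
        have hs : Nat.size n = Nat.size k + 1 := by
          have h5 := Nat.size_bit (b := false) (n := k) (by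
            rw [Nat.bit_val]
            simp
            omega)
          rw [Nat.bit_val] at h5
          rw [hk]
          simpa using h5
        rw [hs, hk]
        push_cast
        nlinarith
      · have : k = m := by omega
        subst this
        have hs : Nat.size n = Nat.size k + 1 := by
          have h5 := Nat.size_bit (b := true) (n := k) (by
            rw [Nat.bit_val]
            simp)
          rw [Nat.bit_val] at h5
          rw [hk]
          simpa using h5
        have h5 := hdil_succ hq b (2 * k)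
        rw [hs, hk]
        push_cast
        nlinarith

end

end Pool.Agent.Lib.MP_dd2a7c_co
end

section

/-!
The entropic Freiman-Ruzsa theorem in groups of exponent dividing `m`.
-/

namespace Pool.Agent.Lib.MP_dd2a7c_co

open Finset
open scoped Classical

noncomputable section

universe u

variable {Ω : Type*} [Fintype Ω] {p : Ω → ℝ}

private lemma wpfr_smul {F : Type*} [AddCommGroup F] {m : ℕ} [NeZero m] [Module (ZMod m) F]
    (r : ZMod m) (g : F) : r • g = r.val • g := by
  conv_lhs => rw [← ZMod.natCast_zmod_val r, Nat.cast_smul_eq_nsmul]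

private lemma wpfr_delta {F : Type*} [AddCommGroup F] (hp : IsProb p) (f : Ω → F) :
    0 ≤ hdil p f 1 - ent p f := by
  have h := ent_le_Hs_left hp hp f (fun ω => -f ω)
  have e : Hs p p f (fun ω => -f ω) = hdil p f 1 := by
    unfold Hs hdil
    refine ent_congr _ _ fun ω ω' _ _ => ?_
    simp only [one_smul, sub_eq_add_neg]
  rw [e] at h
  linarith

private lemma wpfr_term {F : Type*} [AddCommGroup F] [Fintype F] {m : ℕ} [NeZero m]
    [Module (ZMod m) F] (hm : 2 ≤ m) (hp : IsProb p) (f : Ω → F) (u : (ZMod m)ˣ) :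
    Hd (conv (law p f) (sm (u : ZMod m) (law p f))) ≤
      ent p f + 5 * (Nat.size m : ℝ) * (hdil p f 1 - ent p f) := by
  have hD := wpfr_delta hp f
  have : Fact (1 < m) := ⟨hm⟩
  obtain ⟨n, hn⟩ : ∃ n, n = (-(u : ZMod m)).val := ⟨_, rfl⟩
  have hn1 : 1 ≤ n := by
    rw [Nat.one_le_iff_ne_zero, hn, Ne, ZMod.val_eq_zero, neg_eq_zero]
    exact u.ne_zero
  have hnm : n ≤ m := by
    rw [hn]
    exact (ZMod.val_lt _).le
  have key : ∀ g : F, (u : ZMod m) • g = -(n • g) := by
    intro g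
    rw [hn, ← wpfr_smul, neg_smul, neg_neg]
  have e : Hd (conv (law p f) (sm (u : ZMod m) (law p f))) = hdil p f n := by
    unfold sm
    rw [law_law, ← ent_add]
    unfold hdil
    refine ent_congr _ _ fun ω ω' _ _ => ?_
    simp only [Function.comp, key, sub_eq_add_neg]
  rw [e]
  refine (hdil_le hp f n hn1).trans ?_
  have h1 : (Nat.size n : ℝ) ≤ Nat.size m := by exact_mod_cast Nat.size_le_size hnm
  have h2 := mul_le_mul_of_nonneg_right (mul_le_mul_of_nonneg_left h1 (show (0:ℝ) ≤ 5 by norm_num))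
    hD
  linarith

private lemma wpfr_low {F : Type*} [AddCommGroup F] [Fintype F] {m : ℕ} [NeZero m]
    [Module (ZMod m) F] (hp : IsProb p) (f : Ω → F) (W : AddSubgroup F) (x : F) (u : (ZMod m)ˣ) :
    Real.log (Nat.card W) + entq W p f ≤
      Hd (conv (law p f) (sm (u : ZMod m) (unif W x))) := by
  obtain ⟨hυ, hHυ⟩ := Hd_unif W x
  have hμ : IsProb (law p f) := isProb_law hp f
  have hs : IsProb (sm (u : ZMod m) (unif W x)) := isProb_sm _ hυ
  have c := ent_data hs hμ id id (QuotientAddGroup.mk' W)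
  have c0 : ent (sm (u : ZMod m) (unif W x)) (fun ω => QuotientAddGroup.mk' W (id ω)) = 0 := by
    have h1 : ent (sm (u : ZMod m) (unif W x)) (fun ω => QuotientAddGroup.mk' W (id ω)) =
        ent (unif W x) ((fun ω => QuotientAddGroup.mk' W (id ω)) ∘
          fun y => (u : ZMod m) • y) := by
      unfold sm
      rw [ent_law]
    rw [h1, ← ent_const hυ ()]
    refine ent_congr _ _ fun ω ω' h2 h2' => ?_
    simp only [iff_true]
    have m1 : ∀ z : F, unif W x z ≠ 0 → z - x ∈ W := by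
      intro z hz
      by_contra hc
      apply hz
      unfold unif
      rw [if_neg hc]
    have h3 : (u : ZMod m) • (-ω + ω') ∈ W := by
      rw [wpfr_smul]
      refine W.nsmul_mem ?_ _
      have := W.sub_mem (m1 ω' h2') (m1 ω h2)
      have e : ω' - x - (ω - x) = -ω + ω' := by abel
      rwa [e] at this
    show (QuotientAddGroup.mk ((u : ZMod m) • ω) : F ⧸ W) =
      QuotientAddGroup.mk ((u : ZMod m) • ω')
    refine QuotientAddGroup.eq.2 ?_
    rwa [smul_add, smul_neg] at h3
  have c1 := ent_le_Hs_right hs hμ (fun ω => QuotientAddGroup.mk' W (id ω))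
    (fun ω => QuotientAddGroup.mk' W (id ω))
  have c2 : ent (law p f) (fun ω => QuotientAddGroup.mk' W (id ω)) = entq W p f := by
    rw [ent_law]
    rfl
  have c3 : ent (sm (u : ZMod m) (unif W x)) id = Real.log (Nat.card W) := by
    have : ent (sm (u : ZMod m) (unif W x)) id = Hd (sm (u : ZMod m) (unif W x)) := rfl
    rw [this, Hd_sm_unit, hHυ]
  have c4 : Hs (sm (u : ZMod m) (unif W x)) (law p f) id id =
      Hd (conv (law p f) (sm (u : ZMod m) (unif W x))) := by
    rw [Hs_comm, Hd_conv]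
    rfl
  rw [c0, c3, c4] at c
  rw [c2] at c1
  linarith

/-- Proof: let `μ = law p f`.  `entropic_main (R := ZMod m) (sumUnits_zmod m)` (see `finite_dilate`
for the instances) gives a subgroup `W` and `x` with `DD μ (unif W x) ≤ 4 ^ 11 * DD μ μ`.
Every term `Hd (conv μ (sm u μ))` of `DD μ μ` is `H(X + u X') = H(X - n X')` with
`n = (-u).val`, `1 ≤ n < m`, hence at most `H(X) + 5 size(m) (H(X - X') - H(X))` (`hdil_le`,
`Nat.size_le_size`), so `DD μ μ ≤ 5 size(m) Δ`, `Δ = hdil p f 1 - ent p f ≥ 0`.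
Every term of `DD μ (unif W x)` is at least `Hd (unif W x) + H(X mod W) = log |W| + H(X mod W)`:
`ent_data` for `u • U` first and `X` second and the quotient map by `W`
(`H(φ(U + X)) - H(φ(U)) ≤ H(U + X) - H(U)`, `φ (u • U)` is constant as `u • W ⊆ W`), and
`Hd (sm u (unif W x)) = log |W|` (`Hd_sm_unit`, `Hd_unif`). Hence
`log |W| + H(X mod W) - (H(X) + log |W|) / 2 ≤ 4 ^ 11 * 5 size(m) Δ`. -/
theorem pfr_mod {F : Type u} [AddCommGroup F] [Finite F] {m : ℕ} (hm : 2 ≤ m)
    (hF : ∀ z : F, m • z = 0) (hp : IsProb p) (f : Ω → F) :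
    ∃ W : AddSubgroup F, Real.log (Nat.card W) + 2 * entq W p f ≤
      ent p f + cm m * (hdil p f 1 - ent p f) := by
  have _ := Fintype.ofFinite F
  have : NeZero m := ⟨by omega⟩
  let _ : Module (ZMod m) F := AddCommGroup.zmodModule hF
  have hμ : IsProb (law p f) := isProb_law hp f
  have hHμ : Hd (law p f) = ent p f := Hd_law p f
  obtain ⟨W, x, hW⟩ := entropic_main (R := ZMod m) (sumUnits_zmod m) hμ
  obtain ⟨-, hHυ⟩ := Hd_unif W x
  have h1 : DD (ZMod m) (law p f) (law p f) ≤
      5 * (Nat.size m : ℝ) * (hdil p f 1 - ent p f) := by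
    unfold DD
    rw [hHμ]
    have : av (fun u : (ZMod m)ˣ => Hd (conv (law p f) (sm (u : ZMod m) (law p f)))) ≤
        av (fun _ : (ZMod m)ˣ => ent p f + 5 * (Nat.size m : ℝ) * (hdil p f 1 - ent p f)) :=
      av_mono fun u => wpfr_term hm hp f u
    rw [av_const] at this
    linarith
  have h2 : Real.log (Nat.card W) + entq W p f - (ent p f + Real.log (Nat.card W)) / 2 ≤
      DD (ZMod m) (law p f) (unif W x) := by
    unfold DD
    rw [hHμ, hHυ]
    have : av (fun _ : (ZMod m)ˣ => Real.log (Nat.card W) + entq W p f) ≤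
        av (fun u : (ZMod m)ˣ => Hd (conv (law p f) (sm (u : ZMod m) (unif W x)))) :=
      av_mono fun u => wpfr_low hp f W x u
    rw [av_const] at this
    linarith
  refine ⟨W, ?_⟩
  have h3 := h2.trans (hW.trans (mul_le_mul_of_nonneg_left h1 (by positivity)))
  unfold cm
  have h4 : (10 : ℝ) * 4 ^ 11 * (Nat.size m : ℝ) * (hdil p f 1 - ent p f) =
      2 * (4 ^ 11 * (5 * (Nat.size m : ℝ) * (hdil p f 1 - ent p f))) := by ring
  rw [h4]
  linarith

end

end Pool.Agent.Lib.MP_dd2a7c_co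
end
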