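import Mathlib
import Pool.Agent.Lib.MP_dd2a7c_co.WpPfr
import Pool.Agent.Lib.MP_dd2a7c_co.WpTri
import Pool.Agent.Lib.MP_dd2a7c_co.WpFib
import Pool.Agent.Lib.MP_dd2a7c_co.WpGrpC

section

section

/-!
Exact subgroups: `WeakQuot` for exponent `m`.
-/

namespace Pool.Agent.Lib.MP_dd2a7c_co

open Finset
open scoped Classical

noncomputable section

universe u

variable {Ω : Type*} [Fintype Ω] {p q : Ω → ℝ}

/-- One step of the iteration (compare `exists_sub_step`).
Proof: `ruzsa_diff` gives `H(f - f') ≤ 2 Hs - H(g)`, so `hdil p f 1 - ent p f ≤ η / 2 * h` with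
`h = ent p f + ent q g`; `pfr_mod` gives `W` with `log |W| + 2 entq W p f ≤ ent p f + h / 12`;
use `ent_le_entq_add`. -/
lemma exists_sub_step_mod {F : Type u} [AddCommGroup F] [Finite F] {m : ℕ} (hm : 2 ≤ m)
    (hF : ∀ z : F, m • z = 0) (hp : IsProb p) (hq : IsProb q) (f g : Ω → F) {η : ℝ}
    (hη0 : 0 < η) (hη : η * (6 * cm m) ≤ 1)
    (hfib : Hs p q f g ≤ (1 / 2 + η / 4) * (ent p f + ent q g)) :
    ∃ W : AddSubgroup F, entq W p f ≤ (ent p f + ent q g) / 6 ∧
      Real.log (Nat.card W) ≤ 2 * (ent p f + ent q g) := by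
  obtain ⟨W, hW⟩ := pfr_mod hm hF hp f
  have hf0 := ent_nonneg hp f
  have hg0 := ent_nonneg hq g
  have e1 : hdil p f 1 = ent (prod p p) (fun ω => f ω.1 - f ω.2) := by
    unfold hdil
    simp only [one_nsmul]
  have e2 := ruzsa_diff hq hp g f
  rw [Hs_comm q p g f] at e2
  have e3 : hdil p f 1 - ent p f ≤ η / 2 * (ent p f + ent q g) := by
    rw [e1]
    linarith
  have e4 : cm m * (hdil p f 1 - ent p f) ≤ (ent p f + ent q g) / 12 := by
    have h1 := mul_le_mul_of_nonneg_left e3 (cm_nonneg m)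
    have h2 : η * (6 * cm m) * (ent p f + ent q g) ≤ 1 * (ent p f + ent q g) :=
      mul_le_mul_of_nonneg_right hη (by linarith)
    linarith
  have e5 := ent_le_entq_add hp f W (Set.toFinite _)
  have e6 := entq_nonneg hp f W
  exact ⟨W, by linarith, by linarith⟩

/-- The iteration: an exact subgroup (compare `exists_exact_subgroup`, same proof). -/
theorem exists_exact_subgroup_mod {F : Type u} [AddCommGroup F] [Finite F] {m : ℕ} (hm : 2 ≤ m)
    (hF : ∀ z : F, m • z = 0) (hp : IsProb p) (hq : IsProb q) (f g : Ω → F) {η : ℝ}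
    (hη0 : 0 < η) (hη1 : η ≤ 2 / 3) (hη : η * (6 * cm m) ≤ 1)
    (hfib : ∀ V : AddSubgroup F, Hs p q (fun ω => (QuotientAddGroup.mk (f ω) : F ⧸ V))
      (fun ω => (QuotientAddGroup.mk (g ω) : F ⧸ V)) ≤
        (1 / 2 + η / 4) * (entq V p f + entq V q g)) :
    ∃ V : AddSubgroup F, (∀ ω ω', p ω ≠ 0 → p ω' ≠ 0 → f ω - f ω' ∈ V) ∧
      (∀ ω ω', q ω ≠ 0 → q ω' ≠ 0 → g ω - g ω' ∈ V) ∧
      Real.log (Nat.card V) ≤ 4 * (ent p f + ent q g) := by
  set h : AddSubgroup F → ℝ := fun V => entq V p f + entq V q g with hdef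
  have h0 : ∀ V, 0 ≤ h V := fun V => add_nonneg (entq_nonneg hp f V) (entq_nonneg hq g V)
  -- one step
  have step : ∀ V : AddSubgroup F, ∃ W : AddSubgroup F, h W ≤ h V / 2 ∧
      Real.log (Nat.card W) ≤ Real.log (Nat.card V) + 2 * h V := by
    intro V
    have hF' : ∀ z : F ⧸ V, m • z = 0 := by
      intro z
      obtain ⟨y, rfl⟩ := QuotientAddGroup.mk_surjective z
      have : (m • (QuotientAddGroup.mk y : F ⧸ V)) = QuotientAddGroup.mk (m • y) := rfl
      rw [this, hF y]
      rfl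
    obtain ⟨W', hW1, hW2⟩ := exists_sub_step_mod hm hF' hp hq
      (fun ω => (QuotientAddGroup.mk (f ω) : F ⧸ V))
      (fun ω => (QuotientAddGroup.mk (g ω) : F ⧸ V)) hη0 hη (hfib V)
    set W := W'.comap (QuotientAddGroup.mk' V) with hW
    have hmk : ∀ a b : F, (QuotientAddGroup.mk a : F ⧸ W) = QuotientAddGroup.mk b ↔
        (QuotientAddGroup.mk (QuotientAddGroup.mk a : F ⧸ V) : (F ⧸ V) ⧸ W') =
          QuotientAddGroup.mk (QuotientAddGroup.mk b : F ⧸ V) := by
      intro a b
      rw [QuotientAddGroup.eq, QuotientAddGroup.eq]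
      rfl
    have e1 : entq W p f = entq W' p (fun ω => (QuotientAddGroup.mk (f ω) : F ⧸ V)) :=
      ent_congr _ _ fun ω ω' _ _ => hmk _ _
    rw [← e1] at hW1
    have hW1' : entq W p f ≤ h V / 6 := hW1
    have hW2' : Real.log (Nat.card W') ≤ 2 * h V := hW2
    refine ⟨W, ?_, ?_⟩
    · -- the other variable
      have f1 := hfib W
      have f2 : entq W q g ≤ Hs p q (fun ω => (QuotientAddGroup.mk (f ω) : F ⧸ W))
        (fun ω => (QuotientAddGroup.mk (g ω) : F ⧸ W)) := ent_le_Hs_right hp hq _ _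
      have f3 := entq_nonneg hp f W
      have f4 := entq_nonneg hq g W
      have f5 : entq W q g ≤ 2 * entq W p f := by
        have := mul_le_mul_of_nonneg_right hη1 f3
        have := mul_le_mul_of_nonneg_right hη1 f4
        linarith
      simp only [hdef] at hW1' ⊢
      linarith
    · -- cardinalities
      have c1 := AddSubgroup.card_mul_index W
      have c2 := AddSubgroup.card_mul_index V
      have c3 := AddSubgroup.card_mul_index W'
      have c4 : W.index = W'.index :=
        AddSubgroup.index_comap_of_surjective W' (QuotientAddGroup.mk'_surjective V)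
      have c5 : Nat.card (F ⧸ V) = V.index := rfl
      have c6 : Nat.card W = Nat.card V * Nat.card W' := by
        have hpos : 0 < W.index := by
          rw [c4]
          exact Nat.pos_of_ne_zero W'.index_ne_zero_of_finite
        apply Nat.eq_of_mul_eq_mul_right hpos
        rw [c1, c4, mul_assoc, c3, c5, c2]
      have p1 : (0 : ℝ) < Nat.card V := by exact_mod_cast Nat.card_pos
      have p2 : (0 : ℝ) < Nat.card W' := by exact_mod_cast Nat.card_pos
      rw [c6, Nat.cast_mul, Real.log_mul p1.ne' p2.ne']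
      linarith
  -- choose a good subgroup with minimal h
  have hb0 : h ⊥ = ent p f + ent q g := by
    simp only [hdef]
    rw [entq_bot, entq_bot]
  obtain ⟨V, hV, hVmin⟩ := Set.exists_min_image
    {V : AddSubgroup F | Real.log (Nat.card V) + 4 * h V ≤ 4 * (ent p f + ent q g)} h
    (Set.toFinite _) ⟨⊥, by
      simp only [Set.mem_ofPred_eq]
      rw [hb0]
      simp⟩
  obtain ⟨W, hW1, hW2⟩ := step V
  have hWm : W ∈ {V : AddSubgroup F | Real.log (Nat.card V) + 4 * h V ≤
      4 * (ent p f + ent q g)} := by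
    simp only [Set.mem_ofPred_eq] at hV ⊢
    linarith
  have hle := hVmin W hWm
  have hV0 : h V = 0 := by
    have := h0 V
    linarith
  have hp0 : 0 ≤ ent p (fun ω => (QuotientAddGroup.mk (f ω) : F ⧸ V)) := entq_nonneg hp f V
  have hq0 : 0 ≤ ent q (fun ω => (QuotientAddGroup.mk (g ω) : F ⧸ V)) := entq_nonneg hq g V
  have hVe : ent p (fun ω => (QuotientAddGroup.mk (f ω) : F ⧸ V)) +
    ent q (fun ω => (QuotientAddGroup.mk (g ω) : F ⧸ V)) = 0 := hV0
  refine ⟨V, fun ω ω' hω hω' => ?_, fun ω ω' hω hω' => ?_, ?_⟩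
  · have := eq_of_ent_eq_zero hp (fun ω => (QuotientAddGroup.mk (f ω) : F ⧸ V)) (by linarith)
      hω' hω
    have h3 := QuotientAddGroup.eq.1 this
    rwa [neg_add_eq_sub] at h3
  · have := eq_of_ent_eq_zero hq (fun ω => (QuotientAddGroup.mk (g ω) : F ⧸ V)) (by linarith)
      hω' hω
    have h3 := QuotientAddGroup.eq.1 this
    rwa [neg_add_eq_sub] at h3
  · simp only [Set.mem_ofPred_eq] at hV
    linarith

end

end Pool.Agent.Lib.MP_dd2a7c_co
end

section

/-!
Finitely generated abelian groups: torsion, quotients by multiples, numbers of generators.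
-/

namespace Pool.Agent.Lib.MP_dd2a7c_co

/-- The index of the multiples of `m` in `ℤ^n`. -/
private theorem wpGrpA_free (n m : ℕ) (hm : 1 ≤ m) :
    (nsmulAddMonoidHom (α := Fin n →₀ ℤ) m).range.index = m ^ n := by
  have : NeZero m := ⟨by omega⟩
  let φ : (Fin n →₀ ℤ) →+ (Fin n → ZMod m) :=
    { toFun := fun f i => (f i : ZMod m)
      map_zero' := by ext i; simp
      map_add' := fun f g => by ext i; simp }
  have hφ : ∀ f i, φ f i = (f i : ZMod m) := fun _ _ => rfl
  have hsurj : Function.Surjective φ := by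
    intro g
    refine ⟨Finsupp.equivFunOnFinite.symm fun i => ((g i).val : ℤ), ?_⟩
    ext i
    rw [hφ]
    simp
  have hker : φ.ker = (nsmulAddMonoidHom (α := Fin n →₀ ℤ) m).range := by
    ext f
    rw [AddMonoidHom.mem_ker, AddMonoidHom.mem_range]
    constructor
    · intro h
      have h1 : ∀ i, (m : ℤ) ∣ f i := by
        intro i
        have := congrFun h i
        rw [hφ] at this
        exact (ZMod.intCast_zmod_eq_zero_iff_dvd _ _).1 this
      choose g hg using h1
      refine ⟨Finsupp.equivFunOnFinite.symm g, ?_⟩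
      ext i
      simp [hg i]
    · rintro ⟨g, rfl⟩
      ext i
      rw [hφ]
      simp
  rw [← hker, AddSubgroup.index_ker, AddMonoidHom.range_eq_top.2 hsurj]
  simp

private theorem wpGrpA_fin {B : Type*} [AddCommGroup B] [Finite B] (m : ℕ) :
    (nsmulAddMonoidHom (α := B) m).range.index = Nat.card (nsmulAddMonoidHom (α := B) m).ker := by
  have h1 := (nsmulAddMonoidHom (α := B) m).range.card_mul_index
  have h2 := (nsmulAddMonoidHom (α := B) m).ker.card_mul_index
  rw [AddSubgroup.index_ker] at h2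
  have h3 : 0 < Nat.card (nsmulAddMonoidHom (α := B) m).range := Nat.card_pos
  have h4 : Nat.card (nsmulAddMonoidHom (α := B) m).range *
      (nsmulAddMonoidHom (α := B) m).range.index =
      Nat.card (nsmulAddMonoidHom (α := B) m).range *
        Nat.card (nsmulAddMonoidHom (α := B) m).ker := by
    rw [h1, mul_comm _ (Nat.card (nsmulAddMonoidHom (α := B) m).ker), h2]
  exact Nat.eq_of_mul_eq_mul_left h3 h4

private theorem wpGrpA_index {L B : Type*} [AddCommGroup L] [AddCommGroup B] [Finite B] {n : ℕ}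
    (e : L ≃+ (Fin n →₀ ℤ) × B) (m : ℕ) (hm : 1 ≤ m) :
    (nsmulAddMonoidHom (α := L) m).range.index =
      m ^ n * Nat.card (nsmulAddMonoidHom (α := B) m).ker := by
  have h1 : (nsmulAddMonoidHom (α := L) m).range.map (e : L →+ (Fin n →₀ ℤ) × B) =
      (nsmulAddMonoidHom (α := Fin n →₀ ℤ) m).range.prod (nsmulAddMonoidHom (α := B) m).range := by
    ext ⟨f, z⟩
    simp only [AddSubgroup.mem_map, AddMonoidHom.mem_range, AddSubgroup.mem_prod]
    constructor
    · rintro ⟨_, ⟨y, rfl⟩, hy⟩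
      have h2 : e (m • y) = (f, z) := hy
      rw [map_nsmul] at h2
      exact ⟨⟨(e y).1, congrArg Prod.fst h2⟩, ⟨(e y).2, congrArg Prod.snd h2⟩⟩
    · rintro ⟨⟨a, ha⟩, ⟨b, hb⟩⟩
      refine ⟨m • e.symm (a, b), ⟨e.symm (a, b), rfl⟩, ?_⟩
      change e (m • e.symm (a, b)) = (f, z)
      rw [map_nsmul, e.apply_symm_apply]
      exact Prod.ext ha hb
  have h2 : ((nsmulAddMonoidHom (α := L) m).range.map (e : L →+ (Fin n →₀ ℤ) × B)).index =
      (nsmulAddMonoidHom (α := L) m).range.index := AddSubgroup.index_map_equiv _ e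
  rw [← h2, h1, AddSubgroup.index_prod, wpGrpA_free n m hm, wpGrpA_fin]

/-- Proof: `ker` is contained in the torsion subgroup `T`, which is finite; `L ⧸ m L` is finite;
`T ⧸ m T → L ⧸ m L` is injective because `L ⧸ T` is torsion-free, and
`|T ⧸ m T| = |T[m]| = |ker|`. (Or use `AddCommGroup.equiv_free_prod_directSum_zmod`.) -/
theorem card_ker_le_index {L : Type*} [AddCommGroup L] [AddGroup.FG L] (m : ℕ) (hm : 1 ≤ m) :
    Finite (nsmulAddMonoidHom (α := L) m).ker ∧
      (nsmulAddMonoidHom (α := L) m).range.index ≠ 0 ∧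
      Nat.card (nsmulAddMonoidHom (α := L) m).ker ≤ (nsmulAddMonoidHom (α := L) m).range.index := by
  classical
  obtain ⟨n, ι, _, q, hq, k, ⟨e⟩⟩ := AddCommGroup.equiv_free_prod_directSum_zmod L
  have : ∀ i, NeZero (q i ^ k i) := fun i => ⟨pow_ne_zero _ (hq i).ne_zero⟩
  have : Finite (DirectSum ι fun i => ZMod (q i ^ k i)) :=
    Finite.of_equiv _ (DirectSum.addEquivProd fun i => ZMod (q i ^ k i)).symm.toEquiv
  have hidx := wpGrpA_index e m hm
  -- the kernel injects into the kernel of the torsion part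
  have hk1 : ∀ z : (nsmulAddMonoidHom (α := L) m).ker, (e z.1).1 = 0 ∧ m • (e z.1).2 = 0 := by
    rintro ⟨z, hz⟩
    have h1 : m • z = 0 := hz
    have h2 : m • e z = 0 := by rw [← map_nsmul, h1, map_zero]
    have h3 : m • (e z).1 = 0 := congrArg Prod.fst h2
    refine ⟨?_, congrArg Prod.snd h2⟩
    rcases smul_eq_zero.1 h3 with h4 | h4
    · omega
    · exact h4
  let ψ : (nsmulAddMonoidHom (α := L) m).ker →
      (nsmulAddMonoidHom (α := DirectSum ι fun i => ZMod (q i ^ k i)) m).ker :=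
    fun z => ⟨(e z.1).2, (hk1 z).2⟩
  have hψ : Function.Injective ψ := by
    intro z z' h
    have h1 : (e z.1).2 = (e z'.1).2 := congrArg Subtype.val h
    apply Subtype.ext
    apply e.injective
    exact Prod.ext (by rw [(hk1 z).1, (hk1 z').1]) h1
  have hfin : Finite (nsmulAddMonoidHom (α := L) m).ker := Finite.of_injective ψ hψ
  have hcard := Nat.card_le_card_of_injective ψ hψ
  have hpos : 1 ≤ m ^ n := Nat.one_le_pow _ _ hm
  have hpos' : 0 < Nat.card
      (nsmulAddMonoidHom (α := DirectSum ι fun i => ZMod (q i ^ k i)) m).ker := Nat.card_pos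
  refine ⟨hfin, ?_, ?_⟩
  · rw [hidx]
    positivity
  · rw [hidx]
    exact hcard.trans (Nat.le_mul_of_pos_left _ hpos)

/-- Proof: `L` has no `p`-torsion, so if `L ≅ ℤ^n × T` with `T` finite then `p` does not divide
`|T|` and `L ⧸ p L` has `p ^ n` elements, while `L ⧸ 2 L` has at least `2 ^ n` elements. -/
theorem index_le_of_no_torsion {L : Type*} [AddCommGroup L] [AddGroup.FG L] {p : ℕ}
    (hp : p.Prime) (h : ∀ z : L, p • z = 0 → z = 0) {r : ℕ}
    (h2 : (nsmulAddMonoidHom (α := L) 2).range.index ≤ 2 ^ r) :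
    (nsmulAddMonoidHom (α := L) p).range.index ≤ p ^ r := by
  classical
  obtain ⟨n, ι, _, q, hq, k, ⟨e⟩⟩ := AddCommGroup.equiv_free_prod_directSum_zmod L
  have : ∀ i, NeZero (q i ^ k i) := fun i => ⟨pow_ne_zero _ (hq i).ne_zero⟩
  have : Finite (DirectSum ι fun i => ZMod (q i ^ k i)) :=
    Finite.of_equiv _ (DirectSum.addEquivProd fun i => ZMod (q i ^ k i)).symm.toEquiv
  have hidx2 := wpGrpA_index e 2 (by norm_num)
  have hidxp := wpGrpA_index e p hp.one_le
  have hker : (nsmulAddMonoidHom (α := DirectSum ι fun i => ZMod (q i ^ k i)) p).ker = ⊥ := by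
    rw [eq_bot_iff]
    intro z hz
    have h1 : p • z = 0 := hz
    have h3 : p • e.symm ((0 : Fin n →₀ ℤ), z) = 0 := by
      rw [← map_nsmul]
      have : p • ((0 : Fin n →₀ ℤ), z) = 0 := Prod.ext (by simp) h1
      rw [this, map_zero]
    have h4 := h _ h3
    have h5 := congrArg e h4
    rw [e.apply_symm_apply, map_zero] at h5
    exact congrArg Prod.snd h5
  have hn : n ≤ r := by
    have h3 : 2 ^ n ≤ 2 ^ r := by
      refine le_trans ?_ h2
      rw [hidx2]
      exact Nat.le_mul_of_pos_right _ Nat.card_pos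
    exact (Nat.pow_le_pow_iff_right (by norm_num)).1 h3
  rw [hidxp, hker]
  simp only [Nat.card_unique, mul_one]
  exact Nat.pow_le_pow_right hp.pos hn

end Pool.Agent.Lib.MP_dd2a7c_co
end
end

section

section

/-!
Quotients by maximal cheap subgroups.
-/

namespace Pool.Agent.Lib.MP_dd2a7c_co

open Finset
open scoped Classical

noncomputable section

variable {G : Type*} [AddCommGroup G] {Ω : Type*} [Fintype Ω] {p q : Ω → ℝ}

private lemma wpSel_mk (H : AddSubgroup G) (H' : AddSubgroup (G ⧸ H)) (a b : G) :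
    ((QuotientAddGroup.mk (QuotientAddGroup.mk a : G ⧸ H) : (G ⧸ H) ⧸ H') =
      QuotientAddGroup.mk (QuotientAddGroup.mk b : G ⧸ H)) ↔
    ((QuotientAddGroup.mk a : G ⧸ (H'.comap (QuotientAddGroup.mk' H))) =
      QuotientAddGroup.mk b) := by
  rw [QuotientAddGroup.eq, QuotientAddGroup.eq]
  rfl

/-- Quotients of quotients: entropies. (compare the proof of `exists_exact_subgroup`) -/
lemma entq_entq (H : AddSubgroup G) (H' : AddSubgroup (G ⧸ H)) (x : Ω → G) :
    entq H' p (fun ω => (QuotientAddGroup.mk (x ω) : G ⧸ H)) =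
      entq (H'.comap (QuotientAddGroup.mk' H)) p x := by
  refine ent_congr _ _ fun ω ω' _ _ => ?_
  exact wpSel_mk H H' (x ω) (x ω')

lemma rdq_rdq (H : AddSubgroup G) (H' : AddSubgroup (G ⧸ H)) (x : Ω → G) :
    rdq H' p q (fun ω => (QuotientAddGroup.mk (x ω) : G ⧸ H))
      (fun ω => (QuotientAddGroup.mk (x ω) : G ⧸ H)) =
      rdq (H'.comap (QuotientAddGroup.mk' H)) p q x x := by
  unfold rdq
  rw [entq_entq, entq_entq]
  congr 1
  refine ent_congr _ _ fun ω ω' _ _ => ?_
  exact wpSel_mk H H' (x ω.1 + x ω.2) (x ω'.1 + x ω'.2)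

lemma card_comap (H : AddSubgroup G) (hH : (H : Set G).Finite) (H' : AddSubgroup (G ⧸ H))
    (hH' : (H' : Set (G ⧸ H)).Finite) :
    ((H'.comap (QuotientAddGroup.mk' H) : AddSubgroup G) : Set G).Finite ∧
      Nat.card (H'.comap (QuotientAddGroup.mk' H) : AddSubgroup G) =
        Nat.card H * Nat.card H' := by
  have hfH : Finite H := hH.to_subtype
  have hfH' : Finite H' := hH'.to_subtype
  set W : AddSubgroup G := H'.comap (QuotientAddGroup.mk' H) with hW
  -- the homomorphism `W → H'`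
  let φ : W →+ H' :=
    { toFun := fun w => ⟨QuotientAddGroup.mk' H w.1, w.2⟩
      map_zero' := by
        apply Subtype.ext
        show QuotientAddGroup.mk' H (0 : G) = 0
        exact map_zero _
      map_add' := fun a b => by
        apply Subtype.ext
        show QuotientAddGroup.mk' H ((a : G) + (b : G)) = _
        exact map_add _ _ _ }
  have hφ : Function.Surjective φ := by
    rintro ⟨y, hy⟩
    obtain ⟨g, rfl⟩ := QuotientAddGroup.mk'_surjective H y
    exact ⟨⟨g, hy⟩, rfl⟩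
  have hker : Nat.card φ.ker = Nat.card H := by
    refine Nat.card_congr
      { toFun := fun w => ⟨w.1.1, ?_⟩
        invFun := fun h => ⟨⟨h.1, ?_⟩, ?_⟩
        left_inv := fun w => rfl
        right_inv := fun h => rfl }
    · have h1 : φ w.1 = 0 := w.2
      have h2 : QuotientAddGroup.mk' H w.1.1 = 0 := congrArg Subtype.val h1
      exact (QuotientAddGroup.eq_zero_iff w.1.1).1 h2
    · have h1 : QuotientAddGroup.mk' H h.1 = 0 := (QuotientAddGroup.eq_zero_iff h.1).2 h.2
      show QuotientAddGroup.mk' H h.1 ∈ H'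
      rw [h1]
      exact H'.zero_mem
    · apply Subtype.ext
      exact (QuotientAddGroup.eq_zero_iff h.1).2 h.2
  have hcard : Nat.card W = Nat.card H * Nat.card H' := by
    rw [AddSubgroup.card_eq_card_quotient_mul_card_addSubgroup φ.ker, hker,
      Nat.card_congr (QuotientAddGroup.quotientKerEquivOfSurjective φ hφ).toEquiv, mul_comm]
  refine ⟨?_, hcard⟩
  have hpos : Nat.card W ≠ 0 := by
    rw [hcard]
    exact mul_ne_zero Nat.card_pos.ne' Nat.card_pos.ne'
  have hfin : Finite W := Nat.finite_of_card_ne_zero hpos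
  exact Set.toFinite _

/-- Proof: call a finite subgroup `H` cheap if
`log |H| - (ent p x - entq H p x) ≤ M * (rd p q x x - rdq H p q x x)`. `⊥` is cheap, and cheap
subgroups satisfy `log |H| ≤ ent p x + M * rd p q x x`, so there is a cheap `H₀` with largest
cardinality (`Nat.findGreatest` or `Nat.sSup`). A nontrivial finite subgroup `H'` of `G ⧸ H₀`
violating the inequality gives the cheap subgroup `comap H'` with `|H₀| |H'| > |H₀|` elements. -/
theorem exists_irreducible {M : ℝ} (hM : 0 ≤ M) (hp : IsProb p) (hq : IsProb q) (x : Ω → G) :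
    ∃ H₀ : AddSubgroup G, (H₀ : Set G).Finite ∧
      Real.log (Nat.card H₀) - (ent p x - entq H₀ p x) ≤ M * rd p q x x ∧
      Irr M p q (fun ω => (QuotientAddGroup.mk (x ω) : G ⧸ H₀)) := by
  -- cheap subgroups
  let P : ℕ → Prop := fun n => ∃ H : AddSubgroup G, (H : Set G).Finite ∧
    Real.log (Nat.card H) - (ent p x - entq H p x) ≤ M * (rd p q x x - rdq H p q x x) ∧
    Nat.card H = n
  have hrd := rd_nonneg hp hq x x
  have hbound : ∀ H : AddSubgroup G, (H : Set G).Finite →
      Real.log (Nat.card H) - (ent p x - entq H p x) ≤ M * (rd p q x x - rdq H p q x x) →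
      Nat.card H ≤ ⌊Real.exp (ent p x + M * rd p q x x)⌋₊ := by
    intro H hH hc
    have hf : Finite H := hH.to_subtype
    have hpos : (0 : ℝ) < Nat.card H := by exact_mod_cast Nat.card_pos
    apply Nat.le_floor
    rw [← Real.log_le_iff_le_exp hpos]
    have h1 := entq_nonneg hp x H
    have h2 := mul_nonneg hM (rdq_nonneg hp hq x x H)
    rw [mul_sub] at hc
    linarith
  have hbot : P 1 := by
    refine ⟨⊥, by simp, ?_, by simp⟩
    have h1 : entq (⊥ : AddSubgroup G) p x = ent p x := entq_bot x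
    have h2 : entq (⊥ : AddSubgroup G) q x = ent q x := entq_bot x
    have h3 : rdq (⊥ : AddSubgroup G) p q x x = rd p q x x := by
      unfold rdq rd
      rw [h1, h2]
      congr 1
      refine ent_congr _ _ fun ω ω' _ _ => ?_
      have h4 : ((QuotientAddGroup.mk (x ω.1 + x ω.2) : G ⧸ (⊥ : AddSubgroup G)) =
          QuotientAddGroup.mk (x ω'.1 + x ω'.2)) ↔ x ω.1 + x ω.2 = x ω'.1 + x ω'.2 := by
        rw [QuotientAddGroup.eq, AddSubgroup.mem_bot, neg_add_eq_zero]
      exact h4
    rw [h1, h3]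
    simp
  have hle1 : 1 ≤ ⌊Real.exp (ent p x + M * rd p q x x)⌋₊ := by
    obtain ⟨H, hH, hc, hn⟩ := hbot
    rw [← hn]
    exact hbound H hH hc
  obtain ⟨H₀, hfin, hcheap, hcard⟩ := Nat.findGreatest_spec (P := P) hle1 hbot
  refine ⟨H₀, hfin, ?_, ?_⟩
  · have h2 := mul_nonneg hM (rdq_nonneg hp hq x x H₀)
    rw [mul_sub] at hcheap
    linarith
  · intro H' hH' hne
    by_contra hcon
    rw [not_lt] at hcon
    obtain ⟨hWfin, hWcard⟩ := card_comap H₀ hfin H' hH'
    have hf : Finite H₀ := hfin.to_subtype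
    have hf' : Finite H' := hH'.to_subtype
    have p1 : (0 : ℝ) < Nat.card H₀ := by exact_mod_cast Nat.card_pos
    have p2 : (0 : ℝ) < Nat.card H' := by exact_mod_cast Nat.card_pos
    have e1 : entq H' p (fun ω => (QuotientAddGroup.mk (x ω) : G ⧸ H₀)) =
      entq (H'.comap (QuotientAddGroup.mk' H₀)) p x := entq_entq H₀ H' x
    have e2 : rdq H' p q (fun ω => (QuotientAddGroup.mk (x ω) : G ⧸ H₀))
      (fun ω => (QuotientAddGroup.mk (x ω) : G ⧸ H₀)) =
      rdq (H'.comap (QuotientAddGroup.mk' H₀)) p q x x := rdq_rdq H₀ H' x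
    have e3 : rd p q (fun ω => (QuotientAddGroup.mk (x ω) : G ⧸ H₀))
      (fun ω => (QuotientAddGroup.mk (x ω) : G ⧸ H₀)) = rdq H₀ p q x x := rfl
    have e4 : ent p (fun ω => (QuotientAddGroup.mk (x ω) : G ⧸ H₀)) = entq H₀ p x := rfl
    rw [e1, e2, e3, e4] at hcon
    have hWc : Real.log (Nat.card (H'.comap (QuotientAddGroup.mk' H₀) : AddSubgroup G)) -
        (ent p x - entq (H'.comap (QuotientAddGroup.mk' H₀)) p x) ≤
        M * (rd p q x x - rdq (H'.comap (QuotientAddGroup.mk' H₀)) p q x x) := by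
      rw [hWcard, Nat.cast_mul, Real.log_mul p1.ne' p2.ne']
      linarith
    have hle := Nat.le_findGreatest (P := P) (hbound _ hWfin hWc)
      ⟨_, hWfin, hWc, rfl⟩
    rw [← hcard, hWcard] at hle
    have h1 : 1 < Nat.card H' := by
      rw [AddSubgroup.one_lt_card_iff_ne_bot]
      exact hne
    have h2 : 0 < Nat.card H₀ := Nat.card_pos
    nlinarith

end

end Pool.Agent.Lib.MP_dd2a7c_co
end

section

/-!
In an irreducible situation the torsion carries little entropy.
-/

namespace Pool.Agent.Lib.MP_dd2a7c_co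

open Finset
open scoped Classical

noncomputable section

universe u

variable {G : Type u} [AddCommGroup G] {Ω : Type*} [Fintype Ω] {p q : Ω → ℝ}

/-- Proof: write `C = 2 + 2 * cm m`, `cost H = log |H| - (ent p x - entq H p x) ≥ 0`
(`ent_le_entq_add`). For `T = ⊥` both sides vanish. Otherwise let `H` minimize
`cost H / log |H|` over the nontrivial subgroups `H ≤ T` (finitely many), `κ` = the minimum.
`Irr` for `H` gives `κ > 0` (as `rdq_le`) and `rd - rdq H < cost H / M`. `fibre_pfr` for `H`, `y = x`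
gives `V ≤ H` with `cost V + (entq V p x - entq H p x) ≤ C * cost H / M`. As
`κ * log |V| ≤ cost V` (trivial for `V = ⊥`), `log |V| ≤ C / M * log |H|`. Hence
`ent p x - entq H p x = log |V| - cost V + (entq V p x - entq H p x) ≤
log |V| + C / M * cost H ≤ 2 C / M * log |H|`, so `κ ≥ 1 - 2 C / M`, and
`cost T ≥ κ log |T|` is the claim. -/
theorem torsion_entropy_le {M : ℝ} (hM : 0 < M) {m : ℕ} (hm : 2 ≤ m) (hp : IsProb p)
    (hq : IsProb q) (x : Ω → G) (hirr : Irr M p q x) (T : AddSubgroup G)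
    (hT : (T : Set G).Finite) (hTm : ∀ z ∈ T, m • z = 0) :
    ent p x - entq T p x ≤ 2 * (2 + 2 * cm m) / M * Real.log (Nat.card T) := by
  have hC : 0 ≤ 2 + 2 * cm m := by
    have := cm_nonneg m
    linarith
  have hfin : {H : AddSubgroup G | H ≤ T ∧ H ≠ ⊥}.Finite := by
    have h1 : {H : AddSubgroup G | (H : Set G) ∈ {s : Set G | s ⊆ (T : Set G)}}.Finite :=
      hT.finite_subsets.preimage (SetLike.coe_injective.injOn)
    exact h1.subset fun H hH => hH.1
  have hcard : ∀ H : AddSubgroup G, H ≤ T → H ≠ ⊥ → 0 < Real.log (Nat.card H) := by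
    intro H hHT hH
    have hHf : (H : Set G).Finite := hT.subset hHT
    have : Finite H := hHf.to_subtype
    have h2 : 1 < Nat.card H := (AddSubgroup.one_lt_card_iff_ne_bot H).2 hH
    exact Real.log_pos (by exact_mod_cast h2)
  have hcost : ∀ H : AddSubgroup G, H ≤ T →
      0 ≤ Real.log (Nat.card H) - (ent p x - entq H p x) := by
    intro H hHT
    have := ent_le_entq_add hp x H (hT.subset hHT)
    linarith
  by_cases hTb : T = ⊥
  · subst hTb
    rw [entq_bot]
    simp
  obtain ⟨H, ⟨hHT, hHb⟩, hmin⟩ := Set.exists_min_image {H : AddSubgroup G | H ≤ T ∧ H ≠ ⊥}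
    (fun H => (Real.log (Nat.card H) - (ent p x - entq H p x)) / Real.log (Nat.card H)) hfin
    ⟨T, le_refl T, hTb⟩
  have hHf : (H : Set G).Finite := hT.subset hHT
  have hlH := hcard H hHT hHb
  have hirrH := hirr H hHf hHb
  have hrdq := rdq_le hp hq x x H
  obtain ⟨V, hVH, hV⟩ := fibre_pfr hm H hHf (fun z hz => hTm z (hHT hz)) hp hq x x
  have hVT : V ≤ T := hVH.trans hHT
  -- cost H > 0
  have hcH : 0 < Real.log (Nat.card H) - (ent p x - entq H p x) :=
    lt_of_le_of_lt (mul_nonneg hM.le (by linarith)) hirrH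
  set cH := Real.log (Nat.card H) - (ent p x - entq H p x) with hcHdef
  set κ := cH / Real.log (Nat.card H) with hκ
  have hκ0 : 0 < κ := div_pos hcH hlH
  have hκH : κ * Real.log (Nat.card H) = cH := div_mul_cancel₀ _ hlH.ne'
  have hκall : ∀ W : AddSubgroup G, W ≤ T →
      κ * Real.log (Nat.card W) ≤ Real.log (Nat.card W) - (ent p x - entq W p x) := by
    intro W hW
    by_cases hWb : W = ⊥
    · subst hWb
      rw [entq_bot]
      simp
    · have h1 := hmin W ⟨hW, hWb⟩
      exact (le_div_iff₀ (hcard W hW hWb)).1 h1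
  have h3 : rd p q x x - rdq H p q x x ≤ cH / M := by
    rw [le_div_iff₀ hM]
    linarith
  have h4 : (2 + 2 * cm m) * (rd p q x x - rdq H p q x x) ≤ (2 + 2 * cm m) * (cH / M) :=
    mul_le_mul_of_nonneg_left h3 hC
  have h5 : entq H p x ≤ entq V p x := entq_anti hp x hVH
  have h6 := hκall V hVT
  have h7 := hcost V hVT
  have h8 : κ * Real.log (Nat.card V) ≤ κ * ((2 + 2 * cm m) / M * Real.log (Nat.card H)) := by
    have : κ * ((2 + 2 * cm m) / M * Real.log (Nat.card H)) = (2 + 2 * cm m) * (cH / M) := by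
      rw [← hκH]
      ring
    rw [this]
    linarith
  have h9 : Real.log (Nat.card V) ≤ (2 + 2 * cm m) / M * Real.log (Nat.card H) :=
    le_of_mul_le_mul_left h8 hκ0
  have h10 : cH ≤ Real.log (Nat.card H) := by
    have := entq_le hp x H
    linarith
  have h11 : (2 + 2 * cm m) * (cH / M) ≤ (2 + 2 * cm m) / M * Real.log (Nat.card H) := by
    have : (2 + 2 * cm m) * (cH / M) = (2 + 2 * cm m) / M * cH := by ring
    rw [this]
    exact mul_le_mul_of_nonneg_left h10 (div_nonneg hC hM.le)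
  have h12 : ent p x - entq H p x ≤ 2 * ((2 + 2 * cm m) / M * Real.log (Nat.card H)) := by
    linarith
  have h13 : 1 - 2 * ((2 + 2 * cm m) / M) ≤ κ := by
    rw [hκ, le_div_iff₀ hlH]
    nlinarith
  have h14 := hκall T le_rfl
  have hlT : 0 ≤ Real.log (Nat.card T) := (hcard T le_rfl hTb).le
  have h15 := mul_le_mul_of_nonneg_right h13 hlT
  have h16 : 2 * (2 + 2 * cm m) / M * Real.log (Nat.card T) =
      2 * ((2 + 2 * cm m) / M) * Real.log (Nat.card T) := by ring
  rw [h16]
  nlinarith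

end

end Pool.Agent.Lib.MP_dd2a7c_co
end

section

/-!
The rank modulo `m` of the group generated by the differences.
-/

namespace Pool.Agent.Lib.MP_dd2a7c_co

open Finset
open scoped Classical

noncomputable section

universe u

variable {G : Type u} [AddCommGroup G] {Ω : Type*} [Fintype Ω] {p q : Ω → ℝ}

lemma sub_mem_diffGrp_left {x : Ω → G} {ω ω' : Ω} (h : p ω ≠ 0) (h' : p ω' ≠ 0) :
    x ω - x ω' ∈ diffGrp p q x :=
  AddSubgroup.subset_closure (Or.inl ⟨ω, ω', h, h', rfl⟩)

lemma sub_mem_diffGrp_right {x : Ω → G} {ω ω' : Ω} (h : q ω ≠ 0) (h' : q ω' ≠ 0) :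
    x ω - x ω' ∈ diffGrp p q x :=
  AddSubgroup.subset_closure (Or.inr ⟨ω, ω', h, h', rfl⟩)

instance diffGrp_fg (x : Ω → G) : AddGroup.FG (diffGrp p q x) := by
  rw [AddGroup.fg_iff_addSubgroup_fg, AddSubgroup.fg_iff]
  refine ⟨_, rfl, ?_⟩
  have hfin : (Set.range fun ω : Ω × Ω => x ω.1 - x ω.2).Finite := Set.finite_range _
  refine (hfin.union hfin).subset (Set.union_subset_union ?_ ?_)
  · rintro z ⟨ω, ω', -, -, h⟩
    exact ⟨(ω, ω'), h⟩
  · rintro z ⟨ω, ω', -, -, h⟩
    exact ⟨(ω, ω'), h⟩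

/-- `H(x mod m L) + H(m x) ≤ H(x - m x')`, where `f` is a function of `x` which is determined by
`x - m x'` on the support.
Proof: `submod_supp` on `prod p p` with `f = x ω.1 - m • x ω.2`, `g = x ω.1`, `h = f ω.1`,
`j = (x ω.1, m • x ω.2)`. -/
lemma ent_add_le_hdil {F : Type*} (hp : IsProb p) (x : Ω → G) (m : ℕ) (f : Ω → F)
    (hf1 : ∀ ω ω', p ω ≠ 0 → p ω' ≠ 0 → x ω = x ω' → f ω = f ω')
    (hf2 : ∀ ω ω' υ υ', p ω ≠ 0 → p ω' ≠ 0 → p υ ≠ 0 → p υ' ≠ 0 →
      x ω - m • x υ = x ω' - m • x υ' → f ω = f ω') :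
    ent p f + ent p (fun ω => m • x ω) ≤ hdil p x m := by
  have h1 := submod_supp (isProb_prod hp hp) (fun ω => x ω.1 - m • x ω.2) (fun ω => x ω.1)
    (fun ω => f ω.1) (fun ω => (x ω.1, m • x ω.2))
    (fun ω ω' h h' he => hf2 _ _ _ _ (ne_fst h) (ne_fst h') (ne_snd h) (ne_snd h') he)
    (fun ω ω' h h' he => hf1 _ _ (ne_fst h) (ne_fst h') he) (by
      intro ω ω' _ _ h h'
      rw [h'] at h
      rw [h', sub_right_injective h])
  have h2 := ent_prod hp hp x (fun ω => m • x ω)
  have h3 := ent_prod_fst p hp x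
  have h4 := ent_prod_fst p hp f
  have h5 : hdil p x m = ent (prod p p) (fun ω => x ω.1 - m • x ω.2) := rfl
  rw [h5]
  linarith

/-- Proof: let `L = diffGrp p q x`, `F = L ⧸ m L` (finite by `card_ker_le_index`),
`f ω = class of x ω - x ω₀`, `g ω = class of x ω - x υ₀` on the supports of `p`, `q`
(as in the proof of `weak_pfr`). `exists_exact_subgroup_mod` with `hfib` gives `V`, which must be
everything because the differences generate `L`; so `log |F| ≤ 4 (ent p f + ent q g)`, and
`ent q g ≤ 2 ent p f` by `hfib` and `ent_le_Hs_right`. By `ent_add_le_hdil`, `hdil_le` and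
`ruzsa_diff`: `ent p f + ent p (m x) ≤ ent p x + 5 size(m) * 2 rd p q x x`. With
`T` = the image in `G` of the kernel of `m` on `L`: `ent p (m x) = entq T p x`,
`ent p x - entq T p x ≤ 1 / 24 * log |T|` by `torsion_entropy_le`, and `|T| ≤ |F|`
(`card_ker_le_index`). Hence `log |F| ≤ 12 ent p f ≤ log |F| / 2 + 120 size(m) rd p q x x`. -/
theorem index_le {m : ℕ} (hm : 2 ≤ m) {η M : ℝ} (hη0 : 0 < η) (hη1 : η ≤ 2 / 3)
    (hη : η * (6 * cm m) ≤ 1) (hM : 48 * (2 + 2 * cm m) ≤ M) (hp : IsProb p) (hq : IsProb q)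
    (x : Ω → G) (hfib : Fibred η p q x) (hirr : Irr M p q x) :
    Real.log ((nsmulAddMonoidHom (α := diffGrp p q x) m).range.index) ≤
      240 * (Nat.size m : ℝ) * rd p q x x := by
  have hsupp : ∀ {p : Ω → ℝ}, IsProb p → ∃ ω, p ω ≠ 0 := by
    intro p hp
    by_contra hcon
    push Not at hcon
    have := hp.sum_one
    simp [hcon] at this
  obtain ⟨ω₀, hω₀⟩ := hsupp hp
  obtain ⟨υ₀, hυ₀⟩ := hsupp hq
  have hm1 : 1 ≤ m := by omega
  obtain ⟨hkfin, hidx, hkcard⟩ := card_ker_le_index (L := diffGrp p q x) m hm1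
  set R := (nsmulAddMonoidHom (α := diffGrp p q x) m).range with hR
  have hFfin : Finite (diffGrp p q x ⧸ R) := Nat.finite_of_card_ne_zero hidx
  have hexp : ∀ z : diffGrp p q x ⧸ R, m • z = 0 := by
    intro z
    induction z using QuotientAddGroup.induction_on with
    | H z =>
      rw [← QuotientAddGroup.mk_nsmul, QuotientAddGroup.eq_zero_iff]
      exact ⟨z, rfl⟩
  let φ : diffGrp p q x →+ diffGrp p q x ⧸ R := QuotientAddGroup.mk' R
  have hφm : ∀ z : diffGrp p q x, φ (m • z) = 0 := fun z => by rw [map_nsmul, hexp]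
  let f : Ω → diffGrp p q x ⧸ R := fun ω =>
    if h : p ω ≠ 0 then φ ⟨x ω - x ω₀, sub_mem_diffGrp_left h hω₀⟩ else 0
  let g : Ω → diffGrp p q x ⧸ R := fun ω =>
    if h : q ω ≠ 0 then φ ⟨x ω - x υ₀, sub_mem_diffGrp_right h hυ₀⟩ else 0
  have hf : ∀ {ω} (h : p ω ≠ 0), f ω = φ ⟨x ω - x ω₀, sub_mem_diffGrp_left h hω₀⟩ :=
    fun {ω} h => dif_pos h
  have hg : ∀ {ω} (h : q ω ≠ 0), g ω = φ ⟨x ω - x υ₀, sub_mem_diffGrp_right h hυ₀⟩ :=
    fun {ω} h => dif_pos h
  -- fibring
  have hfg : ∀ ω ω' υ υ', p ω ≠ 0 → p ω' ≠ 0 → q υ ≠ 0 → q υ' ≠ 0 →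
      x ω + x υ = x ω' + x υ' → f ω + g υ = f ω' + g υ' := by
    intro ω ω' υ υ' h1 h2 h3 h4 he
    rw [hf h1, hf h2, hg h3, hg h4, ← map_add, ← map_add]
    congr 1
    apply Subtype.ext
    change (x ω - x ω₀) + (x υ - x υ₀) = (x ω' - x ω₀) + (x υ' - x υ₀)
    have e : ∀ a b c d : G, (a - b) + (c - d) = (a + c) - (b + d) := by
      intro a b c d
      abel
    rw [e, e, he]
  have hfib' : ∀ V : AddSubgroup (diffGrp p q x ⧸ R),
      Hs p q (fun ω => (QuotientAddGroup.mk (f ω) : (diffGrp p q x ⧸ R) ⧸ V))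
      (fun ω => (QuotientAddGroup.mk (g ω) : (diffGrp p q x ⧸ R) ⧸ V)) ≤ (1 / 2 + η / 4) *
      (entq V p f + entq V q g) := by
    intro V
    refine hfib _ _ _ fun ω ω' υ υ' h1 h2 h3 h4 he => ?_
    have := hfg ω ω' υ υ' h1 h2 h3 h4 he
    rw [← QuotientAddGroup.mk_add, ← QuotientAddGroup.mk_add, this]
  obtain ⟨V, hVf, hVg, hVcard⟩ := exists_exact_subgroup_mod hm hexp hp hq f g hη0 hη1 hη hfib'
  -- V is everything
  have hφ0 : ∀ z : diffGrp p q x, (z : G) = 0 → φ z = 0 := by
    intro z hz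
    have : z = 0 := Subtype.ext hz
    rw [this, map_zero]
  have hVtop : ∀ z : diffGrp p q x, φ z ∈ V := by
    have key : diffGrp p q x ≤ (V.comap φ).map (diffGrp p q x).subtype := by
      conv_lhs => unfold diffGrp
      refine (AddSubgroup.closure_le _).2 ?_
      rintro y (⟨ω, ω', hω, hω', rfl⟩ | ⟨ω, ω', hω, hω', rfl⟩)
      · refine ⟨⟨x ω - x ω', sub_mem_diffGrp_left hω hω'⟩, ?_, rfl⟩
        have h1 := hVf ω ω' hω hω'
        rw [hf hω, hf hω', ← map_sub] at h1
        have e : (⟨x ω - x ω₀, sub_mem_diffGrp_left hω hω₀⟩ : diffGrp p q x) -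
            ⟨x ω' - x ω₀, sub_mem_diffGrp_left hω' hω₀⟩ =
            ⟨x ω - x ω', sub_mem_diffGrp_left hω hω'⟩ := by
          apply Subtype.ext
          change (x ω - x ω₀) - (x ω' - x ω₀) = x ω - x ω'
          abel
        rw [e] at h1
        exact h1
      · refine ⟨⟨x ω - x ω', sub_mem_diffGrp_right hω hω'⟩, ?_, rfl⟩
        have h1 := hVg ω ω' hω hω'
        rw [hg hω, hg hω', ← map_sub] at h1
        have e : (⟨x ω - x υ₀, sub_mem_diffGrp_right hω hυ₀⟩ : diffGrp p q x) -
            ⟨x ω' - x υ₀, sub_mem_diffGrp_right hω' hυ₀⟩ =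
            ⟨x ω - x ω', sub_mem_diffGrp_right hω hω'⟩ := by
          apply Subtype.ext
          change (x ω - x υ₀) - (x ω' - x υ₀) = x ω - x ω'
          abel
        rw [e] at h1
        exact h1
    intro z
    obtain ⟨w, hw, hwz⟩ := key z.2
    have : w = z := Subtype.ext hwz
    rw [← this]
    exact hw
  have hVeq : V = ⊤ := by
    rw [AddSubgroup.eq_top_iff']
    intro y
    obtain ⟨z, rfl⟩ := QuotientAddGroup.mk'_surjective R y
    exact hVtop z
  have hcardV : Nat.card V = R.index := by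
    rw [hVeq, Nat.card_congr (AddSubgroup.topEquiv (G := diffGrp p q x ⧸ R)).toEquiv]
    rfl
  rw [hcardV] at hVcard
  -- the entropy of `g`
  have hge : ent q g ≤ 2 * ent p f := by
    have h1 := hfib (diffGrp p q x ⧸ R) f g hfg
    have h2 := ent_le_Hs_right hp hq f g
    have h3 := ent_nonneg hp f
    have h4 := ent_nonneg hq g
    have h5 : η * (ent p f + ent q g) ≤ 2 / 3 * (ent p f + ent q g) :=
      mul_le_mul_of_nonneg_right hη1 (by linarith)
    nlinarith
  -- the entropy of `f`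
  have hadd := ent_add_le_hdil hp x m f (by
      intro ω ω' h1 h2 he
      rw [hf h1, hf h2]
      congr 2
      rw [he]) (by
      intro ω ω' υ υ' h1 h2 h3 h4 he
      rw [hf h1, hf h2]
      have k1 : φ (⟨x ω - x ω₀, sub_mem_diffGrp_left h1 hω₀⟩ -
          m • ⟨x υ - x ω₀, sub_mem_diffGrp_left h3 hω₀⟩) =
          φ (⟨x ω' - x ω₀, sub_mem_diffGrp_left h2 hω₀⟩ -
          m • ⟨x υ' - x ω₀, sub_mem_diffGrp_left h4 hω₀⟩) := by
        congr 1
        apply Subtype.ext
        change (x ω - x ω₀) - m • (x υ - x ω₀) = (x ω' - x ω₀) - m • (x υ' - x ω₀)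
        rw [smul_sub, smul_sub]
        have e : ∀ a b c d : G, (a - b) - (c - d) = (a - c) - (b - d) := by
          intro a b c d
          abel
        rw [e (x ω), e (x ω'), he]
      rwa [map_sub, map_sub, hφm, hφm, sub_zero, sub_zero] at k1)
  have hdil1 := hdil_le hp x m hm1
  have hd1 : hdil p x 1 - ent p x ≤ 2 * rd p q x x := by
    have h1 := ruzsa_diff hq hp x x
    have h2 : hdil p x 1 = ent (prod p p) (fun ω => x ω.1 - x ω.2) := by
      unfold hdil
      simp only [one_smul]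
    have h3 := Hs_comm q p x x
    rw [h2]
    unfold rd
    rw [h3] at h1
    linarith
  -- the torsion
  set T : AddSubgroup G := (nsmulAddMonoidHom (α := diffGrp p q x) m).ker.map
    (diffGrp p q x).subtype with hT
  have hTmem : ∀ z : G, z ∈ T ↔ z ∈ diffGrp p q x ∧ m • z = 0 := by
    intro z
    constructor
    · rintro ⟨w, hw, rfl⟩
      exact ⟨w.2, congrArg Subtype.val hw⟩
    · rintro ⟨h1, h2⟩
      refine ⟨⟨z, h1⟩, ?_, rfl⟩
      exact Subtype.ext h2
  have hTfin : (T : Set G).Finite := by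
    rw [hT, AddSubgroup.coe_map]
    exact Set.Finite.image _ (Set.toFinite _)
  have hTcard : Nat.card T ≤ R.index := by
    refine le_trans ?_ hkcard
    refine Nat.card_le_card_of_surjective
      (fun z : (nsmulAddMonoidHom (α := diffGrp p q x) m).ker =>
        (⟨(diffGrp p q x).subtype z.1, AddSubgroup.mem_map_of_mem _ z.2⟩ : T)) ?_
    rintro ⟨z, w, hw, rfl⟩
    exact ⟨⟨w, hw⟩, rfl⟩
  have hTent : ent p (fun ω => m • x ω) = entq T p x := by
    refine ent_congr _ _ fun ω ω' h h' => ?_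
    rw [QuotientAddGroup.eq, hTmem]
    constructor
    · intro he
      refine ⟨?_, ?_⟩
      · have := sub_mem_diffGrp_left (p := p) (q := q) (x := x) h' h
        rwa [sub_eq_neg_add] at this
      · rw [smul_add, smul_neg, he, neg_add_cancel]
    · rintro ⟨-, he⟩
      rw [smul_add, smul_neg, neg_add_eq_zero] at he
      exact he
  have hcm := cm_nonneg m
  have hMpos : 0 < M := by linarith
  have htor := torsion_entropy_le hMpos hm hp hq x hirr T hTfin fun z hz => ((hTmem z).1 hz).2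
  have hTpos : (0 : ℝ) < Nat.card T := by
    have : Finite T := hTfin
    exact_mod_cast Nat.card_pos
  have hlogT : Real.log (Nat.card T) ≤ Real.log R.index :=
    Real.log_le_log hTpos (by exact_mod_cast hTcard)
  have hlogT0 : 0 ≤ Real.log (Nat.card T) := by
    apply Real.log_nonneg
    have : Finite T := hTfin
    exact_mod_cast Nat.card_pos
  have hcoef : 2 * (2 + 2 * cm m) / M ≤ 1 / 24 := by
    rw [div_le_iff₀ hMpos]
    linarith
  have hcoef0 : 0 ≤ 2 * (2 + 2 * cm m) / M := by positivity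
  have htor2 : ent p x - entq T p x ≤ 1 / 24 * Real.log R.index := by
    refine htor.trans ?_
    calc 2 * (2 + 2 * cm m) / M * Real.log (Nat.card T) ≤ 1 / 24 * Real.log (Nat.card T) :=
          mul_le_mul_of_nonneg_right hcoef hlogT0
      _ ≤ 1 / 24 * Real.log R.index := by linarith
  rw [hTent] at hadd
  have hsz : (0 : ℝ) ≤ Nat.size m := Nat.cast_nonneg _
  have h6 : 5 * (Nat.size m : ℝ) * (hdil p x 1 - ent p x) ≤
      5 * (Nat.size m : ℝ) * (2 * rd p q x x) := mul_le_mul_of_nonneg_left hd1 (by positivity)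
  have h7 : ent p f ≤ 1 / 24 * Real.log R.index + 10 * (Nat.size m : ℝ) * rd p q x x := by
    have e : 5 * (Nat.size m : ℝ) * (2 * rd p q x x) = 10 * (Nat.size m : ℝ) * rd p q x x := by
      ring
    linarith
  linarith

end

end Pool.Agent.Lib.MP_dd2a7c_co
end
end

section

section

/-!
The weak Freiman-Ruzsa theorem for groups whose torsion has only small primes.
-/

namespace Pool.Agent.Lib.MP_dd2a7c_co

open Finset
open scoped Classical Pointwise

noncomputable section

universe u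

variable {G : Type u} [AddCommGroup G]

private lemma size_log_le {m : ℕ} (hm : 2 ≤ m) :
    (Nat.size m : ℝ) * Real.log 2 ≤ 2 * Real.log m := by
  have h1 : 2 ^ (Nat.size m - 1) ≤ m := by
    by_contra hcon
    push Not at hcon
    have := Nat.size_le.2 hcon
    have h0 : 0 < Nat.size m := Nat.size_pos.2 (by omega)
    omega
  have h0 : 0 < Nat.size m := Nat.size_pos.2 (by omega)
  have h2 : ((Nat.size m - 1 : ℕ) : ℝ) * Real.log 2 ≤ Real.log m := by
    rw [← Real.log_pow]
    exact Real.log_le_log (by positivity) (by exact_mod_cast h1)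
  have h3 : Real.log 2 ≤ Real.log m := Real.log_le_log (by norm_num) (by exact_mod_cast hm)
  have h4 : ((Nat.size m - 1 : ℕ) : ℝ) = (Nat.size m : ℝ) - 1 := by
    rw [Nat.cast_sub (by omega), Nat.cast_one]
  rw [h4] at h2
  linarith

private lemma one_le_cm {P : ℕ} (hP : 2 ≤ P) : 1 ≤ cm P := by
  have h0 : 0 < Nat.size P := Nat.size_pos.2 (by omega)
  have h1 : (1 : ℝ) ≤ Nat.size P := by exact_mod_cast h0
  unfold cm
  nlinarith

/-- Proof: `s = Nat.size P`, `c = cm P`, `η = 1 / (6 c)`, `M = 48 (2 + 2 c)`. `exists_min_weights'`,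
`fibring` (so `Fibred η p q x`), `exists_irreducible` gives `H₀`; `x'` = class modulo `H₀` is
`Fibred` too and `rd p q x' x' ≤ rd p q x x ≤ 2 log K` (`rdq_le`). For primes `m ≤ P` `index_le`
gives `index ≤ exp (480 size(m) log K) ≤ m ^ r` with `r = ⌈1400 log K⌉₊`
(`size m ≤ log m / log 2 + 1 ≤ 2 log m / log 2`); for primes `m > P` `index_le_of_no_torsion` with
`no_torsion_quotient`. `exists_generators` gives generators of `diffGrp p q x'`; lift them to `S`.
`ncard_add_le` with `B = 2 M log K`, `exists_cover` with `L = closure S ⊔ H₀` and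
`B = 8 / η * log K`, and `exists_smooth_subgroup` with `N = |A|` (note `|H₀| ≤ |A + H₀|`). -/
theorem smooth_main (P : ℕ) (hP : 2 ≤ P)
    (hG : ∀ p : ℕ, p.Prime → P < p → ∀ g : G, p • g = 0 → g = 0) (A : Finset G) (K : ℝ)
    (hA : A.Nonempty) (hK : ((A + A).card : ℝ) ≤ K * A.card) :
    ∃ (H : AddSubgroup G) (S T : Finset G), (H : Set G).Finite ∧ Nat.card H ≤ A.card ∧
      (Set.ncard ((A : Set G) + (H : Set G)) : ℝ) ≤
        K * Real.exp (96 * (2 + 2 * cm P) * Real.log K) * A.card ∧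
      (S.card : ℝ) ≤ 1400 * Real.log K + 1 ∧
      (T.card : ℝ) ≤ K * Real.exp (48 * cm P * Real.log K) *
        (P * (K * Real.exp (96 * (2 + 2 * cm P) * Real.log K))) ∧
      (A : Set G) ⊆ (T : Set G) + (AddSubgroup.closure (S : Set G) : Set G) + (H : Set G) := by
  have hApos : (0 : ℝ) < A.card := Nat.cast_pos.2 hA.card_pos
  have hK1 : 1 ≤ K := by
    have h1 : (A.card : ℝ) ≤ (A + A).card := by
      exact_mod_cast card_le_card_add_right hA
    have h2 : 1 * (A.card : ℝ) ≤ K * A.card := by linarith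
    exact le_of_mul_le_mul_right h2 hApos
  have hlogK : 0 ≤ Real.log K := Real.log_nonneg hK1
  have hc1 : 1 ≤ cm P := one_le_cm hP
  obtain ⟨c, hc⟩ : ∃ c, c = cm P := ⟨_, rfl⟩
  rw [← hc] at hc1
  obtain ⟨η, hη⟩ : ∃ η : ℝ, η = 1 / (6 * c) := ⟨_, rfl⟩
  have hη0 : 0 < η := by rw [hη]; positivity
  have hη1 : η ≤ 2 / 3 := by
    rw [hη, div_le_div_iff₀ (by positivity) (by norm_num)]
    linarith
  have hηc : η * (6 * c) = 1 := by
    rw [hη]
    field_simp
  obtain ⟨p, q, u, hp, hq, hu, hmin, hD, hE⟩ :=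
    exists_min_weights' A K hA hK hη0 (hη1.trans (by norm_num))
  set x : A → G := fun ω => (ω : G) with hx
  have hFib : Fibred η p q x := fun V _ f g hfg => fibring hη0.le hu hp hq hmin f g hfg
  obtain ⟨H₀, hH₀, hcost, hirr⟩ :=
    exists_irreducible (M := 48 * (2 + 2 * c)) (by positivity) hp hq x
  set x' : A → G ⧸ H₀ := fun ω => QuotientAddGroup.mk (x ω) with hx'
  have hFib' : Fibred η p q x' := by
    intro V _ f g hfg
    refine hFib V f g fun ω ω' υ υ' h1 h2 h3 h4 he => hfg ω ω' υ υ' h1 h2 h3 h4 ?_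
    rw [hx']
    simp only
    rw [← QuotientAddGroup.mk_add, ← QuotientAddGroup.mk_add, he]
  have hrd' : rd p q x' x' ≤ 2 * Real.log K := (rdq_le hp hq x x H₀).trans hD
  have hrd0 : 0 ≤ rd p q x' x' := rd_nonneg hp hq x' x'
  obtain ⟨r, hr⟩ : ∃ r : ℕ, r = ⌈1400 * Real.log K⌉₊ := ⟨_, rfl⟩
  have hr1 : 1400 * Real.log K ≤ r := by
    rw [hr]
    exact Nat.le_ceil _
  have hr2 : (r : ℝ) ≤ 1400 * Real.log K + 1 := by
    rw [hr]
    exact (Nat.ceil_lt_add_one (by positivity)).le
  have hlog2 : (0.6931471803 : ℝ) < Real.log 2 := Real.log_two_gt_d9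
  have hidx : ∀ m : ℕ, m.Prime → m ≤ P →
      (nsmulAddMonoidHom (α := diffGrp p q x') m).range.index ≤ m ^ r := by
    intro m hm hmP
    rcases Nat.eq_zero_or_pos (nsmulAddMonoidHom (α := diffGrp p q x') m).range.index with h0 | h0
    · rw [h0]
      exact Nat.zero_le _
    have hmono := cm_mono hmP
    rw [← hc] at hmono
    have h1 := index_le hm.two_le hη0 hη1 (by
      rw [← hηc]
      exact mul_le_mul_of_nonneg_left (by linarith) hη0.le) (by linarith) hp hq x' hFib' hirr
    have h2 := size_log_le hm.two_le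
    have h3 : (0 : ℝ) ≤ Nat.size m := Nat.cast_nonneg _
    have hlm : 0 ≤ Real.log m := Real.log_nonneg (by exact_mod_cast hm.one_lt.le)
    have h4 : Real.log ((nsmulAddMonoidHom (α := diffGrp p q x') m).range.index : ℝ) ≤
        r * Real.log m := by
      calc Real.log ((nsmulAddMonoidHom (α := diffGrp p q x') m).range.index : ℝ)
          ≤ 240 * (Nat.size m : ℝ) * rd p q x' x' := h1
        _ ≤ 240 * (Nat.size m : ℝ) * (2 * Real.log K) :=
            mul_le_mul_of_nonneg_left hrd' (by positivity)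
        _ = (480 * Real.log K) * (Nat.size m : ℝ) := by ring
        _ ≤ (480 * Real.log K) * ((1400 / 480) * Real.log m) := by
            refine mul_le_mul_of_nonneg_left ?_ (by positivity)
            have : (Nat.size m : ℝ) * 0.6931471803 ≤ 2 * Real.log m :=
              le_trans (mul_le_mul_of_nonneg_left hlog2.le h3) h2
            nlinarith
        _ = (1400 * Real.log K) * Real.log m := by ring
        _ ≤ r * Real.log m := mul_le_mul_of_nonneg_right hr1 hlm
    rw [← Real.log_pow] at h4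
    have h5 := (Real.log_le_log_iff (by exact_mod_cast h0)
      (by have := hm.pos; positivity)).1 h4
    exact_mod_cast h5
  have hidx' : ∀ m : ℕ, m.Prime →
      (nsmulAddMonoidHom (α := diffGrp p q x') m).range.index ≤ m ^ r := by
    intro m hm
    rcases le_or_gt m P with h | h
    · exact hidx m hm h
    · refine index_le_of_no_torsion hm ?_ (hidx 2 Nat.prime_two hP)
      intro z hz
      apply Subtype.ext
      refine no_torsion_quotient hG H₀ hH₀ m hm h z ?_
      have := congrArg Subtype.val hz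
      simpa using this
  obtain ⟨S', hS'c, hS'⟩ := exists_generators r hidx'
  -- lift the generators
  have hsurj : ∀ z : G ⧸ H₀, ∃ g : G, (QuotientAddGroup.mk g : G ⧸ H₀) = z :=
    fun z => QuotientAddGroup.mk_surjective z
  choose s hs using hsurj
  set S : Finset G := S'.image (fun z => s z.1) with hS
  set L : AddSubgroup G := AddSubgroup.closure (S : Set G) ⊔ H₀ with hL
  have key : ∀ z : diffGrp p q x', (z : G ⧸ H₀) ∈
      (AddSubgroup.closure (S : Set G)).map (QuotientAddGroup.mk' H₀) := by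
    intro z
    have hz : z ∈ AddSubgroup.closure (S' : Set (diffGrp p q x')) := by
      rw [hS']
      exact AddSubgroup.mem_top _
    induction hz using AddSubgroup.closure_induction with
    | mem y hy =>
      refine ⟨s y.1, AddSubgroup.subset_closure ?_, hs y.1⟩
      rw [hS]
      exact mem_coe.2 (mem_image.2 ⟨y, hy, rfl⟩)
    | zero => exact AddSubgroup.zero_mem _
    | add y y' _ _ h h' => exact AddSubgroup.add_mem _ h h'
    | neg y _ h => exact AddSubgroup.neg_mem _ h
  have hmemL : ∀ g : G, (QuotientAddGroup.mk g : G ⧸ H₀) ∈ diffGrp p q x' → g ∈ L := by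
    intro g hg
    obtain ⟨y, hy, hyg⟩ := key ⟨_, hg⟩
    have h1 : -y + g ∈ H₀ := QuotientAddGroup.eq.1 hyg
    have h2 : g = y + (-y + g) := by abel
    rw [h2]
    exact AddSubgroup.add_mem_sup hy h1
  obtain ⟨T₀, hT₀c, hT₀⟩ := exists_cover A K hA hK hp L hE (by
    intro ω ω' h h'
    apply hmemL
    rw [QuotientAddGroup.mk_sub]
    exact sub_mem_diffGrp_left h h')
  have hE2 : 8 / η * Real.log K = 48 * c * Real.log K := by
    rw [hη]
    field_simp
    ring
  rw [hE2] at hT₀c
  have hcost2 : Real.log (Nat.card H₀) - (ent p x - entq H₀ p x) ≤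
      96 * (2 + 2 * c) * Real.log K := by
    refine hcost.trans ?_
    have : 48 * (2 + 2 * c) * rd p q x x ≤ 48 * (2 + 2 * c) * (2 * Real.log K) :=
      mul_le_mul_of_nonneg_left hD (by positivity)
    linarith
  have hAH := ncard_add_le A K hK hp H₀ hH₀ hcost2
  have hfinAH : ((A : Set G) + (H₀ : Set G)).Finite := A.finite_toSet.add hH₀
  obtain ⟨a₀, ha₀⟩ := hA
  have hcardH₀ : (Nat.card H₀ : ℝ) ≤ Set.ncard ((A : Set G) + (H₀ : Set G)) := by
    have h1 : Set.ncard ((fun z => a₀ + z) '' (H₀ : Set G)) = Nat.card H₀ := by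
      rw [Set.ncard_image_of_injective _ (add_right_injective a₀)]
      rfl
    rw [← h1]
    have h2 : (fun z => a₀ + z) '' (H₀ : Set G) ⊆ (A : Set G) + (H₀ : Set G) := by
      rintro _ ⟨z, hz, rfl⟩
      exact Set.add_mem_add (mem_coe.2 ha₀) hz
    exact_mod_cast Set.ncard_le_ncard h2 hfinAH
  have hexp1 : 1 ≤ K * Real.exp (96 * (2 + 2 * c) * Real.log K) := by
    have : 1 ≤ Real.exp (96 * (2 + 2 * c) * Real.log K) := Real.one_le_exp (by positivity)
    nlinarith
  obtain ⟨H, R, hHH₀, hHc, hRc, hR⟩ := exists_smooth_subgroup H₀ hH₀ (P := P) (by omega)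
    (fun p' hp' hd => prime_le_of_dvd_card hG H₀ hH₀ hp' hd) A.card
    (Finset.card_pos.2 ⟨a₀, ha₀⟩) (K * Real.exp (96 * (2 + 2 * c) * Real.log K)) hexp1
    (hcardH₀.trans hAH)
  rw [← hc]
  refine ⟨H, S, T₀ + R, hH₀.subset hHH₀, hHc, ?_, ?_, ?_, ?_⟩
  · refine le_trans ?_ hAH
    exact_mod_cast Set.ncard_le_ncard (Set.add_subset_add_left hHH₀) hfinAH
  · refine le_trans ?_ hr2
    have : S.card ≤ r := (card_image_le).trans hS'c
    exact_mod_cast this
  · calc ((T₀ + R).card : ℝ) ≤ (T₀.card : ℝ) * R.card := by exact_mod_cast card_add_le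
      _ ≤ _ := mul_le_mul hT₀c hRc (Nat.cast_nonneg _) (by positivity)
  · intro a ha
    obtain ⟨t, ht, l, hl, rfl⟩ := Set.mem_add.1 (hT₀ ha)
    obtain ⟨y, hy, z, hz, rfl⟩ := AddSubgroup.mem_sup.1 hl
    obtain ⟨t', ht', g, hg, rfl⟩ := hR z hz
    rw [Set.mem_add]
    refine ⟨t + t' + y, ?_, g, hg, by abel⟩
    refine Set.add_mem_add ?_ hy
    rw [coe_add]
    exact Set.add_mem_add ht (mem_coe.2 ht')

end

end Pool.Agent.Lib.MP_dd2a7c_co
end

section

/-!
The weak Freiman-Ruzsa theorem for groups whose torsion has only small primes: final form.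
-/

namespace Pool.Agent.Lib.MP_dd2a7c_co

open Finset
open scoped Pointwise

universe u

private lemma final_size_log_le {m : ℕ} (hm : 2 ≤ m) :
    (Nat.size m : ℝ) * Real.log 2 ≤ 2 * Real.log m := by
  have h1 : 2 ^ (Nat.size m - 1) ≤ m := by
    by_contra hcon
    push Not at hcon
    have := Nat.size_le.2 hcon
    have h0 : 0 < Nat.size m := Nat.size_pos.2 (by omega)
    omega
  have h0 : 0 < Nat.size m := Nat.size_pos.2 (by omega)
  have h2 : ((Nat.size m - 1 : ℕ) : ℝ) * Real.log 2 ≤ Real.log m := by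
    rw [← Real.log_pow]
    exact Real.log_le_log (by positivity) (by exact_mod_cast h1)
  have h3 : Real.log 2 ≤ Real.log m := Real.log_le_log (by norm_num) (by exact_mod_cast hm)
  have h4 : ((Nat.size m - 1 : ℕ) : ℝ) = (Nat.size m : ℝ) - 1 := by
    rw [Nat.cast_sub (by omega), Nat.cast_one]
  rw [h4] at h2
  linarith

/-- Weak Freiman-Ruzsa theorem in abelian groups without `p`-torsion for the primes `p > P`. -/
theorem smooth_final : ∃ C : ℝ, 0 < C ∧ ∀ (Γ : Type u) [AddCommGroup Γ] [DecidableEq Γ] (P : ℕ),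
    2 ≤ P → (∀ p : ℕ, p.Prime → P < p → ∀ g : Γ, p • g = 0 → g = 0) →
    ∀ (K : ℝ) (A : Finset Γ), A.Nonempty → ((A + A).card : ℝ) ≤ K * A.card →
    ∃ (H : AddSubgroup Γ) (S T : Finset Γ), (H : Set Γ).Finite ∧ Nat.card H ≤ A.card ∧
      (Set.ncard ((A : Set Γ) + (H : Set Γ)) : ℝ) ≤ (2 * K) ^ (C * Real.log P) * A.card ∧
      (S.card : ℝ) ≤ C * Real.log (2 * K) ∧
      (T.card : ℝ) ≤ (2 * K) ^ (C * Real.log P) ∧
      (A : Set Γ) ⊆ (T : Set Γ) + (AddSubgroup.closure (S : Set Γ) : Set Γ) + (H : Set Γ) := by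
  refine ⟨10 ^ 11, by norm_num, ?_⟩
  intro Γ _ inst P hP hG K A hA hK
  have hApos : (0 : ℝ) < A.card := Nat.cast_pos.2 hA.card_pos
  have hK1 : 1 ≤ K := by
    have h1 : (A.card : ℝ) ≤ (A + A).card := by
      exact_mod_cast card_le_card_add_right hA
    have h2 : 1 * (A.card : ℝ) ≤ K * A.card := by linarith
    exact le_of_mul_le_mul_right h2 hApos
  have hlogK : 0 ≤ Real.log K := Real.log_nonneg hK1
  have hinst : inst = Classical.decEq Γ := Subsingleton.elim _ _
  subst hinst
  obtain ⟨H, S, T, h1, h2, h3, h4, h5, h6⟩ := smooth_main P hP hG A K hA hK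
  have hlog2 : (0.6931471803 : ℝ) < Real.log 2 := Real.log_two_gt_d9
  have hPR : (2 : ℝ) ≤ P := by exact_mod_cast hP
  have hlogP : Real.log 2 ≤ Real.log P := Real.log_le_log (by norm_num) hPR
  have hlog2K : Real.log (2 * K) = Real.log 2 + Real.log K :=
    Real.log_mul (by norm_num) (by linarith)
  obtain ⟨l, hl⟩ : ∃ l, l = Real.log P := ⟨_, rfl⟩
  obtain ⟨k, hk⟩ : ∃ k, k = Real.log K := ⟨_, rfl⟩
  obtain ⟨k2, hk2⟩ : ∃ k2, k2 = Real.log (2 * K) := ⟨_, rfl⟩
  obtain ⟨c, hc⟩ : ∃ c, c = cm P := ⟨_, rfl⟩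
  have hcl : c ≤ 30 * 4 ^ 11 * l := by
    have h := final_size_log_le hP
    have h3 : (0 : ℝ) ≤ Nat.size P := Nat.cast_nonneg _
    have h4 : (Nat.size P : ℝ) * 0.6931471803 ≤ 2 * Real.log P :=
      le_trans (mul_le_mul_of_nonneg_left hlog2.le h3) h
    rw [hc, hl]
    unfold cm
    nlinarith
  have hc0 : 0 ≤ c := by rw [hc]; exact cm_nonneg P
  have hk0 : 0 ≤ k := by rw [hk]; exact hlogK
  have hkk2 : k ≤ k2 := by rw [hk, hk2, hlog2K]; linarith
  have hk21 : (0.69 : ℝ) ≤ k2 := by rw [hk2, hlog2K]; linarith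
  have hl1 : (0.69 : ℝ) ≤ l := by rw [hl]; linarith
  have hKe : K = Real.exp k := by rw [hk, Real.exp_log (by linarith)]
  have hPe : (P : ℝ) = Real.exp l := by rw [hl, Real.exp_log (by linarith)]
  have hpow : (2 * K) ^ ((10 ^ 11 : ℝ) * Real.log P) = Real.exp (k2 * (10 ^ 11 * l)) := by
    rw [Real.rpow_def_of_pos (by linarith), ← hk2, ← hl]
  have hck : c * k ≤ 30 * 4 ^ 11 * (l * k2) := by
    calc c * k ≤ (30 * 4 ^ 11 * l) * k2 := mul_le_mul hcl hkk2 hk0 (by positivity)
      _ = 30 * 4 ^ 11 * (l * k2) := by ring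
  have hlk : k ≤ 2 * (l * k2) := by nlinarith
  have hlk2 : l ≤ 2 * (l * k2) := by nlinarith
  have hlk0 : 0 ≤ l * k2 := by positivity
  rw [← hc, ← hk] at h3 h5
  rw [← hk] at h4
  refine ⟨H, S, T, h1, h2, ?_, ?_, ?_, h6⟩
  · refine h3.trans (mul_le_mul_of_nonneg_right ?_ hApos.le)
    rw [hpow]
    conv_lhs => rw [hKe]
    rw [← Real.exp_add]
    apply Real.exp_le_exp.2
    nlinarith
  · rw [← hk2]
    nlinarith
  · refine h5.trans ?_
    rw [hpow]
    conv_lhs => rw [hKe, hPe]
    rw [← Real.exp_add, ← Real.exp_add, ← Real.exp_add, ← Real.exp_add]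
    apply Real.exp_le_exp.2
    nlinarith

end Pool.Agent.Lib.MP_dd2a7c_co
end
end
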